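import Mathlib

/-!
# Kronecker substitution certificates for heights of integer polynomials

If `H * D = N` with `N` and `D` products of few binomials, the value `H (2 ^ w)` is the quotient
`N (2 ^ w) / D (2 ^ w)`, and the coefficients of `H` can be read off (and bounded) from the base
`2 ^ w` digits of that integer.
-/

namespace Pool.Agent.Q35.Kron

open Polynomial Finset

/-- All coefficients of `P` are at most `K` in absolute value. -/
def Bd (P : ℤ[X]) (K : ℕ) : Prop := ∀ i, |P.coeff i| ≤ (K : ℤ)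

lemma Bd.mul_X_pow_sub_one {P : ℤ[X]} {K : ℕ} (h : Bd P K) (s : ℕ) :
    Bd (P * (X ^ s - 1)) (2 * K) := by
  intro i
  rw [mul_sub, mul_one, coeff_sub, coeff_mul_X_pow']
  have h1 := h i
  split_ifs
  · have h2 := h (i - s)
    rw [abs_le] at *
    push_cast
    constructor <;> linarith [h1.1, h1.2, h2.1, h2.2]
  · rw [abs_le] at *
    push_cast
    have hK : (0 : ℤ) ≤ K := by positivity
    constructor <;> linarith [h1.1, h1.2]

lemma Bd.sub {P Q : ℤ[X]} {a b : ℕ} (hP : Bd P a) (hQ : Bd Q b) : Bd (P - Q) (a + b) := by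
  intro i
  rw [coeff_sub]
  have h1 := hP i
  have h2 := hQ i
  rw [abs_le] at *
  push_cast
  constructor <;> linarith [h1.1, h1.2, h2.1, h2.2]

lemma Bd.one : Bd 1 1 := by
  intro i
  rw [coeff_one]
  split_ifs <;> simp

lemma Bd.mono {P : ℤ[X]} {a b : ℕ} (hP : Bd P a) (h : a ≤ b) : Bd P b := fun i =>
  (hP i).trans (by exact_mod_cast h)

/-- A polynomial with coefficients smaller than `β` which vanishes at `β` is zero. -/
theorem eq_zero_of_eval (β : ℤ) (K : ℕ) (hK : (K : ℤ) < β) :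
    ∀ (n : ℕ) (P : ℤ[X]), P.natDegree < n → Bd P K → P.eval β = 0 → P = 0 := by
  have hβ : 0 < β := lt_of_le_of_lt (by positivity) hK
  intro n
  induction n with
  | zero => intro P h; omega
  | succ n ih =>
    intro P hn hP h0
    have e := divX_mul_X_add P
    have h1 : (divX P).eval β * β + P.coeff 0 = 0 := by
      have := congrArg (eval β) e
      rw [eval_add, eval_mul, eval_X, eval_C, h0] at this
      exact this
    have h2 : β ∣ P.coeff 0 := ⟨-(divX P).eval β, by linarith⟩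
    have h3 : P.coeff 0 = 0 := Int.eq_zero_of_abs_lt_dvd h2 (lt_of_le_of_lt (hP 0) hK)
    have h4 : (divX P).eval β = 0 := by
      rw [h3, add_zero] at h1
      rcases mul_eq_zero.mp h1 with h | h
      · exact h
      · omega
    by_cases hdeg : P.natDegree = 0
    · rw [eq_C_of_natDegree_eq_zero hdeg, h3, C_0]
    · have h5 : divX P = 0 := by
        apply ih _ _ _ h4
        · rw [natDegree_divX_eq_natDegree_tsub_one]; omega
        · intro i
          rw [coeff_divX]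
          exact hP (i + 1)
      rw [← e, h5, h3]; simp

/-- The polynomial of base `2 ^ w` digits. -/
noncomputable def dig (w T L : ℕ) : ℤ[X] :=
  ∑ i ∈ range L, C (((T / 2 ^ (w * i)) % 2 ^ w : ℕ) : ℤ) * X ^ i

/-- `1 + X + ⋯ + X ^ (L-1)`. -/
noncomputable def ones (L : ℕ) : ℤ[X] := ∑ i ∈ range L, X ^ i

lemma sum_dig (w T : ℕ) : ∀ L, ∑ i ∈ range L, (T / 2 ^ (w * i)) % 2 ^ w * (2 ^ w) ^ i
    = T % 2 ^ (w * L)
  | 0 => by simp [Nat.mod_one]
  | L + 1 => by
    rw [sum_range_succ, sum_dig w T L]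
    have : 2 ^ (w * (L + 1)) = 2 ^ (w * L) * 2 ^ w := by rw [← pow_add]; ring_nf
    rw [this, Nat.mod_mul, ← pow_mul]
    ring

lemma eval_dig (w T L : ℕ) (h : T < 2 ^ (w * L)) :
    (dig w T L).eval ((2 ^ w : ℕ) : ℤ) = T := by
  unfold dig
  rw [eval_finsetSum]
  have : ∀ i ∈ range L, eval ((2 ^ w : ℕ) : ℤ) (C (((T / 2 ^ (w * i)) % 2 ^ w : ℕ) : ℤ) * X ^ i)
      = (((T / 2 ^ (w * i)) % 2 ^ w * (2 ^ w) ^ i : ℕ) : ℤ) := by
    intro i _
    rw [eval_mul, eval_C, eval_pow, eval_X]; push_cast; ring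
  rw [sum_congr rfl this, ← Nat.cast_sum, sum_dig, Nat.mod_eq_of_lt h]

lemma coeff_dig (w T L i : ℕ) :
    (dig w T L).coeff i = if i < L then (((T / 2 ^ (w * i)) % 2 ^ w : ℕ) : ℤ) else 0 := by
  unfold dig
  simp only [finsetSum_coeff, coeff_C_mul, coeff_X_pow]
  simp

lemma coeff_ones (L i : ℕ) : (ones L).coeff i = if i < L then 1 else 0 := by
  unfold ones
  simp only [finsetSum_coeff, coeff_X_pow]
  simp

lemma eval_ones (w L : ℕ) :
    (ones L).eval ((2 ^ w : ℕ) : ℤ) = ((∑ i ∈ range L, (2 ^ w) ^ i : ℕ) : ℤ) := by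
  unfold ones
  rw [eval_finsetSum]
  push_cast
  simp

/-- Mask lemma: if `T` has no bit in common with the mask, each digit is small. -/
lemma mask_digits (w m : ℕ) (hm : m < 2 ^ w) : ∀ (L T : ℕ),
    T &&& (m * ∑ i ∈ range L, (2 ^ w) ^ i) = 0 →
    ∀ i < L, ((T / 2 ^ (w * i)) % 2 ^ w) &&& m = 0 := by
  intro L
  induction L with
  | zero => intro T _ i hi; omega
  | succ L ih =>
    intro T hT i hi
    set S := ∑ i ∈ range L, (2 ^ w) ^ i with hS
    have e : m * ∑ i ∈ range (L + 1), (2 ^ w) ^ i = m + 2 ^ w * (m * S) := by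
      rw [sum_range_succ', hS, mul_add, pow_zero, mul_one, mul_comm (2 ^ w), mul_assoc, sum_mul]
      simp only [pow_succ]; ring
    rw [e] at hT
    have h1 : (T % 2 ^ w) &&& m = 0 := by
      have := Nat.and_mod_two_pow (a := T) (b := m + 2 ^ w * (m * S)) (n := w)
      rw [hT, Nat.add_mul_mod_self_left, Nat.mod_eq_of_lt hm] at this
      simpa using this.symm
    have h2 : (T / 2 ^ w) &&& (m * S) = 0 := by
      have := Nat.and_div_two_pow (a := T) (b := m + 2 ^ w * (m * S)) (n := w)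
      rw [hT, Nat.add_mul_div_left _ _ (by positivity), Nat.div_eq_of_lt hm, zero_add] at this
      simpa using this.symm
    rcases Nat.eq_zero_or_pos i with hi0 | hi0
    · subst hi0; simpa using h1
    · obtain ⟨j, rfl⟩ : ∃ j, i = j + 1 := ⟨i - 1, by omega⟩
      have h3 := ih (T / 2 ^ w) h2 j (by omega)
      have : 2 ^ (w * (j + 1)) = 2 ^ w * 2 ^ (w * j) := by rw [← pow_add]; ring_nf
      rw [this, ← Nat.div_div_eq_div_mul]
      exact h3

lemma small_of_mask (w t d : ℕ) (htw : t ≤ w) (hd : d < 2 ^ w) (h : d &&& (2 ^ w - 2 ^ t) = 0) :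
    d < 2 ^ t := by
  have h1 := Nat.and_div_two_pow (a := d) (b := 2 ^ w - 2 ^ t) (n := t)
  rw [h, Nat.zero_div] at h1
  have h2 : (2 ^ w - 2 ^ t) / 2 ^ t = 2 ^ (w - t) - 1 := by
    have : 2 ^ w - 2 ^ t = (2 ^ (w - t) - 1) * 2 ^ t := by
      rw [Nat.sub_mul, ← pow_add, one_mul]; congr 2; omega
    rw [this, Nat.mul_div_cancel _ (by positivity)]
  rw [h2, Nat.and_two_pow_sub_one_eq_mod] at h1
  have h3 : d / 2 ^ t < 2 ^ (w - t) := by
    rw [Nat.div_lt_iff_lt_mul (by positivity), ← pow_add]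
    have : w - t + t = w := by omega
    rw [this]; exact hd
  rw [Nat.mod_eq_of_lt h3] at h1
  by_contra hc
  have : 1 ≤ d / 2 ^ t := (Nat.one_le_div_iff (by positivity)).mpr (by omega)
  omega

/-- The certificate theorem. -/
theorem bound_of_masks (w t L M K c : ℕ) (htw : t ≤ w) (H D N : ℤ[X]) (hD0 : D ≠ 0)
    (hHD : H * D = N) (T₁ T₂ R : ℕ) (hR : ∑ i ∈ range L, (2 ^ w) ^ i = R)
    (hT₁ : (T₁ : ℤ) = H.eval ((2 ^ w : ℕ) : ℤ) + M * R)
    (hT₂ : (T₂ : ℤ) = M * R - H.eval ((2 ^ w : ℕ) : ℤ))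
    (h₁ : T₁ &&& ((2 ^ w - 2 ^ t) * R) = 0) (h₂ : T₂ &&& ((2 ^ w - 2 ^ t) * R) = 0)
    (hL₁ : T₁ < 2 ^ (w * L)) (hL₂ : T₂ < 2 ^ (w * L))
    (hN : Bd N K) (hD : ∀ P m, Bd P m → Bd (P * D) (c * m))
    (hs : c * (M + 2 ^ t) + K < 2 ^ w) : Bd H M := by
  have hm : 2 ^ w - 2 ^ t < 2 ^ w := Nat.sub_lt (by positivity) (by positivity)
  have key : ∀ G : ℤ[X], Bd G (M + 2 ^ t) → G.eval ((2 ^ w : ℕ) : ℤ) = H.eval ((2 ^ w : ℕ) : ℤ) →
      G = H := by
    intro G hG he
    have hb : Bd (G * D - N) (c * (M + 2 ^ t) + K) := (hD _ _ hG).sub hN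
    have h0 : (G * D - N).eval ((2 ^ w : ℕ) : ℤ) = 0 := by
      rw [← hHD, eval_sub, eval_mul, eval_mul, he, sub_self]
    have h1 := eq_zero_of_eval ((2 ^ w : ℕ) : ℤ) _ (by exact_mod_cast hs) _ _ (Nat.lt_succ_self _)
      hb h0
    have h2 : G * D = H * D := by rw [hHD]; exact sub_eq_zero.mp h1
    exact mul_right_cancel₀ hD0 h2
  have d1 : ∀ i < L, (T₁ / 2 ^ (w * i)) % 2 ^ w < 2 ^ t := by
    intro i hi
    apply small_of_mask w t _ htw (Nat.mod_lt _ (by positivity))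
    exact mask_digits w _ hm L T₁ (by rw [hR]; exact h₁) i hi
  have d2 : ∀ i < L, (T₂ / 2 ^ (w * i)) % 2 ^ w < 2 ^ t := by
    intro i hi
    apply small_of_mask w t _ htw (Nat.mod_lt _ (by positivity))
    exact mask_digits w _ hm L T₂ (by rw [hR]; exact h₂) i hi
  have c1 : ∀ i, (dig w T₁ L - C (M : ℤ) * ones L).coeff i
      = if i < L then (((T₁ / 2 ^ (w * i)) % 2 ^ w : ℕ) : ℤ) - M else 0 := by
    intro i
    rw [coeff_sub, coeff_C_mul, coeff_dig, coeff_ones]
    split_ifs <;> simp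
  have c2 : ∀ i, (C (M : ℤ) * ones L - dig w T₂ L).coeff i
      = if i < L then M - (((T₂ / 2 ^ (w * i)) % 2 ^ w : ℕ) : ℤ) else 0 := by
    intro i
    rw [coeff_sub, coeff_C_mul, coeff_dig, coeff_ones]
    split_ifs <;> simp
  have e1 : dig w T₁ L - C (M : ℤ) * ones L = H := by
    apply key
    · intro i
      rw [c1 i]
      split_ifs with hi
      · have h5 : (((T₁ / 2 ^ (w * i)) % 2 ^ w : ℕ) : ℤ) < ((2 ^ t : ℕ) : ℤ) := by
          exact_mod_cast d1 i hi
        have h6 : (0 : ℤ) ≤ (((T₁ / 2 ^ (w * i)) % 2 ^ w : ℕ) : ℤ) := by positivity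
        rw [Nat.cast_add]
        generalize (((T₁ / 2 ^ (w * i)) % 2 ^ w : ℕ) : ℤ) = z at *
        generalize ((2 ^ t : ℕ) : ℤ) = y at *
        have h7 : (0 : ℤ) ≤ M := by positivity
        rw [abs_le]; constructor <;> linarith
      · rw [abs_zero]; positivity
    · rw [eval_sub, eval_mul, eval_C, eval_dig w T₁ L hL₁, eval_ones, hR, hT₁]; ring
  have e2 : C (M : ℤ) * ones L - dig w T₂ L = H := by
    apply key
    · intro i
      rw [c2 i]
      split_ifs with hi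
      · have h5 : (((T₂ / 2 ^ (w * i)) % 2 ^ w : ℕ) : ℤ) < ((2 ^ t : ℕ) : ℤ) := by
          exact_mod_cast d2 i hi
        have h6 : (0 : ℤ) ≤ (((T₂ / 2 ^ (w * i)) % 2 ^ w : ℕ) : ℤ) := by positivity
        rw [Nat.cast_add]
        generalize (((T₂ / 2 ^ (w * i)) % 2 ^ w : ℕ) : ℤ) = z at *
        generalize ((2 ^ t : ℕ) : ℤ) = y at *
        have h7 : (0 : ℤ) ≤ M := by positivity
        rw [abs_le]; constructor <;> linarith
      · rw [abs_zero]; positivity
    · rw [eval_sub, eval_mul, eval_C, eval_dig w T₂ L hL₂, eval_ones, hR, hT₂]; ring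
  intro i
  have h3 := c1 i
  have h4 := c2 i
  rw [e1] at h3
  rw [e2] at h4
  rw [abs_le]
  constructor
  · rw [h3]; split_ifs
    · have : (0 : ℤ) ≤ (((T₁ / 2 ^ (w * i)) % 2 ^ w : ℕ) : ℤ) := by positivity
      linarith
    · simp
  · rw [h4]; split_ifs
    · have : (0 : ℤ) ≤ (((T₂ / 2 ^ (w * i)) % 2 ^ w : ℕ) : ℤ) := by positivity
      linarith
    · positivity

end Pool.Agent.Q35.Kron
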