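import Pool.Statements.S00249
import Pool.Agent.H737R3.Bridge
import Pool.Agent.H737R3.AnyField

set_option autoImplicit false
open Pool Pool.MP_70675a_ag

namespace Pool.Agent.S00249

/-- Over an algebraically closed field of char 0, for n≥1, any nonempty finite set W of points in P^n and r≥1, every nonzero degree-d form vanishing to order rn at all points of W has d ≥ r·α(W) + r(n−1). -/
theorem result :
    ∀ (k : Type) [Field k] [IsAlgClosed k] [CharZero k] (n : ℕ), 1 ≤ n →
    ∀ (W : Finset (Projectivization k (Fin (n+1) → k))), W.Nonempty →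
    ∀ (r : ℕ), 1 ≤ r →
    ∀ (d : ℕ) (f : MvPolynomial (Fin (n+1)) k), f ≠ 0 → f.IsHomogeneous d →
      (∀ P ∈ W, f ∈ (Ideal.span {g : MvPolynomial (Fin (n+1)) k |
          g.IsHomogeneous 1 ∧ MvPolynomial.eval P.rep g = 0}) ^ (r * n)) →
      ∃ (e : ℕ) (g : MvPolynomial (Fin (n+1)) k), g ≠ 0 ∧ g.IsHomogeneous e ∧
        (∀ P ∈ W, g ∈ Ideal.span {h : MvPolynomial (Fin (n+1)) k |
          h.IsHomogeneous 1 ∧ MvPolynomial.eval P.rep h = 0}) ∧
        r * e + r * (n - 1) ≤ d := by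
  classical
  intro k _ _ _ n hn W hW r hr d f hf0 hfh hfv
  have hrn : 1 ≤ r * n := Nat.mul_pos hr hn
  -- a form of least degree which vanishes at the points
  have hex : ∃ e : ℕ, ∃ G : MvPolynomial (Fin (n + 1)) k, G ≠ 0 ∧ G.IsHomogeneous e ∧
      ∀ P ∈ W, G ∈ Pool.Agent.Chud.mI P.rep ^ 1 := by
    refine ⟨d, f, hf0, hfh, fun P hP => ?_⟩
    exact Ideal.pow_le_pow_right hrn
      (Ideal.pow_right_mono (Pool.Agent.H737R3.linI_le_mI P.rep) _ (hfv P hP))
  obtain ⟨G, hG0, hGh, hGv⟩ := Nat.find_spec hex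
  have key := Pool.Agent.H737R3.demailly_fat k n 1 (Nat.find hex) (r * n) d
    ((fun P : Projectivization k (Fin (n+1) → k) => P.rep) '' (W : Set _)) (fun _ => 1) f hn le_rfl
    (W.finite_toSet.image _) ?_ ?_ ?_ hf0 hfh ?_
  · refine ⟨Nat.find hex, G, hG0, hGh, fun P hP => ?_, ?_⟩
    · have := Pool.Agent.H737R3.mem_linI_pow hGh P.rep_nonzero (hGv P hP)
      rwa [pow_one] at this
    · have h1 : 1 + n - 1 = n := by omega
      rw [h1] at key
      have h2 : r * n * (Nat.find hex + n - 1) = (r * Nat.find hex + r * (n - 1)) * n := by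
        have : Nat.find hex + n - 1 = Nat.find hex + (n - 1) := by omega
        rw [this]
        ring
      rw [h2] at key
      exact Nat.le_of_mul_le_mul_right key hn
  · obtain ⟨P, hP⟩ := hW
    exact ⟨P.rep, ⟨P, hP, rfl⟩, le_rfl⟩
  · rintro _ ⟨P, -, rfl⟩
    exact P.rep_nonzero
  · intro F e hF0 hF hFv
    refine Nat.find_min' hex ⟨F, hF0, hF, fun P hP => ?_⟩
    have := hFv P.rep ⟨P, hP, rfl⟩
    simpa using this
  · rintro _ ⟨P, hP, rfl⟩
    rw [mul_one]
    exact Ideal.pow_right_mono (Pool.Agent.H737R3.linI_le_mI P.rep) _ (hfv P hP)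

end Pool.Agent.S00249
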