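import Pool.Statements.S00348
import Pool.Agent.Q78.NN.NonFill

set_option autoImplicit false
open Pool Pool.MP_a30cf1_ag

namespace Pool.Agent.S00348

/-- The negation of the preceding statement: For L ≥ 1 and r ≥ 2, any coordinatewise-minimal positive width vector (with d_0, d_L fixed) whose depth-L polynomial network with x^r activation has Zariski-dense output set in the ambient space is unimodal. -/
theorem result :
    ¬ (∀ (L r : ℕ), 1 ≤ L → 2 ≤ r →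
  ∀ Filling : (Fin (L+1) → ℕ) → Prop,
  (∀ e : Fin (L+1) → ℕ, Filling e ↔
    ∀ P : MvPolynomial (ℕ × (ℕ →₀ ℕ)) ℂ,
      (∀ W : Fin L → ℕ → ℕ → ℂ,
        MvPolynomial.eval (fun p : ℕ × (ℕ →₀ ℕ) => MvPolynomial.coeff p.2
          ((List.finRange L).foldl
            (fun (h : ℕ → MvPolynomial ℕ ℂ) (k : Fin L) (a : ℕ) =>
              ∑ b ∈ Finset.range (e k.castSucc),
                MvPolynomial.C (W k a b) * h b ^ (if (k : ℕ) = 0 then 1 else r))
            (fun b : ℕ => (MvPolynomial.X b : MvPolynomial ℕ ℂ)) p.1)) P = 0) →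
      ∀ c : ℕ × (ℕ →₀ ℕ) → ℂ,
        (∀ p : ℕ × (ℕ →₀ ℕ), c p ≠ 0 →
          p.1 < e (Fin.last L) ∧ (∑ b ∈ p.2.support, p.2 b) = r ^ (L - 1) ∧
            ∀ b ∈ p.2.support, b < e 0) →
        MvPolynomial.eval c P = 0) →
  ∀ d : Fin (L+1) → ℕ, (∀ i, 1 ≤ d i) → Filling d →
  (∀ d' : Fin (L+1) → ℕ, (∀ i, 1 ≤ d' i) → d' 0 = d 0 →
      d' (Fin.last L) = d (Fin.last L) → d' ≤ d → Filling d' → d' = d) →
  ∃ i : Fin (L+1), (∀ j k : Fin (L+1), j ≤ k → k ≤ i → d j ≤ d k) ∧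
    (∀ j k : Fin (L+1), i ≤ j → j ≤ k → d k ≤ d j)) := by
  classical
  intro H
  have H1 := H 4 6 (by norm_num) (by norm_num) Pool.Agent.Q78.NN.Fil (fun e => Iff.rfl)
  let S : Set (Fin (4 + 1) → ℕ) := {d | (∀ i, 1 ≤ d i) ∧ d 0 = 2 ∧ d (Fin.last 4) = 1 ∧
    (∀ i, d i ≤ (![2, 7, 5, 38, 1] : Fin (4 + 1) → ℕ) i) ∧ Pool.Agent.Q78.NN.Fil d}
  have hne : S.Nonempty := by
    refine ⟨![2, 7, 5, 38, 1], ?_, rfl, rfl, fun i => le_rfl, Pool.Agent.Q78.NN.fil_D⟩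
    intro i
    fin_cases i <;> simp
  obtain ⟨d, ⟨hd1, hd0, hd4, hdD, hF⟩, hmin⟩ :=
    WellFounded.has_min (measure fun d : Fin (4 + 1) → ℕ => ∑ i, d i).wf S hne
  obtain ⟨i, hi1, hi2⟩ := H1 d hd1 hF (by
    intro d' hd'1 hd'0 hd'4 hle hF'
    by_contra hne'
    have hlt : ∑ i, d' i < ∑ i, d i := by
      have : ∃ i, d' i < d i := by
        by_contra hcon
        push Not at hcon
        exact hne' (le_antisymm hle hcon)
      obtain ⟨j, hj⟩ := this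
      exact Finset.sum_lt_sum (fun i _ => hle i) ⟨j, Finset.mem_univ _, hj⟩
    exact hmin d' ⟨hd'1, hd'0.trans hd0, hd'4.trans hd4, fun i => (hle i).trans (hdD i), hF'⟩ hlt)
  have h1 : d 1 ≤ 7 := hdD 1
  have h2 : d 2 ≤ 5 := hdD 2
  have h3 : d 3 ≤ 38 := hdD 3
  have h1' : 6 ≤ d 1 := by
    by_contra hcon
    exact Pool.Agent.Q78.NN.not_fil_first d hd0 (by omega) h2 h3 hd4 hF
  have h3' : 6 ≤ d 3 := by
    by_contra hcon
    exact Pool.Agent.Q78.NN.not_fil_narrow d hd0 h1 h2 (by omega) hd4 hF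
  by_cases hi : i ≤ 1
  · have := hi2 2 3 (hi.trans (by decide)) (by decide)
    omega
  · have hi' : (2 : Fin (4 + 1)) ≤ i := by
      rw [Fin.le_def]
      rw [Fin.le_def] at hi
      have e1 : ((1 : Fin (4 + 1)) : ℕ) = 1 := rfl
      have e2 : ((2 : Fin (4 + 1)) : ℕ) = 2 := rfl
      omega
    have := hi1 1 2 (by decide) hi'
    omega

end Pool.Agent.S00348
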