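import Pool.Statements.S00360
import Pool.Agent.Q138.GR.Facts

set_option autoImplicit false
open Pool Pool.MP_a907e8_ag

namespace Pool.Agent.S00360

open Pool.Agent.H607R3.PS H51R3.PS in
theorem core (hres : TaskRes) (hrp : TaskRegP) :
    ¬ (∀ (A : Type) [CommRing A] [IsLocalRing A] [IsNoetherianRing A]
      (M : Type) [AddCommGroup M] [Module A M] [Module.Finite A M] [Nontrivial M],
      (∃ P : CategoryTheory.ProjectiveResolution (ModuleCat.of A M), ∃ n : ℕ,
          ∀ i : ℕ, n ≤ i → CategoryTheory.Limits.IsZero (P.complex.X i)) →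
      ∀ g : ℕ,
        (∃ rs : List A, rs.length = g ∧ (∀ r ∈ rs, r ∈ Module.annihilator A M) ∧
            RingTheory.Sequence.IsWeaklyRegular A rs) →
        (¬ ∃ rs : List A, rs.length = g + 1 ∧ (∀ r ∈ rs, r ∈ Module.annihilator A M) ∧
            RingTheory.Sequence.IsWeaklyRegular A rs) →
        (g : WithBot ℕ∞) + ringKrullDim (A ⧸ Module.annihilator A M) = ringKrullDim A) := by
  intro h
  obtain ⟨T, iT, iL, iN, iD, α, β, γ, hB⟩ := Pool.Agent.H291R3.PSB.taskBase
  obtain ⟨hα, hβ, hγ⟩ := mem_max hB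
  have hloc : IsLocalRing (RR T α β γ) :=
    Pool.Agent.H607R3.PS.taskLoc T α β γ hα hβ hγ
  have hlocP : IsLocalRing (RP T α β γ) := local_RP
  have hnoe : IsNoetherianRing (RP T α β γ) := noeth_RP
  have hnt : Nontrivial (RP T α β γ ⧸ cP T α β γ) :=
    Ideal.Quotient.nontrivial_iff.2 (cP_ne_top hα hβ hγ)
  have hfin : FinRes (RP T α β γ) (RP T α β γ ⧸ cP T α β γ) :=
    finRes_RP hres hrp hγ hB.reg
  have h1 := h (RP T α β γ) (RP T α β γ ⧸ cP T α β γ) hfin 2
  rw [Ideal.annihilator_quotient] at h1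
  have h2 := h1 ⟨[toRP (RR.emb α : RR T α β γ) ^ 4, toRP (RR.emb β : RR T α β γ) ^ 2], rfl, by
      intro r hr
      rw [List.mem_cons, List.mem_singleton] at hr
      rcases hr with rfl | rfl
      · exact mem_F
      · exact mem_G, weaklyRegular_pair (hrp T α β γ hB.reg)⟩
    (Pool.Agent.Q138.GR.taskGradeP T α β γ hB)
  have h3 := Pool.Agent.Q138.GR.taskDimP T α β γ hB
  have h4 : ((2 : ℕ) : WithBot ℕ∞) = 2 := rfl
  rw [h4] at h2
  exact absurd h2 (ne_of_lt h3)

/-- The negation of the preceding statement: For every Noetherian local ring A and nonzero finitely generated A-module M with a finite projective resolution, the maximal length of an A-regular sequence in ann M plus the Krull dimension of A/ann M equals the Krull dimension of A. -/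
theorem result :
    ¬ (∀ (A : Type) [CommRing A] [IsLocalRing A] [IsNoetherianRing A]
      (M : Type) [AddCommGroup M] [Module A M] [Module.Finite A M] [Nontrivial M],
      (∃ P : CategoryTheory.ProjectiveResolution (ModuleCat.of A M), ∃ n : ℕ,
          ∀ i : ℕ, n ≤ i → CategoryTheory.Limits.IsZero (P.complex.X i)) →
      ∀ g : ℕ,
        (∃ rs : List A, rs.length = g ∧ (∀ r ∈ rs, r ∈ Module.annihilator A M) ∧
            RingTheory.Sequence.IsWeaklyRegular A rs) →
        (¬ ∃ rs : List A, rs.length = g + 1 ∧ (∀ r ∈ rs, r ∈ Module.annihilator A M) ∧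
            RingTheory.Sequence.IsWeaklyRegular A rs) →
        (g : WithBot ℕ∞) + ringKrullDim (A ⧸ Module.annihilator A M) = ringKrullDim A) := by
  exact core Pool.Agent.H607R3.PS.taskRes Pool.Agent.H607R3.PS.taskRegP

end Pool.Agent.S00360
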