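import Pool.Statements.S00541
import Pool.Agent.H737R3.Bridge
import Pool.Agent.H737R3.AnyField

set_option autoImplicit false
open Pool Pool.MP_ef83ea_ag

namespace Pool.Agent.S00541

open Pool.Agent.H737R3 in
/-- a homogeneous element of least degree in the intersection of the powers of the point ideals -/
lemma exists_form {N : ℕ} (hN : 1 ≤ N) (S : Finset (Fin (N + 1) → ℂ)) (hS : ∀ p ∈ S, p ≠ 0) (m : ℕ) :
    ∃ F : MvPolynomial (Fin (N + 1)) ℂ, F ≠ 0 ∧
      F.IsHomogeneous (sInf {d : ℕ | ∃ f ∈ (⨅ p ∈ S,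
              (Ideal.span (Set.range (fun ij : Fin (N + 1) × Fin (N + 1) =>
                (MvPolynomial.X ij.1 * MvPolynomial.C (p ij.2)
                  - MvPolynomial.X ij.2 * MvPolynomial.C (p ij.1) :
                  MvPolynomial (Fin (N + 1)) ℂ)))) ^ m),
              f ≠ 0 ∧ f.totalDegree = d}) ∧
      (∀ p ∈ S, F ∈ Pool.Agent.Chud.mI p ^ m) ∧
      ∀ (G : MvPolynomial (Fin (N + 1)) ℂ) (d : ℕ), G ≠ 0 → G.IsHomogeneous d →
        (∀ p ∈ S, G ∈ Pool.Agent.Chud.mI p ^ m) →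
        sInf {d : ℕ | ∃ f ∈ (⨅ p ∈ S,
              (Ideal.span (Set.range (fun ij : Fin (N + 1) × Fin (N + 1) =>
                (MvPolynomial.X ij.1 * MvPolynomial.C (p ij.2)
                  - MvPolynomial.X ij.2 * MvPolynomial.C (p ij.1) :
                  MvPolynomial (Fin (N + 1)) ℂ)))) ^ m),
              f ≠ 0 ∧ f.totalDegree = d} ≤ d := by
  classical
  have hI : (⨅ p ∈ S,
              (Ideal.span (Set.range (fun ij : Fin (N + 1) × Fin (N + 1) =>
                (MvPolynomial.X ij.1 * MvPolynomial.C (p ij.2)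
                  - MvPolynomial.X ij.2 * MvPolynomial.C (p ij.1) :
                  MvPolynomial (Fin (N + 1)) ℂ)))) ^ m) = ⨅ p ∈ S, linI p ^ m := by
    apply iInf_congr
    intro p
    apply iInf_congr
    intro hp
    rw [span_eq_linI (hS p hp)]
  rw [hI]
  have hmem : ∀ F : MvPolynomial (Fin (N + 1)) ℂ, F ∈ (⨅ p ∈ S, linI p ^ m) ↔
      ∀ p ∈ S, F ∈ linI p ^ m := by
    intro F
    simp only [Submodule.mem_iInf]
  have hne : {d : ℕ | ∃ f ∈ (⨅ p ∈ S, linI p ^ m), f ≠ 0 ∧ f.totalDegree = d}.Nonempty := by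
    obtain ⟨f, hf, hf0⟩ := exists_mem_iInf hN S hS (fun _ => m)
    exact ⟨_, f, hf, hf0, rfl⟩
  obtain ⟨F, hF, hF0, hFd⟩ := Nat.sInf_mem hne
  rw [hmem] at hF
  refine ⟨MvPolynomial.homogeneousComponent F.totalDegree F, top_component hF0, ?_, ?_, ?_⟩
  · have := MvPolynomial.homogeneousComponent_isHomogeneous F.totalDegree F
    rwa [hFd] at this ⊢
  · intro p hp
    exact Ideal.pow_right_mono (linI_le_mI p) m (component_mem p m (hF p hp) _)
  · intro G d hG0 hG hGv
    refine Nat.sInf_le ⟨G, ?_, hG0, hG.totalDegree hG0⟩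
    rw [hmem]
    intro p hp
    exact mem_linI_pow hG (hS p hp) (hGv p hp)

/-- For any nonempty finite set of points in complex projective N-space (N at least 1) with ideal I, every m ≥ 1 satisfies alpha(I^(m))/m ≥ (alpha(I^(3)) + N - 1)/(N + 2), i.e. the Waldschmidt constant is at least that bound. -/
theorem result :
    ∀ (N : ℕ), 1 ≤ N → ∀ S : Finset (Fin (N + 1) → ℂ), S.Nonempty → (∀ p ∈ S, p ≠ 0) →
      ∀ m : ℕ, 1 ≤ m →
        (((sInf {d : ℕ | ∃ f ∈ (⨅ p ∈ S,
              (Ideal.span (Set.range (fun ij : Fin (N + 1) × Fin (N + 1) =>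
                (MvPolynomial.X ij.1 * MvPolynomial.C (p ij.2)
                  - MvPolynomial.X ij.2 * MvPolynomial.C (p ij.1) :
                  MvPolynomial (Fin (N + 1)) ℂ)))) ^ 3),
              f ≠ 0 ∧ f.totalDegree = d} : ℕ) : ℝ) + (N : ℝ) - 1) / ((N : ℝ) + 2)
          ≤ ((sInf {d : ℕ | ∃ f ∈ (⨅ p ∈ S,
              (Ideal.span (Set.range (fun ij : Fin (N + 1) × Fin (N + 1) =>
                (MvPolynomial.X ij.1 * MvPolynomial.C (p ij.2)
                  - MvPolynomial.X ij.2 * MvPolynomial.C (p ij.1) :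
                  MvPolynomial (Fin (N + 1)) ℂ)))) ^ m),
              f ≠ 0 ∧ f.totalDegree = d} : ℕ) : ℝ) / (m : ℝ) := by
  classical
  intro N hN S hS hS0 m hm
  obtain ⟨-, -, -, -, h3⟩ := exists_form hN S hS0 3
  obtain ⟨F, hF0, hFh, hFv, -⟩ := exists_form hN S hS0 m
  have key := fun a b h3' hb => Pool.Agent.H737R3.demailly_fat ℂ N 3 a m b
    (S : Set (Fin (N + 1) → ℂ)) (fun _ => 1)
    F hN (by norm_num) S.finite_toSet
    (by obtain ⟨p, hp⟩ := hS; exact ⟨p, hp, le_rfl⟩) (fun v hv => hS0 v hv) h3'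
    hF0 hb (fun p hp => by simpa using hFv p hp)
  replace key := key _ _
    (fun G d hG0 hG hGv => h3 G d hG0 hG (fun p hp => by simpa using hGv p hp)) hFh
  rw [div_le_div_iff₀ (by positivity) (by exact_mod_cast hm)]
  have h1 : 3 + N - 1 = N + 2 := by omega
  rw [h1] at key
  generalize sInf {d : ℕ | ∃ f ∈ (⨅ p ∈ S,
              (Ideal.span (Set.range (fun ij : Fin (N + 1) × Fin (N + 1) =>
                (MvPolynomial.X ij.1 * MvPolynomial.C (p ij.2)
                  - MvPolynomial.X ij.2 * MvPolynomial.C (p ij.1) :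
                  MvPolynomial (Fin (N + 1)) ℂ)))) ^ 3),
              f ≠ 0 ∧ f.totalDegree = d} = a at *
  generalize sInf {d : ℕ | ∃ f ∈ (⨅ p ∈ S,
              (Ideal.span (Set.range (fun ij : Fin (N + 1) × Fin (N + 1) =>
                (MvPolynomial.X ij.1 * MvPolynomial.C (p ij.2)
                  - MvPolynomial.X ij.2 * MvPolynomial.C (p ij.1) :
                  MvPolynomial (Fin (N + 1)) ℂ)))) ^ m),
              f ≠ 0 ∧ f.totalDegree = d} = b at *
  have h2 : m * (a + (N - 1)) ≤ b * (N + 2) := by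
    have : a + N - 1 = a + (N - 1) := by omega
    rwa [this] at key
  have h4 : ((N - 1 : ℕ) : ℝ) = (N : ℝ) - 1 := by
    rw [Nat.cast_sub hN, Nat.cast_one]
  have h5 : (m : ℝ) * ((a : ℝ) + ((N - 1 : ℕ) : ℝ)) ≤ (b : ℝ) * ((N : ℝ) + 2) := by
    exact_mod_cast h2
  rw [h4] at h5
  linarith

end Pool.Agent.S00541
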