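import Pool.Statements.S00609
-- import your own Pool.Agent.* helpers here

set_option autoImplicit false
open Pool Pool.MP_042d8e_al

namespace Pool.Agent.S00609

/-!
The group `G` of finitary automorphisms of the binary tree `List Bool` (the parent of `b :: v` is
`v`).  For `A ⊆ ℕ` let `chi A g` be the number, mod 2, of nontrivial labels of `g` at vertices
whose level lies in `A`.  This is a homomorphism, and for infinite, pairwise disjoint sets `A` the
sequences `St(i) ∩ ker (chi A)` are pairwise inequivalent normal T-sequences.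
-/

/-- the label of `g` at the vertex `v` -/
def lab (g : Equiv.Perm (List Bool)) (v : List Bool) : Bool :=
  decide (g (false :: v) = true :: g v)

/-- rooted tree automorphisms -/
def IsAut (g : Equiv.Perm (List Bool)) : Prop :=
  g [] = [] ∧ ∀ (b : Bool) (v : List Bool), g (b :: v) = (xor b (lab g v)) :: g v

lemma lab_eq {g : Equiv.Perm (List Bool)} {v w : List Bool} {l : Bool}
    (h : g (false :: v) = l :: w) (h' : g v = w) : lab g v = l := by
  unfold lab
  rw [h, h']
  cases l <;> simp

lemma isAut_one : IsAut 1 := by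
  refine ⟨rfl, ?_⟩
  intro b v
  have : lab 1 v = false := by simp [lab]
  simp [this]

lemma lab_mul {g h : Equiv.Perm (List Bool)} (hg : IsAut g) (hh : IsAut h) (v : List Bool) :
    lab (g * h) v = xor (lab h v) (lab g (h v)) := by
  apply lab_eq (w := g (h v))
  · rw [Equiv.Perm.mul_apply, hh.2, hg.2]
    simp
  · rfl

lemma isAut_mul {g h : Equiv.Perm (List Bool)} (hg : IsAut g) (hh : IsAut h) :
    IsAut (g * h) := by
  refine ⟨?_, ?_⟩
  · rw [Equiv.Perm.mul_apply, hh.1, hg.1]
  · intro b v
    rw [lab_mul hg hh, Equiv.Perm.mul_apply, hh.2, hg.2, Equiv.Perm.mul_apply, Bool.xor_assoc]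

lemma inv_cons {g : Equiv.Perm (List Bool)} (hg : IsAut g) (b : Bool) (v : List Bool) :
    g⁻¹ (b :: v) = (xor b (lab g (g⁻¹ v))) :: g⁻¹ v := by
  rw [Equiv.Perm.inv_eq_iff_eq, hg.2]
  simp

lemma lab_inv {g : Equiv.Perm (List Bool)} (hg : IsAut g) (v : List Bool) :
    lab g⁻¹ v = lab g (g⁻¹ v) := by
  apply lab_eq (w := g⁻¹ v)
  · rw [inv_cons hg]; simp
  · rfl

lemma isAut_inv {g : Equiv.Perm (List Bool)} (hg : IsAut g) : IsAut g⁻¹ := by
  refine ⟨?_, ?_⟩
  · rw [Equiv.Perm.inv_eq_iff_eq, hg.1]
  · intro b v
    rw [inv_cons hg, lab_inv hg]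

lemma IsAut.length {g : Equiv.Perm (List Bool)} (hg : IsAut g) (v : List Bool) :
    (g v).length = v.length := by
  induction v with
  | nil => rw [hg.1]
  | cons b v ih => rw [hg.2]; simp [ih]

lemma IsAut.tail {g : Equiv.Perm (List Bool)} (hg : IsAut g) (v : List Bool) :
    (g v).tail = g v.tail := by
  cases v with
  | nil => simp [hg.1]
  | cons b v => rw [hg.2]; simp

/-- the group of finitary automorphisms -/
def Gs : Subgroup (Equiv.Perm (List Bool)) where
  carrier := {g | IsAut g ∧ {v | lab g v = true}.Finite}
  one_mem' := ⟨isAut_one, by simp [lab]⟩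
  mul_mem' := by
    rintro g h ⟨hg, fg⟩ ⟨hh, fh⟩
    refine ⟨isAut_mul hg hh, ?_⟩
    apply Set.Finite.subset (fh.union (fg.preimage (f := h) h.injective.injOn))
    intro v hv
    simp only [Set.mem_setOf_eq] at hv
    rw [lab_mul hg hh] at hv
    simp only [Set.mem_union, Set.mem_setOf_eq, Set.mem_preimage]
    revert hv
    cases lab h v <;> cases lab g (h v) <;> simp
  inv_mem' := by
    rintro g ⟨hg, fg⟩
    refine ⟨isAut_inv hg, ?_⟩
    apply Set.Finite.subset (fg.preimage (f := ⇑g⁻¹) (g⁻¹).injective.injOn)
    intro v hv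
    simp only [Set.mem_setOf_eq] at hv
    rw [lab_inv hg] at hv
    exact hv

/-- the endomorphism of the tree with given labels -/
def act (p : List Bool → Bool) : List Bool → List Bool
  | [] => []
  | b :: v => (xor b (p v)) :: act p v

lemma act_inj (p : List Bool → Bool) : Function.Injective (act p) := by
  intro v
  induction v with
  | nil =>
    intro w h
    cases w with
    | nil => rfl
    | cons c w => simp [act] at h
  | cons b v ih =>
    intro w h
    cases w with
    | nil => simp [act] at h
    | cons c w =>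
      simp only [act, List.cons.injEq] at h
      have h2 := ih h.2
      subst h2
      have h1 := h.1
      simp only [List.cons.injEq, and_true]
      revert h1
      cases b <;> cases c <;> cases p v <;> simp

lemma act_surj (p : List Bool → Bool) : Function.Surjective (act p) := by
  intro w
  induction w with
  | nil => exact ⟨[], rfl⟩
  | cons c w ih =>
    obtain ⟨v, rfl⟩ := ih
    refine ⟨(xor c (p v)) :: v, ?_⟩
    simp [act]

/-- the automorphism with given labels -/
noncomputable def actE (p : List Bool → Bool) : Equiv.Perm (List Bool) :=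
  Equiv.ofBijective (act p) ⟨act_inj p, act_surj p⟩

lemma lab_actE (p : List Bool → Bool) (v : List Bool) : lab (actE p) v = p v := by
  apply lab_eq (w := act p v)
  · show act p (false :: v) = _
    simp [act]
  · rfl

lemma isAut_actE (p : List Bool → Bool) : IsAut (actE p) := by
  refine ⟨rfl, ?_⟩
  intro b v
  rw [lab_actE]
  rfl

/-- the automorphism with a single nontrivial label, at `u` -/
noncomputable def sw (u : List Bool) : Gs :=
  ⟨actE (fun v => decide (v = u)), isAut_actE _, by simp [lab_actE]⟩

lemma lab_sw (u v : List Bool) : lab (sw u).1 v = decide (v = u) := lab_actE _ v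

lemma sw_moves (u w : List Bool) (h : (sw u).1 w ≠ w) : ∃ k, List.tail^[k] w = u := by
  induction w with
  | nil => exact absurd (sw u).2.1.1 h
  | cons b v ih =>
    by_cases hv : v = u
    · exact ⟨1, by simp [hv]⟩
    · rw [(sw u).2.1.2, lab_sw] at h
      simp only [hv, decide_false, Bool.xor_false, ne_eq, List.cons.injEq, true_and] at h
      obtain ⟨k, hk⟩ := ih h
      exact ⟨k + 1, by simpa using hk⟩

lemma sw_fix (u v : List Bool) (h : v.length ≤ u.length) : (sw u).1 v = v := by
  induction v with
  | nil => exact (sw u).2.1.1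
  | cons b v ih =>
    have hl : v.length < u.length := by simpa using h
    have hv : v ≠ u := by rintro rfl; exact lt_irrefl _ hl
    rw [(sw u).2.1.2, lab_sw, ih hl.le]
    simp [hv]

lemma sw_self (u : List Bool) (b : Bool) : (sw u).1 (b :: u) = (!b) :: u := by
  rw [(sw u).2.1.2, lab_sw, sw_fix u u le_rfl]
  simp

lemma ext_lab {g h : Gs} (H : ∀ v, lab g.1 v = lab h.1 v) : g = h := by
  apply Subtype.ext
  apply Equiv.ext
  intro v
  induction v with
  | nil => rw [g.2.1.1, h.2.1.1]
  | cons b v ih => rw [g.2.1.2, h.2.1.2, H, ih]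

/-- the support of the portrait -/
noncomputable def supp (g : Gs) : Finset (List Bool) := g.2.2.toFinset

lemma mem_supp (g : Gs) (v : List Bool) : v ∈ supp g ↔ lab g.1 v = true := by
  simp [supp]

/-- the level stabilizer -/
def St (n : ℕ) : Subgroup Gs where
  carrier := {g | ∀ v : List Bool, v.length ≤ n → g.1 v = v}
  one_mem' := by intro v _; rfl
  mul_mem' := by
    intro g h hg hh v hv
    show g.1 (h.1 v) = v
    rw [hh v hv, hg v hv]
  inv_mem' := by
    intro g hg v hv
    show g.1⁻¹ v = v
    rw [Equiv.Perm.inv_eq_iff_eq]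
    exact (hg v hv).symm

lemma mem_St {n : ℕ} {g : Gs} : g ∈ St n ↔ ∀ v : List Bool, v.length ≤ n → g.1 v = v := Iff.rfl

lemma lab_of_St {n : ℕ} {g : Gs} (hg : g ∈ St n) {v : List Bool} (hv : v.length < n) :
    lab g.1 v = false := by
  apply lab_eq (w := v)
  · exact mem_St.1 hg _ (by simpa using hv)
  · exact mem_St.1 hg _ hv.le

instance St_normal (n : ℕ) : (St n).Normal := by
  constructor
  intro g hg h
  rw [mem_St] at hg ⊢
  intro v hv
  show h.1 (g.1 (h.1⁻¹ v)) = v
  rw [hg _ (by rw [(isAut_inv h.2.1).length]; exact hv)]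
  simp

/-- action on a level -/
def levHom (n : ℕ) : Gs →* Equiv.Perm {v : List Bool // v.length ≤ n} where
  toFun g :=
    { toFun := fun v => ⟨g.1 v.1, by rw [g.2.1.length]; exact v.2⟩
      invFun := fun v => ⟨g.1⁻¹ v.1, by rw [(isAut_inv g.2.1).length]; exact v.2⟩
      left_inv := by intro v; apply Subtype.ext; simp
      right_inv := by intro v; apply Subtype.ext; simp }
  map_one' := rfl
  map_mul' := by intro g h; rfl

lemma finite_lev (n : ℕ) : Finite {v : List Bool // v.length ≤ n} :=
  (List.finite_length_le Bool n).to_subtype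

instance St_fin (n : ℕ) : (St n).FiniteIndex := by
  haveI := finite_lev n
  haveI : (levHom n).ker.FiniteIndex := inferInstance
  have h : (levHom n).ker ≤ St n := by
    intro g hg
    rw [mem_St]
    intro v hv
    rw [MonoidHom.mem_ker] at hg
    have := congrArg (fun e : Equiv.Perm {v : List Bool // v.length ≤ n} => (e ⟨v, hv⟩).1) hg
    exact this
  exact Subgroup.finiteIndex_of_le h

/-- the count of labels on levels in `A` -/
noncomputable def f (A : Set ℕ) (g : Gs) (v : List Bool) : ZMod 2 :=
  open Classical in if v.length ∈ A ∧ lab g.1 v = true then 1 else 0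

lemma f_supp (A : Set ℕ) (g : Gs) : (Function.support (f A g)).Finite := by
  apply g.2.2.subset
  intro v hv
  rw [Function.mem_support] at hv
  by_contra h
  apply hv
  unfold f
  rw [if_neg]
  rintro ⟨_, h2⟩
  exact h h2

lemma f_mul (A : Set ℕ) (g h : Gs) (v : List Bool) :
    f A (g * h) v = f A g (h.1 v) + f A h v := by
  have h1 : lab (g * h).1 v = xor (lab h.1 v) (lab g.1 (h.1 v)) := lab_mul g.2.1 h.2.1 v
  have h2 : (h.1 v).length = v.length := h.2.1.length v
  unfold f
  rw [h1, h2]
  by_cases hA : v.length ∈ A
  · simp only [hA, true_and]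
    cases lab h.1 v <;> cases lab g.1 (h.1 v) <;> simp
    decide
  · simp [hA]

/-- the homomorphism `χ_A` -/
noncomputable def chi (A : Set ℕ) : Gs →* Multiplicative (ZMod 2) where
  toFun g := Multiplicative.ofAdd (∑ᶠ v, f A g v)
  map_one' := by
    have : ∀ v, f A 1 v = 0 := by
      intro v
      have : lab (1 : Gs).1 v = false := by
        show lab 1 v = false
        simp [lab]
      unfold f
      rw [this]
      simp
    simp [this]
  map_mul' := by
    intro g h
    rw [← ofAdd_add]
    congr 1
    have h1 : (fun v => f A (g * h) v) = fun v => f A g (h.1 v) + f A h v := by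
      funext v
      exact f_mul A g h v
    rw [h1, finsum_add_distrib, finsum_comp_equiv h.1]
    · apply Set.Finite.subset ((f_supp A g).preimage (f := h.1) h.1.injective.injOn)
      intro v hv
      exact hv
    · exact f_supp A h

lemma chi_sw (A : Set ℕ) (u : List Bool) (h : u.length ∈ A) : chi A (sw u) ≠ 1 := by
  show Multiplicative.ofAdd (∑ᶠ v, f A (sw u) v) ≠ 1
  have : ∑ᶠ v, f A (sw u) v = 1 := by
    rw [finsum_eq_single _ u]
    · simp [f, h, lab_sw]
    · intro v hv
      simp [f, lab_sw, hv]
  rw [this]
  decide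

lemma chi_sw' (A : Set ℕ) (u : List Bool) (h : u.length ∉ A) : chi A (sw u) = 1 := by
  show Multiplicative.ofAdd (∑ᶠ v, f A (sw u) v) = 1
  have : ∀ v, f A (sw u) v = 0 := by
    intro v
    unfold f
    rw [if_neg]
    rintro ⟨h1, h2⟩
    rw [lab_sw] at h2
    have : v = u := by simpa using h2
    subst this
    exact h h1
  simp [this]

/-- the set `{n | (unpair n).1 = a}` -/
def AA (a : ℕ) : Set ℕ := {n | (Nat.unpair n).1 = a}

lemma AA_inf (a j : ℕ) : ∃ n ∈ AA a, j ≤ n :=
  ⟨Nat.pair a j, by simp [AA], Nat.right_le_pair a j⟩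

/-- the sequence -/
noncomputable def MM (a i : ℕ) : Subgroup Gs := St i ⊓ (chi (AA a)).ker

lemma sw_St (u : List Bool) (n : ℕ) (h : n ≤ u.length) : sw u ∈ St n := by
  rw [mem_St]
  intro v hv
  exact sw_fix u v (hv.trans h)

lemma not_le (a b : ℕ) (hab : a ≠ b) (j : ℕ) : ¬ MM b j ≤ MM a 0 := by
  intro h
  obtain ⟨n, hn, hj⟩ := AA_inf a j
  have hl : (List.replicate n true).length = n := List.length_replicate
  have h1 : sw (List.replicate n true) ∈ MM b j := by
    refine ⟨sw_St _ _ (by rw [hl]; exact hj), ?_⟩
    refine MonoidHom.mem_ker.2 ?_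
    apply chi_sw'
    rw [hl]
    intro hb
    apply hab
    have hn' : (Nat.unpair n).1 = a := hn
    have hb' : (Nat.unpair n).1 = b := hb
    rw [← hn', hb']
  have h2 := MonoidHom.mem_ker.1 (h h1).2
  exact chi_sw (AA a) _ (by rw [hl]; exact hn) h2

/-- `sw u` is an involution -/
lemma sw_sq (u : List Bool) : sw u * sw u = 1 := by
  apply ext_lab
  intro v
  have h1 : lab (sw u * sw u).1 v = xor (lab (sw u).1 v) (lab (sw u).1 ((sw u).1 v)) :=
    lab_mul (sw u).2.1 (sw u).2.1 v
  rw [h1, lab_sw, lab_sw]
  have h0 : lab (1 : Gs).1 v = false := by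
    show lab 1 v = false
    simp [lab]
  rw [h0]
  by_cases hv : v.length ≤ u.length
  · rw [sw_fix u v hv]; simp
  · have h2 : v ≠ u := by rintro rfl; exact hv le_rfl
    have h3 : (sw u).1 v ≠ u := by
      intro h
      apply hv
      rw [← h, (sw u).2.1.length]
    simp [h2, h3]

/-- `St n` lies in every subgroup containing the `sw u` with `n ≤ |u|` -/
lemma St_le (n : ℕ) (K : Subgroup Gs) (hK : ∀ u : List Bool, n ≤ u.length → sw u ∈ K) :
    St n ≤ K := by
  have key : ∀ (m : ℕ) (g : Gs), g ∈ St n → (supp g).card = m → g ∈ K := by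
    intro m
    induction m with
    | zero =>
      intro g hg hm
      rw [Finset.card_eq_zero] at hm
      have : g = 1 := by
        apply ext_lab
        intro v
        have h0 : lab (1 : Gs).1 v = false := by
          show lab 1 v = false
          simp [lab]
        rw [h0]
        by_contra h
        have : v ∈ supp g := (mem_supp g v).2 (by simpa using h)
        rw [hm] at this
        simp at this
      rw [this]
      exact K.one_mem
    | succ m ih =>
      intro g hg hm
      have hne : (supp g).Nonempty := by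
        rw [← Finset.card_pos, hm]; omega
      obtain ⟨u, hu, hmax⟩ := Finset.exists_max_image (supp g) List.length hne
      have hun : n ≤ u.length := by
        by_contra h
        push Not at h
        have h1 := lab_of_St hg h
        rw [(mem_supp g u).1 hu] at h1
        exact absurd h1 (by simp)
      have hlab : ∀ v, lab (g * sw u).1 v = xor (decide (v = u)) (lab g.1 v) := by
        intro v
        have h1 : lab (g * sw u).1 v = xor (lab (sw u).1 v) (lab g.1 ((sw u).1 v)) :=
          lab_mul g.2.1 (sw u).2.1 v
        rw [h1, lab_sw]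
        by_cases hv : v.length ≤ u.length
        · rw [sw_fix u v hv]
        · have h2 : lab g.1 v = false := by
            by_contra h
            exact hv (hmax v ((mem_supp g v).2 (by simpa using h)))
          have h3 : lab g.1 ((sw u).1 v) = false := by
            by_contra h
            have := hmax _ ((mem_supp g _).2 (by simpa using h))
            rw [(sw u).2.1.length] at this
            exact hv this
          rw [h2, h3]
      have hs : supp (g * sw u) = (supp g).erase u := by
        ext v
        rw [mem_supp, hlab, Finset.mem_erase, mem_supp]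
        by_cases hv : v = u
        · subst hv
          rw [(mem_supp g v).1 hu]
          simp
        · simp [hv]
      have h1 : g * sw u ∈ K := by
        apply ih
        · exact (St n).mul_mem hg (sw_St u n hun)
        · rw [hs, Finset.card_erase_of_mem hu, hm]; rfl
      have h2 : g = (g * sw u) * sw u := by
        rw [mul_assoc, sw_sq, mul_one]
      rw [h2]
      exact K.mul_mem h1 (hK u hun)
  intro g hg
  exact key _ g hg rfl

lemma trans_aux (n : ℕ) : ∀ v w : List Bool, v.length = n → w.length = n → ∃ g : Gs, g.1 v = w := by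
  induction n with
  | zero =>
    intro v w hv hw
    rw [List.length_eq_zero_iff] at hv hw
    subst hv hw
    exact ⟨1, rfl⟩
  | succ n ih =>
    intro v w hv hw
    cases v with
    | nil => simp at hv
    | cons b v =>
      cases w with
      | nil => simp at hw
      | cons c w =>
        simp only [List.length_cons, Nat.add_right_cancel_iff] at hv hw
        obtain ⟨g, hg⟩ := ih v w hv hw
        by_cases h : g.1 (b :: v) = c :: w
        · exact ⟨g, h⟩
        · refine ⟨g * sw v, ?_⟩
          show g.1 ((sw v).1 (b :: v)) = c :: w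
          rw [sw_self, g.2.1.2, hg]
          rw [g.2.1.2, hg] at h
          simp only [List.cons.injEq, and_true] at h ⊢
          revert h
          cases b <;> cases c <;> cases lab g.1 v <;> simp

lemma tail_iter (u : List Bool) (k : ℕ) : (List.tail^[k] u).length = u.length - k := by
  induction k with
  | zero => simp
  | succ k ih => rw [Function.iterate_succ_apply', List.length_tail, ih]; omega

/-- There is a branch group (faithful, level-transitive on a locally finite rooted tree, finite-index rigid level stabilizers) with infinitely many pairwise inequivalent descending sequences of finite-index normal subgroups with trivial intersection. -/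
theorem result :
    ∃ (G : Type) (_ : Group G) (V : Type) (_ : MulAction G V) (lev : V → ℕ) (par : V → V),
      (∀ v w : V, lev v = 0 → lev w = 0 → v = w) ∧
      (∃ v : V, lev v = 0) ∧
      (∀ w : V, lev w = 0 → par w = w) ∧
      (∀ w : V, lev w ≠ 0 → lev (par w) + 1 = lev w) ∧
      (∀ n : ℕ, {v : V | lev v = n}.Finite) ∧
      (∀ v : V, ∃ w₁ w₂ : V, w₁ ≠ w₂ ∧ par w₁ = v ∧ par w₂ = v ∧
          lev w₁ = lev v + 1 ∧ lev w₂ = lev v + 1) ∧
      (∀ (g : G) (w : V), lev (g • w) = lev w ∧ par (g • w) = g • par w) ∧
      (∀ g : G, (∀ v : V, g • v = v) → g = 1) ∧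
      (∀ v w : V, lev v = lev w → ∃ g : G, g • v = w) ∧
      (∀ n : ℕ, (Subgroup.closure {g : G | ∃ v : V, lev v = n ∧
          ∀ w : V, (∀ k : ℕ, par^[k] w ≠ v) → g • w = w}).FiniteIndex) ∧
      ∃ M : ℕ → ℕ → Subgroup G,
        (∀ a : ℕ, Antitone (M a) ∧ (∀ i : ℕ, (M a i).Normal ∧ (M a i).FiniteIndex) ∧
            (⨅ i : ℕ, M a i) = ⊥) ∧
        (∀ a b : ℕ, a ≠ b →
            ¬ ((∀ i : ℕ, ∃ j : ℕ, M b j ≤ M a i) ∧ (∀ i : ℕ, ∃ j : ℕ, M a j ≤ M b i))) := by
  refine ⟨Gs, inferInstance, List Bool, inferInstance, List.length, List.tail, ?_, ⟨[], rfl⟩,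
    ?_, ?_, ?_, ?_, ?_, ?_, ?_, ?_, MM, ?_, ?_⟩
  · intro v w hv hw
    rw [List.length_eq_zero_iff] at hv hw
    rw [hv, hw]
  · intro w hw
    rw [List.length_eq_zero_iff] at hw
    rw [hw]
    rfl
  · intro w hw
    cases w with
    | nil => simp at hw
    | cons b w => simp
  · intro n
    exact List.finite_length_eq Bool n
  · intro v
    exact ⟨true :: v, false :: v, by simp, rfl, rfl, rfl, rfl⟩
  · intro g w
    exact ⟨g.2.1.length w, g.2.1.tail w⟩
  · intro g h
    apply Subtype.ext
    apply Equiv.ext
    intro v
    exact h v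
  · intro v w h
    exact trans_aux w.length v w h rfl
  · intro n
    refine Subgroup.finiteIndex_of_le (St_le n _ ?_)
    intro u hu
    apply Subgroup.subset_closure
    refine ⟨List.tail^[u.length - n] u, ?_, ?_⟩
    · rw [tail_iter]; omega
    · intro w hw
      by_contra h
      obtain ⟨k, hk⟩ := sw_moves u w h
      apply hw (u.length - n + k)
      rw [Function.iterate_add_apply, hk]
  · intro a
    refine ⟨?_, ?_, ?_⟩
    · intro i j hij g hg
      refine ⟨?_, hg.2⟩
      refine mem_St.2 ?_
      intro v hv
      exact mem_St.1 hg.1 v (hv.trans hij)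
    · intro i
      refine ⟨?_, ?_⟩
      · unfold MM; infer_instance
      · unfold MM; infer_instance
    · rw [eq_bot_iff]
      intro g hg
      rw [Subgroup.mem_bot]
      apply Subtype.ext
      apply Equiv.ext
      intro v
      rw [Subgroup.mem_iInf] at hg
      exact mem_St.1 (hg v.length).1 v le_rfl
  · rintro a b hab ⟨h, -⟩
    obtain ⟨j, hj⟩ := h 0
    exact not_le a b hab j hj

end Pool.Agent.S00609
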