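import Pool.Statements.S00750
import Pool.Agent.Q117.Gers.NotVRC

set_option autoImplicit false
open Pool Pool.MP_0fe979_al

namespace Pool.Agent.S00750

/-- The negation of the preceding statement: Let G act on a tree without inversions, with finitely many vertex and edge orbits, free abelian finite-rank vertex stabilizers and cyclic edge stabilizers. If G is cyclic subgroup separable, is every cyclic subgroup of G a virtual retract? -/
theorem result :
    ¬ (∀ (G : Type) [Group G] (V : Type) (T : SimpleGraph V) [MulAction G V],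
    T.IsTree →
    (∀ (g : G) (u v : V), T.Adj u v → T.Adj (g • u) (g • v)) →
    (∀ (g : G) (u v : V), T.Adj u v → ¬ (g • u = v ∧ g • v = u)) →
    (∃ S : Finset V, ∀ v : V, ∃ g : G, g • v ∈ S) →
    (∃ E : Finset (V × V), ∀ u v : V, T.Adj u v → ∃ g : G, (g • u, g • v) ∈ E) →
    (∀ v : V, ∃ n : ℕ, Nonempty (↥(MulAction.stabilizer G v) ≃* Multiplicative (Fin n → ℤ))) →
    (∀ u v : V, T.Adj u v →
      IsCyclic ↥(MulAction.stabilizer G u ⊓ MulAction.stabilizer G v)) →
    (∀ g h : G, h ∉ Subgroup.zpowers g →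
      ∃ K : Subgroup G, K.FiniteIndex ∧ Subgroup.zpowers g ≤ K ∧ h ∉ K) →
    ∀ g : G, ∃ K : Subgroup G, K.FiniteIndex ∧ Subgroup.zpowers g ≤ K ∧
      ∃ r : ↥K →* G, (∀ k : ↥K, r k ∈ Subgroup.zpowers g) ∧
        (∀ k : ↥K, (k : G) ∈ Subgroup.zpowers g → r k = (k : G))) := by
  intro H
  exact Pool.Agent.Q117.Gers.not_vrc
    (H Pool.Agent.Q117.Gers.G Pool.Agent.Q117.Gers.V Pool.Agent.Q117.Gers.T
      Pool.Agent.Q117.Gers.T_isTree
      Pool.Agent.Q117.Gers.smul_adj
      Pool.Agent.Q117.Gers.no_inversion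
      (by
        refine ⟨{Pool.Agent.Q117.Gers.root}, ?_⟩
        intro v
        obtain ⟨x, hx⟩ := Pool.Agent.Q117.Gers.vertex_orbit v
        refine ⟨(Pool.Agent.Q117.Gers.iF x)⁻¹, ?_⟩
        rw [← hx, inv_smul_smul]
        simp)
      (by
        classical
        refine ⟨Finset.univ.biUnion (fun i : Fin 3 =>
          {(Pool.Agent.Q117.Gers.mkV 1, Pool.Agent.Q117.Gers.mkV (FreeGroup.of i)),
           (Pool.Agent.Q117.Gers.mkV (FreeGroup.of i), Pool.Agent.Q117.Gers.mkV 1)}), ?_⟩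
        rintro u v ⟨f, i, hi, h⟩
        refine ⟨Pool.Agent.Q117.Gers.iF f⁻¹, ?_⟩
        rw [Finset.mem_biUnion]
        refine ⟨i, Finset.mem_univ _, ?_⟩
        rcases h with ⟨rfl, rfl⟩ | ⟨rfl, rfl⟩
        · rw [Pool.Agent.Q117.Gers.iF_smul, Pool.Agent.Q117.Gers.iF_smul]
          simp
        · rw [Pool.Agent.Q117.Gers.iF_smul, Pool.Agent.Q117.Gers.iF_smul]
          simp)
      (fun v => ⟨2, Pool.Agent.Q117.Gers.stab_iso v⟩)
      Pool.Agent.Q117.Gers.edge_cyclic
      Pool.Agent.Q117.Gers.css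
      (Pool.Agent.Q117.Gers.iF Pool.Agent.Q117.Gers.gA))

end Pool.Agent.S00750
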