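import Pool.Statements.S00753
import Pool.Agent.Q91.Sq.Main

set_option autoImplicit false
open Pool Pool.MP_104382_al

namespace Pool.Agent.S00753

open Pool.Agent.Q91.Sq

theorem inv_act (i : Fin 9) (w : Fin 2 → ℝ) :
    Matrix.mulVec (((mat i)⁻¹ : Matrix.SpecialLinearGroup (Fin 2) ℝ) : Matrix (Fin 2) (Fin 2) ℝ)
      (act i w) = w := by
  unfold act
  rw [Matrix.mulVec_mulVec, ← Matrix.SpecialLinearGroup.coe_mul, inv_mul_cancel,
    Matrix.SpecialLinearGroup.coe_one, Matrix.one_mulVec]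

/-- The open unit square in the plane can be split into finitely many pairwise disjoint pieces forming two groups, and each group can be moved by determinant-one real linear maps so that its images exactly cover the square again. -/
theorem result :
    ∃ (n m : ℕ) (A : Fin n → Set (Fin 2 → ℝ)) (B : Fin m → Set (Fin 2 → ℝ))
      (g : Fin n → Matrix.SpecialLinearGroup (Fin 2) ℝ)
      (h : Fin m → Matrix.SpecialLinearGroup (Fin 2) ℝ),
      (∀ i, A i ⊆ {v : Fin 2 → ℝ | ∀ k, 0 < v k ∧ v k < 1}) ∧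
      (∀ j, B j ⊆ {v : Fin 2 → ℝ | ∀ k, 0 < v k ∧ v k < 1}) ∧
      Pairwise (fun i i' => Disjoint (A i) (A i')) ∧
      Pairwise (fun j j' => Disjoint (B j) (B j')) ∧
      (∀ i j, Disjoint (A i) (B j)) ∧
      (⋃ i, (fun v => Matrix.mulVec ((g i : Matrix (Fin 2) (Fin 2) ℝ)) v) '' A i)
        = {v : Fin 2 → ℝ | ∀ k, 0 < v k ∧ v k < 1} ∧
      (⋃ j, (fun v => Matrix.mulVec ((h j : Matrix (Fin 2) (Fin 2) ℝ)) v) '' B j)
        = {v : Fin 2 → ℝ | ∀ k, 0 < v k ∧ v k < 1} := by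
  obtain ⟨σ, hσ, hinj⟩ := exists_choice
  let piece : Bool → Fin 9 → Set (Fin 2 → ℝ) := fun b i =>
    {z | ∃ x : Q, σ (x, b) = i ∧ z = act i x}
  have hsub : ∀ b i, piece b i ⊆ Q := by
    rintro b i z ⟨x, hx, rfl⟩
    have := hσ (x, b)
    rw [hx] at this
    exact this
  have hdis : ∀ b i b' i' (z : Fin 2 → ℝ), z ∈ piece b i → z ∈ piece b' i' → b = b' ∧ i = i' := by
    rintro b i b' i' z ⟨x, hx, rfl⟩ ⟨x', hx', h⟩
    have h1 : (x, b) = (x', b') := hinj (by
      show act (σ (x, b)) x = act (σ (x', b')) x'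
      rw [hx, hx']
      exact h)
    have h2 : b = b' := congrArg Prod.snd h1
    refine ⟨h2, ?_⟩
    rw [← hx, ← hx', h1]
  have hcov : ∀ b, (⋃ i, (fun v => Matrix.mulVec
      ((((mat i)⁻¹ : Matrix.SpecialLinearGroup (Fin 2) ℝ) : Matrix (Fin 2) (Fin 2) ℝ)) v) ''
        piece b i) = Q := by
    intro b
    ext w
    rw [Set.mem_iUnion]
    constructor
    · rintro ⟨i, z, ⟨x, hx, rfl⟩, rfl⟩
      show Matrix.mulVec _ (act i x) ∈ Q
      rw [inv_act]
      exact x.2
    · intro hw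
      exact ⟨σ (⟨w, hw⟩, b), act (σ (⟨w, hw⟩, b)) w, ⟨⟨w, hw⟩, rfl, rfl⟩, inv_act _ w⟩
  refine ⟨9, 9, piece false, piece true, fun i => (mat i)⁻¹, fun i => (mat i)⁻¹,
    hsub false, hsub true, ?_, ?_, ?_, hcov false, hcov true⟩
  · intro i i' hii
    rw [Set.disjoint_left]
    intro z hz hz'
    exact hii (hdis _ _ _ _ z hz hz').2
  · intro i i' hii
    rw [Set.disjoint_left]
    intro z hz hz'
    exact hii (hdis _ _ _ _ z hz hz').2
  · intro i i'
    rw [Set.disjoint_left]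
    intro z hz hz'
    exact absurd (hdis _ _ _ _ z hz hz').1 (by decide)

end Pool.Agent.S00753
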