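import Pool.Statements.S00878
import Pool.Agent.TH63.RD.Fin

set_option autoImplicit false
open scoped Pointwise
open Pool Pool.MP_1dd661_al

namespace Pool.Agent.S00878

/-- The two element group with the discrete topology. -/
abbrev F2 : Type := Multiplicative (ZMod 2)

local instance : TopologicalSpace F2 := ⊥
local instance : DiscreteTopology F2 := ⟨rfl⟩

section
variable {T : Type} [Group T]

/-- The shift by `t`. -/
def shift (t : T) : MulAut (T → F2) where
  toFun f x := f (t⁻¹ * x)
  invFun f x := f (t * x)
  left_inv f := by funext x; simp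
  right_inv f := by funext x; simp
  map_mul' f g := rfl

lemma shift_apply (t : T) (f : T → F2) (x : T) : shift t f x = f (t⁻¹ * x) := rfl

/-- The shift homomorphism. -/
def shiftHom : T →* MulAut (T → F2) where
  toFun := shift
  map_one' := by
    ext f x
    simp [shift_apply]
  map_mul' s t := by
    ext f x
    simp [shift_apply, mul_assoc]

lemma shiftHom_apply (t : T) (f : T → F2) (x : T) : shiftHom t f x = f (t⁻¹ * x) := rfl

lemma continuous_shift (t : T) : Continuous (shiftHom t : (T → F2) → (T → F2)) :=
  continuous_pi fun x => continuous_apply (t⁻¹ * x)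

/-- The functions trivial on `C`. -/
def K (C : Set T) : Subgroup (T → F2) where
  carrier := {f | ∀ x ∈ C, f x = 1}
  mul_mem' := by
    intro f g hf hg x hx
    rw [Pi.mul_apply, hf x hx, hg x hx, one_mul]
  one_mem' := fun x _ => rfl
  inv_mem' := by
    intro f hf x hx
    rw [Pi.inv_apply, hf x hx, inv_one]

lemma mem_K (C : Set T) (f : T → F2) : f ∈ K C ↔ ∀ x ∈ C, f x = 1 := Iff.rfl

lemma isClosed_K (C : Set T) : IsClosed (K C : Set (T → F2)) := by
  have : (K C : Set (T → F2)) = ⋂ x ∈ C, {f : T → F2 | f x = 1} := by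
    ext f; simp [mem_K]
  rw [this]
  exact isClosed_biInter fun x _ => isClosed_eq (continuous_apply x) continuous_const

lemma isOpen_K (C : Set T) (hC : C.Finite) : IsOpen (K C : Set (T → F2)) := by
  have : (K C : Set (T → F2)) = ⋂ x ∈ C, {f : T → F2 | f x = 1} := by
    ext f; simp [mem_K]
  rw [this]
  refine hC.isOpen_biInter fun x _ => ?_
  have h1 : IsOpen ({1} : Set F2) := isOpen_discrete _
  have h2 : Continuous (fun f : T → F2 => f x) := continuous_apply x
  exact h1.preimage h2

end

/-- The negation of the preceding statement: For a t.d.l.c. group G and a finitely generated flat group H of topological automorphisms, there are finitely many distinct elements of H whose nubs multiply, as sets, to the nub of H. -/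
theorem result :
    ¬ (∀ (G : Type) [Group G] [TopologicalSpace G] [IsTopologicalGroup G]
      [LocallyCompactSpace G] [TotallyDisconnectedSpace G]
      (H : Subgroup (MulAut G)) (tidy : MulAut G → Subgroup G → Prop),
      (∀ (a : MulAut G) (U : Subgroup G), tidy a U ↔
          ((U : Set G) =
              (⋂ n : ℕ, Set.image (⇑(a ^ n)) (U : Set G)) *
                (⋂ n : ℕ, Set.image (⇑(a⁻¹ ^ n)) (U : Set G)) ∧
            IsClosed (⋃ m : ℕ, Set.image (⇑(a ^ m))
                (⋂ n : ℕ, Set.image (⇑(a ^ n)) (U : Set G))))) →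
      (∀ a ∈ H, Continuous (⇑a)) →
      H.FG →
      (∃ U : Subgroup G, IsCompact (U : Set G) ∧ IsOpen (U : Set G) ∧
          ∀ a ∈ H, tidy a U) →
      ∃ l : List (MulAut G), l.Nodup ∧ (∀ a ∈ l, a ∈ H) ∧
        (⋂ (U : Subgroup G)
            (_ : IsCompact (U : Set G) ∧ IsOpen (U : Set G) ∧ ∀ a ∈ H, tidy a U),
            (U : Set G)) =
          (l.map (fun a => ⋂ (U : Subgroup G)
              (_ : IsCompact (U : Set G) ∧ IsOpen (U : Set G) ∧ tidy a U),
              (U : Set G))).prod) := by
  intro h
  obtain ⟨T, _, hinf, htor, S, hS, -⟩ := Pool.Agent.TH63.RD.main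
  let tidy : MulAut (T → F2) → Subgroup (T → F2) → Prop := fun a U =>
    ((U : Set (T → F2)) =
              (⋂ n : ℕ, Set.image (⇑(a ^ n)) (U : Set (T → F2))) *
                (⋂ n : ℕ, Set.image (⇑(a⁻¹ ^ n)) (U : Set (T → F2))) ∧
            IsClosed (⋃ m : ℕ, Set.image (⇑(a ^ m))
                (⋂ n : ℕ, Set.image (⇑(a ^ n)) (U : Set (T → F2)))))
  -- invariant subgroups are tidy
  have tidy_of_inv : ∀ (a : MulAut (T → F2)) (U : Subgroup (T → F2)), IsClosed (U : Set (T → F2)) →
      Set.image (⇑a) (U : Set (T → F2)) = U → tidy a U := by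
    intro a U hcl hinv
    have hpow : ∀ n : ℕ, Set.image (⇑(a ^ n)) (U : Set (T → F2)) = U := by
      intro n
      induction n with
      | zero => simp
      | succ n ih =>
        rw [pow_succ]
        change Set.image (⇑(a ^ n) ∘ ⇑a) (U : Set (T → F2)) = U
        rw [Set.image_comp, hinv, ih]
    have hinv' : Set.image (⇑(a⁻¹)) (U : Set (T → F2)) = U := by
      conv_lhs => rw [← hinv]
      rw [← Set.image_comp]
      change Set.image (⇑(a⁻¹ * a)) (U : Set (T → F2)) = U
      simp
    have hpow' : ∀ n : ℕ, Set.image (⇑(a⁻¹ ^ n)) (U : Set (T → F2)) = U := by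
      intro n
      induction n with
      | zero => simp
      | succ n ih =>
        rw [pow_succ]
        change Set.image (⇑(a⁻¹ ^ n) ∘ ⇑a⁻¹) (U : Set (T → F2)) = U
        rw [Set.image_comp, hinv', ih]
    refine ⟨?_, ?_⟩
    · simp only [hpow, hpow', Set.iInter_const]
      exact (coe_mul_coe U).symm
    · simp only [hpow, Set.iInter_const, Set.iUnion_const]
      exact hcl
  -- tidy subgroups for a torsion automorphism are invariant
  have inv_of_tidy : ∀ (a : MulAut (T → F2)) (U : Subgroup (T → F2)), IsOfFinOrder a →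
      tidy a U → ∀ f ∈ U, a f ∈ U := by
    intro a U ha hU f hf
    have h1 := hU.1
    have hf' : f ∈ (⋂ n : ℕ, Set.image (⇑(a ^ n)) (U : Set (T → F2))) *
                (⋂ n : ℕ, Set.image (⇑(a⁻¹ ^ n)) (U : Set (T → F2))) := by
      rw [← h1]; exact hf
    obtain ⟨y, hy, z, hz, rfl⟩ := Set.mem_mul.1 hf'
    obtain ⟨k, hk, hk1⟩ := isOfFinOrder_iff_pow_eq_one.1 ha
    obtain ⟨y', hy', hy2⟩ := Set.mem_iInter.1 hy (k - 1)
    obtain ⟨z', hz', hz2⟩ := Set.mem_iInter.1 hz 1
    have hay : a y = y' := by
      rw [← hy2]
      change (a * a ^ (k - 1)) y' = y'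
      rw [← pow_succ', Nat.sub_add_cancel hk, hk1]
      rfl
    have haz : a z = z' := by
      rw [← hz2, pow_one]
      change (a * a⁻¹) z' = z'
      rw [mul_inv_cancel]
      rfl
    rw [map_mul, hay, haz]
    exact U.mul_mem hy' hz'
  have hcomp : CompactSpace (T → F2) := inferInstance
  obtain ⟨l, -, hlH, hl⟩ := h (T → F2) (shiftHom (T := T)).range tidy (fun a U => Iff.rfl)
    (by
      rintro a ⟨t, rfl⟩
      exact continuous_shift t)
    (by
      classical
      refine ⟨S.image (shiftHom (T := T)), ?_⟩
      rw [Finset.coe_image, ← MonoidHom.map_closure, hS, ← MonoidHom.range_eq_map])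
    (by
      refine ⟨⊤, isCompact_univ, isOpen_univ, ?_⟩
      intro a _
      apply tidy_of_inv a ⊤ isClosed_univ
      exact Set.image_univ_of_surjective a.surjective)
  -- the nub of each element is trivial
  have hnub : ∀ t : T, (⋂ (U : Subgroup (T → F2))
              (_ : IsCompact (U : Set (T → F2)) ∧ IsOpen (U : Set (T → F2)) ∧ tidy (shiftHom t) U),
              (U : Set (T → F2))) = 1 := by
    intro t
    apply Set.Subset.antisymm
    · intro f hf
      rw [Set.mem_one]
      funext x
      let C : Set T := (fun s => s * x) '' (Subgroup.zpowers t : Set T)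
      have hfin : C.Finite := by
        apply Set.Finite.image
        exact finite_zpowers.2 (htor t)
      have hK := Set.mem_iInter.1 (Set.mem_iInter.1 hf (K C))
        ⟨(isClosed_K C).isCompact, isOpen_K C hfin, ?_⟩
      · exact hK x ⟨1, Subgroup.one_mem _, one_mul x⟩
      · apply tidy_of_inv _ _ (isClosed_K C)
        ext g
        constructor
        · rintro ⟨g', hg', rfl⟩
          rintro _ ⟨s, hs, rfl⟩
          rw [shiftHom_apply]
          apply hg'
          exact ⟨t⁻¹ * s, Subgroup.mul_mem _ (Subgroup.inv_mem _ (Subgroup.mem_zpowers t)) hs,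
            by simp [mul_assoc]⟩
        · intro hg
          refine ⟨(shiftHom t)⁻¹ g, ?_, ?_⟩
          · rintro _ ⟨s, hs, rfl⟩
            rw [← map_inv, shiftHom_apply, inv_inv]
            apply hg
            exact ⟨t * s, Subgroup.mul_mem _ (Subgroup.mem_zpowers t) hs, by simp [mul_assoc]⟩
          · change (shiftHom t * (shiftHom t)⁻¹) g = g
            rw [mul_inv_cancel]; rfl
    · intro f hf
      rw [Set.mem_one] at hf
      subst hf
      simp only [Set.mem_iInter]
      intro U _
      exact U.one_mem
  have hprod : (l.map (fun a => ⋂ (U : Subgroup (T → F2))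
              (_ : IsCompact (U : Set (T → F2)) ∧ IsOpen (U : Set (T → F2)) ∧ tidy a U),
              (U : Set (T → F2)))).prod = 1 := by
    apply List.prod_eq_one
    intro x hx
    obtain ⟨a, ha, rfl⟩ := List.mem_map.1 hx
    obtain ⟨t, rfl⟩ := hlH a ha
    exact hnub t
  rw [hprod] at hl
  -- the nub of the whole group is everything
  have hall : ∀ U : Subgroup (T → F2), (IsCompact (U : Set (T → F2)) ∧ IsOpen (U : Set (T → F2)) ∧
      ∀ a ∈ (shiftHom (T := T)).range, tidy a U) → U = ⊤ := by
    rintro U ⟨-, hop, htid⟩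
    have hinv : ∀ (t : T), ∀ f ∈ U, shiftHom t f ∈ U := by
      intro t
      apply inv_of_tidy
      · exact MonoidHom.isOfFinOrder (shiftHom (T := T)) (htor t)
      · exact htid _ ⟨t, rfl⟩
    have hnhds : (U : Set (T → F2)) ∈ nhds (1 : T → F2) := hop.mem_nhds U.one_mem
    rw [nhds_pi, Filter.mem_pi] at hnhds
    obtain ⟨E, hE, V, hV, hVU⟩ := hnhds
    have hKE : K E ≤ U := by
      intro f hf
      apply hVU
      intro x hx
      have := mem_of_mem_nhds (hV x)
      rw [hf x hx]
      exact this
    -- a translate
    have hfin : (Set.image2 (fun x y => x * y⁻¹) E E).Finite := hE.image2 _ hE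
    obtain ⟨t, ht⟩ := hfin.exists_notMem
    have hdisj : ∀ x ∈ E, t⁻¹ * x ∉ E := by
      intro x hx hx'
      apply ht
      exact ⟨x, hx, t⁻¹ * x, hx', by simp⟩
    rw [eq_top_iff]
    intro f _
    classical
    have h1 : (fun x => if x ∈ E then 1 else f x) ∈ U := by
      apply hKE
      intro x hx
      simp [hx]
    have h2 : (fun x => if x ∈ E then f x else 1) ∈ U := by
      have h3 : shiftHom t (shiftHom t⁻¹ (fun x => if x ∈ E then f x else 1)) ∈ U := by
        apply hinv
        apply hKE
        intro x hx
        rw [shiftHom_apply, inv_inv]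
        have : t * x ∉ E := by
          intro h4
          have := hdisj _ h4
          rw [inv_mul_cancel_left] at this
          exact this hx
        simp [this]
      have h4 : shiftHom t (shiftHom t⁻¹ (fun x => if x ∈ E then f x else 1)) =
          (fun x => if x ∈ E then f x else 1) := by
        funext x
        rw [shiftHom_apply, shiftHom_apply, inv_inv, mul_inv_cancel_left]
      rwa [h4] at h3
    have h5 : f = (fun x => if x ∈ E then 1 else f x) * (fun x => if x ∈ E then f x else 1) := by
      funext x
      by_cases hx : x ∈ E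
      · simp [hx]
      · simp [hx]
    rw [h5]
    exact U.mul_mem h1 h2
  have hmem : (fun _ : T => Multiplicative.ofAdd (1 : ZMod 2)) ∈
      (1 : Set (T → F2)) := by
    rw [← hl]
    simp only [Set.mem_iInter]
    intro U hU
    rw [hall U hU]
    exact Subgroup.mem_top _
  rw [Set.mem_one] at hmem
  have := congrFun hmem 1
  revert this
  change ¬ ((1 : ZMod 2) = 0)
  decide

end Pool.Agent.S00878
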