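import Pool.Statements.S00905
import Pool.Agent.Q91.ZariskiS3

set_option autoImplicit false
open Pool Pool.MP_207b86_al

namespace Pool.Agent.S00905

open Pool.Agent.Q91.ZariskiS3 in
theorem zariski_eq :
    TopologicalSpace.generateFrom
        {U : Set P | ∃ w : Monoid.Coprod P (FreeGroup Unit),
          U = {g : P | Monoid.Coprod.lift (MonoidHom.id P) (FreeGroup.lift (fun _ => g)) w = 1}ᶜ} =
      (Pi.topologicalSpace : TopologicalSpace P) := by
  have := generate_eq
    {f : P → P | ∃ w : Monoid.Coprod P (FreeGroup Unit),
      f = fun x => Monoid.Coprod.lift (MonoidHom.id P) (FreeGroup.lift (fun _ => x)) w} ?_ ?_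
  · rw [← this]
    congr 1
    ext U
    constructor
    · rintro ⟨w, rfl⟩
      exact ⟨_, ⟨w, rfl⟩, rfl⟩
    · rintro ⟨f, ⟨w, rfl⟩, rfl⟩
      exact ⟨w, rfl⟩
  · rintro f ⟨w, rfl⟩
    induction w using Monoid.Coprod.induction_on with
    | inl g => simpa using continuous_const
    | inr n =>
      induction n using FreeGroup.induction_on with
      | C1 => simpa using continuous_const
      | of a =>
        simp only [Monoid.Coprod.lift_apply_inr, FreeGroup.lift_apply_of]
        exact continuous_id
      | inv_of a ih =>
        simp only [Monoid.Coprod.lift_apply_inr, map_inv, FreeGroup.lift_apply_of]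
        exact continuous_id.inv
      | mul a b ha hb =>
        simp only [map_mul] at ha hb ⊢
        exact ha.mul hb
    | mul a b ha hb =>
      simp only [map_mul]
      exact ha.mul hb
  · intro g c
    refine ⟨Monoid.Coprod.inl g * Monoid.Coprod.inr (FreeGroup.of ()) * Monoid.Coprod.inl c *
      (Monoid.Coprod.inl g * Monoid.Coprod.inr (FreeGroup.of ()))⁻¹ *
      (Monoid.Coprod.inl c)⁻¹, ?_⟩
    funext x
    simp

open Pool.Agent.Q91.ZariskiS3 in
/-- There is an infinite group whose Zariski topology is both compact and Hausdorff. The closed sets of that topology are generated by solution sets of one-variable equations with constants from the group. -/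
theorem result :
    ∃ (G : Type) (_ : Group G) (T : TopologicalSpace G),
      Infinite G ∧
      T = TopologicalSpace.generateFrom
        {U : Set G | ∃ w : Monoid.Coprod G (FreeGroup Unit),
          U = {g : G | Monoid.Coprod.lift (MonoidHom.id G) (FreeGroup.lift (fun _ => g)) w = 1}ᶜ} ∧
      @CompactSpace G T ∧ @T2Space G T := by
  refine ⟨P, inferInstance, Pi.topologicalSpace, inferInstance, zariski_eq.symm, inferInstance,
    inferInstance⟩

end Pool.Agent.S00905
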