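import Pool.Statements.S01012
import Mathlib

set_option autoImplicit false
open Pool Pool.MP_293fae_al

namespace Pool.Agent.S01012

open Polynomial IsLocalRing

noncomputable section

/-- the ring homomorphism from the Gaussian integers to the field with two elements -/
def φ : GaussianInt →+* ZMod 2 := Zsqrtd.lift ⟨1, by decide⟩

/-- the element `1 + i` -/
def π : GaussianInt := ⟨1, 1⟩

/-- the element `i` -/
def ii : GaussianInt := ⟨0, 1⟩

lemma ii_sq : ii * ii = -1 := by decide

lemma two_eq : (2 : GaussianInt) = -ii * (π * π) := by decide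

lemma φ_apply (z : GaussianInt) : φ z = (z.re : ZMod 2) + z.im := by
  simp [φ, Zsqrtd.lift]

lemma φ_π : φ π = 0 := by rw [φ_apply]; decide

lemma φ_ii : φ ii = 1 := by rw [φ_apply]; decide

lemma π_ne : π ≠ 0 := by decide

lemma dvd_of_φ {z : GaussianInt} (h : φ z = 0) : π ∣ z := by
  rw [φ_apply] at h
  have h1 : ((z.re + z.im : ℤ) : ZMod 2) = 0 := by push_cast; exact h
  obtain ⟨c, hc⟩ := (ZMod.intCast_zmod_eq_zero_iff_dvd _ 2).1 h1
  refine ⟨⟨c, c - z.re⟩, ?_⟩
  push_cast at hc
  apply Zsqrtd.ext
  · simp [π]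
  · simp [π]
    linarith

/-- evaluation at zero followed by reduction -/
def ε : GaussianInt[X] →+* ZMod 2 := φ.comp constantCoeff

/-- the maximal ideal `(1 + i, x)` of the polynomial ring -/
def m : Ideal GaussianInt[X] := RingHom.ker ε

instance : m.IsPrime := RingHom.ker_isPrime ε

/-- the local ring `ℤ[i][x]` at `(1 + i, x)` -/
abbrev A : Type := Localization.AtPrime m

lemma mem_m {f : GaussianInt[X]} : f ∈ m ↔ φ (f.coeff 0) = 0 := Iff.rfl

/-- the first generator -/
def a₁ : A := algebraMap GaussianInt[X] A (C π)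
/-- the second generator -/
def a₂ : A := algebraMap GaussianInt[X] A X

lemma exists_clear (a : A) : ∃ s : GaussianInt[X], s ∉ m ∧ ∃ f : GaussianInt[X],
    algebraMap _ A s * a = algebraMap _ A f := by
  obtain ⟨⟨f, s⟩, h⟩ := IsLocalization.surj m.primeCompl a
  exact ⟨s, s.2, f, by rw [mul_comm]; exact h⟩

lemma maxA_span : maximalIdeal A = Ideal.span {a₁, a₂} := by
  rw [← Localization.AtPrime.map_eq_maximalIdeal]
  have h : m = Ideal.span {C π, X} := by
    apply le_antisymm
    · intro f hf
      rw [mem_m] at hf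
      obtain ⟨c, hc⟩ := dvd_of_φ hf
      have h2 : f = X * f.divX + C (f.coeff 0) := (X_mul_divX_add f).symm
      rw [h2, hc, C_mul]
      apply Ideal.add_mem
      · exact Ideal.mul_mem_right _ _ (Ideal.subset_span (by simp))
      · exact Ideal.mul_mem_right _ _ (Ideal.subset_span (by simp))
    · rw [Ideal.span_le]
      rintro f (rfl | rfl)
      · show _ ∈ m
        rw [mem_m]; simp [φ_π]
      · show _ ∈ m
        rw [mem_m]; simp
  have h2 : Ideal.map (algebraMap GaussianInt[X] A) m =
      Ideal.map (algebraMap GaussianInt[X] A) (Ideal.span {C π, X}) := congrArg _ h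
  rw [h2, Ideal.map_span, Set.image_pair]
  rfl

lemma dimA_ge : (2 : WithBot ℕ∞) ≤ ringKrullDim A := by
  rw [IsLocalization.AtPrime.ringKrullDim_eq_height m A]
  have hX : (Ideal.span {(X : GaussianInt[X])}).IsPrime :=
    (Ideal.span_singleton_prime X_ne_zero).2 prime_X
  have h1 : (⊥ : Ideal GaussianInt[X]) < Ideal.span {(X : GaussianInt[X])} := by
    rw [bot_lt_iff_ne_bot]
    simp
  have h2 : Ideal.span {(X : GaussianInt[X])} < m := by
    apply lt_of_le_of_ne
    · rw [Ideal.span_le]
      rintro _ rfl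
      show _ ∈ m
      rw [mem_m]; simp
    · intro h
      have h3 : (C π : GaussianInt[X]) ∈ m := by
        rw [mem_m]; simp [φ_π]
      rw [← h, Ideal.mem_span_singleton, X_dvd_iff] at h3
      simp [π_ne] at h3
  have h3 := Ideal.height_add_one_le_of_lt_of_isPrime h1
  have h4 := Ideal.height_add_one_le_of_lt_of_isPrime h2
  have h5 : (2 : ℕ∞) ≤ m.height := by
    calc (2 : ℕ∞) = 0 + 1 + 1 := by norm_num
      _ ≤ (⊥ : Ideal GaussianInt[X]).height + 1 + 1 := by gcongr; exact zero_le
      _ ≤ (Ideal.span {(X : GaussianInt[X])}).height + 1 := by gcongr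
      _ ≤ m.height := h4
  exact WithBot.coe_le_coe.2 h5

lemma spanFinrank_A_le : (maximalIdeal A).spanFinrank ≤ 2 := by
  rw [maxA_span]
  refine (Submodule.spanFinrank_span_le_ncard_of_finite (Set.toFinite _)).trans ?_
  exact (Set.ncard_insert_le _ _).trans (by simp)

lemma dimA : ringKrullDim A = 2 := by
  apply le_antisymm _ dimA_ge
  refine (ringKrullDim_le_spanFinrank_maximalIdeal A).trans ?_
  exact_mod_cast spanFinrank_A_le

/-- reduction of polynomials -/
def red : GaussianInt[X] →+* (ZMod 2)[X] := mapRingHom φ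

lemma dvd_of_red {f : GaussianInt[X]} (h : red f = 0) : C π ∣ f := by
  rw [C_dvd_iff_dvd_coeff]
  intro n
  apply dvd_of_φ
  have := congrArg (fun g => g.coeff n) h
  simpa [red] using this

/-- the key computation -/
lemma key (B U s : GaussianInt[X]) (hs : s ∉ m)
    (h : U * (U - 2 * C ii * B) = 2 * X * s ^ 2) : False := by
  have htwo : (2 : GaussianInt[X]) = -C ii * (C π * C π) := by
    rw [← C_mul, ← C_neg, ← C_mul, ← two_eq]
    exact (map_ofNat C 2).symm
  have hii : (C ii : GaussianInt[X]) * C ii = -1 := by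
    rw [← C_mul, ii_sq]; simp
  have hredπ : red (C π) = 0 := by simp [red, φ_π]
  have hredi : red (C ii) = 1 := by simp [red, φ_ii]
  have h1 : C π ∣ U := by
    apply dvd_of_red
    have h2 := congrArg red h
    have htr : red 2 = 0 := by rw [htwo, map_mul, map_mul, hredπ]; ring
    rw [map_mul, map_sub, map_mul, map_mul, htr, map_mul, map_mul, htr] at h2
    have h3 : red U ^ 2 = 0 := by
      rw [sq]
      simpa using h2
    exact pow_eq_zero_iff (two_ne_zero) |>.1 h3
  obtain ⟨V, rfl⟩ := h1
  have h2 : (C π * C π : GaussianInt[X]) * (V * (V - C π * B) + C ii * X * s ^ 2) = 0 := by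
    rw [htwo] at h
    linear_combination h - C π * C π * C π * V * B * (hii)
  have h3 : V * (V - C π * B) + C ii * X * s ^ 2 = 0 := by
    rcases mul_eq_zero.1 h2 with h3 | h3
    · simp [π_ne] at h3
    · exact h3
  have h4 := congrArg red h3
  rw [map_add, map_mul, map_sub, map_mul, hredπ, map_mul, map_mul, hredi, map_pow, map_zero,
    zero_mul, sub_zero, one_mul] at h4
  have hredX : red X = X := by simp [red]
  rw [hredX] at h4
  have hs0 : red s ≠ 0 := by
    intro h0
    apply hs
    rw [mem_m]
    have := congrArg (fun g => g.coeff 0) h0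
    simpa [red] using this
  have h5 : red V * red V = -(X * red s ^ 2) := by linear_combination h4
  have h6 := congrArg natDegree h5
  rw [natDegree_neg, natDegree_X_mul (pow_ne_zero _ hs0), natDegree_pow, ← sq, natDegree_pow] at h6
  omega

/-- `2 x` is not a sum of two squares in `A`. -/
lemma not_two_squares (a b : A) (h : 2 * a₂ = a ^ 2 + b ^ 2) : False := by
  obtain ⟨s, hs, f, hf⟩ := exists_clear a
  obtain ⟨t, ht, g, hg⟩ := exists_clear b
  have hst : s * t ∉ m := fun hh => by
    rcases (inferInstance : m.IsPrime).mem_or_mem hh with h1 | h1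
    · exact hs h1
    · exact ht h1
  refine key (s * g) (t * f + C ii * (s * g)) (s * t) hst ?_
  have hii : (C ii : GaussianInt[X]) * C ii = -1 := by
    rw [← C_mul, ii_sq]; simp
  have hinj : Function.Injective (algebraMap GaussianInt[X] A) :=
    IsLocalization.injective A m.primeCompl_le_nonZeroDivisors
  apply hinj
  have e1 : (t * f + C ii * (s * g)) * (t * f + C ii * (s * g) - 2 * C ii * (s * g)) =
      (t * f) ^ 2 + (s * g) ^ 2 := by
    linear_combination (-(s * g) ^ 2) * hii
  rw [e1]
  simp only [map_add, map_mul, map_pow, map_ofNat, ← hf, ← hg]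
  have h' : (2 : A) * algebraMap GaussianInt[X] A X = a ^ 2 + b ^ 2 := h
  linear_combination (-(algebraMap GaussianInt[X] A s * algebraMap GaussianInt[X] A t) ^ 2) * h'

/-- Transfer of the hypothesis to a local domain containing a square root of minus one. -/
theorem aux (H : ∀ (R : Type) [CommRing R] [IsDomain R] [IsLocalRing R] [IsNoetherianRing R],
      ringKrullDim R = 2 →
      (∃ a b : R, IsLocalRing.maximalIdeal R = Ideal.span {a, b}) →
      ∀ (K : Type) [Field K] [Algebra R K] [IsFractionRing R K],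
      ∀ n : ℕ,
        ((∀ x : R, IsSumSq x → ∃ f : Fin n → R, x = ∑ i, f i ^ 2) ↔
          (∀ x : K, IsSumSq x → ∃ f : Fin n → K, x = ∑ i, f i ^ 2)))
    (R : Type) [CommRing R] [IsDomain R] [IsLocalRing R] [IsNoetherianRing R]
    (hd : ringKrullDim R = 2) (hm : ∃ a b : R, IsLocalRing.maximalIdeal R = Ideal.span {a, b})
    (i : R) (hi : i * i = -1) (h2 : (2 : R) ≠ 0) :
    ∀ x : R, IsSumSq x → ∃ f : Fin 2 → R, x = ∑ i, f i ^ 2 := by
  refine (H R hd hm (FractionRing R) 2).2 ?_
  intro x _
  set j : FractionRing R := algebraMap R _ i with hj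
  have hjj : j * j = -1 := by
    rw [hj, ← map_mul, hi]; simp
  have h2 : (2 : FractionRing R) ≠ 0 := by
    have hz : Function.Injective (algebraMap R (FractionRing R)) :=
      IsFractionRing.injective R _
    intro h0
    apply h2
    apply hz
    rw [map_ofNat, map_zero]; exact h0
  refine ⟨![(x + 1) / 2, j * ((x - 1) / 2)], ?_⟩
  rw [Fin.sum_univ_two]
  simp only [Matrix.cons_val_zero, Matrix.cons_val_one]
  have e : ((x + 1) / 2) ^ 2 + (j * ((x - 1) / 2)) ^ 2 =
      ((x + 1) / 2) ^ 2 + (j * j) * ((x - 1) / 2) ^ 2 := by ring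
  rw [e, hjj]
  field_simp
  ring

lemma two_ne : (2 : A) ≠ 0 := by
  have hinj : Function.Injective (algebraMap GaussianInt[X] A) :=
    IsLocalization.injective A m.primeCompl_le_nonZeroDivisors
  intro h0
  have h3 : algebraMap GaussianInt[X] A 2 = algebraMap GaussianInt[X] A 0 := by
    rw [map_ofNat, map_zero]; exact h0
  exact two_ne_zero (hinj h3)

lemma i_sq : algebraMap GaussianInt[X] A (C ii) * algebraMap GaussianInt[X] A (C ii) = -1 := by
  rw [← map_mul, ← C_mul, ii_sq]; simp

/-- The negation of the preceding statement: For every 2-dimensional regular local ring R with fraction field K, and every n, every sum of squares in R is a sum of n squares iff the same holds in K; that is, the Pythagoras numbers of R and K agree. -/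
theorem result :
    ¬ (∀ (R : Type) [CommRing R] [IsDomain R] [IsLocalRing R] [IsNoetherianRing R],
      ringKrullDim R = 2 →
      (∃ a b : R, IsLocalRing.maximalIdeal R = Ideal.span {a, b}) →
      ∀ (K : Type) [Field K] [Algebra R K] [IsFractionRing R K],
      ∀ n : ℕ,
        ((∀ x : R, IsSumSq x → ∃ f : Fin n → R, x = ∑ i, f i ^ 2) ↔
          (∀ x : K, IsSumSq x → ∃ f : Fin n → K, x = ∑ i, f i ^ 2))) := by
  intro H
  have h1 := aux H A dimA ⟨a₁, a₂, maxA_span⟩ _ i_sq two_ne
  have h3 : IsSumSq (2 * a₂) := by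
    set j : A := algebraMap GaussianInt[X] A (C ii) with hj
    have hjj : j * j = -1 := by
      rw [hj, ← map_mul, ← C_mul, ii_sq]; simp
    have e : 2 * a₂ = (1 + a₂) * (1 + a₂) + (j * j + ((j * a₂) * (j * a₂) + 0)) := by
      linear_combination (-(1 + a₂ * a₂)) * hjj
    rw [e]
    exact IsSumSq.sq_add _ (IsSumSq.sq_add _ (IsSumSq.sq_add _ IsSumSq.zero))
  obtain ⟨f, hf⟩ := h1 _ h3
  rw [Fin.sum_univ_two] at hf
  exact not_two_squares _ _ hf

end

end Pool.Agent.S01012
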