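import Pool.Statements.S01246
import Pool.Agent.Q121.HC.Main
import Pool.Agent.Q121.HC.Graph2

set_option autoImplicit false
open CategoryTheory
open Pool Pool.MP_3ca9d5_al

namespace Pool.Agent.S01246

open Pool.Agent.Q121.HC Pool.Agent.W326.DU Pool.Agent.Y66.HC in
/-- The Bestvina-Brady group of the graph and its free cover. -/
theorem exists_data : ∃ (Q : Type) (_ : Group Q) (π : FreeGroup (Fin 21) →* Q),
    Function.Surjective π ∧ FPc 3 Q ∧ FPc 2 Q ∧ ¬ FPc 2 (FP π) := by
  let π : FreeGroup (Fin 21) →* BB gad := FreeGroup.lift (xv gad 0)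
  have hπof : ∀ v, π (FreeGroup.of v) = xv gad 0 v := fun v => FreeGroup.lift_apply_of
  have hπ : Function.Surjective π := by
    rw [← MonoidHom.range_eq_top, eq_top_iff, ← bb_closure gad 0 gad_conn]
    refine (Subgroup.closure_le _).2 ?_
    rintro _ ⟨v, rfl⟩
    exact ⟨FreeGroup.of v, hπof v⟩
  have hmk : ∀ f, ((π f : BB gad) : RAAG gad) = PresentedGroup.mk (rels gad) (theta 0 f) := by
    intro f
    have h : (BB gad).subtype.comp π = (PresentedGroup.mk (rels gad)).comp (theta 0) := by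
      apply FreeGroup.ext_hom
      intro v
      change ((π (FreeGroup.of v) : BB gad) : RAAG gad) =
        PresentedGroup.mk (rels gad) (theta 0 (FreeGroup.of v))
      rw [hπof, theta_of, map_mul, map_inv]
      rfl
    exact DFunLike.congr_fun h f
  have hk4 : ∀ a b c d, gad a b → gad a c → gad a d → gad b c → gad b d → ¬ gad c d :=
    fun a b c d h1 h2 h3 h4 h5 => gad_k4' a b h1 c h2 h4 d h3 h5
  have hcoc : ∀ u v w, cl gad u v → cl gad v w → cl gad u w → gam u v * gam v w = gam u w :=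
    fun u v w h1 h2 h3 => gam_coc u v w h1 h2 h3
  refine ⟨BB gad, inferInstance, π, hπ, BB_fpc gad 0 gad_symm gad_irr hk4 g_acyc 3,
    BB_fpc gad 0 gad_symm gad_irr hk4 g_acyc 2, ?_⟩
  refine not_fpc π hπ (lvl gad) ((Phi gad gad_symm gam).comp (theta 0)) ?_ ?_ ?_
  · intro f y
    exact lvl_theta gad gad_symm gam 0 f y
  · intro f f' h
    apply Phi_eq gad gad_symm gam hcoc 0 f f'
    rw [← hmk, ← hmk, h]
  · intro N
    obtain ⟨f, hf, y, hy, hne⟩ := exists_long gad gad_symm gam hcoc 0 gp 6 gp_path (by decide)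
      gp_hol (N + 2) (by omega)
    refine ⟨f, ?_, y, ?_, hne⟩
    · apply Subtype.ext
      rw [hmk, hf]
      rfl
    · rw [hy, abs_of_nonneg (by positivity)]
      push_cast
      omega

/-- The negation of the preceding statement: For surjections G₁→Q, G₂→Q with finitely generated kernel in G₁, G₁ and G₂ of type FP₂ and Q of type FP₃, the fibre product {(a,b) : π₁a = π₂b} is of type FP₂. -/
theorem result :
    ¬ (∀ (G₁ G₂ Q : Type) [Group G₁] [Group G₂] [Group Q] (π₁ : G₁ →* Q) (π₂ : G₂ →* Q),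
      Function.Surjective π₁ → Function.Surjective π₂ → Group.FG π₁.ker →
      (∃ R : ProjectiveResolution (Rep.trivial ℤ G₁ ℤ), ∀ k ≤ 2,
        ∃ s : Finset (R.complex.X k).V, ∀ x : (R.complex.X k).V,
          x ∈ Submodule.span ℤ
            (Set.range (fun p : G₁ × s => (R.complex.X k).ρ p.1 (p.2 : (R.complex.X k).V)))) →
      (∃ R : ProjectiveResolution (Rep.trivial ℤ G₂ ℤ), ∀ k ≤ 2,
        ∃ s : Finset (R.complex.X k).V, ∀ x : (R.complex.X k).V,
          x ∈ Submodule.span ℤ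
            (Set.range (fun p : G₂ × s => (R.complex.X k).ρ p.1 (p.2 : (R.complex.X k).V)))) →
      (∃ R : ProjectiveResolution (Rep.trivial ℤ Q ℤ), ∀ k ≤ 3,
        ∃ s : Finset (R.complex.X k).V, ∀ x : (R.complex.X k).V,
          x ∈ Submodule.span ℤ
            (Set.range (fun p : Q × s => (R.complex.X k).ρ p.1 (p.2 : (R.complex.X k).V)))) →
      (∃ R : ProjectiveResolution (Rep.trivial ℤ
          ↥((π₁.comp (MonoidHom.fst G₁ G₂)).eqLocus (π₂.comp (MonoidHom.snd G₁ G₂))) ℤ),
        ∀ k ≤ 2,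
        ∃ s : Finset (R.complex.X k).V, ∀ x : (R.complex.X k).V,
          x ∈ Submodule.span ℤ
            (Set.range (fun p : ↥((π₁.comp (MonoidHom.fst G₁ G₂)).eqLocus
                (π₂.comp (MonoidHom.snd G₁ G₂))) × s =>
              (R.complex.X k).ρ p.1 (p.2 : (R.complex.X k).V))))) := by
  intro h
  obtain ⟨Q, _, π, hπ, h3, h2, hP⟩ := exists_data
  exact hP (h _ _ Q (Pool.Agent.Q121.HC.p1 π) π (Pool.Agent.Q121.HC.p1_surj π hπ) hπ
    (Pool.Agent.Q121.HC.ker_fg π hπ) (Pool.Agent.Q121.HC.fpcG π hπ h2)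
    Pool.Agent.Q121.HC.free_fpc h3)

end Pool.Agent.S01246
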