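import Pool.Statements.S01554
-- import your own Pool.Agent.* helpers here

set_option autoImplicit false
open Pool Pool.MP_58cc81_al

namespace Pool.Agent.S01554

/-- The discrete elementary abelian group `⊕_ℕ ℤ/2`. -/
abbrev V0 : Type := ℕ →₀ ZMod 2

/-- The sign of an element of `ZMod 2`, as an element of the circle. -/
noncomputable def sgn (a : ZMod 2) : Circle := if a = 0 then 1 else Circle.exp Real.pi

lemma exp_pi_mul_self : Circle.exp Real.pi * Circle.exp Real.pi = 1 := by
  rw [← Circle.exp_add]
  have : Real.pi + Real.pi = 2 * Real.pi := by ring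
  rw [this, Circle.exp_two_pi]

lemma exp_pi_ne_one : Circle.exp Real.pi ≠ 1 := by
  intro h
  have h1 := congrArg (fun z : Circle => (z : ℂ)) h
  simp only [Circle.coe_exp, Circle.coe_one] at h1
  rw [Complex.exp_pi_mul_I] at h1
  norm_num at h1

lemma zmod2_cases (a : ZMod 2) : a = 0 ∨ a = 1 := by
  revert a; decide

lemma sgn_zero : sgn 0 = 1 := by simp [sgn]

lemma sgn_one : sgn 1 = Circle.exp Real.pi := by simp [sgn]

lemma sgn_add (a b : ZMod 2) : sgn (a + b) = sgn a * sgn b := by
  rcases zmod2_cases a with rfl | rfl <;> rcases zmod2_cases b with rfl | rfl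
  · simp [sgn_zero]
  · simp [sgn_zero]
  · simp [sgn_zero]
  · have : (1 : ZMod 2) + 1 = 0 := by decide
    rw [this, sgn_zero, sgn_one, exp_pi_mul_self]

lemma sgn_injective : Function.Injective sgn := by
  intro a b h
  rcases zmod2_cases a with rfl | rfl <;> rcases zmod2_cases b with rfl | rfl
  · rfl
  · exfalso; rw [sgn_zero, sgn_one] at h; exact exp_pi_ne_one h.symm
  · exfalso; rw [sgn_zero, sgn_one] at h; exact exp_pi_ne_one h
  · rfl

/-- The bilinear cocycle. -/
noncomputable def beta (v w : V0) : ℕ × ℕ → Circle :=
  fun p => if p.1 < p.2 then sgn (v p.1 * w p.2) else 1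

lemma beta_add_left (v v' w : V0) : beta (v + v') w = beta v w * beta v' w := by
  funext p
  by_cases h : p.1 < p.2
  · simp [beta, h, add_mul, sgn_add]
  · simp [beta, h]

lemma beta_add_right (v w w' : V0) : beta v (w + w') = beta v w * beta v w' := by
  funext p
  by_cases h : p.1 < p.2
  · simp [beta, h, mul_add, sgn_add]
  · simp [beta, h]

lemma beta_zero_left (w : V0) : beta 0 w = 1 := by
  funext p
  simp [beta, sgn_zero]

lemma beta_zero_right (v : V0) : beta v 0 = 1 := by
  funext p
  simp [beta, sgn_zero]

/-- The group. -/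
structure G where
  v : V0
  n : ℕ × ℕ → Circle

namespace G

@[ext] lemma ext' {x y : G} (h1 : x.v = y.v) (h2 : x.n = y.n) : x = y := by
  cases x; cases y; simp_all

noncomputable instance : Mul G := ⟨fun x y => ⟨x.v + y.v, x.n * y.n * beta x.v y.v⟩⟩
noncomputable instance : One G := ⟨⟨0, 1⟩⟩
noncomputable instance : Inv G := ⟨fun x => ⟨-x.v, x.n⁻¹ * beta x.v x.v⟩⟩

@[simp] lemma mul_v (x y : G) : (x * y).v = x.v + y.v := rfl
@[simp] lemma mul_n (x y : G) : (x * y).n = x.n * y.n * beta x.v y.v := rfl
@[simp] lemma one_v : (1 : G).v = 0 := rfl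
@[simp] lemma one_n : (1 : G).n = 1 := rfl
@[simp] lemma inv_v (x : G) : (x⁻¹).v = -x.v := rfl
@[simp] lemma inv_n (x : G) : (x⁻¹).n = x.n⁻¹ * beta x.v x.v := rfl

lemma beta_neg_left (v w : V0) : beta (-v) w * beta v w = 1 := by
  rw [← beta_add_left, neg_add_cancel, beta_zero_left]

noncomputable instance : Group G :=
  Group.ofLeftAxioms
    (by
      intro x y z
      apply ext'
      · simp [add_assoc]
      · simp only [mul_n, mul_v, beta_add_left, beta_add_right]
        simp only [mul_assoc, mul_left_comm, mul_comm])
    (by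
      intro x
      apply ext'
      · simp
      · simp [beta_zero_left])
    (by
      intro x
      apply ext'
      · simp
      · simp only [mul_n, inv_n, inv_v, one_n]
        have h := beta_neg_left x.v x.v
        calc x.n⁻¹ * beta x.v x.v * x.n * beta (-x.v) x.v
            = (x.n⁻¹ * x.n) * (beta (-x.v) x.v * beta x.v x.v) := by
              simp only [mul_assoc, mul_left_comm, mul_comm]
          _ = 1 := by rw [h, inv_mul_cancel, one_mul])

/-- The underlying product. -/
def toProd (x : G) : V0 × (ℕ × ℕ → Circle) := (x.v, x.n)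

/-- topology on the discrete part -/
local instance : TopologicalSpace V0 := ⊥
local instance : DiscreteTopology V0 := ⟨rfl⟩

noncomputable instance : TopologicalSpace G := TopologicalSpace.induced toProd inferInstance

/-- The homeomorphism with the product. -/
noncomputable def homeo : G ≃ₜ V0 × (ℕ × ℕ → Circle) where
  toFun := toProd
  invFun p := ⟨p.1, p.2⟩
  left_inv x := rfl
  right_inv p := rfl
  continuous_toFun := continuous_induced_dom
  continuous_invFun := continuous_induced_rng.2 continuous_id

lemma continuous_v : Continuous (fun x : G => x.v) :=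
  continuous_fst.comp homeo.continuous

lemma continuous_n : Continuous (fun x : G => x.n) :=
  continuous_snd.comp homeo.continuous

lemma continuous_mk {X : Type*} [TopologicalSpace X] {f : X → V0} {g : X → ℕ × ℕ → Circle}
    (hf : Continuous f) (hg : Continuous g) : Continuous (fun x => (⟨f x, g x⟩ : G)) :=
  homeo.symm.continuous.comp (hf.prodMk hg)

instance : IsTopologicalGroup G where
  continuous_mul := by
    have h1 : Continuous (fun p : G × G => p.1.v) := continuous_v.comp continuous_fst
    have h2 : Continuous (fun p : G × G => p.2.v) := continuous_v.comp continuous_snd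
    have h3 : Continuous (fun p : G × G => p.1.n) := continuous_n.comp continuous_fst
    have h4 : Continuous (fun p : G × G => p.2.n) := continuous_n.comp continuous_snd
    have hb : Continuous (fun q : V0 × V0 => beta q.1 q.2) := continuous_of_discreteTopology
    exact continuous_mk (continuous_of_discreteTopology (f := fun q : V0 × V0 => q.1 + q.2)
      |>.comp (h1.prodMk h2)) ((h3.mul h4).mul (hb.comp (h1.prodMk h2)))
  continuous_inv := by
    have hb : Continuous (fun q : V0 => beta q q) := continuous_of_discreteTopology
    exact continuous_mk (continuous_of_discreteTopology (f := fun q : V0 => -q)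
      |>.comp continuous_v) (continuous_n.inv.mul (hb.comp continuous_v))

instance : T2Space G := homeo.isEmbedding.t2Space

instance : LocallyCompactSpace G := homeo.isClosedEmbedding.locallyCompactSpace

/-- Sets over a finite set of `V0` are compact. -/
lemma isCompact_of_finite (F : Set V0) (hF : F.Finite) : IsCompact {x : G | x.v ∈ F} := by
  have h1 : IsCompact (F ×ˢ (Set.univ : Set (ℕ × ℕ → Circle))) :=
    hF.isCompact.prod isCompact_univ
  have h2 : {x : G | x.v ∈ F} = homeo ⁻¹' (F ×ˢ (Set.univ : Set (ℕ × ℕ → Circle))) := by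
    ext x
    constructor
    · intro hx
      exact ⟨hx, Set.mem_univ _⟩
    · intro hx
      exact hx.1
  rw [h2]
  exact homeo.isClosedEmbedding.isCompact_preimage h1

lemma isClosed_of_set (F : Set V0) : IsClosed {x : G | x.v ∈ F} :=
  (isClosed_discrete F).preimage continuous_v

lemma isOpen_of_set (F : Set V0) : IsOpen {x : G | x.v ∈ F} :=
  (isOpen_discrete F).preimage continuous_v

lemma compact_closure_of_subset (S : Set G) (F : Set V0) (hF : F.Finite)
    (h : ∀ x ∈ S, x.v ∈ F) : IsCompact (closure S) := by
  apply (isCompact_of_finite F hF).of_isClosed_subset isClosed_closure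
  exact closure_minimal (fun x hx => h x hx) (isClosed_of_set F)

/-- elements over `0` are central -/
lemma conj_eq (g x : G) (hx : x.v = 0) : g * x * g⁻¹ = x := by
  have : g * x = x * g := by
    apply ext'
    · simp [hx]
    · simp only [mul_n, hx, beta_zero_left, beta_zero_right, mul_one]
      exact mul_comm _ _
  rw [this, mul_inv_cancel_right]

lemma sin : ∀ U ∈ nhds (1 : G), ∃ V ∈ nhds (1 : G), V ⊆ U ∧
          ∀ g x : G, x ∈ V → g * x * g⁻¹ ∈ V := by
  intro U hU
  refine ⟨U ∩ {x : G | x.v ∈ ({0} : Set V0)}, ?_, Set.inter_subset_left, ?_⟩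
  · apply Filter.inter_mem hU
    exact (isOpen_of_set {0}).mem_nhds (by simp)
  · intro g x hx
    have h0 : x.v = 0 := by simpa using hx.2
    rw [conj_eq g x h0]
    exact hx

lemma dep_of_commute (x y : G) (h : x * y = y * x) (hx : x.v ≠ 0) : y.v = 0 ∨ y.v = x.v := by
  have h1 : ∀ i j, x.v i * y.v j = y.v i * x.v j := by
    have h2 : ∀ i j, i < j → x.v i * y.v j = y.v i * x.v j := by
      intro i j hij
      have h3 := congrArg G.n h
      simp only [mul_n] at h3
      have h4 : beta x.v y.v = beta y.v x.v := by
        rw [mul_comm x.n y.n] at h3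
        exact mul_left_cancel h3
      have h5 := congrFun h4 (i, j)
      simp only [beta, hij, if_true] at h5
      exact sgn_injective h5
    intro i j
    rcases lt_trichotomy i j with h | h | h
    · exact h2 i j h
    · subst h; ring
    · have := h2 j i h
      linear_combination -this
  obtain ⟨i, hi⟩ : ∃ i, x.v i ≠ 0 := by
    by_contra hcon
    push Not at hcon
    exact hx (Finsupp.ext hcon)
  have hi1 : x.v i = 1 := (zmod2_cases _).resolve_left hi
  rcases zmod2_cases (y.v i) with h0 | h0
  · left
    ext j
    have := h1 i j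
    rw [hi1, h0] at this
    simpa using this
  · right
    ext j
    have := h1 i j
    rw [hi1, h0] at this
    simpa using this

lemma abelian : ∀ H : Subgroup G, (∀ a ∈ H, ∀ b ∈ H, a * b = b * a) →
          IsCompact (closure (H : Set G)) := by
  intro H hH
  by_cases h0 : ∀ x ∈ H, x.v = 0
  · exact compact_closure_of_subset _ {0} (Set.finite_singleton _) (fun x hx => h0 x hx)
  · push Not at h0
    obtain ⟨x, hx, hx0⟩ := h0
    apply compact_closure_of_subset _ {0, x.v} (by simp)
    intro y hy
    rcases dep_of_commute x y (hH x hx y hy) hx0 with h | h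
    · simp [h]
    · simp [h]

lemma finite_supp (M : ℕ) : {v : V0 | ∀ i, M ≤ i → v i = 0}.Finite := by
  have : Finite {v : V0 // ∀ i, M ≤ i → v i = 0} := by
    apply Finite.of_injective
      (fun (v : {v : V0 // ∀ i, M ≤ i → v i = 0}) (i : Fin M) => (v.1 i : ZMod 2))
    intro v w h
    apply Subtype.ext
    ext i
    by_cases hi : i < M
    · have := congrFun h ⟨i, hi⟩
      simpa using this
    · rw [v.2 i (not_lt.1 hi), w.2 i (not_lt.1 hi)]
  exact Set.finite_coe_iff.1 this

lemma locfin : ∀ K : Set G, IsCompact (closure K) →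
          IsCompact (closure ((Subgroup.closure K : Subgroup G) : Set G)) := by
  intro K hK
  have h1 : ((fun x : G => x.v) '' closure K).Finite :=
    (hK.image continuous_v).finite_of_discrete
  obtain ⟨M, hM⟩ : ∃ M : ℕ, ∀ x ∈ K, ∀ i, M ≤ i → x.v i = 0 := by
    have h2 : (⋃ v ∈ ((fun x : G => x.v) '' closure K), (v.support : Set ℕ)).Finite :=
      h1.biUnion (fun v _ => v.support.finite_toSet)
    obtain ⟨M, hM⟩ := h2.bddAbove
    refine ⟨M + 1, fun x hx i hi => ?_⟩
    by_contra hne
    have : i ∈ (⋃ v ∈ ((fun x : G => x.v) '' closure K), (v.support : Set ℕ)) := by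
      simp only [Set.mem_iUnion]
      exact ⟨x.v, ⟨x, subset_closure hx, rfl⟩, by simpa using hne⟩
    have := hM this
    omega
  apply compact_closure_of_subset _ {v : V0 | ∀ i, M ≤ i → v i = 0} (finite_supp M)
  intro x hx
  refine Subgroup.closure_induction (p := fun x _ => x.v ∈ {v : V0 | ∀ i, M ≤ i → v i = 0})
    ?_ ?_ ?_ ?_ hx
  · intro x hx
    exact hM x hx
  · intro i _
    simp
  · intro x y _ _ hx hy i hi
    simp only [mul_v, Finsupp.add_apply]
    rw [hx i hi, hy i hi, add_zero]
  · intro x _ hx i hi
    simp only [inv_v, Finsupp.neg_apply]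
    rw [hx i hi, neg_zero]

lemma not_td : ¬ TotallyDisconnectedSpace G := by
  intro h
  have hc : Continuous (fun t : ℝ => (⟨0, fun _ => Circle.exp t⟩ : G)) := by
    apply continuous_mk continuous_const
    exact continuous_pi (fun _ => Circle.exp.continuous)
  have hp : IsPreconnected (Set.range (fun t : ℝ => (⟨0, fun _ => Circle.exp t⟩ : G))) :=
    isPreconnected_range hc
  have hs := h.isTotallyDisconnected_univ _ (Set.subset_univ _) hp
  have h1 := hs (Set.mem_range_self 0) (Set.mem_range_self Real.pi)
  have h2 := congrFun (congrArg G.n h1) (0, 0)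
  simp only [Circle.exp_zero] at h2
  exact exp_pi_ne_one h2.symm

lemma not_compact : ¬ CompactSpace G := by
  intro h
  have h1 : ((fun x : G => x.v) '' Set.univ).Finite :=
    (isCompact_univ.image continuous_v).finite_of_discrete
  have h2 : (fun x : G => x.v) '' Set.univ = Set.univ := by
    rw [Set.image_univ]
    apply Set.range_eq_univ.2
    intro v
    exact ⟨⟨v, 1⟩, rfl⟩
  rw [h2] at h1
  have h3 : Infinite V0 := by
    apply Infinite.of_injective (fun n : ℕ => (Finsupp.single n (1 : ZMod 2) : V0))
    intro a b hab
    exact (Finsupp.single_left_inj (by decide : (1 : ZMod 2) ≠ 0)).1 hab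
  exact h3.not_finite (Set.finite_univ_iff.1 h1)

end G

/-- The negation of the preceding statement: A Hausdorff locally compact group with small invariant neighbourhoods, whose abelian subgroups have compact closure and whose relatively compact subsets generate relatively compact subgroups, is totally disconnected or compact. -/
theorem result :
    ¬ (∀ (G : Type) [Group G] [TopologicalSpace G] [IsTopologicalGroup G]
      [LocallyCompactSpace G] [T2Space G],
      (∀ U ∈ nhds (1 : G), ∃ V ∈ nhds (1 : G), V ⊆ U ∧
          ∀ g x : G, x ∈ V → g * x * g⁻¹ ∈ V) →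
      (∀ H : Subgroup G, (∀ a ∈ H, ∀ b ∈ H, a * b = b * a) →
          IsCompact (closure (H : Set G))) →
      (∀ K : Set G, IsCompact (closure K) →
          IsCompact (closure ((Subgroup.closure K : Subgroup G) : Set G))) →
      TotallyDisconnectedSpace G ∨ CompactSpace G) := by
  intro h
  rcases h G G.sin G.abelian G.locfin with h | h
  · exact G.not_td h
  · exact G.not_compact h

end Pool.Agent.S01554
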