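import Pool.Statements.S01591
import Pool.Agent.W386.Conv
-- import your own Pool.Agent.* helpers here

set_option autoImplicit false
open Pool Pool.MP_5c61b4_al

namespace Pool.Agent.S01591

/-- For n ≥ 2, if π₁: Γ₁→Q and π₂: Γ₂→Q are surjective, ker π₁ is of type F_n, Γ₁ and Γ₂ are F_{n+1}, and Q is F_{n+2}, then the fibre product of Γ₁ and Γ₂ over Q is of type F_{n+1}. -/
theorem result :
  ∀ (IsF : ℕ → (G : Type) → Group G → Prop),
    (∀ (m : ℕ) (G : Type) (inst : Group G), IsF m G inst ↔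
      ((∃ (r : ℕ) (f : FreeGroup (Fin r) →* G) (S : Finset (FreeGroup (Fin r))),
          Function.Surjective f ∧ f.ker = Subgroup.normalClosure (↑S : Set (FreeGroup (Fin r)))) ∧
       (∃ (k : ℕ → ℕ) (ε : MonoidAlgebra ℤ G →+* ℤ)
          (d : ∀ i : ℕ, (Fin (k (i+1)) → MonoidAlgebra ℤ G) →ₗ[MonoidAlgebra ℤ G]
                (Fin (k i) → MonoidAlgebra ℤ G)),
          (∀ g : G, ε (MonoidAlgebra.of ℤ G g) = 1) ∧
          (∃ x : Fin (k 0) → MonoidAlgebra ℤ G, ∑ j, ε (x j) = 1) ∧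
          (0 < m → ∀ x : Fin (k 0) → MonoidAlgebra ℤ G,
              (∑ j, ε (x j) = 0 ↔ x ∈ LinearMap.range (d 0))) ∧
          (∀ j : ℕ, j + 2 ≤ m → LinearMap.range (d (j+1)) = LinearMap.ker (d j))))) →
    ∀ (n : ℕ), 2 ≤ n →
    ∀ (Γ₁ Γ₂ Q : Type) [Group Γ₁] [Group Γ₂] [Group Q] (π₁ : Γ₁ →* Q) (π₂ : Γ₂ →* Q),
      Function.Surjective π₁ → Function.Surjective π₂ →
      IsF n (↥π₁.ker) inferInstance →
      IsF (n+1) Γ₁ inferInstance →
      IsF (n+1) Γ₂ inferInstance →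
      IsF (n+2) Q inferInstance →
      IsF (n+1)
        (↥(MonoidHom.eqLocus (π₁.comp (MonoidHom.fst Γ₁ Γ₂)) (π₂.comp (MonoidHom.snd Γ₁ Γ₂))))
        inferInstance := by
  intro IsF hIsF n hn Γ₁ Γ₂ Q _ _ _ π₁ π₂ hπ₁ hπ₂ hN hG₁ hG₂ hQ
  obtain ⟨hN1, hN2⟩ := (hIsF _ _ _).1 hN
  obtain ⟨hG1, hG2⟩ := (hIsF _ _ _).1 hG₁
  obtain ⟨hL1, hL2⟩ := (hIsF _ _ _).1 hG₂
  obtain ⟨hQ1, hQ2⟩ := (hIsF _ _ _).1 hQ
  rw [← Pool.Agent.W386.fp_iff] at hN1 hG1 hL1 hQ1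
  set P : Subgroup (Γ₁ × Γ₂) :=
    MonoidHom.eqLocus (π₁.comp (MonoidHom.fst Γ₁ Γ₂)) (π₂.comp (MonoidHom.snd Γ₁ Γ₂)) with hP
  have memP : ∀ x : Γ₁ × Γ₂, x ∈ P ↔ π₁ x.1 = π₂ x.2 := fun x => Iff.rfl
  let j : π₁.ker →* P :=
    { toFun := fun x => ⟨((x : Γ₁), 1), by
        rw [memP]
        change π₁ (x : Γ₁) = π₂ 1
        rw [map_one]
        exact x.2⟩
      map_one' := rfl
      map_mul' := fun x y => by
        apply Subtype.ext
        apply Prod.ext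
        · rfl
        · exact (mul_one (1 : Γ₂)).symm }
  let π : P →* Γ₁ := (MonoidHom.fst Γ₁ Γ₂).comp P.subtype
  let b : P →* Γ₂ := (MonoidHom.snd Γ₁ Γ₂).comp P.subtype
  have hj : Function.Injective (π.comp j) := fun x y hxy => Subtype.ext hxy
  have hj0 : Function.Injective j := fun x y hxy => hj (congrArg π hxy)
  have hπ : Function.Surjective π := by
    intro x
    obtain ⟨y, hy⟩ := hπ₂ (π₁ x)
    exact ⟨⟨(x, y), (memP _).2 hy.symm⟩, rfl⟩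
  have hb : Function.Surjective b := by
    intro y
    obtain ⟨x, hx⟩ := hπ₁ (π₂ y)
    exact ⟨⟨(x, y), (memP _).2 hx⟩, rfl⟩
  have hjb : b.ker = j.range := by
    ext x
    constructor
    · intro hx
      have h1 : (x : Γ₁ × Γ₂).2 = 1 := hx
      have h2 := (memP _).1 x.2
      rw [h1, map_one] at h2
      refine ⟨⟨(x : Γ₁ × Γ₂).1, h2⟩, ?_⟩
      apply Subtype.ext
      apply Prod.ext
      · rfl
      · exact h1.symm
    · rintro ⟨y, rfl⟩
      rfl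
  have hjc : π₁.ker = (π.comp j).range := by
    ext x
    constructor
    · intro hx
      exact ⟨⟨x, hx⟩, rfl⟩
    · rintro ⟨y, rfl⟩
      exact y.2
  have hPfp : Group.IsFinitelyPresented P :=
    Pool.Agent.W386.fp_ext j hj0 b hb hjb hN1 hL1
  have hPfg : Group.FG P := Pool.Agent.W386.fp_fg hPfp
  have hK : π.ker.IsFinitelyNormallyGenerated := Pool.Agent.W386.ker_ifng π hπ hPfg hG1
  have main := Pool.Agent.W386.main_fp j π b π₁ hπ hb hπ₁ hj hjb hjc hPfg hK n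
    (Pool.Agent.W386.fps_of_data (by omega) hN2) (Pool.Agent.W386.fps_of_data (by omega) hG2)
    (Pool.Agent.W386.fps_of_data (by omega) hQ2) (Pool.Agent.W386.fps_of_data (by omega) hL2)
  rw [hIsF]
  exact ⟨Pool.Agent.W386.fp_iff.1 hPfp, Pool.Agent.W386.data_of_fps main⟩

end Pool.Agent.S01591
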