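import Pool.Statements.S02012
import Pool.Statements.S02012
import Pool.Agent.Q89.BinTree

set_option autoImplicit false
open Pool Pool.MP_79f901_al

namespace Pool.Agent.S02012

open Pool.Agent.Q89.BinTree

/-!
`L` is the group of finitary automorphisms of the binary tree whose action on level 2 is by
`(x, y) ↦ (x + c, y + d)`.  Exchanging the two first letters of all words of length at least two
induces an automorphism of `L` that is not induced by a tree automorphism.
(The computations are done in the tree `List Bool` in which the parent of `b :: v` is `v`, so that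
the first letters of a word are its last entries.)
-/

/-- exchange the last two entries of a list of length at least two -/
def t : List Bool → List Bool
  | [] => []
  | [x] => [x]
  | [y, x] => [x, y]
  | b :: c :: d :: v => b :: t (c :: d :: v)

lemma t_cons (b : Bool) (w : List Bool) (h : 2 ≤ w.length) : t (b :: w) = b :: t w := by
  match w, h with
  | c :: d :: v, _ => rfl

lemma t_length (w : List Bool) : (t w).length = w.length := by
  induction w with
  | nil => rfl
  | cons b w ih =>
    match w, ih with
    | [], _ => rfl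
    | [x], _ => rfl
    | c :: d :: v, ih => rw [t_cons _ _ (by simp)]; simp only [List.length_cons] at ih ⊢; omega

lemma t_t (w : List Bool) : t (t w) = w := by
  induction w with
  | nil => rfl
  | cons b w ih =>
    match w, ih with
    | [], _ => rfl
    | [x], _ => rfl
    | c :: d :: v, ih =>
      rw [t_cons _ _ (by simp), t_cons _ _ (by rw [t_length]; simp), ih]

/-- the group -/
def L0 : Subgroup (Equiv.Perm (List Bool)) where
  carrier := {g | g ∈ Gs ∧ lab g [true] = lab g [false]}
  one_mem' := ⟨Gs.one_mem, by simp [lab]⟩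
  mul_mem' := by
    rintro g h ⟨hg, eg⟩ ⟨hh, eh⟩
    refine ⟨Gs.mul_mem hg hh, ?_⟩
    rw [lab_mul hg.1 hh.1, lab_mul hg.1 hh.1, eh]
    have h1 : ∀ x : Bool, h [x] = [xor x (lab h [])] := by
      intro x
      rw [hh.1.2, hh.1.1]
    rw [h1, h1]
    cases lab h [] <;> simp [eg]
  inv_mem' := by
    rintro g ⟨hg, eg⟩
    refine ⟨Gs.inv_mem hg, ?_⟩
    rw [lab_inv hg.1, lab_inv hg.1, inv_cons hg.1, inv_cons hg.1]
    have h1 : g⁻¹ [] = [] := (isAut_inv hg.1).1
    rw [h1]
    cases lab g [] <;> simp [eg]

lemma mem_L0 {g : Equiv.Perm (List Bool)} :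
    g ∈ L0 ↔ g ∈ Gs ∧ lab g [true] = lab g [false] := Iff.rfl

/-- the new portrait -/
def pp (g : Equiv.Perm (List Bool)) : List Bool → Bool
  | [] => lab g [true]
  | [_] => lab g []
  | b :: c :: v => lab g (t (b :: c :: v))

lemma pp_of_two {g : Equiv.Perm (List Bool)} {w : List Bool} (h : 2 ≤ w.length) :
    pp g w = lab g (t w) := by
  match w, h with
  | b :: c :: v, _ => rfl

lemma pp_one {g : Equiv.Perm (List Bool)} {w : List Bool} (h : w.length = 1) :
    pp g w = lab g [] := by
  match w, h with
  | [b], _ => rfl

lemma lab_single {g : Equiv.Perm (List Bool)} (hg : g ∈ L0) (x : Bool) :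
    lab g [x] = lab g [true] := by
  cases x
  · exact hg.2.symm
  · rfl

lemma act_pp {g : Equiv.Perm (List Bool)} (hg : g ∈ L0) (w : List Bool) (h : 2 ≤ w.length) :
    actE (pp g) w = t (g (t w)) := by
  show act (pp g) w = t (g (t w))
  induction w with
  | nil => simp at h
  | cons b w ih =>
    match w, ih, h with
    | [x], _, _ =>
      have h1 : g (t [b, x]) = [xor x (lab g [b]), xor b (lab g [])] := by
        show g [x, b] = _
        rw [hg.1.1.2, hg.1.1.2, hg.1.1.1]
      rw [h1, lab_single hg]
      rfl
    | c :: d :: v, ih, _ =>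
      have h2 : 2 ≤ (c :: d :: v).length := by simp
      have h3 : 2 ≤ (t (c :: d :: v)).length := by rw [t_length]; exact h2
      have h4 : 2 ≤ (g (t (c :: d :: v))).length := by rw [hg.1.1.length]; exact h3
      rw [t_cons _ _ h2, hg.1.1.2, t_cons _ _ h4, ← ih h2]
      rfl

lemma act_pp_one {g : Equiv.Perm (List Bool)} (x : Bool) :
    actE (pp g) [x] = [xor x (lab g [true])] := rfl

lemma pp_mem {g : Equiv.Perm (List Bool)} (hg : g ∈ L0) : actE (pp g) ∈ L0 := by
  refine ⟨⟨isAut_actE _, ?_⟩, ?_⟩
  · have h1 : {v | lab g v = true}.Finite := hg.1.2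
    have h2 : Function.Injective t := Function.LeftInverse.injective t_t
    apply ((List.finite_length_le Bool 1).union (h1.preimage (f := t) h2.injOn)).subset
    intro v hv
    rw [Set.mem_ofPred_eq, lab_actE] at hv
    by_cases h3 : v.length ≤ 1
    · left; exact h3
    · right
      rw [pp_of_two (by omega)] at hv
      exact hv
  · rw [lab_actE, lab_actE]
    rfl

lemma eq_of_long {g h : Equiv.Perm (List Bool)} (hg : IsAut g) (hh : IsAut h)
    (H : ∀ w : List Bool, 2 ≤ w.length → g w = h w) : g = h := by
  apply Equiv.ext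
  intro w
  have h1 := hg.tail (true :: w)
  have h2 := hg.tail (true :: true :: w)
  have h3 := hh.tail (true :: w)
  have h4 := hh.tail (true :: true :: w)
  rw [H _ (by simp), h4] at h2
  simp only [List.tail_cons] at h1 h2 h3 h4
  rw [← h1, ← h2, h3]

/-- the automorphism -/
noncomputable def phi0 : L0 ≃* L0 where
  toFun g := ⟨actE (pp g.1), pp_mem g.2⟩
  invFun g := ⟨actE (pp g.1), pp_mem g.2⟩
  left_inv := by
    intro g
    apply Subtype.ext
    apply eq_of_long (isAut_actE _) g.2.1.1
    intro w hw
    show actE (pp (actE (pp g.1))) w = g.1 w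
    rw [act_pp (pp_mem g.2) _ hw, act_pp g.2 _ (by rw [t_length]; exact hw), t_t, t_t]
  right_inv := by
    intro g
    apply Subtype.ext
    apply eq_of_long (isAut_actE _) g.2.1.1
    intro w hw
    show actE (pp (actE (pp g.1))) w = g.1 w
    rw [act_pp (pp_mem g.2) _ hw, act_pp g.2 _ (by rw [t_length]; exact hw), t_t, t_t]
  map_mul' := by
    intro g h
    apply Subtype.ext
    apply eq_of_long (isAut_actE _) (isAut_mul (isAut_actE _) (isAut_actE _))
    intro w hw
    show actE (pp (g.1 * h.1)) w = actE (pp g.1) (actE (pp h.1) w)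
    have hl : 2 ≤ (t w).length := by rw [t_length]; exact hw
    have hl' : 2 ≤ (h.1 (t w)).length := by rw [h.2.1.1.length]; exact hl
    rw [act_pp (L0.mul_mem g.2 h.2) _ hw, act_pp h.2 _ hw,
      act_pp g.2 _ (by rw [t_length]; exact hl'), t_t]
    rfl

/-- the tree of the statement -/
abbrev V : Type := {l : List ℕ // ∀ i (h : i < l.length), l.get ⟨i, h⟩ < (fun _ : ℕ => 2) i}

/-- the identification of the two models -/
def e : List Bool ≃ V where
  toFun v := ⟨v.reverse.map Bool.toNat, by
    intro i h
    simp only [List.get_eq_getElem, List.getElem_map]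
    exact Bool.toNat_lt _⟩
  invFun l := (l.1.map (fun n => decide (n = 1))).reverse
  left_inv := by
    intro v
    simp only [List.map_map]
    have : ((fun n : ℕ => decide (n = 1)) ∘ Bool.toNat) = id := by
      funext b
      cases b <;> rfl
    rw [this, List.map_id, List.reverse_reverse]
  right_inv := by
    intro l
    apply Subtype.ext
    simp only [List.reverse_reverse, List.map_map]
    apply List.ext_getElem
    · simp
    · intro i h1 h2
      have h3 := l.2 i h2
      simp only [List.get_eq_getElem] at h3
      simp only [List.getElem_map, Function.comp]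
      have : l.1[i] = 0 ∨ l.1[i] = 1 := by omega
      rcases this with h | h <;> rw [h] <;> rfl

lemma e_length (v : List Bool) : (e v).1.length = v.length := by
  simp [e]

lemma e_symm_length (v : V) : (e.symm v).length = v.1.length := by
  simp [e]

lemma e_prefix (v w : List Bool) : List.IsPrefix (e v).1 (e w).1 ↔ v <:+ w := by
  constructor
  · intro h
    have h1 := h.map (fun n : ℕ => decide (n = 1))
    have h2 : ∀ u : List Bool, (e u).1.map (fun n : ℕ => decide (n = 1)) = u.reverse := by
      intro u
      show (u.reverse.map Bool.toNat).map _ = _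
      rw [List.map_map]
      have : ((fun n : ℕ => decide (n = 1)) ∘ Bool.toNat) = id := by
        funext b
        cases b <;> rfl
      rw [this, List.map_id]
    rw [h2, h2] at h1
    exact List.reverse_prefix.1 h1
  · intro h
    exact (List.reverse_prefix.2 h).map Bool.toNat

lemma suffix_of_aut {g : Equiv.Perm (List Bool)} (hg : IsAut g) (v w : List Bool)
    (h : v <:+ w) : g v <:+ g w := by
  induction w with
  | nil =>
    rw [List.suffix_nil] at h
    rw [h]
  | cons b w ih =>
    rw [List.suffix_cons_iff] at h
    rcases h with h | h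
    · rw [h]
    · rw [hg.2]
      exact (ih h).trans (List.suffix_cons _ _)

lemma suffix_iff {g : Equiv.Perm (List Bool)} (hg : IsAut g) (v w : List Bool) :
    v <:+ w ↔ g v <:+ g w := by
  refine ⟨suffix_of_aut hg v w, fun h => ?_⟩
  have := suffix_of_aut (isAut_inv hg) _ _ h
  simpa using this

/-- the flip of the second letter -/
noncomputable def beta : Gs :=
  ⟨actE (fun v => decide (v.length = 1)), isAut_actE _, by
    simp only [lab_actE, decide_eq_true_eq]
    exact List.finite_length_eq Bool 1⟩

lemma beta_mem : beta.1 ∈ L0 := by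
  refine ⟨beta.2, ?_⟩
  show lab (actE _) _ = lab (actE _) _
  rw [lab_actE, lab_actE]
  rfl

lemma sw_mem {u : List Bool} (hu : u.length ≠ 1) : (sw u).1 ∈ L0 := by
  refine ⟨(sw u).2, ?_⟩
  rw [lab_sw, lab_sw]
  have h1 : [true] ≠ u := by rintro rfl; simp at hu
  have h2 : [false] ≠ u := by rintro rfl; simp at hu
  simp [h1, h2]

lemma trans_L0 (n : ℕ) : ∀ v w : List Bool, v.length = n → w.length = n →
    ∃ g ∈ L0, g v = w := by
  induction n with
  | zero =>
    intro v w hv hw
    rw [List.length_eq_zero_iff] at hv hw
    subst hv hw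
    exact ⟨1, L0.one_mem, rfl⟩
  | succ n ih =>
    intro v w hv hw
    cases v with
    | nil => simp at hv
    | cons b v =>
      cases w with
      | nil => simp at hw
      | cons c w =>
        simp only [List.length_cons, Nat.add_right_cancel_iff] at hv hw
        obtain ⟨g, hL, hg⟩ := ih v w hv hw
        by_cases h : g (b :: v) = c :: w
        · exact ⟨g, hL, h⟩
        · rw [hL.1.1.2, hg] at h
          by_cases h1 : v.length = 1
          · refine ⟨g * beta.1, L0.mul_mem hL beta_mem, ?_⟩
            have h2 : beta.1 (b :: v) = (!b) :: v := by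
              match v, h1 with
              | [x], _ => cases b <;> cases x <;> rfl
            show g (beta.1 (b :: v)) = c :: w
            rw [h2, hL.1.1.2, hg]
            simp only [List.cons.injEq, and_true] at h ⊢
            revert h
            cases b <;> cases c <;> cases lab g v <;> simp
          · refine ⟨g * (sw v).1, L0.mul_mem hL (sw_mem h1), ?_⟩
            show g ((sw v).1 (b :: v)) = c :: w
            rw [sw_self, hL.1.1.2, hg]
            simp only [List.cons.injEq, and_true] at h ⊢
            revert h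
            cases b <;> cases c <;> cases lab g v <;> simp

/-- transport of permutations -/
def E : Equiv.Perm (List Bool) ≃* Equiv.Perm V := e.permCongrHom

lemma E_apply (g : Equiv.Perm (List Bool)) (v : V) : E g v = e (g (e.symm v)) := rfl

/-- the counterexample -/
def LL : Subgroup (Equiv.Perm V) := L0.map E.toMonoidHom

lemma E_inj : Function.Injective E.toMonoidHom := E.injective

/-- `L0 ≃* LL` -/
noncomputable def iso : L0 ≃* LL := L0.equivMapOfInjective E.toMonoidHom E_inj

lemma iso_apply (g : L0) : ((iso g : LL) : Equiv.Perm V) = E g.1 := rfl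

lemma tail_iter_suffix (k : ℕ) (w : List Bool) : List.tail^[k] w <:+ w := by
  induction k with
  | zero => exact List.suffix_rfl
  | succ k ih =>
    rw [Function.iterate_succ_apply']
    exact (List.tail_suffix _).trans ih

lemma index_ne (n : ℕ) : ((Subgroup.closure
        {g : Equiv.Perm V |
          g ∈ LL ∧ ∃ u : V, u.1.length = n ∧ ∀ v : V,
              ¬ List.IsPrefix u.1 v.1 → g v = v}).subgroupOf LL).index ≠ 0 := by
  set C := Subgroup.closure
        {g : Equiv.Perm V |
          g ∈ LL ∧ ∃ u : V, u.1.length = n ∧ ∀ v : V,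
              ¬ List.IsPrefix u.1 v.1 → g v = v} with hC
  set N := max n 2 with hN
  set K : Subgroup (Equiv.Perm (List Bool)) := (St N).map Gs.subtype with hK
  have h1 : St N ≤ C.comap (E.toMonoidHom.comp Gs.subtype) := by
    apply St_le
    intro u hu
    rw [Subgroup.mem_comap]
    apply Subgroup.subset_closure
    refine ⟨⟨(sw u).1, sw_mem (by omega), rfl⟩, e (List.tail^[u.length - n] u), ?_, ?_⟩
    · rw [e_length, tail_iter]; omega
    · intro v hv
      by_contra h
      apply hv
      have h2 : (sw u).1 (e.symm v) ≠ e.symm v := by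
        intro h3
        apply h
        show e ((sw u).1 (e.symm v)) = v
        rw [h3, Equiv.apply_symm_apply]
      obtain ⟨k, hk⟩ := sw_moves u _ h2
      have h4 : v = e (e.symm v) := (Equiv.apply_symm_apply _ _).symm
      rw [h4, e_prefix, ← hk, ← Function.iterate_add_apply]
      exact tail_iter_suffix _ _
  have h2 : K.map E.toMonoidHom ≤ C := by
    rw [hK, Subgroup.map_map, Subgroup.map_le_iff_le_comap]
    exact h1
  have h3 : K.relIndex Gs ≠ 0 := by
    have h4 : K.relIndex Gs = (St N).index := by
      rw [Subgroup.relIndex, Subgroup.subgroupOf, hK,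
        Subgroup.comap_map_eq_self_of_injective Gs.subtype_injective]
    rw [h4]
    exact Subgroup.FiniteIndex.index_ne_zero
  have h5 : L0 ≤ Gs := fun g hg => hg.1
  have h6 : K.relIndex L0 ≠ 0 := fun h => h3 (Subgroup.relIndex_eq_zero_of_le_right h5 h)
  have h7 : (K.map E.toMonoidHom).relIndex LL ≠ 0 := by
    rw [LL, Subgroup.relIndex_map_map_of_injective _ _ E_inj]
    exact h6
  intro h8
  exact h7 (Subgroup.relIndex_eq_zero_of_le_left h2 h8)

lemma pp_sw {u : List Bool} (hu : 2 ≤ u.length) : pp (sw u).1 = fun w => decide (w = t u) := by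
  funext w
  by_cases hw : 2 ≤ w.length
  · rw [pp_of_two hw, lab_sw]
    congr 1
    apply propext
    constructor
    · intro h
      rw [← h, t_t]
    · intro h
      rw [h, t_t]
  · have h1 : w ≠ t u := by
      intro h
      rw [h, t_length] at hw
      exact hw hu
    rw [decide_eq_false h1]
    match w, hw with
    | [], _ =>
      show lab (sw u).1 [true] = false
      rw [lab_sw]
      apply decide_eq_false
      rintro rfl
      simp at hu
    | [x], _ =>
      show lab (sw u).1 [] = false
      rw [lab_sw]
      apply decide_eq_false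
      rintro rfl
      simp at hu
    | b :: c :: v, hw => exact absurd (by simp) hw

lemma moved {σ : Equiv.Perm V} {u p : List Bool} (hu : 2 ≤ u.length)
    (h : E (phi0 ⟨(sw u).1, sw_mem (by omega)⟩ : L0).1 = σ * E (sw u).1 * σ⁻¹)
    (hp : (sw u).1 p ≠ p) : List.IsPrefix (e (t u)).1 (σ (e p)).1 := by
  have h1 : (phi0 ⟨(sw u).1, sw_mem (by omega)⟩ : L0).1 = (sw (t u)).1 := by
    show actE (pp (sw u).1) = _
    rw [pp_sw hu]
    rfl
  rw [h1] at h
  have h2 : (sw (t u)).1 (e.symm (σ (e p))) ≠ e.symm (σ (e p)) := by
    intro h3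
    apply hp
    have h4 : E (sw (t u)).1 (σ (e p)) = σ (e p) := by
      rw [E_apply, h3, Equiv.apply_symm_apply]
    rw [h] at h4
    have h6 : σ⁻¹ (σ (e p)) = e p := by simp
    rw [Equiv.Perm.mul_apply, Equiv.Perm.mul_apply, h6, EmbeddingLike.apply_eq_iff_eq,
      E_apply, Equiv.symm_apply_apply] at h4
    exact e.injective h4
  obtain ⟨k, hk⟩ := sw_moves _ _ h2
  have h5 : σ (e p) = e (e.symm (σ (e p))) := (Equiv.apply_symm_apply _ _).symm
  rw [h5, e_prefix, ← hk]
  exact tail_iter_suffix _ _

/-- The negation of the preceding statement: For every branch group L acting on a spherically homogeneous rooted tree, every automorphism of L is conjugation by a unique tree automorphism, so Aut L equals the normalizer of L in Aut T. -/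
theorem result :
    ¬ (∀ (m : ℕ → ℕ), (∀ n, 2 ≤ m n) →
    ∀ L : Subgroup (Equiv.Perm {l : List ℕ // ∀ i (h : i < l.length), l.get ⟨i, h⟩ < m i}),
    (∀ g ∈ L, ∀ v w : {l : List ℕ // ∀ i (h : i < l.length), l.get ⟨i, h⟩ < m i},
        (List.IsPrefix v.1 w.1 ↔ List.IsPrefix (g v).1 (g w).1)) →
    (∀ v w : {l : List ℕ // ∀ i (h : i < l.length), l.get ⟨i, h⟩ < m i},
        v.1.length = w.1.length → ∃ g ∈ L, g v = w) →
    (∀ n : ℕ, ((Subgroup.closure
        {g : Equiv.Perm {l : List ℕ // ∀ i (h : i < l.length), l.get ⟨i, h⟩ < m i} |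
          g ∈ L ∧ ∃ u : {l : List ℕ // ∀ i (h : i < l.length), l.get ⟨i, h⟩ < m i},
            u.1.length = n ∧
            ∀ v : {l : List ℕ // ∀ i (h : i < l.length), l.get ⟨i, h⟩ < m i},
              ¬ List.IsPrefix u.1 v.1 → g v = v}).subgroupOf L).index ≠ 0) →
    ∀ φ : L ≃* L,
      ∃! σ : Equiv.Perm {l : List ℕ // ∀ i (h : i < l.length), l.get ⟨i, h⟩ < m i},
        (∀ v w : {l : List ℕ // ∀ i (h : i < l.length), l.get ⟨i, h⟩ < m i},
          (List.IsPrefix v.1 w.1 ↔ List.IsPrefix (σ v).1 (σ w).1)) ∧
        ∀ g : L, ((φ g : L) : Equiv.Perm {l : List ℕ // ∀ i (h : i < l.length), l.get ⟨i, h⟩ < m i})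
          = σ * (g : Equiv.Perm {l : List ℕ // ∀ i (h : i < l.length), l.get ⟨i, h⟩ < m i}) * σ⁻¹) := by
  intro H
  obtain ⟨σ, ⟨h1, h2⟩, -⟩ := H (fun _ => 2) (fun _ => le_rfl) LL (by
      rintro g ⟨g0, hg0, rfl⟩ v w
      show List.IsPrefix v.1 w.1 ↔ List.IsPrefix (e (g0 (e.symm v))).1 (e (g0 (e.symm w))).1
      rw [e_prefix, ← suffix_iff hg0.1.1, ← e_prefix, Equiv.apply_symm_apply,
        Equiv.apply_symm_apply])
    (by
      intro v w h
      obtain ⟨g, hg, hgv⟩ := trans_L0 v.1.length (e.symm v) (e.symm w) (e_symm_length v)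
        (by rw [e_symm_length, h])
      refine ⟨E g, ⟨g, hg, rfl⟩, ?_⟩
      rw [E_apply, hgv, Equiv.apply_symm_apply])
    index_ne (iso.symm.trans (phi0.trans iso))
  have key : ∀ g : L0, E (phi0 g).1 = σ * E g.1 * σ⁻¹ := by
    intro g
    have h3 := h2 (iso g)
    rw [MulEquiv.trans_apply, MulEquiv.trans_apply, MulEquiv.symm_apply_apply] at h3
    rw [iso_apply] at h3
    exact h3
  have m0 : List.IsPrefix (e [false, false]).1 (σ (e [false, false, false])).1 := by
    have := moved (σ := σ) (u := [false, false]) (p := [false, false, false]) (by simp)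
      (key _) (by rw [sw_self]; simp)
    exact this
  have m1 : List.IsPrefix (e [false, true]).1 (σ (e [false, true, false])).1 := by
    have := moved (σ := σ) (u := [true, false]) (p := [false, true, false]) (by simp)
      (key _) (by rw [sw_self]; simp)
    exact this
  have s0 : List.IsPrefix (σ (e [false])).1 (σ (e [false, false, false])).1 := by
    rw [← h1, e_prefix]
    exact ⟨[false, false], rfl⟩
  have s1 : List.IsPrefix (σ (e [false])).1 (σ (e [false, true, false])).1 := by
    rw [← h1, e_prefix]
    exact ⟨[false, true], rfl⟩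
  have hnil : (σ (e [false])).1 = [] := by
    obtain ⟨a, ha⟩ := m0
    obtain ⟨b, hb⟩ := m1
    rw [← ha] at s0
    rw [← hb] at s1
    have e0 : (e [false, false]).1 = [0, 0] := rfl
    have e1 : (e [false, true]).1 = [1, 0] := rfl
    rw [e0] at s0
    rw [e1] at s1
    cases hx : (σ (e [false])).1 with
    | nil => rfl
    | cons c l =>
      rw [hx] at s0 s1
      rw [List.cons_append, List.cons_prefix_cons] at s0 s1
      exact absurd (s0.1.symm.trans s1.1) (by norm_num)
  have hfin : List.IsPrefix (e [false]).1 (e [true]).1 := by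
    rw [h1, hnil]
    exact List.nil_prefix
  rw [e_prefix] at hfin
  have := hfin.eq_of_length rfl
  simp at this

end Pool.Agent.S02012
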