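import Pool.Statements.S02070
import Pool.Agent.Q110.GLA4
import Pool.Agent.Q110.GLC

set_option autoImplicit false
open Pool Pool.MP_7ed69f_al

namespace Pool.Agent.S02070

section aux

open Pool.Agent.Q110 IsLocalRing

theorem card_res (p : ℕ) [Fact p.Prime] : Nat.card (ResidueField ℤ_[p]) = p := by
  rw [Nat.card_congr (PadicInt.residueField (p := p)).toEquiv, Nat.card_zmod]

theorem finite_res (p : ℕ) [hp : Fact p.Prime] : Finite (ResidueField ℤ_[p]) := by
  apply Nat.finite_of_card_ne_zero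
  rw [card_res]
  exact hp.out.ne_zero

theorem two_mem : (2 : ℤ_[2]) ∈ maximalIdeal ℤ_[2] := by
  rw [PadicInt.maximalIdeal_eq_span_p]
  exact Ideal.mem_span_singleton_self _

theorem exists_two : Nonempty (GLC.Two (ℤ_[2] ⧸ maximalIdeal ℤ_[2] ^ 2)) := by
  set e : ResidueField ℤ_[2] ≃+* ZMod 2 := PadicInt.residueField with he
  have hπ : ∀ x, (e.toRingHom.comp (GLA.red ℤ_[2])) x = 0 ↔ GLA.red ℤ_[2] x = 0 := by
    intro x
    rw [RingHom.comp_apply]
    exact map_eq_zero_iff e e.injective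
  refine ⟨{
    π := e.toRingHom.comp (GLA.red ℤ_[2])
    x0 := Ideal.Quotient.mk _ 2
    hx := ?_
    h0 := ?_
    sq := ?_
    ne := ?_
    unit := ?_ }⟩
  · intro x hx
    rw [hπ] at hx
    obtain ⟨a, rfl⟩ := Ideal.Quotient.mk_surjective x
    rw [GLA.red_mk_eq_zero, PadicInt.maximalIdeal_eq_span_p, Ideal.mem_span_singleton] at hx
    obtain ⟨b, hb⟩ := hx
    have hb' : a = 2 * b := by
      rw [hb]
      norm_num
    by_cases h : b ∈ maximalIdeal ℤ_[2]
    · left
      rw [Ideal.Quotient.eq_zero_iff_mem, hb', pow_two]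
      exact Ideal.mul_mem_mul two_mem h
    · right
      rw [Ideal.Quotient.eq, hb', pow_two]
      have h1 : (2 : ℤ_[2]) * b - 2 = 2 * (b - 1) := by ring
      rw [h1]
      refine Ideal.mul_mem_mul two_mem ?_
      rw [← residue_eq_zero_iff, map_sub, map_one, sub_eq_zero]
      apply e.injective
      rw [map_one]
      have h2 : e (residue ℤ_[2] b) ≠ 0 := by
        rw [Ne, map_eq_zero_iff e e.injective, residue_eq_zero_iff]
        exact h
      generalize e (residue ℤ_[2] b) = t at h2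
      revert t
      decide
  · rw [hπ, GLA.red_mk_eq_zero]
    exact two_mem
  · rw [← map_mul, Ideal.Quotient.eq_zero_iff_mem, pow_two]
    exact Ideal.mul_mem_mul two_mem two_mem
  · intro h
    rw [Ideal.Quotient.eq_zero_iff_mem, PadicInt.maximalIdeal_eq_span_p, Ideal.span_singleton_pow,
      Ideal.mem_span_singleton] at h
    obtain ⟨c, hc⟩ := h
    have h2 : (2 : ℤ_[2]) ≠ 0 := two_ne_zero
    have h1 : (1 : ℤ_[2]) = 2 * c := by
      apply mul_left_cancel₀ h2
      rw [mul_one]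
      refine hc.trans ?_
      push_cast
      ring
    have h3 : (1 : ℤ_[2]) ∈ maximalIdeal ℤ_[2] := by
      rw [h1]
      exact Ideal.mul_mem_right _ _ two_mem
    exact (Ideal.ne_top_iff_one _).1 (maximalIdeal.isMaximal ℤ_[2]).ne_top h3
  · intro x hx
    apply GLA.isUnit_of_red
    intro h
    exact hx ((hπ x).2 h)

/-- The polynomial. -/
noncomputable def F : Polynomial ℤ :=
  Polynomial.X ^ 3 * (Polynomial.X + 1) * (Polynomial.X ^ 2 + Polynomial.X + 1)

theorem F_eval (x : ℤ) : F.eval x = x ^ 3 * (x + 1) * (x ^ 2 + x + 1) := by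
  simp [F]

theorem dim_eq (p n : ℕ) (hp : 2 ≤ p)
    (h : n * (p - 1) ^ 3 = (p ^ 3 - 1) * (p ^ 3 - p) * (p ^ 3 - p ^ 2)) :
    (n : ℤ) = F.eval (p : ℤ) := by
  rw [F_eval]
  have h1 : 1 ≤ p := by omega
  have h3 : 1 ≤ p ^ 3 := Nat.one_le_pow _ _ h1
  have h4 : p ≤ p ^ 3 := Nat.le_self_pow (by norm_num) p
  have h5 : p ^ 2 ≤ p ^ 3 := Nat.pow_le_pow_right h1 (by norm_num)
  have h6 := congrArg (Nat.cast : ℕ → ℤ) h
  push_cast [Nat.cast_sub h1, Nat.cast_sub h3, Nat.cast_sub h4, Nat.cast_sub h5] at h6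
  have h7 : ((p : ℤ) - 1) ^ 3 ≠ 0 := by
    apply pow_ne_zero
    have : (2 : ℤ) ≤ p := by exact_mod_cast hp
    omega
  apply mul_right_cancel₀ h7
  rw [h6]
  ring

theorem infinite_primes : {x : ℤ | ∃ p : ℕ, p.Prime ∧ 3 ≤ p ∧ x = p}.Infinite := by
  have h1 : {p : ℕ | p.Prime ∧ 3 ≤ p}.Infinite := by
    rw [Set.infinite_iff_exists_gt]
    intro a
    obtain ⟨p, hp, hp'⟩ := Nat.exists_infinite_primes (a + 3)
    exact ⟨p, ⟨hp', by omega⟩, by omega⟩
  have h2 := h1.image (f := (Nat.cast : ℕ → ℤ)) Nat.cast_injective.injOn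
  refine h2.mono ?_
  rintro x ⟨p, ⟨hp, hp'⟩, rfl⟩
  exact ⟨p, hp, hp', rfl⟩

end aux

/-- The negation of the preceding statement: For all N,r ≥ 2 there is a finite set of integer polynomials of degree ≤ C(N,2)·r whose values at q are exactly the dimensions of irreducible complex reps of GL_N(o/p^r) nontrivial on the level-(r−1) kernel, for every compact DVR o. -/
theorem result :
    ¬ (∀ N r : ℕ, 2 ≤ N → 2 ≤ r →
    ∃ P : Finset (Polynomial ℤ), (∀ d ∈ P, d.natDegree ≤ N.choose 2 * r) ∧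
    ∀ (R : Type) [CommRing R] [IsDomain R] [IsDiscreteValuationRing R]
      [Finite (IsLocalRing.ResidueField R)]
      [IsAdicComplete (IsLocalRing.maximalIdeal R) R],
    {z : ℤ | ∃ (V : Type) (_ : AddCommGroup V) (_ : Module ℂ V)
        (ρ : Representation ℂ
          (Matrix.GeneralLinearGroup (Fin N) (R ⧸ IsLocalRing.maximalIdeal R ^ r)) V),
        FiniteDimensional ℂ V ∧ Nontrivial V ∧
        (∀ W : Submodule ℂ V, (∀ g v, v ∈ W → ρ g v ∈ W) → W = ⊥ ∨ W = ⊤) ∧
        (∃ g : Matrix.GeneralLinearGroup (Fin N) (R ⧸ IsLocalRing.maximalIdeal R ^ r),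
          (∀ i j, ∃ a ∈ IsLocalRing.maximalIdeal R ^ (r - 1),
            g.val i j
              - (1 : Matrix (Fin N) (Fin N) (R ⧸ IsLocalRing.maximalIdeal R ^ r)) i j
              = Ideal.Quotient.mk (IsLocalRing.maximalIdeal R ^ r) a) ∧ ρ g ≠ 1) ∧
        (Module.finrank ℂ V : ℤ) = z}
    = (fun d : Polynomial ℤ => d.eval (Nat.card (IsLocalRing.ResidueField R) : ℤ)) ''
        (P : Set (Polynomial ℤ))) := by
  intro hall
  obtain ⟨P, -, hP⟩ := hall 3 2 (by norm_num) (le_refl 2)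
  have hmem : F ∈ P := by
    by_contra hF
    have hfin : ∀ d ∈ P, {x : ℤ | d.eval x = F.eval x}.Finite := by
      intro d hd
      by_contra hinf
      apply hF
      have := Polynomial.eq_of_infinite_eval_eq d F hinf
      rwa [← this]
    have hU : (⋃ d ∈ (P : Set (Polynomial ℤ)), {x : ℤ | d.eval x = F.eval x}).Finite :=
      P.finite_toSet.biUnion hfin
    apply infinite_primes
    refine hU.subset ?_
    rintro x ⟨p, hp, hp3, rfl⟩
    have : Fact p.Prime := ⟨hp⟩
    have hfin := finite_res p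
    obtain ⟨V, i1, i2, ρ, h1, h2, h3, h4, h5⟩ := Pool.Agent.Q110.GLA.exists_rep ℤ_[p] (by
      rw [card_res]
      exact hp3)
    rw [card_res] at h5
    have hx := dim_eq p _ (by omega) h5
    have hin : F.eval (p : ℤ) ∈ (fun d : Polynomial ℤ =>
        d.eval (Nat.card (IsLocalRing.ResidueField ℤ_[p]) : ℤ)) '' (P : Set (Polynomial ℤ)) := by
      rw [← hP ℤ_[p]]
      exact ⟨V, i1, i2, ρ, h1, h2, h3, h4, hx⟩
    obtain ⟨d, hd, hd'⟩ := hin
    rw [Set.mem_iUnion₂]
    refine ⟨d, hd, ?_⟩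
    dsimp only at hd'
    rw [card_res] at hd'
    exact hd'
  have : Fact (Nat.Prime 2) := ⟨Nat.prime_two⟩
  have hfin := finite_res 2
  have hin : (168 : ℤ) ∈ (fun d : Polynomial ℤ =>
      d.eval (Nat.card (IsLocalRing.ResidueField ℤ_[2]) : ℤ)) '' (P : Set (Polynomial ℤ)) := by
    refine ⟨F, hmem, ?_⟩
    dsimp only
    rw [card_res, F_eval]
    norm_num
  rw [← hP ℤ_[2]] at hin
  obtain ⟨V, i1, i2, ρ, h1, h2, h3, h4, h5⟩ := hin
  obtain ⟨T⟩ := exists_two
  have hfq := Pool.Agent.Q110.GLA.finite_quot ℤ_[2]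
  have h6 := T.finrank_le_84 ρ h3
  have h7 : Module.finrank ℂ V = 168 := by exact_mod_cast h5
  omega

end Pool.Agent.S02070
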