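import Pool.Statements.S02286
import Pool.Agent.Q91.ZariskiS3

set_option autoImplicit false
open Pool Pool.MP_91b10e_al

namespace Pool.Agent.S02286

open Pool.Agent.Q91.ZariskiS3 in
theorem zariski_eq :
    TopologicalSpace.generateFrom
          {U : Set P | ∃ w : Monoid.Coprod P (Multiplicative ℤ),
            U = {x : P | Monoid.Coprod.lift (MonoidHom.id P) (zpowersHom P x) w ≠ 1}} =
      (Pi.topologicalSpace : TopologicalSpace P) := by
  have := generate_eq
    {f : P → P | ∃ w : Monoid.Coprod P (Multiplicative ℤ),
      f = fun x => Monoid.Coprod.lift (MonoidHom.id P) (zpowersHom P x) w} ?_ ?_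
  · rw [← this]
    congr 1
    ext U
    constructor
    · rintro ⟨w, rfl⟩
      exact ⟨_, ⟨w, rfl⟩, rfl⟩
    · rintro ⟨f, ⟨w, rfl⟩, rfl⟩
      exact ⟨w, rfl⟩
  · rintro f ⟨w, rfl⟩
    induction w using Monoid.Coprod.induction_on with
    | inl g => simpa using continuous_const
    | inr n => simpa using continuous_zpow (Multiplicative.toAdd n)
    | mul a b ha hb =>
      simp only [map_mul]
      exact ha.mul hb
  · intro g c
    refine ⟨Monoid.Coprod.inl g * Monoid.Coprod.inr (Multiplicative.ofAdd 1) * Monoid.Coprod.inl c *
      (Monoid.Coprod.inl g * Monoid.Coprod.inr (Multiplicative.ofAdd 1))⁻¹ *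
      (Monoid.Coprod.inl c)⁻¹, ?_⟩
    funext x
    simp

open Pool.Agent.Q91.ZariskiS3 in
/-- The negation of the preceding statement: For every group G, if the Zariski topology (closed subbasis: solution sets of one-variable equations with constants from G) is compact, then it is Noetherian. -/
theorem result :
    ¬ (∀ (G : Type) [Group G],
      @IsCompact G
        (TopologicalSpace.generateFrom
          {U : Set G | ∃ w : Monoid.Coprod G (Multiplicative ℤ),
            U = {x : G | Monoid.Coprod.lift (MonoidHom.id G) (zpowersHom G x) w ≠ 1}})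
        Set.univ →
      @TopologicalSpace.NoetherianSpace G
        (TopologicalSpace.generateFrom
          {U : Set G | ∃ w : Monoid.Coprod G (Multiplicative ℤ),
            U = {x : G | Monoid.Coprod.lift (MonoidHom.id G) (zpowersHom G x) w ≠ 1}})) := by
  intro h
  have h1 := h P
  rw [zariski_eq] at h1
  haveI := h1 isCompact_univ
  have hfin : Finite P := TopologicalSpace.NoetherianSpace.finite
  exact not_finite P

end Pool.Agent.S02286
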