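import Pool.Statements.S02425
import Pool.Agent.Q104.QP.Main

set_option autoImplicit false
open Pointwise
open Pool Pool.MP_98b561_al

namespace Pool.Agent.S02425

/-- There is a group G with a generating set X whose Cayley graph is hyperbolic with a quasi-parabolic G-action, such that every other such generating set Y is equivalent to X (each has bounded word length with respect to the other). -/
theorem result :
  ∃ (G : Type) (_ : Group G),
    ∀ (len : Set G → G → ℕ),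
      (∀ (S : Set G) (g : G), len S g = sInf {n : ℕ | g ∈ (S ∪ S⁻¹) ^ n}) →
    ∀ (gp : Set G → G → G → ℝ),
      (∀ (S : Set G) (a b : G),
        gp S a b = ((len S a : ℝ) + (len S b : ℝ) - (len S (a⁻¹ * b) : ℝ)) / 2) →
    ∀ (lox : Set G → G → Prop),
      (∀ (S : Set G) (g : G),
        lox S g ↔ ∃ c : ℝ, 0 < c ∧ ∀ n : ℕ, c * (n : ℝ) ≤ (len S (g ^ n) : ℝ)) →
    ∀ (sameEnd : Set G → G → G → Prop),
      (∀ (S : Set G) (a b : G),
        sameEnd S a b ↔ ∀ K : ℝ, ∃ N : ℕ, ∀ n m : ℕ, N ≤ n → N ≤ m →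
          K ≤ gp S (a ^ n) (b ^ m)) →
    ∀ (QP : Set G → Prop),
      (∀ S : Set G, QP S ↔
        (Subgroup.closure S = ⊤ ∧
         (∃ δ : ℝ, ∀ x y z : G, min (gp S x y) (gp S y z) - δ ≤ gp S x z) ∧
         (∃ g h : G, lox S g ∧ lox S h ∧
            ¬ ((sameEnd S g h ∧ sameEnd S g⁻¹ h⁻¹) ∨
               (sameEnd S g h⁻¹ ∧ sameEnd S g⁻¹ h))) ∧
         (∀ g h : G, lox S g → lox S h →
            (sameEnd S g h ∨ sameEnd S g h⁻¹ ∨ sameEnd S g⁻¹ h ∨ sameEnd S g⁻¹ h⁻¹)))) →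
    ∃ X : Set G, QP X ∧
      ∀ Y : Set G, QP Y →
        (∃ C : ℕ, ∀ y ∈ Y, len X y ≤ C) ∧ (∃ C : ℕ, ∀ x ∈ X, len Y x ≤ C) := by
  refine ⟨Pool.Agent.Q104.QP.G, inferInstance, ?_⟩
  intro len hlen gp hgp lox hlox sameEnd hsame QP hQP
  have elen : len = Pool.Agent.Q104.QP.wl := by
    funext S g
    exact hlen S g
  subst elen
  have egp : ∀ S a b, gp S a b = Pool.Agent.Q104.QP.gpl (Pool.Agent.Q104.QP.wl S) a b := hgp
  have elox : ∀ S g, lox S g ↔ Pool.Agent.Q104.QP.loxl (Pool.Agent.Q104.QP.wl S) g := hlox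
  have esame : ∀ S a b, sameEnd S a b ↔
      Pool.Agent.Q104.QP.samel (Pool.Agent.Q104.QP.wl S) a b := by
    intro S a b
    rw [hsame]
    simp only [egp]
    rfl
  simp only [egp, elox, esame] at hQP
  clear hgp hlox hsame egp elox esame
  refine ⟨Pool.Agent.Q104.QP.G.Xs, ?_, ?_⟩
  · rw [hQP]
    refine ⟨Pool.Agent.Q104.QP.G.closure_Xs, ⟨2, Pool.Agent.Q104.QP.G.hyp⟩,
      ⟨Pool.Agent.Q104.QP.G.t, Pool.Agent.Q104.QP.G.u, ?_, ?_, ?_⟩, ?_⟩
    · apply Pool.Agent.Q104.QP.G.lox_of_sh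
      rw [Pool.Agent.Q104.QP.G.sh_t]; norm_num
    · apply Pool.Agent.Q104.QP.G.lox_of_sh
      rw [Pool.Agent.Q104.QP.G.sh_u]; norm_num
    · rintro (⟨-, h⟩ | ⟨h, -⟩)
      · exact Pool.Agent.Q104.QP.G.not_same1 h
      · exact Pool.Agent.Q104.QP.G.not_same2 h
    · intro g h hg hh
      have hg' := Pool.Agent.Q104.QP.G.sh_of_lox hg
      have hh' := Pool.Agent.Q104.QP.G.sh_of_lox hh
      have ig := Pool.Agent.Q104.QP.G.sh_inv g
      have ih := Pool.Agent.Q104.QP.G.sh_inv h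
      rcases lt_or_gt_of_ne hg' with h1 | h1 <;> rcases lt_or_gt_of_ne hh' with h2 | h2
      · right; right; right
        exact Pool.Agent.Q104.QP.G.same_of_pos (by omega) (by omega)
      · right; right; left
        exact Pool.Agent.Q104.QP.G.same_of_pos (by omega) (by omega)
      · right; left
        exact Pool.Agent.Q104.QP.G.same_of_pos (by omega) (by omega)
      · left
        exact Pool.Agent.Q104.QP.G.same_of_pos (by omega) (by omega)
  · intro Y hY
    rw [hQP] at hY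
    obtain ⟨hgen, ⟨δ, hδ⟩, ⟨g, h, hg, hh, hgh⟩, -⟩ := hY
    have hmul := Pool.Agent.Q104.QP.wl_mul hgen
    have hinv := Pool.Agent.Q104.QP.wl_inv hgen
    have h1 := Pool.Agent.Q104.QP.wl_one Y
    obtain ⟨C, hC⟩ := Pool.Agent.Q104.QP.G.bounded_stab (Pool.Agent.Q104.QP.wl Y) hmul hinv
    constructor
    · by_contra hcon
      push Not at hcon
      apply hgh
      have hYl : ∀ n : ℤ, ∃ y : Pool.Agent.Q104.QP.G, Pool.Agent.Q104.QP.wl Y y ≤ 1 ∧
          n ≤ Pool.Agent.Q104.QP.G.D y := by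
        intro n
        obtain ⟨y, hy, hy'⟩ := hcon (n.toNat + 1)
        refine ⟨y, Pool.Agent.Q104.QP.wl_mem hy, ?_⟩
        have h2 := (Pool.Agent.Q104.QP.G.wl_bounds y).2
        have h3 : ((Pool.Agent.Q104.QP.wl Pool.Agent.Q104.QP.G.Xs y : ℕ) : ℤ) ≤
          Pool.Agent.Q104.QP.G.D y + 1 := by exact_mod_cast h2
        omega
      have hK := Pool.Agent.Q104.QP.G.bounded_kernel hmul hinv hC hYl
      have key : ∀ a b : Pool.Agent.Q104.QP.G,
          Pool.Agent.Q104.QP.loxl (Pool.Agent.Q104.QP.wl Y) a →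
          (0 < Pool.Agent.Q104.QP.G.sh a ∧ 0 < Pool.Agent.Q104.QP.G.sh b) ∨
          (Pool.Agent.Q104.QP.G.sh a < 0 ∧ Pool.Agent.Q104.QP.G.sh b < 0) →
          Pool.Agent.Q104.QP.samel (Pool.Agent.Q104.QP.wl Y) a b := by
        intro a b ha hab
        exact Pool.Agent.Q104.QP.G.same_of_sh hmul hinv h1 hK hδ ha hab
      have hginv : Pool.Agent.Q104.QP.loxl (Pool.Agent.Q104.QP.wl Y) g⁻¹ := by
        obtain ⟨c, hc, hcg⟩ := hg
        refine ⟨c, hc, fun n => ?_⟩
        rw [inv_pow, hinv]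
        exact hcg n
      have hg' := Pool.Agent.Q104.QP.G.sh_ne_zero hmul hinv hK hg
      have hh' := Pool.Agent.Q104.QP.G.sh_ne_zero hmul hinv hK hh
      have ig := Pool.Agent.Q104.QP.G.sh_inv g
      have ih := Pool.Agent.Q104.QP.G.sh_inv h
      rcases lt_or_gt_of_ne hg' with h2 | h2 <;> rcases lt_or_gt_of_ne hh' with h3 | h3
      · left
        exact ⟨key _ _ hg (by omega), key _ _ hginv (by omega)⟩
      · right
        exact ⟨key _ _ hg (by omega), key _ _ hginv (by omega)⟩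
      · right
        exact ⟨key _ _ hg (by omega), key _ _ hginv (by omega)⟩
      · left
        exact ⟨key _ _ hg (by omega), key _ _ hginv (by omega)⟩
    · refine ⟨C + Pool.Agent.Q104.QP.wl Y Pool.Agent.Q104.QP.G.t, fun x hx => ?_⟩
      have hx' : Pool.Agent.Q104.QP.G.D x ≤ 1 := hx
      have hx0 := Pool.Agent.Q104.QP.G.D_nonneg x
      rcases hx0.eq_or_lt with h0 | h0
      · have := hC x (Pool.Agent.Q104.QP.G.D_eq_zero h0.symm)
        omega
      · rcases Pool.Agent.Q104.QP.G.shorten (g := x) (by omega) with h2 | h2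
        · have h3 := hC _ (Pool.Agent.Q104.QP.G.D_eq_zero (by omega :
            Pool.Agent.Q104.QP.G.D (Pool.Agent.Q104.QP.G.t⁻¹ * x) = 0))
          have h4 := hmul Pool.Agent.Q104.QP.G.t (Pool.Agent.Q104.QP.G.t⁻¹ * x)
          rw [mul_inv_cancel_left] at h4
          omega
        · have h3 := hC _ (Pool.Agent.Q104.QP.G.D_eq_zero (by omega :
            Pool.Agent.Q104.QP.G.D (x * Pool.Agent.Q104.QP.G.t) = 0))
          have h4 := hmul (x * Pool.Agent.Q104.QP.G.t) Pool.Agent.Q104.QP.G.t⁻¹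
          rw [mul_inv_cancel_right, hinv] at h4
          omega

end Pool.Agent.S02425
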