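import Pool.Statements.S02592
-- import your own Pool.Agent.* helpers here
import Pool.Agent.Q113.RFSol.Non

set_option autoImplicit false
open Pool Pool.MP_a5fc06_al

namespace Pool.Agent.S02592

/-- The negation of the preceding statement: For every set of group laws and every rank, if the relatively free group (free group modulo the verbal subgroup of those laws) is soluble, then every nontrivial element avoids some finite-index subgroup, i.e. the group is residually finite. -/
theorem result :
    ¬ (∀ (W : Set (FreeGroup ℕ)) (α : Type),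
      IsSolvable (FreeGroup α ⧸ Subgroup.normalClosure
        {x : FreeGroup α | ∃ w ∈ W, ∃ φ : FreeGroup ℕ →* FreeGroup α, φ w = x}) →
      ∀ g : FreeGroup α ⧸ Subgroup.normalClosure
          {x : FreeGroup α | ∃ w ∈ W, ∃ φ : FreeGroup ℕ →* FreeGroup α, φ w = x},
        g ≠ 1 →
          ∃ H : Subgroup (FreeGroup α ⧸ Subgroup.normalClosure
              {x : FreeGroup α | ∃ w ∈ W, ∃ φ : FreeGroup ℕ →* FreeGroup α, φ w = x}),
            H.index ≠ 0 ∧ g ∉ H) := by
  intro h
  obtain ⟨W, d, hsol, n, f, hf, hinj⟩ := Pool.Agent.Q113.RFSol.nonhopf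
  set R : Subgroup (FreeGroup (Fin n)) := Subgroup.normalClosure
    {x : FreeGroup (Fin n) | ∃ w ∈ W, ∃ φ : FreeGroup ℕ →* FreeGroup (Fin n), φ w = x} with hR
  have hlaw : ∀ w ∈ W, ∀ φ : FreeGroup ℕ →* (FreeGroup (Fin n) ⧸ R), φ w = 1 := by
    intro w hw φ
    have hsurj : ∀ k : ℕ, ∃ u : FreeGroup (Fin n), QuotientGroup.mk' R u = φ (FreeGroup.of k) :=
      fun k => QuotientGroup.mk'_surjective R _
    choose u hu using hsurj
    have e : φ = (QuotientGroup.mk' R).comp (FreeGroup.lift u) := by
      apply FreeGroup.ext_hom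
      intro k
      rw [MonoidHom.comp_apply, FreeGroup.lift_apply_of, hu]
    rw [e, MonoidHom.comp_apply, QuotientGroup.mk'_apply, QuotientGroup.eq_one_iff]
    exact Subgroup.subset_normalClosure ⟨w, hw, _, rfl⟩
  have hS : IsSolvable (FreeGroup (Fin n) ⧸ R) := ⟨d, hsol _ hlaw⟩
  rw [injective_iff_map_eq_one] at hinj
  push Not at hinj
  obtain ⟨k, hk, hk1⟩ := hinj
  obtain ⟨H, hH, hkH⟩ := h W (Fin n) hS k hk1
  exact hkH (Pool.Agent.Q113.RFSol.malcev f hf k hk H hH)

end Pool.Agent.S02592
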