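import Pool.Statements.S02672
import Pool.Agent.Results.MP_ac3292_al.NoSplit

set_option autoImplicit false
open Pool Pool.MP_ac3292_al

namespace Pool.Agent.S02672

open Pool.Agent.Results.MP_ac3292_al.NoSplit in
theorem toIndexed {V : Type} (Γ : SimpleGraph V) (Y : Set V) (k : ℕ)
    (h : ∀ R : ℕ, ∃ 𝒰 : Set (Set V), (∀ U ∈ 𝒰, U ⊆ Y) ∧ Y ⊆ ⋃₀ 𝒰 ∧
        (∃ D : ℕ, ∀ U ∈ 𝒰, ∀ a ∈ U, ∀ b ∈ U, Γ.dist a b ≤ D) ∧
        ∀ y ∈ Y, {U ∈ 𝒰 | ∃ z ∈ U, Γ.dist y z ≤ R}.encard ≤ (k + 1 : ℕ∞)) :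
    AsdimLE Γ Y k := by
  intro R
  obtain ⟨𝒰, h1, h2, ⟨D, h3⟩, h4⟩ := h R
  refine ⟨𝒰, fun i => i.1, D, fun i => h1 i.1 i.2, ?_, fun i x hx y hy => h3 i.1 i.2 x hx y hy, ?_⟩
  · intro y hy
    obtain ⟨U, hU, hyU⟩ := h2 hy
    exact ⟨⟨U, hU⟩, hyU⟩
  · intro y hy
    have h5 := h4 y hy
    have h6 : (Subtype.val '' {i : 𝒰 | ∃ z ∈ i.1, Γ.dist y z ≤ R}).encard =
        {i : 𝒰 | ∃ z ∈ i.1, Γ.dist y z ≤ R}.encard :=
      Function.Injective.encard_image Subtype.val_injective _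
    rw [← h6]
    have h7 : (Subtype.val '' {i : 𝒰 | ∃ z ∈ i.1, Γ.dist y z ≤ R}) ⊆
        {U ∈ 𝒰 | ∃ z ∈ U, Γ.dist y z ≤ R} := by
      rintro _ ⟨i, hi, rfl⟩
      exact ⟨i.2, hi⟩
    refine (Set.encard_le_encard h7).trans ?_
    push_cast
    exact h5

open Pool.Agent.Results.MP_ac3292_al.NoSplit in
theorem ofIndexed {V : Type} (Γ : SimpleGraph V) (Y : Set V) (k : ℕ) (h : AsdimLE Γ Y k) :
    ∀ R : ℕ, ∃ 𝒰 : Set (Set V), (∀ U ∈ 𝒰, U ⊆ Y) ∧ Y ⊆ ⋃₀ 𝒰 ∧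
        (∃ D : ℕ, ∀ U ∈ 𝒰, ∀ a ∈ U, ∀ b ∈ U, Γ.dist a b ≤ D) ∧
        ∀ y ∈ Y, {U ∈ 𝒰 | ∃ z ∈ U, Γ.dist y z ≤ R}.encard ≤ (k + 1 : ℕ∞) := by
  intro R
  obtain ⟨ι, U, D, h1, h2, h3, h4⟩ := h R
  refine ⟨Set.range U, ?_, ?_, ⟨D, ?_⟩, ?_⟩
  · rintro _ ⟨i, rfl⟩
    exact h1 i
  · intro y hy
    obtain ⟨i, hi⟩ := h2 y hy
    exact ⟨U i, ⟨i, rfl⟩, hi⟩
  · rintro _ ⟨i, rfl⟩ a ha b hb
    exact h3 i a ha b hb
  · intro y hy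
    have h5 := h4 y hy
    have h7 : {W ∈ Set.range U | ∃ z ∈ W, Γ.dist y z ≤ R} ⊆
        U '' {i : ι | ∃ z ∈ U i, Γ.dist y z ≤ R} := by
      rintro _ ⟨⟨i, rfl⟩, hi⟩
      exact ⟨i, hi, rfl⟩
    refine (Set.encard_le_encard h7).trans ((Set.encard_image_le _ _).trans ?_)
    push_cast at h5
    exact h5

open Pool.Agent.Results.MP_ac3292_al.NoSplit in
/-- A finite-order generated group: no amalgam decomposition inside `G`. -/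
theorem no_amalgam {G : Type} [Group G] (hns : ∀ H : Subgroup G, ¬ SplitsOver H)
    (H : Subgroup G) (K : Bool → Subgroup G) (hK : ∀ i, H ≤ K i) (hne : ∀ i, H ≠ K i)
    (e : Monoid.PushoutI (fun i : Bool => Subgroup.inclusion (hK i)) ≃* G)
    (he : ∀ (i : Bool) (a : K i), e (Monoid.PushoutI.of i a) = (a : G)) : False := by
  refine hns H (Or.inl ⟨fun i => K i, fun i => inferInstance,
    fun i => Subgroup.inclusion (hK i), ?_, ?_, e, ?_⟩)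
  · intro i
    exact Subgroup.inclusion_injective (hK i)
  · intro i hs
    apply hne i
    apply le_antisymm (hK i)
    intro x hx
    obtain ⟨y, hy⟩ := hs ⟨x, hx⟩
    have := congrArg Subtype.val hy
    simp only [Subgroup.coe_inclusion] at this
    rw [← this]
    exact y.2
  · intro h
    rw [← Monoid.PushoutI.of_apply_eq_base (fun i : Bool => Subgroup.inclusion (hK i)) true h, he]
    rfl

open Pool.Agent.Results.MP_ac3292_al.NoSplit in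
theorem no_hnn {G : Type} [Group G] (hns : ∀ H : Subgroup G, ¬ SplitsOver H)
    (A : Subgroup G) (B₁ B₂ : Subgroup A) (φ : B₁ ≃* B₂)
    (e : HNNExtension A B₁ B₂ φ ≃* G) : False :=
  hns _ (Or.inr ⟨A, inferInstance, B₁, B₂, φ, e, rfl⟩)

open Pool.Agent.Results.MP_ac3292_al.NoSplit in
/-- The negation of the preceding statement: For all f.g. G with Cayley graph Γ and m:ℕ: if asdim G ≥ m+2 and some X with asdim X ≤ m coarsely separates Γ (two distinct deep components of the complement of the r-neighbourhood), then G is a nontrivial amalgam K₀ *_H K₁ or an HNN extension A*_H over some subgroup H with asdim H ≤ m+1. -/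
theorem result :
    ¬ (∀ (G : Type) [Group G] (S : Finset G), Subgroup.closure (S : Set G) = ⊤ →
  ∀ (Γ : SimpleGraph G), Γ = SimpleGraph.fromRel (fun g h : G => g⁻¹ * h ∈ S) →
  ∀ (asdimLE : Set G → ℕ → Prop),
    (∀ (Y : Set G) (k : ℕ), asdimLE Y k ↔
      ∀ R : ℕ, ∃ 𝒰 : Set (Set G), (∀ U ∈ 𝒰, U ⊆ Y) ∧ Y ⊆ ⋃₀ 𝒰 ∧
        (∃ D : ℕ, ∀ U ∈ 𝒰, ∀ a ∈ U, ∀ b ∈ U, Γ.dist a b ≤ D) ∧
        ∀ y ∈ Y, {U ∈ 𝒰 | ∃ z ∈ U, Γ.dist y z ≤ R}.encard ≤ (k + 1 : ℕ∞)) →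
  ∀ (m : ℕ), ¬ asdimLE Set.univ (m + 1) →
  ∀ (X : Set G), asdimLE X m →
  (∃ r : ℕ, ∃ Ω : Set G, Ω = {v : G | ∀ x ∈ X, r < Γ.dist v x} ∧
    ∃ C₁ C₂ : (Γ.induce Ω).ConnectedComponent, C₁ ≠ C₂ ∧
      ∀ C : (Γ.induce Ω).ConnectedComponent, (C = C₁ ∨ C = C₂) →
        ∀ D : ℕ, ∃ v : Ω, (Γ.induce Ω).connectedComponentMk v = C ∧
          ∀ x ∈ X, D < Γ.dist (v : G) x) →
  ∃ H : Subgroup G, asdimLE (H : Set G) (m + 1) ∧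
    ((∃ (K : Bool → Subgroup G) (hK : ∀ i, H ≤ K i), (∀ i, H ≠ K i) ∧
        ∃ e : Monoid.PushoutI (fun i : Bool => Subgroup.inclusion (hK i)) ≃* G,
          ∀ (i : Bool) (a : K i), e (Monoid.PushoutI.of i a) = (a : G)) ∨
     (∃ (A : Subgroup G) (B₁ B₂ : Subgroup A) (φ : B₁ ≃* B₂)
        (e : HNNExtension A B₁ B₂ φ ≃* G),
          (∀ a : A, e (HNNExtension.of a) = (a : G)) ∧ H = B₁.map A.subtype))) := by
  intro hall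
  obtain ⟨G, instG, S, hS, hasd, ⟨X, hX, r, hr, C₁, C₂, hC, hd1, hd2⟩, hns⟩ :=
    Pool.Agent.Results.MP_ac3292_al.NoSplit.result 2 le_rfl
  obtain ⟨H, -, hsp⟩ := hall G S hS (cayley S) rfl
    (fun Y k => ∀ R : ℕ, ∃ 𝒰 : Set (Set G), (∀ U ∈ 𝒰, U ⊆ Y) ∧ Y ⊆ ⋃₀ 𝒰 ∧
        (∃ D : ℕ, ∀ U ∈ 𝒰, ∀ a ∈ U, ∀ b ∈ U, (cayley S).dist a b ≤ D) ∧
        ∀ y ∈ Y, {U ∈ 𝒰 | ∃ z ∈ U, (cayley S).dist y z ≤ R}.encard ≤ (k + 1 : ℕ∞))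
    (fun Y k => Iff.rfl) 0 (fun h => hasd (toIndexed _ _ _ h)) X (ofIndexed _ _ _ hX)
    ⟨r, _, rfl, C₁, C₂, hC, by
      rintro C (rfl | rfl) D
      · obtain ⟨v, hv, hv'⟩ := hd1 D
        exact ⟨v, hv, hv'⟩
      · obtain ⟨v, hv, hv'⟩ := hd2 D
        exact ⟨v, hv, hv'⟩⟩
  rcases hsp with ⟨K, hK, hne, e, he⟩ | ⟨A, B₁, B₂, φ, e, -, -⟩
  · exact no_amalgam hns H K hK hne e he
  · exact no_hnn hns A B₁ B₂ φ e

end Pool.Agent.S02672
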