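import Pool.Statements.S02882
import Pool.Agent.Q98.CommWidth

set_option autoImplicit false
open Pool Pool.MP_bb0bfc_al

namespace Pool.Agent.S02882

/-- The free group on `a`, `b` has palindromic width at most three with respect to the generating
set consisting of `a`, `b` and `ab`, but infinite commutator width. -/
theorem result :
    ¬ (∀ (G : Type) [Group G] [Group.FG G],
      (∃ S : Finset G, Subgroup.closure (S : Set G) = ⊤ ∧
        ∃ n : ℕ, ∀ g : G, ∃ L : List (List G), L.length ≤ n ∧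
          (∀ w ∈ L, w.reverse = w ∧ ∀ x ∈ w, x ∈ S ∨ x⁻¹ ∈ S) ∧
          (L.map List.prod).prod = g) ↔
      (∃ n : ℕ, ∀ g ∈ commutator G, ∃ l : List G, l.length ≤ n ∧
          (∀ c ∈ l, c ∈ commutatorSet G) ∧ l.prod = g)) := by
  intro h
  haveI : Group.FG (FreeGroup Pool.Agent.Q98.CW.A2) :=
    ⟨⟨Pool.Agent.Q98.CW.S, Pool.Agent.Q98.CW.finite_pw.1⟩⟩
  exact Pool.Agent.Q98.CW.infinite_cw
    ((h (FreeGroup Pool.Agent.Q98.CW.A2)).1 ⟨Pool.Agent.Q98.CW.S, Pool.Agent.Q98.CW.finite_pw⟩)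

end Pool.Agent.S02882
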