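import Pool.Statements.S02968
import Pool.Agent.Q92.Dbl.Double

set_option autoImplicit false
open Pool Pool.MP_c1d873_al

namespace Pool.Agent.S02968

/-- The negation of the preceding statement: For every regularity k≥1 (or ∞) and every compact connected smooth n-manifold M (n≥1, boundary allowed) there is a finitely generated group acting faithfully by C^k diffeomorphisms on a compact connected n-manifold N iff N is C^k-diffeomorphic to M. -/
theorem result :
    ¬ (∀ (k : ℕ∞), 1 ≤ k →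
  ∀ (n : ℕ) [NeZero n] (M : Type) [TopologicalSpace M] [T2Space M] [CompactSpace M]
    [ConnectedSpace M] [ChartedSpace (EuclideanHalfSpace n) M]
    [IsManifold (modelWithCornersEuclideanHalfSpace n) ((⊤ : ℕ∞) : WithTop ℕ∞) M],
  ∃ (G : Type) (_ : Group G), Group.FG G ∧
    ∀ (N : Type) [TopologicalSpace N] [T2Space N] [CompactSpace N] [ConnectedSpace N]
      [ChartedSpace (EuclideanHalfSpace n) N]
      [IsManifold (modelWithCornersEuclideanHalfSpace n) ((⊤ : ℕ∞) : WithTop ℕ∞) N],
      ((∃ ρ : G →* Equiv.Perm N, Function.Injective ρ ∧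
          ∀ g : G, ContMDiff (modelWithCornersEuclideanHalfSpace n)
            (modelWithCornersEuclideanHalfSpace n) (k : WithTop ℕ∞) (ρ g)) ↔
        Nonempty (Diffeomorph (modelWithCornersEuclideanHalfSpace n)
          (modelWithCornersEuclideanHalfSpace n) M N (k : WithTop ℕ∞)))) := by
  intro H
  haveI : Fact ((0:ℝ) < 1) := ⟨one_pos⟩
  obtain ⟨G, hG, -, hdet⟩ := H 1 le_rfl 1 (Set.Icc (0:ℝ) 1)
  have h1 := (hdet (Set.Icc (0:ℝ) 1)).2 ⟨Diffeomorph.refl _ _ _⟩
  obtain ⟨ρ, hinj, hsm⟩ := h1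
  have hends : ∀ g : G, Pool.Agent.Q92.Dbl.Ends (ρ g) := fun g =>
    Pool.Agent.Q92.Dbl.ends_of_bij (hsm g).continuous (ρ g).bijective
  let D : G →* Function.End Pool.Agent.Q92.Dbl.C2 :=
    { toFun := fun g => Pool.Agent.Q92.Dbl.dbl (ρ g)
      map_one' := by
        rw [map_one]
        exact Pool.Agent.Q92.Dbl.dbl_id
      map_mul' := by
        intro g h
        have hgh := hends (g * h)
        rw [map_mul] at hgh ⊢
        exact Pool.Agent.Q92.Dbl.dbl_comp (hends g) (hends h) hgh }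
  have h2 := (hdet Pool.Agent.Q92.Dbl.C2).1 ⟨D.toHomPerm, ?_, ?_⟩
  · obtain ⟨e⟩ := h2
    exact Pool.Agent.Q92.Dbl.not_homeo e.toHomeomorph
  · intro g h hgh
    apply hinj
    have h3 : Pool.Agent.Q92.Dbl.dbl (ρ g) = Pool.Agent.Q92.Dbl.dbl (ρ h) := by
      have := congrArg (fun p : Equiv.Perm Pool.Agent.Q92.Dbl.C2 => (p : Pool.Agent.Q92.Dbl.C2 → Pool.Agent.Q92.Dbl.C2)) hgh
      exact this
    have h4 := Pool.Agent.Q92.Dbl.dbl_injective (hends g) (hends h) h3
    exact Equiv.ext (congrFun h4)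
  · intro g
    exact Pool.Agent.Q92.Dbl.contMDiff_dbl (hsm g) (hends g)

end Pool.Agent.S02968
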