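import Pool.Statements.S03052
import Pool.Agent.Q113.MatU3

set_option autoImplicit false
open Pool Pool.MP_cacfbf_al

namespace Pool.Agent.S03052

open Pool.Agent.Q113.MatU Pool.Agent.Q113.MatU.Heis

/-- The negation of the preceding statement: For every prime p, field F of char p, Lie p-algebra L and PI non-unital subalgebra R of u(L): if n is the least positive integer such that some power of the standard polynomial S_2n vanishes on R, then n is a power of p. -/
theorem result :
    ¬ (∀ (p : ℕ), p.Prime → ∀ (F : Type) [Field F] [CharP F p] (L : Type) [LieRing L] [LieAlgebra F L]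
    (f : L → L),
    (∀ (a : F) (x : L), f (a • x) = a ^ p • f x) →
    (∀ x y : L, (LieAlgebra.ad F L x ^ p) y = ⁅f x, y⁆) →
    (∀ x y : L,
      UniversalEnvelopingAlgebra.ι F (f (x + y)) - UniversalEnvelopingAlgebra.ι F (f x)
        - UniversalEnvelopingAlgebra.ι F (f y)
      = (UniversalEnvelopingAlgebra.ι F x + UniversalEnvelopingAlgebra.ι F y) ^ p
        - UniversalEnvelopingAlgebra.ι F x ^ p - UniversalEnvelopingAlgebra.ι F y ^ p) →
    ∀ R : NonUnitalSubalgebra F (RingQuot (fun a b : UniversalEnvelopingAlgebra F L =>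
        ∃ x : L, a = UniversalEnvelopingAlgebra.ι F x ^ p ∧ b = UniversalEnvelopingAlgebra.ι F (f x))),
    (∃ m : ℕ, ∃ φ : FreeAlgebra F (Fin m), φ ≠ 0 ∧
      ∀ r : Fin m → RingQuot (fun a b : UniversalEnvelopingAlgebra F L =>
        ∃ x : L, a = UniversalEnvelopingAlgebra.ι F x ^ p ∧ b = UniversalEnvelopingAlgebra.ι F (f x)),
        (∀ i, r i ∈ R) → FreeAlgebra.lift F r φ = 0) →
    ∀ n : ℕ, 1 ≤ n →
      (∃ t : ℕ, 1 ≤ t ∧
        ∀ r : Fin (2 * n) → RingQuot (fun a b : UniversalEnvelopingAlgebra F L =>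
          ∃ x : L, a = UniversalEnvelopingAlgebra.ι F x ^ p ∧ b = UniversalEnvelopingAlgebra.ι F (f x)),
          (∀ i, r i ∈ R) →
          (∑ σ : Equiv.Perm (Fin (2 * n)),
            ((Equiv.Perm.sign σ : ℤˣ) : ℤ) • (List.ofFn fun i => r (σ i)).prod) ^ t = 0) →
      (∀ m : ℕ, 1 ≤ m → m < n →
        ¬ ∃ t : ℕ, 1 ≤ t ∧
          ∀ r : Fin (2 * m) → RingQuot (fun a b : UniversalEnvelopingAlgebra F L =>
            ∃ x : L, a = UniversalEnvelopingAlgebra.ι F x ^ p ∧ b = UniversalEnvelopingAlgebra.ι F (f x)),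
            (∀ i, r i ∈ R) →
            (∑ σ : Equiv.Perm (Fin (2 * m)),
              ((Equiv.Perm.sign σ : ℤˣ) : ℤ) • (List.ofFn fun i => r (σ i)).prod) ^ t = 0) →
      ∃ k : ℕ, n = p ^ k) := by
  intro H
  have key := H 3 Nat.prime_three F3 Heis f f_smul f_ad ?_ (NonUnitalAlgHom.range (psi D)) ?_ 2
    (by norm_num) ?_ ?_
  · obtain ⟨k, hk⟩ := key
    rcases k with _ | k
    · simp at hk
    · have : 3 ∣ 2 := by rw [hk, pow_succ]; exact dvd_mul_left _ _
      omega
  · exact jacU
  · refine ⟨1, FreeAlgebra.ι F3 0 ^ 26 - FreeAlgebra.ι F3 0 ^ 2, ?_, ?_⟩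
    · intro h
      have h2 := congrArg (FreeAlgebra.lift F3 (fun _ : Fin 1 => (Polynomial.X : Polynomial F3))) h
      simp only [map_sub, map_pow, FreeAlgebra.lift_ι_apply, map_zero] at h2
      have h3 := congrArg (fun q => Polynomial.coeff q 26) h2
      simp [Polynomial.coeff_X_pow] at h3
    · intro r hr
      obtain ⟨M, hM⟩ := hr 0
      simp only [map_sub, map_pow, FreeAlgebra.lift_ι_apply]
      rw [← hM]
      change (psi D M) ^ 26 - (psi D M) ^ 2 = 0
      rw [← psi_pow D M 26 (by norm_num), ← psi_pow D M 2 (by norm_num), pow26, sub_self]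
  · refine ⟨1, le_rfl, ?_⟩
    intro r hr
    choose M hM using hr
    rw [pow_one]
    have h := congrArg (psi D) (S4_zero M)
    rw [map_zero, map_sum] at h
    rw [← h]
    refine Finset.sum_congr rfl fun σ _ => ?_
    rw [map_zsmul, psi_list D _ (by simp), List.map_ofFn]
    congr 3
    funext i
    exact (hM (σ i)).symm
  · rintro m hm hm2 ⟨t, ht, h⟩
    have hm1 : m = 1 := by omega
    subst hm1
    have h1 := h (fun i => psi D (![Matrix.single 0 1 1, Matrix.single 1 0 1] i)) (by
      intro i; exact ⟨_, rfl⟩)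
    have h3 : ∑ σ : Equiv.Perm (Fin (2 * 1)), ((Equiv.Perm.sign σ : ℤˣ) : ℤ) •
        (List.ofFn fun i => (![Matrix.single 0 1 1, Matrix.single 1 0 1] : Fin 2 → M2)
          (σ i)).prod = Matrix.single 0 0 1 - Matrix.single 1 1 1 := by
      decide +kernel
    have h2 : (∑ σ : Equiv.Perm (Fin (2 * 1)), ((Equiv.Perm.sign σ : ℤˣ) : ℤ) •
        (List.ofFn fun i => psi D ((![Matrix.single 0 1 1, Matrix.single 1 0 1] : Fin 2 → M2)
          (σ i))).prod) = psi D (Matrix.single 0 0 1 - Matrix.single 1 1 1) := by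
      rw [← h3, map_sum]
      refine Finset.sum_congr rfl fun σ _ => ?_
      rw [map_zsmul, psi_list D _ (by simp), List.map_ofFn]
      rfl
    have h4 := (congrArg (fun z => z ^ t) h2).symm.trans h1
    have h5 := congrArg Rep h4
    simp only [map_pow, map_zero] at h5
    rw [Rep_psi, Matrix.diagonal_pow] at h5
    have h6 := congrFun (congrFun h5 0) 0
    simp at h6

end Pool.Agent.S03052
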