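import Pool.Statements.S03067
import Mathlib

set_option autoImplicit false
open Pool Pool.MP_cc18b0_al

namespace Pool.Agent.S03067

/-- the annihilator of a subgroup in the group of characters `A → ℚ/ℤ` -/
def perp {A : Type} [AddCommGroup A] (X : Submodule ℤ A) : AddSubgroup (CharacterModule A) where
  carrier := {c | ∀ x ∈ X, c x = 0}
  zero_mem' := fun x _ => rfl
  add_mem' := by
    intro a b ha hb x hx
    change a x + b x = 0
    rw [ha x hx, hb x hx, add_zero]
  neg_mem' := by
    intro a ha x hx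
    change -(a x) = 0
    rw [ha x hx, neg_zero]

theorem mem_perp {A : Type} [AddCommGroup A] (X : Submodule ℤ A) (c : CharacterModule A) :
    c ∈ perp X ↔ ∀ x ∈ X, c x = 0 := Iff.rfl

theorem perp_sup {A : Type} [AddCommGroup A] (X Y : Submodule ℤ A) :
    perp (X ⊔ Y) = perp X ⊓ perp Y := by
  ext c
  simp only [AddSubgroup.mem_inf, mem_perp]
  constructor
  · intro h
    exact ⟨fun x hx => h x (Submodule.mem_sup_left hx), fun x hx => h x (Submodule.mem_sup_right hx)⟩
  · rintro ⟨h1, h2⟩ z hz
    obtain ⟨x, hx, y, hy, rfl⟩ := Submodule.mem_sup.1 hz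
    rw [map_add, h1 x hx, h2 y hy, add_zero]

theorem perp_inf {A : Type} [AddCommGroup A] (X Y : Submodule ℤ A) :
    perp (X ⊓ Y) = perp X ⊔ perp Y := by
  apply le_antisymm
  · intro c hc
    -- the embedding `A/(X ∩ Y) → A/X × A/Y`
    let f : (A ⧸ (X ⊓ Y)) →ₗ[ℤ] (A ⧸ X) × (A ⧸ Y) :=
      Submodule.liftQ _ (X.mkQ.prod Y.mkQ) (by
        rw [LinearMap.ker_prod, Submodule.ker_mkQ, Submodule.ker_mkQ])
    have hf : Function.Injective f := by
      rw [← LinearMap.ker_eq_bot]
      apply Submodule.ker_liftQ_eq_bot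
      rw [LinearMap.ker_prod, Submodule.ker_mkQ, Submodule.ker_mkQ]
    let cq : (A ⧸ (X ⊓ Y)) →ₗ[ℤ] AddCircle (1 : ℚ) :=
      Submodule.liftQ _ (AddMonoidHom.toIntLinearMap (c : A →+ AddCircle (1 : ℚ))) (by
        intro x hx
        exact hc x hx)
    obtain ⟨d, hd⟩ := CharacterModule.dual_surjective_of_injective f hf
      (cq.toAddMonoidHom : CharacterModule (A ⧸ (X ⊓ Y)))
    have key : ∀ a : A, c a = d (X.mkQ a, Y.mkQ a) := by
      intro a
      have h1 := DFunLike.congr_fun hd (Submodule.mkQ _ a)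
      exact h1.symm
    let g : CharacterModule A := (d : ((A ⧸ X) × (A ⧸ Y)) →+ AddCircle (1 : ℚ)).comp
      ((LinearMap.inl ℤ (A ⧸ X) (A ⧸ Y)).comp X.mkQ).toAddMonoidHom
    let h : CharacterModule A := (d : ((A ⧸ X) × (A ⧸ Y)) →+ AddCircle (1 : ℚ)).comp
      ((LinearMap.inr ℤ (A ⧸ X) (A ⧸ Y)).comp Y.mkQ).toAddMonoidHom
    have hg : g ∈ perp X := by
      intro x hx
      change d (X.mkQ x, 0) = 0
      have : X.mkQ x = 0 := (Submodule.Quotient.mk_eq_zero X).2 hx
      rw [this]
      exact map_zero d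
    have hh : h ∈ perp Y := by
      intro x hx
      change d (0, Y.mkQ x) = 0
      have : Y.mkQ x = 0 := (Submodule.Quotient.mk_eq_zero Y).2 hx
      rw [this]
      exact map_zero d
    have hsum : c = g + h := by
      apply CharacterModule.ext
      intro a
      change c a = d (X.mkQ a, 0) + d (0, Y.mkQ a)
      rw [← map_add, key a]
      simp
    rw [hsum]
    exact AddSubgroup.add_mem _ (AddSubgroup.mem_sup_left hg) (AddSubgroup.mem_sup_right hh)
  · refine sup_le ?_ ?_
    · intro c hc x hx
      exact hc x hx.1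
    · intro c hc x hx
      exact hc x hx.2

theorem perp_le {A : Type} [AddCommGroup A] (X Y : Submodule ℤ A) (h : perp X ≤ perp Y) :
    Y ≤ X := by
  intro y hy
  by_contra hx
  have hne : X.mkQ y ≠ 0 := fun h0 => hx ((Submodule.Quotient.mk_eq_zero X).1 h0)
  obtain ⟨c, hc⟩ := CharacterModule.exists_character_apply_ne_zero_of_ne_zero hne
  apply hc
  have hm : ((c : (A ⧸ X) →+ AddCircle (1 : ℚ)).comp X.mkQ.toAddMonoidHom : CharacterModule A) ∈
      perp X := by
    intro x hx
    change c (X.mkQ x) = 0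
    have : X.mkQ x = 0 := (Submodule.Quotient.mk_eq_zero X).2 hx
    rw [this]
    exact map_zero c
  exact h hm y hy

theorem perp_inj {A : Type} [AddCommGroup A] : Function.Injective (perp (A := A)) := by
  intro X Y h
  exact le_antisymm (perp_le Y X h.symm.le) (perp_le X Y h.le)

/-- For every lattice L, if L embeds as a lattice into the subgroup lattice of some abelian group, then its order dual also embeds as a lattice into the subgroup lattice of some abelian group. -/
theorem result :
    ∀ (L : Type) [Lattice L],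
      (∃ (A : Type) (_ : AddCommGroup A), ∃ f : LatticeHom L (AddSubgroup A), Function.Injective f) →
      (∃ (B : Type) (_ : AddCommGroup B), ∃ g : LatticeHom Lᵒᵈ (AddSubgroup B), Function.Injective g) := by
  intro L _ ⟨A, hA, f, hf⟩
  refine ⟨CharacterModule A, inferInstance, ?_⟩
  let e : AddSubgroup A ≃o Submodule ℤ A := AddSubgroup.toIntSubmodule
  refine ⟨{ toFun := fun x => perp (e (f (OrderDual.ofDual x))), map_sup' := ?_, map_inf' := ?_ }, ?_⟩
  · intro a b
    rw [ofDual_sup, map_inf, map_inf, perp_inf]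
  · intro a b
    change perp (e (f (OrderDual.ofDual (a ⊓ b)))) = _
    rw [ofDual_inf, map_sup, map_sup, perp_sup]
  · intro a b hab
    exact OrderDual.ofDual.injective (hf (e.injective (perp_inj hab)))

end Pool.Agent.S03067
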