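import Pool.Statements.S03469
import Pool.Agent.Helper58.EN.JZ

set_option autoImplicit false
open Pool Pool.MP_ecbc69_al

namespace Pool.Agent.S03469

open Pool.Agent.Helper58.EN in
/-- The two descriptions of the set of elementary transvections. -/
theorem set_eq (n : ℕ) (R : Type) [Ring R] :
    {g : Matrix.GeneralLinearGroup (Fin n) R |
            ∃ i j : Fin n, i ≠ j ∧ ∃ r : R,
              (g : Matrix (Fin n) (Fin n) R) =
                1 + Matrix.of (fun a b => if a = i ∧ b = j then r else 0)} =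
    {g : (Matrix (Fin n) (Fin n) R)ˣ | ∃ i j, ∃ h : i ≠ j, ∃ x ∈ (Set.univ : Set R),
      g = tv i j h x} := by
  ext g
  constructor
  · rintro ⟨i, j, hij, r, hr⟩
    refine ⟨i, j, hij, r, Set.mem_univ r, ?_⟩
    apply Units.ext
    rw [hr, tv_val]
    congr 1
    ext a b
    simp only [Matrix.of_apply, Matrix.single_apply]
    by_cases h : a = i ∧ b = j
    · rw [if_pos h, if_pos ⟨h.1.symm, h.2.symm⟩]
    · rw [if_neg h, if_neg (fun h' => h ⟨h'.1.symm, h'.2.symm⟩)]
  · rintro ⟨i, j, hij, r, -, rfl⟩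
    refine ⟨i, j, hij, r, ?_⟩
    rw [tv_val]
    congr 1
    ext a b
    simp only [Matrix.of_apply, Matrix.single_apply]
    by_cases h : a = i ∧ b = j
    · rw [if_pos h, if_pos ⟨h.1.symm, h.2.symm⟩]
    · rw [if_neg h, if_neg (fun h' => h ⟨h'.1.symm, h'.2.symm⟩)]

/-- For every unital ring satisfying a multilinear polynomial identity with a coefficient 1, and every n ≥ 3, the subgroup of GL_n(R) generated by elementary transvections I + rE_ij (i ≠ j) is normal in GL_n(R). -/
theorem result :
    ∀ (R : Type) [Ring R],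
      (∃ d : ℕ, 0 < d ∧ ∃ c : Equiv.Perm (Fin d) → ℤ, c 1 = 1 ∧
        ∀ x : Fin d → R,
          ∑ σ : Equiv.Perm (Fin d), ((c σ : ℤ) : R) * (List.ofFn (fun i => x (σ i))).prod = 0) →
      ∀ n : ℕ, 3 ≤ n →
        (Subgroup.closure
          {g : Matrix.GeneralLinearGroup (Fin n) R |
            ∃ i j : Fin n, i ≠ j ∧ ∃ r : R,
              (g : Matrix (Fin n) (Fin n) R) =
                1 + Matrix.of (fun a b => if a = i ∧ b = j then r else 0)}).Normal := by
  intro R _ hPI n hn
  obtain ⟨d, -, c, hc, hP⟩ := hPI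
  rw [set_eq]
  refine ⟨fun e he g => ?_⟩
  exact Pool.Agent.Helper58.EN.main (ι := Fin n) (by simpa using hn) d c hc R hP g e he

end Pool.Agent.S03469
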