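import Pool.Statements.S03595
import Pool.Agent.Q9.TIG.Conn
import Pool.Agent.Q9.TIG.Prof

set_option autoImplicit false
open Pool Pool.MP_f8d790_al

namespace Pool.Agent.S03595

/-- An infinite compact Hausdorff group G has every choice of conjugates of its elements topologically generating G if and only if G has a closed, connected, abelian normal subgroup with totally disconnected (profinite) quotient. -/
theorem result :
    ∀ (G : Type) [Group G] [TopologicalSpace G] [IsTopologicalGroup G] [CompactSpace G]
      [T2Space G] [Infinite G],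
      (∀ f : G → G,
          (Subgroup.closure (Set.range (fun x : G => f x * x * (f x)⁻¹))).topologicalClosure = ⊤) ↔
        ∃ N : Subgroup G, N.Normal ∧ IsClosed (N : Set G) ∧ IsConnected (N : Set G) ∧
          (∀ a ∈ N, ∀ b ∈ N, a * b = b * a) ∧ TotallyDisconnectedSpace (G ⧸ N) := by
  intro G _ _ _ _ _ _
  constructor
  · intro h
    have hab := Pool.Agent.Q9.TIG.comm_of_tig G (fun H hH hc => by
      choose f hf using hc
      rw [eq_top_iff, ← h f]
      refine Subgroup.topologicalClosure_minimal _ ?_ hH
      rw [Subgroup.closure_le]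
      rintro _ ⟨x, rfl⟩
      exact hf x)
    refine ⟨Subgroup.connectedComponentOfOne G, ?_, isClosed_connectedComponent,
      isConnected_connectedComponent, hab, ?_⟩
    · refine ⟨fun n hn g => ?_⟩
      have h1 : Continuous fun x : G => g * x * g⁻¹ := by fun_prop
      have h2 := h1.image_connectedComponent_subset (1 : G) ⟨n, hn, rfl⟩
      rw [show g * 1 * g⁻¹ = 1 by group] at h2
      exact h2
    · set N := Subgroup.connectedComponentOfOne G with hN
      have hq : Topology.IsQuotientMap (QuotientGroup.mk : G → G ⧸ N) :=
        QuotientGroup.isQuotientMap_mk N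
      have hfib : ∀ y : G ⧸ N, IsConnected ((QuotientGroup.mk : G → G ⧸ N) ⁻¹' {y}) := by
        intro y
        obtain ⟨a, rfl⟩ := QuotientGroup.mk_surjective y
        have e : (QuotientGroup.mk : G → G ⧸ N) ⁻¹' {(a : G ⧸ N)} = (fun x => a * x) '' (N : Set G) := by
          ext x
          constructor
          · intro hx
            have : (a : G ⧸ N) = x := hx.symm
            exact ⟨a⁻¹ * x, QuotientGroup.eq.1 this, by group⟩
          · rintro ⟨n, hn, rfl⟩
            show ((a * n : G) : G ⧸ N) = a
            refine (QuotientGroup.eq.2 ?_).symm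
            simpa using hn
        rw [e]
        exact isConnected_connectedComponent.image _ (by fun_prop)
      rw [totallyDisconnectedSpace_iff_connectedComponent_singleton]
      intro y
      obtain ⟨a, rfl⟩ := QuotientGroup.mk_surjective y
      have h3 := hq.isCoinducing.preimage_connectedComponent hfib a
      have h4 : connectedComponent a = (fun x => a * x) '' (N : Set G) := by
        have := smul_connectedComponent a (1 : G)
        rw [mul_one] at this
        rw [← this]
        rfl
      refine Set.Subset.antisymm ?_ (Set.singleton_subset_iff.2 mem_connectedComponent)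
      intro z hz
      obtain ⟨b, rfl⟩ := QuotientGroup.mk_surjective z
      have h5 : b ∈ connectedComponent a := by
        rw [← h3]
        exact hz
      rw [h4] at h5
      obtain ⟨n, hn, rfl⟩ := h5
      show ((a * n : G) : G ⧸ N) = a
      refine (QuotientGroup.eq.2 ?_).symm
      simpa using hn
  · rintro ⟨N, hNn, hNc, -, hNa, hNt⟩ f
    set H := (Subgroup.closure (Set.range (fun x : G => f x * x * (f x)⁻¹))).topologicalClosure
      with hHdef
    have hHc : IsClosed (H : Set G) := Subgroup.isClosed_topologicalClosure _
    have hH : ∀ x, f x * x * (f x)⁻¹ ∈ H := fun x =>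
      Subgroup.le_topologicalClosure _ (Subgroup.subset_closure ⟨x, rfl⟩)
    have : T3Space (G ⧸ N) := inferInstance
    -- `H N = G`
    have h1 : H.map (QuotientGroup.mk' N) = ⊤ := by
      refine Pool.Agent.Q9.TIG.profinite _ ?_ fun p => ?_
      · exact (hHc.isCompact.image (f := (QuotientGroup.mk' N)) QuotientGroup.continuous_mk).isClosed
      · obtain ⟨x, rfl⟩ := QuotientGroup.mk'_surjective N p
        exact ⟨QuotientGroup.mk' N (f x), _, hH x, by simp⟩
    have h2 : ∀ g : G, ∃ h ∈ H, ∃ n ∈ N, g = h * n := by
      intro g
      have h3 : QuotientGroup.mk' N g ∈ H.map (QuotientGroup.mk' N) := by rw [h1]; trivial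
      obtain ⟨h, hh, hhg⟩ := h3
      exact ⟨h, hh, h⁻¹ * g, QuotientGroup.eq.1 hhg, by group⟩
    -- `N ≤ H`
    have h3 : ∀ n ∈ N, n ∈ H := by
      intro n hn
      obtain ⟨h, hh, m, hm, hfn⟩ := h2 (f n)⁻¹
      have h4 : f n * n * (f n)⁻¹ ∈ N := hNn.conj_mem n hn (f n)
      set k := f n * n * (f n)⁻¹ with hk
      have h5 : n = (f n)⁻¹ * k * ((f n)⁻¹)⁻¹ := by rw [hk]; group
      have h6 : m * k * m⁻¹ = k := by rw [hNa m hm k h4]; group
      have h7 : n = h * k * h⁻¹ := by
        rw [h5, hfn]
        calc h * m * k * (h * m)⁻¹ = h * (m * k * m⁻¹) * h⁻¹ := by group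
          _ = _ := by rw [h6]
      rw [h7]
      exact H.mul_mem (H.mul_mem hh (hH n)) (H.inv_mem hh)
    rw [eq_top_iff]
    intro g _
    obtain ⟨h, hh, n, hn, rfl⟩ := h2 g
    exact H.mul_mem hh (h3 n hn)

end Pool.Agent.S03595
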