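import Pool.Statements.S03597
import Pool.Agent.Q122.TateRank
import Pool.Agent.Q122.GradedRank
import Pool.Agent.Q122.SqRing

set_option autoImplicit false
open Pool Pool.MP_f8ecd9_al

namespace Pool.Agent.S03597

open Pool.Agent.Q122.Tate Pool.Agent.Q122.SqRing Matrix

/-- The square of the size is bounded by the data of the Tate differential. -/
theorem core (k : Type) [Field k] [CharP k 2] (d n : ℕ) (D : Matrix (Fin n) (Fin n) (Rg k d))
    (hD : D * D = 0) (hdeg : ∃ deg : Fin n → ℕ, ∀ i j, D i j ≠ 0 → deg j = deg i + 1)
    (hnil : ∀ i j, IsNilpotent (D i j)) :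
    2 ^ d * n + 2 * Module.finrank k (LinearMap.range ((F0 D).restrictScalars k))
      ≤ Module.finrank k (Rg k d) * (n * n) := by
  have h2 : ∀ r : Rg k d, r + r = 0 := add_self k d
  have h0 : ∀ i j, rho k d 0 (D i j) = 0 := fun i j => rho_zero_nilp k d _ (hnil i j)
  have hDJ : ∀ i j, D i j ∈ Ideal.span (Set.range (xx k d)) := fun i j =>
    mem_of_rho d (xx k d) (fun s => (rho k d s).toRingHom) (rho_step k d) (rho_top k d) _ (h0 i j)
  have hZ : ∀ a : Fin n, ∃ Z : Matrix (Fin n) (Fin n) (Rg k d), D * Z + Z * Dᵀ = Z + Zᵀ ∧
      ∀ i j, Z i j - (Matrix.single a a (1 : Rg k d)) i j ∈ Ideal.span (Set.range (xx k d)) :=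
    cycles h2 d (xx k d) (xx_sq k d) (fun s => (rho k d s).toRingHom) (rho_step k d) D hD h0
      (rho_top k d)
  have h1 := finrank_range_F1 (k := k) n h2 _ (span_le_jac k d) D hD hDJ hZ
  have h3 := two_pow_le k d
  obtain ⟨deg, hdeg⟩ := hdeg
  -- the grading
  have hrank : Module.finrank k (LinearMap.range ((F0 D).restrictScalars k))
      ≤ Module.finrank k (LinearMap.range ((F1 D).restrictScalars k)) := by
    have := rank_le_of_graded (k := k) (V := Matrix (Fin n) (Fin n) (Rg k d))
      (fun m =>
        { toFun := fun Z => Matrix.of fun i j => if deg i + deg j = m then Z i j else 0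
          map_add' := fun X Y => by ext i j; simp only [Matrix.of_apply, Matrix.add_apply]; split_ifs <;> simp
          map_smul' := fun r X => by ext i j; simp only [Matrix.of_apply, Matrix.smul_apply, RingHom.id_apply]; split_ifs <;> simp })
      (fun m => {Z | ∀ i j, Z i j ≠ 0 → deg i + deg j = m})
      (by
        intro m v hv j
        ext a b
        simp only [LinearMap.coe_mk, AddHom.coe_mk, Matrix.of_apply]
        by_cases h : j = m
        · rw [if_pos h]
          by_cases h' : v a b = 0
          · rw [h']; simp
          · rw [if_pos (by rw [h]; exact hv a b h')]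
        · rw [if_neg h, Matrix.zero_apply]
          by_cases h' : v a b = 0
          · rw [h']; simp
          · rw [if_neg (by rw [hv a b h']; exact fun h'' => h h''.symm)])
      (by
        intro v
        rw [Matrix.matrix_eq_sum_single v]
        refine Submodule.sum_mem _ fun i _ => Submodule.sum_mem _ fun j _ => ?_
        apply Submodule.subset_span
        refine Set.mem_iUnion.2 ⟨deg i + deg j, ?_⟩
        intro a b hab
        rw [Matrix.single_apply] at hab
        by_cases h : i = a ∧ j = b
        · rw [h.1, h.2]
        · rw [if_neg h] at hab; exact absurd rfl hab)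
      ((F0 D).restrictScalars k) ((Nm).restrictScalars k)
      (by
        intro v hv
        rw [LinearMap.restrictScalars_apply, F0_apply]
        ext a b
        rw [Matrix.add_apply, Matrix.mul_apply, Matrix.mul_apply, Matrix.zero_apply,
          Finset.sum_eq_zero, Finset.sum_eq_zero, add_zero]
        · intro c _
          by_contra h
          have h4 := hv a c (left_ne_zero_of_mul h)
          have h5 := hdeg b c (by simpa using right_ne_zero_of_mul h)
          omega
        · intro c _
          by_contra h
          have h4 := hv c b (right_ne_zero_of_mul h)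
          have h5 := hdeg a c (left_ne_zero_of_mul h)
          omega)
      (by
        intro m v hv a b hab
        rw [LinearMap.restrictScalars_apply, F0_apply] at hab
        by_contra hne
        apply hab
        rw [Matrix.add_apply, Matrix.mul_apply, Matrix.mul_apply,
          Finset.sum_eq_zero, Finset.sum_eq_zero, add_zero]
        · intro c _
          by_contra h
          have h4 := hv a c (left_ne_zero_of_mul h)
          have h5 := hdeg b c (by simpa using right_ne_zero_of_mul h)
          omega
        · intro c _
          by_contra h
          have h4 := hv c b (right_ne_zero_of_mul h)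
          have h5 := hdeg a c (left_ne_zero_of_mul h)
          omega)
      (by
        intro m v hv a b hab
        rw [LinearMap.restrictScalars_apply, Nm_apply, Matrix.add_apply,
          Matrix.transpose_apply] at hab
        by_contra hne
        apply hab
        have e1 : v a b = 0 := by
          by_contra h; exact hne (hv a b h)
        have e2 : v b a = 0 := by
          by_contra h; exact hne (by rw [add_comm]; exact hv b a h)
        rw [e1, e2, add_zero])
    exact this
  have h4 : 2 ^ d * n ≤ Module.finrank k (Rg k d) * n := Nat.mul_le_mul_right n h3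
  omega

/-- Over R = k[x_1..x_d]/(x_i^2) with char k = 2, every minimal graded finite free complex P of rank n has total homology of P ⊗_R P of k-dimension at least 2^d · n. -/
theorem result :
    ∀ (k : Type) [Field k] [CharP k 2] (d : ℕ) (I : Ideal (MvPolynomial (Fin d) k)),
      I = Ideal.span (Set.range (fun i : Fin d => (MvPolynomial.X i : MvPolynomial (Fin d) k) ^ 2)) →
      ∀ (n : ℕ) (D : Matrix (Fin n) (Fin n) (MvPolynomial (Fin d) k ⧸ I)),
        D * D = 0 →
        (∃ deg : Fin n → ℕ, ∀ i j, D i j ≠ 0 → deg j = deg i + 1) →
        (∀ i j, IsNilpotent (D i j)) →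
        2 ^ d * n +
            Module.finrank k
              (LinearMap.range
                ((Matrix.mulVecLin
                    (Matrix.kronecker D (1 : Matrix (Fin n) (Fin n) (MvPolynomial (Fin d) k ⧸ I)) +
                      Matrix.kronecker (1 : Matrix (Fin n) (Fin n) (MvPolynomial (Fin d) k ⧸ I)) D)).restrictScalars k))
          ≤ Module.finrank k
              (LinearMap.ker
                ((Matrix.mulVecLin
                    (Matrix.kronecker D (1 : Matrix (Fin n) (Fin n) (MvPolynomial (Fin d) k ⧸ I)) +
                      Matrix.kronecker (1 : Matrix (Fin n) (Fin n) (MvPolynomial (Fin d) k ⧸ I)) D)).restrictScalars k)) := by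
  intro k _ _ d I hI n D hD hdeg hnil
  have hI' : I = sqI k d := hI
  clear hI
  subst hI'
  set L : (Fin n × Fin n → Rg k d) →ₗ[Rg k d] (Fin n × Fin n → Rg k d) :=
    Matrix.mulVecLin (Matrix.kronecker D (1 : Matrix (Fin n) (Fin n) (Rg k d)) +
      Matrix.kronecker (1 : Matrix (Fin n) (Fin n) (Rg k d)) D) with hL
  have hcore := core k d n D hD hdeg hnil
  -- identify the two ranks
  let e : (Fin n × Fin n → Rg k d) ≃ₗ[k] Matrix (Fin n) (Fin n) (Rg k d) :=
    (LinearEquiv.curry k (Rg k d) (Fin n) (Fin n)).trans (Matrix.ofLinearEquiv k)
  have he : ∀ v i j, e v i j = v (i, j) := fun v i j => rfl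
  have hcomm : ∀ v, e (L v) = F0 D (e v) := by
    intro v
    ext i j
    rw [he, hL, Matrix.mulVecLin_apply, F0_apply, Matrix.add_mulVec, Pi.add_apply,
      Matrix.add_apply]
    congr 1
    · rw [Matrix.mulVec, dotProduct, Fintype.sum_prod_type, Matrix.mul_apply]
      refine Finset.sum_congr rfl fun a _ => ?_
      rw [Finset.sum_eq_single j]
      · simp [Matrix.kroneckerMap_apply, he]
      · intro b _ hb
        simp [Matrix.kroneckerMap_apply, Matrix.one_apply_ne (Ne.symm hb)]
      · simp
    · rw [Matrix.mulVec, dotProduct, Fintype.sum_prod_type, Matrix.mul_apply,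
        Finset.sum_eq_single i]
      · refine Finset.sum_congr rfl fun b _ => ?_
        simp [Matrix.kroneckerMap_apply, mul_comm, he]
      · intro a _ ha
        refine Finset.sum_eq_zero fun b _ => ?_
        simp [Matrix.kroneckerMap_apply, Matrix.one_apply_ne (Ne.symm ha)]
      · simp
  have hrange : Module.finrank k (LinearMap.range (L.restrictScalars k))
      = Module.finrank k (LinearMap.range ((F0 D).restrictScalars k)) := by
    have h1 : (e.toLinearMap ∘ₗ (L.restrictScalars k))
        = ((F0 D).restrictScalars k) ∘ₗ e.toLinearMap := by
      apply LinearMap.ext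
      intro v; exact hcomm v
    have h2 : LinearMap.range ((F0 D).restrictScalars k)
        = (LinearMap.range (L.restrictScalars k)).map e.toLinearMap := by
      rw [← LinearMap.range_comp, h1, LinearMap.range_comp_of_range_eq_top]
      exact LinearEquiv.range e
    rw [h2]
    exact (LinearEquiv.finrank_map_eq e _).symm
  have hdim : Module.finrank k (Fin n × Fin n → Rg k d) = Module.finrank k (Rg k d) * (n * n) := by
    rw [Module.finrank_pi_fintype]; simp; ring
  have hrn : Module.finrank k (LinearMap.range (L.restrictScalars k))
      + Module.finrank k (LinearMap.ker (L.restrictScalars k))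
      = Module.finrank k (Rg k d) * (n * n) := by
    rw [← hdim]
    exact LinearMap.finrank_range_add_finrank_ker (L.restrictScalars k)
  have hgoal : 2 ^ d * n + Module.finrank k (LinearMap.range (L.restrictScalars k))
      ≤ Module.finrank k (LinearMap.ker (L.restrictScalars k)) := by
    have hcore' : 2 ^ d * n + 2 * Module.finrank k (LinearMap.range ((F0 D).restrictScalars k))
      ≤ Module.finrank k (Rg k d) * (n * n) := hcore
    rw [← hrange] at hcore'
    generalize Module.finrank k (LinearMap.range (L.restrictScalars k)) = r at *
    omega
  exact hgoal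

end Pool.Agent.S03597
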