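import Pool.Statements.S03774
import Pool.Agent.Q202.TT.Dim
import Pool.Agent.Q202.TT.NoOrth

set_option autoImplicit false
open Matrix
open Pool Pool.MP_0ac5c2_an

namespace Pool.Agent.S03774

open Pool.Agent.Q202.TT Complex Set

theorem hh_inj : Function.Injective hh := by
  intro x y h
  unfold hh at h
  exact Fin.ext (by exact_mod_cast h)

def i1 (j : Fin 13) : Fin 26 := ⟨j, by omega⟩
def i2 (j : Fin 13) : Fin 26 := ⟨13 + j, by omega⟩

noncomputable def pq (s : Fin 13 × Fin 13) : Polynomial ℂ × Polynomial ℂ :=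
  (Lagrange.basis Finset.univ hh (i1 s.1), Lagrange.basis Finset.univ hh (i2 s.2))

theorem eval_basis (x y : Fin 26) :
    (Lagrange.basis Finset.univ hh x).eval (hh y) = if x = y then 1 else 0 := by
  split_ifs with h
  · subst h
    exact Lagrange.eval_basis_self (hh_inj.injOn) (Finset.mem_univ _)
  · exact Lagrange.eval_basis_of_ne h (Finset.mem_univ _)

/-- the real symmetric matrix -/
noncomputable def kk (κ : Fin 13 × Fin 13 → ℝ) (e : ℝ) (x y : Fin 26) : ℝ :=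
  if h : (x : ℕ) < 13 ∧ 13 ≤ (y : ℕ) then √(κ (⟨x, h.1⟩, ⟨y - 13, by omega⟩))
  else if h : (y : ℕ) < 13 ∧ 13 ≤ (x : ℕ) then √(κ (⟨y, h.1⟩, ⟨x - 13, by omega⟩)) else e

theorem kk_symm (κ : Fin 13 × Fin 13 → ℝ) (e : ℝ) (x y : Fin 26) : kk κ e x y = kk κ e y x := by
  unfold kk
  by_cases h1 : (x : ℕ) < 13 ∧ 13 ≤ (y : ℕ)
  · have h2 : ¬ ((y : ℕ) < 13 ∧ 13 ≤ (x : ℕ)) := by omega
    rw [dif_pos h1, dif_neg h2, dif_pos h1]
  · by_cases h2 : (y : ℕ) < 13 ∧ 13 ≤ (x : ℕ)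
    · rw [dif_neg h1, dif_pos h2, dif_pos h2]
    · rw [dif_neg h1, dif_neg h2, dif_neg h2, dif_neg h1]

theorem kk_val (κ : Fin 13 × Fin 13 → ℝ) (e : ℝ) (s : Fin 13 × Fin 13) :
    kk κ e (i1 s.1) (i2 s.2) = √(κ s) := by
  unfold kk i1 i2
  rw [dif_pos ⟨s.1.2, by simp⟩]
  congr 3
  ext
  simp

theorem kk_bound {κ : Fin 13 × Fin 13 → ℝ} {e : ℝ} (he : 0 < e)
    (hκ : ∀ s, e ^ 2 < κ s ∧ κ s < (2 * e) ^ 2) (x y : Fin 26) :
    e ≤ kk κ e x y ∧ kk κ e x y ≤ 2 * e := by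
  have hs : ∀ s, e ≤ √(κ s) ∧ √(κ s) ≤ 2 * e := by
    intro s
    constructor
    · exact Real.le_sqrt_of_sq_le (hκ s).1.le
    · exact Real.sqrt_le_iff.2 ⟨by linarith, (hκ s).2.le⟩
  unfold kk
  split_ifs with h1 h2
  · exact hs _
  · exact hs _
  · constructor <;> linarith

noncomputable def KK (κ : Fin 13 × Fin 13 → ℝ) (e : ℝ) : Matrix (Fin 26) (Fin 26) ℂ :=
  Matrix.of fun x y => ((kk κ e x y : ℝ) : ℂ)

theorem KK_T (κ : Fin 13 × Fin 13 → ℝ) (e : ℝ) : (KK κ e)ᵀ = KK κ e := by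
  ext x y
  simp only [KK, Matrix.transpose_apply, Matrix.of_apply]
  rw [kk_symm]

theorem KK_H (κ : Fin 13 × Fin 13 → ℝ) (e : ℝ) : (KK κ e)ᴴ = KK κ e := by
  ext x y
  simp only [KK, Matrix.conjTranspose_apply, Matrix.of_apply]
  rw [kk_symm]
  simp

theorem D_H : (Matrix.diagonal hh : Matrix (Fin 26) (Fin 26) ℂ)ᴴ = Matrix.diagonal hh := by
  rw [Matrix.diagonal_conjTranspose]
  congr 1
  funext x
  simp [hh]

noncomputable def AA (κ : Fin 13 × Fin 13 → ℝ) (e : ℝ) : Matrix (Fin 26) (Fin 26) ℂ :=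
  Matrix.diagonal hh + Complex.I • KK κ e

theorem AA_T (κ : Fin 13 × Fin 13 → ℝ) (e : ℝ) : (AA κ e)ᵀ = AA κ e := by
  unfold AA
  rw [Matrix.transpose_add, Matrix.diagonal_transpose, Matrix.transpose_smul, KK_T]

theorem AA_H (κ : Fin 13 × Fin 13 → ℝ) (e : ℝ) :
    (AA κ e)ᴴ = Matrix.diagonal hh - Complex.I • KK κ e := by
  unfold AA
  rw [Matrix.conjTranspose_add, D_H, Matrix.conjTranspose_smul, KK_H]
  simp [sub_eq_add_neg]

theorem aeval_diag (d : Fin 26 → ℂ) (p : Polynomial ℂ) :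
    Polynomial.aeval (Matrix.diagonal d) p = Matrix.diagonal (fun x => p.eval (d x)) := by
  have h := Polynomial.aeval_algHom_apply (Matrix.diagonalAlgHom ℂ (n := Fin 26) (α := ℂ)) d p
  have e1 : (Matrix.diagonalAlgHom ℂ (n := Fin 26) (α := ℂ)) d = Matrix.diagonal d := rfl
  rw [e1] at h
  rw [h]
  have e2 : Polynomial.aeval d p = fun x => p.eval (d x) := by
    funext x
    rw [Polynomial.aeval_pi_apply₂]
    simp
  rw [e2]
  rfl

theorem inv_val {κ : Fin 13 × Fin 13 → ℝ} (e : ℝ) (hκ : ∀ s, 0 < κ s) (s : Fin 13 × Fin 13) :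
    Pool.Agent.Q202.TT.inv (pq s) (AA κ e) = κ s := by
  have hI := Complex.I_ne_zero
  have e1 : (1 / 2 : ℂ) • (AA κ e + (AA κ e)ᴴ) = Matrix.diagonal hh := by
    rw [AA_H]
    unfold AA
    module
  have e2 : (1 / (2 * Complex.I) : ℂ) • (AA κ e - (AA κ e)ᴴ) = KK κ e := by
    rw [AA_H]
    unfold AA
    have : Matrix.diagonal hh + Complex.I • KK κ e - (Matrix.diagonal hh - Complex.I • KK κ e) =
        (2 * Complex.I) • KK κ e := by module
    rw [this, smul_smul, one_div, inv_mul_cancel₀ (by simp), one_smul]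
  rw [Pool.Agent.Q202.TT.inv, e1, e2, aeval_diag, aeval_diag]
  have ht : Matrix.trace (Matrix.diagonal (fun x => (pq s).1.eval (hh x)) * KK κ e *
      Matrix.diagonal (fun x => (pq s).2.eval (hh x)) * KK κ e) = ((κ s : ℝ) : ℂ) := by
    have hent : ∀ (u w : Fin 26 → ℂ) (M : Matrix (Fin 26) (Fin 26) ℂ),
        Matrix.trace (Matrix.diagonal u * M * Matrix.diagonal w * M) =
          ∑ x, ∑ y, u x * M x y * w y * M y x := by
      intro u w M
      simp only [Matrix.trace, Matrix.diag_apply]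
      refine Finset.sum_congr rfl fun x _ => ?_
      rw [Matrix.mul_apply]
      refine Finset.sum_congr rfl fun y _ => ?_
      rw [Matrix.mul_diagonal, Matrix.diagonal_mul]
    rw [hent]
    simp only [pq, eval_basis]
    rw [Finset.sum_eq_single (i1 s.1)]
    · rw [Finset.sum_eq_single (i2 s.2)]
      · simp only [if_true, one_mul, mul_one]
        simp only [KK, Matrix.of_apply]
        rw [kk_symm κ e (i2 s.2), kk_val, ← Complex.ofReal_mul, Real.mul_self_sqrt (hκ s).le]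
      · intro b _ hb
        rw [if_neg (Ne.symm hb)]; simp
      · simp
    · intro b _ hb
      refine Finset.sum_eq_zero fun x _ => ?_
      rw [if_neg (Ne.symm hb)]; simp
    · simp
  rw [ht, Complex.ofReal_re]

/-- The negation of the preceding statement: For n at least 4, every complex symmetric n×n matrix with no two orthogonal nonzero eigenvectors is unitarily equivalent to a truncated Toeplitz operator, encoded via the compressed-shift model and Sarason's rank-two criterion M − TMT* = u⊗k + k⊗v. -/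
theorem result :
    ¬ (∀ n : ℕ, 4 ≤ n → ∀ M : Matrix (Fin n) (Fin n) ℂ, Mᵀ = M →
      (¬ ∃ x y : Fin n → ℂ, ∃ a b : ℂ, x ≠ 0 ∧ y ≠ 0 ∧
          M *ᵥ x = a • x ∧ M *ᵥ y = b • y ∧ star x ⬝ᵥ y = 0) →
      ∃ T : Matrix (Fin n) (Fin n) ℂ, ∃ k u v : Fin n → ℂ,
        1 - T * Tᴴ = Matrix.vecMulVec k (star k) ∧
        (∀ μ : ℂ, ∀ x : Fin n → ℂ, x ≠ 0 → T *ᵥ x = μ • x → ‖μ‖ < 1) ∧
        M - T * M * Tᴴ = Matrix.vecMulVec u (star k) + Matrix.vecMulVec k (star v)) := by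
  intro H
  set e : ℝ := 1 / 1000000 with he
  have he0 : 0 < e := by norm_num [he]
  -- a point outside the small set, in the open box
  have hopen : IsOpen {τ : Fin 13 × Fin 13 → ℝ | ∀ s, e ^ 2 < τ s ∧ τ s < (2 * e) ^ 2} := by
    have : {τ : Fin 13 × Fin 13 → ℝ | ∀ s, e ^ 2 < τ s ∧ τ s < (2 * e) ^ 2} =
        ⋂ s, {τ | e ^ 2 < τ s} ∩ {τ | τ s < (2 * e) ^ 2} := by
      ext τ; simp
    rw [this]
    exact isOpen_iInter_of_finite fun s => (isOpen_lt continuous_const (continuous_apply s)).inter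
      (isOpen_lt (continuous_apply s) continuous_const)
  obtain ⟨τ, hτb, hτ⟩ := (dense_compl_bad pq).inter_open_nonempty _ hopen
    ⟨fun _ => 2 * e ^ 2, fun _ => ⟨by nlinarith, by nlinarith⟩⟩
  have hτpos : ∀ s, 0 < τ s := fun s => lt_trans (by positivity) (hτb s).1
  have hKb : ∀ i j, e ≤ ‖KK τ e i j‖ ∧ ‖KK τ e i j‖ ≤ 2 * e := by
    intro i j
    have h1 := kk_bound he0 hτb i j
    rw [KK, Matrix.of_apply, Complex.norm_real, Real.norm_eq_abs, abs_of_pos (by linarith [h1.1])]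
    exact h1
  obtain ⟨T, k, u, v, h1, h2, h3⟩ := H 26 (by norm_num) (AA τ e) (AA_T τ e)
    (no_orth he0 le_rfl (fun i j => (hKb i j).2) (fun i j => (hKb i j).1) (KK_H τ e))
  obtain ⟨X, k', u', v', hX, hXM, hcyc⟩ := cayley h1 h2 h3
  obtain ⟨V, ξ, κ, a, d, hV1, hV2, hξ, hV⟩ := normal_form hX hXM hcyc
  apply hτ
  refine ⟨(ξ, κ, a, d, (∏ p ∈ prs 26, (ξ p.1 - ξ p.2))⁻¹), ?_⟩
  funext s
  simp only
  rw [BS_eq hξ, ← hV, inv_conj _ hV1 hV2, inv_val e hτpos]

end Pool.Agent.S03774
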