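import Pool.Statements.S04135
import Pool.Agent.Helper704.RB.E

set_option autoImplicit false
open MeasureTheory
open Pool Pool.MP_28e115_an

namespace Pool.Agent.S04135

open Set Filter Topology

/-- the length of a real function is at most its variation (as in `Pool.Agent.RM8c.int_deriv_le`) -/
theorem int_deriv_le (m : ℝ → ℝ) (a b : ℝ) (hab : a ≤ b) (hbv : eVariationOn m (Icc a b) ≠ ⊤) :
    IntervalIntegrable (deriv m) volume a b ∧
      ∫ s in a..b, |deriv m s| ≤ (eVariationOn m (Icc a b)).toReal := by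
  have hbv' : BoundedVariationOn m (Icc a b) := hbv
  have hloc : LocallyBoundedVariationOn m (Icc a b) := hbv'.locallyBoundedVariationOn
  have hint : IntervalIntegrable (deriv m) volume a b := by
    apply BoundedVariationOn.intervalIntegrable_deriv
    rw [uIcc_of_le hab]
    exact hbv'
  refine ⟨hint, ?_⟩
  have ha : a ∈ Icc a b := ⟨le_rfl, hab⟩
  set v : ℝ → ℝ := variationOnFromTo m (Icc a b) a with hv
  have hvm : MonotoneOn v (Icc a b) := variationOnFromTo.monotoneOn hloc ha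
  have hpm : MonotoneOn (v + m) (Icc a b) := variationOnFromTo.add_self_monotoneOn hloc ha
  have hqm : MonotoneOn (v - m) (Icc a b) := variationOnFromTo.sub_self_monotoneOn hloc ha
  have hvu : MonotoneOn v (uIcc a b) := by rw [uIcc_of_le hab]; exact hvm
  have hvint := hvu.intervalIntegrable_deriv
  have h1 : ∫ s in a..b, |deriv m s| ≤ ∫ s in a..b, deriv v s := by
    apply intervalIntegral.integral_mono_ae_restrict hab hint.abs hvint
    rw [Filter.EventuallyLE, MeasureTheory.ae_restrict_iff' measurableSet_Icc]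
    have hnb : ∀ᵐ x : ℝ, x ≠ b := by simp [ae_iff, measure_singleton]
    have hna : ∀ᵐ x : ℝ, x ≠ a := by simp [ae_iff, measure_singleton]
    filter_upwards [hvm.ae_differentiableWithinAt_of_mem, hpm.ae_differentiableWithinAt_of_mem,
      hna, hnb] with x hx1 hx2 hx3 hx4 hx
    have hxo : x ∈ Ioo a b := ⟨lt_of_le_of_ne hx.1 (Ne.symm hx3), lt_of_le_of_ne hx.2 hx4⟩
    have hnh : Icc a b ∈ 𝓝 x := Icc_mem_nhds hxo.1 hxo.2
    have dv : DifferentiableAt ℝ v x := (hx1 hx).differentiableAt hnh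
    have dp : DifferentiableAt ℝ (v + m) x := (hx2 hx).differentiableAt hnh
    have dm : DifferentiableAt ℝ m x := by
      have := dp.sub dv
      have e : v + m - v = m := by
        funext y
        simp
      rwa [e] at this
    have n1 : 0 ≤ deriv (v + m) x := by
      rw [← derivWithin_of_mem_nhds hnh]
      exact hpm.derivWithin_nonneg
    have n2 : 0 ≤ deriv (v - m) x := by
      rw [← derivWithin_of_mem_nhds hnh]
      exact hqm.derivWithin_nonneg
    rw [deriv_add dv dm] at n1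
    rw [deriv_sub dv dm] at n2
    exact abs_le.2 ⟨by linarith, by linarith⟩
  have h2 := hvu.intervalIntegral_deriv_mem_uIcc
  have h3 : 0 ≤ v b - v a := sub_nonneg.2 (hvm ha ⟨hab, le_rfl⟩ hab)
  rw [uIcc_of_le h3] at h2
  have h4 : v b - v a = (eVariationOn m (Icc a b)).toReal := by
    rw [hv, variationOnFromTo.self, variationOnFromTo.eq_of_le _ _ hab, Set.inter_self, sub_zero]
  linarith [h2.2]

theorem lint_deriv_le (m : ℝ → ℝ) (a b : ℝ) (hab : a ≤ b) (V : ENNReal) (hV : V ≠ ⊤)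
    (hbv : eVariationOn m (Icc a b) ≤ V) :
    ∫⁻ s in Ioo a b, ‖deriv m s‖ₑ ≤ V := by
  have hne : eVariationOn m (Icc a b) ≠ ⊤ := ne_top_of_le_ne_top hV hbv
  obtain ⟨h1, h2⟩ := int_deriv_le m a b hab hne
  have h3 : ∫⁻ s in Ioo a b, ‖deriv m s‖ₑ = ENNReal.ofReal (∫ s in a..b, |deriv m s|) := by
    rw [intervalIntegral.integral_of_le hab]
    have h4 : IntegrableOn (fun s => |deriv m s|) (Ioc a b) :=
      (intervalIntegrable_iff_integrableOn_Ioc_of_le hab).1 h1.abs
    rw [ofReal_integral_eq_lintegral_ofReal h4 (Filter.Eventually.of_forall fun x => abs_nonneg _)]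
    rw [setLIntegral_congr Ioo_ae_eq_Ioc]
    refine lintegral_congr fun x => ?_
    rw [← Real.norm_eq_abs, ofReal_norm]
  rw [h3]
  calc ENNReal.ofReal (∫ s in a..b, |deriv m s|)
      ≤ ENNReal.ofReal ((eVariationOn m (Icc a b)).toReal) := ENNReal.ofReal_le_ofReal h2
    _ = eVariationOn m (Icc a b) := ENNReal.ofReal_toReal hne
    _ ≤ V := hbv

/-- a complex curve of finite variation has finite length -/
theorem length_le (γ : ℝ → ℂ) (hγ : ∀ r ∈ Ioo (0:ℝ) 1, DifferentiableAt ℝ γ r)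
    (hV : eVariationOn γ (Ico 0 1) ≠ ⊤) : ∫⁻ r in Ioo (0:ℝ) 1, ‖deriv γ r‖ₑ ≠ ⊤ := by
  set V := eVariationOn γ (Ico 0 1) with hVdef
  have hre : ∀ b ∈ Ioo (0:ℝ) 1, ∫⁻ s in Ioo 0 b, ‖deriv (fun t => (γ t).re) s‖ₑ ≤ V := by
    intro b hb
    apply lint_deriv_le _ _ _ hb.1.le _ hV
    calc eVariationOn (fun t => (γ t).re) (Icc 0 b) ≤ eVariationOn γ (Icc 0 b) := by
          have hL : LipschitzOnWith 1 Complex.re univ := by
            apply LipschitzWith.lipschitzOnWith
            apply LipschitzWith.of_dist_le_mul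
            intro x y
            rw [Real.dist_eq, Complex.dist_eq, ← Complex.sub_re, NNReal.coe_one, one_mul]
            exact Complex.abs_re_le_norm _
          have := hL.comp_eVariationOn_le (g := γ) (s := Icc 0 b) (mapsTo_univ _ _)
          simpa [Function.comp_def] using this
      _ ≤ V := eVariationOn.mono _ (Icc_subset_Ico_right hb.2)
  have him : ∀ b ∈ Ioo (0:ℝ) 1, ∫⁻ s in Ioo 0 b, ‖deriv (fun t => (γ t).im) s‖ₑ ≤ V := by
    intro b hb
    apply lint_deriv_le _ _ _ hb.1.le _ hV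
    calc eVariationOn (fun t => (γ t).im) (Icc 0 b) ≤ eVariationOn γ (Icc 0 b) := by
          have hL : LipschitzOnWith 1 Complex.im univ := by
            apply LipschitzWith.lipschitzOnWith
            apply LipschitzWith.of_dist_le_mul
            intro x y
            rw [Real.dist_eq, Complex.dist_eq, ← Complex.sub_im, NNReal.coe_one, one_mul]
            exact Complex.abs_im_le_norm _
          have := hL.comp_eVariationOn_le (g := γ) (s := Icc 0 b) (mapsTo_univ _ _)
          simpa [Function.comp_def] using this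
      _ ≤ V := eVariationOn.mono _ (Icc_subset_Ico_right hb.2)
  have hb2 : ∀ b ∈ Ioo (0:ℝ) 1, ∫⁻ s in Ioo 0 b, ‖deriv γ s‖ₑ ≤ V + V := by
    intro b hb
    calc ∫⁻ s in Ioo 0 b, ‖deriv γ s‖ₑ
        ≤ ∫⁻ s in Ioo 0 b, (‖deriv (fun t => (γ t).re) s‖ₑ + ‖deriv (fun t => (γ t).im) s‖ₑ) := by
          apply setLIntegral_mono' measurableSet_Ioo
          intro s hs
          have hd := (hγ s ⟨hs.1, hs.2.trans hb.2⟩).hasDerivAt
          have h1 : HasDerivAt (fun t => (γ t).re) (deriv γ s).re s :=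
            (Complex.reCLM.hasFDerivAt.comp_hasDerivAt s hd)
          have h2 : HasDerivAt (fun t => (γ t).im) (deriv γ s).im s :=
            (Complex.imCLM.hasFDerivAt.comp_hasDerivAt s hd)
          rw [h1.deriv, h2.deriv, ← ofReal_norm, ← ofReal_norm,
            ← ofReal_norm, ← ENNReal.ofReal_add (norm_nonneg _) (norm_nonneg _)]
          exact ENNReal.ofReal_le_ofReal (Complex.norm_le_abs_re_add_abs_im _)
      _ = (∫⁻ s in Ioo 0 b, ‖deriv (fun t => (γ t).re) s‖ₑ) +
          ∫⁻ s in Ioo 0 b, ‖deriv (fun t => (γ t).im) s‖ₑ :=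
          lintegral_add_left (measurable_deriv _).enorm _
      _ ≤ V + V := add_le_add (hre b hb) (him b hb)
  have hmono : Monotone (fun n : ℕ => Ioo (0:ℝ) (1 - 1 / ((n:ℝ) + 2))) := by
    intro m n hmn
    apply Ioo_subset_Ioo_right
    have : (m:ℝ) ≤ n := by exact_mod_cast hmn
    gcongr
  have hU : (⋃ n : ℕ, Ioo (0:ℝ) (1 - 1 / ((n:ℝ) + 2))) = Ioo (0:ℝ) 1 := by
    ext r
    simp only [mem_iUnion, mem_Ioo]
    constructor
    · rintro ⟨n, h1, h2⟩
      refine ⟨h1, h2.trans_le ?_⟩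
      have : (0:ℝ) ≤ 1 / ((n:ℝ) + 2) := by positivity
      linarith
    · rintro ⟨h1, h2⟩
      obtain ⟨n, hn⟩ := exists_nat_gt (1 / (1 - r))
      refine ⟨n, h1, ?_⟩
      have h3 : 0 < 1 - r := by linarith
      have h4 : 1 / ((n:ℝ) + 2) < 1 - r := by
        rw [div_lt_comm₀ (by positivity) h3]
        linarith
      linarith
  have hfin : ∫⁻ r in Ioo (0:ℝ) 1, ‖deriv γ r‖ₑ ≤ V + V := by
    rw [← hU, setLIntegral_iUnion_of_directed _ hmono.directed_le]
    apply iSup_le
    intro n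
    apply hb2
    constructor
    · have : 1 / ((n:ℝ) + 2) < 1 := by
        rw [div_lt_one (by positivity)]
        have : (0:ℝ) ≤ n := by positivity
        linarith
      linarith
    · have : (0:ℝ) < 1 / ((n:ℝ) + 2) := by positivity
      linarith
  exact ne_top_of_le_ne_top (ENNReal.add_ne_top.2 ⟨hV, hV⟩) hfin

/-- For every n ≥ 2 there is a bounded holomorphic function on the unit ball of ℂⁿ whose restriction to almost every radius r ↦ f(rζ), 0 ≤ r < 1, has infinite total variation, i.e. a nonrectifiable image. -/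
theorem result :
    ∀ n : ℕ, 2 ≤ n →
      ∃ f : (Fin n → ℂ) → ℂ,
        DifferentiableOn ℂ f {z : Fin n → ℂ | ∑ i, ‖z i‖ ^ 2 < 1} ∧
        (∃ M : ℝ, ∀ z ∈ {z : Fin n → ℂ | ∑ i, ‖z i‖ ^ 2 < 1}, ‖f z‖ ≤ M) ∧
        ∀ᵐ x ∂(volume : Measure (Fin n → ℂ)),
          eVariationOn
            (fun r : ℝ => f ((((r / Real.sqrt (∑ i, ‖x i‖ ^ 2) : ℝ)) : ℂ) • x))
            (Set.Ico (0 : ℝ) 1) = ⊤ := by
  intro n hn
  have : NeZero n := ⟨by omega⟩
  set E := EuclideanSpace ℂ (Fin n) with hE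
  have hnorm : ∀ x : Fin n → ℂ, ‖(WithLp.toLp 2 x : E)‖ = Real.sqrt (∑ i, ‖x i‖ ^ 2) := by
    intro x
    rw [EuclideanSpace.norm_eq]
  set e₀ : E := EuclideanSpace.single (0 : Fin n) (1:ℂ) with he₀
  have he₀n : ‖e₀‖ = 1 := by rw [he₀, EuclideanSpace.norm_single, norm_one]
  -- the normalisation map
  classical
  set N : (Fin n → ℂ) → E := fun x => if x = 0 then e₀ else
    (((1 / ‖(WithLp.toLp 2 x : E)‖ : ℝ)) : ℂ) • (WithLp.toLp 2 x : E) with hN
  have hN1 : ∀ x, ‖N x‖ = 1 := by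
    intro x
    by_cases hx : x = 0
    · simp only [hN, hx, if_true]; exact he₀n
    · simp only [hN, hx, if_false]
      have hx' : (WithLp.toLp 2 x : E) ≠ 0 := by
        intro h
        apply hx
        have := congrArg (fun y : E => (y : Fin n → ℂ)) h
        simpa using this
      have hpos := norm_pos_iff.2 hx'
      rw [norm_smul, Complex.norm_real, Real.norm_of_nonneg (by positivity)]
      field_simp
  set Ns : (Fin n → ℂ) → Metric.sphere (0 : E) 1 := fun x => ⟨N x, by simp [hN1 x]⟩ with hNs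
  have hmeasN : Measurable N := by
    apply Measurable.ite (measurableSet_singleton (0 : Fin n → ℂ)) measurable_const
    have hm : Measurable (fun x : Fin n → ℂ => (WithLp.toLp 2 x : E)) :=
      (PiLp.continuous_toLp 2 (fun _ : Fin n => ℂ)).measurable
    have hm2 : Measurable (fun x : Fin n → ℂ => (((1 / ‖(WithLp.toLp 2 x : E)‖ : ℝ)) : ℂ)) := by
      have := hm.norm
      fun_prop
    exact hm2.smul hm
  have hmeas : Measurable Ns := hmeasN.subtype_mk
  set ν : Measure (Fin n → ℂ) := (volume : Measure (Fin n → ℂ)).toFinite with hν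
  obtain ⟨g, hg1, hg2, hg3⟩ := Pool.Agent.Helper704.RadBall.main (n := n) (by omega) (ν.map Ns)
  refine ⟨fun x => g (WithLp.toLp 2 x), ?_, ⟨1, ?_⟩, ?_⟩
  · have h1 : DifferentiableOn ℂ (fun x : Fin n → ℂ => (WithLp.toLp 2 x : E))
        {z : Fin n → ℂ | ∑ i, ‖z i‖ ^ 2 < 1} :=
      (EuclideanSpace.equiv (Fin n) ℂ).symm.differentiable.differentiableOn
    refine hg1.comp h1 ?_
    intro x hx
    rw [mem_ball_zero_iff, hnorm, Real.sqrt_lt' one_pos, one_pow]
    exact hx
  · intro z hz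
    apply hg2
    rw [mem_ball_zero_iff, hnorm, Real.sqrt_lt' one_pos, one_pow]
    exact hz
  · have h1 : ∀ᵐ x ∂ν, ∫⁻ r in Set.Ioo (0 : ℝ) 1,
        ‖deriv (fun t : ℝ => g ((t : ℂ) • ((Ns x : Metric.sphere (0:E) 1) : E))) r‖ₑ = ⊤ :=
      ae_of_ae_map hmeas.aemeasurable hg3
    have h2 : ∀ᵐ x ∂(volume : Measure (Fin n → ℂ)), ∫⁻ r in Set.Ioo (0 : ℝ) 1,
        ‖deriv (fun t : ℝ => g ((t : ℂ) • ((Ns x : Metric.sphere (0:E) 1) : E))) r‖ₑ = ⊤ :=
      (absolutelyContinuous_toFinite _).ae_le h1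
    have h3 : ∀ᵐ x ∂(volume : Measure (Fin n → ℂ)), x ≠ 0 := by
      simp [ae_iff, measure_singleton]
    filter_upwards [h2, h3] with x hx hx0
    by_contra hcon
    have hcurve : (fun r : ℝ => g (WithLp.toLp 2 ((((r / Real.sqrt (∑ i, ‖x i‖ ^ 2) : ℝ)) : ℂ) • x))) =
        fun t : ℝ => g ((t : ℂ) • ((Ns x : Metric.sphere (0:E) 1) : E)) := by
      funext t
      congr 1
      simp only [hNs, hN, hx0, if_false]
      rw [← hnorm, smul_smul, ← Complex.ofReal_mul, mul_one_div]
      rfl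
    rw [hcurve] at hcon
    refine length_le _ ?_ hcon hx
    intro r hr
    have hmem : (r : ℂ) • ((Ns x : Metric.sphere (0:E) 1) : E) ∈ Metric.ball (0:E) 1 := by
      rw [mem_ball_zero_iff, norm_smul, Complex.norm_real, Real.norm_of_nonneg hr.1.le]
      have : ‖((Ns x : Metric.sphere (0:E) 1) : E)‖ = 1 := hN1 x
      rw [this, mul_one]
      exact hr.2
    have hgd : DifferentiableAt ℂ g ((r : ℂ) • ((Ns x : Metric.sphere (0:E) 1) : E)) :=
      (hg1 _ hmem).differentiableAt (Metric.isOpen_ball.mem_nhds hmem)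
    have hgr : DifferentiableAt ℝ g ((r : ℂ) • ((Ns x : Metric.sphere (0:E) 1) : E)) :=
      hgd.restrictScalars ℝ
    have hlin : DifferentiableAt ℝ (fun t : ℝ => (t : ℂ) • ((Ns x : Metric.sphere (0:E) 1) : E)) r := by
      have h5 : DifferentiableAt ℝ (fun t : ℝ => (t : ℂ)) r := Complex.ofRealCLM.differentiableAt
      exact h5.smul_const _
    exact DifferentiableAt.comp r hgr hlin

end Pool.Agent.S04135
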