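import Pool.Statements.S04252

set_option autoImplicit false
open Filter Topology
open Pool Pool.MP_309e42_an

namespace Pool.Agent.S04252

/-- the coefficients of `sin √z / √z` -/
noncomputable def cf (n : ℕ) : ℂ := (-1) ^ n / ((2 * n + 1).factorial : ℂ)

/-- `sin √z / √z` -/
noncomputable def g (z : ℂ) : ℂ := (FormalMultilinearSeries.ofScalars ℂ cf).sum z

theorem cf_ne (n : ℕ) : cf n ≠ 0 := by
  unfold cf
  exact div_ne_zero (pow_ne_zero _ (by norm_num)) (by exact_mod_cast (Nat.factorial_ne_zero _))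

theorem norm_cf (n : ℕ) : ‖cf n‖ = 1 / ((2 * n + 1).factorial : ℝ) := by
  unfold cf
  rw [norm_div, norm_pow, norm_neg, norm_one, one_pow, Complex.norm_natCast]

theorem radius : (FormalMultilinearSeries.ofScalars ℂ cf).radius = ⊤ := by
  apply FormalMultilinearSeries.ofScalars_radius_eq_top_of_tendsto
  · exact Eventually.of_forall cf_ne
  · have h1 : ∀ n : ℕ, ‖cf n.succ‖ / ‖cf n‖ ≤ 1 / ((n : ℝ) + 1) := by
      intro n
      rw [norm_cf, norm_cf]
      have e : ((2 * n.succ + 1).factorial : ℝ) = (2 * n + 3) * ((2 * n + 2) *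
          ((2 * n + 1).factorial : ℝ)) := by
        rw [show 2 * n.succ + 1 = (2 * n + 1) + 1 + 1 by omega, Nat.factorial_succ,
          Nat.factorial_succ]
        push_cast
        ring
      have hp : (0 : ℝ) < ((2 * n + 1).factorial : ℝ) := by exact_mod_cast Nat.factorial_pos _
      rw [e]
      have : (1 / ((2 * (n : ℝ) + 3) * ((2 * n + 2) * ((2 * n + 1).factorial : ℝ)))) /
          (1 / ((2 * n + 1).factorial : ℝ)) = 1 / ((2 * n + 3) * (2 * n + 2)) := by
        field_simp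
      rw [this]
      apply one_div_le_one_div_of_le (by positivity)
      nlinarith [(Nat.cast_nonneg n : (0 : ℝ) ≤ n)]
    refine squeeze_zero (fun n => by positivity) h1 ?_
    exact tendsto_one_div_add_atTop_nhds_zero_nat

theorem g_series : HasFPowerSeriesOnBall g (FormalMultilinearSeries.ofScalars ℂ cf) 0 ⊤ := by
  have h := (FormalMultilinearSeries.ofScalars ℂ cf).hasFPowerSeriesOnBall (by rw [radius]; simp)
  rw [radius] at h
  exact h

theorem g_eq (z : ℂ) : g z = ∑' n, cf n * z ^ n := by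
  unfold g FormalMultilinearSeries.sum
  refine tsum_congr (fun n => ?_)
  rw [FormalMultilinearSeries.ofScalars_apply_eq, smul_eq_mul]

theorem g_diff : Differentiable ℂ g := by
  intro z
  exact (g_series.analyticAt_of_mem (by simp)).differentiableAt

theorem g_deriv (n : ℕ) : iteratedDeriv n g 0 ≠ 0 := by
  have h := g_series.factorial_smul (1 : ℂ) n
  rw [FormalMultilinearSeries.ofScalars_apply_eq] at h
  rw [iteratedDeriv_eq_iteratedFDeriv]
  rw [← h]
  simp [cf_ne, Nat.factorial_ne_zero]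

theorem norm_g (z : ℂ) : ‖g z‖ ≤ Real.exp (√‖z‖) := by
  rw [g_eq]
  have hs := Real.hasSum_cosh (√‖z‖)
  have hle : ∀ n, ‖cf n * z ^ n‖ ≤ √‖z‖ ^ (2 * n) / ((2 * n).factorial : ℝ) := by
    intro n
    rw [norm_mul, norm_cf, norm_pow, pow_mul, Real.sq_sqrt (norm_nonneg _), one_div_mul_eq_div]
    gcongr
    omega
  refine (tsum_of_norm_bounded hs hle).trans ?_
  rw [Real.cosh_eq]
  have : Real.exp (-√‖z‖) ≤ Real.exp (√‖z‖) := by
    apply Real.exp_le_exp.2
    have := Real.sqrt_nonneg ‖z‖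
    linarith
  linarith

theorem g_sq (t : ℝ) : g ((t : ℂ) ^ 2) * t = Complex.sin t := by
  rw [g_eq, ← tsum_mul_right]
  rw [← (Complex.hasSum_sin (t : ℂ)).tsum_eq]
  refine tsum_congr (fun n => ?_)
  unfold cf
  rw [← pow_mul]
  ring

theorem card_eq (t : ℝ) (ht : 0 ≤ t) :
    Nat.card {n : ℕ // iteratedDeriv n g 0 ≠ 0 ∧ (n : ℝ) ≤ t} = ⌊t⌋₊ + 1 := by
  have e : {n : ℕ | iteratedDeriv n g 0 ≠ 0 ∧ (n : ℝ) ≤ t} = Set.Iic ⌊t⌋₊ := by
    ext n
    simp only [Set.mem_ofPred_eq, Set.mem_Iic]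
    rw [Nat.le_floor_iff ht]
    exact ⟨fun h => h.2, fun h => ⟨g_deriv n, h⟩⟩
  have e2 : Nat.card {n : ℕ // iteratedDeriv n g 0 ≠ 0 ∧ (n : ℝ) ≤ t} =
      Nat.card (Set.Iic ⌊t⌋₊) := by
    rw [← e]; rfl
  rw [e2]
  simp

theorem result :
    ¬ (∀ f : ℂ → ℂ, Differentiable ℂ f → (∃ z w : ℂ, f z ≠ f w) →
    ∀ ρ Δ : ℝ,
      (∀ ε : ℝ, 0 < ε → ∀ᶠ r : ℝ in atTop, ∀ z : ℂ, ‖z‖ = r →
          ‖f z‖ ≤ Real.exp (r ^ (ρ + ε))) →
      Tendsto (fun ξ : ℝ => Filter.limsup (fun t : ℝ =>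
          (((Nat.card {n : ℕ // iteratedDeriv n f 0 ≠ 0 ∧ (n : ℝ) ≤ t} : ℕ) : ℝ) -
            ((Nat.card {n : ℕ // iteratedDeriv n f 0 ≠ 0 ∧ (n : ℝ) ≤ ξ * t} : ℕ) : ℝ)) /
            ((1 - ξ) * t)) atTop)
        (𝓝[<] (1 : ℝ)) (𝓝 Δ) →
      ρ * Δ < 1 →
      ¬ ∃ a : ℂ, ∃ γ : ℝ → ℂ, Continuous γ ∧
          Tendsto (fun t : ℝ => ‖γ t‖) atTop atTop ∧
          Tendsto (fun t : ℝ => f (γ t)) atTop (𝓝 a)) := by
  intro H
  refine H g g_diff ?_ (1 / 2) 1 ?_ ?_ (by norm_num) ?_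
  · -- non-constant
    refine ⟨0, ((Real.pi : ℝ) : ℂ) ^ 2, ?_⟩
    have h0 : g 0 = 1 := by
      rw [g_eq, tsum_eq_single 0]
      · simp [cf]
      · intro n hn
        rw [zero_pow hn, mul_zero]
    have h1 : g (((Real.pi : ℝ) : ℂ) ^ 2) = 0 := by
      have := g_sq Real.pi
      rw [Complex.sin_pi] at this
      rcases mul_eq_zero.1 this with h | h
      · exact h
      · exact absurd h (by exact_mod_cast Real.pi_ne_zero)
    rw [h0, h1]
    exact one_ne_zero
  · intro ε hε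
    filter_upwards [eventually_ge_atTop (1 : ℝ)] with r hr z hz
    refine (norm_g z).trans (Real.exp_le_exp.2 ?_)
    rw [hz, Real.sqrt_eq_rpow]
    exact Real.rpow_le_rpow_of_exponent_le hr (by linarith)
  · -- density one
    have h1 : ∀ ξ ∈ Set.Ioo (0 : ℝ) 1, Filter.limsup (fun t : ℝ =>
          (((Nat.card {n : ℕ // iteratedDeriv n g 0 ≠ 0 ∧ (n : ℝ) ≤ t} : ℕ) : ℝ) -
            ((Nat.card {n : ℕ // iteratedDeriv n g 0 ≠ 0 ∧ (n : ℝ) ≤ ξ * t} : ℕ) : ℝ)) /
            ((1 - ξ) * t)) atTop = 1 := by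
      intro ξ hξ
      apply Tendsto.limsup_eq
      have hξ1 : 0 < 1 - ξ := by linarith [hξ.2]
      have hlim : Tendsto (fun t : ℝ => 1 / ((1 - ξ) * t)) atTop (𝓝 0) := by
        have : Tendsto (fun t : ℝ => (1 - ξ) * t) atTop atTop :=
          tendsto_id.const_mul_atTop hξ1
        refine this.inv_tendsto_atTop.congr (fun t => ?_)
        rw [Pi.inv_apply, one_div]
      have hlo : Tendsto (fun t : ℝ => 1 - 1 / ((1 - ξ) * t)) atTop (𝓝 1) := by
        simpa using hlim.const_sub 1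
      have hhi : Tendsto (fun t : ℝ => 1 + 1 / ((1 - ξ) * t)) atTop (𝓝 1) := by
        simpa using hlim.const_add 1
      refine tendsto_of_tendsto_of_tendsto_of_le_of_le' hlo hhi ?_ ?_
      · filter_upwards [eventually_gt_atTop (0 : ℝ)] with t ht
        rw [card_eq t ht.le, card_eq (ξ * t) (by nlinarith [hξ.1])]
        have h2 := Nat.lt_floor_add_one t
        have h3 := Nat.floor_le (a := ξ * t) (by nlinarith [hξ.1])
        have hpos : 0 < (1 - ξ) * t := by positivity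
        rw [le_div_iff₀ hpos]
        have : (1 - 1 / ((1 - ξ) * t)) * ((1 - ξ) * t) = (1 - ξ) * t - 1 := by
          field_simp
        rw [this]
        push_cast
        linarith
      · filter_upwards [eventually_gt_atTop (0 : ℝ)] with t ht
        rw [card_eq t ht.le, card_eq (ξ * t) (by nlinarith [hξ.1])]
        have h2 := Nat.lt_floor_add_one (ξ * t)
        have h3 := Nat.floor_le (a := t) ht.le
        have hpos : 0 < (1 - ξ) * t := by positivity
        rw [div_le_iff₀ hpos]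
        have : (1 + 1 / ((1 - ξ) * t)) * ((1 - ξ) * t) = (1 - ξ) * t + 1 := by
          field_simp
        rw [this]
        push_cast
        linarith
    refine Tendsto.congr' ?_ tendsto_const_nhds
    have : Set.Ioo (0 : ℝ) 1 ∈ 𝓝[<] (1 : ℝ) := Ioo_mem_nhdsLT (by norm_num)
    filter_upwards [this] with ξ hξ
    exact (h1 ξ hξ).symm
  · refine ⟨0, fun t => (t : ℂ) ^ 2, by fun_prop, ?_, ?_⟩
    · have : (fun t : ℝ => ‖((t : ℂ) ^ 2)‖) = fun t => t ^ 2 := by
        funext t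
        rw [norm_pow, Complex.norm_real, Real.norm_eq_abs, sq_abs]
      rw [this]
      exact tendsto_pow_atTop (by norm_num)
    · have hlim : Tendsto (fun t : ℝ => t⁻¹) atTop (𝓝 0) := tendsto_inv_atTop_zero
      refine squeeze_zero_norm' ?_ hlim
      filter_upwards [eventually_gt_atTop (0 : ℝ)] with t ht
      have h1 := g_sq t
      have h2 : ‖g ((t : ℂ) ^ 2)‖ * t ≤ 1 := by
        have h3 : ‖g ((t : ℂ) ^ 2) * t‖ = ‖g ((t : ℂ) ^ 2)‖ * t := by
          rw [norm_mul, Complex.norm_real, Real.norm_of_nonneg ht.le]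
        rw [← h3, h1, ← Complex.ofReal_sin, Complex.norm_real, Real.norm_eq_abs]
        exact Real.abs_sin_le_one t
      rw [← one_div, le_div_iff₀ ht]
      exact h2

end Pool.Agent.S04252
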