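import Pool.Statements.S04283
import Pool.Agent.Q179.BLT.Ana

set_option autoImplicit false
open MeasureTheory
open Pool Pool.MP_32c791_an

namespace Pool.Agent.S04283

/-- For every dimension d and every lattice M·Z^{2d} in R^{2d}, if the Gabor system of g in L^2(R^d) over that lattice is a Riesz basis, then ∣x∣g is not in L^2 or g is not in H^1, i.e. ∣ξ∣ĝ is not in L^2. -/
theorem result :
  ∀ (d : ℕ), 0 < d →
  ∀ (M : Matrix (Fin d ⊕ Fin d) (Fin d ⊕ Fin d) ℝ), M.det ≠ 0 →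
  ∀ (g : (Fin d → ℝ) → ℂ), MemLp g 2 volume →
  ((∀ h : (Fin d → ℝ) → ℂ, MemLp h 2 volume →
      (∀ k : Fin d ⊕ Fin d → ℤ,
        ∫ x, (starRingEnd ℂ) (h x) *
          (Complex.exp (2 * (Real.pi : ℂ) * Complex.I *
              ((∑ j, Matrix.mulVec M (fun i => ((k i : ℤ) : ℝ)) (Sum.inr j) * x j : ℝ) : ℂ)) *
            g (x - fun j => Matrix.mulVec M (fun i => ((k i : ℤ) : ℝ)) (Sum.inl j))) = 0) →
      h =ᵐ[volume] 0) ∧
    ∃ A B : ℝ, 0 < A ∧ 0 < B ∧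
      ∀ (s : Finset (Fin d ⊕ Fin d → ℤ)) (c : (Fin d ⊕ Fin d → ℤ) → ℂ),
        A * ∑ k ∈ s, ‖c k‖ ^ 2 ≤
          ∫ x, ‖∑ k ∈ s, c k *
            (Complex.exp (2 * (Real.pi : ℂ) * Complex.I *
                ((∑ j, Matrix.mulVec M (fun i => ((k i : ℤ) : ℝ)) (Sum.inr j) * x j : ℝ) : ℂ)) *
              g (x - fun j => Matrix.mulVec M (fun i => ((k i : ℤ) : ℝ)) (Sum.inl j)))‖ ^ 2 ∧
        ∫ x, ‖∑ k ∈ s, c k *
            (Complex.exp (2 * (Real.pi : ℂ) * Complex.I *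
                ((∑ j, Matrix.mulVec M (fun i => ((k i : ℤ) : ℝ)) (Sum.inr j) * x j : ℝ) : ℂ)) *
              g (x - fun j => Matrix.mulVec M (fun i => ((k i : ℤ) : ℝ)) (Sum.inl j)))‖ ^ 2
          ≤ B * ∑ k ∈ s, ‖c k‖ ^ 2) →
  ¬ (Integrable (fun x : Fin d → ℝ => (∑ j, x j ^ 2) * ‖g x‖ ^ 2) volume ∧
     ∀ j : Fin d, ∃ h : (Fin d → ℝ) → ℂ, MemLp h 2 volume ∧
       ∀ φ : (Fin d → ℝ) → ℂ, ContDiff ℝ ((⊤ : ℕ∞) : WithTop ℕ∞) φ → HasCompactSupport φ →
         ∫ x, g x * fderiv ℝ φ x (Pi.single j (1 : ℝ) : Fin d → ℝ) = - ∫ x, h x * φ x) := by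
  rintro d hd M hM g hg ⟨hcomp, A, B, hA, hB, hR⟩ ⟨hint, hder⟩
  classical
  -- the lattice
  let L : (Fin d ⊕ Fin d → ℤ) →+ Pool.Agent.Q179.BLT.TF d :=
    { toFun := fun k => (fun j => Matrix.mulVec M (fun i => ((k i : ℤ) : ℝ)) (Sum.inl j),
        fun j => Matrix.mulVec M (fun i => ((k i : ℤ) : ℝ)) (Sum.inr j))
      map_zero' := by
        ext j <;> simp [Matrix.mulVec, dotProduct]
      map_add' := by
        intro k l
        ext j <;> simp [Matrix.mulVec, dotProduct, mul_add, Finset.sum_add_distrib] }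
  let f : (Fin d ⊕ Fin d → ℤ) → (Fin d → ℝ) → ℂ := fun k => Pool.Agent.Q179.BLT.sh (L k) g
  have hf : ∀ k, MemLp (f k) 2 volume := fun k => Pool.Agent.Q179.BLT.sh_memLp (L k) hg
  have hfx : ∀ k x, f k x = Complex.exp (2 * (Real.pi : ℂ) * Complex.I *
              ((∑ j, Matrix.mulVec M (fun i => ((k i : ℤ) : ℝ)) (Sum.inr j) * x j : ℝ) : ℂ)) *
            g (x - fun j => Matrix.mulVec M (fun i => ((k i : ℤ) : ℝ)) (Sum.inl j)) := by
    intro k x
    simp only [f, Pool.Agent.Q179.BLT.sh, Pool.Agent.Q179.BLT.E]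
    congr 2
    simp only [L, AddMonoidHom.coe_mk, ZeroHom.coe_mk, dotProduct]
    push_cast
    ring
  simp only [← hfx] at hcomp hR
  have hP : ∀ k, Pool.Agent.Q179.BLT.P (L k) (hg.toLp g) = (hf k).toLp (f k) := fun k =>
    Pool.Agent.Q179.BLT.P_toLp (L k) hg
  let j : Fin d := ⟨0, hd⟩
  obtain ⟨h, hh, hw⟩ := hder j
  -- the moment
  have hxg : MemLp (fun x : Fin d → ℝ => 2 * Real.pi * Complex.I * x j * g x) 2 volume := by
    have hmeas : AEStronglyMeasurable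
        (fun x : Fin d → ℝ => 2 * Real.pi * Complex.I * x j * g x) volume := by
      have h1 : Continuous fun x : Fin d → ℝ => 2 * (Real.pi : ℂ) * Complex.I * (x j : ℂ) := by
        fun_prop
      exact h1.aestronglyMeasurable.mul hg.1
    rw [memLp_two_iff_integrable_sq_norm hmeas]
    refine (hint.const_mul ((2 * Real.pi) ^ 2)).mono' (hmeas.norm.pow 2)
      (Filter.Eventually.of_forall fun x => ?_)
    rw [Real.norm_of_nonneg (by positivity), norm_mul, norm_mul, norm_mul, norm_mul,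
      Complex.norm_I, Complex.norm_real, Complex.norm_real, Complex.norm_two, Real.norm_eq_abs,
      Real.norm_eq_abs, abs_of_pos Real.pi_pos]
    have h1 : x j ^ 2 ≤ ∑ i, x i ^ 2 :=
      Finset.single_le_sum (f := fun i => x i ^ 2) (fun _ _ => sq_nonneg _) (Finset.mem_univ j)
    have h2 : (2 * Real.pi * 1 * |x j| * ‖g x‖) ^ 2 =
        (2 * Real.pi) ^ 2 * (x j ^ 2 * ‖g x‖ ^ 2) := by
      rw [← sq_abs (x j)]; ring
    rw [h2]
    gcongr
  refine Pool.Agent.Q179.BLT.abstract_blt (K := Fin d ⊕ Fin d → ℤ)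
    Pool.Agent.Q179.BLT.isRep (p := Pool.Agent.Q179.BLT.pv j) (q := Pool.Agent.Q179.BLT.qv j)
    (by simp [Pool.Agent.Q179.BLT.pv]) (by simp [Pool.Agent.Q179.BLT.qv])
    (by simp [Pool.Agent.Q179.BLT.pv, Pool.Agent.Q179.BLT.qv])
    (by simp [Pool.Agent.Q179.BLT.pv, Pool.Agent.Q179.BLT.qv]) L (hg.toLp g) (hxg.toLp _)
    hA hB.le ?_ ?_ ?_ (Pool.Agent.Q179.BLT.mod_tendsto hg j hxg) ‖hh.toLp h‖
    (Pool.Agent.Q179.BLT.trans_lip hg hh j hw)
  · intro s c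
    simp only [hP]
    rw [Pool.Agent.Q179.BLT.norm_sum_sq s c f hf]
    exact (hR s c).1
  · intro s c
    simp only [hP]
    rw [Pool.Agent.Q179.BLT.norm_sum_sq s c f hf]
    exact (hR s c).2
  · rw [Submodule.dense_iff_topologicalClosure_eq_top, Submodule.topologicalClosure_eq_top_iff,
      Submodule.eq_bot_iff]
    intro u hu
    have h1 : ∀ k, ∫ x, (starRingEnd ℂ) (u x) * f k x = 0 := by
      intro k
      have h2 : inner ℂ u ((hf k).toLp (f k)) = 0 := by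
        have h4 : inner ℂ u (Pool.Agent.Q179.BLT.P (L k) (hg.toLp g)) = 0 :=
          (Submodule.mem_orthogonal' _ u).1 hu _ (Submodule.subset_span ⟨k, rfl⟩)
        rwa [hP] at h4
      have h3 := Pool.Agent.Q179.BLT.inner_toLp (Lp.memLp u) (hf k)
      rw [Lp.toLp_coeFn, h2] at h3
      exact h3.symm
    have h2 := hcomp u (Lp.memLp u) h1
    apply Lp.ext
    exact h2.trans (Lp.coeFn_zero _ _ _).symm

end Pool.Agent.S04283
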