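-- The mathematical content is the starting helper theorem `Pool.Agent.H352R4.CA.alpha_remove`.
import Pool.Statements.S04503
import Pool.Agent.H352R4.CA.End

set_option autoImplicit false
open Filter Topology
open scoped ENNReal NNReal
open Pool Pool.MP_437602_an

namespace Pool.Agent.S04503

open Pool.Agent.H352R4.CA in
/-- For the (uniquely determined) continuous analytic capacity α(S)=sup over compact F⊆S and continuous f on ℂ, holomorphic off F, ∣f∣≤1, f(∞)=0, of ∣lim z f(z)∣: for compact K,E with α(K)=0, α(E\K)=α(E). -/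
theorem result :
    ∀ α : Set ℂ → ℝ≥0∞,
      (∀ S : Set ℂ, α S =
        ⨆ (F : Set ℂ) (_ : IsCompact F) (_ : F ⊆ S) (f : ℂ → ℂ) (c : ℂ)
          (_ : Continuous f ∧ DifferentiableOn ℂ f Fᶜ ∧ (∀ z, ‖f z‖ ≤ 1) ∧
                Tendsto f (cocompact ℂ) (𝓝 0) ∧
                Tendsto (fun z => z * f z) (cocompact ℂ) (𝓝 c)),
          ((‖c‖₊ : ℝ≥0) : ℝ≥0∞)) →
      ∀ K E : Set ℂ, IsCompact K → IsCompact E → α K = 0 → α (E \ K) = α E := by
  intro α hα K E hK hE hK0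
  have mono : ∀ S S' : Set ℂ, S ⊆ S' → α S ≤ α S' := by
    intro S S' hSS
    rw [hα S, hα S']
    refine iSup_le fun F => iSup_le fun hF => iSup_le fun hFS => iSup_le fun f => iSup_le fun c =>
      iSup_le fun h => ?_
    exact le_iSup_of_le F (le_iSup_of_le hF (le_iSup_of_le (hFS.trans hSS) (le_iSup_of_le f
      (le_iSup_of_le c (le_iSup_of_le h le_rfl)))))
  have toR : ∀ (S : Set ℂ) (x : ℝ), 0 ≤ x →
      (∀ (F : Set ℂ) (f : ℂ → ℂ) (c : ℂ), IsCompact F → F ⊆ S → Continuous f →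
        DifferentiableOn ℂ f Fᶜ → (∀ z, ‖f z‖ ≤ 1) → Tendsto f (cocompact ℂ) (𝓝 0) →
        Tendsto (fun z => z * f z) (cocompact ℂ) (𝓝 c) → ‖c‖ ≤ x) → α S ≤ ENNReal.ofReal x := by
    intro S x hx h
    rw [hα S]
    refine iSup_le fun F => iSup_le fun hF => iSup_le fun hFS => iSup_le fun f => iSup_le fun c =>
      iSup_le fun hh => ?_
    have h1 := h F f c hF hFS hh.1 hh.2.1 hh.2.2.1 hh.2.2.2.1 hh.2.2.2.2
    have h2 : ((‖c‖₊ : ℝ≥0) : ℝ≥0∞) = ENNReal.ofReal ‖c‖ := by rw [ofReal_norm]; rfl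
    rw [h2]
    exact ENNReal.ofReal_le_ofReal h1
  have up : ∀ S : Set ℂ, IsCompact S → α S ≤ ENNReal.ofReal (alpha S) := by
    intro S hS
    refine toR S _ (alpha_nonneg S) ?_
    intro F f c hF hFS h1 h2 h3 h4 h5
    exact le_alpha hS ⟨h1, h2.mono (Set.compl_subset_compl.2 hFS), h5⟩ h3
  have down : ∀ S : Set ℂ, IsCompact S → ENNReal.ofReal (alpha S) ≤ α S := by
    intro S hS
    rcases eq_or_ne (α S) ⊤ with h | h
    · rw [h]; exact le_top
    rw [ENNReal.ofReal_le_iff_le_toReal h]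
    refine Real.sSup_le ?_ ENNReal.toReal_nonneg
    rintro c ⟨f, l, hf, hb, rfl⟩
    rw [← ENNReal.ofReal_le_iff_le_toReal h, hα S]
    refine le_iSup_of_le S (le_iSup_of_le hS (le_iSup_of_le subset_rfl (le_iSup_of_le f
      (le_iSup_of_le l (le_iSup_of_le ⟨hf.cont, hf.hol, hb, hf.zero, hf.lim⟩ ?_)))))
    have h2 : ((‖l‖₊ : ℝ≥0) : ℝ≥0∞) = ENNReal.ofReal ‖l‖ := by rw [ofReal_norm]; rfl
    rw [h2]
  have hK0' : alpha K = 0 := by
    have h1 := down K hK
    rw [hK0, nonpos_iff_eq_zero, ENNReal.ofReal_eq_zero] at h1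
    exact le_antisymm h1 (alpha_nonneg K)
  apply le_antisymm (mono _ _ Set.sdiff_subset)
  refine (up E hE).trans ?_
  rw [← alpha_remove hE hK hK0']
  rcases eq_or_ne (α (E \ K)) ⊤ with h | h
  · rw [h]; exact le_top
  rw [ENNReal.ofReal_le_iff_le_toReal h]
  refine Real.sSup_le ?_ ENNReal.toReal_nonneg
  rintro c ⟨L, hL, hLE, rfl⟩
  rw [← ENNReal.ofReal_le_iff_le_toReal h]
  exact (down L hL).trans (mono _ _ hLE)

end Pool.Agent.S04503
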