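import Pool.Statements.S04606
import Pool.Agent.Results.MP_4bee3f_an.EndpointGainFails

set_option autoImplicit false
open MeasureTheory
open Pool Pool.MP_4bee3f_an

namespace Pool.Agent.S04606

/-- Coordinate functions of the planar example of `EndpointGainFails` (case `k = 0`). -/
noncomputable def uc (i : Fin 2) (x : EuclideanSpace ℝ (Fin 2)) : ℝ :=
  Pool.Agent.Results.MP_4bee3f_an.EndpointGainFails.u 0 x i

lemma uc_hasFDerivAt (i : Fin 2) {x : EuclideanSpace ℝ (Fin 2)} (hx : ‖x‖ < 1) :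
    fderiv ℝ (uc i) x = (EuclideanSpace.proj i : EuclideanSpace ℝ (Fin 2) →L[ℝ] ℝ).comp
      (fderiv ℝ (Pool.Agent.Results.MP_4bee3f_an.EndpointGainFails.u 0) x) := by
  have h := Pool.Agent.Results.MP_4bee3f_an.EndpointGainFails.u_hasFDerivAt 0 hx
  have h2 := ((EuclideanSpace.proj i : EuclideanSpace ℝ (Fin 2) →L[ℝ] ℝ).hasFDerivAt
    (x := Pool.Agent.Results.MP_4bee3f_an.EndpointGainFails.u 0 x)).comp x
      h.differentiableAt.hasFDerivAt
  exact h2.fderiv

lemma fderiv_uc (i j : Fin 2) {x : EuclideanSpace ℝ (Fin 2)} (hx : ‖x‖ < 1) :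
    fderiv ℝ (uc i) x (EuclideanSpace.single j 1) =
      Pool.Agent.Results.MP_4bee3f_an.EndpointGainFails.pd j
        (Pool.Agent.Results.MP_4bee3f_an.EndpointGainFails.u 0) x i := by
  rw [uc_hasFDerivAt i hx]
  rfl

/-- The negation of the preceding statement: For all n≥2, k, open connected Ω⊆ℝⁿ, and linear elliptic systems with a locally Lipschitz a.e. solution u whose a.e. Jacobian equals a nonvanishing J: if A,B,c,J are C^{k,1} then u is C^{k+1,1}, and if A,B,c,J are C^{k+1} then u is C^{k+2}. -/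
theorem result :
    ¬ (∀ (n : ℕ), 2 ≤ n → ∀ (k : ℕ) (Ω : Set (EuclideanSpace ℝ (Fin n))), IsOpen Ω → IsConnected Ω →
  ∀ (A : Fin n → Fin n → Fin n → EuclideanSpace ℝ (Fin n) → ℝ)
    (B : Fin n → Fin n → EuclideanSpace ℝ (Fin n) → ℝ)
    (c : Fin n → EuclideanSpace ℝ (Fin n) → ℝ)
    (u : Fin n → EuclideanSpace ℝ (Fin n) → ℝ)
    (J : EuclideanSpace ℝ (Fin n) → ℝ),
  (∀ x ∈ Ω, ∀ ξ : Fin n → ℝ, ξ ≠ 0 →
      (Matrix.of fun i l => ∑ j, ξ j * A j i l x).det ≠ 0) →
  (∀ i, ∀ x ∈ Ω, ∃ C : NNReal, ∃ U ∈ nhds x, LipschitzOnWith C (u i) (U ∩ Ω)) →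
  (∀ᵐ x ∂(volume.restrict Ω), ∀ i,
      ∑ j, ∑ l, A j i l x * fderiv ℝ (u l) x (EuclideanSpace.single j 1)
        + ∑ l, B i l x * u l x = c i x) →
  (∀ x ∈ Ω, J x ≠ 0) →
  (∀ᵐ x ∂(volume.restrict Ω),
      (Matrix.of fun i j => fderiv ℝ (u i) x (EuclideanSpace.single j 1)).det = J x) →
  (((∀ j i l, ContDiffOn ℝ k (A j i l) Ω ∧ ∀ x ∈ Ω, ∃ C : NNReal, ∃ U ∈ nhds x,
        LipschitzOnWith C (iteratedFDeriv ℝ k (A j i l)) (U ∩ Ω)) ∧
    (∀ i l, ContDiffOn ℝ k (B i l) Ω ∧ ∀ x ∈ Ω, ∃ C : NNReal, ∃ U ∈ nhds x,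
        LipschitzOnWith C (iteratedFDeriv ℝ k (B i l)) (U ∩ Ω)) ∧
    (∀ i, ContDiffOn ℝ k (c i) Ω ∧ ∀ x ∈ Ω, ∃ C : NNReal, ∃ U ∈ nhds x,
        LipschitzOnWith C (iteratedFDeriv ℝ k (c i)) (U ∩ Ω)) ∧
    (ContDiffOn ℝ k J Ω ∧ ∀ x ∈ Ω, ∃ C : NNReal, ∃ U ∈ nhds x,
        LipschitzOnWith C (iteratedFDeriv ℝ k J) (U ∩ Ω)) →
    ∀ i, ContDiffOn ℝ (k + 1) (u i) Ω ∧ ∀ x ∈ Ω, ∃ C : NNReal, ∃ U ∈ nhds x,
        LipschitzOnWith C (iteratedFDeriv ℝ (k + 1) (u i)) (U ∩ Ω)) ∧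
   ((∀ j i l, ContDiffOn ℝ (k + 1) (A j i l) Ω) ∧
    (∀ i l, ContDiffOn ℝ (k + 1) (B i l) Ω) ∧
    (∀ i, ContDiffOn ℝ (k + 1) (c i) Ω) ∧
    ContDiffOn ℝ (k + 1) J Ω →
    ∀ i, ContDiffOn ℝ (k + 2) (u i) Ω))) := by
  intro H
  have hJc : ContinuousAt (Pool.Agent.Results.MP_4bee3f_an.EndpointGainFails.J 0) 0 :=
    ((Pool.Agent.Results.MP_4bee3f_an.EndpointGainFails.J_contDiffOn 0).contDiffAt
      (Metric.ball_mem_nhds _ one_pos)).continuousAt
  have hJn : ∀ᶠ z in nhds (0:ℂ), Pool.Agent.Results.MP_4bee3f_an.EndpointGainFails.J 0 z < 0 := by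
    apply hJc.eventually_lt continuousAt_const
    rw [Pool.Agent.Results.MP_4bee3f_an.EndpointGainFails.J_zero]; norm_num
  obtain ⟨r, hr, hrJ⟩ := Metric.eventually_nhds_iff_ball.mp hJn
  set Ω : Set (EuclideanSpace ℝ (Fin 2)) := Metric.ball 0 (min r 1) with hΩ
  have hr1 : 0 < min r 1 := lt_min hr one_pos
  have hop : IsOpen Ω := Metric.isOpen_ball
  have hcon : IsConnected Ω := ⟨⟨0, Metric.mem_ball_self hr1⟩, (convex_ball _ _).isPreconnected⟩
  have h0 : (0 : EuclideanSpace ℝ (Fin 2)) ∈ Ω := Metric.mem_ball_self hr1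
  have hsub : Ω ⊆ Metric.ball 0 1 := Metric.ball_subset_ball (min_le_right _ _)
  have hn : ∀ x ∈ Ω, ‖x‖ < 1 := fun x hx => by simpa using hsub hx
  have hud : ContDiffOn ℝ 1 (Pool.Agent.Results.MP_4bee3f_an.EndpointGainFails.u 0) Ω := by
    have := (Pool.Agent.Results.MP_4bee3f_an.EndpointGainFails.u_contDiffOn 0).mono hsub
    simpa using this
  have huc : ∀ i, ContDiffOn ℝ 1 (uc i) Ω := fun i =>
    (EuclideanSpace.proj i : EuclideanSpace ℝ (Fin 2) →L[ℝ] ℝ).contDiff.comp_contDiffOn hud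
  have key := H 2 le_rfl 0 Ω hop hcon
    (fun j i l x => Pool.Agent.Results.MP_4bee3f_an.EndpointGainFails.A j x i l)
    (fun _ _ _ => 0)
    (fun i x => Pool.Agent.Results.MP_4bee3f_an.EndpointGainFails.c 0 x i)
    uc
    (fun x => Pool.Agent.Results.MP_4bee3f_an.EndpointGainFails.J 0
      (Pool.Agent.Results.MP_4bee3f_an.EndpointGainFails.e.symm x))
    ?_ ?_ ?_ ?_ ?_
  · have h2 := key.2 ⟨?_, ?_, ?_, ?_⟩
    · -- contradiction
      have hC2 : ContDiffOn ℝ (1 + 1 : ℕ)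
          (Pool.Agent.Results.MP_4bee3f_an.EndpointGainFails.u 0) Ω := by
        rw [contDiffOn_euclidean]
        intro i
        have := h2 i
        refine this.of_le ?_
        norm_num
      exact Pool.Agent.Results.MP_4bee3f_an.EndpointGainFails.not_holder 0 Ω hop h0
        (Pool.Agent.Results.MP_4bee3f_an.EndpointGainFails.HolderClass.of_succ hop hC2)
    · intro j i l
      exact contDiffOn_const
    · intro i l
      exact contDiffOn_const
    · have hr := Complex.reCLM.contDiff.comp_contDiffOn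
        (Pool.Agent.Results.MP_4bee3f_an.EndpointGainFails.wzb_contDiffOn 0)
      have hi := Complex.imCLM.contDiff.comp_contDiffOn
        (Pool.Agent.Results.MP_4bee3f_an.EndpointGainFails.wzb_contDiffOn 0)
      intro i
      have hcs : ContDiffOn ℝ (0 + 1 : ℕ)
          (fun x => Pool.Agent.Results.MP_4bee3f_an.EndpointGainFails.c 0 x i) Ω := by
        fin_cases i
        · exact (contDiffOn_const.mul
            (Pool.Agent.Results.MP_4bee3f_an.EndpointGainFails.comp_symm hr)).mono hsub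
        · exact (contDiffOn_const.mul
            (Pool.Agent.Results.MP_4bee3f_an.EndpointGainFails.comp_symm hi)).mono hsub
      simpa using hcs
    · have := (Pool.Agent.Results.MP_4bee3f_an.EndpointGainFails.comp_symm
        (Pool.Agent.Results.MP_4bee3f_an.EndpointGainFails.J_contDiffOn 0)).mono hsub
      simpa using this
  · intro x hx ξ hξ
    have := Pool.Agent.Results.MP_4bee3f_an.EndpointGainFails.A_elliptic Ω x hx ξ hξ
    convert this using 2
    ext i l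
    simp [Fin.sum_univ_two]
  · intro i x hx
    have h1 : ContDiffAt ℝ 1 (uc i) x := (huc i).contDiffAt (hop.mem_nhds hx)
    obtain ⟨K, t, ht, hK⟩ := h1.exists_lipschitzOnWith
    exact ⟨K, t, ht, hK.mono Set.inter_subset_left⟩
  · refine (ae_restrict_iff' hop.measurableSet).mpr (Filter.Eventually.of_forall fun x hx => ?_)
    intro i
    have hs := congrFun (Pool.Agent.Results.MP_4bee3f_an.EndpointGainFails.system 0 (hn x hx)) i
    simp only [zero_mul, Finset.sum_const_zero, add_zero]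
    simp only [Matrix.zero_mulVec, add_zero] at hs
    rw [← hs, Finset.sum_apply]
    refine Finset.sum_congr rfl fun j _ => ?_
    simp only [Matrix.mulVec, dotProduct]
    refine Finset.sum_congr rfl fun l _ => ?_
    rw [fderiv_uc l j (hn x hx)]
  · intro x hx
    refine (hrJ _ ?_).ne
    have : ‖x‖ < min r 1 := by simpa [hΩ] using hx
    simpa using lt_of_lt_of_le this (min_le_left _ _)
  · refine (ae_restrict_iff' hop.measurableSet).mpr (Filter.Eventually.of_forall fun x hx => ?_)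
    have := Pool.Agent.Results.MP_4bee3f_an.EndpointGainFails.jac_u 0 (hn x hx)
    rw [← this]
    unfold Pool.Agent.Results.MP_4bee3f_an.EndpointGainFails.jac
    congr 1
    ext i j
    simp only [Matrix.of_apply]
    exact fderiv_uc i j (hn x hx)

end Pool.Agent.S04606
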