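import Pool.Statements.S04624

set_option autoImplicit false
open MeasureTheory
open Pool Pool.MP_4d58d7_an

namespace Pool.Agent.S04624

/-- the two good values of the sketch: `(1-ε) I + c v vᵀ` with `v = (1, σ)` -/
noncomputable def W (s q σ : ℝ) : Fin 2 → Fin 3 → ℝ := ![![s, 0, q], ![0, s, q * σ]]

noncomputable def mu (s q : ℝ) : Measure (Fin 2 → Fin 3 → ℝ) :=
  (ENNReal.ofReal (1 / 100)) • Measure.dirac 0 +
    ((ENNReal.ofReal (99 / 200)) • Measure.dirac (W s q 1) +
      (ENNReal.ofReal (99 / 200)) • Measure.dirac (W s q (-1)))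

theorem mu_apply (s q : ℝ) (S : Set (Fin 2 → Fin 3 → ℝ)) :
    mu s q S = ENNReal.ofReal (1 / 100) * S.indicator 1 0 +
      (ENNReal.ofReal (99 / 200) * S.indicator 1 (W s q 1) +
        ENNReal.ofReal (99 / 200) * S.indicator 1 (W s q (-1))) := by
  unfold mu
  rw [Measure.add_apply, Measure.add_apply, Measure.smul_apply, Measure.smul_apply,
    Measure.smul_apply, Measure.dirac_apply, Measure.dirac_apply, Measure.dirac_apply]
  rfl

theorem mu_prob (s q : ℝ) : IsProbabilityMeasure (mu s q) := by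
  constructor
  rw [mu_apply]
  simp only [Set.indicator_univ, Pi.one_apply, mul_one]
  rw [← ENNReal.ofReal_add (by norm_num) (by norm_num),
    ← ENNReal.ofReal_add (by norm_num) (by norm_num)]
  norm_num

theorem mu_integral (s q : ℝ) (f : (Fin 2 → Fin 3 → ℝ) → ℝ) :
    ∫ ω, f ω ∂(mu s q) = 1 / 100 * f 0 + (99 / 200 * f (W s q 1) + 99 / 200 * f (W s q (-1))) := by
  unfold mu
  have h : ∀ a : Fin 2 → Fin 3 → ℝ, ∀ r : ℝ, Integrable f ((ENNReal.ofReal r) • Measure.dirac a) := by
    intro a r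
    apply Integrable.smul_measure _ ENNReal.ofReal_ne_top
    exact integrable_dirac (by simp [enorm_lt_top])
  rw [integral_add_measure (h _ _) ((h _ _).add_measure (h _ _)),
    integral_add_measure (h _ _) (h _ _), integral_smul_measure, integral_smul_measure,
    integral_smul_measure, integral_dirac, integral_dirac, integral_dirac,
    ENNReal.toReal_ofReal (by norm_num), ENNReal.toReal_ofReal (by norm_num)]
  simp [smul_eq_mul]

/-- The negation of the preceding statement: There are constants C and c₀>0 such that, for any isotropic n×k random matrix Ω that is a dimension-d OSI with injectivity 1−ε and failure 0.01, sketch-and-solve has error at most (1+Cε)·OPT with probability at least c₀. -/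
theorem result :
    ¬ (∃ C : ℝ, ∃ c₀ : ℝ, 0 < c₀ ∧
    ∀ (n d p k : ℕ), 0 < n → 0 < d → 0 < p → 0 < k →
    ∀ ε : ℝ, 0 < ε → ε < 1 →
    ∀ (A : Matrix (Fin n) (Fin d) ℝ), A.rank = d →
    ∀ (B : Matrix (Fin n) (Fin p) ℝ),
    ∀ (μ : Measure (Fin n → Fin k → ℝ)) [IsProbabilityMeasure μ],
      (∀ x : Fin n → ℝ, ∫ ω, (∑ j, (∑ i, ω i j * x i) ^ 2) ∂μ = ∑ i, x i ^ 2) →
      (∀ V : Submodule ℝ (Fin n → ℝ), Module.finrank ℝ V = d →
         ENNReal.ofReal (99 / 100) ≤
           μ {ω | ∀ x ∈ V, (1 - ε) * ∑ i, x i ^ 2 ≤ ∑ j, (∑ i, ω i j * x i) ^ 2}) →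
      ENNReal.ofReal c₀ ≤ μ {ω | ∀ G : Matrix (Fin d) (Fin k) ℝ,
          (Matrix.transpose (Matrix.of ω) * A) * G * (Matrix.transpose (Matrix.of ω) * A)
              = Matrix.transpose (Matrix.of ω) * A →
          G * (Matrix.transpose (Matrix.of ω) * A) * G = G →
          Matrix.transpose ((Matrix.transpose (Matrix.of ω) * A) * G)
              = (Matrix.transpose (Matrix.of ω) * A) * G →
          Matrix.transpose (G * (Matrix.transpose (Matrix.of ω) * A))
              = G * (Matrix.transpose (Matrix.of ω) * A) →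
          ∀ X : Matrix (Fin d) (Fin p) ℝ,
            Real.sqrt (∑ i, ∑ j, ((A * (G * Matrix.transpose (Matrix.of ω) * B) - B) i j) ^ 2) ≤
              (1 + C * ε) * Real.sqrt (∑ i, ∑ j, ((A * X - B) i j) ^ 2)}) := by
  rintro ⟨C, c₀, hc₀, H⟩
  -- choice of ε
  obtain ⟨ε, hε0, hε1, hCε⟩ : ∃ ε : ℝ, 0 < ε ∧ ε < 1 ∧ 1 + C * ε ≤ 1 + 1 / 100000 := by
    refine ⟨1 / 100000 / (|C| + 1), by positivity, ?_, ?_⟩
    · rw [div_lt_one (by positivity)]
      have := abs_nonneg C
      linarith
    · have h1 : C ≤ |C| := le_abs_self C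
      have h2 : C * (1 / 100000 / (|C| + 1)) ≤ (|C| + 1) * (1 / 100000 / (|C| + 1)) := by
        apply mul_le_mul_of_nonneg_right (by linarith) (by positivity)
      rw [mul_div_cancel₀ _ (by positivity : (|C| + 1) ≠ 0)] at h2
      linarith
  set s := Real.sqrt (1 - ε) with hs
  set q := Real.sqrt (1 / 99 + ε) with hq
  have hs2 : s ^ 2 = 1 - ε := Real.sq_sqrt (by linarith)
  have hq2 : q ^ 2 = 1 / 99 + ε := Real.sq_sqrt (by positivity)
  have hsq : s ^ 2 + q ^ 2 = 100 / 99 := by rw [hs2, hq2]; ring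
  have := mu_prob s q
  let A : Matrix (Fin 2) (Fin 1) ℝ := !![1; 0]
  let B : Matrix (Fin 2) (Fin 1) ℝ := !![1; 1]
  have hA : A.rank = 1 := by
    have h1 : Matrix.transpose A * A = 1 := by
      ext i j
      fin_cases i
      fin_cases j
      simp [A, Matrix.mul_apply, Fin.sum_univ_two]
    rw [← Matrix.rank_transpose_mul_self, h1, Matrix.rank_one]
    simp
  have hquad : ∀ σ : ℝ, ∀ x : Fin 2 → ℝ, (∑ j, (∑ i, W s q σ i j * x i) ^ 2) =
      s ^ 2 * (∑ i, x i ^ 2) + q ^ 2 * (x 0 + σ * x 1) ^ 2 := by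
    intro σ x
    simp only [Fin.sum_univ_three, Fin.sum_univ_two, W]
    simp
    ring
  have key := H 2 1 1 3 (by norm_num) (by norm_num) (by norm_num) (by norm_num) ε hε0 hε1 A hA B
    (mu s q) ?_ ?_
  · have hz : mu s q {ω | ∀ G : Matrix (Fin 1) (Fin 3) ℝ,
          (Matrix.transpose (Matrix.of ω) * A) * G * (Matrix.transpose (Matrix.of ω) * A)
              = Matrix.transpose (Matrix.of ω) * A →
          G * (Matrix.transpose (Matrix.of ω) * A) * G = G →
          Matrix.transpose ((Matrix.transpose (Matrix.of ω) * A) * G)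
              = (Matrix.transpose (Matrix.of ω) * A) * G →
          Matrix.transpose (G * (Matrix.transpose (Matrix.of ω) * A))
              = G * (Matrix.transpose (Matrix.of ω) * A) →
          ∀ X : Matrix (Fin 1) (Fin 1) ℝ,
            Real.sqrt (∑ i, ∑ j, ((A * (G * Matrix.transpose (Matrix.of ω) * B) - B) i j) ^ 2) ≤
              (1 + C * ε) * Real.sqrt (∑ i, ∑ j, ((A * X - B) i j) ^ 2)} = 0 := by
      rw [mu_apply]
      have hopt : Real.sqrt (∑ i, ∑ j, ((A * (!![1] : Matrix (Fin 1) (Fin 1) ℝ) - B) i j) ^ 2)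
          = 1 := by
        have : (∑ i, ∑ j, ((A * (!![1] : Matrix (Fin 1) (Fin 1) ℝ) - B) i j) ^ 2) = 1 := by
          simp [A, B, Matrix.mul_apply, Fin.sum_univ_two]
        rw [this, Real.sqrt_one]
      have h0 : (0 : Fin 2 → Fin 3 → ℝ) ∉ {ω | ∀ G : Matrix (Fin 1) (Fin 3) ℝ,
          (Matrix.transpose (Matrix.of ω) * A) * G * (Matrix.transpose (Matrix.of ω) * A)
              = Matrix.transpose (Matrix.of ω) * A →
          G * (Matrix.transpose (Matrix.of ω) * A) * G = G →
          Matrix.transpose ((Matrix.transpose (Matrix.of ω) * A) * G)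
              = (Matrix.transpose (Matrix.of ω) * A) * G →
          Matrix.transpose (G * (Matrix.transpose (Matrix.of ω) * A))
              = G * (Matrix.transpose (Matrix.of ω) * A) →
          ∀ X : Matrix (Fin 1) (Fin 1) ℝ,
            Real.sqrt (∑ i, ∑ j, ((A * (G * Matrix.transpose (Matrix.of ω) * B) - B) i j) ^ 2) ≤
              (1 + C * ε) * Real.sqrt (∑ i, ∑ j, ((A * X - B) i j) ^ 2)} := by
        intro hmem
        have h1 := hmem 0 (by ext i j; simp [Matrix.mul_apply]) (by simp) (by simp) (by simp)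
          (!![1] : Matrix (Fin 1) (Fin 1) ℝ)
        rw [hopt, mul_one] at h1
        have h2 : (∑ i, ∑ j, ((A * ((0 : Matrix (Fin 1) (Fin 3) ℝ) *
            Matrix.transpose (Matrix.of (0 : Fin 2 → Fin 3 → ℝ)) * B) - B) i j) ^ 2) = 2 := by
          simp [B, Fin.sum_univ_two]
          norm_num
        rw [h2] at h1
        have h3 : Real.sqrt 2 ≤ 1 + 1 / 100000 := h1.trans hCε
        rw [Real.sqrt_le_left (by norm_num)] at h3
        norm_num at h3
      have hW : ∀ σ : ℝ, σ ^ 2 = 1 → W s q σ ∉ {ω | ∀ G : Matrix (Fin 1) (Fin 3) ℝ,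
          (Matrix.transpose (Matrix.of ω) * A) * G * (Matrix.transpose (Matrix.of ω) * A)
              = Matrix.transpose (Matrix.of ω) * A →
          G * (Matrix.transpose (Matrix.of ω) * A) * G = G →
          Matrix.transpose ((Matrix.transpose (Matrix.of ω) * A) * G)
              = (Matrix.transpose (Matrix.of ω) * A) * G →
          Matrix.transpose (G * (Matrix.transpose (Matrix.of ω) * A))
              = G * (Matrix.transpose (Matrix.of ω) * A) →
          ∀ X : Matrix (Fin 1) (Fin 1) ℝ,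
            Real.sqrt (∑ i, ∑ j, ((A * (G * Matrix.transpose (Matrix.of ω) * B) - B) i j) ^ 2) ≤
              (1 + C * ε) * Real.sqrt (∑ i, ∑ j, ((A * X - B) i j) ^ 2)} := by
        intro σ hσ hmem
        have hM : Matrix.transpose (Matrix.of (W s q σ)) * A = !![s; 0; q] := by
          ext i j
          fin_cases i <;> fin_cases j <;> simp [Matrix.mul_apply, W, A, Fin.sum_univ_two]
        have hN : Matrix.transpose (Matrix.of (W s q σ)) * B = !![s; s; q + q * σ] := by
          ext i j
          fin_cases i <;> fin_cases j <;> simp [Matrix.mul_apply, W, B, Fin.sum_univ_two]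
        let G : Matrix (Fin 1) (Fin 3) ℝ := !![99 / 100 * s, 0, 99 / 100 * q]
        have hGM : G * (Matrix.transpose (Matrix.of (W s q σ)) * A) = 1 := by
          rw [hM]
          ext i j
          fin_cases i
          fin_cases j
          simp [Matrix.mul_apply, G, Fin.sum_univ_three]
          nlinarith [hsq]
        have h1 := hmem G (by rw [Matrix.mul_assoc, hGM, Matrix.mul_one])
          (by rw [hGM, Matrix.one_mul])
          (by
            rw [hM]
            ext i j
            fin_cases i <;> fin_cases j <;> simp [Matrix.mul_apply, G] <;> ring)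
          (by rw [hGM, Matrix.transpose_one]) (!![1] : Matrix (Fin 1) (Fin 1) ℝ)
        rw [hopt, mul_one, Matrix.mul_assoc, hN] at h1
        have h2 : (∑ i, ∑ j, ((A * (G * (!![s; s; q + q * σ] : Matrix (Fin 3) (Fin 1) ℝ)) - B)
            i j) ^ 2) = 1 + (99 / 100 * q ^ 2) ^ 2 := by
          have h3 : (99 / 100 : ℝ) * s * s + 99 / 100 * q * (q + q * σ) - 1
              = 99 / 100 * q ^ 2 * σ := by nlinarith [hsq]
          have h4 : (G * (!![s; s; q + q * σ] : Matrix (Fin 3) (Fin 1) ℝ)) 0 0 - 1 =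
              99 / 100 * q ^ 2 * σ := by
            rw [← h3]
            simp [Matrix.mul_apply, G, Fin.sum_univ_three]
          have h5 : (∑ i, ∑ j, ((A * (G * (!![s; s; q + q * σ] : Matrix (Fin 3) (Fin 1) ℝ))
              - B) i j) ^ 2) = ((G * (!![s; s; q + q * σ] : Matrix (Fin 3) (Fin 1) ℝ)) 0 0
                - 1) ^ 2 + 1 := by
            simp only [Fin.sum_univ_two, Matrix.sub_apply]
            simp [A, B, Matrix.mul_apply]
          rw [h5, h4]
          calc (99 / 100 * q ^ 2 * σ) ^ 2 + 1 = (99 / 100 * q ^ 2) ^ 2 * σ ^ 2 + 1 := by ring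
            _ = _ := by rw [hσ]; ring
        rw [h2] at h1
        have h3 := h1.trans hCε
        rw [Real.sqrt_le_left (by norm_num)] at h3
        have h4 : (1 / 100 : ℝ) ≤ 99 / 100 * q ^ 2 := by rw [hq2]; linarith
        nlinarith [h3, h4]
      rw [Set.indicator_of_notMem h0, Set.indicator_of_notMem (hW 1 (by norm_num)),
        Set.indicator_of_notMem (hW (-1) (by norm_num))]
      simp
    rw [hz] at key
    have : 0 < ENNReal.ofReal c₀ := ENNReal.ofReal_pos.2 hc₀
    exact absurd key (not_le.2 this)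
  · intro x
    rw [mu_integral, hquad, hquad]
    simp only [Fin.sum_univ_two, Pi.zero_apply]
    simp
    have : (99 / 200 : ℝ) * (s ^ 2 * (x 0 ^ 2 + x 1 ^ 2) + q ^ 2 * (x 0 + x 1) ^ 2) +
        99 / 200 * (s ^ 2 * (x 0 ^ 2 + x 1 ^ 2) + q ^ 2 * (x 0 + -x 1) ^ 2) =
        99 / 100 * (s ^ 2 + q ^ 2) * (x 0 ^ 2 + x 1 ^ 2) := by ring
    rw [this, hsq]
    ring
  · intro V _
    rw [mu_apply]
    have hmem : ∀ σ : ℝ, W s q σ ∈ {ω : Fin 2 → Fin 3 → ℝ | ∀ x ∈ V,
        (1 - ε) * ∑ i, x i ^ 2 ≤ ∑ j, (∑ i, ω i j * x i) ^ 2} := by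
      intro σ x _
      rw [hquad, hs2]
      nlinarith [mul_nonneg (sq_nonneg q) (sq_nonneg (x 0 + σ * x 1))]
    rw [Set.indicator_of_mem (hmem 1), Set.indicator_of_mem (hmem (-1))]
    simp only [Pi.one_apply, mul_one]
    rw [← ENNReal.ofReal_add (by norm_num) (by norm_num)]
    refine le_trans (le_of_eq ?_) le_add_self
    norm_num

end Pool.Agent.S04624
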