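import Pool.Statements.S04683
import Pool.Agent.Q165.NU.Main

set_option autoImplicit false
open Filter Topology
open scoped ENNReal
open Pool Pool.MP_535d13_an

namespace Pool.Agent.S04683

/-- For every gauge φ (increasing, φ(0)=0, positive, continuous at 0) with r/φ(r)→0, there is a closed set of uniqueness K⊆[0,1] on the circle whose set of absolutely normal points has positive φ-Hausdorff measure. -/
theorem result :
    ∀ φ : ℝ → ℝ, MonotoneOn φ (Set.Ici 0) → φ 0 = 0 → (∀ r : ℝ, 0 < r → 0 < φ r) →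
      Tendsto φ (𝓝[>] (0:ℝ)) (𝓝 0) →
      Tendsto (fun r : ℝ => r / φ r) (𝓝[>] (0:ℝ)) (𝓝 0) →
      ∃ K : Set ℝ, IsClosed K ∧ K ⊆ Set.Icc (0:ℝ) 1 ∧
        (∀ c : ℤ → ℂ,
          (∀ x : ℝ, (∀ m : ℤ, x + (m:ℝ) ∉ K) →
            Tendsto (fun N : ℕ => ∑ n ∈ Finset.Icc (-(N:ℤ)) (N:ℤ),
              c n * Complex.exp (2 * (Real.pi:ℂ) * Complex.I * (n:ℂ) * (x:ℂ))) atTop (𝓝 0)) →
          ∀ n : ℤ, c n = 0) ∧
        0 < MeasureTheory.Measure.mkMetric (fun r : ℝ≥0∞ => ENNReal.ofReal (φ r.toReal))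
          (K ∩ {x : ℝ | ∀ b : ℕ, 2 ≤ b → ∀ k : ℕ, ∀ w : Fin k → ℤ,
            (∀ j : Fin k, 0 ≤ w j ∧ w j < (b:ℤ)) →
            Tendsto (fun N : ℕ =>
              ((((Finset.range N).filter (fun i : ℕ =>
                ∀ j : Fin k, ⌊x * (b:ℝ) ^ (i + j.val + 1)⌋ % (b:ℤ) = w j)).card : ℝ) / (N:ℝ)))
              atTop (𝓝 (1 / (b:ℝ) ^ k))}) := by
  intro φ _ _ hpos _ hr
  obtain ⟨p⟩ := Pool.Agent.Q165.NU.exists_par φ hpos hr
  refine ⟨Pool.Agent.Q165.NU.KK p, Pool.Agent.Q165.NU.isClosed_KK p, fun y hy => hy.1,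
    fun c hc n => Pool.Agent.Q165.NU.unique_KK p hc n, ?_⟩
  set A : Set ℝ := {x : ℝ | ∀ b : ℕ, 2 ≤ b → ∀ k : ℕ, ∀ w : Fin k → ℤ,
            (∀ j : Fin k, 0 ≤ w j ∧ w j < (b:ℤ)) →
            Tendsto (fun N : ℕ =>
              ((((Finset.range N).filter (fun i : ℕ =>
                ∀ j : Fin k, ⌊x * (b:ℝ) ^ (i + j.val + 1)⌋ % (b:ℤ) = w j)).card : ℝ) / (N:ℝ)))
              atTop (𝓝 (1 / (b:ℝ) ^ k))} with hA
  refine lt_of_lt_of_le ?_ (Pool.Agent.Q165.NU.mu_le_mk p (Pool.Agent.Q165.NU.KK p ∩ A))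
  have hae : ∀ᵐ x ∂(MeasureTheory.volume.restrict (Set.Ico (0 : ℝ) 1)),
      x ∈ Pool.Agent.Q165.NU.Pi p.m ⁻¹' (Pool.Agent.Q165.NU.KK p ∩ A) := by
    filter_upwards [Pool.Agent.Q165.NU.ae_normal p,
      MeasureTheory.ae_restrict_mem measurableSet_Ico] with x hx hx01
    refine ⟨⟨Pool.Agent.Q165.NU.Pi_mem p.m p.hm hx01,
      fun j => Pool.Agent.Q165.NU.sin_Pi p.m p.hm j x⟩, ?_⟩
    intro b hb k w hw
    have h1 : ∀ j : Fin k, ∃ d : Fin b, ((d : ℕ) : ℤ) = w j := by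
      intro j
      have h2 := hw j
      refine ⟨⟨(w j).toNat, ?_⟩, ?_⟩
      · have := h2.2
        omega
      · exact Int.toNat_of_nonneg h2.1
    choose d hd using h1
    have h2 := Pool.Agent.H493R3.block_freq b hb (Pool.Agent.Q165.NU.Pi p.m x)
      (fun h hh => hx b h hb hh) k d
    refine h2.congr fun N => ?_
    congr 3
    ext i
    simp only [Finset.mem_filter]
    refine and_congr_right fun _ => forall_congr' fun j => ?_
    rw [hd j]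
    have : i + 1 + (j : ℕ) = i + j.val + 1 := by ring
    rw [this]
  have h3 : Pool.Agent.Q165.NU.mu p (Pool.Agent.Q165.NU.KK p ∩ A) ≥
      MeasureTheory.volume.restrict (Set.Ico (0 : ℝ) 1)
        (Pool.Agent.Q165.NU.Pi p.m ⁻¹' (Pool.Agent.Q165.NU.KK p ∩ A)) :=
    MeasureTheory.Measure.le_map_apply
      (Pool.Agent.Q165.NU.measurable_Pi p.m p.hm).aemeasurable _
  refine lt_of_lt_of_le ?_ h3
  have h4 : MeasureTheory.volume.restrict (Set.Ico (0 : ℝ) 1)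
      (Pool.Agent.Q165.NU.Pi p.m ⁻¹' (Pool.Agent.Q165.NU.KK p ∩ A)) =
      MeasureTheory.volume.restrict (Set.Ico (0 : ℝ) 1) Set.univ := by
    refine MeasureTheory.measure_congr ?_
    filter_upwards [hae] with x hx
    exact eq_true hx
  rw [h4]
  simp

end Pool.Agent.S04683
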