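import Pool.Statements.S04862
import Pool.Agent.Q201.Crit5

set_option autoImplicit false
open Pool Pool.MP_63a02b_an

namespace Pool.Agent.S04862

/-- The negation of the preceding statement: Every operator on a real or complex separable F-space that is chaotic, topologically mixing and frequently hypercyclic admits a dense set X0 and a self-map S of X0 with the series of T^n x and S^n x unconditionally convergent and TSx = x on X0. -/
theorem result :
    ¬ (∀ (𝕂 : Type) [RCLike 𝕂] (X : Type) [AddCommGroup X] [Module 𝕂 X] [UniformSpace X]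
      [IsUniformAddGroup X] [CompleteSpace X] [TopologicalSpace.MetrizableSpace X]
      [TopologicalSpace.SeparableSpace X] [ContinuousSMul 𝕂 X] (T : X →L[𝕂] X),
      ((∃ x : X, Dense (Set.range (fun n : ℕ => (T ^ n) x))) ∧
        Dense {x : X | ∃ n : ℕ, 0 < n ∧ (T ^ n) x = x}) →
      (∀ U V : Set X, IsOpen U → IsOpen V → U.Nonempty → V.Nonempty →
        ∃ N : ℕ, ∀ n : ℕ, N ≤ n → ((⇑(T ^ n)) ⁻¹' V ∩ U).Nonempty) →
      (∃ x : X, ∀ U : Set X, IsOpen U → U.Nonempty →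
        ∃ δ : ℝ, 0 < δ ∧ ∃ N₀ : ℕ, ∀ N : ℕ, N₀ ≤ N →
          δ * (N : ℝ) ≤ (Nat.card {n : ℕ // n < N ∧ (T ^ n) x ∈ U} : ℝ)) →
      ∃ X₀ : Set X, Dense X₀ ∧ ∃ S : X → X, (∀ x ∈ X₀, S x ∈ X₀) ∧
        ∀ x ∈ X₀, Summable (fun n : ℕ => (T ^ n) x) ∧
          Summable (fun n : ℕ => S^[n] x) ∧ T (S x) = x) := by
  intro H
  obtain ⟨X₀, hd, S, hS, h⟩ := H ℝ Pool.Agent.Q201.Crit.X Pool.Agent.Q201.Crit.T
    ⟨⟨Pool.Agent.Q201.Crit.u, Pool.Agent.Q201.Crit.dense_orbit⟩,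
      Pool.Agent.Q201.Crit.periodic_dense⟩
    (fun U V hU hV hUn hVn => Pool.Agent.Q201.Crit.mixing U V hU hV hUn hVn)
    ⟨Pool.Agent.Q201.Crit.u, fun U hU hUn => Pool.Agent.Q201.Crit.fhc U hU hUn⟩
  have h0 : X₀ ⊆ {0} := fun x hx => Pool.Agent.Q201.Crit.no_criterion X₀ S hS h x hx
  have h1 : closure X₀ ⊆ {0} := closure_minimal h0 isClosed_singleton
  have h2 : Pool.Agent.Q201.Crit.E 0 ∈ closure X₀ := hd _
  exact Pool.Agent.Q201.Crit.E_ne (h1 h2)

end Pool.Agent.S04862
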