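import Pool.Statements.S04980
import Pool.Agent.Results.MP_6ded3d_an.PlanarNonsmoothMinimizer

set_option autoImplicit false
open MeasureTheory Set
open Pool Pool.MP_6ded3d_an

namespace Pool.Agent.S04980

/-- The negation of the preceding statement: For all n≥2, bounded domains Ω, p>1 and homeomorphic g of finite distortion with L^p inner distortion, every homeomorphism with g's boundary values minimizing the L^p inner-distortion energy is a C^∞ diffeomorphism of Ω onto g(Ω). -/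
theorem result :
    ¬ (∀ (n : ℕ), 2 ≤ n →
  ∀ (Ω : Set (EuclideanSpace ℝ (Fin n))), IsOpen Ω → IsConnected Ω → Bornology.IsBounded Ω →
  ∀ (opNorm : Matrix (Fin n) (Fin n) ℝ → ℝ),
    (∀ A : Matrix (Fin n) (Fin n) ℝ,
      opNorm A = ‖LinearMap.toContinuousLinearMap (Matrix.toEuclideanLin A)‖) →
  ∀ (FD : (EuclideanSpace ℝ (Fin n) → EuclideanSpace ℝ (Fin n)) →
      (EuclideanSpace ℝ (Fin n) → Matrix (Fin n) (Fin n) ℝ) → Prop),
    (∀ (f : EuclideanSpace ℝ (Fin n) → EuclideanSpace ℝ (Fin n))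
       (Df : EuclideanSpace ℝ (Fin n) → Matrix (Fin n) (Fin n) ℝ),
      FD f Df ↔
      ((∀ i : Fin n, LocallyIntegrableOn (fun x => WithLp.ofLp (f x) i) Ω) ∧
       (∀ i j : Fin n, LocallyIntegrableOn (fun x => Df x i j) Ω) ∧
       (∀ φ : EuclideanSpace ℝ (Fin n) → ℝ,
          ContDiff ℝ ((⊤ : ℕ∞) : WithTop ℕ∞) φ → HasCompactSupport φ → tsupport φ ⊆ Ω →
          ∀ i j : Fin n,
            ∫ x in Ω, WithLp.ofLp (f x) i * fderiv ℝ φ x (EuclideanSpace.single j (1 : ℝ))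
              = - ∫ x in Ω, Df x i j * φ x) ∧
       LocallyIntegrableOn (fun x => (Df x).det) Ω ∧
       (∀ᵐ x ∂(volume.restrict Ω), 0 ≤ (Df x).det) ∧
       ∃ K : EuclideanSpace ℝ (Fin n) → ℝ, Measurable K ∧ (∀ x ∈ Ω, 1 ≤ K x) ∧
         ∀ᵐ x ∂(volume.restrict Ω), opNorm (Df x) ^ n ≤ K x * (Df x).det)) →
  ∀ (KI : (EuclideanSpace ℝ (Fin n) → Matrix (Fin n) (Fin n) ℝ) → EuclideanSpace ℝ (Fin n) → ℝ),
    (∀ (Df : EuclideanSpace ℝ (Fin n) → Matrix (Fin n) (Fin n) ℝ) (x : EuclideanSpace ℝ (Fin n)),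
      KI Df x = if 0 < (Df x).det
        then opNorm (Df x).adjugate ^ n / (Df x).det ^ (n - 1) else 1) →
  ∀ p : ℝ, 1 < p →
  ∀ g : EuclideanSpace ℝ (Fin n) → EuclideanSpace ℝ (Fin n),
    ContinuousOn g (closure Ω) → InjOn g (closure Ω) → g '' closure Ω = closure (g '' Ω) →
    (∃ Dg : EuclideanSpace ℝ (Fin n) → Matrix (Fin n) (Fin n) ℝ,
      FD g Dg ∧ ∫⁻ x in Ω, ENNReal.ofReal (KI Dg x ^ p) < ⊤) →
  ∀ (f : EuclideanSpace ℝ (Fin n) → EuclideanSpace ℝ (Fin n))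
    (Df : EuclideanSpace ℝ (Fin n) → Matrix (Fin n) (Fin n) ℝ),
    ContinuousOn f (closure Ω) → InjOn f (closure Ω) → f '' closure Ω = closure (g '' Ω) →
    (∀ x ∈ frontier Ω, f x = g x) → FD f Df →
    (∀ (h : EuclideanSpace ℝ (Fin n) → EuclideanSpace ℝ (Fin n))
       (Dh : EuclideanSpace ℝ (Fin n) → Matrix (Fin n) (Fin n) ℝ),
       ContinuousOn h (closure Ω) → InjOn h (closure Ω) → h '' closure Ω = closure (g '' Ω) →
       (∀ x ∈ frontier Ω, h x = g x) → FD h Dh →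
       ∫⁻ x in Ω, ENNReal.ofReal (KI Df x ^ p) ≤ ∫⁻ x in Ω, ENNReal.ofReal (KI Dh x ^ p)) →
    (f '' Ω = g '' Ω ∧ ContDiffOn ℝ ((⊤ : ℕ∞) : WithTop ℕ∞) f Ω ∧
      ∃ f' : EuclideanSpace ℝ (Fin n) → EuclideanSpace ℝ (Fin n),
        MapsTo f' (g '' Ω) Ω ∧ (∀ x ∈ Ω, f' (f x) = x) ∧ (∀ y ∈ g '' Ω, f (f' y) = y) ∧
        ContDiffOn ℝ ((⊤ : ℕ∞) : WithTop ℕ∞) f' (g '' Ω))) := by
  intro H
  obtain ⟨Ω, g, Dg, hdom, hbd, hmin, hnC2, -⟩ :=
    Pool.Agent.Results.MP_6ded3d_an.PlanarNonsmoothMinimizer.planar_example 2 (by norm_num)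
  obtain ⟨hopen, hconn, hbdd⟩ := hdom
  have hcomp : IsCompact (closure Ω) := hbdd.isCompact_closure
  have hop : ∀ A : Matrix (Fin 2) (Fin 2) ℝ,
      Pool.Agent.Results.MP_6ded3d_an.PlanarNonsmoothMinimizer.opNorm A =
        ‖LinearMap.toContinuousLinearMap (Matrix.toEuclideanLin A)‖ := fun A => rfl
  -- the two forms of finite distortion agree
  have hfd : ∀ (f : EuclideanSpace ℝ (Fin 2) → EuclideanSpace ℝ (Fin 2))
      (Df : EuclideanSpace ℝ (Fin 2) → Matrix (Fin 2) (Fin 2) ℝ),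
      Pool.Agent.Results.MP_6ded3d_an.PlanarNonsmoothMinimizer.FiniteDistortion Ω f Df ↔
      ((∀ i : Fin 2, LocallyIntegrableOn (fun x => WithLp.ofLp (f x) i) Ω) ∧
       (∀ i j : Fin 2, LocallyIntegrableOn (fun x => Df x i j) Ω) ∧
       (∀ φ : EuclideanSpace ℝ (Fin 2) → ℝ,
          ContDiff ℝ ((⊤ : ℕ∞) : WithTop ℕ∞) φ → HasCompactSupport φ → tsupport φ ⊆ Ω →
          ∀ i j : Fin 2,
            ∫ x in Ω, WithLp.ofLp (f x) i * fderiv ℝ φ x (EuclideanSpace.single j (1 : ℝ))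
              = - ∫ x in Ω, Df x i j * φ x) ∧
       LocallyIntegrableOn (fun x => (Df x).det) Ω ∧
       (∀ᵐ x ∂(volume.restrict Ω), 0 ≤ (Df x).det) ∧
       ∃ K : EuclideanSpace ℝ (Fin 2) → ℝ, Measurable K ∧ (∀ x ∈ Ω, 1 ≤ K x) ∧
         ∀ᵐ x ∂(volume.restrict Ω),
           Pool.Agent.Results.MP_6ded3d_an.PlanarNonsmoothMinimizer.opNorm (Df x) ^ 2 ≤
             K x * (Df x).det) := by
    intro f Df
    constructor
    · rintro ⟨⟨h1, h2, h3⟩, h4, h5, K, hK1, hK2, hK3⟩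
      refine ⟨h1, h2, fun φ hφ1 hφ2 hφ3 i j => ?_, h4, h5, K, hK1, fun x _ => hK2 x, hK3⟩
      have h := h3 φ ⟨hφ1, hφ2, hφ3⟩ i j
      have e1 : (fun x => WithLp.ofLp (f x) i * fderiv ℝ φ x (EuclideanSpace.single j (1 : ℝ))) =
          fun x => Pool.Agent.Results.MP_6ded3d_an.PlanarNonsmoothMinimizer.dj φ j x * f x i := by
        funext x; exact mul_comm _ _
      have e2 : (fun x => Df x i j * φ x) = fun x => φ x * Df x i j := by
        funext x; exact mul_comm _ _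
      rw [e1, e2]
      exact h
    · rintro ⟨h1, h2, h3, h4, h5, K, hK1, hK2, hK3⟩
      refine ⟨⟨h1, h2, ?_⟩, h4, h5, fun x => max 1 (K x), measurable_const.max hK1,
        fun x => le_max_left _ _, ?_⟩
      · rintro φ ⟨hφ1, hφ2, hφ3⟩ i j
        have h := h3 φ hφ1 hφ2 hφ3 i j
        have e1 : (fun x => WithLp.ofLp (f x) i *
            fderiv ℝ φ x (EuclideanSpace.single j (1 : ℝ))) =
            fun x => Pool.Agent.Results.MP_6ded3d_an.PlanarNonsmoothMinimizer.dj φ j x * f x i := by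
          funext x; exact mul_comm _ _
        have e2 : (fun x => Df x i j * φ x) = fun x => φ x * Df x i j := by
          funext x; exact mul_comm _ _
        rw [e1, e2] at h
        exact h
      · filter_upwards [hK3, h5] with x hx hx5
        exact hx.trans (mul_le_mul_of_nonneg_right (le_max_right _ _) hx5)
  have hhomeo : ∀ f : EuclideanSpace ℝ (Fin 2) → EuclideanSpace ℝ (Fin 2),
      ContinuousOn f (closure Ω) → InjOn f (closure Ω) → f '' closure Ω = closure (g '' Ω) →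
      Pool.Agent.Results.MP_6ded3d_an.PlanarNonsmoothMinimizer.IsHomeoOnto f (closure Ω)
        (closure (g '' Ω)) := by
    intro f h1 h2 h3
    rw [← h3]
    exact Pool.Agent.Results.MP_6ded3d_an.PlanarNonsmoothMinimizer.isHomeoOnto_of_compact hcomp h1 h2
  obtain ⟨hg1, hg2, hg3⟩ := hbd.homeo
  have hmem := hbd.distortion_Lp
  have hnn : ∀ A : Matrix (Fin 2) (Fin 2) ℝ,
      0 ≤ Pool.Agent.Results.MP_6ded3d_an.PlanarNonsmoothMinimizer.innerDistortion A := by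
    intro A
    unfold Pool.Agent.Results.MP_6ded3d_an.PlanarNonsmoothMinimizer.innerDistortion
    split_ifs with hA
    · apply div_nonneg
      · apply pow_nonneg
        rw [hop]
        exact norm_nonneg _
      · exact pow_nonneg hA.le _
    · exact zero_le_one
  have hen : ∫⁻ x in Ω, ENNReal.ofReal
      (Pool.Agent.Results.MP_6ded3d_an.PlanarNonsmoothMinimizer.innerDistortion (Dg x) ^ (2 : ℝ)) <
        ⊤ := by
    have h1 := lintegral_rpow_enorm_lt_top_of_eLpNorm_lt_top (by simp) (by simp) hmem.2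
    refine lt_of_le_of_lt (le_of_eq ?_) h1
    refine lintegral_congr fun x => ?_
    rw [ENNReal.toReal_ofReal (by norm_num), Real.enorm_of_nonneg (hnn _),
      ENNReal.ofReal_rpow_of_nonneg (hnn _) (by norm_num)]
  have hfin := H 2 le_rfl Ω hopen hconn hbdd
    (fun A => Pool.Agent.Results.MP_6ded3d_an.PlanarNonsmoothMinimizer.opNorm A) hop
    (fun f Df =>
      Pool.Agent.Results.MP_6ded3d_an.PlanarNonsmoothMinimizer.FiniteDistortion Ω f Df) hfd
    (fun Df x => Pool.Agent.Results.MP_6ded3d_an.PlanarNonsmoothMinimizer.innerDistortion (Df x))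
    (fun Df x => rfl) 2 (by norm_num) g hg1 hg2.injOn hg2.image_eq
    ⟨Dg, hbd.finiteDistortion, hen⟩ g Dg hg1 hg2.injOn hg2.image_eq (fun x _ => rfl)
    hbd.finiteDistortion (fun h Dh hh1 hh2 hh3 hh4 hh5 =>
      hmin.2 h Dh ⟨hhomeo h hh1 hh2 hh3, hh5, hh4⟩)
  exact hnC2 (contDiffOn_infty.1 hfin.2.1 2)

end Pool.Agent.S04980
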