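import Pool.Statements.S05106

set_option autoImplicit false
open Pool Pool.MP_7987d1_an

namespace Pool.Agent.S05106

/-- The logistic function. -/
noncomputable def sg (s : ℝ) : ℝ := (1 + Real.exp (-s))⁻¹

theorem sg_pos (s : ℝ) : 0 < sg s := by unfold sg; positivity

theorem sg_lt_one (s : ℝ) : sg s < 1 := by
  unfold sg
  rw [inv_lt_one_iff₀]
  right
  have := Real.exp_pos (-s)
  linarith

theorem hasDerivAt_sg (s : ℝ) : HasDerivAt sg (sg s * (1 - sg s)) s := by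
  have h1 : HasDerivAt (fun s : ℝ => 1 + Real.exp (-s)) (-Real.exp (-s)) s := by
    have := ((hasDerivAt_neg s).exp).const_add 1
    simpa using this
  have h2 : (1 + Real.exp (-s)) ≠ 0 := by positivity
  have h3 := h1.inv h2
  refine h3.congr_deriv ?_
  unfold sg
  field_simp
  ring

theorem contDiff_sg : ContDiff ℝ 2 sg := by
  unfold sg
  apply ContDiff.inv
  · exact contDiff_const.add (Real.contDiff_exp.comp contDiff_neg)
  · intro x; positivity

/-- The explicit front. -/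
noncomputable def U (p : EuclideanSpace ℝ (Fin 1) × ℝ) : ℝ :=
  sg (p.1 0 / Real.sqrt 2 + 3 / 2 * p.2)

/-- The first coordinate as a continuous linear functional. -/
noncomputable abbrev L : EuclideanSpace ℝ (Fin 1) →L[ℝ] ℝ := EuclideanSpace.proj (0 : Fin 1)

theorem hasFDerivAt_x (x : EuclideanSpace ℝ (Fin 1)) (t : ℝ) :
    HasFDerivAt (fun y : EuclideanSpace ℝ (Fin 1) => U (y, t))
      ((sg (x 0 / Real.sqrt 2 + 3 / 2 * t) * (1 - sg (x 0 / Real.sqrt 2 + 3 / 2 * t))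
        / Real.sqrt 2) • L) x := by
  have h1 : HasFDerivAt (fun y : EuclideanSpace ℝ (Fin 1) => y 0 / Real.sqrt 2 + 3 / 2 * t)
      ((1 / Real.sqrt 2) • L) x := by
    have h0 : HasFDerivAt (fun y : EuclideanSpace ℝ (Fin 1) => (1 / Real.sqrt 2) • L y + 3 / 2 * t)
      ((1 / Real.sqrt 2) • L) x := (L.hasFDerivAt.const_smul (1 / Real.sqrt 2)).add_const _
    refine h0.congr_of_eventuallyEq (Filter.Eventually.of_forall fun y => ?_)
    simp [L, div_eq_inv_mul]
  have h2 := (hasDerivAt_sg (x 0 / Real.sqrt 2 + 3 / 2 * t)).comp_hasFDerivAt x h1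
  refine h2.congr_fderiv ?_
  rw [smul_smul]
  congr 1
  ring

theorem hasFDerivAt_k (x : EuclideanSpace ℝ (Fin 1)) (t : ℝ) :
    HasFDerivAt (fun y : EuclideanSpace ℝ (Fin 1) =>
      sg (y 0 / Real.sqrt 2 + 3 / 2 * t) * (1 - sg (y 0 / Real.sqrt 2 + 3 / 2 * t)) / Real.sqrt 2)
      (((1 - 2 * sg (x 0 / Real.sqrt 2 + 3 / 2 * t)) *
        (sg (x 0 / Real.sqrt 2 + 3 / 2 * t) * (1 - sg (x 0 / Real.sqrt 2 + 3 / 2 * t))) / 2) • L)
      x := by
  have h := hasFDerivAt_x x t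
  have h2 : HasDerivAt (fun s : ℝ => s * (1 - s) / Real.sqrt 2)
      ((1 - 2 * sg (x 0 / Real.sqrt 2 + 3 / 2 * t)) / Real.sqrt 2)
      (sg (x 0 / Real.sqrt 2 + 3 / 2 * t)) := by
    have h3 := (((hasDerivAt_id (sg (x 0 / Real.sqrt 2 + 3 / 2 * t))).mul
      ((hasDerivAt_id (sg (x 0 / Real.sqrt 2 + 3 / 2 * t))).const_sub 1)).div_const (Real.sqrt 2))
    refine h3.congr_deriv ?_
    simp
    ring
  have h4 := h2.comp_hasFDerivAt x h
  refine h4.congr_fderiv ?_
  rw [smul_smul]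
  congr 1
  have h5 : Real.sqrt 2 * Real.sqrt 2 = 2 := Real.mul_self_sqrt (by norm_num)
  have h6 : Real.sqrt 2 ≠ 0 := by positivity
  field_simp
  rw [pow_two, h5]

theorem hasDerivAt_t (x : EuclideanSpace ℝ (Fin 1)) (t : ℝ) :
    HasDerivAt (fun s : ℝ => U (x, s))
      (3 / 2 * (sg (x 0 / Real.sqrt 2 + 3 / 2 * t) * (1 - sg (x 0 / Real.sqrt 2 + 3 / 2 * t)))) t := by
  have h1 : HasDerivAt (fun s : ℝ => x 0 / Real.sqrt 2 + 3 / 2 * s) (3 / 2) t := by
    simpa using ((hasDerivAt_id t).const_mul (3 / 2 : ℝ)).const_add (x 0 / Real.sqrt 2)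
  have h2 := (hasDerivAt_sg (x 0 / Real.sqrt 2 + 3 / 2 * t)).comp t h1
  refine h2.congr_deriv ?_
  ring

/-- The negation of the preceding statement: For 1≤n≤8, every C² solution of Δu−u_t=u³−u for t<0 with ∣u∣≤1, ∂u/∂x_n>0 and u_t≥0 has the form u(x,t)=g(ν·x) for a unit vector ν, i.e. is one-dimensional and time-independent. -/
theorem result :
    ¬ (∀ m : ℕ, m + 1 ≤ 8 → ∀ u : EuclideanSpace ℝ (Fin (m + 1)) × ℝ → ℝ,
    ContDiffOn ℝ 2 u {p | p.2 < 0} →
    (∀ x : EuclideanSpace ℝ (Fin (m + 1)), ∀ t : ℝ, t < 0 →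
      |u (x, t)| ≤ 1 ∧
      (∑ i : Fin (m + 1), iteratedFDeriv ℝ 2 (fun y => u (y, t)) x
          (fun _ => EuclideanSpace.single i (1 : ℝ)))
        - deriv (fun s => u (x, s)) t = u (x, t) ^ 3 - u (x, t) ∧
      0 < fderiv ℝ (fun y => u (y, t)) x (EuclideanSpace.single (Fin.last m) (1 : ℝ)) ∧
      0 ≤ deriv (fun s => u (x, s)) t) →
    ∃ ν : EuclideanSpace ℝ (Fin (m + 1)), ‖ν‖ = 1 ∧
      ∃ g : ℝ → ℝ, ∀ x : EuclideanSpace ℝ (Fin (m + 1)), ∀ t : ℝ, t < 0 →
        u (x, t) = g (inner ℝ ν x)) := by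
  intro H
  have hU : ContDiff ℝ 2 U := by
    have h1 : ContDiff ℝ 2 (fun p : EuclideanSpace ℝ (Fin 1) × ℝ =>
        p.1 0 / Real.sqrt 2 + 3 / 2 * p.2) := by fun_prop
    exact contDiff_sg.comp h1
  obtain ⟨ν, -, g, hg⟩ := H 0 (by norm_num) U hU.contDiffOn (by
    intro x t _
    set s := sg (x 0 / Real.sqrt 2 + 3 / 2 * t) with hs
    have hs0 : 0 < s := sg_pos _
    have hs1 : s < 1 := sg_lt_one _
    have hUs : U (x, t) = s := rfl
    have hsq : 0 < Real.sqrt 2 := by positivity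
    refine ⟨?_, ?_, ?_, ?_⟩
    · rw [hUs, abs_le]; constructor <;> linarith
    · rw [(hasDerivAt_t x t).deriv, hUs]
      simp only [Finset.univ_unique, Fin.default_eq_zero, Fin.isValue, Finset.sum_singleton,
        Nat.reduceAdd]
      rw [iteratedFDeriv_two_apply]
      have hf : fderiv ℝ (fun y : EuclideanSpace ℝ (Fin 1) => U (y, t)) =
          fun y => (sg (y 0 / Real.sqrt 2 + 3 / 2 * t) * (1 - sg (y 0 / Real.sqrt 2 + 3 / 2 * t))
            / Real.sqrt 2) • L := by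
        funext y
        exact (hasFDerivAt_x y t).fderiv
      rw [hf]
      have h2 := (hasFDerivAt_k x t).smul_const L
      rw [h2.fderiv]
      simp [L]
      ring
    · rw [(hasFDerivAt_x x t).fderiv]
      simp [L]
      have : 0 < 1 - s := by linarith
      positivity
    · rw [(hasDerivAt_t x t).deriv]
      have : 0 < 1 - s := by linarith
      positivity)
  have h1 := hg 0 (-1) (by norm_num)
  have h2 := hg 0 (-2) (by norm_num)
  have h3 : U (0, -1) = U (0, -2) := by rw [h1, h2]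
  unfold U sg at h3
  rw [inv_inj] at h3
  have h4 : Real.exp (-((0 : EuclideanSpace ℝ (Fin 1)) 0 / Real.sqrt 2 + 3 / 2 * (-1 : ℝ))) =
      Real.exp (-((0 : EuclideanSpace ℝ (Fin 1)) 0 / Real.sqrt 2 + 3 / 2 * (-2 : ℝ))) := by
    simpa using h3
  have h5 := Real.exp_injective h4
  norm_num at h5

end Pool.Agent.S05106
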