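import Pool.Statements.S05156
-- import your own Pool.Agent.* helpers here

set_option autoImplicit false
open Pool Pool.MP_7d5b5f_an

namespace Pool.Agent.S05156

/-- The negation of the preceding statement: For each p>1 there is C, independent of dimension d and coordinate k, so the discrete Riesz transform with kernel Γ((d+1)/2)π^{-(d+1)/2} x_k/∣x∣^{d+1} on ℤ^d is bounded on ℓ^p with norm at most C (tested on finitely supported f). -/
theorem result :
    ¬ (∀ p : ℝ, 1 < p → ∃ C : ℝ, 0 < C ∧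
      ∀ (d : ℕ) (k : Fin d) (S T : Finset (Fin d → ℤ)) (f : (Fin d → ℤ) → ℝ),
        ∑ n ∈ T, |∑ m ∈ S,
            ((Real.Gamma (((d : ℝ) + 1) / 2) / Real.pi ^ (((d : ℝ) + 1) / 2)) *
              (((n k - m k : ℤ) : ℝ) /
                (Real.sqrt (∑ i, (((n i - m i : ℤ) : ℝ)) ^ 2)) ^ (d + 1))) * f m| ^ p
          ≤ C ^ p * ∑ m ∈ S, |f m| ^ p) := by
  intro h
  obtain ⟨C, hC, h⟩ := h 2 one_lt_two
  have key : ∀ N : ℕ, (N.factorial : ℝ) / Real.pi ^ (N + 1) ≤ C := by
    intro N
    have h1 := h (2 * N + 1) 0 {0} {fun i => if i = 0 then 1 else 0} (fun _ => 1)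
    have hG : (((2 * N + 1 : ℕ) : ℝ) + 1) / 2 = (N : ℝ) + 1 := by push_cast; ring
    have hs : (∑ i : Fin (2 * N + 1), ((((if i = 0 then 1 else 0 : ℤ) - 0 : ℤ) : ℝ)) ^ 2) = 1 := by
      rw [Finset.sum_eq_single (0 : Fin (2 * N + 1))]
      · simp
      · intro b _ hb
        simp [hb]
      · intro hb
        exact absurd (Finset.mem_univ _) hb
    simp only [Finset.sum_singleton, Pi.zero_apply] at h1
    rw [hs, hG, Real.Gamma_nat_eq_factorial] at h1
    have hpi : Real.pi ^ ((N : ℝ) + 1) = Real.pi ^ (N + 1) := by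
      rw [← Real.rpow_natCast]
      push_cast
      rfl
    rw [hpi] at h1
    simp only [if_true, sub_zero, Int.cast_one, Real.sqrt_one, one_pow, div_one, mul_one,
      abs_one, Real.one_rpow] at h1
    have h0 : 0 ≤ (N.factorial : ℝ) / Real.pi ^ (N + 1) := by positivity
    rw [abs_of_nonneg h0] at h1
    exact (Real.rpow_le_rpow_iff h0 hC.le (by norm_num)).1 h1
  have hlim := FloorSemiring.tendsto_pow_div_factorial_atTop Real.pi
  have hpos : 0 < 1 / (C * Real.pi) := by positivity
  obtain ⟨N, hN⟩ := (hlim.eventually_lt_const hpos).exists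
  have h1 := key N
  have hf : (0 : ℝ) < N.factorial := by exact_mod_cast Nat.factorial_pos N
  have hp : 0 < Real.pi ^ N := pow_pos Real.pi_pos N
  rw [div_le_iff₀ (by positivity), pow_succ] at h1
  rw [div_lt_div_iff₀ hf (by positivity)] at hN
  nlinarith [h1, hN]

end Pool.Agent.S05156
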