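import Pool.Statements.S05168
-- import your own Pool.Agent.* helpers here
import Pool.Agent.Q171.Hol.Fin

set_option autoImplicit false
open MeasureTheory
open Pool Pool.MP_7dd24e_an

namespace Pool.Agent.S05168

/-- The negation of the preceding statement: If two nested topological spheres in R^3 bound a shell whose Newtonian potential is constant in the inner cavity, then the two surfaces are the images of concentric spheres of radii 1 and k<1 under one invertible affine map. -/
theorem result :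
    ¬ (∀ (S S₁ U T₁ : Set (EuclideanSpace ℝ (Fin 3))),
    Nonempty (S ≃ₜ Metric.sphere (0 : EuclideanSpace ℝ (Fin 3)) 1) →
    Nonempty (S₁ ≃ₜ Metric.sphere (0 : EuclideanSpace ℝ (Fin 3)) 1) →
    IsOpen U → IsConnected U → Bornology.IsBounded U → frontier U = S →
    IsOpen T₁ → IsConnected T₁ → Bornology.IsBounded T₁ → frontier T₁ = S₁ →
    closure T₁ ⊆ U →
    (∃ c : ℝ, ∀ P ∈ T₁, ∫ M in U \ closure T₁, (dist P M)⁻¹ = c) →
    ∃ (f : EuclideanSpace ℝ (Fin 3) ≃ᵃ[ℝ] EuclideanSpace ℝ (Fin 3)) (k : ℝ),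
      0 < k ∧ k < 1 ∧
      S = f '' Metric.sphere (0 : EuclideanSpace ℝ (Fin 3)) 1 ∧
      S₁ = f '' Metric.sphere (0 : EuclideanSpace ℝ (Fin 3)) k) := by
  intro hall
  obtain ⟨K, hK, hKU, c, hc⟩ := Pool.Agent.Q171.Hol.shell
  have hO := Pool.Agent.Q171.Hol.Kout_sb
  have hOi := Pool.Agent.Q171.Hol.Kout_int
  have hfr : frontier Pool.Agent.Q171.Hol.Ud = frontier Pool.Agent.Q171.Hol.Kout := by
    rw [← hOi, hO.frontier_int]
  obtain ⟨f, k, -, -, hS, -⟩ := hall (frontier Pool.Agent.Q171.Hol.Kout) (frontier K)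
    Pool.Agent.Q171.Hol.Ud (interior K) hO.homeo hK.homeo
    Pool.Agent.Q171.Hol.Ud_open (by rw [← hOi]; exact hO.conn) (by rw [← hOi]; exact hO.bdd) hfr
    isOpen_interior hK.conn hK.bdd hK.frontier_int (by rw [hK.closure_int]; exact hKU)
    ⟨c, fun P hP => by rw [hK.closure_int]; exact hc P (interior_subset hP)⟩
  exact Pool.Agent.Q171.Hol.not_sphere f hS

end Pool.Agent.S05168
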