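import Pool.Statements.S05228
import Pool.Agent.Results.MP_8222c7_an.SemisimpleFails

set_option autoImplicit false
open Pool Pool.MP_8222c7_an

namespace Pool.Agent.S05228

/-- The negation of the preceding statement: Every non-radical commutative amenable complex Banach algebra A has this property: two continuous homomorphisms from A into a commutative Banach algebra whose difference takes only quasinilpotent (radical) values are equal. -/
theorem result :
    ¬ (∀ (A : Type) [NonUnitalNormedCommRing A] [NormedSpace ℂ A] [IsScalarTower ℂ A A]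
      [SMulCommClass ℂ A A] [CompleteSpace A],
      (∃ a : A, ¬ quasispectrum ℂ a ⊆ {0}) →
      (∀ (E : Type) [NormedAddCommGroup E] [NormedSpace ℂ E] [CompleteSpace E]
        (l r : A →L[ℂ] (E →L[ℂ] E)),
        (∀ a b : A, l (a * b) = (l a).comp (l b)) →
        (∀ a b : A, r (a * b) = (r b).comp (r a)) →
        (∀ a b : A, (l a).comp (r b) = (r b).comp (l a)) →
        ∀ D : A →L[ℂ] (E →L[ℂ] ℂ),
          (∀ (a b : A) (x : E), D (a * b) x = D b (r a x) + D a (l b x)) →
          ∃ f : E →L[ℂ] ℂ, ∀ (a : A) (x : E), D a x = f (r a x) - f (l a x)) →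
      ∀ (B : Type) [NonUnitalNormedCommRing B] [NormedSpace ℂ B] [IsScalarTower ℂ B B]
        [SMulCommClass ℂ B B] [CompleteSpace B]
        (φ ψ : A →ₙₐ[ℂ] B), Continuous φ → Continuous ψ →
        (∀ a : A, quasispectrum ℂ (φ a - ψ a) ⊆ {0}) → φ = ψ) := by
  intro h
  obtain ⟨A, i1, i2, hA, -, -, hAm, B, j1, j2, hB, -, φ, ψ, hφ, hψ, -, -, hrad, hne⟩ :=
    Pool.Agent.Results.MP_8222c7_an.SemisimpleFails.result
  haveI := hA
  haveI := hB
  haveI : Nontrivial A := by
    by_contra hn
    rw [not_nontrivial_iff_subsingleton] at hn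
    apply hne
    have h10 : (1 : B) = 0 := by
      rw [← map_one φ, Subsingleton.elim (1 : A) 0, map_zero]
    ext a
    rw [← mul_one (φ a), ← mul_one (ψ a), h10, mul_zero, mul_zero]
  refine hne ?_
  have h1 := h A ⟨1, ?_⟩ ?_ B (φ : A →ₙₐ[ℂ] B) (ψ : A →ₙₐ[ℂ] B) hφ hψ ?_
  · ext a
    exact DFunLike.congr_fun h1 a
  · intro hsub
    rw [quasispectrum_eq_spectrum_union_zero, spectrum.one_eq] at hsub
    have h2 : (1 : ℂ) ∈ ({0} : Set ℂ) := hsub (Or.inl rfl)
    exact one_ne_zero (Set.mem_singleton_iff.1 h2)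
  · intro E _ _ _ l r hl hr hlr D hD
    have hAm' : H611R3.ZL.IsAmenable A := H611R3.ZL.amenable_iff.1 hAm
    exact hAm' E inferInstance inferInstance inferInstance l r
      (fun a b x => by rw [hl a b]; rfl) (fun a b x => by rw [hr a b]; rfl)
      (fun a b x => by
        have := DFunLike.congr_fun (hlr a b) x
        exact this) D hD
  · intro a k hk
    rw [quasispectrum_eq_spectrum_union_zero] at hk
    rcases hk with hk | hk
    · by_contra hk0
      have hk0' : k ≠ 0 := hk0
      have hj := hrad a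
      rw [Ideal.mem_jacobson_bot] at hj
      have hu := hj (-(algebraMap ℂ B k⁻¹))
      apply (spectrum.mem_iff.1 hk)
      have he : algebraMap ℂ B k - ((φ : A →ₙₐ[ℂ] B) a - (ψ : A →ₙₐ[ℂ] B) a) =
          algebraMap ℂ B k * ((φ a - ψ a) * -(algebraMap ℂ B k⁻¹) + 1) := by
        have h3 : algebraMap ℂ B k * algebraMap ℂ B k⁻¹ = 1 := by
          rw [← map_mul, mul_inv_cancel₀ hk0', map_one]
        have h4 : ((φ : A →ₙₐ[ℂ] B) a) = φ a := rfl
        have h5 : ((ψ : A →ₙₐ[ℂ] B) a) = ψ a := rfl
        rw [h4, h5]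
        linear_combination (φ a - ψ a) * h3
      rw [he]
      exact ((Ne.isUnit hk0').map (algebraMap ℂ B)).mul hu
    · exact hk

end Pool.Agent.S05228
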