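import Pool.Statements.S05242
import Pool.Agent.Q0.Keller5

set_option autoImplicit false
open Pool Pool.MP_830bfa_an

namespace Pool.Agent.S05242

/-- The negation of the preceding statement: For every n ≥ 2, a C¹ map f from ℝⁿ to ℝⁿ whose Jacobian is everywhere invertible, with every complex eigenvalue of every Jacobian of modulus at least some fixed ε > 0, is injective. -/
theorem result :
    ¬ (∀ n : ℕ, 2 ≤ n → ∀ f : (Fin n → ℝ) → (Fin n → ℝ), ContDiff ℝ 1 f →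
      (∀ x : Fin n → ℝ,
        (LinearMap.toMatrix' ((fderiv ℝ f x : (Fin n → ℝ) →L[ℝ] (Fin n → ℝ)) :
          (Fin n → ℝ) →ₗ[ℝ] (Fin n → ℝ))).det ≠ 0) →
      (∃ ε : ℝ, 0 < ε ∧ ∀ x : Fin n → ℝ, ∀ z : ℂ,
        Polynomial.aeval z
          (LinearMap.toMatrix' ((fderiv ℝ f x : (Fin n → ℝ) →L[ℝ] (Fin n → ℝ)) :
            (Fin n → ℝ) →ₗ[ℝ] (Fin n → ℝ))).charpoly = 0 → ε ≤ ‖z‖) →
      Function.Injective f) := by
  intro H
  obtain ⟨m, f, hf, hz, hinj⟩ := Pool.Agent.Q0.Keller.reduction (Pool.Agent.Q0.Keller.G4 ℝ)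
    (Pool.Agent.Q0.Keller.G4_zero ℝ) (Pool.Agent.Q0.Keller.G4_lin ℝ)
    (Pool.Agent.Q0.Keller.G4_det ℝ) _ _ (Pool.Agent.Q0.Keller.points_ne ℝ)
    (Pool.Agent.Q0.Keller.G4_val ℝ)
  refine hinj (H ((m+1)*4) (by omega) f hf ?_ ⟨1, one_pos, ?_⟩)
  · intro x h0
    rw [Matrix.det_eq_sign_charpoly_coeff] at h0
    have h2 := (mul_eq_zero.1 h0).resolve_left (pow_ne_zero _ (by norm_num))
    have h1 := hz x 0 (by
      rw [Polynomial.aeval_def, Polynomial.eval₂_at_zero, h2, map_zero])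
    exact zero_ne_one h1
  · intro x z h
    rw [hz x z h]
    simp

end Pool.Agent.S05242
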