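import Pool.Statements.S05316
import Pool.Agent.Q192.SgB

set_option autoImplicit false
open Pool Pool.MP_8a8b2f_an

namespace Pool.Agent.S05316

open MeasureTheory Filter Set Pool.Agent.Q192
open scoped ENNReal Topology InnerProductSpace

/-- The operators on `H`. -/
noncomputable def TH (t : ℝ) : Sg.H →L[ℂ] Sg.H :=
  ((Sg.T (max t 0) (le_max_right _ _)).comp Sg.H.subtypeL).codRestrict Sg.H
    (fun f => Sg.T_mem (max t 0) (le_max_right _ _) f)

theorem TH_coe (t : ℝ) (f : Sg.H) :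
    ((TH t f : Sg.H) : Sg.K) = Sg.T (max t 0) (le_max_right _ _) f := rfl

theorem TH_coe' (t : ℝ) (ht : 0 ≤ t) (f : Sg.H) : ((TH t f : Sg.H) : Sg.K) = Sg.T t ht f := by
  rw [TH_coe]
  have : max t 0 = t := max_eq_left ht
  congr 2

theorem TH_add (s t : ℝ) (hs : 0 ≤ s) (ht : 0 ≤ t) : TH (s + t) = (TH s).comp (TH t) := by
  ext1 f
  apply Subtype.ext
  rw [TH_coe' _ (add_nonneg hs ht), Sg.T_add s t hs ht, ContinuousLinearMap.comp_apply,
    TH_coe' s hs, TH_coe' t ht]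

theorem TH_norm_le (t : ℝ) (f : Sg.H) : ‖TH t f‖ ≤ ‖f‖ := by
  change ‖((TH t f : Sg.H) : Sg.K)‖ ≤ ‖(f : Sg.K)‖
  rw [TH_coe]
  exact Sg.T_le _ _ _

theorem TH_zero : TH 0 = ContinuousLinearMap.id ℂ Sg.H := by
  ext1 f
  apply Subtype.ext
  rw [TH_coe' 0 le_rfl]
  exact Sg.T_zero _ f.2

theorem TH_tendsto (f : Sg.H) : Tendsto (fun t : ℝ => ‖TH t f - f‖) (𝓝 0) (𝓝 0) :=
  Sg.T_tendsto f f.2

theorem TH_cont (f : Sg.H) : ContinuousOn (fun t : ℝ => TH t f) (Ici 0) := by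
  intro t ht
  rw [ContinuousWithinAt, tendsto_iff_norm_sub_tendsto_zero]
  have hbound : ∀ s ∈ Ici (0 : ℝ), ‖TH s f - TH t f‖ ≤ ‖TH |s - t| f - f‖ := by
    intro s hs
    rcases le_total t s with h | h
    · have e : TH s = (TH t).comp (TH (s - t)) := by
        rw [← TH_add t (s - t) ht (sub_nonneg.2 h)]
        congr 1
        ring
      rw [abs_of_nonneg (sub_nonneg.2 h), e, ContinuousLinearMap.comp_apply, ← map_sub]
      exact TH_norm_le _ _
    · have e : TH t = (TH s).comp (TH (t - s)) := by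
        rw [← TH_add s (t - s) hs (sub_nonneg.2 h)]
        congr 1
        ring
      rw [abs_of_nonpos (sub_nonpos.2 h), neg_sub, e, ContinuousLinearMap.comp_apply, ← map_sub]
      refine (TH_norm_le _ _).trans ?_
      rw [norm_sub_rev]
  have hlim : Tendsto (fun s : ℝ => ‖TH |s - t| f - f‖) (𝓝[Ici 0] t) (𝓝 0) := by
    have h1 : Tendsto (fun s : ℝ => |s - t|) (𝓝[Ici 0] t) (𝓝 0) := by
      have h2 : Continuous fun s : ℝ => |s - t| := by fun_prop
      have h3 := h2.tendsto t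
      simp only [sub_self, abs_zero] at h3
      exact tendsto_nhdsWithin_of_tendsto_nhds h3
    exact (TH_tendsto f).comp h1
  refine squeeze_zero' (Eventually.of_forall fun _ => norm_nonneg _) ?_ hlim
  filter_upwards [self_mem_nhdsWithin] with s hs
  exact hbound s hs

/-- The negation of the preceding statement: Take a strongly continuous contraction semigroup on a complex Hilbert space with generator A, and some m>0 with ‖(μ−A)x‖ ≥ m∣Re μ∣‖x‖ for all x in D(A) and Re μ<0. Then some m₁>0 gives ‖T(t)x‖ ≥ m₁‖x‖ for all t≥0 and all x. -/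
theorem result :
    ¬ (∀ (H : Type) [NormedAddCommGroup H] [InnerProductSpace ℂ H] [CompleteSpace H]
      (T : ℝ → H →L[ℂ] H),
      T 0 = ContinuousLinearMap.id ℂ H →
      (∀ s t : ℝ, 0 ≤ s → 0 ≤ t → T (s + t) = (T s).comp (T t)) →
      (∀ x : H, ContinuousOn (fun t : ℝ => T t x) (Set.Ici 0)) →
      (∀ t : ℝ, 0 ≤ t → ‖T t‖ ≤ 1) →
      ∀ m : ℝ, 0 < m →
      (∀ x y : H,
        Filter.Tendsto (fun h : ℝ => ((h : ℂ)⁻¹) • (T h x - x))
          (nhdsWithin 0 (Set.Ioi 0)) (nhds y) →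
        ∀ μ : ℂ, μ.re < 0 → m * |μ.re| * ‖x‖ ≤ ‖μ • x - y‖) →
      ∃ m₁ : ℝ, 0 < m₁ ∧ ∀ t : ℝ, 0 ≤ t → ∀ x : H, m₁ * ‖x‖ ≤ ‖T t x‖) := by
  intro hall
  obtain ⟨m₁, hm₁, hlow⟩ := hall Sg.H TH TH_zero TH_add TH_cont
    (fun t _ => ContinuousLinearMap.opNorm_le_bound _ zero_le_one fun f => by
      rw [one_mul]; exact TH_norm_le t f) (1 / 4) (by norm_num) (by
    intro x y hxy μ hμ
    have ha : 0 < -μ.re := by linarith
    have hlim : Tendsto (fun h : ℝ => ((h : ℂ)⁻¹) • (((TH h x : Sg.H) : Sg.K) - (x : Sg.K)))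
        (𝓝[>] 0) (𝓝 (y : Sg.K)) :=
      (continuous_subtype_val.tendsto y).comp hxy
    have h := Sg.abs_bound (Sg.M (Sg.ψ (-μ.re)) (Sg.ψ_meas _) (Sg.ψ_le _ ha)) (Sg.M_norm _ _ _)
      (fun h : ℝ => ((TH h x : Sg.H) : Sg.K)) x y μ (-μ.re) (by ring) hlim (by
        have h1 : Iio (1 / (8 * (-μ.re))) ∈ 𝓝[>] (0 : ℝ) :=
          mem_nhdsWithin_of_mem_nhds (Iio_mem_nhds (by positivity))
        filter_upwards [h1, self_mem_nhdsWithin] with t ht1 ht2
        have ht2 : (0 : ℝ) < t := ht2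
        have ht1 : t < 1 / (8 * (-μ.re)) := ht1
        rw [lt_div_iff₀ (by positivity)] at ht1
        have h2 := Sg.key (-μ.re) ha t ht2.le (by linarith) x x.2
        simp only [TH_coe' t ht2.le]
        exact h2)
    rw [abs_of_neg hμ]
    calc 1 / 4 * -μ.re * ‖x‖ = -μ.re / 4 * ‖(x : Sg.K)‖ := by
          change 1 / 4 * -μ.re * ‖(x : Sg.K)‖ = _
          ring
      _ ≤ _ := h)
  -- the lower bound fails
  have hmem : (indicatorConstLp 2 (measurableSet_Ioc (a := (0 : ℝ)) (b := 1))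
      (by simp) (1 : ℂ) : Sg.K) ∈ Sg.H := by
    rw [Sg.mem_H]
    filter_upwards [indicatorConstLp_coeFn (p := 2) (hs := measurableSet_Ioc (a := (0 : ℝ)) (b := 1))
      (hμs := by simp) (c := (1 : ℂ)) (μ := (volume : Measure ℝ))] with s hs h0
    rw [hs, indicator_of_notMem]
    simp [h0]
  set f : Sg.K := indicatorConstLp 2 (measurableSet_Ioc (a := (0 : ℝ)) (b := 1))
      (by simp) (1 : ℂ) with hf
  have hfae : ∀ᵐ s : ℝ, f s = (Ioc (0 : ℝ) 1).indicator (fun _ => (1 : ℂ)) s :=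
    indicatorConstLp_coeFn
  have hnorm : ‖f‖ ^ 2 = 1 := by
    rw [Sg.nsq]
    have : ∫ s, ‖f s‖ ^ 2 = ∫ s, (Ioc (0 : ℝ) 1).indicator (fun _ => (1 : ℝ)) s := by
      refine integral_congr_ae ?_
      filter_upwards [hfae] with s hs
      rw [hs]
      by_cases h : s ∈ Ioc (0 : ℝ) 1 <;> simp [indicator, h]
    rw [this, integral_indicator measurableSet_Ioc]
    simp
  have hT : ∀ t : ℝ, ∀ ht : 0 < t, ‖Sg.T t ht.le f‖ ^ 2 ≤ 1 / t := by
    intro t ht
    have h1 := Sg.q_T (fun _ => (1 : ℝ)) measurable_const (fun _ => by simp) t ht.le f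
    rw [Sg.q_eq] at h1
    simp only [one_mul] at h1
    rw [Sg.nsq, h1]
    have h2 : ∫ s, (Ioc (0 : ℝ) 1).indicator (fun _ => (1 / t : ℝ)) s = 1 / t := by
      rw [integral_indicator measurableSet_Ioc]
      simp
    rw [← h2]
    refine integral_mono_ae ?_ ?_ ?_
    · have h3 := Sg.int_mul (fun s => Sg.φ t (s + t) ^ 2)
        (((Sg.φ_meas t).comp (measurable_id.add_const t)).pow_const 2) (fun s => by
          rw [abs_pow]
          exact pow_le_one₀ (abs_nonneg _) (Sg.φ_le t ht.le _)) f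
      exact h3
    · exact (integrable_indicator_iff measurableSet_Ioc).2 (by
        exact integrableOn_const (by simp))
    · filter_upwards [hfae] with s hs
      change Sg.φ t (s + t) ^ 2 * ‖f s‖ ^ 2 ≤ _
      rw [hs]
      by_cases h : s ∈ Ioc (0 : ℝ) 1
      · rw [indicator_of_mem h, indicator_of_mem h, norm_one, one_pow, mul_one,
          Sg.φ_sq t (s + t) ht.le (by linarith [h.1]), div_le_div_iff₀ (by linarith [h.1]) ht]
        nlinarith [h.1, h.2]
      · rw [indicator_of_notMem h, indicator_of_notMem h]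
        simp
  have h1 := hlow (2 / m₁ ^ 2) (by positivity) ⟨f, hmem⟩
  have h2 : ‖TH (2 / m₁ ^ 2) ⟨f, hmem⟩‖ ^ 2 ≤ m₁ ^ 2 / 2 := by
    change ‖((TH (2 / m₁ ^ 2) ⟨f, hmem⟩ : Sg.H) : Sg.K)‖ ^ 2 ≤ _
    rw [TH_coe' (2 / m₁ ^ 2) (by positivity)]
    refine (hT (2 / m₁ ^ 2) (by positivity)).trans (le_of_eq ?_)
    field_simp
  have h3 : ‖(⟨f, hmem⟩ : Sg.H)‖ = 1 := by
    change ‖f‖ = 1
    have := norm_nonneg f
    nlinarith
  rw [h3, mul_one] at h1
  have h4 : m₁ ^ 2 ≤ ‖TH (2 / m₁ ^ 2) ⟨f, hmem⟩‖ ^ 2 := pow_le_pow_left₀ hm₁.le h1 2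
  have : 0 < m₁ ^ 2 := by positivity
  linarith

end Pool.Agent.S05316
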