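import Pool.Statements.S05648
import Pool.Agent.Q175.PZ.Fin

set_option autoImplicit false
open MeasureTheory Filter Topology
open Pool Pool.MP_a271d0_an

namespace Pool.Agent.S05648

open Pool.Agent.Q175.PZ in
/-- functions of the class vanish outside the domain -/
lemma zero_outside {Ω : Set E3} {u : E3 → ℝ} {G : E3 → E3} (hu : IsH Ω u G) :
    ∀ᵐ x, x ∉ Ω → u x = 0 := by
  obtain ⟨φ, hφ, h1, h2⟩ := hu.seq
  have hm : TendstoInMeasure volume φ atTop u := by
    apply tendstoInMeasure_of_tendsto_eLpNorm (p := 2) (by norm_num)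
      (fun n => (hφ n).1.continuous.aestronglyMeasurable) hu.memf.aestronglyMeasurable
    exact h1
  obtain ⟨ns, hns, hae⟩ := hm.exists_seq_tendsto_ae
  filter_upwards [hae] with x hx hxΩ
  have h3 : ∀ i, φ (ns i) x = 0 := fun i =>
    image_eq_zero_of_notMem_tsupport (fun h => hxΩ ((hφ (ns i)).2.2 h))
  simp only [h3] at hx
  exact (tendsto_nhds_unique tendsto_const_nhds hx).symm

/-- the centre of the ball -/
noncomputable def cc : EuclideanSpace ℝ (Fin 3) := EuclideanSpace.single 0 1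

lemma norm_cc : ‖cc‖ = 1 := by simp [cc]

/-- The negation of the preceding statement: For every N≥3, smooth bounded domain Ω in R^N with 0 on its boundary, s in (0,2) and 2*(s)-1<p<(N+2)/(N-2), there is an H^1_0 function u>0 on Ω weakly solving Δu - u^p + u^(2*(s)-1)/∣x∣^s = 0. -/
theorem result :
    ¬ (∀ (N : ℕ), 3 ≤ N →
  ∀ (Ω : Set (EuclideanSpace ℝ (Fin N))),
    IsOpen Ω → IsConnected Ω → Bornology.IsBounded Ω →
    (∃ ρ : EuclideanSpace ℝ (Fin N) → ℝ,
        ContDiff ℝ ((⊤ : ℕ∞) : WithTop ℕ∞) ρ ∧ Ω = {x | ρ x < 0} ∧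
        ∀ x ∈ frontier Ω, fderiv ℝ ρ x ≠ 0) →
    (0 : EuclideanSpace ℝ (Fin N)) ∈ frontier Ω →
  ∀ s : ℝ, 0 < s → s < 2 →
  ∀ p : ℝ, 2 * ((N : ℝ) - s) / ((N : ℝ) - 2) - 1 < p →
    p < ((N : ℝ) + 2) / ((N : ℝ) - 2) →
  ∃ u : EuclideanSpace ℝ (Fin N) → ℝ,
  ∃ G : EuclideanSpace ℝ (Fin N) → EuclideanSpace ℝ (Fin N),
    MemLp u 2 volume ∧ MemLp G 2 volume ∧
    (∃ φ : ℕ → EuclideanSpace ℝ (Fin N) → ℝ,
        (∀ n, ContDiff ℝ ((⊤ : ℕ∞) : WithTop ℕ∞) (φ n) ∧
              HasCompactSupport (φ n) ∧ tsupport (φ n) ⊆ Ω) ∧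
        Tendsto (fun n => eLpNorm (fun x => φ n x - u x) 2 volume) atTop (𝓝 0) ∧
        Tendsto (fun n => eLpNorm (fun x => gradient (φ n) x - G x) 2 volume)
          atTop (𝓝 0)) ∧
    (∀ᵐ x ∂(volume : Measure (EuclideanSpace ℝ (Fin N))), x ∈ Ω → 0 < u x) ∧
    ∀ ψ : EuclideanSpace ℝ (Fin N) → ℝ,
      ContDiff ℝ ((⊤ : ℕ∞) : WithTop ℕ∞) ψ → HasCompactSupport ψ → tsupport ψ ⊆ Ω →
        Integrable (fun x => inner ℝ (G x) (gradient ψ x)) volume ∧
        Integrable (fun x => u x ^ p * ψ x) volume ∧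
        Integrable (fun x => u x ^ (2 * ((N : ℝ) - s) / ((N : ℝ) - 2) - 1) * ψ x / ‖x‖ ^ s)
          volume ∧
        ∫ x, (inner ℝ (G x) (gradient ψ x) + u x ^ p * ψ x
              - u x ^ (2 * ((N : ℝ) - s) / ((N : ℝ) - 2) - 1) * ψ x / ‖x‖ ^ s) = 0) := by
  intro H
  set Ω : Set (EuclideanSpace ℝ (Fin 3)) := Metric.ball cc 1 with hΩdef
  have hc := norm_cc
  have h0 : (0 : EuclideanSpace ℝ (Fin 3)) ∉ Ω := by
    rw [hΩdef, Metric.mem_ball, dist_eq_norm]
    simp [hc]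
  have hstar : Pool.Agent.Q175.PZ.Star Ω := by
    intro x hx t ht ht1
    rw [hΩdef, Metric.mem_ball, dist_eq_norm] at hx ⊢
    have e1 : t • x - cc = t • (x - cc) - (1 - t) • cc := by
      rw [smul_sub, sub_smul, one_smul]; abel
    rw [e1]
    calc ‖t • (x - cc) - (1 - t) • cc‖ ≤ ‖t • (x - cc)‖ + ‖(1 - t) • cc‖ := norm_sub_le _ _
      _ = t * ‖x - cc‖ + (1 - t) := by
        rw [norm_smul, norm_smul, hc, Real.norm_eq_abs, Real.norm_eq_abs, abs_of_pos ht,
          abs_of_nonneg (by linarith), mul_one]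
      _ < 1 := by nlinarith
  have hR : ∀ x ∈ Ω, ‖x‖ ≤ 2 := by
    intro x hx
    rw [hΩdef, Metric.mem_ball, dist_eq_norm] at hx
    calc ‖x‖ = ‖(x - cc) + cc‖ := by rw [sub_add_cancel]
      _ ≤ ‖x - cc‖ + ‖cc‖ := norm_add_le _ _
      _ ≤ 2 := by rw [hc]; linarith
  obtain ⟨u, G, mu, mG, hseq, hpos, hweak⟩ := H 3 le_rfl Ω Metric.isOpen_ball
    ⟨⟨cc, Metric.mem_ball_self one_pos⟩, (convex_ball _ _).isPreconnected⟩ Metric.isBounded_ball
    (by
      refine ⟨fun x => ‖x - cc‖ ^ 2 - 1, ?_, ?_, ?_⟩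
      · exact ((contDiff_id.sub contDiff_const).norm_sq ℝ).sub contDiff_const
      · ext x
        rw [hΩdef, Metric.mem_ball, dist_eq_norm]
        change ‖x - cc‖ < 1 ↔ ‖x - cc‖ ^ 2 - 1 < 0
        constructor
        · intro h
          have := norm_nonneg (x - cc)
          nlinarith
        · intro h
          have := norm_nonneg (x - cc)
          nlinarith
      · intro x hx h
        rw [hΩdef, frontier_ball _ (one_ne_zero), mem_sphere_iff_norm] at hx
        have h1 : HasFDerivAt (fun x : EuclideanSpace ℝ (Fin 3) => ‖x - cc‖ ^ 2 - 1)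
            (2 • (innerSL ℝ (x - cc))) x := by
          have h2 := (hasStrictFDerivAt_norm_sq (x - cc)).hasFDerivAt.comp x ((hasFDerivAt_id x).sub_const cc)
          have h3 := h2.sub_const 1
          refine h3.congr_fderiv ?_
          ext v; simp
        rw [h1.fderiv] at h
        have h4 := congrArg (fun L : EuclideanSpace ℝ (Fin 3) →L[ℝ] ℝ => L (x - cc)) h
        simp only [smul_apply, innerSL_apply_apply, zero_apply] at h4
        rw [real_inner_self_eq_norm_sq, hx] at h4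
        norm_num at h4)
    (by
      rw [hΩdef, frontier_ball _ (one_ne_zero), mem_sphere_iff_norm]
      simp [hc])
    1 one_pos (by norm_num) 4 (by norm_num) (by norm_num)
  have hu : Pool.Agent.Q175.PZ.IsH Ω u G := ⟨mu, mG, hseq⟩
  have hnn : ∀ᵐ x, 0 ≤ u x := by
    filter_upwards [hpos, zero_outside hu] with x h1 h2
    by_cases hx : x ∈ Ω
    · exact (h1 hx).le
    · exact (h2 hx).ge
  have hw : ∀ ψ : EuclideanSpace ℝ (Fin 3) → ℝ,
      ContDiff ℝ ((⊤ : ℕ∞) : WithTop ℕ∞) ψ → HasCompactSupport ψ → tsupport ψ ⊆ Ω →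
        ∫ x, (inner ℝ (G x) (gradient ψ x) + u x ^ 4 * ψ x - u x ^ 3 * ψ x / ‖x‖) = 0 := by
    intro ψ h1 h2 h3
    obtain ⟨-, -, -, h4⟩ := hweak ψ h1 h2 h3
    have e3 : (2 * (((3:ℕ) : ℝ) - 1) / (((3:ℕ) : ℝ) - 2) - 1) = ((3:ℕ) : ℝ) := by norm_num
    have e4 : (4 : ℝ) = ((4:ℕ) : ℝ) := by norm_num
    rw [e3, e4] at h4
    simp only [Real.rpow_natCast, Real.rpow_one] at h4
    exact h4
  have hle := Pool.Agent.Q175.PZ.nonexistence h0 hstar hR hu hw hnn
  obtain ⟨-, -, h5, -⟩ := Pool.Agent.Q175.PZ.IsH.fin h0 hu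
  have hint : Integrable (fun x => u x ^ 5) volume := by
    refine ⟨mu.1.pow 5, ?_⟩
    unfold HasFiniteIntegral
    simpa only [enorm_pow] using h5
  have hgt : 0 < ∫ x, u x ^ 5 := by
    rw [integral_pos_iff_support_of_nonneg_ae (by
      filter_upwards [hnn] with x hx
      exact pow_nonneg hx 5) hint]
    have hΩpos : 0 < (volume : Measure (EuclideanSpace ℝ (Fin 3))) Ω := Metric.measure_ball_pos _ _ one_pos
    refine lt_of_lt_of_le hΩpos ?_
    apply measure_mono_ae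
    filter_upwards [hpos] with x hx hxΩ
    have := hx hxΩ
    exact (pow_pos this 5).ne'
  linarith

end Pool.Agent.S05648
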