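import Pool.Statements.S05718
import Pool.Agent.Q199.FS.Fin

set_option autoImplicit false
open MeasureTheory Filter Topology
open Pool Pool.MP_a70d84_an

namespace Pool.Agent.S05718

/-- The negation of the preceding statement: On ℓ²(ℕ), a finite-section sequence has the form P_nKP_n+W_nK'W_n+C_n (K,K' compact, ‖C_n‖→0) iff it lies in the closed algebra generated by P_nT(a)P_n, a∈L^∞, and both s-lim A_n and s-lim W_nA_nW_n are compact. -/
theorem result :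
    ¬ (∀ (P W : ℕ → (lp (fun _ : ℕ => ℂ) 2 →L[ℂ] lp (fun _ : ℕ => ℂ) 2)),
    (∀ (n : ℕ) (x : lp (fun _ : ℕ => ℂ) 2) (j : ℕ), (P n x) j = if j ≤ n then x j else 0) →
    (∀ (n : ℕ) (x : lp (fun _ : ℕ => ℂ) 2) (j : ℕ), (W n x) j = if j ≤ n then x (n - j) else 0) →
    ∀ A : ℕ → (lp (fun _ : ℕ => ℂ) 2 →L[ℂ] lp (fun _ : ℕ => ℂ) 2),
      (∃ K K' : lp (fun _ : ℕ => ℂ) 2 →L[ℂ] lp (fun _ : ℕ => ℂ) 2,
        IsCompactOperator K ∧ IsCompactOperator K' ∧
        ∃ C : ℕ → (lp (fun _ : ℕ => ℂ) 2 →L[ℂ] lp (fun _ : ℕ => ℂ) 2),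
          (∀ n, C n = P n * C n * P n) ∧
          Tendsto (fun n => ‖C n‖) atTop (𝓝 0) ∧
          ∀ n, A n = P n * K * P n + W n * K' * W n + C n)
      ↔
      ((∀ ε : ℝ, 0 < ε →
          ∃ B ∈ NonUnitalAlgebra.adjoin ℂ
            {G : ℕ → (lp (fun _ : ℕ => ℂ) 2 →L[ℂ] lp (fun _ : ℕ => ℂ) 2) |
              ∃ a : Lp ℂ ⊤ (volume : Measure (AddCircle (1 : ℝ))),
              ∃ T : lp (fun _ : ℕ => ℂ) 2 →L[ℂ] lp (fun _ : ℕ => ℂ) 2,
                (∀ j k : ℕ, (T (lp.single 2 k (1 : ℂ) : lp (fun _ : ℕ => ℂ) 2)) j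
                    = fourierCoeff (⇑a : AddCircle (1 : ℝ) → ℂ) ((j : ℤ) - (k : ℤ))) ∧
                ∀ n, G n = P n * T * P n},
            ∀ n, ‖A n - B n‖ ≤ ε) ∧
       (∃ K : lp (fun _ : ℕ => ℂ) 2 →L[ℂ] lp (fun _ : ℕ => ℂ) 2,
          IsCompactOperator K ∧ ∀ x, Tendsto (fun n => A n x) atTop (𝓝 (K x))) ∧
       (∃ K : lp (fun _ : ℕ => ℂ) 2 →L[ℂ] lp (fun _ : ℕ => ℂ) 2,
          IsCompactOperator K ∧
          ∀ x, Tendsto (fun n => (W n * A n * W n) x) atTop (𝓝 (K x))))) := by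
  intro h
  obtain ⟨a, b, c, ha, hb, hc⟩ := Pool.Agent.Q199.FS.symbols
  have hP := Pool.Agent.Q199.FS.Pc_apply
  have hW := Pool.Agent.Q199.FS.Wc_apply
  have key := h Pool.Agent.Q199.FS.Pc Pool.Agent.Q199.FS.Wc hP hW (Pool.Agent.Q199.FS.A Pool.Agent.Q199.FS.Pc)
  refine Pool.Agent.Q199.FS.not_in_J hP hW (key.2 ⟨?_, ?_, ?_⟩)
  · intro ε hε
    refine ⟨Pool.Agent.Q199.FS.A Pool.Agent.Q199.FS.Pc, ?_, ?_⟩
    · set gen := {G : ℕ → (lp (fun _ : ℕ => ℂ) 2 →L[ℂ] lp (fun _ : ℕ => ℂ) 2) |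
              ∃ a : Lp ℂ ⊤ (volume : Measure (AddCircle (1 : ℝ))),
              ∃ T : lp (fun _ : ℕ => ℂ) 2 →L[ℂ] lp (fun _ : ℕ => ℂ) 2,
                (∀ j k : ℕ, (T (lp.single 2 k (1 : ℂ) : lp (fun _ : ℕ => ℂ) 2)) j
                    = fourierCoeff (⇑a : AddCircle (1 : ℝ) → ℂ) ((j : ℤ) - (k : ℤ))) ∧
                ∀ n, G n = Pool.Agent.Q199.FS.Pc n * T * Pool.Agent.Q199.FS.Pc n} with hgen
      have h1 : (fun n => Pool.Agent.Q199.FS.t Pool.Agent.Q199.FS.Pc n) ∈ NonUnitalAlgebra.adjoin ℂ gen := by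
        apply NonUnitalAlgebra.subset_adjoin
        refine ⟨a, Pool.Agent.Q199.FS.T, ?_, fun n => rfl⟩
        intro j k
        rw [ha]
        exact congrArg (fun z : Pool.Agent.Q199.FS.H => z j) (Pool.Agent.Q199.FS.T_e k)
      have h2 : (fun n => Pool.Agent.Q199.FS.s Pool.Agent.Q199.FS.Pc n) ∈ NonUnitalAlgebra.adjoin ℂ gen := by
        apply NonUnitalAlgebra.subset_adjoin
        refine ⟨b, Pool.Agent.Q199.FS.S, ?_, fun n => rfl⟩
        intro j k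
        rw [hb]
        exact Pool.Agent.Q199.FS.S_e k j
      have h3 : (fun n => Pool.Agent.Q199.FS.Pc n) ∈ NonUnitalAlgebra.adjoin ℂ gen := by
        apply NonUnitalAlgebra.subset_adjoin
        refine ⟨c, ContinuousLinearMap.id ℂ _, ?_, ?_⟩
        · intro j k
          rw [hc]
          exact Pool.Agent.Q199.FS.e_apply k j
        · intro n
          apply ContinuousLinearMap.ext
          intro x
          exact (Pool.Agent.Q199.FS.PP hP n x).symm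
      exact mul_mem (sub_mem h3 (mul_mem h1 h2)) (sub_mem h3 (mul_mem h2 h1))
    · intro n
      rw [sub_self, norm_zero]
      exact hε.le
  · refine ⟨0, isCompactOperator_zero, ?_⟩
    intro x
    exact Pool.Agent.Q199.FS.A_tendsto hP x
  · refine ⟨0, isCompactOperator_zero, ?_⟩
    intro x
    exact Pool.Agent.Q199.FS.WAW_tendsto hP hW x

end Pool.Agent.S05718
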