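import Pool.Statements.S05816
import Pool.Agent.Q189.RP.Oper

set_option autoImplicit false
open Filter Topology
open Pool Pool.MP_ae9c87_an

namespace Pool.Agent.S05816

/-- The negation of the preceding statement: For every contractive strongly continuous semigroup T on a complex Hilbert space with cogenerator V = I − 2∫₀^∞ e^{−t}T(t)dt, T(t)x → 0 weakly for all x iff Vⁿx → 0 weakly for all x. -/
theorem result :
    ¬ (∀ (H : Type) [NormedAddCommGroup H] [InnerProductSpace ℂ H] [CompleteSpace H]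
      (T : ℝ → H →L[ℂ] H),
      T 0 = 1 →
      (∀ s t : ℝ, 0 ≤ s → 0 ≤ t → T (s + t) = T s * T t) →
      (∀ x : H, ContinuousOn (fun t : ℝ => T t x) (Set.Ici 0)) →
      (∀ t : ℝ, 0 ≤ t → ‖T t‖ ≤ 1) →
      ((∀ x y : H, Tendsto (fun t : ℝ => inner ℂ (T t x) y) atTop (𝓝 0)) ↔
        (∀ x y : H, Tendsto (fun n : ℕ =>
            inner ℂ ((fun z : H => z - (2 : ℂ) •
              ∫ t in Set.Ioi (0 : ℝ), ((Real.exp (-t) : ℝ) : ℂ) • T t z)^[n] x) y)
            atTop (𝓝 0)))) := by
  intro h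
  obtain ⟨μ, hup, hlow⟩ := Pool.Agent.Q189.RP.exists_measure
  have h1 := h (Pool.Agent.Q189.RP.H2 (μ : MeasureTheory.Measure Pool.Agent.Q189.RP.Kc))
    (Pool.Agent.Q189.RP.T μ)
    (by
      unfold Pool.Agent.Q189.RP.T
      rw [Pool.Agent.Q189.RP.e_zero, Pool.Agent.Q189.RP.M_one])
    (fun s t _ _ => by
      unfold Pool.Agent.Q189.RP.T
      rw [Pool.Agent.Q189.RP.e_add, Pool.Agent.Q189.RP.M_mul])
    (fun x => by
      refine Continuous.continuousOn ?_
      have h2 : Continuous (fun t => Pool.Agent.Q189.RP.T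
          (μ : MeasureTheory.Measure Pool.Agent.Q189.RP.Kc) t) :=
        (Pool.Agent.Q189.RP.M _).continuous.comp Pool.Agent.Q189.RP.e_continuous
      exact h2.clm_apply continuous_const)
    (fun t _ => Pool.Agent.Q189.RP.T_norm t)
  exact Pool.Agent.Q189.RP.not_weakly_stable hlow
    (h1.1 fun x y => Pool.Agent.Q189.RP.weakly_stable hup x y)

end Pool.Agent.S05816
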