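import Pool.Statements.S05947
import Pool.Agent.Q250.SO.Cnt

set_option autoImplicit false
open MeasureTheory Matrix
open Pool Pool.MP_bc76ba_an

namespace Pool.Agent.S05947

/-- For an expanding integer matrix R and finite digit set B in Z^d, if the equal-weight self-affine measure is spectral, then the pieces R^{-1}(T+b) of its attractor T pairwise meet in a set of measure zero. -/
theorem result :
  ∀ (d : ℕ) (R : Matrix (Fin d) (Fin d) ℤ) (B : Finset (Fin d → ℤ))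
    (φ : (Fin d → ℤ) → (Fin d → ℝ) → (Fin d → ℝ))
    (μ : MeasureTheory.Measure (Fin d → ℝ)),
    (∀ z : ℂ, (R.map (Int.castRingHom ℂ)).charpoly.IsRoot z → 1 < ‖z‖) →
    (∀ b x, φ b x = (R.map (Int.castRingHom ℝ))⁻¹ *ᵥ (x + fun i => (b i : ℝ))) →
    MeasureTheory.IsProbabilityMeasure μ →
    μ = ∑ b ∈ B, ((B.card : ENNReal)⁻¹) • μ.map (φ b) →
    (∃ (Λ : Set (Fin d → ℝ)) (e : Λ → MeasureTheory.Lp ℂ 2 μ),
      (∀ l : Λ, (e l : (Fin d → ℝ) → ℂ) =ᵐ[μ]
        fun x => Complex.exp (2 * Real.pi * Complex.I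
          * ((∑ i, (l : Fin d → ℝ) i * x i : ℝ) : ℂ))) ∧
      Orthonormal ℂ e ∧
      (Submodule.span ℂ (Set.range e)).topologicalClosure = ⊤) →
    ∀ T : Set (Fin d → ℝ), IsCompact T → T.Nonempty → T = ⋃ b ∈ B, φ b '' T →
    ∀ b ∈ B, ∀ b' ∈ B, b ≠ b' → μ (φ b '' T ∩ φ b' '' T) = 0 := by
  intro d R B φ μ hR hφ hprob hμ hspec T hT _ hTe b hb b' hb' hne
  obtain ⟨Λ, e, he, ho, hs⟩ := hspec
  have hdet := Pool.Agent.Q250.SO.det_ne_zero R hR
  have hφ' : φ = fun b x => (Pool.Agent.Q250.SO.re R)⁻¹ *ᵥ (x + Pool.Agent.Q250.SO.ct b) := by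
    funext b x
    exact hφ b x
  subst hφ'
  have hcont : ∀ c : Fin d → ℤ, Continuous
      (fun x : Fin d → ℝ => (Pool.Agent.Q250.SO.re R)⁻¹ *ᵥ (x + Pool.Agent.Q250.SO.ct c)) := by
    intro c; fun_prop
  have hself : Pool.Agent.Q250.SO.SelfAff R B μ := by
    intro S hS
    conv_lhs => rw [hμ]
    rw [Measure.finsetSum_apply]
    refine Finset.sum_congr rfl fun c _ => ?_
    rw [Measure.smul_apply, Measure.map_apply (hcont c).measurable hS, smul_eq_mul]
  have hb1 := hself.bounded hdet (Pool.Agent.Q250.SO.exists_contr R hR)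
  have hI := Pool.Agent.Q250.SO.inj_all hdet hself hb1 (fun l : Λ => (l : Fin d → ℝ)) e he ho hs
  exact Pool.Agent.Q250.SO.no_overlap hdet hself hI hT hTe hb hb' hne

end Pool.Agent.S05947
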