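import Pool.Statements.S06006
import Pool.Agent.Helper382.FatCantor

set_option autoImplicit false
open MeasureTheory
open Pool Pool.MP_c09e54_an

namespace Pool.Agent.S06006

/-- The negation of the preceding statement: Any two bounded Lebesgue measurable subsets of the reals of equal measure become, after deleting null sets, equidecomposable: finitely many disjoint measurable pieces of one, moved by isometries of the line, exactly tile the other. -/
theorem result :
    ¬ (∀ A B : Set ℝ, NullMeasurableSet A volume → NullMeasurableSet B volume →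
      Bornology.IsBounded A → Bornology.IsBounded B → volume A = volume B →
      ∃ E₁ E₂ : Set ℝ, volume E₁ = 0 ∧ volume E₂ = 0 ∧
        ∃ (n : ℕ) (P : Fin n → Set ℝ) (f : Fin n → ℝ → ℝ),
          (∀ i, NullMeasurableSet (P i) volume) ∧
          (∀ i, Isometry (f i)) ∧
          Pairwise (fun i j => Disjoint (P i) (P j)) ∧
          Pairwise (fun i j => Disjoint (f i '' P i) (f j '' P j)) ∧
          (⋃ i, P i) = A \ E₁ ∧
          (⋃ i, f i '' P i) = B \ E₂) := by
  intro H
  obtain ⟨C, hCc, hCsub, hCi, hCpos⟩ := Pool.Agent.H382FC.exists_fat_cantor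
  have hCle : volume C ≤ 1 := by
    have := measure_mono (μ := (volume : Measure ℝ)) hCsub
    simpa using this
  have hCfin : volume C ≠ ⊤ := ne_top_of_le_ne_top ENNReal.one_ne_top hCle
  set c0 : ℝ := (volume C).toReal with hc0
  have h0 : 0 < c0 := ENNReal.toReal_pos hCpos.ne' hCfin
  have h1 : c0 ≤ 1 := by
    have := ENNReal.toReal_mono ENNReal.one_ne_top hCle
    simpa using this
  have hvol : volume (Set.Ioc (1 : ℝ) (2 + c0)) = volume (C ∪ Set.Ioc 1 2) := by
    rw [measure_union _ measurableSet_Ioc]
    · rw [Real.volume_Ioc, Real.volume_Ioc]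
      have : volume C = ENNReal.ofReal c0 := (ENNReal.ofReal_toReal hCfin).symm
      rw [this, ← ENNReal.ofReal_add h0.le (by norm_num)]
      congr 1
      ring
    · rw [Set.disjoint_left]
      intro y hy hy'
      linarith [(hCsub hy).2, hy'.1]
  obtain ⟨E₁, E₂, hE1, -, n, P, f, -, hf, -, hd, hP, hPB⟩ :=
    H (Set.Ioc 1 (2 + c0)) (C ∪ Set.Ioc 1 2) measurableSet_Ioc.nullMeasurableSet
      (hCc.measurableSet.union measurableSet_Ioc).nullMeasurableSet
      (Metric.isBounded_Ioc 1 (2 + c0))
      (((Metric.isBounded_Icc 0 1).subset hCsub).union (Metric.isBounded_Ioc 1 2)) hvol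
  exact Pool.Agent.H382FC.no_decomposition C hCc hCsub hCi c0 h0 h1 E₁ E₂ hE1 P f hf hd hP hPB

end Pool.Agent.S06006
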