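import Pool.Statements.S06280
-- import your own Pool.Agent.* helpers here

set_option autoImplicit false
open Pool Pool.MP_d4c9a2_an

namespace Pool.Agent.S06280

/-! ### The monomial germ -/

/-- The monomial germ `(z₃², z₁³ z₂, z₂⁴ z₃²)`. -/
def F (z : Fin 3 → ℂ) : Fin 3 → ℂ := ![z 2 ^ 2, z 0 ^ 3 * z 1, z 1 ^ 4 * z 2 ^ 2]

/-- Degrees of the three components of the iterates. -/
def R : ℕ → Fin 3 → ℕ
  | 0 => fun _ => 1
  | k + 1 => ![2 * R k 2, 3 * R k 0 + R k 1, 4 * R k 1 + 2 * R k 2]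

theorem R_succ0 (k : ℕ) : R (k + 1) 0 = 2 * R k 2 := rfl
theorem R_succ1 (k : ℕ) : R (k + 1) 1 = 3 * R k 0 + R k 1 := rfl
theorem R_succ2 (k : ℕ) : R (k + 1) 2 = 4 * R k 1 + 2 * R k 2 := rfl

theorem F_iter_hom (k : ℕ) (c : ℂ) (z : Fin 3 → ℂ) (i : Fin 3) :
    (F^[k]) (c • z) i = c ^ (R k i) * (F^[k]) z i := by
  induction k generalizing i with
  | zero => simp [R]
  | succ k ih =>
    rw [Function.iterate_succ_apply', Function.iterate_succ_apply']
    fin_cases i
    · simp only [F, R, ih]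
      simp
      ring
    · simp only [F, R, ih]
      simp
      ring
    · simp only [F, R, ih]
      simp
      ring

theorem F_iter_one (k : ℕ) : (F^[k]) (fun _ => 1) = fun _ => 1 := by
  induction k with
  | zero => rfl
  | succ k ih =>
    rw [Function.iterate_succ_apply', ih]
    funext i
    fin_cases i <;> simp [F]

theorem F_contDiff : ContDiff ℂ ⊤ F := by
  unfold F
  rw [contDiff_pi]
  intro i
  fin_cases i
  · simp; fun_prop
  · simp; fun_prop
  · simp; fun_prop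

theorem F_iter_contDiff (k : ℕ) : ContDiff ℂ ⊤ (F^[k]) := by
  induction k with
  | zero => simpa using contDiff_id
  | succ k ih =>
    rw [Function.iterate_succ']
    exact F_contDiff.comp ih

/-! ### Order of vanishing of componentwise homogeneous maps -/

theorem hom_iter_zero (g : (Fin 3 → ℂ) → ℂ) (hg : ContDiff ℂ ⊤ g) (d m : ℕ)
    (hom : ∀ (c : ℂ) (z : Fin 3 → ℂ), g (c • z) = c ^ d * g z) (hm : m ≠ d) :
    iteratedFDeriv ℂ m g 0 = 0 := by
  have h1 : (g ∘ ((2 : ℂ) • ContinuousLinearMap.id ℂ (Fin 3 → ℂ))) = ((2 : ℂ) ^ d) • g := by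
    funext z
    simp [hom]
  have h2 := ContinuousLinearMap.iteratedFDeriv_comp_right
    ((2 : ℂ) • ContinuousLinearMap.id ℂ (Fin 3 → ℂ)) (hg.of_le (m := (m : WithTop ℕ∞)) le_top) 0
    (i := m) le_rfl
  rw [h1] at h2
  rw [iteratedFDeriv_const_smul_apply ((hg.of_le le_top).contDiffAt)] at h2
  have h3 : ((2 : ℂ) ^ d) • iteratedFDeriv ℂ m g 0 = ((2 : ℂ) ^ m) • iteratedFDeriv ℂ m g 0 := by
    rw [h2]
    ext v
    simp [ContinuousMultilinearMap.map_smul_univ]
  have h4 : ((2 : ℂ) ^ d - (2 : ℂ) ^ m) • iteratedFDeriv ℂ m g 0 = 0 := by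
    rw [sub_smul, h3, sub_self]
  rcases smul_eq_zero.mp h4 with h5 | h5
  · exfalso
    apply hm
    have h6 : ((2 : ℕ) : ℂ) ^ m = ((2 : ℕ) : ℂ) ^ d := by
      push_cast
      linear_combination -h5
    have h7 : (2 : ℕ) ^ m = 2 ^ d := by exact_mod_cast h6
    exact Nat.pow_right_injective (le_refl 2) h7
  · exact h5

theorem hom_iter_ne (g : (Fin 3 → ℂ) → ℂ) (hg : ContDiff ℂ ⊤ g) (d : ℕ)
    (hom : ∀ (c : ℂ) (z : Fin 3 → ℂ), g (c • z) = c ^ d * g z) (w : Fin 3 → ℂ) (hw : g w ≠ 0) :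
    iteratedFDeriv ℂ d g 0 ≠ 0 := by
  intro h0
  have hall : ∀ m, iteratedFDeriv ℂ m g 0 = 0 := by
    intro m
    by_cases hm : m = d
    · rw [hm]; exact h0
    · exact hom_iter_zero g hg d m hom hm
  obtain ⟨p, r, hp⟩ := (hg.contDiffAt (x := 0)).analyticAt
  have hr := hp.r_pos
  -- choose a small multiple of w in the ball
  have hev : ∀ᶠ y in nhds (0 : Fin 3 → ℂ), y ∈ Metric.eball (0 : Fin 3 → ℂ) r :=
    Metric.eball_mem_nhds _ hr
  have hcont : Filter.Tendsto (fun n : ℕ => ((1 : ℂ) / ((n : ℂ) + 1)) • w) Filter.atTop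
      (nhds (0 : Fin 3 → ℂ)) := by
    have := (tendsto_one_div_add_atTop_nhds_zero_nat (𝕜 := ℂ)).smul_const w
    simpa using this
  obtain ⟨n, hn⟩ := (hcont.eventually hev).exists
  have hs := hp.hasSum_iteratedFDeriv hn
  have hz : (fun k : ℕ ↦ ((Nat.factorial k : ℂ))⁻¹ • (iteratedFDeriv ℂ k g 0)
      (fun _ ↦ ((1 : ℂ) / ((n : ℂ) + 1)) • w)) = fun _ => 0 := by
    funext k
    rw [hall k]
    simp
  rw [hz] at hs
  have := hs.unique hasSum_zero
  rw [zero_add, hom] at this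
  rcases mul_eq_zero.mp this with h | h
  · have h' : ((1 : ℂ) / ((n : ℂ) + 1)) ≠ 0 := by
      apply one_div_ne_zero
      exact_mod_cast Nat.succ_ne_zero n
    exact pow_ne_zero _ h' h
  · exact hw h

theorem order_eq (G : (Fin 3 → ℂ) → (Fin 3 → ℂ)) (hG : ContDiff ℂ ⊤ G) (d : Fin 3 → ℕ)
    (hom : ∀ (c : ℂ) (z : Fin 3 → ℂ) (i : Fin 3), G (c • z) i = c ^ (d i) * G z i)
    (w : Fin 3 → ℂ) (hw : ∀ i, G w i ≠ 0) (N : ℕ) (hN : ∃ i, d i = N) (hle : ∀ i, N ≤ d i) :
    sInf {m : ℕ | iteratedFDeriv ℂ m G 0 ≠ 0} = N := by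
  have comp : ∀ (m : ℕ) (i : Fin 3), iteratedFDeriv ℂ m (fun z => G z i) 0 =
      (ContinuousLinearMap.proj (R := ℂ) (φ := fun _ : Fin 3 => ℂ) i).compContinuousMultilinearMap
        (iteratedFDeriv ℂ m G 0) := by
    intro m i
    have := ContinuousLinearMap.iteratedFDeriv_comp_left
      (ContinuousLinearMap.proj (R := ℂ) (φ := fun _ : Fin 3 => ℂ) i)
      ((hG.of_le (m := (m : WithTop ℕ∞)) le_top).contDiffAt (x := 0)) (i := m) le_rfl
    exact this
  have hGi : ∀ i, ContDiff ℂ ⊤ (fun z => G z i) := fun i => (contDiff_pi.mp hG) i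
  have hmem : N ∈ {m : ℕ | iteratedFDeriv ℂ m G 0 ≠ 0} := by
    intro h0
    obtain ⟨i, hi⟩ := hN
    have h1 := hom_iter_ne (fun z => G z i) (hGi i) (d i) (fun c z => hom c z i) w (hw i)
    rw [comp, hi, h0] at h1
    apply h1
    ext v
    simp
  apply le_antisymm (Nat.sInf_le hmem)
  apply le_csInf ⟨N, hmem⟩
  intro m hm
  by_contra hlt
  rw [not_le] at hlt
  apply hm
  ext v i
  have h1 := hom_iter_zero (fun z => G z i) (hGi i) (d i) m (fun c z => hom c z i)
    (by have := hle i; omega)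
  rw [comp] at h1
  have h2 := congrArg (fun (q : ContinuousMultilinearMap ℂ (fun _ : Fin m => (Fin 3 → ℂ)) ℂ) => q v) h1
  simpa using h2

theorem R_pos (k : ℕ) (i : Fin 3) : 1 ≤ R k i := by
  induction k generalizing i with
  | zero => simp [R]
  | succ k ih =>
    have h0 := ih 0
    have h1 := ih 1
    have h2 := ih 2
    fin_cases i
    · show 1 ≤ R (k + 1) 0
      rw [R_succ0]; omega
    · show 1 ≤ R (k + 1) 1
      rw [R_succ1]; omega
    · show 1 ≤ R (k + 1) 2
      rw [R_succ2]; omega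

theorem order_iter (k : ℕ) :
    sInf {m : ℕ | iteratedFDeriv ℂ m (F^[k]) 0 ≠ 0} = min (R k 0) (R k 1) := by
  apply order_eq (F^[k]) (F_iter_contDiff k) (R k) (fun c z i => F_iter_hom k c z i) (fun _ => 1)
  · intro i
    rw [F_iter_one]
    simp
  · rcases le_total (R k 0) (R k 1) with h | h
    · exact ⟨0, by rw [min_eq_left h]⟩
    · exact ⟨1, by rw [min_eq_right h]⟩
  · intro i
    fin_cases i
    · exact min_le_left _ _
    · exact min_le_right _ _
    · show min (R k 0) (R k 1) ≤ R k 2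
      cases k with
      | zero => simp [R]
      | succ k =>
        apply le_trans (min_le_left _ _)
        rw [R_succ0, R_succ2]
        omega

/-! ### Arithmetic of the orders -/

/-- `D k = r₁(k) - r₂(k)`. -/
def D (k : ℕ) : ℤ := (R k 0 : ℤ) - (R k 1 : ℤ)

theorem D_rec (k : ℕ) : D (k + 3) = -D (k + 2) - 6 * D (k + 1) := by
  have a0 := R_succ0 k
  have a1 := R_succ1 k
  have a2 := R_succ2 k
  have b0 := R_succ0 (k + 1)
  have b1 := R_succ1 (k + 1)
  have b2 := R_succ2 (k + 1)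
  have c0 := R_succ0 (k + 2)
  have c1 := R_succ1 (k + 2)
  simp only [D]
  have e1 : k + 1 + 1 = k + 2 := rfl
  have e2 : k + 2 + 1 = k + 3 := rfl
  rw [e1] at b0 b1 b2
  rw [e2] at c0 c1
  omega

theorem D_unit (k : ℕ) : D (k + 1) % 3 ≠ 0 ∧ D (k + 2) % 3 ≠ 0 := by
  induction k with
  | zero =>
    constructor
    · decide
    · decide
  | succ k ih =>
    refine ⟨ih.2, ?_⟩
    have h := D_rec k
    have e : k + 1 + 2 = k + 3 := rfl
    rw [e, h]
    have := ih.2
    omega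

/-- The Lucas sequence attached to `x² + x + 6`. -/
def W : ℕ → ℤ
  | 0 => 0
  | 1 => 1
  | n + 2 => -W (n + 1) - 6 * W n

theorem W_rec (n : ℕ) : W (n + 2) = -W (n + 1) - 6 * W n := rfl

theorem W_odd (n : ℕ) : W (n + 1) % 2 = 1 := by
  induction n with
  | zero => decide
  | succ n ih =>
    have h := W_rec n
    have e : n + 1 + 1 = n + 2 := rfl
    rw [e, h]
    omega

theorem W_norm (n : ℕ) : W (n + 1) ^ 2 + W (n + 1) * W n + 6 * W n ^ 2 = 6 ^ n := by
  induction n with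
  | zero => decide
  | succ n ih =>
    have h := W_rec n
    have e : n + 1 + 1 = n + 2 := rfl
    rw [e, h, pow_succ (6 : ℤ) n, ← ih]
    ring

theorem D_lin (n k : ℕ) : D (k + 1 + n + 1) = W (n + 1) * D (k + 1 + 1) - 6 * W n * D (k + 1) ∧
    D (k + 1 + n + 2) = W (n + 2) * D (k + 1 + 1) - 6 * W (n + 1) * D (k + 1) := by
  induction n with
  | zero =>
    have h := D_rec k
    refine ⟨by simp [W], ?_⟩
    show D (k + 3) = W 2 * D (k + 2) - 6 * W 1 * D (k + 1)
    rw [h]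
    have h1 : W 1 = 1 := rfl
    have h2 : W 2 = -1 := by decide
    rw [h1, h2]
    ring
  | succ n ih =>
    refine ⟨ih.2, ?_⟩
    have h := D_rec (k + 1 + n)
    have e1 : k + 1 + (n + 1) + 2 = k + 1 + n + 3 := by ring
    have e2 : n + 1 + 2 = n + 3 := rfl
    have h3 := W_rec (n + 1)
    have h4 := W_rec n
    have e3 : n + 1 + 2 = n + 3 := rfl
    have e4 : n + 1 + 1 = n + 2 := rfl
    rw [e3, e4] at h3
    rw [e1, h, ih.1, ih.2, e2, e4, h3, h4]
    ring

/-- The trace of the `P`-th power, `P = n + 1`. -/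
def T (n : ℕ) : ℤ := W (n + 2) - 6 * W n

theorem T_disc (n : ℕ) : T n ^ 2 < 4 * 6 ^ (n + 1) := by
  have h1 := W_norm n
  have h2 := W_rec n
  have h3 : W (n + 1) ≠ 0 := by
    intro h0
    have := W_odd n
    rw [h0] at this
    omega
  have h4 : 0 < W (n + 1) ^ 2 := by positivity
  have h5 : T n ^ 2 = 4 * 6 ^ (n + 1) - 23 * W (n + 1) ^ 2 := by
    rw [T, h2, pow_succ (6 : ℤ) n, ← h1]
    ring
  rw [h5]
  linarith

theorem D_step (n k : ℕ) : D (k + 1 + 2 * (n + 1)) =
    T n * D (k + 1 + (n + 1)) - 6 ^ (n + 1) * D (k + 1) := by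
  have h1 := (D_lin n k).1
  have h2 := (D_lin n k).2
  have h3 := (D_lin n (k + n + 1)).1
  have e1 : k + n + 1 + 1 + n + 1 = k + 1 + 2 * (n + 1) := by ring
  have e2 : k + n + 1 + 1 + 1 = k + 1 + n + 2 := by ring
  have e3 : k + n + 1 + 1 = k + 1 + n + 1 := by ring
  have e4 : k + 1 + (n + 1) = k + 1 + n + 1 := by ring
  rw [e1, e2, e3] at h3
  rw [e4, h3, h2, h1, T, pow_succ (6 : ℤ) n, ← W_norm n, W_rec n]
  ring

theorem sign_lemma (y : ℕ → ℝ) (t N : ℝ) (hN : 0 < N) (hd : t ^ 2 < 4 * N)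
    (hrec : ∀ j, y (j + 2) = t * y (j + 1) - N * y j) (hpos : ∀ j, 0 < y j) : False := by
  set s := Real.sqrt N with hs
  have hs0 : 0 < s := Real.sqrt_pos.mpr hN
  have hs2 : s ^ 2 = N := Real.sq_sqrt hN.le
  have hδ : 0 < 2 * s - t := by
    have h1 : t ^ 2 < (2 * s) ^ 2 := by rw [mul_pow, hs2]; linarith
    have h2 := abs_lt_of_sq_lt_sq h1 (by positivity)
    have h3 := (abs_lt.mp (by simpa using h2)).2
    linarith
  have hq : ∀ j : ℕ, y (j + 1) / y j ≤ y 1 / y 0 - j * (2 * s - t) := by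
    intro j
    induction j with
    | zero => simp
    | succ j ih =>
      have hj := hpos j
      have hj1 := hpos (j + 1)
      have hstep : y (j + 1 + 1) / y (j + 1) ≤ y (j + 1) / y j - (2 * s - t) := by
        have e : j + 1 + 1 = j + 2 := rfl
        rw [e, hrec j]
        have h1 : (t * y (j + 1) - N * y j) / y (j + 1) = t - N * (y j / y (j + 1)) := by
          field_simp
        rw [h1]
        set q := y (j + 1) / y j with hqdef
        have hq0 : 0 < q := div_pos hj1 hj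
        have h2 : y j / y (j + 1) = 1 / q := by
          rw [hqdef]; field_simp
        rw [h2]
        have h3 : 2 * s ≤ q + N * (1 / q) := by
          have h4 : q + N * (1 / q) - 2 * s = (q - s) ^ 2 / q := by
            field_simp
            rw [← hs2]
            ring
          have h5 : 0 ≤ (q - s) ^ 2 / q := by positivity
          linarith
        linarith
      push_cast
      linarith
  obtain ⟨n, hn⟩ := exists_nat_gt ((y 1 / y 0) / (2 * s - t))
  have h1 := hq n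
  have h2 : 0 < y (n + 1) / y n := div_pos (hpos _) (hpos _)
  rw [div_lt_iff₀ hδ] at hn
  linarith

theorem no_const_sign (n k : ℕ) (ε : ℤ) (hpos : ∀ j : ℕ, 0 < ε * D (k + 1 + j * (n + 1))) :
    False := by
  apply sign_lemma (fun j => ((ε * D (k + 1 + j * (n + 1)) : ℤ) : ℝ)) (T n : ℝ) ((6 : ℝ) ^ (n + 1))
    (by positivity) (by exact_mod_cast T_disc n)
  · intro j
    have h := D_step n (k + j * (n + 1))
    have e1 : k + j * (n + 1) + 1 + 2 * (n + 1) = k + 1 + (j + 2) * (n + 1) := by ring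
    have e2 : k + j * (n + 1) + 1 + (n + 1) = k + 1 + (j + 1) * (n + 1) := by ring
    have e3 : k + j * (n + 1) + 1 = k + 1 + j * (n + 1) := by ring
    rw [e1, e2, e3] at h
    rw [h]
    push_cast
    ring
  · intro j
    exact_mod_cast hpos j

/-- The sequence of orders. -/
def u (k : ℕ) : ℤ := min (R k 0 : ℤ) (R k 1 : ℤ)

theorem u_eq (k : ℕ) : 2 * u k = (R k 0 : ℤ) + R k 1 - |D k| := by
  unfold u D
  rcases le_total (R k 0 : ℤ) (R k 1 : ℤ) with h | h
  · rw [min_eq_left h, abs_of_nonpos (by linarith)]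
    ring
  · rw [min_eq_right h, abs_of_nonneg (by linarith)]
    ring

theorem no_rec (d : ℕ) (a : Fin d → ℤ) (K : ℕ)
    (h : ∀ k : ℕ, K ≤ k → u (k + d) = ∑ i : Fin d, a i * u (k + (i : ℕ))) : False := by
  -- pigeonhole
  let st : ℕ → (Fin d → ZMod 3) × (Fin 3 → ZMod 3) := fun k =>
    (fun i => (u (K + k + 1 + (i : ℕ)) : ZMod 3), fun i => (R (K + k + 1) i : ZMod 3))
  obtain ⟨i₀, j₀, hne, heq⟩ := Finite.exists_ne_map_eq_of_infinite st
  wlog hlt : i₀ < j₀ generalizing i₀ j₀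
  · exact this j₀ i₀ hne.symm heq.symm (lt_of_le_of_ne (not_lt.mp hlt) hne.symm)
  obtain ⟨n, hn⟩ : ∃ n, j₀ = i₀ + (n + 1) := ⟨j₀ - i₀ - 1, by omega⟩
  subst hn
  have hu : ∀ m : ℕ, (u (K + i₀ + 1 + m) : ZMod 3) = (u (K + (i₀ + (n + 1)) + 1 + m) : ZMod 3) := by
    intro m
    induction m using Nat.strong_induction_on with
    | _ m ih =>
      by_cases hm : m < d
      · have := congrFun (congrArg Prod.fst heq) ⟨m, hm⟩
        exact this
      · obtain ⟨m', hm'⟩ : ∃ m', m = m' + d := ⟨m - d, by omega⟩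
        have e1 : K + i₀ + 1 + m = (K + i₀ + 1 + m') + d := by omega
        have e2 : K + (i₀ + (n + 1)) + 1 + m = (K + (i₀ + (n + 1)) + 1 + m') + d := by omega
        rw [e1, e2, h _ (by omega), h _ (by omega)]
        push_cast
        apply Finset.sum_congr rfl
        intro l _
        have := ih (m' + l) (by have := l.2; omega)
        have e3 : K + i₀ + 1 + m' + (l : ℕ) = K + i₀ + 1 + (m' + l) := by ring
        have e4 : K + (i₀ + (n + 1)) + 1 + m' + (l : ℕ) = K + (i₀ + (n + 1)) + 1 + (m' + l) := by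
          ring
        rw [e3, e4, this]
  have hR : ∀ (m : ℕ) (i : Fin 3), (R (K + i₀ + 1 + m) i : ZMod 3) =
      (R (K + (i₀ + (n + 1)) + 1 + m) i : ZMod 3) := by
    intro m
    induction m with
    | zero =>
      intro i
      exact congrFun (congrArg Prod.snd heq) i
    | succ m ih =>
      intro i
      have e1 : K + i₀ + 1 + (m + 1) = (K + i₀ + 1 + m) + 1 := by ring
      have e2 : K + (i₀ + (n + 1)) + 1 + (m + 1) = (K + (i₀ + (n + 1)) + 1 + m) + 1 := by ring
      rw [e1, e2]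
      fin_cases i
      · show ((R ((K + i₀ + 1 + m) + 1) 0 : ℕ) : ZMod 3) =
          ((R ((K + (i₀ + (n + 1)) + 1 + m) + 1) 0 : ℕ) : ZMod 3)
        rw [R_succ0, R_succ0]
        push_cast
        rw [ih 2]
      · show ((R ((K + i₀ + 1 + m) + 1) 1 : ℕ) : ZMod 3) =
          ((R ((K + (i₀ + (n + 1)) + 1 + m) + 1) 1 : ℕ) : ZMod 3)
        rw [R_succ1, R_succ1]
        push_cast
        rw [ih 0, ih 1]
      · show ((R ((K + i₀ + 1 + m) + 1) 2 : ℕ) : ZMod 3) =
          ((R ((K + (i₀ + (n + 1)) + 1 + m) + 1) 2 : ℕ) : ZMod 3)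
        rw [R_succ2, R_succ2]
        push_cast
        rw [ih 1, ih 2]
  -- the sign of D is periodic
  have hsign : ∀ m : ℕ, 0 < D (K + i₀ + m + 1) * D (K + i₀ + m + 1 + (n + 1)) := by
    intro m
    have e1 : K + i₀ + 1 + m = K + i₀ + m + 1 := by ring
    have e2 : K + (i₀ + (n + 1)) + 1 + m = K + i₀ + m + 1 + (n + 1) := by ring
    have h1 := hu m
    have h2 := hR m 0
    have h3 := hR m 1
    rw [e1, e2] at h1 h2 h3
    have h1' := (ZMod.intCast_eq_intCast_iff_dvd_sub _ _ 3).mp h1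
    have h2' := (ZMod.intCast_eq_intCast_iff_dvd_sub
      (R (K + i₀ + m + 1) 0 : ℤ) (R (K + i₀ + m + 1 + (n + 1)) 0 : ℤ) 3).mp (by exact_mod_cast h2)
    have h3' := (ZMod.intCast_eq_intCast_iff_dvd_sub
      (R (K + i₀ + m + 1) 1 : ℤ) (R (K + i₀ + m + 1 + (n + 1)) 1 : ℤ) 3).mp (by exact_mod_cast h3)
    have g1 := u_eq (K + i₀ + m + 1)
    have g2 := u_eq (K + i₀ + m + 1 + (n + 1))
    have n1 := (D_unit (K + i₀ + m)).1
    have n2 := (D_unit (K + i₀ + m + (n + 1))).1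
    have e3 : K + i₀ + m + (n + 1) + 1 = K + i₀ + m + 1 + (n + 1) := by ring
    rw [e3] at n2
    have d1 : D (K + i₀ + m + 1) = (R (K + i₀ + m + 1) 0 : ℤ) - (R (K + i₀ + m + 1) 1 : ℤ) := rfl
    have d2 : D (K + i₀ + m + 1 + (n + 1)) = (R (K + i₀ + m + 1 + (n + 1)) 0 : ℤ) -
      (R (K + i₀ + m + 1 + (n + 1)) 1 : ℤ) := rfl
    rcases lt_trichotomy (D (K + i₀ + m + 1)) 0 with s1 | s1 | s1
    · rcases lt_trichotomy (D (K + i₀ + m + 1 + (n + 1))) 0 with s2 | s2 | s2
      · exact mul_pos_of_neg_of_neg s1 s2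
      · rw [s2] at n2; simp at n2
      · exfalso
        rw [abs_of_neg s1] at g1
        rw [abs_of_pos s2] at g2
        push_cast at h1' h2' h3'
        omega
    · rw [s1] at n1; simp at n1
    · rcases lt_trichotomy (D (K + i₀ + m + 1 + (n + 1))) 0 with s2 | s2 | s2
      · exfalso
        rw [abs_of_pos s1] at g1
        rw [abs_of_neg s2] at g2
        push_cast at h1' h2' h3'
        omega
      · rw [s2] at n2; simp at n2
      · exact mul_pos s1 s2
  have hne0 : D (K + i₀ + 1) ≠ 0 := by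
    intro h0
    have := (D_unit (K + i₀)).1
    rw [h0] at this
    simp at this
  apply no_const_sign n (K + i₀) (D (K + i₀ + 1))
  intro j
  induction j with
  | zero =>
    simp only [zero_mul, add_zero]
    exact mul_self_pos.mpr hne0
  | succ j ih =>
    have h1 := hsign (j * (n + 1))
    have e1 : K + i₀ + j * (n + 1) + 1 = K + i₀ + 1 + j * (n + 1) := by ring
    have e2 : K + i₀ + j * (n + 1) + 1 + (n + 1) = K + i₀ + 1 + (j + 1) * (n + 1) := by ring
    rw [e2, e1] at h1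
    rcases lt_or_gt_of_ne hne0 with s | s
    · have a1 : D (K + i₀ + 1 + j * (n + 1)) < 0 := by
        by_contra hc
        rw [not_lt] at hc
        nlinarith
      have a2 : D (K + i₀ + 1 + (j + 1) * (n + 1)) < 0 := by
        by_contra hc
        rw [not_lt] at hc
        nlinarith
      exact mul_pos_of_neg_of_neg s a2
    · have a1 : 0 < D (K + i₀ + 1 + j * (n + 1)) := by
        by_contra hc
        rw [not_lt] at hc
        nlinarith
      have a2 : 0 < D (K + i₀ + 1 + (j + 1) * (n + 1)) := by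
        by_contra hc
        rw [not_lt] at hc
        nlinarith
      exact mul_pos s a2

/-! ### The Jacobian -/

theorem F_hasFDerivAt (z : Fin 3 → ℂ) :
    HasFDerivAt F (ContinuousLinearMap.pi
      ![(2 * z 2) • (ContinuousLinearMap.proj (R := ℂ) (φ := fun _ : Fin 3 => ℂ) 2),
        (3 * z 0 ^ 2 * z 1) • (ContinuousLinearMap.proj (R := ℂ) (φ := fun _ : Fin 3 => ℂ) 0) +
          (z 0 ^ 3) • (ContinuousLinearMap.proj (R := ℂ) (φ := fun _ : Fin 3 => ℂ) 1),
        (4 * z 1 ^ 3 * z 2 ^ 2) • (ContinuousLinearMap.proj (R := ℂ) (φ := fun _ : Fin 3 => ℂ) 1) +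
          (z 1 ^ 4 * (2 * z 2)) • (ContinuousLinearMap.proj (R := ℂ) (φ := fun _ : Fin 3 => ℂ) 2)]) z := by
  have p0 : HasFDerivAt (fun w : Fin 3 → ℂ => w 0)
      (ContinuousLinearMap.proj (R := ℂ) (φ := fun _ : Fin 3 => ℂ) 0) z := hasFDerivAt_apply 0 z
  have p1 : HasFDerivAt (fun w : Fin 3 → ℂ => w 1)
      (ContinuousLinearMap.proj (R := ℂ) (φ := fun _ : Fin 3 => ℂ) 1) z := hasFDerivAt_apply 1 z
  have p2 : HasFDerivAt (fun w : Fin 3 → ℂ => w 2)
      (ContinuousLinearMap.proj (R := ℂ) (φ := fun _ : Fin 3 => ℂ) 2) z := hasFDerivAt_apply 2 z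
  rw [hasFDerivAt_pi']
  intro i
  fin_cases i
  · have h := p2.pow 2
    refine HasFDerivAt.congr_fderiv (f := fun w : Fin 3 → ℂ => w 2 ^ 2) h ?_
    ext v
    simp
  · have h := (p0.pow 3).mul p1
    refine HasFDerivAt.congr_fderiv (f := fun w : Fin 3 → ℂ => w 0 ^ 3 * w 1) h ?_
    ext v
    simp
    ring
  · have h := (p1.pow 4).mul (p2.pow 2)
    refine HasFDerivAt.congr_fderiv (f := fun w : Fin 3 → ℂ => w 1 ^ 4 * w 2 ^ 2) h ?_
    ext v
    simp
    ring

theorem F_fderiv_zero : fderiv ℂ F 0 = 0 := by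
  rw [(F_hasFDerivAt 0).fderiv]
  ext v i
  fin_cases i
  · simp
  · simp
  · simp

theorem F_det_ne (c : ℂ) (hc : c ≠ 0) : (fderiv ℂ F (fun _ => c)).det ≠ 0 := by
  rw [(F_hasFDerivAt (fun _ => c)).fderiv]
  intro h0
  have h1 := LinearMap.bot_lt_ker_of_det_eq_zero
    (f := ((ContinuousLinearMap.pi
      ![(2 * c) • (ContinuousLinearMap.proj (R := ℂ) (φ := fun _ : Fin 3 => ℂ) 2),
        (3 * c ^ 2 * c) • (ContinuousLinearMap.proj (R := ℂ) (φ := fun _ : Fin 3 => ℂ) 0) +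
          (c ^ 3) • (ContinuousLinearMap.proj (R := ℂ) (φ := fun _ : Fin 3 => ℂ) 1),
        (4 * c ^ 3 * c ^ 2) • (ContinuousLinearMap.proj (R := ℂ) (φ := fun _ : Fin 3 => ℂ) 1) +
          (c ^ 4 * (2 * c)) • (ContinuousLinearMap.proj (R := ℂ) (φ := fun _ : Fin 3 => ℂ) 2)] :
            (Fin 3 → ℂ) →L[ℂ] (Fin 3 → ℂ)) : (Fin 3 → ℂ) →ₗ[ℂ] (Fin 3 → ℂ))) h0
  obtain ⟨v, hv, hv0⟩ := (Submodule.ne_bot_iff _).mp h1.ne'
  rw [LinearMap.mem_ker] at hv
  apply hv0
  have a0 := congrFun hv 0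
  have a1 := congrFun hv 1
  have a2 := congrFun hv 2
  simp [hc] at a0
  simp [a0] at a1 a2
  have b1 : v 1 = 0 := by
    rcases a2 with h | h
    · exact absurd h hc
    · exact h
  have b0 : v 0 = 0 := by
    rw [b1] at a1
    simp [hc] at a1
    exact a1
  funext i
  fin_cases i
  · exact b0
  · exact b1
  · exact a0

/-- The negation of the preceding statement: For every holomorphic germ f of ℂⁿ fixing 0 that is non-invertible and dominant, the orders of vanishing c(f^k) of its iterates at 0 eventually satisfy a linear recursion with integer coefficients. -/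
theorem result :
    ¬ (∀ (n : ℕ) (f : (Fin n → ℂ) → (Fin n → ℂ)),
      AnalyticAt ℂ f 0 → f 0 = 0 →
      (fderiv ℂ f 0).det = 0 →
      (∀ ε : ℝ, 0 < ε → ∃ z : Fin n → ℂ, ‖z‖ < ε ∧ (fderiv ℂ f z).det ≠ 0) →
      ∃ (d : ℕ) (a : Fin d → ℤ) (K : ℕ), ∀ k : ℕ, K ≤ k →
        ((sInf {m : ℕ | iteratedFDeriv ℂ m (f^[k + d]) 0 ≠ 0} : ℕ) : ℤ) =
          ∑ i : Fin d, a i *
            ((sInf {m : ℕ | iteratedFDeriv ℂ m (f^[k + (i : ℕ)]) 0 ≠ 0} : ℕ) : ℤ)) := by
  intro H
  obtain ⟨d, a, K, h⟩ := H 3 F (F_contDiff.contDiffAt.analyticAt) (by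
      funext i
      fin_cases i
      · simp [F]
      · simp [F]
      · simp [F]) (by
      rw [F_fderiv_zero]
      have : ((0 : (Fin 3 → ℂ) →L[ℂ] (Fin 3 → ℂ)) : (Fin 3 → ℂ) →ₗ[ℂ] (Fin 3 → ℂ)) = 0 := rfl
      rw [ContinuousLinearMap.det, this, LinearMap.det_zero]
      simp) (by
      intro ε hε
      refine ⟨fun _ => ((ε / 2 : ℝ) : ℂ), ?_, F_det_ne _ ?_⟩
      · rw [pi_norm_const]
        rw [Complex.norm_real, Real.norm_eq_abs, abs_of_pos (by positivity)]
        linarith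
      · have : (ε / 2 : ℝ) ≠ 0 := by positivity
        exact_mod_cast this)
  apply no_rec d a K
  intro k hk
  have h1 := h k hk
  rw [order_iter] at h1
  have h2 : ∀ j : ℕ, ((min (R j 0) (R j 1) : ℕ) : ℤ) = u j := by
    intro j
    rw [u]
    push_cast
    rfl
  rw [h2] at h1
  rw [h1]
  apply Finset.sum_congr rfl
  intro i _
  rw [order_iter, h2]

end Pool.Agent.S06280
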