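import Pool.Statements.S06444
import Pool.Agent.Q202.PA.NotA
import Pool.Agent.Q202.PA.L1

set_option autoImplicit false
open MeasureTheory
open scoped ENNReal
open Pool Pool.MP_e081a1_an

namespace Pool.Agent.S06444

open Pool.Agent.Q202.PA

noncomputable instance : MeasurableSpace X := borel X

instance : BorelSpace X := ⟨rfl⟩

instance : Countable X := by
  have : Function.Injective fun x : X => (⟨x.n, x.q⟩ : Σ N : ℕ, Q N) := by
    rintro ⟨n, q⟩ ⟨m, r⟩ h
    simp only [Sigma.mk.injEq] at h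
    obtain ⟨h1, h2⟩ := h
    subst h1
    rw [eq_of_heq h2]
  exact this.countable

/-- The negation of the preceding statement: For every p in [1,∞) other than 2, every bounded geometry metric space with the p-operator norm localization property (ℓ^p-valued L^p, all nonzero locally finite Borel measures) has Yu's property A. -/
theorem result :
    ¬ (∀ (p : ℝ≥0∞) [Fact (1 ≤ p)], p ≠ ⊤ → p ≠ 2 →
    ∀ (X : Type) [MetricSpace X] [MeasurableSpace X] [BorelSpace X],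
      (∀ R : ℝ, 0 < R → ∃ N : ℕ, ∀ x : X,
          (Metric.ball x R).Finite ∧ (Metric.ball x R).ncard ≤ N) →
      (∃ c : ℝ, 0 < c ∧ c ≤ 1 ∧ ∃ f : ℕ → ℕ, Monotone f ∧
        ∀ (ν : Measure X) [IsLocallyFiniteMeasure ν], ν ≠ 0 → ∀ r : ℕ,
          ∀ T : Lp (lp (fun _ : ℕ => ℝ) p) p ν →L[ℝ] Lp (lp (fun _ : ℕ => ℝ) p) p ν,
            (∀ x y : X, (r : ℝ) < dist x y →
              ∃ U V : Set X, IsOpen U ∧ IsOpen V ∧ x ∈ U ∧ y ∈ V ∧
                ∀ g : Lp (lp (fun _ : ℕ => ℝ) p) p ν,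
                  (∀ᵐ z ∂ν, z ∉ U → ⇑g z = 0) → ∀ᵐ z ∂ν, z ∈ V → ⇑(T g) z = 0) →
            ∃ ξ : Lp (lp (fun _ : ℕ => ℝ) p) p ν, ξ ≠ 0 ∧
              (∃ S : Set X, (∀ a ∈ S, ∀ b ∈ S, dist a b ≤ (f r : ℝ)) ∧
                ∀ᵐ z ∂ν, z ∉ S → ⇑ξ z = 0) ∧
              c * ‖T‖ * ‖ξ‖ ≤ ‖T ξ‖) →
      (∀ R : ℝ, 0 < R → ∀ ε : ℝ, 0 < ε →
        ∃ S : ℝ, ∃ A : X → Set (X × ℕ),
          (∀ x, (A x).Finite) ∧ (∀ x, (x, 0) ∈ A x) ∧
          (∀ x, ∀ w ∈ A x, dist w.1 x ≤ S) ∧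
          ∀ x y, dist x y < R →
            ((symmDiff (A x) (A y)).ncard : ℝ) < ε * ((A x ∩ A y).ncard : ℝ))) := by
  intro H
  refine not_propertyA (H 1 (by simp) (by norm_num) X (fun R _ => bdd_geom R)
    ⟨1 / 2, by norm_num, by norm_num, fun _ => 0, fun _ _ _ => le_rfl, ?_⟩)
  intro ν hlf hν r T _
  by_contra hcon
  push Not at hcon
  have hatom : ∀ (x : X) (hx : ν {x} ≠ ∞) (c : lp (fun _ : ℕ => ℝ) 1),
      ‖T (indicatorConstLp 1 (measurableSet_singleton x) hx c)‖ ≤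
        (1 / 2 * ‖T‖) * ‖indicatorConstLp 1 (measurableSet_singleton x) hx c‖ := by
    intro x hx c
    by_cases h0 : indicatorConstLp 1 (measurableSet_singleton x) hx c = 0
    · rw [h0, map_zero]; simp
    · refine (hcon _ h0 ⟨{x}, ?_, ?_⟩).le
      · rintro a rfl b hb
        rw [Set.mem_singleton_iff] at hb
        rw [hb, dist_self]
        simp
      · exact indicatorConstLp_coeFn_notMem
  have hT : ‖T‖ ≤ 1 / 2 * ‖T‖ :=
    ContinuousLinearMap.opNorm_le_bound _ (by positivity) (l1_bound T _ hatom)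
  have hT0 : ‖T‖ = 0 := le_antisymm (by linarith) (norm_nonneg _)
  obtain ⟨x, hx⟩ := exists_atom hν
  have hx' : ν {x} ≠ ∞ := (isCompact_singleton.measure_lt_top).ne
  obtain ⟨c, hc⟩ : ∃ c : lp (fun _ : ℕ => ℝ) 1, ‖c‖ ≠ 0 := by
    refine ⟨lp.single 1 0 1, ?_⟩
    rw [lp.norm_single (by norm_num)]
    simp
  have h0 : indicatorConstLp 1 (measurableSet_singleton x) hx' c ≠ 0 := by
    rw [← norm_ne_zero_iff, norm_ind]
    refine mul_ne_zero hc ?_
    rw [Measure.real, ENNReal.toReal_ne_zero]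
    exact ⟨hx, hx'⟩
  have h1 := hcon _ h0 ⟨{x}, by
      rintro a rfl b hb
      rw [Set.mem_singleton_iff] at hb
      rw [hb, dist_self]
      simp, indicatorConstLp_coeFn_notMem⟩
  rw [hT0] at h1
  simp at h1
  exact absurd h1 (not_lt.2 (norm_nonneg _))

end Pool.Agent.S06444
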