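import Pool.Statements.S06533
import Pool.Agent.Q306.OR.Main

set_option autoImplicit false
open MeasureTheory Filter Topology
open Pool Pool.MP_e8a8db_an

namespace Pool.Agent.S06533

/-- Every nontrivial mixing measure-preserving system on a probability space has an over-recurrent set, or a bounded non-constant function f with ∫ f·f∘T^n ≥ (∫ f)^2 for all n ≥ 1. -/
theorem result :
    ∀ (X : Type) [MeasurableSpace X] (μ : Measure X) [IsProbabilityMeasure μ] (T : X → X),
      MeasurePreserving T μ μ →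
      (∃ A : Set X, MeasurableSet A ∧ 0 < μ A ∧ μ A < 1) →
      (∀ A B : Set X, MeasurableSet A → MeasurableSet B →
        Tendsto (fun n : ℕ => μ (A ∩ T^[n] ⁻¹' B)) atTop (𝓝 (μ A * μ B))) →
      (∃ A : Set X, MeasurableSet A ∧ 0 < μ A ∧ μ A < 1 ∧
          ∀ n : ℕ, 1 ≤ n → μ A ^ 2 ≤ μ (A ∩ T^[n] ⁻¹' A)) ∨
      (∃ f : X → ℝ, MemLp f ⊤ μ ∧ (¬ ∃ c : ℝ, f =ᵐ[μ] fun _ => c) ∧
          ∀ n : ℕ, 1 ≤ n → (∫ x, f x ∂μ) ^ 2 ≤ ∫ x, f x * f (T^[n] x) ∂μ) := by
  intro X _ μ _ T hT hne hmix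
  right
  have hmix' : Pool.Agent.Q306.OR.Mixing μ T := by
    intro A B hA hB
    have h1 := (ENNReal.tendsto_toReal (ENNReal.mul_ne_top (measure_ne_top μ A)
      (measure_ne_top μ B))).comp (hmix A B hA hB)
    rw [ENNReal.toReal_mul] at h1
    exact h1
  have hne' : ∃ A : Set X, MeasurableSet A ∧ 0 < μ.real A ∧ μ.real A < 1 := by
    obtain ⟨A, hA, h0, h1⟩ := hne
    refine ⟨A, hA, ENNReal.toReal_pos h0.ne' (measure_ne_top μ A), ?_⟩
    have := (ENNReal.toReal_lt_toReal (measure_ne_top μ A) ENNReal.one_ne_top).2 h1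
    rw [ENNReal.toReal_one] at this
    exact this
  obtain ⟨f, hfm, hfb, hf0, hpos⟩ := Pool.Agent.Q306.OR.exists_function hT hmix' hne'
  refine ⟨f, ?_, ?_, fun n hn => ?_⟩
  · exact MemLp.of_bound hfm.aestronglyMeasurable 8 (Eventually.of_forall fun x => by
      rw [Real.norm_eq_abs]; exact hfb x)
  · rintro ⟨c, hc⟩
    have h1 : c = 0 := by
      have h2 : ∫ x, f x ∂μ = ∫ _, c ∂μ := integral_congr_ae hc
      rw [hf0, integral_const] at h2
      simpa using h2.symm
    have h2 := hpos 1 le_rfl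
    have h3 : ∫ x, f x * f (T^[1] x) ∂μ = 0 := by
      rw [← integral_zero X ℝ]
      refine integral_congr_ae ?_
      filter_upwards [hc] with x hx
      rw [hx, h1, zero_mul]
    exact absurd h3 h2.ne'
  · rw [hf0]
    have := hpos n hn
    simpa using this.le

end Pool.Agent.S06533
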