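import Pool.Statements.S07056

set_option autoImplicit false
open Pool Pool.MP_0959cd_co

namespace Pool.Agent.S07056

/-- The vertices of the tree: the root `none`, two middle vertices `some (i, none)` and ten leaves
`some (i, some j)`. -/
abbrev T := Option (Bool × Option (Fin 5))

/-- Arc weights times `20` of the tree digraph: the root sends weight `1/2` to each middle vertex, a
middle vertex sends `1/5` to each of its leaves, a leaf sends `3/4` to its middle vertex and `1/4`
to the root. -/
def w : T → T → ℕ
  | none, some (_, none) => 10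
  | some (i, none), some (i', some _) => if i = i' then 4 else 0
  | some (i, some _), some (i', none) => if i = i' then 15 else 0
  | some (_, some _), none => 5
  | _, _ => 0

/-- Arc weights times `20` of the counterexample: a reversed copy (`false`) of the tree digraph, a
copy (`true`) of it, and all arcs from the first to the second, of weight `1`. -/
def pN : Bool × T → Bool × T → ℕ
  | (true, u), (true, v) => w u v
  | (false, u), (false, v) => w v u
  | (false, _), (true, _) => 20
  | (true, _), (false, _) => 0

lemma leaf_in : ∀ (i : Bool) (j : Fin 5) (u : T), w u (some (i, some j)) ≠ 0 →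
    u = some (i, none) := by decide +kernel

lemma leaf_out : ∀ (i : Bool) (j : Fin 5) (u : T), w (some (i, some j)) u ≠ 0 →
    u = some (i, none) ∨ u = none := by decide +kernel

lemma mid_in : ∀ (i : Bool) (u : T), w u (some (i, none)) ≠ 0 →
    u = none ∨ ∃ j, u = some (i, some j) := by decide +kernel

lemma mid_out : ∀ (i : Bool) (u : T), w (some (i, none)) u ≠ 0 →
    ∃ j, u = some (i, some j) := by decide +kernel

lemma root_out : ∀ (u : T), w none u ≠ 0 → ∃ i, u = some (i, none) := by decide +kernel

lemma two_lt : ∀ u v : T, w u v + w v u < 20 := by decide +kernel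

lemma three_lt : ∀ u v x : T, w u v ≠ 0 → w v x ≠ 0 → w x u ≠ 0 → w u v + w v x + w x u < 20 := by
  decide +kernel

lemma fin_two {k : ℕ} (x : Fin (k + 2)) (h : x + 1 + 1 = x) : k = 0 := by
  have h2 : (1 + 1 : Fin (k + 2)) = 0 := by
    have : x + (1 + 1) = x + 0 := by rw [← add_assoc, h, add_zero]
    exact add_left_cancel this
  have h3 := congrArg Fin.val h2
  rw [Fin.val_add] at h3
  rcases k with _ | k
  · rfl
  · exfalso
    simp at h3
    rw [Nat.mod_eq_of_lt (by omega)] at h3
    omega

lemma nsmul_val {k : ℕ} (m : ℕ) : (m • (1 : Fin (k + 2))).val = m % (k + 2) := by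
  induction m with
  | zero => simp
  | succ m ih =>
    rw [succ_nsmul, Fin.val_add, ih]
    simp [Nat.add_mod]

lemma fin_three {k : ℕ} (x : Fin (k + 2)) (h : x + 1 + 1 + 1 = x) : k = 1 := by
  have h2 : (1 + 1 + 1 : Fin (k + 2)) = 0 := by
    have : x + (1 + 1 + 1) = x + 0 := by rw [← add_assoc, ← add_assoc, h, add_zero]
    exact add_left_cancel this
  have h3 := congrArg Fin.val h2
  rw [Fin.val_add, Fin.val_add] at h3
  rcases k with _ | _ | k
  · simp at h3
  · rfl
  · exfalso
    simp at h3
    rw [Nat.mod_eq_of_lt (by omega)] at h3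
    omega

/-- Every directed cycle of the tree digraph has length `2` or `3`. -/
lemma len {k : ℕ} (c : Fin (k + 2) → T) (hc : Function.Injective c)
    (hadj : ∀ i, w (c i) (c (i + 1)) ≠ 0) : k = 0 ∨ k = 1 := by
  -- find a leaf
  have hleaf : ∃ x i j, c x = some (i, some j) := by
    have hmid : ∀ x i, c x = some (i, none) → ∃ x i j, c x = some (i, some j) := by
      intro x i hx
      have h := hadj x
      rw [hx] at h
      obtain ⟨j, hj⟩ := mid_out i _ h
      exact ⟨_, _, _, hj⟩
    rcases h0 : c 0 with _ | ⟨i, _ | j⟩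
    · have h := hadj 0
      rw [h0] at h
      obtain ⟨i, hi⟩ := root_out _ h
      exact hmid _ _ hi
    · exact hmid _ _ h0
    · exact ⟨_, _, _, h0⟩
  obtain ⟨x, i, j, hx⟩ := hleaf
  -- predecessors
  obtain ⟨y, rfl⟩ : ∃ y, y + 1 = x := ⟨x - 1, sub_add_cancel x 1⟩
  have hy : c y = some (i, none) := by
    have h := hadj y
    rw [hx] at h
    exact leaf_in i j _ h
  have h1 := hadj (y + 1)
  rw [hx] at h1
  rcases leaf_out i j _ h1 with h2 | h2
  · left
    have : y + 1 + 1 = y := hc (h2.trans hy.symm)
    exact fin_two y this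
  · obtain ⟨z, rfl⟩ : ∃ z, z + 1 = y := ⟨y - 1, sub_add_cancel y 1⟩
    have hz := hadj z
    rw [hy] at hz
    rcases mid_in i _ hz with h3 | ⟨j', h3⟩
    · right
      have : z + 1 + 1 + 1 = z := hc (h2.trans h3.symm)
      exact fin_three z this
    · obtain ⟨t, rfl⟩ : ∃ t, t + 1 = z := ⟨z - 1, sub_add_cancel z 1⟩
      have ht := hadj t
      rw [h3] at ht
      have h4 := leaf_in i j' _ ht
      have : t + 1 + 1 = t := hc (hy.trans h4.symm)
      left
      exact fin_two t this

lemma cyc {k : ℕ} (c : Fin (k + 2) → T) (hc : Function.Injective c)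
    (hadj : ∀ i, w (c i) (c (i + 1)) ≠ 0) : ∑ i, w (c i) (c (i + 1)) < 20 := by
  rcases len c hc hadj with rfl | rfl
  · rw [Fin.sum_univ_two]
    exact two_lt _ _
  · rw [Fin.sum_univ_three]
    exact three_lt _ _ _ (hadj 0) (hadj 1) (hadj 2)

/-- The negation of the preceding statement: In every finite nonempty loopless digraph with arc weights in [0,1] where each vertex has total out-weight at least 1 and total in-weight at least 1, some directed cycle has total weight at least 1. -/
theorem result :
    ¬ (∀ (V : Type) [Fintype V] [Nonempty V] (G : Digraph V) (p : V → V → ℝ),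
      (∀ v, ¬ G.Adj v v) →
      (∀ u v, 0 ≤ p u v ∧ p u v ≤ 1) →
      (∀ u v, ¬ G.Adj u v → p u v = 0) →
      (∀ u, 1 ≤ ∑ v, p u v) →
      (∀ u, 1 ≤ ∑ v, p v u) →
      ∃ (k : ℕ) (c : Fin (k + 2) → V),
        Function.Injective c ∧
        (∀ i, G.Adj (c i) (c (i + 1))) ∧
        1 ≤ ∑ i, p (c i) (c (i + 1))) := by
  intro H
  have h1 : ∀ v, ¬ (pN v v ≠ 0) := by decide +kernel
  have h2 : ∀ u v, pN u v ≤ 20 := by decide +kernel
  have h4 : ∀ u, 20 ≤ ∑ v, pN u v := by decide +kernel
  have h5 : ∀ u, 20 ≤ ∑ v, pN v u := by decide +kernel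
  obtain ⟨k, c, hc, hadj, hsum⟩ := H (Bool × T) ⟨fun u v => pN u v ≠ 0⟩
    (fun u v => (pN u v : ℝ) / 20) h1
    (fun u v => ⟨by positivity, by
      rw [div_le_one (by norm_num)]; exact_mod_cast h2 u v⟩)
    (fun u v h => by
      have h' : pN u v = 0 := by simpa using h
      simp [h'])
    (fun u => by
      rw [← Finset.sum_div, le_div_iff₀ (by norm_num)]
      have := h4 u
      have h6 : (20 : ℝ) ≤ ∑ v, (pN u v : ℝ) := by exact_mod_cast this
      linarith)
    (fun u => by
      rw [← Finset.sum_div, le_div_iff₀ (by norm_num)]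
      have := h5 u
      have h6 : (20 : ℝ) ≤ ∑ v, (pN v u : ℝ) := by exact_mod_cast this
      linarith)
  rw [← Finset.sum_div, le_div_iff₀ (by norm_num)] at hsum
  have hsum' : 20 ≤ ∑ i, pN (c i) (c (i + 1)) := by
    have : (20 : ℝ) ≤ ∑ i, (pN (c i) (c (i + 1)) : ℝ) := by linarith
    exact_mod_cast this
  have hadj' : ∀ i, pN (c i) (c (i + 1)) ≠ 0 := hadj
  -- once in the second part, always in the second part
  have hstep : ∀ i, (c i).1 = true → (c (i + 1)).1 = true := by
    intro i hi
    by_contra hne
    have h := hadj' i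
    apply h
    rcases h6 : c i with ⟨b, u⟩
    rcases h7 : c (i + 1) with ⟨b', v⟩
    rw [h6] at hi
    rw [h7] at hne
    simp only at hi hne
    have hb' : b' = false := by simpa using hne
    subst hi hb'
    rfl
  have hstep' : ∀ (m : ℕ) (i : Fin (k + 2)), (c i).1 = true → (c (i + (m • (1 : Fin (k + 2))))).1 = true := by
    intro m
    induction m with
    | zero => intro i hi; simpa using hi
    | succ m ih =>
      intro i hi
      have := hstep _ (ih i hi)
      rw [succ_nsmul, ← add_assoc]
      exact this
  have hall : ∀ i j, (c i).1 = true → (c j).1 = true := by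
    intro i j hi
    have h := hstep' (j - i).val i hi
    have h8 : ((j - i).val • (1 : Fin (k + 2))) = j - i := by
      apply Fin.ext
      rw [nsmul_val]
      exact Nat.mod_eq_of_lt (j - i).isLt
    rw [h8] at h
    rwa [add_sub_cancel] at h
  by_cases h0 : (c 0).1 = true
  · have hb : ∀ i, (c i).1 = true := fun i => hall 0 i h0
    have hpN : ∀ i, pN (c i) (c (i + 1)) = w (c i).2 (c (i + 1)).2 := by
      intro i
      have e1 : c i = (true, (c i).2) := Prod.ext (hb i) rfl
      have e2 : c (i + 1) = (true, (c (i + 1)).2) := Prod.ext (hb (i + 1)) rfl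
      rw [e1, e2]
      rfl
    have hinj : Function.Injective (fun i => (c i).2) := by
      intro i j hij
      exact hc (Prod.ext ((hb i).trans (hb j).symm) hij)
    have := cyc (fun i => (c i).2) hinj (fun i => by rw [← hpN]; exact hadj' i)
    rw [Finset.sum_congr rfl (fun i _ => hpN i)] at hsum'
    omega
  · have hb : ∀ i, (c i).1 = false := by
      intro i
      by_contra hne
      have : (c i).1 = true := by simpa using hne
      exact h0 (hall i 0 this)
    have hpN : ∀ i, pN (c i) (c (i + 1)) = w (c (i + 1)).2 (c i).2 := by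
      intro i
      have e1 : c i = (false, (c i).2) := Prod.ext (hb i) rfl
      have e2 : c (i + 1) = (false, (c (i + 1)).2) := Prod.ext (hb (i + 1)) rfl
      rw [e1, e2]
      rfl
    have hinj : Function.Injective (fun i => (c (-i)).2) := by
      intro i j hij
      have := hc (Prod.ext ((hb _).trans (hb _).symm) hij)
      exact neg_injective this
    have hcyc := cyc (fun i => (c (-i)).2) hinj (fun i => by
      have e : -i = -(i + 1) + 1 := by abel
      show w (c (-i)).2 (c (-(i + 1))).2 ≠ 0
      rw [e, ← hpN]
      exact hadj' _)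
    have hre : ∑ i, w (c (-i)).2 (c (-(i + 1))).2 = ∑ i, pN (c i) (c (i + 1)) := by
      refine Fintype.sum_equiv ((Equiv.addRight (1 : Fin (k + 2))).trans (Equiv.neg _)) _ _ ?_
      intro i
      rw [hpN]
      simp only [Equiv.trans_apply, Equiv.coe_addRight, Equiv.neg_apply]
      have e : -(i + 1) + 1 = -i := by abel
      rw [e]
    rw [hre] at hcyc
    omega

end Pool.Agent.S07056
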