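import Pool.Statements.S07114

set_option autoImplicit false
open Filter Topology
open Pool Pool.MP_0b90e2_co

namespace Pool.Agent.S07114

/-- The edge set type of `K_n`. -/
abbrev E (n : ℕ) : Type := {e : Sym2 (Fin n) // ¬ e.IsDiag}

/-- The colouring of the edges of `K_{m+m}`: the cross edges get the colours given by `f`, all other
edges get colour `0`. -/
noncomputable def colour {m r : ℕ} (hr : 0 < r) (f : Fin m × Fin m → Fin r) (e : E (m + m)) : Fin r :=
  open Classical in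
  if h : ∃ p : Fin m × Fin m, e.1 = s(Fin.castAdd m p.1, Fin.natAdd m p.2) then
    f h.choose else ⟨0, hr⟩

lemma cross_inj {m : ℕ} {p q : Fin m × Fin m}
    (h : s(Fin.castAdd m p.1, Fin.natAdd m p.2) = s(Fin.castAdd m q.1, Fin.natAdd m q.2)) :
    p = q := by
  rw [Sym2.eq_iff] at h
  rcases h with ⟨h1, h2⟩ | ⟨h1, h2⟩
  · have e1 : (p.1 : ℕ) = q.1 := by simpa using congrArg Fin.val h1
    have e2 : (p.2 : ℕ) = q.2 := by simpa using congrArg Fin.val h2
    exact Prod.ext (Fin.ext e1) (Fin.ext e2)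
  · exfalso
    have e1 : (p.1 : ℕ) = q.2 + m := by simpa using congrArg Fin.val h1
    have := p.1.2
    omega

lemma colour_cross {m r : ℕ} (hr : 0 < r) (f : Fin m × Fin m → Fin r) (e : E (m + m))
    (p : Fin m × Fin m) (h : e.1 = s(Fin.castAdd m p.1, Fin.natAdd m p.2)) :
    colour hr f e = f p := by
  classical
  unfold colour
  have h' : ∃ p : Fin m × Fin m, e.1 = s(Fin.castAdd m p.1, Fin.natAdd m p.2) := ⟨p, h⟩
  rw [dif_pos h']
  congr 1
  exact cross_inj (h'.choose_spec.symm.trans h)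

lemma colour_inside {m r : ℕ} (hr : 0 < r) (f : Fin m × Fin m → Fin r) (e : E (m + m))
    (x y : Fin (m + m)) (h : e.1 = s(x, y)) (hxy : (x : ℕ) < m ↔ (y : ℕ) < m) :
    colour hr f e = ⟨0, hr⟩ := by
  classical
  unfold colour
  rw [dif_neg]
  rintro ⟨p, hp⟩
  rw [h, Sym2.eq_iff] at hp
  rcases hp with ⟨h1, h2⟩ | ⟨h1, h2⟩
  · rw [h1, h2] at hxy
    simp at hxy
  · rw [h1, h2] at hxy
    simp at hxy

/-- Among any four vertices there are two distinct edges not crossing. -/
lemma two_inside {m : ℕ} (S : Finset (Fin (m + m))) (hS : S.card = 4) :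
    ∃ x ∈ S, ∃ y ∈ S, ∃ z ∈ S, ∃ w ∈ S, x ≠ y ∧ z ≠ w ∧ s(x, y) ≠ s(z, w) ∧
      ((x : ℕ) < m ↔ (y : ℕ) < m) ∧ ((z : ℕ) < m ↔ (w : ℕ) < m) := by
  classical
  obtain ⟨a, b, c, d, hab, hac, had, hbc, hbd, hcd, rfl⟩ := Finset.card_eq_four.mp hS
  have ha : a ∈ ({a, b, c, d} : Finset (Fin (m + m))) := by simp
  have hb : b ∈ ({a, b, c, d} : Finset (Fin (m + m))) := by simp
  have hc : c ∈ ({a, b, c, d} : Finset (Fin (m + m))) := by simp
  have hd : d ∈ ({a, b, c, d} : Finset (Fin (m + m))) := by simp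
  have nAB {x y z w : Fin (m + m)} (h1 : x ≠ z) (h2 : x ≠ w) : s(x, y) ≠ s(z, w) := by
    rw [Ne, Sym2.eq_iff]
    rintro (⟨h, _⟩ | ⟨h, _⟩)
    · exact h1 h
    · exact h2 h
  by_cases h1 : ((a : ℕ) < m ↔ (b : ℕ) < m)
  · by_cases h2 : ((c : ℕ) < m ↔ (d : ℕ) < m)
    · exact ⟨a, ha, b, hb, c, hc, d, hd, hab, hcd, nAB hac had, h1, h2⟩
    · by_cases h3 : ((a : ℕ) < m ↔ (c : ℕ) < m)
      · exact ⟨b, hb, a, ha, a, ha, c, hc, hab.symm, hac, nAB hab.symm hbc, h1.symm, h3⟩
      · have h4 : ((a : ℕ) < m ↔ (d : ℕ) < m) := by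
          constructor
          · intro h
            by_contra h'
            exact h2 ⟨fun hh => absurd ⟨fun _ => hh, fun _ => h⟩ h3, fun hh => absurd hh h'⟩
          · intro h
            by_contra h'
            refine h3 ⟨fun hh => absurd hh h', fun hh => absurd ⟨fun _ => h, fun _ => hh⟩ h2⟩
        exact ⟨b, hb, a, ha, a, ha, d, hd, hab.symm, had, nAB hab.symm hbd, h1.symm, h4⟩
  · by_cases h2 : ((c : ℕ) < m ↔ (d : ℕ) < m)
    · by_cases h3 : ((a : ℕ) < m ↔ (c : ℕ) < m)
      · exact ⟨a, ha, c, hc, c, hc, d, hd, hac, hcd, nAB hac had, h3, h2⟩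
      · have h4 : ((b : ℕ) < m ↔ (c : ℕ) < m) := by
          by_cases pa : (a : ℕ) < m <;> by_cases pb : (b : ℕ) < m <;>
            by_cases pc : (c : ℕ) < m <;> simp [pa, pb, pc] at h1 h3 ⊢
        exact ⟨b, hb, c, hc, c, hc, d, hd, hbc, hcd, nAB hbc hbd, h4, h2⟩
    · by_cases h3 : ((a : ℕ) < m ↔ (c : ℕ) < m)
      · have h4 : ((b : ℕ) < m ↔ (d : ℕ) < m) := by
          by_cases pa : (a : ℕ) < m <;> by_cases pb : (b : ℕ) < m <;>
            by_cases pc : (c : ℕ) < m <;> by_cases pd : (d : ℕ) < m <;>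
              simp [pa, pb, pc, pd] at h1 h2 h3 ⊢
        exact ⟨a, ha, c, hc, b, hb, d, hd, hac, hbd, nAB hab had, h3, h4⟩
      · have h4 : ((b : ℕ) < m ↔ (c : ℕ) < m) := by
          by_cases pa : (a : ℕ) < m <;> by_cases pb : (b : ℕ) < m <;>
            by_cases pc : (c : ℕ) < m <;> simp [pa, pb, pc] at h1 h3 ⊢
        have h5 : ((a : ℕ) < m ↔ (d : ℕ) < m) := by
          by_cases pa : (a : ℕ) < m <;> by_cases pb : (b : ℕ) < m <;>
            by_cases pc : (c : ℕ) < m <;> by_cases pd : (d : ℕ) < m <;>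
              simp [pa, pb, pc, pd] at h1 h2 h3 ⊢
        exact ⟨b, hb, c, hc, a, ha, d, hd, hbc, had, nAB hab.symm hbd, h4, h5⟩

lemma card_edges {m : ℕ} (S : Finset (Fin (m + m))) (hS : S.card = 4) :
    (Finset.univ.filter (fun e : E (m + m) => e.1 ∈ S.sym2)).card ≤ 6 := by
  classical
  have h1 : (Finset.univ.filter (fun e : E (m + m) => e.1 ∈ S.sym2)).card ≤
      (S.sym2.filter (fun e => ¬ e.IsDiag)).card := by
    refine Finset.card_le_card_of_injOn (fun e => e.1) ?_ ?_
    · intro e he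
      simp only [Finset.coe_filter, Set.mem_ofPred_eq, Finset.mem_univ, true_and] at he ⊢
      exact ⟨he, e.2⟩
    · intro e _ f _ h
      exact Subtype.ext h
  have h2 : (S.sym2.filter (fun e => ¬ e.IsDiag)).card = S.card.choose 2 := by
    rw [← Sym2.card_image_offDiag, ← Finset.card_image_of_injOn (f := id) (fun _ _ _ _ h => h)]
    congr 1
    ext e
    induction e using Sym2.ind with
    | _ x y =>
      simp only [Finset.image_id, Finset.mem_filter, Finset.mk_mem_sym2_iff, Sym2.mk_isDiag_iff,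
        Finset.mem_image, Finset.mem_offDiag, Prod.exists]
      constructor
      · rintro ⟨⟨hx, hy⟩, hxy⟩
        exact ⟨x, y, ⟨hx, hy, hxy⟩, rfl⟩
      · rintro ⟨a, b, ⟨ha, hb, hab⟩, h⟩
        have h' : s(a, b) = s(x, y) := h
        rw [Sym2.eq_iff] at h'
        rcases h' with ⟨rfl, rfl⟩ | ⟨rfl, rfl⟩
        · exact ⟨⟨ha, hb⟩, hab⟩
        · exact ⟨⟨hb, ha⟩, Ne.symm hab⟩
  rw [h2, hS] at h1
  exact h1.trans (by decide)

lemma colour_good {m r : ℕ} (hr : 0 < r) (f : Fin m × Fin m → Fin r)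
    (S : Finset (Fin (m + m))) (hS : S.card = 4) :
    ((Finset.univ.filter (fun e : E (m + m) => e.1 ∈ S.sym2)).image (colour hr f)).card < 6 := by
  classical
  obtain ⟨x, hx, y, hy, z, hz, w, hw, hxy, hzw, hne, h1, h2⟩ := two_inside S hS
  set F := Finset.univ.filter (fun e : E (m + m) => e.1 ∈ S.sym2) with hF
  have he1 : (⟨s(x, y), by simpa using hxy⟩ : E (m + m)) ∈ F := by
    rw [hF]; simp [hx, hy]
  have he2 : (⟨s(z, w), by simpa using hzw⟩ : E (m + m)) ∈ F := by
    rw [hF]; simp [hz, hw]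
  have h3 : (F.image (colour hr f)) = ((F.erase ⟨s(x, y), by simpa using hxy⟩).image (colour hr f)) := by
    apply Finset.Subset.antisymm
    · intro q hq
      rw [Finset.mem_image] at hq ⊢
      obtain ⟨e, he, rfl⟩ := hq
      by_cases hee : e = ⟨s(x, y), by simpa using hxy⟩
      · refine ⟨⟨s(z, w), by simpa using hzw⟩, ?_, ?_⟩
        · rw [Finset.mem_erase]
          refine ⟨?_, he2⟩
          intro h
          exact hne (congrArg Subtype.val h).symm
        · rw [hee, colour_inside hr f _ z w rfl h2, colour_inside hr f _ x y rfl h1]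
      · exact ⟨e, Finset.mem_erase.mpr ⟨hee, he⟩, rfl⟩
    · exact Finset.image_subset_image (Finset.erase_subset _ _)
  rw [h3]
  refine lt_of_le_of_lt Finset.card_image_le ?_
  have h4 : F.card ≤ 6 := card_edges S hS
  have h5 : 0 < F.card := Finset.card_pos.mpr ⟨_, he1⟩
  rw [Finset.card_erase_of_mem he1]
  clear_value F
  omega

lemma lower (m : ℕ) :
    26 ^ (m * m) ≤ Nat.card {c : E (m + m) → Fin 26 //
              ∀ S : Finset (Fin (m + m)), S.card = 4 →
                ((Finset.univ.filter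
                    (fun e : E (m + m) => e.1 ∈ S.sym2)).image c).card < 6} := by
  classical
  have h1 : Nat.card (Fin m × Fin m → Fin 26) = 26 ^ (m * m) := by
    rw [Nat.card_eq_fintype_card, Fintype.card_fun]
    simp
  rw [← h1]
  refine Nat.card_le_card_of_injective
    (fun f => ⟨colour (by norm_num) f, fun S hS => colour_good (by norm_num) f S hS⟩) ?_
  intro f g h
  have h2 : colour (r := 26) (by norm_num) f = colour (by norm_num) g := congrArg Subtype.val h
  funext p
  have hnd : ¬ (s(Fin.castAdd m p.1, Fin.natAdd m p.2)).IsDiag := by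
    rw [Sym2.mk_isDiag_iff]
    intro h
    have := congrArg Fin.val h
    simp at this
    have := p.1.2
    omega
  rw [← colour_cross (by norm_num) f ⟨_, hnd⟩ p rfl, ← colour_cross (by norm_num) g ⟨_, hnd⟩ p rfl, h2]

/-- The negation of the preceding statement: For all k≥3, 3≤s≤C(k,2), r≥s: the number of r-colorings of the edges of K_n in which every k-vertex set spans fewer than s colors, divided by C(r,s-1)·(s-1)^{C(n,2)}, tends to 1 as n→∞. -/
theorem result :
    ¬ (∀ k s r : ℕ, 3 ≤ k → 3 ≤ s → s ≤ k.choose 2 → s ≤ r →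
      Tendsto
        (fun n : ℕ =>
          (Nat.card {c : {e : Sym2 (Fin n) // ¬ e.IsDiag} → Fin r //
              ∀ S : Finset (Fin n), S.card = k →
                ((Finset.univ.filter
                    (fun e : {e : Sym2 (Fin n) // ¬ e.IsDiag} => e.1 ∈ S.sym2)).image c).card < s} : ℝ)
            / ((r.choose (s - 1) : ℝ) * ((s : ℝ) - 1) ^ (n.choose 2)))
        atTop (𝓝 1)) := by
  intro h
  have h1 := h 4 6 26 (by norm_num) (by norm_num) (by decide) (by norm_num)
  have h2 : Tendsto (fun m : ℕ => m + m) atTop atTop :=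
    tendsto_atTop_mono (fun m => Nat.le_add_left m m) tendsto_id
  have h3 := h1.comp h2
  have h4 := h3.eventually (gt_mem_nhds (show (1 : ℝ) < 2 by norm_num))
  obtain ⟨m, hm, hm8⟩ := (h4.and (eventually_ge_atTop 8)).exists
  simp only [Function.comp_apply] at hm
  have hlow := lower m
  have hch : (m + m).choose 2 = m * (2 * m - 1) := by
    rw [Nat.choose_two_right]
    have : (m + m) * (m + m - 1) = 2 * (m * (2 * m - 1)) := by
      rw [show m + m = 2 * m by ring]; ring
    rw [this]; simp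
  have hpos : (0 : ℝ) < ((Nat.choose 26 (6 - 1) : ℕ) : ℝ) * (((6 : ℕ) : ℝ) - 1) ^ ((m + m).choose 2) := by
    have : 0 < Nat.choose 26 (6 - 1) := Nat.choose_pos (by norm_num)
    have h6 : (0 : ℝ) < ((6 : ℕ) : ℝ) - 1 := by norm_num
    positivity
  rw [div_lt_iff₀ hpos] at hm
  have hval : Nat.choose 26 (6 - 1) = 65780 := by decide
  rw [hval] at hm
  have hlow' : ((26 : ℝ)) ^ (m * m) ≤ (Nat.card {c : E (m + m) → Fin 26 //
              ∀ S : Finset (Fin (m + m)), S.card = 4 →
                ((Finset.univ.filter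
                    (fun e : E (m + m) => e.1 ∈ S.sym2)).image c).card < 6} : ℝ) := by
    exact_mod_cast hlow
  have hlt := lt_of_le_of_lt hlow' hm
  have h56 : (((6 : ℕ) : ℝ) - 1) = 5 := by norm_num
  rw [h56, hch] at hlt
  have hmm : m * (2 * m - 1) + m = 2 * (m * m) := by
    obtain ⟨j, rfl⟩ : ∃ j, m = j + 1 := ⟨m - 1, by omega⟩
    have : 2 * (j + 1) - 1 = 2 * j + 1 := by omega
    rw [this]; ring
  have h5pos : (0 : ℝ) < 5 ^ m := by positivity
  have hA : (26 : ℝ) ^ (m * m) * 5 ^ m < 2 * (65780 * 25 ^ (m * m)) := by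
    calc (26 : ℝ) ^ (m * m) * 5 ^ m < (2 * (((65780 : ℕ) : ℝ) * 5 ^ (m * (2 * m - 1)))) * 5 ^ m := by
          exact mul_lt_mul_of_pos_right hlt h5pos
      _ = 2 * (65780 * (5 ^ (m * (2 * m - 1)) * 5 ^ m)) := by push_cast; ring
      _ = 2 * (65780 * 25 ^ (m * m)) := by
          rw [← pow_add, hmm, pow_mul]; norm_num
  have hB : (25 : ℝ) ^ (m * m) ≤ 26 ^ (m * m) := pow_le_pow_left₀ (by norm_num) (by norm_num) _
  have hC : (390625 : ℝ) ≤ 5 ^ m := by
    calc (390625 : ℝ) = 5 ^ 8 := by norm_num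
      _ ≤ 5 ^ m := pow_le_pow_right₀ (by norm_num) hm8
  have hD : (0 : ℝ) < 25 ^ (m * m) := by positivity
  nlinarith [mul_le_mul hB hC (by norm_num) (by positivity : (0 : ℝ) ≤ 26 ^ (m * m))]

end Pool.Agent.S07114
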