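import Pool.Statements.S07316
import Pool.Agent.Q294.StepFour

set_option autoImplicit false
open Pool Pool.MP_150b74_co

namespace Pool.Agent.S07316

open Pool.Agent.Q294.StepFour Finset

/-- code of a pair of Booleans -/
def code : Bool × Bool → Fin 5
  | (true, true) => 0
  | (true, false) => 1
  | (false, true) => 2
  | (false, false) => 3

theorem code_inj : Function.Injective code := by
  intro x y h
  rcases x with ⟨_ | _, _ | _⟩ <;> rcases y with ⟨_ | _, _ | _⟩ <;> simp_all [code]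

theorem code_ne (x : Bool × Bool) : code x ≠ 4 := by
  rcases x with ⟨_ | _, _ | _⟩ <;> simp [code]

theorem triple_unique {n : ℕ} {x y z x' y' z' : Fin n} (hxy : x < y) (hyz : y < z)
    (hxy' : x' < y') (hyz' : y' < z') (h : ({x, y, z} : Finset (Fin n)) = {x', y', z'}) :
    x = x' ∧ y = y' ∧ z = z' := by
  have h1 : x ∈ ({x', y', z'} : Finset (Fin n)) := by rw [← h]; simp
  have h2 : y ∈ ({x', y', z'} : Finset (Fin n)) := by rw [← h]; simp
  have h3 : z ∈ ({x', y', z'} : Finset (Fin n)) := by rw [← h]; simp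
  simp only [mem_insert, mem_singleton, Fin.ext_iff] at h1 h2 h3
  simp only [Fin.lt_def] at hxy hyz hxy' hyz'
  simp only [Fin.ext_iff]
  omega

open Classical in
/-- the colouring of finite sets -/
noncomputable def phi (n : ℕ) (c : ℕ → ℕ → ℕ → Bool × Bool) (e : Finset (Fin n)) : Fin 5 :=
  if h : ∃ p : Fin n × Fin n × Fin n, p.1 < p.2.1 ∧ p.2.1 < p.2.2 ∧ e = {p.1, p.2.1, p.2.2} then
    code (c h.choose.1 h.choose.2.1 h.choose.2.2) else 0

theorem phi_ne (n : ℕ) (c : ℕ → ℕ → ℕ → Bool × Bool) (e : Finset (Fin n)) : phi n c e ≠ 4 := by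
  unfold phi
  split_ifs with h
  · exact code_ne _
  · simp

theorem phi_triple {n : ℕ} (c : ℕ → ℕ → ℕ → Bool × Bool) {x y z : Fin n} (hxy : x < y)
    (hyz : y < z) : phi n c {x, y, z} = code (c x y z) := by
  have h : ∃ p : Fin n × Fin n × Fin n, p.1 < p.2.1 ∧ p.2.1 < p.2.2 ∧
      ({x, y, z} : Finset (Fin n)) = {p.1, p.2.1, p.2.2} := ⟨(x, y, z), hxy, hyz, rfl⟩
  unfold phi
  rw [dif_pos h]
  obtain ⟨h1, h2, h3⟩ := h.choose_spec
  obtain ⟨e1, e2, e3⟩ := triple_unique hxy hyz h1 h2 h3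
  rw [← e1, ← e2, ← e3]

theorem deg_le {n : ℕ} (S : Finset (Fin n)) {v : Fin n} (_hv : v ∈ S) :
    ((S.powersetCard 3).filter (fun e => v ∈ e)).card ≤ (S.card - 1).choose 2 := by
  have : (S.powersetCard 3).filter (fun e => v ∈ e) ⊆
      ((S.erase v).powersetCard 2).image (fun e => insert v e) := by
    intro e he
    rw [mem_filter, mem_powersetCard] at he
    rw [mem_image]
    refine ⟨e.erase v, ?_, insert_erase he.2⟩
    rw [mem_powersetCard]
    refine ⟨erase_subset_erase v he.1.1, ?_⟩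
    rw [card_erase_of_mem he.2, he.1.2]
  refine (card_le_card this).trans (card_image_le.trans ?_)
  rw [card_powersetCard, card_erase_of_mem _hv]

/-- all triples in `S` have colour `j` if the degrees are full -/
theorem all_col {n : ℕ} (φ : Finset (Fin n) → Fin 5) (S : Finset (Fin n)) (j : Fin 5)
    (h : ∀ v ∈ S, (S.card - 1).choose 2 ≤
      ((S.powersetCard 3).filter (fun e => v ∈ e ∧ φ e = j)).card) :
    ∀ e ∈ S.powersetCard 3, φ e = j := by
  intro e he
  by_contra hne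
  have he' := he
  rw [mem_powersetCard] at he'
  have hnon : e.Nonempty := by
    rw [← card_pos, he'.2]
    norm_num
  obtain ⟨v, hv⟩ := hnon
  have hvS := he'.1 hv
  have h1 := h v hvS
  have h2 := deg_le S hvS
  have h3 : ((S.powersetCard 3).filter (fun e => v ∈ e ∧ φ e = j)).card <
      ((S.powersetCard 3).filter (fun e => v ∈ e)).card := by
    apply card_lt_card
    refine ⟨?_, ?_⟩
    · intro f hf
      rw [mem_filter] at hf ⊢
      exact ⟨hf.1, hf.2.1⟩
    · intro hsub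
      have : e ∈ (S.powersetCard 3).filter (fun e => v ∈ e ∧ φ e = j) := by
        apply hsub
        rw [mem_filter]
        exact ⟨he, hv⟩
      rw [mem_filter] at this
      exact hne this.2.2
  omega

/-- the growth estimate -/
theorem growth (C D : ℝ) : ∃ s : ℕ, 3 ≤ s ∧
    C * ((s + 1 : ℕ) : ℝ) ^ D < ((Pool.Agent.H818R2.Ram.R s s - 1 : ℕ) : ℝ) * Real.log 2 := by
  obtain ⟨d, hd⟩ := exists_nat_ge D
  -- polynomial against exponential growth
  have hlog : 0 < Real.log 2 := Real.log_pos (by norm_num)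
  have hr : (1 : ℝ) < Real.sqrt 2 := by
    rw [show (1 : ℝ) = Real.sqrt 1 by simp]
    exact Real.sqrt_lt_sqrt (by norm_num) (by norm_num)
  have h1 := tendsto_pow_const_div_const_pow_of_one_lt (d + 1) hr
  have h2 : Filter.Tendsto (fun s : ℕ => (|C| + 2) * 2 ^ (d + 1) *
      ((s : ℝ) ^ (d + 1) / Real.sqrt 2 ^ s)) Filter.atTop (nhds 0) := by
    have := h1.const_mul ((|C| + 2) * 2 ^ (d + 1))
    simpa using this
  have h3 := (tendsto_order.1 h2).2 (Real.log 2) hlog
  obtain ⟨s, hs, hs3⟩ := (h3.and (Filter.eventually_ge_atTop 3)).exists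
  refine ⟨s, hs3, ?_⟩
  have hpos : (0 : ℝ) < Real.sqrt 2 ^ s := by positivity
  have hR : Real.sqrt 2 ^ s < (Pool.Agent.H818R2.Ram.R s s : ℝ) := by
    have := Pool.Agent.H818R2.Ram.erdos_lower hs3
    have h4 : (Real.sqrt 2 ^ s) ^ 2 < (Pool.Agent.H818R2.Ram.R s s : ℝ) ^ 2 := by
      rw [← pow_mul, mul_comm, pow_mul, Real.sq_sqrt (by norm_num)]
      exact_mod_cast this
    exact lt_of_pow_lt_pow_left₀ 2 (by positivity) h4
  have hRpos : 1 ≤ Pool.Agent.H818R2.Ram.R s s :=
    Pool.Agent.H818R2.Ram.R_pos (by omega) (by omega)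
  have hs1 : (1 : ℝ) ≤ s := by
    have : 1 ≤ s := by omega
    exact_mod_cast this
  have h5 : ((s + 1 : ℕ) : ℝ) ^ D ≤ 2 ^ (d + 1) * (s : ℝ) ^ (d + 1) := by
    have hb : (1 : ℝ) ≤ ((s + 1 : ℕ) : ℝ) := by push_cast; linarith
    calc ((s + 1 : ℕ) : ℝ) ^ D ≤ ((s + 1 : ℕ) : ℝ) ^ (((d + 1 : ℕ) : ℝ)) := by
          apply Real.rpow_le_rpow_of_exponent_le hb
          push_cast
          linarith
      _ = ((s + 1 : ℕ) : ℝ) ^ (d + 1) := Real.rpow_natCast _ _
      _ ≤ (2 * (s : ℝ)) ^ (d + 1) := by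
          apply pow_le_pow_left₀ (by positivity)
          push_cast
          linarith
      _ = 2 ^ (d + 1) * (s : ℝ) ^ (d + 1) := mul_pow _ _ _
  have h6 : (1 : ℝ) ≤ (s : ℝ) ^ (d + 1) := one_le_pow₀ hs1
  have h7 : (|C| + 2) * 2 ^ (d + 1) * (s : ℝ) ^ (d + 1) < Real.log 2 * Real.sqrt 2 ^ s := by
    rw [← mul_div_assoc, div_lt_iff₀ hpos] at hs
    exact hs
  have h8 : C * ((s + 1 : ℕ) : ℝ) ^ D ≤ |C| * (2 ^ (d + 1) * (s : ℝ) ^ (d + 1)) := by
    have h9 : (0 : ℝ) ≤ ((s + 1 : ℕ) : ℝ) ^ D := by positivity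
    calc C * ((s + 1 : ℕ) : ℝ) ^ D ≤ |C| * ((s + 1 : ℕ) : ℝ) ^ D :=
          mul_le_mul_of_nonneg_right (le_abs_self C) h9
      _ ≤ _ := mul_le_mul_of_nonneg_left h5 (abs_nonneg C)
  have h10 : ((Pool.Agent.H818R2.Ram.R s s - 1 : ℕ) : ℝ) = Pool.Agent.H818R2.Ram.R s s - 1 := by
    push_cast [hRpos]
    ring
  rw [h10]
  have h11 : Real.log 2 ≤ 1 := by
    have := Real.log_two_lt_d9
    linarith
  have h12 : (1 : ℝ) ≤ 2 ^ (d + 1) := one_le_pow₀ (by norm_num)
  have h13 : (1 : ℝ) ≤ 2 ^ (d + 1) * (s : ℝ) ^ (d + 1) := by nlinarith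
  nlinarith

/-- the sequence of densities -/
noncomputable def rho : Fin 5 → ℝ := fun i => if i = 4 then 1 / 2 else 1

/-- The negation of the preceding statement: For r≥3, q≥2, ε>0 there is D such that for every ρ in [0,1]^q with sum below q−ε, some C gives, for all k≥1, an n with ln n ≤ C·k^D where every q-colouring of r-sets of [n] has an S of size ≥k and colour j with min colour-j degree in S ≥ ρ_j·C(∣S∣−1,r−1). -/
theorem result :
    ¬ (∀ r q : ℕ, 3 ≤ r → 2 ≤ q → ∀ ε : ℝ, 0 < ε →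
      ∃ D : ℝ, ∀ ρ : Fin q → ℝ, (∀ i, 0 ≤ ρ i ∧ ρ i ≤ 1) → ∑ i, ρ i < (q : ℝ) - ε →
        ∃ C : ℝ, ∀ k : ℕ, 1 ≤ k → ∃ n : ℕ, Real.log (n : ℝ) ≤ C * (k : ℝ) ^ D ∧
          ∀ φ : Finset (Fin n) → Fin q, ∃ S : Finset (Fin n), k ≤ S.card ∧ ∃ j : Fin q,
            ∀ v ∈ S, ρ j * (((S.card - 1).choose (r - 1) : ℕ) : ℝ) ≤
              (((S.powersetCard r).filter (fun e => v ∈ e ∧ φ e = j)).card : ℝ)) := by
  intro hall
  obtain ⟨D, hD⟩ := hall 3 5 le_rfl (by norm_num) (1 / 4) (by norm_num)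
  obtain ⟨C, hC⟩ := hD rho (by
    intro i
    unfold rho
    split_ifs <;> norm_num) (by
    have : ∑ i : Fin 5, rho i = 9 / 2 := by
      rw [Fin.sum_univ_five]
      simp only [rho]
      norm_num [Fin.ext_iff]
    rw [this]
    norm_num)
  obtain ⟨s, hs3, hs⟩ := growth C D
  obtain ⟨n, hn, hφ⟩ := hC (s + 1) (by omega)
  set m := Pool.Agent.H818R2.Ram.R s s - 1 with hm
  have hRpos : 1 ≤ Pool.Agent.H818R2.Ram.R s s :=
    Pool.Agent.H818R2.Ram.R_pos (by omega) (by omega)
  have hmR : m < Pool.Agent.H818R2.Ram.R s s := by omega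
  have hnm : n ≤ 2 ^ m := by
    rcases Nat.eq_zero_or_pos n with h0 | h0
    · rw [h0]; exact Nat.zero_le _
    have h1 : Real.log n < Real.log ((2 : ℝ) ^ m) := by
      rw [Real.log_pow]
      exact lt_of_le_of_lt hn hs
    have h2 : (n : ℝ) < (2 : ℝ) ^ m :=
      (Real.log_lt_log_iff (by exact_mod_cast h0) (by positivity)).1 h1
    exact_mod_cast h2.le
  obtain ⟨c, hc⟩ := exists_col hmR
  obtain ⟨S, hS, j, hj⟩ := hφ (phi n c)
  simp only [Nat.reduceSub] at hj
  -- a subset of size exactly `s + 1`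
  have hSne : S.Nonempty := by
    rw [← card_pos]
    omega
  by_cases hj4 : j = 4
  · obtain ⟨v, hv⟩ := hSne
    have h1 := hj v hv
    have h2 : ((S.powersetCard 3).filter (fun e => v ∈ e ∧ phi n c e = j)) = ∅ := by
      rw [filter_eq_empty_iff]
      intro e _ he
      exact phi_ne n c e (he.2.trans hj4)
    rw [h2, hj4] at h1
    have h3 : 0 < (S.card - 1).choose 2 := Nat.choose_pos (by omega)
    have h4 : (0 : ℝ) < (((S.card - 1).choose 2 : ℕ) : ℝ) := by exact_mod_cast h3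
    simp only [rho, if_true, card_empty, Nat.cast_zero] at h1
    linarith
  · have hrho : rho j = 1 := by simp [rho, hj4]
    have hcol : ∀ e ∈ S.powersetCard 3, phi n c e = j := by
      apply all_col
      intro v hv
      have := hj v hv
      rw [hrho, one_mul] at this
      exact_mod_cast this
    obtain ⟨S', hS', hcard⟩ := exists_subset_card_eq hS
    let T : Finset ℕ := S'.map Fin.valEmbedding
    have hT : T.card = s + 1 := by rw [card_map, hcard]
    refine hc T hT ?_ ?_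
    · intro x hx
      rw [mem_map] at hx
      obtain ⟨y, _, rfl⟩ := hx
      exact lt_of_lt_of_le y.2 hnm
    · -- the colour
      have key : ∀ x ∈ S', ∀ y ∈ S', ∀ z ∈ S', x < y → y < z → code (c x y z) = j := by
        intro x hx y hy z hz hxy hyz
        rw [← phi_triple c hxy hyz]
        apply hcol
        rw [mem_powersetCard]
        refine ⟨?_, ?_⟩
        · intro w hw
          simp only [mem_insert, mem_singleton] at hw
          rcases hw with rfl | rfl | rfl
          · exact hS' hx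
          · exact hS' hy
          · exact hS' hz
        · rw [card_eq_three]
          exact ⟨x, y, z, hxy.ne, (hxy.trans hyz).ne, hyz.ne, rfl⟩
      by_cases hex : ∃ v, code v = j
      · obtain ⟨v, hv⟩ := hex
        refine ⟨v, ?_⟩
        intro x hx y hy z hz hxy hyz
        rw [mem_map] at hx hy hz
        obtain ⟨x', hx', rfl⟩ := hx
        obtain ⟨y', hy', rfl⟩ := hy
        obtain ⟨z', hz', rfl⟩ := hz
        apply code_inj
        rw [hv]
        exact key x' hx' y' hy' z' hz' hxy hyz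
      · exfalso
        push Not at hex
        have : 2 < S'.card := by omega
        obtain ⟨x, hx, y, hy, z, hz, hxy, hyz⟩ :
            ∃ x ∈ S', ∃ y ∈ S', ∃ z ∈ S', x < y ∧ y < z := by
          let e := S'.orderEmbOfFin hcard
          refine ⟨e ⟨0, by omega⟩, S'.orderEmbOfFin_mem hcard _, e ⟨1, by omega⟩,
            S'.orderEmbOfFin_mem hcard _, e ⟨2, by omega⟩, S'.orderEmbOfFin_mem hcard _, ?_, ?_⟩
          · exact e.lt_iff_lt.2 (by simp [Fin.lt_def])
          · exact e.lt_iff_lt.2 (by simp [Fin.lt_def])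
        exact hex _ (key x hx y hy z hz hxy hyz)

end Pool.Agent.S07316
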