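import Pool.Statements.S07480
import Pool.Agent.Q237.SubcubeArith

set_option autoImplicit false
open Classical Filter Topology
open Pool Pool.MP_1cd2aa_co

namespace Pool.Agent.S07480

/-! The conjecture fails for `m = 7`.  Colour the coordinates by their residues modulo `16`.
Discard the 2-subcubes whose two flip-bits have the same residue, whose number of ones before the
first flip-bit is `α` modulo `4` and whose number of ones is `β` modulo `16`.  Every
23-subcube contains a discarded 2-subcube, and for suitable `α`, `β` at most one 2-subcube in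
1024 is discarded. -/

/-- the coordinates with a star -/
noncomputable def N {n : ℕ} (D : Fin n → Option Bool) : Finset (Fin n) :=
  Finset.univ.filter (fun i => D i = none)

/-- the coordinates with a one -/
noncomputable def O {n : ℕ} (D : Fin n → Option Bool) : Finset (Fin n) :=
  Finset.univ.filter (fun i => D i = some true)

/-- the ones before all stars -/
noncomputable def B {n : ℕ} (D : Fin n → Option Bool) : Finset (Fin n) :=
  (O D).filter (fun i => ∀ j ∈ N D, i < j)

def same {n : ℕ} (D : Fin n → Option Bool) : Prop :=
  ∀ i ∈ N D, ∀ j ∈ N D, i.val % 16 = j.val % 16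

/-- 2-subcubes -/
noncomputable def T (n : ℕ) : Finset (Fin n → Option Bool) :=
  Finset.univ.filter (fun D => (N D).card = 2)

noncomputable def S (n : ℕ) : Finset (Fin n → Option Bool) := (T n).filter same

noncomputable def E (n α β : ℕ) : Finset (Fin n → Option Bool) :=
  (S n).filter (fun D => (B D).card % 4 = α ∧ (O D).card % 16 = β)

lemma arith2 (i F R α β : ℕ) (hi : i < 19) (hi3 : 3 ≤ i) (hα : α < 4) (hβ : β < 16) :
    ∃ u v, u ≤ i ∧ v + i ≤ 21 ∧ (F + u) % 4 = α ∧ (F + u + (R + v)) % 16 = β := by
  obtain ⟨l, hl, h1, v, hv, h2, h3⟩ := Pool.Agent.Q237.SubcubeArith.arith i hi hi3 ((α + 3 * F) % 4) (Nat.mod_lt _ (by norm_num))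
    ((β + 15 * (F + R + (α + 3 * F) % 4)) % 16) (Nat.mod_lt _ (by norm_num))
  refine ⟨(α + 3 * F) % 4 + 4 * l, v, h1, h2, by omega, by omega⟩

/-- a 23-subcube contains a discarded 2-subcube -/
lemma key {n : ℕ} (C : Fin n → Option Bool) (hC : (N C).card = 23) (α β : ℕ) (hα : α < 4)
    (hβ : β < 16) : ∃ D ∈ E n α β, ∀ (i : Fin n) (b : Bool), C i = some b → D i = some b := by
  -- two stars with the same residue
  set p := (N C).orderEmbOfFin hC with hp
  have hmem : ∀ k, p k ∈ N C := fun k => Finset.orderEmbOfFin_mem _ _ _
  have hrange : ∀ z ∈ N C, ∃ k, p k = z := by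
    intro z hz
    have : z ∈ Set.range p := by rw [hp, Finset.range_orderEmbOfFin]; exact hz
    exact this
  obtain ⟨i, hi, j, hj, hne, hij⟩ : ∃ i ∈ Finset.Icc (3 : Fin 23) 19, ∃ j ∈ Finset.Icc (3 : Fin 23) 19,
      i ≠ j ∧ (p i).val % 16 = (p j).val % 16 := by
    apply Finset.exists_ne_map_eq_of_card_lt_of_maps_to (t := Finset.range 16)
    · rw [Finset.card_range]; decide
    · intro x _
      simp only [Finset.coe_range, Set.mem_Iio]
      exact Nat.mod_lt _ (by norm_num)
  wlog hlt : i < j generalizing i j
  · exact this j hj i hi hne.symm hij.symm (lt_of_le_of_ne (not_lt.mp hlt) hne.symm)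
  rw [Finset.mem_Icc] at hi hj
  have hi3 : 3 ≤ i.val := hi.1
  have hj19 : j.val ≤ 19 := hj.2
  have hi19 : i.val < 19 := lt_of_lt_of_le hlt hj19
  set x := p i with hx
  set y := p j with hy
  have hxy : x < y := p.strictMono hlt
  set Lf := (N C).filter (fun z => z < x) with hLf
  set Rt := ((N C).filter (fun z => x < z)).erase y with hRt
  have hN : N C = Finset.univ.map p.toEmbedding := by
    ext z
    simp only [Finset.mem_map, Finset.mem_univ, true_and]
    constructor
    · intro hz; exact hrange z hz
    · rintro ⟨k, rfl⟩; exact hmem k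
  have hLc : Lf.card = i.val := by
    have : Lf = (Finset.Iio i).map p.toEmbedding := by
      ext z
      simp only [hLf, hN, Finset.mem_filter, Finset.mem_map, Finset.mem_univ, true_and,
        Finset.mem_Iio]
      constructor
      · rintro ⟨⟨k, rfl⟩, hk⟩
        exact ⟨k, p.lt_iff_lt.mp hk, rfl⟩
      · rintro ⟨k, hk, rfl⟩
        exact ⟨⟨k, rfl⟩, p.lt_iff_lt.mpr hk⟩
    rw [this, Finset.card_map, Fin.card_Iio]
  have hRc : Rt.card + i.val = 21 := by
    have h1 : (N C).filter (fun z => x < z) = (Finset.Ioi i).map p.toEmbedding := by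
      ext z
      simp only [hN, Finset.mem_filter, Finset.mem_map, Finset.mem_univ, true_and,
        Finset.mem_Ioi]
      constructor
      · rintro ⟨⟨k, rfl⟩, hk⟩
        exact ⟨k, p.lt_iff_lt.mp hk, rfl⟩
      · rintro ⟨k, hk, rfl⟩
        exact ⟨⟨k, rfl⟩, p.lt_iff_lt.mpr hk⟩
    have h2 : y ∈ (N C).filter (fun z => x < z) := by
      rw [Finset.mem_filter]; exact ⟨hmem j, hxy⟩
    rw [hRt, Finset.card_erase_of_mem h2, h1, Finset.card_map, Fin.card_Ioi]
    omega
  -- fixed ones
  set F := ((O C).filter (fun z => z < x)) with hF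
  set R := ((O C).filter (fun z => x < z)) with hR
  obtain ⟨u, v, hu, hv, hmod4, hmod16⟩ := arith2 i.val F.card R.card α β hi19 hi3 hα hβ
  obtain ⟨U, hUL, hUc⟩ := Finset.exists_subset_card_eq (s := Lf) (n := u) (by omega)
  obtain ⟨V, hVR, hVc⟩ := Finset.exists_subset_card_eq (s := Rt) (n := v) (by omega)
  have hUx : ∀ z ∈ U, z < x ∧ C z = none := by
    intro z hz
    have := hUL hz
    rw [hLf, Finset.mem_filter] at this
    refine ⟨this.2, ?_⟩
    have h := this.1
    simp only [N, Finset.mem_filter, Finset.mem_univ, true_and] at h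
    exact h
  have hVx : ∀ z ∈ V, x < z ∧ z ≠ y ∧ C z = none := by
    intro z hz
    have := hVR hz
    rw [hRt, Finset.mem_erase, Finset.mem_filter] at this
    refine ⟨this.2.2, this.1, ?_⟩
    have h := this.2.1
    simp only [N, Finset.mem_filter, Finset.mem_univ, true_and] at h
    exact h
  have hCx : C x = none := by
    have h := hmem i
    simp only [N, Finset.mem_filter, Finset.mem_univ, true_and] at h
    exact h
  have hCy : C y = none := by
    have h := hmem j
    simp only [N, Finset.mem_filter, Finset.mem_univ, true_and] at h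
    exact h
  let D : Fin n → Option Bool := fun z =>
    if z = x ∨ z = y then none else if C z = none then some (decide (z ∈ U ∪ V)) else C z
  have hDnone : ∀ z, D z = none ↔ z = x ∨ z = y := by
    intro z
    constructor
    · intro h
      by_contra hz
      simp only [D, if_neg hz] at h
      by_cases hc : C z = none
      · simp [hc] at h
      · simp [hc] at h
    · intro h
      simp only [D, if_pos h]
  have hND : N D = {x, y} := by
    ext z
    simp only [N, Finset.mem_filter, Finset.mem_univ, true_and, Finset.mem_insert,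
      Finset.mem_singleton]
    exact hDnone z
  have hDtrue : ∀ z, D z = some true ↔ (C z = some true ∨ z ∈ U ∨ z ∈ V) := by
    intro z
    by_cases hz : z = x ∨ z = y
    · have h1 : D z = none := (hDnone z).mpr hz
      have h2 : C z = none := by rcases hz with h | h <;> rw [h] <;> assumption
      have h3 : z ∉ U := by
        intro h
        have := (hUx z h).1
        rcases hz with h' | h' <;> rw [h'] at this
        · exact lt_irrefl _ this
        · exact lt_asymm this hxy
      have h4 : z ∉ V := by
        intro h
        have := hVx z h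
        rcases hz with h' | h'
        · rw [h'] at this; exact lt_irrefl _ this.1
        · exact this.2.1 h'
      simp [h1, h2, h3, h4]
    · by_cases hc : C z = none
      · simp [D, hz, hc]
      · have h3 : z ∉ U := fun h => hc (hUx z h).2
        have h4 : z ∉ V := fun h => hc (hVx z h).2.2
        simp [D, hz, hc, h3, h4]
  have hOD : O D = F ∪ U ∪ (R ∪ V) := by
    ext z
    simp only [O, F, R, Finset.mem_filter, Finset.mem_univ, true_and, Finset.mem_union]
    rw [hDtrue]
    constructor
    · rintro (h | h | h)
      · have hzx : z ≠ x := by rintro rfl; rw [hCx] at h; exact absurd h (by simp)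
        rcases lt_or_gt_of_ne hzx with h1 | h1
        · left; left; exact ⟨h, h1⟩
        · right; left; exact ⟨h, h1⟩
      · left; right; exact h
      · right; right; exact h
    · rintro ((h | h) | (h | h))
      · left; exact h.1
      · right; left; exact h
      · left; exact h.1
      · right; right; exact h
  have hFU : Disjoint F U := by
    rw [Finset.disjoint_left]
    intro z hz hz'
    have h1 := (hUx z hz').2
    simp only [F, O, Finset.mem_filter, Finset.mem_univ, true_and] at hz
    rw [h1] at hz; exact absurd hz.1 (by simp)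
  have hRV : Disjoint R V := by
    rw [Finset.disjoint_left]
    intro z hz hz'
    have h1 := (hVx z hz').2.2
    simp only [R, O, Finset.mem_filter, Finset.mem_univ, true_and] at hz
    rw [h1] at hz; exact absurd hz.1 (by simp)
  have hleft : ∀ z ∈ F ∪ U, z < x := by
    intro z hz
    rcases Finset.mem_union.mp hz with h | h
    · exact (Finset.mem_filter.mp h).2
    · exact (hUx z h).1
  have hright : ∀ z ∈ R ∪ V, x < z := by
    intro z hz
    rcases Finset.mem_union.mp hz with h | h
    · exact (Finset.mem_filter.mp h).2
    · exact (hVx z h).1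
  have hdis : Disjoint (F ∪ U) (R ∪ V) := by
    rw [Finset.disjoint_left]
    intro z hz hz'
    exact lt_asymm (hleft z hz) (hright z hz')
  have hOc : (O D).card = F.card + u + (R.card + v) := by
    rw [hOD, Finset.card_union_of_disjoint hdis, Finset.card_union_of_disjoint hFU,
      Finset.card_union_of_disjoint hRV, hUc, hVc]
  have hBD : B D = F ∪ U := by
    ext z
    rw [B, Finset.mem_filter, hOD, hND]
    simp only [Finset.mem_insert, Finset.mem_singleton, forall_eq_or_imp, forall_eq]
    rw [Finset.mem_union (s := F ∪ U)]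
    constructor
    · rintro ⟨h | h, h1⟩
      · exact h
      · exact absurd h1.1 (lt_asymm (hright z h))
    · intro h
      exact ⟨Or.inl h, hleft z h, (hleft z h).trans hxy⟩
  have hBc : (B D).card = F.card + u := by
    rw [hBD, Finset.card_union_of_disjoint hFU, hUc]
  refine ⟨D, ?_, ?_⟩
  · rw [E, Finset.mem_filter, S, Finset.mem_filter, T, Finset.mem_filter]
    refine ⟨⟨⟨Finset.mem_univ _, ?_⟩, ?_⟩, ?_, ?_⟩
    · rw [hND, Finset.card_pair hxy.ne]
    · intro a ha b hb
      rw [hND] at ha hb
      simp only [Finset.mem_insert, Finset.mem_singleton] at ha hb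
      rcases ha with rfl | rfl <;> rcases hb with rfl | rfl
      · rfl
      · exact hij
      · exact hij.symm
      · rfl
    · rw [hBc]; exact hmod4
    · rw [hOc]; exact hmod16
  · intro z b hz
    have h1 : ¬ (z = x ∨ z = y) := by
      rintro (h | h) <;> rw [h] at hz
      · rw [hCx] at hz; exact absurd hz (by simp)
      · rw [hCy] at hz; exact absurd hz (by simp)
    have h2 : C z ≠ none := by rw [hz]; simp
    simp only [D, if_neg h1, if_neg h2]
    exact hz

/-- moving the second star to the left -/
noncomputable def g {n : ℕ} (D : Fin n → Option Bool) (r : ℕ) : Fin n → Option Bool :=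
  if h : (N D).Nonempty then fun z => D (Equiv.swap ((N D).max' h)
    ⟨((N D).max' h).val - r, lt_of_le_of_lt (Nat.sub_le _ _) ((N D).max' h).isLt⟩ z) else D

lemma pair_of_S {n : ℕ} {D : Fin n → Option Bool} (hD : D ∈ S n) :
    ∃ x y : Fin n, x < y ∧ N D = {x, y} ∧ x.val % 16 = y.val % 16 := by
  rw [S, Finset.mem_filter, T, Finset.mem_filter] at hD
  obtain ⟨⟨-, h2⟩, h3⟩ := hD
  obtain ⟨x, y, hxy, h⟩ := Finset.card_eq_two.mp h2
  have hs : x.val % 16 = y.val % 16 := h3 x (by rw [h]; simp) y (by rw [h]; simp)
  rcases lt_or_gt_of_ne hxy with h1 | h1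
  · exact ⟨x, y, h1, h, hs⟩
  · exact ⟨y, x, h1, by rw [h, Finset.pair_comm], hs.symm⟩

lemma g_spec {n : ℕ} {D : Fin n → Option Bool} {x y : Fin n} (hxy : x < y) (hN : N D = {x, y})
    (hs : x.val % 16 = y.val % 16) {r : ℕ} (hr : r < 16) :
    ∃ w : Fin n, w.val + r = y.val ∧ x < w ∧ (g D r = fun z => D (Equiv.swap y w z)) ∧
      N (g D r) = {x, w} := by
  have hxy' : x.val < y.val := hxy
  have hne : (N D).Nonempty := ⟨x, by rw [hN]; simp⟩
  have hmax : (N D).max' hne = y := by
    apply le_antisymm
    · apply Finset.max'_le
      intro z hz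
      rw [hN] at hz
      simp only [Finset.mem_insert, Finset.mem_singleton] at hz
      rcases hz with rfl | rfl
      · exact hxy.le
      · exact le_rfl
    · exact Finset.le_max' _ _ (by rw [hN]; simp)
  let w : Fin n := ⟨y.val - r, lt_of_le_of_lt (Nat.sub_le _ _) y.isLt⟩
  have hg : g D r = fun z => D (Equiv.swap y w z) := by
    unfold g
    rw [dif_pos hne]
    funext z
    have : (⟨((N D).max' hne).val - r, lt_of_le_of_lt (Nat.sub_le _ _)
        ((N D).max' hne).isLt⟩ : Fin n) = w := by
      apply Fin.ext
      simp only [hmax, w]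
    rw [this, hmax]
  have hw : w.val = y.val - r := rfl
  have hxw : x < w := by
    rw [Fin.lt_def, hw]; omega
  refine ⟨w, by rw [hw]; omega, hxw, hg, ?_⟩
  ext z
  rw [hg]
  simp only [N, Finset.mem_filter, Finset.mem_univ, true_and, Finset.mem_insert,
    Finset.mem_singleton]
  have h1 : D (Equiv.swap y w z) = none ↔ Equiv.swap y w z ∈ N D := by
    simp only [N, Finset.mem_filter, Finset.mem_univ, true_and]
  rw [h1, hN]
  simp only [Finset.mem_insert, Finset.mem_singleton]
  constructor
  · rintro (h | h)
    · left
      have := congrArg (Equiv.swap y w) h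
      rw [Equiv.swap_apply_self, Equiv.swap_apply_of_ne_of_ne hxy.ne hxw.ne] at this
      exact this
    · right
      have := congrArg (Equiv.swap y w) h
      rw [Equiv.swap_apply_self, Equiv.swap_apply_left] at this
      exact this
  · rintro (rfl | rfl)
    · left; exact Equiv.swap_apply_of_ne_of_ne hxy.ne hxw.ne
    · right; exact Equiv.swap_apply_right _ _

lemma pair_inj {n : ℕ} {a b c d : Fin n} (hab : a < b) (hcd : c < d)
    (h : ({a, b} : Finset (Fin n)) = {c, d}) : a = c ∧ b = d := by
  have ha : a ∈ ({c, d} : Finset (Fin n)) := by rw [← h]; simp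
  have hb : b ∈ ({c, d} : Finset (Fin n)) := by rw [← h]; simp
  have hc : c ∈ ({a, b} : Finset (Fin n)) := by rw [h]; simp
  simp only [Finset.mem_insert, Finset.mem_singleton] at ha hb hc
  rcases ha with rfl | rfl
  · rcases hb with rfl | rfl
    · exact absurd hab (lt_irrefl _)
    · exact ⟨rfl, rfl⟩
  · rcases hc with rfl | rfl
    · exact absurd hcd (lt_irrefl _)
    · exact absurd (hab.trans hcd) (lt_irrefl _)

lemma card_S (n : ℕ) : (S n).card * 16 ≤ (T n).card := by
  have h := Finset.card_le_card_of_injOn (s := S n ×ˢ Finset.range 16) (t := T n)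
    (fun q => g q.1 q.2) ?_ ?_
  · rwa [Finset.card_product, Finset.card_range] at h
  · rintro ⟨D, r⟩ hq
    simp only [Finset.coe_product, Set.mem_prod, Finset.mem_coe, Finset.mem_range] at hq
    obtain ⟨x, y, hxy, hN, hs⟩ := pair_of_S hq.1
    obtain ⟨w, -, hxw, -, h2⟩ := g_spec hxy hN hs hq.2
    simp only [T, Finset.coe_filter, Finset.mem_univ, true_and, Set.mem_ofPred_eq]
    rw [h2, Finset.card_pair hxw.ne]
  · rintro ⟨D, r⟩ hq ⟨D', r'⟩ hq' heq
    simp only [Finset.coe_product, Set.mem_prod, Finset.mem_coe, Finset.mem_range] at hq hq' heq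
    obtain ⟨x, y, hxy, hN, hs⟩ := pair_of_S hq.1
    obtain ⟨w, hw, hxw, hg, h2⟩ := g_spec hxy hN hs hq.2
    obtain ⟨x', y', hxy', hN', hs'⟩ := pair_of_S hq'.1
    obtain ⟨w', hw', hxw', hg', h2'⟩ := g_spec hxy' hN' hs' hq'.2
    rw [heq] at h2
    obtain ⟨rfl, rfl⟩ := pair_inj hxw hxw' (h2.symm.trans h2')
    have hr := hq.2
    have hr' := hq'.2
    have hrr : r = r' := by omega
    subst hrr
    have hyy : y = y' := Fin.ext (by omega)
    subst hyy
    rw [hg, hg'] at heq
    have : D = D' := by
      funext z
      have := congrFun heq (Equiv.swap y w z)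
      simpa using this
    rw [this]

lemma exists_E (n : ℕ) : ∃ α < 4, ∃ β < 16, (E n α β).card * 1024 ≤ (T n).card := by
  by_contra hcon
  push Not at hcon
  have hfib := Finset.card_eq_sum_card_fiberwise (s := S n) (t := Finset.range 4 ×ˢ Finset.range 16)
    (f := fun D => ((B D).card % 4, (O D).card % 16)) (by
      intro D _
      simp only [Finset.coe_product, Set.mem_prod, Finset.mem_coe, Finset.mem_range]
      exact ⟨Nat.mod_lt _ (by norm_num), Nat.mod_lt _ (by norm_num)⟩)
  have hE : ∀ q ∈ Finset.range 4 ×ˢ Finset.range 16, (T n).card + 1 ≤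
      1024 * ((S n).filter (fun D => ((B D).card % 4, (O D).card % 16) = q)).card := by
    rintro ⟨α, β⟩ hq
    rw [Finset.mem_product, Finset.mem_range, Finset.mem_range] at hq
    have := hcon α hq.1 β hq.2
    have h2 : (S n).filter (fun D => ((B D).card % 4, (O D).card % 16) = (α, β)) = E n α β := by
      ext D
      simp only [E, Finset.mem_filter, Prod.mk.injEq]
    rw [h2]
    omega
  have h3 := Finset.sum_le_sum hE
  rw [← Finset.mul_sum, ← hfib, Finset.sum_const, Finset.card_product, Finset.card_range,
    Finset.card_range, smul_eq_mul] at h3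
  have := card_S n
  omega

/-- The negation of the preceding statement: For every m ≥ 7, the largest fraction of 2-dimensional subcubes of the n-cube that can be chosen with no (3m+2)-dimensional subcube having all its 2-subcubes chosen tends to 1 − 1/(m+1)³ as n → ∞. -/
theorem result :
    ¬ (∀ m : ℕ, 7 ≤ m →
      Tendsto
        (fun n : ℕ =>
          ((((Finset.univ : Finset (Finset (Fin n → Option Bool))).filter
              (fun F =>
                (∀ x ∈ F, (Finset.univ.filter (fun i => x i = none)).card = 2) ∧
                ∀ C : Fin n → Option Bool,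
                  (Finset.univ.filter (fun i => C i = none)).card = 3 * m + 2 →
                  ¬ (∀ D : Fin n → Option Bool,
                      (Finset.univ.filter (fun i => D i = none)).card = 2 →
                      (∀ (i : Fin n) (b : Bool), C i = some b → D i = some b) →
                      D ∈ F))).sup Finset.card : ℕ) : ℝ) /
          (((Finset.univ : Finset (Fin n → Option Bool)).filter
              (fun D => (Finset.univ.filter (fun i => D i = none)).card = 2)).card : ℝ))
        atTop (𝓝 (1 - 1 / ((m : ℝ) + 1) ^ 3))) := by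
  intro hmain
  have h7 := hmain 7 le_rfl
  have hbound : (1 - 1 / 1024 : ℝ) ≤ 1 - 1 / (((7 : ℕ) : ℝ) + 1) ^ 3 := by
    refine ge_of_tendsto h7 ?_
    filter_upwards [eventually_ge_atTop 2] with n hn
    obtain ⟨α, hα, β, hβ, hE⟩ := exists_E n
    have hsub : E n α β ⊆ T n := (Finset.filter_subset _ _).trans (Finset.filter_subset _ _)
    have hmemF : (T n \ E n α β) ∈ ((Finset.univ : Finset (Finset (Fin n → Option Bool))).filter
              (fun F =>
                (∀ x ∈ F, (Finset.univ.filter (fun i => x i = none)).card = 2) ∧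
                ∀ C : Fin n → Option Bool,
                  (Finset.univ.filter (fun i => C i = none)).card = 3 * 7 + 2 →
                  ¬ (∀ D : Fin n → Option Bool,
                      (Finset.univ.filter (fun i => D i = none)).card = 2 →
                      (∀ (i : Fin n) (b : Bool), C i = some b → D i = some b) →
                      D ∈ F))) := by
      rw [Finset.mem_filter]
      refine ⟨Finset.mem_univ _, ?_, ?_⟩
      · intro D hD
        have := (Finset.mem_sdiff.mp hD).1
        rw [T, Finset.mem_filter] at this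
        exact this.2
      · intro C hC hall
        obtain ⟨D, hD, hCD⟩ := key C hC α β hα hβ
        have h1 := hsub hD
        have h2 : (N D).card = 2 := by
          rw [T, Finset.mem_filter] at h1; exact h1.2
        have h3 := hall D h2 hCD
        exact (Finset.mem_sdiff.mp h3).2 hD
    have hsup := Finset.le_sup (f := Finset.card) hmemF
    have hcard : (T n \ E n α β).card + (E n α β).card = (T n).card :=
      Finset.card_sdiff_add_card_eq_card hsub
    have hTpos : 0 < (T n).card := by
      obtain ⟨s, -, hs⟩ := Finset.exists_subset_card_eq (s := (Finset.univ : Finset (Fin n)))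
        (n := 2) (by rw [Finset.card_univ, Fintype.card_fin]; exact hn)
      rw [Finset.card_pos]
      refine ⟨fun i => if i ∈ s then none else some true, ?_⟩
      rw [T, Finset.mem_filter]
      refine ⟨Finset.mem_univ _, ?_⟩
      rw [← hs]
      congr 1
      ext i
      simp [N]
    have hT : (0 : ℝ) < ((T n).card : ℝ) := by exact_mod_cast hTpos
    change (1 - 1 / 1024 : ℝ) ≤ _ / ((T n).card : ℝ)
    rw [le_div_iff₀ hT]
    have h5 : ((T n \ E n α β).card : ℝ) + ((E n α β).card : ℝ) = ((T n).card : ℝ) := by
      exact_mod_cast hcard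
    have h6 : ((E n α β).card : ℝ) * 1024 ≤ ((T n).card : ℝ) := by exact_mod_cast hE
    have h7 : ((T n \ E n α β).card : ℝ) ≤ _ := Nat.cast_le.mpr hsup
    refine le_trans ?_ h7
    linarith
  norm_num at hbound

end Pool.Agent.S07480
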