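import Pool.Statements.S07574
-- import your own Pool.Agent.* helpers here

set_option autoImplicit false
open Pool Pool.MP_1f8616_co

namespace Pool.Agent.S07574


/-- Disjoint union of finite chains of all positive lengths. -/
abbrev P : Type := (n : ℕ) × Fin (n + 1)

theorem fst_eq_of_le {x y : P} (h : x ≤ y) : x.1 = y.1 := by
  obtain ⟨i, a⟩ := x
  obtain ⟨j, b⟩ := y
  cases h
  rfl

theorem comparable_of_fst {n : ℕ} (a b : Fin (n + 1)) :
    ((⟨n, a⟩ : P) ≤ ⟨n, b⟩) ∨ ((⟨n, b⟩ : P) ≤ ⟨n, a⟩) := by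
  rcases le_total a b with h | h
  · exact Or.inl (Sigma.mk_le_mk_iff.2 h)
  · exact Or.inr (Sigma.mk_le_mk_iff.2 h)

theorem finite_chain {C : Set P} (hC : IsChain (· ≤ ·) C) : C.Finite := by
  rcases C.eq_empty_or_nonempty with h | ⟨⟨n, a⟩, ha⟩
  · rw [h]; exact Set.finite_empty
  · refine (Set.finite_range (fun b : Fin (n + 1) => (⟨n, b⟩ : P))).subset ?_
    rintro ⟨m, b⟩ hb
    have hmn : m = n := by
      by_cases hne : (⟨m, b⟩ : P) = ⟨n, a⟩
      · exact congrArg Sigma.fst hne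
      · rcases hC hb ha hne with h | h
        · exact fst_eq_of_le h
        · exact (fst_eq_of_le h).symm
    subst hmn
    exact ⟨b, rfl⟩

/-- The negation of the preceding statement: Every countable poset with no saturated chain (or its reverse) that is an ω-indexed linear sum of infinite co-wellfounded chains has, for each k≥2, k disjoint chains and a partition into antichains where each antichain A meets at least min(∣A∣,k) chains. -/
theorem result :
    ¬ (∀ (α : Type) [PartialOrder α] [Countable α],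
    (¬ ∃ C : Set α, IsChain (· ≤ ·) C ∧
        (∀ x, x ∉ C → ∀ y ∈ C, ∀ z ∈ C, y < x → x < z → ¬ IsChain (· ≤ ·) (insert x C)) ∧
        ∃ f : α → ℕ,
          ((∀ x ∈ C, ∀ y ∈ C, x ≤ y → f x ≤ f y) ∧
            ∀ i : ℕ, Set.Infinite {x | x ∈ C ∧ f x = i} ∧
              ¬ ∃ s : ℕ → α, StrictMono s ∧ ∀ n, s n ∈ C ∧ f (s n) = i) ∨
          ((∀ x ∈ C, ∀ y ∈ C, x ≤ y → f y ≤ f x) ∧
            ∀ i : ℕ, Set.Infinite {x | x ∈ C ∧ f x = i} ∧
              ¬ ∃ s : ℕ → α, StrictAnti s ∧ ∀ n, s n ∈ C ∧ f (s n) = i)) →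
    ∀ k : ℕ, 2 ≤ k →
      ∃ C : Fin k → Set α, (∀ j, IsChain (· ≤ ·) (C j)) ∧
        Pairwise (fun i j => Disjoint (C i) (C j)) ∧
        ∃ g : α → ℕ, ∀ i : ℕ, IsAntichain (· ≤ ·) {x | g x = i} ∧
          min (Set.encard {x | g x = i}) (k : ℕ∞) ≤
            Set.encard {j : Fin k | (C j ∩ {x | g x = i}).Nonempty}) := by
  intro H
  obtain ⟨C, hC, -, g, hg⟩ := H P (by
    rintro ⟨C, hC, -, f, h | h⟩
    · exact (h.2 0).1 ((finite_chain hC).subset fun x hx => hx.1)
    · exact (h.2 0).1 ((finite_chain hC).subset fun x hx => hx.1)) 2 le_rfl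
  have hfin : (⋃ j, C j).Finite := Set.finite_iUnion fun j => finite_chain (hC j)
  have hran : Set.range g ⊆ g '' (⋃ j, C j) := by
    rintro _ ⟨x, rfl⟩
    have h1 := (hg (g x)).2
    have hne : ({y | g y = g x} : Set P).Nonempty := ⟨x, rfl⟩
    have h2 : (1 : ℕ∞) ≤ min (Set.encard {y | g y = g x}) ((2 : ℕ) : ℕ∞) := by
      refine le_min (Set.one_le_encard_iff_nonempty.2 hne) ?_
      exact_mod_cast (by norm_num : (1 : ℕ) ≤ 2)
    obtain ⟨j, hj⟩ := Set.one_le_encard_iff_nonempty.1 (h2.trans h1)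
    obtain ⟨y, hy1, hy2⟩ := hj
    exact ⟨y, Set.mem_iUnion.2 ⟨j, hy1⟩, hy2⟩
  have hrf : (Set.range g).Finite := (hfin.image g).subset hran
  obtain ⟨N, hN⟩ : ∃ N, N = (Set.range g).ncard := ⟨_, rfl⟩
  have hinj : Function.Injective (fun b : Fin (N + 1) => g (⟨N, b⟩ : P)) := by
    intro a b hab
    by_contra hne
    have hne' : (⟨N, a⟩ : P) ≠ ⟨N, b⟩ := fun h => hne (by simpa using h)
    have hanti := (hg (g (⟨N, a⟩ : P))).1
    have hA : (⟨N, a⟩ : P) ∈ {x : P | g x = g (⟨N, a⟩ : P)} := rfl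
    have hB : (⟨N, b⟩ : P) ∈ {x : P | g x = g (⟨N, a⟩ : P)} := hab.symm
    rcases comparable_of_fst a b with h | h
    · exact hanti hA hB hne' h
    · exact hanti hB hA hne'.symm h
  have h3 : (Set.range (fun b : Fin (N + 1) => g (⟨N, b⟩ : P))).ncard = N + 1 := by
    rw [← Set.image_univ, Set.ncard_image_of_injective _ hinj, Set.ncard_univ, Nat.card_eq_fintype_card,
      Fintype.card_fin]
  have h4 : Set.range (fun b : Fin (N + 1) => g (⟨N, b⟩ : P)) ⊆ Set.range g := by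
    rintro _ ⟨b, rfl⟩
    exact ⟨_, rfl⟩
  have h5 := Set.ncard_le_ncard h4 hrf
  omega

end Pool.Agent.S07574
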