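import Pool.Statements.S07719
-- import your own Pool.Agent.* helpers here
import Pool.Agent.Q240.HLS.Words

set_option autoImplicit false
open Pool Pool.MP_25e1d2_co

namespace Pool.Agent.S07719

open Pool.Agent.Q240.HLS Filter

attribute [local instance] Ultrafilter.mul Ultrafilter.add
attribute [local instance] Ultrafilter.semigroup Ultrafilter.addSemigroup

/-- Coefficients of all words: finite sums and the sums `y n + 2 * y (n + 1) + y (n + 2)`. -/
def coef : ({S : Finset ℕ // S.Nonempty} ⊕ ℕ) → ℕ → ℕ
  | Sum.inl S => cF S.1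
  | Sum.inr n => cT n

open Classical in
/-- Tails of all words. -/
noncomputable def tails (F : ℤ → Ultrafilter ℕ) :
    ({S : Finset ℕ // S.Nonempty} ⊕ ℕ) → ℕ → Ultrafilter ℕ
  | Sum.inl S => fun j => if ∃ i, j ≤ i ∧ own i ∈ S.1 then F 0 else pure 0
  | Sum.inr n => tT F n

/-- If a letter is not of class `0`, there is a later letter of the same owner. -/
theorem later (j : ℕ) (h : cls j ≠ 0) : ∃ i, j + 1 ≤ i ∧ own i = own j := by
  obtain ⟨n, i, hi, rfl⟩ := exists_pos j
  rcases Nat.mod_two_eq_zero_or_one i with he | he
  · rcases Nat.lt_or_ge i (2 * n) with h1 | h1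
    · refine ⟨n * n + 2 * n, by omega, ?_⟩
      rw [own_pos n _ (le_refl _), own_pos n i hi]
      omega
    · exfalso
      apply h
      rw [cls_even n i hi he]
      omega
  · refine ⟨(n + 1) * (n + 1) + 0, ?_, ?_⟩
    · have : (n + 1) * (n + 1) = n * n + 2 * n + 1 := by ring
      omega
    · rw [own_pos (n + 1) 0 (by omega), own_pos n i hi]
      omega

theorem coef_F_sum (x : ℕ → ℕ) (S : Finset ℕ) (N : ℕ) :
    ∑ i ∈ Finset.range N, cF S i * x i =
      ∑ m ∈ S, ∑ i ∈ Finset.range N, (if own i = m then x i else 0) := by
  rw [Finset.sum_comm]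
  apply Finset.sum_congr rfl
  intro i _
  rw [Finset.sum_ite_eq]
  unfold cF
  split_ifs <;> simp

/-- The term `y m` as a sum over an initial segment. -/
theorem y_range (x : ℕ → ℕ) (m N : ℕ) (hN : (m + 1) * (m + 1) ≤ N) :
    ∑ i ∈ Finset.range N, (if own i = m then x i else 0) =
      ∑ i ∈ Finset.range ((m + 1) * (m + 1)), (if own i = m then x i else 0) := by
  symm
  apply Finset.sum_subset
  · intro i hi
    rw [Finset.mem_range] at hi ⊢
    omega
  · intro i _ hi2
    rw [Finset.mem_range, not_lt] at hi2
    apply if_neg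
    obtain ⟨n, k, hk, rfl⟩ := exists_pos i
    rw [own_pos n k hk]
    have : m + 1 ≤ n := by
      by_contra hcon
      have : (n + 1) * (n + 1) ≤ (m + 1) * (m + 1) := Nat.mul_le_mul (by omega) (by omega)
      have e : (n + 1) * (n + 1) = n * n + 2 * n + 1 := by ring
      omega
    omega

/-- For every finite colouring of the naturals there is a sequence of positive integers y_0, y_1, ... such that all nonempty finite sums of distinct terms, and all sums y_n + 2y_{n+1} + y_{n+2}, get one and the same colour. -/
theorem result :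
    ∀ (k : ℕ) (c : ℕ → Fin k), ∃ y : ℕ → ℕ, (∀ n, 0 < y n) ∧
      ∃ col : Fin k,
        (∀ s : Finset ℕ, s.Nonempty → c (∑ i ∈ s, y i) = col) ∧
        (∀ n : ℕ, c (y n + 2 * y (n + 1) + y (n + 2)) = col) := by
  classical
  intro k c
  obtain ⟨F, G, hpos, hFG, hFF, hGG, hFG', hGF⟩ := exists_FG
  -- the colour
  obtain ⟨col, hcol⟩ : ∃ col : Fin k, {n | c n = col} ∈ F 0 := by
    have h2 := (Ultrafilter.eventually_exists_iff (f := F 0)
      (P := fun (col : Fin k) n => c n = col)).mp (by
        filter_upwards with n
        exact ⟨c n, rfl⟩)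
    exact h2
  obtain ⟨x, hx, hG⟩ := select (fun j => F (cls j)) coef (tails F) {n | c n = col}
    (fun _ => {n | 0 < n}) (fun j => hpos _)
    (by
      rintro (⟨S, hS⟩ | n) j
      · show (if ∃ i, j ≤ i ∧ own i ∈ S then F 0 else pure 0) =
          (F (cls j)).map (fun x => cF S j * x) +
            (if ∃ i, j + 1 ≤ i ∧ own i ∈ S then F 0 else pure 0)
        by_cases hj : own j ∈ S
        · rw [if_pos ⟨j, le_refl _, hj⟩]
          have h1 : cF S j = 1 := if_pos hj
          rw [h1, map_one']
          by_cases hl : ∃ i, j + 1 ≤ i ∧ own i ∈ S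
          · rw [if_pos hl, hFF]
          · rw [if_neg hl, add_zero']
            have : cls j = 0 := by
              by_contra hcon
              obtain ⟨i, hi, hi2⟩ := later j hcon
              exact hl ⟨i, hi, by rw [hi2]; exact hj⟩
            rw [this]
        · have h1 : cF S j = 0 := if_neg hj
          rw [h1, map_zero', zero_add']
          have : (∃ i, j ≤ i ∧ own i ∈ S) ↔ (∃ i, j + 1 ≤ i ∧ own i ∈ S) := by
            constructor
            · rintro ⟨i, hi, hi2⟩
              rcases Nat.lt_or_ge j i with h | h
              · exact ⟨i, h, hi2⟩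
              · have : i = j := by omega
                subst this
                exact absurd hi2 hj
            · rintro ⟨i, hi, hi2⟩
              exact ⟨i, by omega, hi2⟩
          simp only [this]
      · exact tT_step F n j)
    (by
      intro j
      apply Set.Finite.subset (s := ((Set.pi Set.univ (fun _ : Fin (j + 1) => ({0, 1} : Set ℕ))) ×ˢ
        ({F 0, pure 0} : Set (Ultrafilter ℕ))) ∪
        ((fun n => ((fun i : Fin (j + 1) => cT n i), tT F n (j + 1))) '' Set.Iic j))
      · apply Set.Finite.union
        · apply Set.Finite.prod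
          · exact Set.Finite.pi (fun _ => by simp)
          · simp
        · exact (Set.finite_Iic j).image _
      · rintro _ ⟨w, rfl⟩
        rcases w with ⟨S, hS⟩ | n
        · left
          refine ⟨?_, ?_⟩
          · intro i _
            show cF S i ∈ ({0, 1} : Set ℕ)
            unfold cF
            split_ifs <;> simp
          · show (if ∃ i, j + 1 ≤ i ∧ own i ∈ S then F 0 else pure 0) ∈ _
            split_ifs <;> simp
        · rcases Nat.lt_or_ge j n with h | h
          · left
            refine ⟨?_, ?_⟩
            · intro i _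
              show cT n i ∈ ({0, 1} : Set ℕ)
              have hi : own (i : ℕ) < n := lt_of_le_of_lt (own_le _) (by have := i.2; omega)
              unfold cT
              rw [if_neg (by omega), if_neg (by omega), if_neg (by omega)]
              simp
            · show tT F n (j + 1) ∈ _
              rw [tT_zero F G hFG hFF hGG hFG' hGF n (j + 1)
                (le_trans h (Nat.le_mul_self n))]
              simp
          · right
            exact ⟨n, h, rfl⟩)
    (by
      rintro (⟨S, hS⟩ | n)
      · show {n | c n = col} ∈ (if ∃ i, 0 ≤ i ∧ own i ∈ S then F 0 else pure 0)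
        obtain ⟨m, hm⟩ := hS
        rw [if_pos ⟨m * m + 0, by omega, by rw [own_pos m 0 (by omega)]; simpa using hm⟩]
        exact hcol
      · show {n | c n = col} ∈ tT F n 0
        rw [tT_zero F G hFG hFF hGG hFG' hGF n 0 (by omega)]
        exact hcol)
  refine ⟨fun m => ∑ i ∈ Finset.range ((m + 1) * (m + 1)), (if own i = m then x i else 0),
    fun m => ?_, col, fun S hS => ?_, fun n => ?_⟩
  · have h1 : m * m ∈ Finset.range ((m + 1) * (m + 1)) := by
      rw [Finset.mem_range]; nlinarith
    have h2 := Finset.single_le_sum (f := fun i => if own i = m then x i else 0)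
      (fun i _ => Nat.zero_le _) h1
    have h3 : own (m * m) = m := by
      have := own_pos m 0 (by omega)
      simpa using this
    simp only [h3, if_true] at h2
    exact lt_of_lt_of_le (hx (m * m)) h2
  · -- finite sums
    obtain ⟨M, hM⟩ : ∃ M, ∀ m ∈ S, m ≤ M := ⟨S.sup id, fun m hm => Finset.le_sup (f := id) hm⟩
    have h := hG ((M + 1) * (M + 1)) (Sum.inl ⟨S, hS⟩)
    have ht : tails F (Sum.inl ⟨S, hS⟩) ((M + 1) * (M + 1)) = pure 0 := by
      apply if_neg
      rintro ⟨i, hi, hi2⟩
      obtain ⟨n, l, hl, rfl⟩ := exists_pos i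
      rw [own_pos n l hl] at hi2
      have h1 := hM _ hi2
      have : (n + 1) * (n + 1) ≤ (M + 1) * (M + 1) := Nat.mul_le_mul (by omega) (by omega)
      have e : (n + 1) * (n + 1) = n * n + 2 * n + 1 := by ring
      omega
    rw [ht] at h
    have h' : (∑ i ∈ Finset.range ((M + 1) * (M + 1)), cF S i * x i) + 0 ∈ {n | c n = col} := h
    rw [add_zero, coef_F_sum] at h'
    have e : ∑ m ∈ S, ∑ i ∈ Finset.range ((M + 1) * (M + 1)), (if own i = m then x i else 0) =
        ∑ m ∈ S, ∑ i ∈ Finset.range ((m + 1) * (m + 1)), (if own i = m then x i else 0) := by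
      apply Finset.sum_congr rfl
      intro m hm
      exact y_range x m _ (Nat.mul_le_mul (by have := hM m hm; omega) (by have := hM m hm; omega))
    rw [e] at h'
    exact h'
  · have h := hG ((n + 3) * (n + 3)) (Sum.inr n)
    have ht : tails F (Sum.inr n) ((n + 3) * (n + 3)) = pure 0 := tT_end F n _ (le_refl _)
    rw [ht] at h
    have h' : (∑ i ∈ Finset.range ((n + 3) * (n + 3)), cT n i * x i) + 0 ∈ {n | c n = col} := h
    rw [add_zero] at h'
    have e : ∑ i ∈ Finset.range ((n + 3) * (n + 3)), cT n i * x i =
        (∑ i ∈ Finset.range ((n + 3) * (n + 3)), if own i = n then x i else 0) +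
        2 * (∑ i ∈ Finset.range ((n + 3) * (n + 3)), if own i = n + 1 then x i else 0) +
        (∑ i ∈ Finset.range ((n + 3) * (n + 3)), if own i = n + 2 then x i else 0) := by
      rw [Finset.mul_sum, ← Finset.sum_add_distrib, ← Finset.sum_add_distrib]
      apply Finset.sum_congr rfl
      intro i _
      unfold cT
      by_cases h1 : own i = n
      · rw [if_pos h1, if_pos h1, if_neg (by omega), if_neg (by omega)]; ring
      · by_cases h2 : own i = n + 1
        · rw [if_neg h1, if_neg h1, if_pos h2, if_pos h2, if_neg (by omega)]; ring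
        · by_cases h3 : own i = n + 2
          · rw [if_neg h1, if_neg h1, if_neg h2, if_neg h2, if_pos h3, if_pos h3]; ring
          · rw [if_neg h1, if_neg h1, if_neg h2, if_neg h2, if_neg h3, if_neg h3]; ring
    rw [e, y_range x n _ (Nat.mul_le_mul (by omega) (by omega)),
      y_range x (n + 1) _ (Nat.mul_le_mul (by omega) (by omega)),
      y_range x (n + 2) _ (Nat.mul_le_mul (by omega) (by omega))] at h'
    exact h'

end Pool.Agent.S07719
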