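import Pool.Statements.S07874
import Pool.Agent.TH236.Net6

set_option autoImplicit false
open Pool Pool.MP_2d87f2_co

namespace Pool.Agent.S07874

open Pool.Agent.TH236.Net

/-- Boundary edges, as ordered pairs. -/
theorem ncard_pairs {V : Type} (G : SimpleGraph V) (A : Finset V) :
    Set.ncard {p : V × V | p.1 ∈ A ∧ p.2 ∉ A ∧ G.Adj p.1 p.2} = (edgeBoundary G A).ncard := by
  have h : edgeBoundary G A =
      (fun p : V × V => s(p.1, p.2)) '' {p : V × V | p.1 ∈ A ∧ p.2 ∉ A ∧ G.Adj p.1 p.2} := by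
    ext e
    constructor
    · rintro ⟨he, u, hu, v, hv, rfl⟩
      exact ⟨(u, v), ⟨hu, hv, he⟩, rfl⟩
    · rintro ⟨p, ⟨h1, h2, h3⟩, rfl⟩
      exact ⟨h3, p.1, h1, p.2, h2, rfl⟩
  rw [h, Set.InjOn.ncard_image]
  rintro p ⟨h1, h2, _⟩ q ⟨h3, h4, _⟩ hpq
  have hpq' : s(p.1, p.2) = s(q.1, q.2) := hpq
  rw [Sym2.eq_iff] at hpq'
  rcases hpq' with ⟨e1, e2⟩ | ⟨e1, e2⟩
  · exact Prod.ext e1 e2
  · exact absurd (e1 ▸ h1) h4

theorem cheeger_eq {V : Type} (G : SimpleGraph V) :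
    sInf {r : ℝ | ∃ A : Finset V, A.Nonempty ∧
      r = (Set.ncard {p : V × V | p.1 ∈ A ∧ p.2 ∉ A ∧ G.Adj p.1 p.2} : ℝ) / (A.card : ℝ)} =
    cheeger G := by
  unfold cheeger
  congr 1
  ext r
  constructor
  · rintro ⟨A, hA, rfl⟩
    exact ⟨A, hA, by rw [ncard_pairs]⟩
  · rintro ⟨A, hA, rfl⟩
    exact ⟨A, hA, by rw [ncard_pairs]⟩

theorem ncard_net {V : Type} (G : SimpleGraph V) (k : ℕ) (S : Set V) (B : Finset S) :
    Set.ncard {p : V × V | p.1 ∈ B.map ⟨Subtype.val, Subtype.val_injective⟩ ∧ p.2 ∈ S ∧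
      p.2 ∉ B.map ⟨Subtype.val, Subtype.val_injective⟩ ∧ G.dist p.1 p.2 ≤ 2 * k} =
    (edgeBoundary (netGraph G k S) B).ncard := by
  rw [← ncard_pairs]
  symm
  apply Set.ncard_congr (fun (p : S × S) _ => ((p.1 : V), (p.2 : V)))
  · rintro p ⟨h1, h2, h3⟩
    refine ⟨?_, p.2.2, ?_, h3.2⟩
    · rw [Finset.mem_map]
      exact ⟨p.1, h1, rfl⟩
    · rw [Finset.mem_map]
      rintro ⟨x, hx, hxp⟩
      have : x = p.2 := Subtype.ext hxp
      exact h2 (this ▸ hx)
  · rintro p q _ _ h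
    rw [Prod.mk.injEq] at h
    exact Prod.ext (Subtype.ext h.1) (Subtype.ext h.2)
  · rintro ⟨a, b⟩ ⟨h1, h2, h3, h4⟩
    rw [Finset.mem_map] at h1
    obtain ⟨x, hx, rfl⟩ := h1
    refine ⟨(x, ⟨b, h2⟩), ⟨hx, ?_, ?_, h4⟩, rfl⟩
    · intro hb
      apply h3
      rw [Finset.mem_map]
      exact ⟨⟨b, h2⟩, hb, rfl⟩
    · intro hxb
      apply h3
      rw [Finset.mem_map]
      exact ⟨x, hx, congrArg Subtype.val hxb⟩

theorem cheeger_net_eq {V : Type} (G : SimpleGraph V) (k : ℕ) (S : Set V) :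
    sInf {r : ℝ | ∃ A : Finset V, A.Nonempty ∧ (↑A : Set V) ⊆ S ∧
      r = (Set.ncard {p : V × V | p.1 ∈ A ∧ p.2 ∈ S ∧ p.2 ∉ A ∧
        G.dist p.1 p.2 ≤ 2 * k} : ℝ) / (A.card : ℝ)} = cheeger (netGraph G k S) := by
  classical
  unfold cheeger
  congr 1
  ext r
  constructor
  · rintro ⟨A, hA, hAS, rfl⟩
    have hex : ∃ B : Finset S, B.map ⟨Subtype.val, Subtype.val_injective⟩ = A := by
      refine ⟨A.subtype (· ∈ S), ?_⟩
      ext x
      simp only [Finset.mem_map, Finset.mem_subtype, Function.Embedding.coeFn_mk, Subtype.exists,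
        exists_and_left, exists_prop, exists_eq_right_right]
      exact ⟨fun h => h.1, fun h => ⟨h, hAS h⟩⟩
    obtain ⟨B, rfl⟩ := hex
    refine ⟨B, by simpa using hA, ?_⟩
    rw [ncard_net, Finset.card_map]
  · rintro ⟨B, hB, rfl⟩
    refine ⟨B.map ⟨Subtype.val, Subtype.val_injective⟩, by simpa using hB, ?_, ?_⟩
    · intro x hx
      rw [Finset.mem_coe, Finset.mem_map] at hx
      obtain ⟨y, _, rfl⟩ := hx
      exact y.2
    · rw [ncard_net, Finset.card_map]

/-- The negation of the preceding statement: For every infinite connected locally finite vertex-transitive graph G, every k ≥ 1 and every maximal k-separated vertex set S, the Cheeger constant of the graph on S joining points at distance ≤ 2k is at least the Cheeger constant of G. -/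
theorem result :
    ¬ (∀ (V : Type) (G : SimpleGraph V), Infinite V → G.Connected →
      (∀ v : V, (G.neighborSet v).Finite) →
      (∀ u v : V, ∃ φ : G ≃g G, φ u = v) →
      ∀ k : ℕ, 1 ≤ k →
      ∀ S : Set V,
        (∀ u ∈ S, ∀ v ∈ S, u ≠ v → k ≤ G.dist u v) →
        (∀ w : V, w ∉ S → ∃ u ∈ S, G.dist w u < k) →
        sInf {r : ℝ | ∃ A : Finset V, A.Nonempty ∧
            r = (Set.ncard {p : V × V | p.1 ∈ A ∧ p.2 ∉ A ∧ G.Adj p.1 p.2} : ℝ)
              / (A.card : ℝ)}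
          ≤
        sInf {r : ℝ | ∃ A : Finset V, A.Nonempty ∧ (↑A : Set V) ⊆ S ∧
            r = (Set.ncard {p : V × V | p.1 ∈ A ∧ p.2 ∈ S ∧ p.2 ∉ A ∧
                  G.dist p.1 p.2 ≤ 2 * k} : ℝ)
              / (A.card : ℝ)}) := by
  intro hall
  obtain ⟨D, hD⟩ := final
  obtain ⟨V, G, hinf, hconn, htrans, hfin, _, k, hk, S, hS, _, hlt⟩ := hD 1 one_pos
  have h := hall V G hinf hconn (fun v => (hfin v).1) htrans k hk S hS.prop (by
    intro w hw
    by_contra hcon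
    push Not at hcon
    have hsep : Separated G k (insert w S) := by
      intro u hu v hv huv
      rcases Set.mem_insert_iff.1 hu with h1 | h1
      · rcases Set.mem_insert_iff.1 hv with h2 | h2
        · exact absurd (h1.trans h2.symm) huv
        · rw [h1]
          exact hcon v h2
      · rcases Set.mem_insert_iff.1 hv with h2 | h2
        · rw [h2, SimpleGraph.dist_comm]
          exact hcon u h1
        · exact hS.prop u h1 v h2 huv
    exact hw (hS.le_of_ge hsep (Set.subset_insert w S) (Set.mem_insert w S)))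
  rw [cheeger_eq, cheeger_net_eq] at h
  linarith

end Pool.Agent.S07874
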