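import Pool.Statements.S07891
import Pool.Agent.Q224.Dressian

set_option autoImplicit false
open Pool Pool.MP_2e1090_co

namespace Pool.Agent.S07891

/-- Some Dressian Dr(d,n) has a tropical Plücker vector inducing a coarsest nontrivial matroid subdivision (a ray) that differs from the subdivision induced by the corank vector of every rank-d matroid on n elements. -/
theorem result :
    ∃ d n : ℕ, ∃ w : Finset (Fin n) → ℝ,
      (∀ (S : Finset (Fin n)) (i j k l : Fin n), S.card + 2 = d →
        i ∉ S → j ∉ S → k ∉ S → l ∉ S →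
        i ≠ j → i ≠ k → i ≠ l → j ≠ k → j ≠ l → k ≠ l →
        ((w (insert i (insert j S)) + w (insert k (insert l S))
            = w (insert i (insert k S)) + w (insert j (insert l S)) ∧
          w (insert i (insert j S)) + w (insert k (insert l S))
            ≤ w (insert i (insert l S)) + w (insert j (insert k S))) ∨
         (w (insert i (insert j S)) + w (insert k (insert l S))
            = w (insert i (insert l S)) + w (insert j (insert k S)) ∧
          w (insert i (insert j S)) + w (insert k (insert l S))
            ≤ w (insert i (insert k S)) + w (insert j (insert l S))) ∨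
         (w (insert i (insert k S)) + w (insert j (insert l S))
            = w (insert i (insert l S)) + w (insert j (insert k S)) ∧
          w (insert i (insert k S)) + w (insert j (insert l S))
            ≤ w (insert i (insert j S)) + w (insert k (insert l S))))) ∧
      (¬ ∃ c : Fin n → ℝ, ∀ B : Finset (Fin n), B.card = d →
          ∀ B' : Finset (Fin n), B'.card = d →
            w B - ∑ i ∈ B, c i ≤ w B' - ∑ i ∈ B', c i) ∧
      (∀ v : Finset (Fin n) → ℝ,
        (∀ (S : Finset (Fin n)) (i j k l : Fin n), S.card + 2 = d →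
          i ∉ S → j ∉ S → k ∉ S → l ∉ S →
          i ≠ j → i ≠ k → i ≠ l → j ≠ k → j ≠ l → k ≠ l →
          ((v (insert i (insert j S)) + v (insert k (insert l S))
              = v (insert i (insert k S)) + v (insert j (insert l S)) ∧
            v (insert i (insert j S)) + v (insert k (insert l S))
              ≤ v (insert i (insert l S)) + v (insert j (insert k S))) ∨
           (v (insert i (insert j S)) + v (insert k (insert l S))
              = v (insert i (insert l S)) + v (insert j (insert k S)) ∧
            v (insert i (insert j S)) + v (insert k (insert l S))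
              ≤ v (insert i (insert k S)) + v (insert j (insert l S))) ∨
           (v (insert i (insert k S)) + v (insert j (insert l S))
              = v (insert i (insert l S)) + v (insert j (insert k S)) ∧
            v (insert i (insert k S)) + v (insert j (insert l S))
              ≤ v (insert i (insert j S)) + v (insert k (insert l S))))) →
        (∀ c : Fin n → ℝ, ∃ c' : Fin n → ℝ,
          {B : Finset (Fin n) | B.card = d ∧ ∀ B' : Finset (Fin n), B'.card = d →
              w B - ∑ i ∈ B, c i ≤ w B' - ∑ i ∈ B', c i} ⊆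
          {B : Finset (Fin n) | B.card = d ∧ ∀ B' : Finset (Fin n), B'.card = d →
              v B - ∑ i ∈ B, c' i ≤ v B' - ∑ i ∈ B', c' i}) →
        (∃ c : Fin n → ℝ, ∀ B : Finset (Fin n), B.card = d →
          ∀ B' : Finset (Fin n), B'.card = d →
            v B - ∑ i ∈ B, c i ≤ v B' - ∑ i ∈ B', c i) ∨
        ((∀ c : Fin n → ℝ, ∃ c' : Fin n → ℝ,
          {B : Finset (Fin n) | B.card = d ∧ ∀ B' : Finset (Fin n), B'.card = d →
              w B - ∑ i ∈ B, c i ≤ w B' - ∑ i ∈ B', c i} =
          {B : Finset (Fin n) | B.card = d ∧ ∀ B' : Finset (Fin n), B'.card = d →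
              v B - ∑ i ∈ B, c' i ≤ v B' - ∑ i ∈ B', c' i}) ∧
         (∀ c : Fin n → ℝ, ∃ c' : Fin n → ℝ,
          {B : Finset (Fin n) | B.card = d ∧ ∀ B' : Finset (Fin n), B'.card = d →
              v B - ∑ i ∈ B, c i ≤ v B' - ∑ i ∈ B', c i} =
          {B : Finset (Fin n) | B.card = d ∧ ∀ B' : Finset (Fin n), B'.card = d →
              w B - ∑ i ∈ B, c' i ≤ w B' - ∑ i ∈ B', c' i}))) ∧
      (¬ ∃ M : Matroid (Fin n), M.E = Set.univ ∧ M.eRank = (d : ℕ∞) ∧
        (∀ c : Fin n → ℝ, ∃ c' : Fin n → ℝ,
          {B : Finset (Fin n) | B.card = d ∧ ∀ B' : Finset (Fin n), B'.card = d →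
              w B - ∑ i ∈ B, c i ≤ w B' - ∑ i ∈ B', c i} =
          {B : Finset (Fin n) | B.card = d ∧ ∀ B' : Finset (Fin n), B'.card = d →
              ((d : ℝ) - ((M.eRk (B : Set (Fin n))).toNat : ℝ)) - ∑ i ∈ B, c' i ≤
              ((d : ℝ) - ((M.eRk (B' : Set (Fin n))).toNat : ℝ)) - ∑ i ∈ B', c' i}) ∧
        (∀ c : Fin n → ℝ, ∃ c' : Fin n → ℝ,
          {B : Finset (Fin n) | B.card = d ∧ ∀ B' : Finset (Fin n), B'.card = d →
              ((d : ℝ) - ((M.eRk (B : Set (Fin n))).toNat : ℝ)) - ∑ i ∈ B, c i ≤
              ((d : ℝ) - ((M.eRk (B' : Set (Fin n))).toNat : ℝ)) - ∑ i ∈ B', c i} =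
          {B : Finset (Fin n) | B.card = d ∧ ∀ B' : Finset (Fin n), B'.card = d →
              w B - ∑ i ∈ B, c' i ≤ w B' - ∑ i ∈ B', c' i})) := by
  open Pool.Agent.Q224.Dressian in
  refine ⟨3, 9, w, ?_, ?_, ?_, ?_⟩
  · -- three term relations
    intro S i j k l hS hi hj hk hl hij hik hil hjk hjl hkl
    have hS1 : S.card = 1 := by omega
    obtain ⟨s, rfl⟩ := Finset.card_eq_one.1 hS1
    rw [Finset.mem_singleton] at hi hj hk hl
    have h := three_spec (check1_spec s i j k l hi hj hk hl hij hik hil hjk hjl hkl)
    have e1 : w {i, j, s} = (T i j s : ℝ) := w_triple hij hi hj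
    have e2 : w {k, l, s} = (T k l s : ℝ) := w_triple hkl hk hl
    have e3 : w {i, k, s} = (T i k s : ℝ) := w_triple hik hi hk
    have e4 : w {j, l, s} = (T j l s : ℝ) := w_triple hjl hj hl
    have e5 : w {i, l, s} = (T i l s : ℝ) := w_triple hil hi hl
    have e6 : w {j, k, s} = (T j k s : ℝ) := w_triple hjk hj hk
    rw [e1, e2, e3, e4, e5, e6]
    exact_mod_cast h
  · rintro ⟨c, hc⟩
    exact not_trivial c hc
  · intro v hv H
    obtain ⟨lam, a, hva⟩ := rigid v H
    rcases lt_trichotomy lam 0 with hlam | hlam | hlam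
    · exfalso
      have h := hv {0} 1 2 3 4 (by decide) (by decide) (by decide) (by decide) (by decide)
        (by decide) (by decide) (by decide) (by decide) (by decide) (by decide)
      have g : ∀ x y z : Fin 9, x ≠ y → x ≠ z → y ≠ z →
          v {x, y, z} = lam * (T x y z : ℝ) + (a x + a y + a z) := by
        intro x y z h1 h2 h3
        rw [hva _ (card_triple h1 h2 h3), w_triple h1 h2 h3, sum_triple h1 h2 h3]
      have g1 : v {1, 2, 0} = lam * ((0 : ℕ) : ℝ) + (a 1 + a 2 + a 0) := g 1 2 0 (by decide) (by decide) (by decide)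
      have g2 : v {3, 4, 0} = lam * ((0 : ℕ) : ℝ) + (a 3 + a 4 + a 0) := g 3 4 0 (by decide) (by decide) (by decide)
      have g3 : v {1, 3, 0} = lam * ((0 : ℕ) : ℝ) + (a 1 + a 3 + a 0) := g 1 3 0 (by decide) (by decide) (by decide)
      have g4 : v {2, 4, 0} = lam * ((1 : ℕ) : ℝ) + (a 2 + a 4 + a 0) := g 2 4 0 (by decide) (by decide) (by decide)
      have g5 : v {1, 4, 0} = lam * ((0 : ℕ) : ℝ) + (a 1 + a 4 + a 0) := g 1 4 0 (by decide) (by decide) (by decide)
      have g6 : v {2, 3, 0} = lam * ((0 : ℕ) : ℝ) + (a 2 + a 3 + a 0) := g 2 3 0 (by decide) (by decide) (by decide)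
      rw [g1, g2, g3, g4, g5, g6] at h
      push_cast at h
      rcases h with ⟨h1, h2⟩ | ⟨h1, h2⟩ | ⟨h1, h2⟩ <;> linarith
    · left
      refine ⟨a, fun B hB B' hB' => ?_⟩
      rw [hva B hB, hva B' hB', hlam]
      simp
    · right
      constructor
      · intro c
        refine ⟨fun i => lam * c i + a i, ?_⟩
        ext B
        have key : ∀ B : Finset (Fin 9), B.card = 3 →
            v B - ∑ i ∈ B, (lam * c i + a i) = lam * (w B - ∑ i ∈ B, c i) := by
          intro B hB
          rw [hva B hB, Finset.sum_add_distrib, ← Finset.mul_sum]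
          ring
        constructor
        · rintro ⟨hB, h⟩
          refine ⟨hB, fun B' hB' => ?_⟩
          rw [key B hB, key B' hB']
          exact mul_le_mul_of_nonneg_left (h B' hB') hlam.le
        · rintro ⟨hB, h⟩
          refine ⟨hB, fun B' hB' => ?_⟩
          have h' := h B' hB'
          rw [key B hB, key B' hB'] at h'
          exact le_of_mul_le_mul_left h' hlam
      · intro c
        refine ⟨fun i => (c i - a i) / lam, ?_⟩
        ext B
        have key : ∀ B : Finset (Fin 9), B.card = 3 →
            v B - ∑ i ∈ B, c i = lam * (w B - ∑ i ∈ B, (c i - a i) / lam) := by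
          intro B hB
          rw [hva B hB, ← Finset.sum_div, Finset.sum_sub_distrib]
          field_simp
          ring
        constructor
        · rintro ⟨hB, h⟩
          refine ⟨hB, fun B' hB' => ?_⟩
          have h' := h B' hB'
          rw [key B hB, key B' hB'] at h'
          exact le_of_mul_le_mul_left h' hlam
        · rintro ⟨hB, h⟩
          refine ⟨hB, fun B' hB' => ?_⟩
          rw [key B hB, key B' hB']
          exact mul_le_mul_of_nonneg_left (h B' hB') hlam.le
  · rintro ⟨M, _, _, hM1, hM2⟩
    exact not_corank M hM1 hM2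
end Pool.Agent.S07891
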