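import Pool.Statements.S07942
-- import your own Pool.Agent.* helpers here

set_option autoImplicit false
open Pool Pool.MP_30ed83_co

namespace Pool.Agent.S07942

/-- there is an odd closed walk of length `n` -/
def OddLoop {V : Type*} (G : SimpleGraph V) (n : ℕ) : Prop :=
  Odd n ∧ ∃ (u : V) (w : G.Walk u u), w.length = n

theorem sub_walk {V : Type*} {G : SimpleGraph V} {u v : V} (w : G.Walk u v) {i j : ℕ}
    (hij : i ≤ j) (hj : j ≤ w.length) :
    ∃ q : G.Walk (w.getVert i) (w.getVert j), q.length = j - i := by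
  refine ⟨((w.drop i).take (j - i)).copy rfl ?_, ?_⟩
  · rw [SimpleGraph.Walk.drop_getVert]
    congr 1
    omega
  · rw [SimpleGraph.Walk.length_copy, SimpleGraph.Walk.take_length, SimpleGraph.Walk.drop_length]
    omega

theorem back_walk {V : Type*} {G : SimpleGraph V} {u : V} (w : G.Walk u u) {i j : ℕ}
    (hij : i ≤ j) (hj : j ≤ w.length) :
    ∃ q : G.Walk (w.getVert j) (w.getVert i), q.length = w.length - (j - i) := by
  refine ⟨(w.drop j).append (w.take i), ?_⟩
  rw [SimpleGraph.Walk.length_append, SimpleGraph.Walk.take_length, SimpleGraph.Walk.drop_length]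
  omega

/-- a shortest odd closed walk has distinct vertices and no chords -/
theorem shortest {V : Type*} {G : SimpleGraph V} {n : ℕ} (hmin : ∀ k, OddLoop G k → n ≤ k)
    (hodd : Odd n) {u : V} (w : G.Walk u u) (hw : w.length = n) {i j : ℕ} (hij : i < j)
    (hj : j < n) :
    w.getVert i ≠ w.getVert j ∧
      (G.Adj (w.getVert i) (w.getVert j) → j = i + 1 ∨ j = i + (n - 1)) := by
  obtain ⟨q, hq⟩ := sub_walk w hij.le (by omega)
  obtain ⟨p, hp⟩ := back_walk w hij.le (by omega)
  rw [hw] at hp
  rw [Nat.odd_iff] at hodd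
  constructor
  · intro h
    rcases Nat.even_or_odd (j - i) with he | ho
    · have h1 := hmin (n - (j - i)) ⟨by rw [Nat.odd_iff]; rw [Nat.even_iff] at he; omega,
        w.getVert j, p.copy rfl h, by simp [hp]⟩
      omega
    · have h1 := hmin (j - i) ⟨ho, w.getVert j, q.copy h rfl, by simp [hq]⟩
      omega
  · intro h
    rcases Nat.even_or_odd (j - i) with he | ho
    · have h1 := hmin (j - i + 1) ⟨by rw [Nat.odd_iff]; rw [Nat.even_iff] at he; omega,
        w.getVert j, SimpleGraph.Walk.cons h.symm q, by simp [hq]⟩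
      omega
    · have h1 := hmin (n - (j - i) + 1) ⟨by rw [Nat.odd_iff] at *; omega,
        w.getVert i, SimpleGraph.Walk.cons h p, by simp [hp]⟩
      omega

/-- The negation of the preceding statement: For every finite graph F with an edge and every r, some finite graph G has chromatic number above r and clique number equal to F's, and every induced subgraph of G with no induced copy of F has chromatic number at most that of F. -/
theorem result :
    ¬ (∀ (n : ℕ) (F : SimpleGraph (Fin n)), F ≠ ⊥ →
      ∀ r : ℕ, ∃ (m : ℕ) (G : SimpleGraph (Fin m)),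
        (r : ℕ∞) < G.chromaticNumber ∧
        G.cliqueNum = F.cliqueNum ∧
        ∀ s : Set (Fin m), ¬ F.IsIndContained (G.induce s) →
          (G.induce s).chromaticNumber ≤ F.chromaticNumber) := by
  classical
  intro H
  obtain ⟨m, G, hχ, hω, hs⟩ := H 4 (SimpleGraph.cycleGraph 4) (by
    intro h
    have : (SimpleGraph.cycleGraph 4).Adj 0 1 := by decide
    rw [h] at this
    exact this) 2
  have hFχ : (SimpleGraph.cycleGraph 4).chromaticNumber = 2 :=
    SimpleGraph.chromaticNumber_cycleGraph_of_even 4 (by norm_num) (by decide)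
  rw [hFχ] at hs
  -- the clique number of `F` is at most 2
  have hFω : (SimpleGraph.cycleGraph 4).cliqueNum ≤ 2 := by
    obtain ⟨t, ht⟩ := (SimpleGraph.cycleGraph 4).exists_isNClique_cliqueNum
    by_contra hcon
    push Not at hcon
    obtain ⟨t', ht', hc⟩ := Finset.exists_subset_card_eq (s := t) (n := 3) (by rw [ht.card_eq]; omega)
    have h3 : (SimpleGraph.cycleGraph 4).IsNClique 3 t' := by
      refine ⟨?_, hc⟩
      intro a ha b hb hab
      exact ht.isClique (ht' ha) (ht' hb) hab
    have : ∀ t' : Finset (Fin 4), ¬ (SimpleGraph.cycleGraph 4).IsNClique 3 t' := by decide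
    exact this t' h3
  rw [← hω] at hFω
  -- `G` has no triangle
  have htri : ∀ a b c : Fin m, G.Adj a b → G.Adj b c → G.Adj c a → False := by
    intro a b c h1 h2 h3
    have h4 : G.IsNClique 3 {a, b, c} := by
      rw [SimpleGraph.is3Clique_triple_iff]
      exact ⟨h1, h3.symm, h2⟩
    have h5 := h4.isClique.card_le_cliqueNum
    rw [h4.card_eq] at h5
    omega
  -- `G` is not 2-colourable
  have hnot : ¬ G.Colorable 2 := by
    intro h
    have := h.chromaticNumber_le
    exact absurd hχ (not_lt.mpr (by exact_mod_cast this))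
  rw [SimpleGraph.two_colorable_iff_forall_loop_even] at hnot
  push Not at hnot
  obtain ⟨u0, w0, hw0⟩ := hnot
  have hex : ∃ n, OddLoop G n := ⟨w0.length, by simpa using hw0, u0, w0, rfl⟩
  obtain ⟨n, ⟨hodd, u, w, hwn⟩, hmin⟩ : ∃ n, OddLoop G n ∧ ∀ k, OddLoop G k → n ≤ k :=
    ⟨Nat.find hex, Nat.find_spec hex, fun k hk => Nat.find_min' hex hk⟩
  have hodd' := Nat.odd_iff.mp hodd
  have key : ∀ {i j : ℕ}, i < j → j < n → w.getVert i ≠ w.getVert j ∧
      (G.Adj (w.getVert i) (w.getVert j) → j = i + 1 ∨ j = i + (n - 1)) :=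
    fun hij hj => shortest hmin hodd w hwn hij hj
  -- adjacency of walk vertices
  have hadj : ∀ i j, i < n → j < n → G.Adj (w.getVert i) (w.getVert j) →
      j = i + 1 ∨ i = j + 1 ∨ j = i + (n - 1) ∨ i = j + (n - 1) := by
    intro i j hi hj h
    rcases lt_trichotomy i j with h1 | h1 | h1
    · rcases (key h1 hj).2 h with h2 | h2 <;> omega
    · subst h1
      exact absurd h (G.loopless.irrefl _)
    · rcases (key h1 hi).2 h.symm with h2 | h2 <;> omega
  have hlen1 : n ≠ 1 := by
    intro h1
    have h2 := w.adj_getVert_succ (i := 0) (by omega)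
    have h3 : w.getVert (0 + 1) = u := by
      rw [zero_add, ← h1, ← hwn]; exact w.getVert_length
    rw [h3, SimpleGraph.Walk.getVert_zero] at h2
    exact G.loopless.irrefl _ h2
  have hlen3 : n ≠ 3 := by
    intro h1
    have h2 := w.adj_getVert_succ (i := 0) (by omega)
    have h3 := w.adj_getVert_succ (i := 1) (by omega)
    have h4 := w.adj_getVert_succ (i := 2) (by omega)
    have h5 : w.getVert (2 + 1) = u := by
      rw [← hwn] at h1
      have : (2 + 1 : ℕ) = w.length := by omega
      rw [this]; exact w.getVert_length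
    rw [h5] at h4
    rw [SimpleGraph.Walk.getVert_zero] at h2
    exact htri _ _ _ h2 h3 h4
  have hn5 : 5 ≤ n := by omega
  -- the vertex set of the walk
  have hcon := hs {x | ∃ i, i < n ∧ w.getVert i = x} ?_
  · have hcol : (G.induce {x | ∃ i, i < n ∧ w.getVert i = x}).Colorable 2 :=
      SimpleGraph.chromaticNumber_le_iff_colorable.mp hcon
    have hsup : ∀ x ∈ w.support, x ∈ {x | ∃ i, i < n ∧ w.getVert i = x} := by
      intro x hx
      rw [SimpleGraph.Walk.mem_support_iff_exists_getVert] at hx
      obtain ⟨i, hi, hi'⟩ := hx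
      rcases Nat.lt_or_ge i n with h | h
      · exact ⟨i, h, hi⟩
      · refine ⟨0, by omega, ?_⟩
        rw [SimpleGraph.Walk.getVert_zero, ← hi]
        have : i = w.length := by omega
        rw [this, SimpleGraph.Walk.getVert_length]
    have h1 := SimpleGraph.two_colorable_iff_forall_loop_even.mp hcol _ (w.induce _ hsup)
    have h2 : (w.induce _ hsup).length = w.length := by
      have h3 := congrArg SimpleGraph.Walk.length (SimpleGraph.Walk.map_induce w hsup)
      rw [SimpleGraph.Walk.length_map] at h3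
      exact h3
    rw [h2, hwn] at h1
    exact (Nat.not_even_iff_odd.mpr hodd) h1
  · rintro ⟨f⟩
    have hf : ∀ a b : Fin 4, (SimpleGraph.cycleGraph 4).Adj a b → G.Adj (f a).1 (f b).1 := by
      intro a b h
      exact f.map_adj_iff.mpr h
    have hne : ∀ a b : Fin 4, a ≠ b → (f a).1 ≠ (f b).1 := by
      intro a b hab h
      exact hab (f.injective (Subtype.ext h))
    obtain ⟨p0, hp0, e0⟩ := (f 0).2
    obtain ⟨p1, hp1, e1⟩ := (f 1).2
    obtain ⟨p2, hp2, e2⟩ := (f 2).2
    obtain ⟨p3, hp3, e3⟩ := (f 3).2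
    have a01 := hf 0 1 (by decide)
    have a12 := hf 1 2 (by decide)
    have a23 := hf 2 3 (by decide)
    have a30 := hf 3 0 (by decide)
    have n02 := hne 0 2 (by decide)
    have n13 := hne 1 3 (by decide)
    rw [← e0, ← e1] at a01
    rw [← e1, ← e2] at a12
    rw [← e2, ← e3] at a23
    rw [← e3, ← e0] at a30
    rw [← e0, ← e2] at n02
    rw [← e1, ← e3] at n13
    have b01 := hadj _ _ hp0 hp1 a01
    have b12 := hadj _ _ hp1 hp2 a12
    have b23 := hadj _ _ hp2 hp3 a23
    have b30 := hadj _ _ hp3 hp0 a30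
    have m02 : p0 ≠ p2 := fun h => n02 (by rw [h])
    have m13 : p1 ≠ p3 := fun h => n13 (by rw [h])
    omega

end Pool.Agent.S07942
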