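import Pool.Statements.S07963
import Pool.Agent.Q254.Chrom

set_option autoImplicit false
open Pool Pool.MP_31cced_co

namespace Pool.Agent.S07963

/-- For every finite simple graph G on n vertices with clique number ω and every integer λ ≥ n, the number of proper (λ−1)-colourings divided by the number of proper λ-colourings is at most (1−ω/λ)(1−1/λ)^(n−ω). -/
theorem result :
    ∀ (V : Type) [Fintype V] (G : SimpleGraph V) (lam : ℕ),
      Fintype.card V ≤ lam →
      (Nat.card (G.Coloring (Fin (lam - 1))) : ℝ) / (Nat.card (G.Coloring (Fin lam)) : ℝ)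
        ≤ (1 - ((sSup {k : ℕ | ∃ s : Finset V, G.IsNClique k s} : ℕ) : ℝ) / (lam : ℝ))
          * (1 - 1 / (lam : ℝ)) ^ (Fintype.card V - sSup {k : ℕ | ∃ s : Finset V, G.IsNClique k s}) := by
  classical
  intro V _ G lam hV
  have hne : {k : ℕ | ∃ s : Finset V, G.IsNClique k s}.Nonempty :=
    ⟨0, ∅, by simp [SimpleGraph.isNClique_iff]⟩
  have hbdd : BddAbove {k : ℕ | ∃ s : Finset V, G.IsNClique k s} := by
    refine ⟨Fintype.card V, ?_⟩
    rintro k ⟨s, hs⟩
    rw [← hs.card_eq]
    exact Finset.card_le_univ s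
  obtain ⟨K, hK⟩ := Nat.sSup_mem hne hbdd
  rw [← hK.card_eq]
  refine Pool.Agent.Q254.Chrom.clique_bound G ?_ lam hV
  intro u hu v hv huv
  exact hK.isClique (Finset.mem_coe.mpr hu) (Finset.mem_coe.mpr hv) huv

end Pool.Agent.S07963
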