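import Pool.Statements.S08250
import Pool.Agent.Q277.Froz.Main

set_option autoImplicit false
open Pool Pool.MP_3d2668_co

namespace Pool.Agent.S08250

/-- The negation of the preceding statement: There is a finite nonempty graph that is 3-colourable, has no induced 5-vertex path, and has a proper 4-colouring in which every vertex has neighbours of all three colours other than its own. -/
theorem result :
    ¬ (∃ (V : Type) (_ : Fintype V) (_ : Nonempty V) (G : SimpleGraph V),
      G.Colorable 3 ∧
      IsEmpty (SimpleGraph.pathGraph 5 ↪g G) ∧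
      ∃ c : G.Coloring (Fin 4), ∀ v : V, ∀ i : Fin 4, i ≠ c v →
        ∃ w : V, G.Adj v w ∧ c w = i) := by
  rintro ⟨V, _, ⟨r⟩, G, ⟨c3⟩, hP, f, hf⟩
  exact Pool.Agent.Q277.Froz.no_frozen r G hP c3 (fun u v h => c3.valid h) f
    (fun u v h => f.valid h) hf

end Pool.Agent.S08250
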