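import Pool.Statements.S08686

set_option autoImplicit false
open Pool Pool.MP_4e7ec3_co

namespace Pool.Agent.S08686

/-- The three blocks of six consecutive points `i / 17`, `0 ≤ i ≤ 17`. The left half of each block
is sent to the fifth point of the block and the right half to the second one. -/
noncomputable def T (x : ℝ) : ℝ :=
  if x < 3 / 17 then 4 / 17
  else if x < 6 / 17 then 1 / 17
  else if x < 9 / 17 then 10 / 17
  else if x < 12 / 17 then 7 / 17
  else if x < 15 / 17 then 16 / 17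
  else 13 / 17

/-- The eighteen points `i / 17`. -/
noncomputable def F : Finset ℝ := (Finset.range 18).image (fun i : ℕ => (i : ℝ) / 17)

lemma mem_F {x : ℝ} : x ∈ F ↔ ∃ i : ℕ, i < 18 ∧ x = (i : ℝ) / 17 := by
  unfold F
  simp only [Finset.mem_image, Finset.mem_range]
  constructor
  · rintro ⟨i, hi, rfl⟩; exact ⟨i, hi, rfl⟩
  · rintro ⟨i, hi, rfl⟩; exact ⟨i, hi, rfl⟩

lemma nat_mem (i : ℕ) (hi : i < 18) : (i : ℝ) / 17 ∈ F := mem_F.2 ⟨i, hi, rfl⟩

/-- The map on the indices. -/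
def c (i : ℕ) : ℕ :=
  if i < 3 then 4 else if i < 6 then 1 else if i < 9 then 10 else if i < 12 then 7
  else if i < 15 then 16 else 13

lemma T_val (i : ℕ) (hi : i < 18) : T ((i : ℝ) / 17) = (c i : ℝ) / 17 := by
  interval_cases i <;> norm_num [T, c]

lemma c_lt (i : ℕ) : c i < 18 := by unfold c; split_ifs <;> norm_num

lemma c_gap (i : ℕ) (hi : i < 18) : c i + 2 ≤ i ∨ i + 2 ≤ c i := by
  unfold c; split_ifs <;> omega

/-- One step (to `T x` or to a neighbour of `T x`) stays in the block of `x`. -/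
lemma step_block (j : ℕ) (hj : j < 3) {x y : ℝ}
    (hlo : (6 * j : ℕ) / 17 ≤ x) (hhi : x ≤ ((6 * j + 5 : ℕ) : ℝ) / 17) (hxF : x ∈ F)
    (h : y = T x ∨ (y ∈ F ∧ y < T x ∧ ∀ r ∈ F, r < T x → r ≤ y) ∨
      (y ∈ F ∧ T x < y ∧ ∀ r ∈ F, T x < r → y ≤ r)) :
    (6 * j : ℕ) / 17 ≤ y ∧ y ≤ ((6 * j + 5 : ℕ) : ℝ) / 17 ∧ y ∈ F := by
  obtain ⟨i, hi, rfl⟩ := mem_F.1 hxF
  have hT : T ((i : ℝ) / 17) = ((6 * j + 4 : ℕ) : ℝ) / 17 ∨
      T ((i : ℝ) / 17) = ((6 * j + 1 : ℕ) : ℝ) / 17 := by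
    have h1 : 6 * j ≤ i := by
      have : ((6 * j : ℕ) : ℝ) ≤ (i : ℝ) := by
        have := mul_le_mul_of_nonneg_right hlo (by norm_num : (0:ℝ) ≤ 17)
        rw [div_mul_cancel₀ _ (by norm_num : (17:ℝ) ≠ 0),
          div_mul_cancel₀ _ (by norm_num : (17:ℝ) ≠ 0)] at this
        exact this
      exact_mod_cast this
    have h2 : i ≤ 6 * j + 5 := by
      have : (i : ℝ) ≤ ((6 * j + 5 : ℕ) : ℝ) := by
        have := mul_le_mul_of_nonneg_right hhi (by norm_num : (0:ℝ) ≤ 17)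
        rw [div_mul_cancel₀ _ (by norm_num : (17:ℝ) ≠ 0),
          div_mul_cancel₀ _ (by norm_num : (17:ℝ) ≠ 0)] at this
        exact this
      exact_mod_cast this
    rw [T_val i hi]
    have : c i = 6 * j + 4 ∨ c i = 6 * j + 1 := by unfold c; split_ifs <;> omega
    rcases this with h | h
    · left; rw [h]
    · right; rw [h]
  rcases hT with hT | hT
  · rw [hT] at h
    rcases h with h | ⟨hyF, hy1, hy2⟩ | ⟨hyF, hy1, hy2⟩
    · subst h
      refine ⟨?_, ?_, nat_mem _ (by omega)⟩ <;> push_cast <;> linarith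
    · have := hy2 (((6 * j + 3 : ℕ) : ℝ) / 17) (nat_mem _ (by omega)) (by push_cast; linarith)
      push_cast at this hy1 ⊢
      exact ⟨by linarith, by linarith, hyF⟩
    · have := hy2 (((6 * j + 5 : ℕ) : ℝ) / 17) (nat_mem _ (by omega)) (by push_cast; linarith)
      push_cast at this hy1 ⊢
      exact ⟨by linarith, by linarith, hyF⟩
  · rw [hT] at h
    rcases h with h | ⟨hyF, hy1, hy2⟩ | ⟨hyF, hy1, hy2⟩
    · subst h
      refine ⟨?_, ?_, nat_mem _ (by omega)⟩ <;> push_cast <;> linarith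
    · have := hy2 (((6 * j : ℕ) : ℝ) / 17) (nat_mem _ (by omega)) (by push_cast; linarith)
      push_cast at this hy1 ⊢
      exact ⟨by linarith, by linarith, hyF⟩
    · have := hy2 (((6 * j + 2 : ℕ) : ℝ) / 17) (nat_mem _ (by omega)) (by push_cast; linarith)
      push_cast at this hy1 ⊢
      exact ⟨by linarith, by linarith, hyF⟩

/-- The negation of the preceding statement: There is a constant k such that for every finite F in [0,1] containing 0 and 1, every ε>0, and every T:F→F moving each point by more than ε, some p₀ in F reaches a point at distance at least 1/3 in at most k/ε steps, each step going to T(p) or a neighbour of T(p) in F. -/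
theorem result :
    ¬ (∃ k : ℝ, ∀ (F : Finset ℝ) (ε : ℝ) (T : ℝ → ℝ),
      (∀ p ∈ F, 0 ≤ p ∧ p ≤ 1) → (0 : ℝ) ∈ F → (1 : ℝ) ∈ F → 0 < ε →
      (∀ p ∈ F, T p ∈ F ∧ ε < |p - T p|) →
      ∃ p₀ ∈ F, ∃ n : ℕ, (n : ℝ) ≤ k / ε ∧
        ∃ x : ℕ → ℝ, x 0 = p₀ ∧
          (∀ i < n,
            x (i + 1) = T (x i) ∨
            (x (i + 1) ∈ F ∧ x (i + 1) < T (x i) ∧
              ∀ r ∈ F, r < T (x i) → r ≤ x (i + 1)) ∨
            (x (i + 1) ∈ F ∧ T (x i) < x (i + 1) ∧
              ∀ r ∈ F, T (x i) < r → x (i + 1) ≤ r)) ∧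
          1 / 3 ≤ |x n - p₀|) := by
  rintro ⟨k, hk⟩
  obtain ⟨p₀, hp₀, n, -, x, hx0, hstep, hfar⟩ := hk F (1 / 17) T
    (by
      intro p hp
      obtain ⟨i, hi, rfl⟩ := mem_F.1 hp
      have : (i : ℝ) ≤ 17 := by exact_mod_cast (by omega : i ≤ 17)
      constructor
      · positivity
      · rw [div_le_one (by norm_num)]; exact this)
    (by simpa using nat_mem 0 (by norm_num))
    (by simpa using nat_mem 17 (by norm_num))
    (by norm_num)
    (by
      intro p hp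
      obtain ⟨i, hi, rfl⟩ := mem_F.1 hp
      rw [T_val i hi]
      refine ⟨nat_mem _ (c_lt i), ?_⟩
      rw [← sub_div, abs_div, abs_of_pos (by norm_num : (0 : ℝ) < 17)]
      rw [div_lt_div_iff_of_pos_right (by norm_num : (0 : ℝ) < 17)]
      rcases c_gap i hi with h | h
      · have h' : (c i : ℝ) + 2 ≤ i := by exact_mod_cast h
        rw [abs_of_pos (by linarith)]
        linarith
      · have h' : (i : ℝ) + 2 ≤ c i := by exact_mod_cast h
        rw [abs_of_neg (by linarith)]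
        linarith)
  -- the block of the starting point
  obtain ⟨i, hi, rfl⟩ := mem_F.1 hp₀
  obtain ⟨j, hj, h1, h2⟩ : ∃ j : ℕ, j < 3 ∧ 6 * j ≤ i ∧ i ≤ 6 * j + 5 := ⟨i / 6, by omega, by omega, by omega⟩
  have h1' : ((6 * j : ℕ) : ℝ) / 17 ≤ (i : ℝ) / 17 := by
    have : ((6 * j : ℕ) : ℝ) ≤ (i : ℝ) := by exact_mod_cast h1
    linarith
  have h2' : (i : ℝ) / 17 ≤ ((6 * j + 5 : ℕ) : ℝ) / 17 := by
    have : (i : ℝ) ≤ ((6 * j + 5 : ℕ) : ℝ) := by exact_mod_cast h2
    linarith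
  have inv : ∀ m ≤ n, ((6 * j : ℕ) : ℝ) / 17 ≤ x m ∧ x m ≤ ((6 * j + 5 : ℕ) : ℝ) / 17 ∧ x m ∈ F := by
    intro m
    induction m with
    | zero => intro _; rw [hx0]; exact ⟨h1', h2', hp₀⟩
    | succ m ih =>
      intro hm
      obtain ⟨a, b, c⟩ := ih (by omega)
      exact step_block j hj a b c (hstep m (by omega))
  obtain ⟨a, b, -⟩ := inv n le_rfl
  have : |x n - (i : ℝ) / 17| ≤ 5 / 17 := by
    rw [abs_le]
    push_cast at a b h1' h2'
    constructor <;> linarith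
  linarith

end Pool.Agent.S08686
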