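import Pool.Statements.S08907
import Pool.Agent.Q68.Perm.Val

set_option autoImplicit false
open Pool Pool.MP_596cf1_co

namespace Pool.Agent.S08907

open Finset Pool.Agent.Q68.Perm

/-- the sign attached to the row `i` by a choice of signs at the rows `2, 4, …, 2q`. -/
def eps (q : ℕ) (T : Fin q → Bool) (i : ℕ) : ℤ :=
  if ∃ s : Fin q, i = 2 * (s : ℕ) + 2 ∧ T s = true then -1 else 1

/-- the sign matrix: first column free, the other ones of Ferrers shape. -/
def mat (m N q : ℕ) (T : Fin q → Bool) : Matrix (Fin (N + 1)) (Fin (N + 1)) ℤ :=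
  Matrix.of fun i j => Fin.cases (eps q T i) (fun j' => if (j' : ℕ) < bd m i then -1 else 1) j

theorem mat_sign (m N q : ℕ) (T : Fin q → Bool) (i j : Fin (N + 1)) :
    mat m N q T i j = 1 ∨ mat m N q T i j = -1 := by
  unfold mat
  simp only [Matrix.of_apply]
  refine Fin.cases ?_ (fun j' => ?_) j
  · simp only [Fin.cases_zero]
    unfold eps
    split_ifs
    · right; rfl
    · left; rfl
  · simp only [Fin.cases_succ]
    split_ifs
    · right; rfl
    · left; rfl

theorem mat_per (m N q : ℕ) (T : Fin q → Bool) :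
    (mat m N q T).permanent = ∑ i : Fin (N + 1), eps q T i * P m N i := by
  rw [permanent_succ_column_zero]
  refine Finset.sum_congr rfl fun i _ => ?_
  congr 1

theorem mat_inj (m N q : ℕ) (h2 : 4 * q ≤ m + 1) (h3 : m + 2 * q ≤ N) :
    Function.Injective (fun T : Fin q → Bool => (mat m N q T).permanent) := by
  intro T T' h
  by_contra hne
  dsimp only at h
  rw [mat_per, mat_per] at h
  -- the first row where the two choices differ
  have hex : ∃ s : ℕ, ∃ hs : s < q, T ⟨s, hs⟩ ≠ T' ⟨s, hs⟩ := by
    by_contra hcon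
    push Not at hcon
    exact hne (funext fun s => hcon s s.2)
  classical
  obtain ⟨hs, hsT⟩ := Nat.find_spec hex
  set s := Nat.find hex with hsdef
  have hmin : ∀ t < s, ∀ ht : t < q, T ⟨t, ht⟩ = T' ⟨t, ht⟩ := by
    intro t hts ht
    have := Nat.find_min hex hts
    push Not at this
    exact this ht
  have hi0 : 2 * s + 2 < N + 1 := by omega
  set i0 : Fin (N + 1) := ⟨2 * s + 2, hi0⟩ with hi0def
  obtain ⟨-, hnd⟩ := P_val m N s i0 rfl (by omega) (by omega)
  have hsub : ∑ i : Fin (N + 1), (eps q T i - eps q T' i) * P m N i = 0 := by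
    simp only [sub_mul, Finset.sum_sub_distrib]
    rw [h, sub_self]
  rw [← Finset.add_sum_erase _ _ (Finset.mem_univ i0)] at hsub
  have hrest : (3 : ℤ) ^ (2 * s + 2) ∣
      ∑ i ∈ Finset.univ.erase i0, (eps q T i - eps q T' i) * P m N i := by
    refine Finset.dvd_sum fun i hi => ?_
    have hii : i ≠ i0 := (Finset.mem_erase.mp hi).1
    by_cases hex2 : ∃ t : Fin q, (i : ℕ) = 2 * (t : ℕ) + 2
    · obtain ⟨t, ht⟩ := hex2
      rcases lt_trichotomy (t : ℕ) s with hlt | heq | hgt
      · have he : eps q T i = eps q T' i := by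
          have h1 : ∀ U : Fin q → Bool, (∃ s : Fin q, (i : ℕ) = 2 * (s : ℕ) + 2 ∧ U s = true) ↔
              U t = true := by
            intro U
            constructor
            · rintro ⟨r, hr, hU⟩
              have : r = t := Fin.ext (by omega)
              rwa [this] at hU
            · intro hU
              exact ⟨t, ht, hU⟩
          unfold eps
          simp only [h1]
          rw [show T t = T' t from hmin t hlt t.2]
        rw [he, sub_self, zero_mul]
        exact dvd_zero _
      · exfalso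
        apply hii
        apply Fin.ext
        rw [hi0def]
        simp only
        omega
      · obtain ⟨hd, -⟩ := P_val m N t i ht (by have := t.2; omega) (by have := t.2; omega)
        exact Dvd.dvd.mul_left (dvd_trans (pow_dvd_pow 3 (by omega)) hd) _
    · have h1 : ∀ U : Fin q → Bool, eps q U i = 1 := by
        intro U
        unfold eps
        rw [if_neg]
        rintro ⟨r, hr, -⟩
        exact hex2 ⟨r, hr⟩
      rw [h1, h1, sub_self, zero_mul]
      exact dvd_zero _
  have hmain : (3 : ℤ) ^ (2 * s + 2) ∣ (eps q T i0 - eps q T' i0) * P m N i0 := by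
    have := dvd_neg.mpr hrest
    rwa [← eq_neg_of_add_eq_zero_left hsub] at this
  have h1 : ∀ U : Fin q → Bool, (∃ r : Fin q, (i0 : ℕ) = 2 * (r : ℕ) + 2 ∧ U r = true) ↔
      U ⟨s, hs⟩ = true := by
    intro U
    constructor
    · rintro ⟨r, hr, hU⟩
      have : r = ⟨s, hs⟩ := Fin.ext (by
        rw [hi0def] at hr
        simp only at hr
        simp only
        omega)
      rwa [this] at hU
    · intro hU
      exact ⟨⟨s, hs⟩, rfl, hU⟩
  have hc : IsCoprime ((3 : ℤ) ^ (2 * s + 2)) (eps q T i0 - eps q T' i0) := by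
    refine IsCoprime.pow_left ?_
    unfold eps
    simp only [h1]
    rcases hb : T ⟨s, hs⟩ with _ | _ <;> rcases hb' : T' ⟨s, hs⟩ with _ | _
    · exact absurd (hb.trans hb'.symm) hsT
    · norm_num
    · norm_num
    · exact absurd (hb.trans hb'.symm) hsT
  exact hnd (hc.dvd_of_dvd_mul_left hmain)

/-- There is a constant c > 1 such that, for all large n, the number of distinct values taken by the permanent of n×n matrices with entries ±1 is at least c^n. -/
theorem result :
    ∃ c : ℝ, 1 < c ∧ ∃ N : ℕ, ∀ n : ℕ, N ≤ n →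
      c ^ n ≤ ((Set.ncard {p : ℤ | ∃ A : Matrix (Fin n) (Fin n) ℤ,
        (∀ i j, A i j = 1 ∨ A i j = -1) ∧ A.permanent = p} : ℕ) : ℝ) := by
  refine ⟨33 / 32, by norm_num, 8, fun n hn => ?_⟩
  have hfin : {p : ℤ | ∃ A : Matrix (Fin n) (Fin n) ℤ,
      (∀ i j, A i j = 1 ∨ A i j = -1) ∧ A.permanent = p}.Finite := by
    refine Set.Finite.subset (Set.finite_range (fun s : Fin n → Fin n → Bool =>
      (Matrix.of fun i j => if s i j then (1 : ℤ) else -1).permanent)) ?_
    rintro p ⟨A, hA, rfl⟩
    refine ⟨fun i j => decide (A i j = 1), ?_⟩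
    dsimp only
    congr 1
    ext i j
    simp only [Matrix.of_apply]
    rcases hA i j with h | h
    · simp [h]
    · simp [h]
  obtain ⟨N, rfl⟩ : ∃ N, n = N + 1 := ⟨n - 1, by omega⟩
  set q := (N + 1) / 8 with hq
  have hinj := mat_inj (4 * q) N q (by omega) (by omega)
  have hle : 2 ^ q ≤ Set.ncard {p : ℤ | ∃ A : Matrix (Fin (N + 1)) (Fin (N + 1)) ℤ,
      (∀ i j, A i j = 1 ∨ A i j = -1) ∧ A.permanent = p} := by
    have h1 : (Set.range (fun T : Fin q → Bool => (mat (4 * q) N q T).permanent)).ncard =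
        2 ^ q := by
      rw [← Set.image_univ, Set.ncard_image_of_injective _ hinj, Set.ncard_univ, Nat.card_fun]
      simp
    rw [← h1]
    refine Set.ncard_le_ncard ?_ hfin
    rintro _ ⟨T, rfl⟩
    exact ⟨mat (4 * q) N q T, mat_sign _ _ _ _, rfl⟩
  have h2 : ((33 : ℝ) / 32) ^ (N + 1) ≤ 2 ^ q := by
    calc ((33 : ℝ) / 32) ^ (N + 1) ≤ (33 / 32) ^ (16 * q) :=
          pow_le_pow_right₀ (by norm_num) (by omega)
      _ = ((33 / 32) ^ 16) ^ q := by rw [pow_mul]
      _ ≤ 2 ^ q := by
          apply pow_le_pow_left₀ (by positivity)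
          norm_num
  refine le_trans h2 ?_
  exact_mod_cast hle

end Pool.Agent.S08907
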