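import Pool.Statements.S09181
import Pool.Agent.Q251.WR.Glue

set_option autoImplicit false
open Classical
open Pool Pool.MP_632be6_co

namespace Pool.Agent.S09181

/-- The orbit relation of the automorphism group. -/
def orb {W : Type} (G' : SimpleGraph W) : Setoid W where
  r u v := ∃ φ : G' ≃g G', φ u = v
  iseqv := ⟨fun u => ⟨RelIso.refl _, rfl⟩, fun {u v} h => by
      obtain ⟨φ, h⟩ := h
      exact ⟨φ.symm, by rw [← h]; simp⟩, fun {u v w} h h' => by
      obtain ⟨φ, h⟩ := h
      obtain ⟨ψ, h'⟩ := h'
      exact ⟨φ.trans ψ, by rw [← h', ← h]; rfl⟩⟩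

/-- A proper edge colouring in the sense of the problem needs at least `Δ` colours. -/
theorem lower {X : Type} [Fintype X] (Q : SimpleGraph X) {k : ℕ} (c : Sym2 X → Fin k)
    (hc : ∀ e ∈ Q.edgeSet, ∀ f ∈ Q.edgeSet, e ≠ f → (∃ v, v ∈ e ∧ v ∈ f) → c e ≠ c f) :
    Q.maxDegree ≤ k := by
  apply SimpleGraph.maxDegree_le_of_forall_degree_le
  intro v
  rw [← SimpleGraph.card_neighborFinset_eq_degree]
  have h : Set.InjOn (fun w => c s(v, w)) (Q.neighborFinset v : Set X) := by
    intro a ha b hb e
    simp only [Finset.mem_coe, SimpleGraph.mem_neighborFinset] at ha hb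
    by_contra hne
    refine hc s(v, a) ha s(v, b) hb ?_ ⟨v, by simp, by simp⟩ e
    intro e'
    rw [Sym2.eq_iff] at e'
    rcases e' with ⟨_, e'⟩ | ⟨e1, e2⟩
    · exact hne e'
    · exact hne (by rw [e2, e1])
  have := Finset.card_le_card_of_injOn (t := (Finset.univ : Finset (Fin k))) _
    (fun _ _ => Finset.mem_univ _) h
  simpa using this

/-- For all finite simple graphs G (with an edge) and G', if the chromatic index of G equals its maximum degree, then the chromatic index of the wreath product G ρ G' equals its maximum degree. -/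
theorem result :
    ∀ (V W : Type) [Fintype V] [Fintype W] (G : SimpleGraph V) (G' : SimpleGraph W)
      (H : SimpleGraph (V × W)),
      H = SimpleGraph.fromRel (fun p q : V × W =>
            (p.1 = q.1 ∧ G'.Adj p.2 q.2) ∨
            (G.Adj p.1 q.1 ∧ ∃ φ : G' ≃g G', φ p.2 = q.2)) →
      G.edgeSet.Nonempty →
      sInf {k : ℕ | ∃ c : Sym2 V → Fin k, ∀ e ∈ G.edgeSet, ∀ f ∈ G.edgeSet,
              e ≠ f → (∃ v, v ∈ e ∧ v ∈ f) → c e ≠ c f} = G.maxDegree →
      sInf {k : ℕ | ∃ c : Sym2 (V × W) → Fin k, ∀ e ∈ H.edgeSet, ∀ f ∈ H.edgeSet,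
              e ≠ f → (∃ v, v ∈ e ∧ v ∈ f) → c e ≠ c f} = H.maxDegree := by
  intro V W _ _ G G' H hH hne hchi
  -- adjacency in the wreath product
  have hadj : ∀ p q : V × W, H.Adj p q ↔
      (p.1 = q.1 ∧ G'.Adj p.2 q.2) ∨ (G.Adj p.1 q.1 ∧ (orb G') p.2 q.2) := by
    intro p q
    rw [hH, SimpleGraph.fromRel_adj]
    constructor
    · rintro ⟨_, (h | h) | (h | h)⟩
      · exact Or.inl h
      · exact Or.inr h
      · exact Or.inl ⟨h.1.symm, h.2.symm⟩
      · exact Or.inr ⟨h.1.symm, (orb G').symm h.2⟩
    · rintro (h | h)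
      · exact ⟨fun e => h.2.ne (by rw [e]), Or.inl (Or.inl h)⟩
      · exact ⟨fun e => h.1.ne (by rw [e]), Or.inl (Or.inr h)⟩
  -- the maximum degree of `G` is positive
  have hΔ : 1 ≤ G.maxDegree := by
    obtain ⟨e, he⟩ := hne
    induction e with
    | _ x y =>
      have hxy : G.Adj x y := he
      have h1 : 0 < G.degree x := (G.degree_pos_iff_exists_adj x).2 ⟨y, hxy⟩
      exact h1.trans_le (G.degree_le_maxDegree x)
  -- a colouring of `G`
  obtain ⟨c, hc⟩ : G.maxDegree ∈ {k : ℕ | ∃ c : Sym2 V → Fin k, ∀ e ∈ G.edgeSet,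
      ∀ f ∈ G.edgeSet, e ≠ f → (∃ v, v ∈ e ∧ v ∈ f) → c e ≠ c f} := by
    rw [← hchi]
    apply Nat.sInf_mem
    by_contra hem
    rw [Set.not_nonempty_iff_eq_empty] at hem
    rw [hem, Nat.sInf_empty] at hchi
    omega
  haveI : Nonempty V := by
    obtain ⟨e, he⟩ := hne
    induction e with
    | _ x y => exact ⟨x⟩
  -- membership of the maximum degree
  have hmem : H.maxDegree ∈ {k : ℕ | ∃ c : Sym2 (V × W) → Fin k, ∀ e ∈ H.edgeSet,
      ∀ f ∈ H.edgeSet, e ≠ f → (∃ v, v ∈ e ∧ v ∈ f) → c e ≠ c f} := by
    rcases isEmpty_or_nonempty W with hW | hW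
    · haveI : IsEmpty (Sym2 (V × W)) := by
        constructor
        intro e
        induction e with
        | _ p q => exact hW.elim p.2
      exact ⟨fun e => isEmptyElim e, fun e => isEmptyElim e⟩
    · obtain ⟨x, hx⟩ := G.exists_maximal_degree_vertex
      have hK : ∀ u : W, Finset.card (Finset.univ.filter (fun v => G'.Adj u v)) +
          G.maxDegree * Finset.card (Finset.univ.filter (fun v => (orb G') u v)) ≤
            H.maxDegree := by
        intro u
        refine le_trans (le_of_eq ?_) (H.degree_le_maxDegree (x, u))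
        rw [← SimpleGraph.card_neighborFinset_eq_degree]
        have h1 : H.neighborFinset (x, u) =
            (({x} : Finset V) ×ˢ (Finset.univ.filter (fun v => G'.Adj u v))) ∪
              ((G.neighborFinset x) ×ˢ (Finset.univ.filter (fun v => (orb G') u v))) := by
          ext ⟨y, v⟩
          rw [SimpleGraph.mem_neighborFinset, hadj]
          simp only [Finset.mem_union, Finset.mem_product, Finset.mem_singleton,
            Finset.mem_filter, Finset.mem_univ, true_and, SimpleGraph.mem_neighborFinset]
          constructor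
          · rintro (h | h)
            · exact Or.inl ⟨h.1.symm, h.2⟩
            · exact Or.inr h
          · rintro (h | h)
            · exact Or.inl ⟨h.1.symm, h.2⟩
            · exact Or.inr h
        rw [h1, Finset.card_union_of_disjoint, Finset.card_product, Finset.card_product,
          Finset.card_singleton, one_mul, SimpleGraph.card_neighborFinset_eq_degree, ← hx]
        rw [Finset.disjoint_left]
        rintro ⟨y, v⟩ ha hb
        simp only [Finset.mem_product, Finset.mem_singleton, Finset.mem_filter,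
          Finset.mem_univ, true_and, SimpleGraph.mem_neighborFinset] at ha hb
        exact hb.1.ne ha.1.symm
      have hE : ∀ u v a, (orb G') u v → G'.Adj u a → ∃ b, G'.Adj v b ∧ (orb G') a b := by
        rintro u v a ⟨φ, rfl⟩ h
        exact ⟨φ a, φ.map_adj_iff.2 h, φ, rfl⟩
      obtain ⟨col, k1, k2, k3⟩ := Pool.Agent.Q251.WR.colour (G := G) (H := G') (r := orb G')
        (Δ := G.maxDegree) (K := H.maxDegree) hΔ hK hE (fun x y => (c s(x, y)).val)
        (fun x y _ => (c s(x, y)).2) (fun x y _ => by rw [Sym2.eq_swap])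
        (fun x y z h h' hyz e => by
          refine hc s(x, y) h s(x, z) h' ?_ ⟨x, by simp, by simp⟩ (Fin.ext e)
          intro e'
          rw [Sym2.eq_iff] at e'
          rcases e' with ⟨_, e'⟩ | ⟨e1, e2⟩
          · exact hyz e'
          · exact hyz (by rw [e2, e1])) H hadj
      have hpos : 0 < H.maxDegree := by
        obtain ⟨u⟩ := hW
        have h1 := hK u
        have h2 : 0 < Finset.card (Finset.univ.filter (fun v => (orb G') u v)) :=
          Finset.card_pos.2 ⟨u, by simp only [Finset.mem_filter, Finset.mem_univ, true_and]; exact (orb G').refl u⟩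
        have h3 := Nat.mul_pos hΔ h2
        omega
      have hlt : ∀ e : Sym2 (V × W), (if e ∈ H.edgeSet then
          col (Quot.out e).1 (Quot.out e).2 else 0) < H.maxDegree := by
        intro e
        split_ifs with he
        · apply k1
          have : s((Quot.out e).1, (Quot.out e).2) = e := Quot.out_eq e
          rw [← this] at he
          exact he
        · exact hpos
      refine ⟨fun e => ⟨_, hlt e⟩, ?_⟩
      have hval : ∀ p q, H.Adj p q → (if s(p, q) ∈ H.edgeSet then
          col (Quot.out s(p, q)).1 (Quot.out s(p, q)).2 else 0) = col p q := by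
        intro p q h
        rw [if_pos (show s(p, q) ∈ H.edgeSet from h)]
        have e1 : s((Quot.out s(p, q)).1, (Quot.out s(p, q)).2) = s(p, q) := Quot.out_eq _
        rw [Sym2.eq_iff] at e1
        rcases e1 with ⟨e1, e2⟩ | ⟨e1, e2⟩
        · rw [e1, e2]
        · rw [e1, e2]; exact (k2 p q h).symm
      intro e he f hf hef ⟨p, hp1, hp2⟩ heq
      obtain ⟨q, rfl⟩ := hp1
      obtain ⟨q', rfl⟩ := hp2
      have h1 := congrArg Fin.val heq
      simp only at h1
      rw [hval p q he, hval p q' hf] at h1
      exact k3 p q q' he hf (fun e => hef (by rw [e])) h1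
  apply le_antisymm
  · exact Nat.sInf_le hmem
  · have h := Nat.sInf_mem ⟨_, hmem⟩
    obtain ⟨c', hc'⟩ := h
    exact lower H c' hc'

end Pool.Agent.S09181
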