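import Pool.Statements.S09406
import Pool.Agent.Q239.K9.Draw

set_option autoImplicit false
open Pool Pool.MP_6f60ef_co

namespace Pool.Agent.S09406

open Pool.Agent.Q239.K9 Pool.Agent.Helper770.Straight

/-- The negation of the preceding statement: If G is a complete graph or a complete bipartite graph with an even number of edges, then G has a drawing on two planes with minimum total crossings among all such drawings whose two plane subgraphs are isomorphic. -/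
theorem result :
    ¬ (∀ (V : Type) [Finite V] (G : SimpleGraph V),
      (G = ⊤ ∨ ∃ a b : ℕ, Nonempty (G ≃g completeBipartiteGraph (Fin a) (Fin b))) →
      Even (Set.ncard G.edgeSet) →
      ∃ (c : V → V → Fin 2) (p : Fin 2 → V → ℂ) (γ : Fin 2 → V → V → ℝ → ℂ),
        ((∀ u v : V, G.Adj u v → c u v = c v u) ∧
          (∀ i : Fin 2, Function.Injective (p i)) ∧
          (∀ i : Fin 2, ∀ u v : V, G.Adj u v → c u v = i →
            ContinuousOn (γ i u v) (Set.Icc (0:ℝ) 1) ∧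
            Set.InjOn (γ i u v) (Set.Icc (0:ℝ) 1) ∧
            γ i u v 0 = p i u ∧ γ i u v 1 = p i v ∧
            (∀ t : ℝ, 0 ≤ t → t ≤ 1 → γ i v u t = γ i u v (1 - t)) ∧
            ∀ t : ℝ, 0 < t → t < 1 → ∀ w : V, γ i u v t ≠ p i w) ∧
          Set.Finite {x : Fin 2 × V × V × V × V × ℂ |
            G.Adj x.2.1 x.2.2.1 ∧ G.Adj x.2.2.2.1 x.2.2.2.2.1 ∧
            c x.2.1 x.2.2.1 = x.1 ∧ c x.2.2.2.1 x.2.2.2.2.1 = x.1 ∧
            ¬ (x.2.1 = x.2.2.2.1 ∧ x.2.2.1 = x.2.2.2.2.1) ∧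
            ¬ (x.2.1 = x.2.2.2.2.1 ∧ x.2.2.1 = x.2.2.2.1) ∧
            (∃ t : ℝ, 0 < t ∧ t < 1 ∧ γ x.1 x.2.1 x.2.2.1 t = x.2.2.2.2.2) ∧
            (∃ t : ℝ, 0 < t ∧ t < 1 ∧ γ x.1 x.2.2.2.1 x.2.2.2.2.1 t = x.2.2.2.2.2)}) ∧
        Nonempty (SimpleGraph.fromRel (fun u v => G.Adj u v ∧ c u v = 0) ≃g
          SimpleGraph.fromRel (fun u v => G.Adj u v ∧ c u v = 1)) ∧
        ∀ (c' : V → V → Fin 2) (p' : Fin 2 → V → ℂ) (γ' : Fin 2 → V → V → ℝ → ℂ),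
          ((∀ u v : V, G.Adj u v → c' u v = c' v u) ∧
            (∀ i : Fin 2, Function.Injective (p' i)) ∧
            (∀ i : Fin 2, ∀ u v : V, G.Adj u v → c' u v = i →
              ContinuousOn (γ' i u v) (Set.Icc (0:ℝ) 1) ∧
              Set.InjOn (γ' i u v) (Set.Icc (0:ℝ) 1) ∧
              γ' i u v 0 = p' i u ∧ γ' i u v 1 = p' i v ∧
              (∀ t : ℝ, 0 ≤ t → t ≤ 1 → γ' i v u t = γ' i u v (1 - t)) ∧
              ∀ t : ℝ, 0 < t → t < 1 → ∀ w : V, γ' i u v t ≠ p' i w) ∧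
            Set.Finite {x : Fin 2 × V × V × V × V × ℂ |
              G.Adj x.2.1 x.2.2.1 ∧ G.Adj x.2.2.2.1 x.2.2.2.2.1 ∧
              c' x.2.1 x.2.2.1 = x.1 ∧ c' x.2.2.2.1 x.2.2.2.2.1 = x.1 ∧
              ¬ (x.2.1 = x.2.2.2.1 ∧ x.2.2.1 = x.2.2.2.2.1) ∧
              ¬ (x.2.1 = x.2.2.2.2.1 ∧ x.2.2.1 = x.2.2.2.1) ∧
              (∃ t : ℝ, 0 < t ∧ t < 1 ∧ γ' x.1 x.2.1 x.2.2.1 t = x.2.2.2.2.2) ∧
              (∃ t : ℝ, 0 < t ∧ t < 1 ∧ γ' x.1 x.2.2.2.1 x.2.2.2.2.1 t = x.2.2.2.2.2)}) →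
          Set.ncard {x : Fin 2 × V × V × V × V × ℂ |
              G.Adj x.2.1 x.2.2.1 ∧ G.Adj x.2.2.2.1 x.2.2.2.2.1 ∧
              c x.2.1 x.2.2.1 = x.1 ∧ c x.2.2.2.1 x.2.2.2.2.1 = x.1 ∧
              ¬ (x.2.1 = x.2.2.2.1 ∧ x.2.2.1 = x.2.2.2.2.1) ∧
              ¬ (x.2.1 = x.2.2.2.2.1 ∧ x.2.2.1 = x.2.2.2.1) ∧
              (∃ t : ℝ, 0 < t ∧ t < 1 ∧ γ x.1 x.2.1 x.2.2.1 t = x.2.2.2.2.2) ∧
              (∃ t : ℝ, 0 < t ∧ t < 1 ∧ γ x.1 x.2.2.2.1 x.2.2.2.2.1 t = x.2.2.2.2.2)} ≤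
            Set.ncard {x : Fin 2 × V × V × V × V × ℂ |
              G.Adj x.2.1 x.2.2.1 ∧ G.Adj x.2.2.2.1 x.2.2.2.2.1 ∧
              c' x.2.1 x.2.2.1 = x.1 ∧ c' x.2.2.2.1 x.2.2.2.2.1 = x.1 ∧
              ¬ (x.2.1 = x.2.2.2.1 ∧ x.2.2.1 = x.2.2.2.2.1) ∧
              ¬ (x.2.1 = x.2.2.2.2.1 ∧ x.2.2.1 = x.2.2.2.1) ∧
              (∃ t : ℝ, 0 < t ∧ t < 1 ∧ γ' x.1 x.2.1 x.2.2.1 t = x.2.2.2.2.2) ∧
              (∃ t : ℝ, 0 < t ∧ t < 1 ∧ γ' x.1 x.2.2.2.1 x.2.2.2.2.1 t = x.2.2.2.2.2)}) := by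
  classical
  intro hall
  obtain ⟨c, p, γ, ⟨hsym, hpinj, hγ, hfin⟩, ⟨e⟩, hmin⟩ := hall (Fin 9) ⊤ (Or.inl rfl) (by
    rw [← SimpleGraph.coe_edgeFinset, Set.ncard_coe_finset,
      SimpleGraph.card_edgeFinset_top_eq_card_choose_two, Fintype.card_fin]
    decide)
  -- the explicit drawing with one crossing
  have hsmall := XS_small
  have hle := hmin col PP gam ⟨fun u v _ => col_symm u v, fun i => (PP_genPos i).inj, ?_,
    hsmall.1⟩
  rotate_left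
  · intro i u v huv _
    have hne : PP i u ≠ PP i v := fun h => huv ((PP_genPos i).inj h)
    refine ⟨(seg_cont _ _).continuousOn, fun s _ t _ hst => seg_inj hne hst, seg_zero _ _,
      seg_one _ _, fun t _ _ => seg_comm _ _ _, ?_⟩
    intro t ht0 ht1 w hw
    change seg (PP i u) (PP i v) t = PP i w at hw
    by_cases h1 : w = u
    · have h2 : seg (PP i u) (PP i v) t = seg (PP i u) (PP i v) 0 := by
        rw [hw, seg_zero, h1]
      exact ht0.ne' (seg_inj hne h2)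
    by_cases h3 : w = v
    · have h2 : seg (PP i u) (PP i v) t = seg (PP i u) (PP i v) 1 := by
        rw [hw, seg_one, h3]
      exact ht1.ne (seg_inj hne h2)
    · have h4 : seg (PP i u) (PP i v) t = seg (PP i w) (PP i w) 0 := by rw [hw, seg_zero]
      have h5 := ori_seg h4
      apply (PP_genPos i).gen _ _ w huv h1 h3
      linarith
  have hle8 : (XS c γ).ncard ≤ 8 := le_trans hle hsmall.2
  have hfin' : (XS c γ).Finite := hfin
  have hsym' : ∀ u v : Fin 9, u ≠ v → c u v = c v u := fun u v h => hsym u v h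
  have hrev : ∀ i u v, u ≠ v → c u v = i → ∀ t : ℝ, 0 ≤ t → t ≤ 1 →
      γ i v u t = γ i u v (1 - t) := fun i u v h1 h2 => (hγ i u v h1 h2).2.2.2.2.1
  -- some plane has no crossing of disjoint edges
  obtain ⟨i, hi⟩ : ∃ i : Fin 2, ∀ u v w z : Fin 9, u ≠ v → w ≠ z → c u v = i → c w z = i →
      u ≠ w → u ≠ z → v ≠ w → v ≠ z → ∀ s t : ℝ, 0 < s → s < 1 → 0 < t → t < 1 →
        γ i u v s ≠ γ i w z t := by
    by_contra hcon
    push Not at hcon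
    have := XS_large hsym' hrev hfin' (fun i => by
      obtain ⟨u, v, w, z, h1, h2, h3, h4, h5, h6, h7, h8, s, t, h9, h10, h11, h12, h13⟩ := hcon i
      exact ⟨u, v, w, z, h1, h2, h5, h6, h7, h8, h3, h4, s, t, h9, h10, h11, h12, h13⟩)
    omega
  -- the two plane graphs
  set H0 := SimpleGraph.fromRel (fun u v : Fin 9 => (⊤ : SimpleGraph (Fin 9)).Adj u v ∧ c u v = 0)
    with hH0
  set H1 := SimpleGraph.fromRel (fun u v : Fin 9 => (⊤ : SimpleGraph (Fin 9)).Adj u v ∧ c u v = 1)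
    with hH1
  have adj0 : ∀ u v, H0.Adj u v ↔ u ≠ v ∧ c u v = 0 := by
    intro u v
    rw [hH0, SimpleGraph.fromRel_adj]
    constructor
    · rintro ⟨h1, h2 | h2⟩
      · exact ⟨h1, h2.2⟩
      · exact ⟨h1, (hsym' u v h1).trans h2.2⟩
    · rintro ⟨h1, h2⟩
      exact ⟨h1, Or.inl ⟨h1, h2⟩⟩
  have adj1 : ∀ u v, H1.Adj u v ↔ u ≠ v ∧ c u v = 1 := by
    intro u v
    rw [hH1, SimpleGraph.fromRel_adj]
    constructor
    · rintro ⟨h1, h2 | h2⟩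
      · exact ⟨h1, h2.2⟩
      · exact ⟨h1, (hsym' u v h1).trans h2.2⟩
    · rintro ⟨h1, h2⟩
      exact ⟨h1, Or.inl ⟨h1, h2⟩⟩
  have hcompl : H1 = H0ᶜ := by
    ext u v
    rw [adj1, SimpleGraph.compl_adj, adj0]
    have : ∀ x : Fin 2, x = 1 ↔ ¬ x = 0 := by decide
    rw [this]
    tauto
  have hPl : ∀ H : SimpleGraph (Fin 9), (∀ u v, H.Adj u v ↔ u ≠ v ∧ c u v = i) → Pl H := by
    intro H hH
    refine ⟨p i, γ i, hpinj i, ?_, ?_⟩
    · intro u v huv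
      obtain ⟨h1, h2⟩ := (hH u v).mp huv
      obtain ⟨a1, -, a2, a3, -, a4⟩ := hγ i u v h1 h2
      exact ⟨a1, a2, a3, a4⟩
    · intro u v w z huv hwz h1 h2 h3 h4 s t hs0 hs1 ht0 ht1
      obtain ⟨b1, b2⟩ := (hH u v).mp huv
      obtain ⟨b3, b4⟩ := (hH w z).mp hwz
      exact hi u v w z b1 b3 b2 b4 h1 h2 h3 h4 s t hs0 hs1 ht0 ht1
  have hboth : Pl H0 ∧ Pl H1 := by
    have : i = 0 ∨ i = 1 := by omega
    rcases this with rfl | rfl
    · have := hPl H0 adj0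
      exact ⟨this, this.iso e.symm⟩
    · have := hPl H1 adj1
      exact ⟨this.iso e, this⟩
  refine no_sc H0 e.toEquiv (fun a b hab => ?_) hboth.1 (hcompl ▸ hboth.2)
  have h1 := e.map_rel_iff (a := a) (b := b)
  have hne : e a ≠ e b := fun h => hab (e.injective h)
  have h0 : ∀ x y : Fin 9, x ≠ y → (H1.Adj x y ↔ ¬ H0.Adj x y) := by
    intro x y hxy
    rw [hcompl, SimpleGraph.compl_adj]; tauto
  have h2 : H1.Adj (e a) (e b) ↔ ¬ H0.Adj (e a) (e b) := h0 _ _ hne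
  change H0.Adj (e a) (e b) ↔ _
  tauto

end Pool.Agent.S09406
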