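import Pool.Statements.S09469
import Pool.Agent.Q243.CycSTS

set_option autoImplicit false
open Pool Pool.MP_72c5f4_co

namespace Pool.Agent.S09469

lemma sq_le_two_pow (k : ℕ) (hk : 4 ≤ k) : k * k ≤ 2 ^ k := by
  induction k, hk using Nat.le_induction with
  | base => norm_num
  | succ k hk ih =>
    rw [pow_succ]
    nlinarith

/-- For every M, all sufficiently large n with n ≡ 1 or 3 mod 6 admit at least M pairwise non-isomorphic cyclic Steiner triple systems on Z/nZ, i.e. the number of cyclic STS(n) up to isomorphism tends to infinity. -/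
theorem result :
    ∀ M : ℕ, ∃ N : ℕ, ∀ n : ℕ, N ≤ n → (n % 6 = 1 ∨ n % 6 = 3) →
      ∃ B : Fin M → Finset (Finset (ZMod n)),
        (∀ i, (∀ b ∈ B i, b.card = 3) ∧
          (∀ x y : ZMod n, x ≠ y → ∃! b : Finset (ZMod n), b ∈ B i ∧ x ∈ b ∧ y ∈ b) ∧
          (∀ b ∈ B i, b.image (fun x => x + 1) ∈ B i)) ∧
        (∀ i j, i ≠ j → ¬ ∃ σ : Equiv.Perm (ZMod n),
          ∀ b : Finset (ZMod n), b ∈ B i ↔ b.map σ.toEmbedding ∈ B j) := by
  intro M
  refine ⟨108 + 66 * M, ?_⟩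
  intro n hn hmod
  have hne : NeZero n := ⟨by omega⟩
  obtain ⟨b, hb⟩ := Pool.Agent.Q243.CycSTS.exists_covers n (by omega) hmod
  refine Pool.Agent.Q243.CycSTS.many M n (Pool.Agent.Q243.CycSTS.base n b)
    (Pool.Agent.Q243.CycSTS.base_df n b (by omega) hmod hb) ?_
  have hk : 18 + 11 * M ≤ n / 6 := by omega
  have h1 := sq_le_two_pow (n / 6) (by omega)
  have h2 : n ≤ 6 * (n / 6) + 5 := by omega
  refine le_trans ?_ h1
  calc M * n ≤ M * (6 * (n / 6) + 5) := Nat.mul_le_mul_left _ h2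
    _ ≤ M * (11 * (n / 6)) := Nat.mul_le_mul_left _ (by omega)
    _ = (11 * M) * (n / 6) := by ring
    _ ≤ (n / 6) * (n / 6) := Nat.mul_le_mul_right _ (by omega)

end Pool.Agent.S09469
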