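import Pool.Statements.S09613
import Pool.Agent.Q20.ESQ.Ins

set_option autoImplicit false
open Pool Pool.MP_78b1ee_co

namespace Pool.Agent.S09613

/-- For every N there is a list of distinct rationals of length at least N with no two adjacent order-isomorphic blocks of length at least 2, such that inserting any new value at any position creates such a pair. -/
theorem result :
    ∀ N : ℕ, ∃ w : List ℚ, N ≤ w.length ∧ w.Nodup ∧
      (¬ ∃ i ℓ : ℕ, 2 ≤ ℓ ∧ i + 2 * ℓ ≤ w.length ∧
          ∀ a < ℓ, ∀ b < ℓ,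
            (w.getD (i + a) 0 < w.getD (i + b) 0 ↔
              w.getD (i + ℓ + a) 0 < w.getD (i + ℓ + b) 0)) ∧
      ∀ p : ℕ, p ≤ w.length → ∀ x : ℚ, x ∉ w →
        ∃ i ℓ : ℕ, 2 ≤ ℓ ∧ i + 2 * ℓ ≤ w.length + 1 ∧
          ∀ a < ℓ, ∀ b < ℓ,
            ((w.take p ++ x :: w.drop p).getD (i + a) 0 <
                (w.take p ++ x :: w.drop p).getD (i + b) 0 ↔
              (w.take p ++ x :: w.drop p).getD (i + ℓ + a) 0 <
                (w.take p ++ x :: w.drop p).getD (i + ℓ + b) 0) := by
  intro N
  set B : ℕ := N + 7 with hB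
  have hB7 : 7 ≤ B := by omega
  have h128 := Pool.Agent.Q20.ESQ.pow_ge B hB7
  have hN : N + 11 ≤ 2 ^ B := by
    have h1 : N < 2 ^ N := Nat.lt_two_pow_self
    have h2 : 2 ^ B = 128 * 2 ^ N := by rw [hB, pow_add]; ring
    omega
  set n : ℕ := 2 ^ B - 11 with hn
  set w : List ℚ := (List.range n).map (fun i => (Pool.Agent.Q20.ESQ.f B i : ℚ)) with hw
  have hlen : w.length = n := by simp [hw]
  have hget : ∀ i < n, w.getD i 0 = (Pool.Agent.Q20.ESQ.f B i : ℚ) := by
    intro i hi
    simp [hw, List.getD, hi]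
  refine ⟨w, by omega, ?_, ?_, ?_⟩
  · refine (List.nodup_range (n := n)).map_on ?_
    intro i hi j hj h
    rw [List.mem_range] at hi hj
    exact Pool.Agent.Q20.ESQ.f_inj B i j hB7 hi hj (by exact_mod_cast h)
  · rintro ⟨i, l, hl, hil, h⟩
    rw [hlen] at hil
    refine Pool.Agent.Q20.ESQ.nosq B i l hB7 hl hil ?_
    intro a ha b hb
    have := h a ha b hb
    rw [hget _ (by omega), hget _ (by omega), hget _ (by omega), hget _ (by omega),
      Int.cast_lt, Int.cast_lt] at this
    exact this
  · intro p hp x hx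
    rw [hlen] at hp
    have hx' : ∀ i < 2 ^ B - 11, x ≠ (Pool.Agent.Q20.ESQ.f B i : ℚ) := by
      intro i hi hc
      apply hx
      rw [hw, List.mem_map]
      exact ⟨i, List.mem_range.2 hi, hc.symm⟩
    obtain ⟨i, l, hl, hil, h⟩ := Pool.Agent.Q20.ESQ.ins_all B p x hB7 hp hx'
    refine ⟨i, l, hl, by rw [hlen]; exact hil, ?_⟩
    have hins : ∀ j, j < n + 1 → (w.take p ++ x :: w.drop p).getD j 0 =
        Pool.Agent.Q20.ESQ.ins B p x j := by
      intro j hj
      have htl : (w.take p).length = p := by rw [List.length_take, hlen]; omega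
      unfold Pool.Agent.Q20.ESQ.ins
      rcases lt_trichotomy j p with h1 | h1 | h1
      · rw [if_pos h1, List.getD_append _ _ _ _ (by rw [htl]; exact h1), ← hget j (by omega)]
        simp [List.getD, h1]
      · subst h1
        rw [if_neg (lt_irrefl _), if_pos rfl,
          List.getD_append_right _ _ _ _ (by rw [htl]), htl]
        simp
      · rw [if_neg (by omega), if_neg (by omega),
          List.getD_append_right _ _ _ _ (by rw [htl]; omega), htl, ← hget (j - 1) (by omega)]
        obtain ⟨k, rfl⟩ : ∃ k, j = p + (k + 1) := ⟨j - p - 1, by omega⟩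
        rw [show p + (k + 1) - p = k + 1 by omega, List.getD_cons_succ,
          show p + (k + 1) - 1 = p + k by omega]
        simp [List.getD, List.getElem?_drop]
    intro a ha b hb
    rw [hins _ (by omega), hins _ (by omega), hins _ (by omega), hins _ (by omega)]
    exact h a ha b hb

end Pool.Agent.S09613
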