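import Pool.Statements.S09632
import Pool.Agent.W153.EO.Sep
import Pool.Agent.W153.EO.Count
import Pool.Agent.H430R3.KST

set_option autoImplicit false
open Pool Pool.MP_79efce_co

namespace Pool.Agent.S09632

open Filter Topology Pool.Agent.W153.EO

/-- The numerical estimate: the host graphs have more than `C n (log n)^c` edges. -/
lemma estimate_pow (C : ℝ) (c : ℕ) (b : ℕ) (hb : 1 ≤ b)
    (hlarge : 4 * |C| * (5 * (b : ℝ) ^ 2) ^ c < 2 ^ b) (n : ℕ)
    (hn : n = 2 ^ b * (b * 2 ^ b + 2 ^ b) ^ b + (2 * (b * 2 ^ b)) ^ b) :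
    C * (n : ℝ) * (Real.log (n : ℝ)) ^ c < (((2 * (b * 2 ^ b)) ^ b * 2 ^ b : ℕ) : ℝ) := by
  have hb' : (0 : ℝ) < b := by exact_mod_cast hb
  have hb1 : (1 : ℝ) ≤ b := by exact_mod_cast hb
  set X : ℝ := ((b : ℝ) * 2 ^ b) ^ b with hX
  have hXpos : 0 < X := by positivity
  have h2b : (1 : ℝ) ≤ 2 ^ b := one_le_pow₀ (by norm_num)
  have hnX : (n : ℝ) ≤ 4 * 2 ^ b * X := by
    rw [hn]
    push_cast
    have e1 : ((b : ℝ) * 2 ^ b + 2 ^ b) ^ b = (2 ^ b) ^ b * ((b : ℝ) + 1) ^ b := by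
      rw [← mul_pow]
      congr 1
      ring
    have e2 : (2 * ((b : ℝ) * 2 ^ b)) ^ b = 2 ^ b * X := by
      rw [mul_pow, hX]
    rw [e1, e2]
    have e3 : (2 ^ b) ^ b * ((b : ℝ) + 1) ^ b ≤ 3 * X := by
      calc ((2 : ℝ) ^ b) ^ b * ((b : ℝ) + 1) ^ b ≤ (2 ^ b) ^ b * (3 * (b : ℝ) ^ b) :=
            mul_le_mul_of_nonneg_left (pow_ratio b hb) (by positivity)
        _ = 3 * X := by
            rw [hX, mul_pow]
            ring
    calc (2 : ℝ) ^ b * ((2 ^ b) ^ b * ((b : ℝ) + 1) ^ b) + 2 ^ b * X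
        ≤ 2 ^ b * (3 * X) + 2 ^ b * X := by
          have := mul_le_mul_of_nonneg_left e3 (by positivity : (0 : ℝ) ≤ 2 ^ b)
          linarith
      _ = 4 * 2 ^ b * X := by ring
  have hnpos : 0 < n := by
    rw [hn]
    have : 0 < (2 * (b * 2 ^ b)) ^ b := by positivity
    omega
  have hn1 : (1 : ℝ) ≤ n := by exact_mod_cast hnpos
  have hlog0 : 0 ≤ Real.log n := Real.log_nonneg hn1
  have hlog2 : Real.log 2 ≤ 1 := by
    have := Real.log_two_lt_d9
    linarith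
  have hlog2' : 0 ≤ Real.log 2 := Real.log_nonneg (by norm_num)
  have hlog : Real.log n ≤ 5 * (b : ℝ) ^ 2 := by
    calc Real.log n ≤ Real.log (4 * 2 ^ b * X) := Real.log_le_log (by linarith) hnX
      _ = 2 * Real.log 2 + b * Real.log 2 + b * (Real.log b + b * Real.log 2) := by
          rw [Real.log_mul (by positivity) (by positivity), Real.log_mul (by positivity) (by positivity),
            Real.log_pow, hX, Real.log_pow, Real.log_mul (by positivity) (by positivity), Real.log_pow,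
            show (4 : ℝ) = 2 ^ 2 by norm_num, Real.log_pow]
          push_cast
          ring
      _ ≤ 2 * 1 + b * 1 + b * (b + b * 1) := by
          have h1 := log_nat_le b hb
          have h2 : (b : ℝ) * Real.log 2 ≤ b * 1 := mul_le_mul_of_nonneg_left hlog2 hb'.le
          have h3 : (b : ℝ) * (Real.log b + b * Real.log 2) ≤ b * (b + b * 1) :=
            mul_le_mul_of_nonneg_left (by linarith) hb'.le
          linarith
      _ ≤ 5 * (b : ℝ) ^ 2 := by nlinarith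
  have hlogc : (Real.log n) ^ c ≤ (5 * (b : ℝ) ^ 2) ^ c := pow_le_pow_left₀ hlog0 hlog c
  have hlogc0 : 0 ≤ (Real.log n) ^ c := pow_nonneg hlog0 c
  have hE : (((2 * (b * 2 ^ b)) ^ b * 2 ^ b : ℕ) : ℝ) = 2 ^ b * (2 ^ b * X) := by
    push_cast
    rw [mul_pow, hX]
    ring
  rw [hE]
  calc C * (n : ℝ) * (Real.log n) ^ c ≤ |C| * n * (Real.log n) ^ c := by
        apply mul_le_mul_of_nonneg_right _ hlogc0
        exact mul_le_mul_of_nonneg_right (le_abs_self C) (by positivity)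
    _ ≤ |C| * (4 * 2 ^ b * X) * (5 * (b : ℝ) ^ 2) ^ c := by
        apply mul_le_mul _ hlogc hlogc0 (by positivity)
        exact mul_le_mul_of_nonneg_left hnX (abs_nonneg C)
    _ = (4 * |C| * (5 * (b : ℝ) ^ 2) ^ c) * (2 ^ b * X) := by ring
    _ < 2 ^ b * (2 ^ b * X) := by
        apply mul_lt_mul_of_pos_right hlarge (by positivity)

lemma exists_b_pow (C : ℝ) (c : ℕ) : ∃ b : ℕ, 1 ≤ b ∧ 4 * |C| * (5 * (b : ℝ) ^ 2) ^ c < 2 ^ b := by
  have h1 : Tendsto (fun b : ℕ => (b : ℝ) ^ (2 * c) / 2 ^ b) atTop (𝓝 0) :=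
    tendsto_pow_const_div_const_pow_of_one_lt (2 * c) (by norm_num)
  have h2 := h1.const_mul (4 * |C| * 5 ^ c)
  rw [mul_zero] at h2
  have h3 : ∀ᶠ b : ℕ in atTop, 4 * |C| * 5 ^ c * ((b : ℝ) ^ (2 * c) / 2 ^ b) < 1 :=
    h2.eventually_lt_const (by norm_num)
  obtain ⟨b, hb⟩ := (h3.and (eventually_ge_atTop 1)).exists
  refine ⟨b, hb.2, ?_⟩
  have h4 := hb.1
  rw [← mul_div_assoc, div_lt_one (by positivity)] at h4
  calc 4 * |C| * (5 * (b : ℝ) ^ 2) ^ c = 4 * |C| * 5 ^ c * (b : ℝ) ^ (2 * c) := by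
        rw [mul_pow, ← pow_mul]
        ring
    _ < 2 ^ b := h4

/-- For every `c` and `C` there is a pattern-free edge-ordered graph with more than `C n (log n)^c` edges. -/
theorem lower_pow (C : ℝ) (c : ℕ) : ∃ n : ℕ, 2 ≤ n ∧ ∃ G : SimpleGraph (Fin n), ∃ g : Sym2 (Fin n) → ℕ,
    Set.InjOn g G.edgeSet ∧ ¬ Cont G g ∧ C * (n : ℝ) * (Real.log (n : ℝ)) ^ c < (G.edgeSet.ncard : ℝ) := by
  obtain ⟨b, hb1, hb⟩ := exists_b_pow C c
  obtain ⟨G, g, hg, hC, hcard⟩ := transport (host b (2 ^ b) (b * 2 ^ b)) (ord b (2 ^ b) (b * 2 ^ b))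
    (ord_injOn _ _ _) (host_avoids _ _ _)
  have hn := host_card b (2 ^ b) (b * 2 ^ b)
  refine ⟨_, ?_, G, g, hg, hC, ?_⟩
  · rw [hn]
    have h1 : b < 2 ^ b := Nat.lt_two_pow_self
    have h2 : 2 ^ b ≤ (2 * (b * 2 ^ b)) ^ b := by
      apply Nat.pow_le_pow_left
      have : 1 ≤ b * 2 ^ b := Nat.one_le_iff_ne_zero.mpr (by positivity)
      omega
    omega
  · refine lt_of_lt_of_le (estimate_pow C c b hb1 hb _ hn) ?_
    rw [hcard]
    exact_mod_cast host_edges b (2 ^ b) (b * 2 ^ b)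

/-- An edge-ordered graph containing a large complete bipartite graph contains the pattern. -/
lemma cont_of_rect {n N K s : ℕ}
    (hNK : ∀ g : Sym2 (Fin N ⊕ Fin K) → ℕ,
      Set.InjOn g (completeBipartiteGraph (Fin N) (Fin K)).edgeSet →
      Cont (completeBipartiteGraph (Fin N) (Fin K)) g) (hN : N ≤ s) (hK : K ≤ s)
    (G : SimpleGraph (Fin n)) (M : Sym2 (Fin n) → ℕ) (hM : Set.InjOn M G.edgeSet)
    (X Y : Finset (Fin n)) (hX : X.card = s) (hY : Y.card = s)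
    (hXY : ∀ x ∈ X, ∀ y ∈ Y, G.Adj x y) : Cont G M := by
  classical
  obtain ⟨X', hX', hX'c⟩ := Finset.exists_subset_card_eq (hX.symm ▸ hN : N ≤ X.card)
  obtain ⟨Y', hY', hY'c⟩ := Finset.exists_subset_card_eq (hY.symm ▸ hK : K ≤ Y.card)
  let eX := X'.equivFinOfCardEq hX'c
  let eY := Y'.equivFinOfCardEq hY'c
  let ψ : Fin N ⊕ Fin K → Fin n := Sum.elim (fun i => (eX.symm i : Fin n)) (fun j => (eY.symm j : Fin n))
  have hψadj : ∀ u v, (completeBipartiteGraph (Fin N) (Fin K)).Adj u v → G.Adj (ψ u) (ψ v) := by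
    intro u v huv
    rcases u with i | i <;> rcases v with j | j
    · simp at huv
    · exact hXY _ (hX' (eX.symm i).2) _ (hY' (eY.symm j).2)
    · exact (hXY _ (hX' (eX.symm j).2) _ (hY' (eY.symm i).2)).symm
    · simp at huv
  have hψinj : Function.Injective ψ := by
    intro u v huv
    rcases u with i | i <;> rcases v with j | j
    · have : eX.symm i = eX.symm j := Subtype.ext huv
      rw [eX.symm.injective this]
    · exfalso
      have h1 := hXY _ (hX' (eX.symm i).2) _ (hY' (eY.symm j).2)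
      exact h1.ne huv
    · exfalso
      have h1 := hXY _ (hX' (eX.symm j).2) _ (hY' (eY.symm i).2)
      exact h1.ne huv.symm
    · have : eY.symm i = eY.symm j := Subtype.ext huv
      rw [eY.symm.injective this]
  have hinj : Set.InjOn (fun e => M (Sym2.map ψ e)) (completeBipartiteGraph (Fin N) (Fin K)).edgeSet := by
    intro x hx y hy hxy
    have hx' : x.map ψ ∈ G.edgeSet := by
      induction x using Sym2.ind with
      | _ a b => exact hψadj a b hx
    have hy' : y.map ψ ∈ G.edgeSet := by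
      induction y using Sym2.ind with
      | _ a b => exact hψadj a b hy
    exact Sym2.map.injective hψinj (hM hx' hy' hxy)
  obtain ⟨φ, h1, h2, h3⟩ := hNK _ hinj
  refine ⟨ψ ∘ φ, hψinj.comp h1, fun u v huv => hψadj _ _ (h2 u v huv), ?_⟩
  intro e₁ he₁ e₂ he₂ hlt
  have := h3 e₁ he₁ e₂ he₂ hlt
  simpa only [Sym2.map_map] using this

/-- Dense edge-ordered graphs contain the pattern. -/
theorem dense_cont (ε : ℝ) (hε : 0 < ε) : ∃ N : ℕ, ∀ n : ℕ, N ≤ n →
    ∀ (G : SimpleGraph (Fin n)) (M : Sym2 (Fin n) → ℕ), Set.InjOn M G.edgeSet → ¬ Cont G M →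
      (G.edgeSet.ncard : ℝ) ≤ ε * (n : ℝ) ^ 2 := by
  classical
  obtain ⟨N, K, hNK⟩ := exists_host
  obtain ⟨q, hq⟩ := exists_nat_gt (1 / (2 * ε))
  have hq0 : 0 < q := by
    have : (0 : ℝ) < q := lt_trans (by positivity) hq
    exact_mod_cast this
  obtain ⟨R0, hR0⟩ := Pool.Agent.H430R3.weak_kst (N + K + 1) q (by omega) hq0
  refine ⟨R0, ?_⟩
  intro n hn G M hM hC
  by_contra hcon
  push Not at hcon
  apply hC
  have hsum : (∑ x : Fin n, (Finset.univ.filter fun y => G.Adj x y).card) = 2 * G.edgeSet.ncard := by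
    have h1 := G.sum_degrees_eq_twice_card_edges
    rw [← SimpleGraph.coe_edgeFinset, Set.ncard_coe_finset, ← h1]
    refine Finset.sum_congr rfl fun x _ => ?_
    rw [← SimpleGraph.card_neighborFinset_eq_degree, SimpleGraph.neighborFinset_eq_filter]
  have hbig : n * n < q * ∑ x ∈ (Finset.univ : Finset (Fin n)),
      ((Finset.univ : Finset (Fin n)).filter fun y => G.Adj x y).card := by
    rw [hsum]
    have h2 : (1 : ℝ) < q * (2 * ε) := by
      rwa [div_lt_iff₀ (by positivity)] at hq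
    have hn0 : (0 : ℝ) ≤ (n : ℝ) ^ 2 := by positivity
    have h3 : ((n * n : ℕ) : ℝ) < ((q * (2 * G.edgeSet.ncard) : ℕ) : ℝ) := by
      push_cast
      have hq' : (0 : ℝ) < q := by exact_mod_cast hq0
      calc (n : ℝ) * n = 1 * (n : ℝ) ^ 2 := by ring
        _ ≤ (q * (2 * ε)) * (n : ℝ) ^ 2 := mul_le_mul_of_nonneg_right h2.le hn0
        _ = q * (2 * (ε * (n : ℝ) ^ 2)) := by ring
        _ < q * (2 * (G.edgeSet.ncard : ℝ)) := by
            apply mul_lt_mul_of_pos_left _ hq'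
            linarith
    exact_mod_cast h3
  obtain ⟨X, -, Y, -, hX, hY, hXY⟩ := hR0 Finset.univ Finset.univ G.Adj n hn (by simp) (by simp) hbig
  exact cont_of_rect hNK (s := N + K + 1) (by omega) (by omega) G M hM X Y hX hY hXY

lemma cont_iff_emb {n : ℕ} (G : SimpleGraph (Fin n)) (M : Sym2 (Fin n) → ℕ) :
    Cont G M ↔ ∃ φ : Fin 7 ↪ Fin n, (∀ a b, pat.Adj a b → G.Adj (φ a) (φ b)) ∧
      ∀ e ∈ pat.edgeSet, ∀ f ∈ pat.edgeSet, lab e < lab f →
        M (Sym2.map (⇑φ) e) < M (Sym2.map (⇑φ) f) := by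
  constructor
  · rintro ⟨φ, h1, h2, h3⟩
    exact ⟨⟨φ, h1⟩, h2, h3⟩
  · rintro ⟨φ, h2, h3⟩
    exact ⟨φ, φ.injective, h2, h3⟩

/-- The negation of the preceding statement: Assume F is an edge-ordered forest whose F-free edge-ordered graphs on n vertices have o(n^2) edges, which is equivalent to order chromatic number 2. Then such graphs have at most C·n·(log n)^c edges for some constants c and C. -/
theorem result :
    ¬ (∀ (k : ℕ) (F : SimpleGraph (Fin k)) (L : Sym2 (Fin k) → ℕ),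
      F.IsAcyclic → Set.InjOn L F.edgeSet →
      (∀ ε : ℝ, 0 < ε → ∃ N : ℕ, ∀ n : ℕ, N ≤ n →
        ∀ (G : SimpleGraph (Fin n)) (M : Sym2 (Fin n) → ℕ), Set.InjOn M G.edgeSet →
          (¬ ∃ φ : Fin k ↪ Fin n, (∀ a b, F.Adj a b → G.Adj (φ a) (φ b)) ∧
              ∀ e ∈ F.edgeSet, ∀ f ∈ F.edgeSet, L e < L f →
                M (Sym2.map (⇑φ) e) < M (Sym2.map (⇑φ) f)) →
          (G.edgeSet.ncard : ℝ) ≤ ε * (n : ℝ) ^ 2) →
      ∃ (c : ℕ) (C : ℝ), ∀ n : ℕ, 2 ≤ n →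
        ∀ (G : SimpleGraph (Fin n)) (M : Sym2 (Fin n) → ℕ), Set.InjOn M G.edgeSet →
          (¬ ∃ φ : Fin k ↪ Fin n, (∀ a b, F.Adj a b → G.Adj (φ a) (φ b)) ∧
              ∀ e ∈ F.edgeSet, ∀ f ∈ F.edgeSet, L e < L f →
                M (Sym2.map (⇑φ) e) < M (Sym2.map (⇑φ) f)) →
          (G.edgeSet.ncard : ℝ) ≤ C * (n : ℝ) * (Real.log (n : ℝ)) ^ c) := by
  intro H
  obtain ⟨c, C, hcC⟩ := H 7 pat lab pat_acyclic lab_injOn (by
    intro ε hε
    obtain ⟨N, hN⟩ := dense_cont ε hε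
    refine ⟨N, fun n hn G M hM hno => hN n hn G M hM ?_⟩
    rw [cont_iff_emb]
    exact hno)
  obtain ⟨n, hn, G, g, hg, hC, hlt⟩ := lower_pow C c
  have := hcC n hn G g hg (by rw [← cont_iff_emb]; exact hC)
  linarith

end Pool.Agent.S09632
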