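import Pool.Statements.S09798

set_option autoImplicit false
open Pool Pool.MP_82152b_co

namespace Pool.Agent.S09798

/-- the five vertex graph with edges 02,03,04,12,13,14,23 -/
def adjB : Fin 5 → Fin 5 → Bool
  | 0, 2 => true | 0, 3 => true | 0, 4 => true
  | 1, 2 => true | 1, 3 => true | 1, 4 => true
  | 2, 0 => true | 3, 0 => true | 4, 0 => true
  | 2, 1 => true | 3, 1 => true | 4, 1 => true
  | 2, 3 => true | 3, 2 => true
  | _, _ => false

/-- the graph -/
def H : SimpleGraph (Fin 5) where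
  Adj a b := adjB a b = true
  symm := ⟨by decide⟩
  loopless := ⟨by decide⟩

instance : DecidableRel H.Adj := fun a b => inferInstanceAs (Decidable (adjB a b = true))

/-- 2-degenerate -/
def Dg {V : Type} (G : SimpleGraph V) : Prop :=
  ∀ S : Finset V, S.Nonempty → ∃ v ∈ S, {w : V | w ∈ S ∧ G.Adj v w}.ncard ≤ 2

open Classical in
theorem ncard_filter {V : Type} (G : SimpleGraph V) (S : Finset V) (v : V) :
    {w : V | w ∈ S ∧ G.Adj v w}.ncard = (S.filter (fun w => G.Adj v w)).card := by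
  have : {w : V | w ∈ S ∧ G.Adj v w} = ((S.filter (fun w => G.Adj v w) : Finset V) : Set V) := by
    ext w; simp
  rw [this, Set.ncard_coe_finset]

theorem H_dg : Dg H := by
  have key : ∀ S : Finset (Fin 5), S.Nonempty → ∃ v ∈ S, (S.filter (fun w => H.Adj v w)).card ≤ 2 := by
    decide
  intro S hS
  obtain ⟨v, hv, h⟩ := key S hS
  refine ⟨v, hv, ?_⟩
  rw [ncard_filter]
  convert h

theorem deg3 : ∀ u : Fin 5, u ≠ 4 → 3 ≤ (Finset.univ.filter (fun w => H.Adj u w)).card := by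
  decide

/-- homs landing in `S` -/
def E {n : ℕ} (G : SimpleGraph (Fin n)) (S : Finset (Fin n)) : Set (Fin 5 ↪ Fin n) :=
  {φ | (∀ u v, H.Adj u v → G.Adj (φ u) (φ v)) ∧ ∀ u, φ u ∈ S}

open Classical in
theorem step {n : ℕ} (G : SimpleGraph (Fin n)) (hG : Dg G) (S : Finset (Fin n)) (v : Fin n)
    (_hv : v ∈ S) (hN : (S.filter (fun w => G.Adj v w)).card ≤ 2) :
    {φ | φ ∈ E G S ∧ ∃ u, φ u = v}.ncard ≤ 16 := by
  set N := S.filter (fun w => G.Adj v w) with hNdef
  set W := S.filter (fun w => (∀ x ∈ N, G.Adj w x) ∧ ∃ w' ∈ S, G.Adj w w' ∧ ∀ x ∈ N, G.Adj w' x)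
    with hWdef
  -- structure of the members
  have hmem : ∀ φ ∈ {φ | φ ∈ E G S ∧ ∃ u, φ u = v}, φ 4 = v ∧ N = {φ 0, φ 1} := by
    rintro φ ⟨⟨h1, h2⟩, u, hu⟩
    have hu4 : u = 4 := by
      by_contra hne
      have h3 := deg3 u hne
      have hsub : (Finset.univ.filter (fun w => H.Adj u w)).map φ ⊆ N := by
        intro x hx
        rw [Finset.mem_map] at hx
        obtain ⟨w, hw, rfl⟩ := hx
        rw [Finset.mem_filter] at hw
        rw [hNdef, Finset.mem_filter]
        refine ⟨h2 w, ?_⟩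
        rw [← hu]
        exact h1 u w hw.2
      have := Finset.card_le_card hsub
      rw [Finset.card_map] at this
      omega
    subst hu4
    refine ⟨hu, ?_⟩
    have h01 : ({φ 0, φ 1} : Finset (Fin n)) ⊆ N := by
      intro x hx
      rw [Finset.mem_insert, Finset.mem_singleton] at hx
      rw [hNdef, Finset.mem_filter]
      rcases hx with rfl | rfl
      · exact ⟨h2 0, by rw [← hu]; exact h1 4 0 (by decide)⟩
      · exact ⟨h2 1, by rw [← hu]; exact h1 4 1 (by decide)⟩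
    have hc : ({φ 0, φ 1} : Finset (Fin n)).card = 2 := by
      rw [Finset.card_pair]
      intro h
      exact absurd (φ.injective h) (by decide)
    exact (Finset.eq_of_subset_of_card_le h01 (by omega)).symm
  by_cases hne : {φ | φ ∈ E G S ∧ ∃ u, φ u = v}.Nonempty
  swap
  · rw [Set.not_nonempty_iff_eq_empty] at hne
    rw [hne, Set.ncard_empty]; omega
  obtain ⟨φ₀, hφ₀⟩ := hne
  have hNcard : N.card = 2 := by
    obtain ⟨_, h⟩ := hmem φ₀ hφ₀
    rw [h, Finset.card_pair]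
    intro h
    exact absurd (φ₀.injective h) (by decide)
  have hW : W.card ≤ 2 := by
    by_contra hlt
    push Not at hlt
    have hWne : (W ∪ N).Nonempty := by
      have : W.Nonempty := Finset.card_pos.mp (by omega)
      exact this.mono Finset.subset_union_left
    obtain ⟨z, hz, hz2⟩ := hG (W ∪ N) hWne
    rw [ncard_filter] at hz2
    rw [Finset.mem_union] at hz
    rcases hz with hz | hz
    · have hz' := hz
      rw [hWdef, Finset.mem_filter] at hz'
      obtain ⟨hzS, hzN, w', hw'S, hzw', hw'N⟩ := hz'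
      have hw'W : w' ∈ W := by
        rw [hWdef, Finset.mem_filter]
        exact ⟨hw'S, hw'N, z, hzS, hzw'.symm, hzN⟩
      have hw'notN : w' ∉ N := by
        intro h
        exact (G.loopless.irrefl w') (hw'N w' h)
      have hsub : insert w' N ⊆ (W ∪ N).filter (fun w => G.Adj z w) := by
        intro x hx
        rw [Finset.mem_insert] at hx
        rw [Finset.mem_filter, Finset.mem_union]
        rcases hx with rfl | hx
        · exact ⟨Or.inl hw'W, hzw'⟩
        · exact ⟨Or.inr hx, hzN x hx⟩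
      have := Finset.card_le_card hsub
      rw [Finset.card_insert_of_notMem hw'notN] at this
      omega
    · have hsub : W ⊆ (W ∪ N).filter (fun w => G.Adj z w) := by
        intro x hx
        rw [Finset.mem_filter, Finset.mem_union]
        refine ⟨Or.inl hx, ?_⟩
        rw [hWdef, Finset.mem_filter] at hx
        exact (hx.2.1 z hz).symm
      have := Finset.card_le_card hsub
      omega
  -- the injection
  let F : (Fin 5 ↪ Fin n) → (Fin n × Fin n) × (Fin n × Fin n) := fun φ => ((φ 0, φ 1), (φ 2, φ 3))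
  have hmaps : ∀ φ ∈ {φ | φ ∈ E G S ∧ ∃ u, φ u = v}, F φ ∈ (((N ×ˢ N) ×ˢ (W ×ˢ W) :
      Finset ((Fin n × Fin n) × (Fin n × Fin n))) : Set ((Fin n × Fin n) × (Fin n × Fin n))) := by
    intro φ hφ
    obtain ⟨h4, hNe⟩ := hmem φ hφ
    obtain ⟨⟨h1, h2⟩, _⟩ := hφ
    rw [Finset.mem_coe, Finset.mem_product, Finset.mem_product, Finset.mem_product]
    refine ⟨⟨?_, ?_⟩, ?_, ?_⟩
    · change φ 0 ∈ N
      rw [hNe]; simp
    · change φ 1 ∈ N
      rw [hNe]; simp
    · change φ 2 ∈ W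
      rw [hWdef, Finset.mem_filter]
      refine ⟨h2 2, ?_, φ 3, h2 3, h1 2 3 (by decide), ?_⟩
      · intro x hx
        rw [hNe, Finset.mem_insert, Finset.mem_singleton] at hx
        rcases hx with rfl | rfl
        · exact h1 2 0 (by decide)
        · exact h1 2 1 (by decide)
      · intro x hx
        rw [hNe, Finset.mem_insert, Finset.mem_singleton] at hx
        rcases hx with rfl | rfl
        · exact h1 3 0 (by decide)
        · exact h1 3 1 (by decide)
    · change φ 3 ∈ W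
      rw [hWdef, Finset.mem_filter]
      refine ⟨h2 3, ?_, φ 2, h2 2, h1 3 2 (by decide), ?_⟩
      · intro x hx
        rw [hNe, Finset.mem_insert, Finset.mem_singleton] at hx
        rcases hx with rfl | rfl
        · exact h1 3 0 (by decide)
        · exact h1 3 1 (by decide)
      · intro x hx
        rw [hNe, Finset.mem_insert, Finset.mem_singleton] at hx
        rcases hx with rfl | rfl
        · exact h1 2 0 (by decide)
        · exact h1 2 1 (by decide)
  have hinj : Set.InjOn F {φ | φ ∈ E G S ∧ ∃ u, φ u = v} := by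
    intro φ hφ ψ hψ h
    obtain ⟨h4, _⟩ := hmem φ hφ
    obtain ⟨h4', _⟩ := hmem ψ hψ
    have e0 : φ 0 = ψ 0 := congrArg (fun t => t.1.1) h
    have e1 : φ 1 = ψ 1 := congrArg (fun t => t.1.2) h
    have e2 : φ 2 = ψ 2 := congrArg (fun t => t.2.1) h
    have e3 : φ 3 = ψ 3 := congrArg (fun t => t.2.2) h
    have e4 : φ 4 = ψ 4 := by rw [h4, h4']
    ext u
    fin_cases u
    · exact congrArg _ e0
    · exact congrArg _ e1
    · exact congrArg _ e2
    · exact congrArg _ e3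
    · exact congrArg _ e4
  have := Set.ncard_le_ncard_of_injOn F hmaps hinj (Finset.finite_toSet _)
  rw [Set.ncard_coe_finset, Finset.card_product, Finset.card_product, Finset.card_product] at this
  refine this.trans ?_
  rw [hNcard]
  calc 2 * 2 * (W.card * W.card) ≤ 2 * 2 * (2 * 2) := by gcongr
    _ = 16 := by norm_num

theorem count {n : ℕ} (G : SimpleGraph (Fin n)) (hG : Dg G) :
    ∀ (m : ℕ) (S : Finset (Fin n)), S.card = m → (E G S).ncard ≤ 16 * m := by
  classical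
  intro m
  induction m with
  | zero =>
    intro S hS
    have : E G S = ∅ := by
      rw [Set.eq_empty_iff_forall_notMem]
      rintro φ ⟨_, h⟩
      have := h 0
      rw [Finset.card_eq_zero.mp hS] at this
      exact absurd this (Finset.notMem_empty _)
    rw [this, Set.ncard_empty]
  | succ m ih =>
    intro S hS
    have hSne : S.Nonempty := Finset.card_pos.mp (by omega)
    obtain ⟨v, hv, hvN⟩ := hG S hSne
    rw [ncard_filter] at hvN
    have hstep := step G hG S v hv hvN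
    have hih := ih (S.erase v) (by rw [Finset.card_erase_of_mem hv]; omega)
    have hsub : E G S ⊆ E G (S.erase v) ∪ {φ | φ ∈ E G S ∧ ∃ u, φ u = v} := by
      intro φ hφ
      by_cases h : ∃ u, φ u = v
      · exact Or.inr ⟨hφ, h⟩
      · left
        refine ⟨hφ.1, fun u => ?_⟩
        rw [Finset.mem_erase]
        exact ⟨fun hu => h ⟨u, hu⟩, hφ.2 u⟩
    calc (E G S).ncard ≤ (E G (S.erase v) ∪ {φ | φ ∈ E G S ∧ ∃ u, φ u = v}).ncard :=
          Set.ncard_le_ncard hsub (Set.toFinite _)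
      _ ≤ (E G (S.erase v)).ncard + {φ | φ ∈ E G S ∧ ∃ u, φ u = v}.ncard := Set.ncard_union_le _ _
      _ ≤ 16 * m + 16 := by omega
      _ = 16 * (m + 1) := by ring

/-- `A` : the star at the vertex 4 -/
def SA : H.Subgraph where
  verts := {0, 1, 4}
  Adj a b := H.Adj a b ∧ (a = 4 ∨ b = 4)
  adj_sub h := h.1
  edge_vert := by
    intro v w h
    have : ∀ v w : Fin 5, H.Adj v w ∧ (v = 4 ∨ w = 4) → v = 0 ∨ v = 1 ∨ v = 4 := by decide
    exact this v w h
  symm := ⟨fun a b h => ⟨h.1.symm, h.2.symm⟩⟩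

/-- `B` : the rest -/
def SB : H.Subgraph where
  verts := {0, 1, 2, 3}
  Adj a b := H.Adj a b ∧ a ≠ 4 ∧ b ≠ 4
  adj_sub h := h.1
  edge_vert := by
    intro v w h
    have : ∀ v w : Fin 5, H.Adj v w ∧ v ≠ 4 ∧ w ≠ 4 → v = 0 ∨ v = 1 ∨ v = 2 ∨ v = 3 := by decide
    exact this v w h
  symm := ⟨fun a b h => ⟨h.1.symm, h.2.2, h.2.1⟩⟩

theorem sup_eq : SA ⊔ SB = ⊤ := by
  ext a b
  · simp only [SimpleGraph.Subgraph.verts_sup, SimpleGraph.Subgraph.verts_top, Set.mem_univ, iff_true]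
    change a ∈ ({0, 1, 4} ∪ {0, 1, 2, 3} : Set (Fin 5))
    have : ∀ a : Fin 5, (a = 0 ∨ a = 1 ∨ a = 4) ∨ (a = 0 ∨ a = 1 ∨ a = 2 ∨ a = 3) := by decide
    exact this a
  · rw [SimpleGraph.Subgraph.sup_adj, SimpleGraph.Subgraph.top_adj]
    change (H.Adj a b ∧ (a = 4 ∨ b = 4)) ∨ (H.Adj a b ∧ a ≠ 4 ∧ b ≠ 4) ↔ H.Adj a b
    tauto

theorem sup_eq' : SB ⊔ SA = ⊤ := by rw [sup_comm]; exact sup_eq

theorem disj : ∀ u v, SA.Adj u v → ¬ SB.Adj u v := by
  rintro u v ⟨_, h⟩ ⟨_, h2, h3⟩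
  tauto

theorem disj' : ∀ u v, SB.Adj u v → ¬ SA.Adj u v := fun u v h h' => disj u v h' h

theorem four_mem : (4 : Fin 5) ∈ SA.verts ∧ (4 : Fin 5) ∉ SB.verts := by
  constructor
  · change (4 : Fin 5) ∈ ({0, 1, 4} : Set (Fin 5))
    simp
  · change (4 : Fin 5) ∉ ({0, 1, 2, 3} : Set (Fin 5))
    simp only [Set.mem_insert_iff, Set.mem_singleton_iff]
    decide

theorem two_mem : (2 : Fin 5) ∈ SB.verts ∧ (2 : Fin 5) ∉ SA.verts := by
  constructor
  · change (2 : Fin 5) ∈ ({0, 1, 2, 3} : Set (Fin 5))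
    simp
  · change (2 : Fin 5) ∉ ({0, 1, 4} : Set (Fin 5))
    simp only [Set.mem_insert_iff, Set.mem_singleton_iff]
    decide

theorem inter_card : (SA.verts ∩ SB.verts).ncard ≤ 2 := by
  have : SA.verts ∩ SB.verts ⊆ (({0, 1} : Finset (Fin 5)) : Set (Fin 5)) := by
    intro a ha
    have h1 : a ∈ ({0, 1, 4} : Set (Fin 5)) := ha.1
    have h2 : a ∈ ({0, 1, 2, 3} : Set (Fin 5)) := ha.2
    simp only [Set.mem_insert_iff, Set.mem_singleton_iff] at h1 h2
    have : ∀ a : Fin 5, (a = 0 ∨ a = 1 ∨ a = 4) → (a = 0 ∨ a = 1 ∨ a = 2 ∨ a = 3) → (a = 0 ∨ a = 1) := by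
      decide
    simpa using this a h1 h2
  refine (Set.ncard_le_ncard this (Finset.finite_toSet _)).trans ?_
  rw [Set.ncard_coe_finset]
  decide

theorem inter_card' : (SB.verts ∩ SA.verts).ncard ≤ 2 := by
  rw [Set.inter_comm]; exact inter_card

/-- the set of sizes of families of independent separations -/
def Fam : Set ℕ := {m : ℕ | ∃ A B : Fin m → H.Subgraph,
            (∀ i, A i ⊔ B i = ⊤ ∧ (∀ u v, (A i).Adj u v → ¬ (B i).Adj u v) ∧
              (∃ v, v ∈ (A i).verts ∧ v ∉ (B i).verts) ∧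
              (∃ v, v ∈ (B i).verts ∧ v ∉ (A i).verts) ∧
              ((A i).verts ∩ (B i).verts).ncard ≤ 2) ∧
            ∀ i j, i ≠ j →
              (∀ u v, (A i).Adj u v → ¬ (A j).Adj u v) ∧
              ∀ v, v ∈ (A i).verts → v ∉ (B i).verts → ¬ (v ∈ (A j).verts ∧ v ∉ (B j).verts)}

theorem two_fam : 2 ∈ Fam := by
  refine ⟨![SA, SB], ![SB, SA], ?_, ?_⟩
  · intro i
    fin_cases i
    · exact ⟨sup_eq, disj, ⟨4, four_mem⟩, ⟨2, two_mem⟩, inter_card⟩
    · exact ⟨sup_eq', disj', ⟨2, two_mem⟩, ⟨4, four_mem⟩, inter_card'⟩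
  · intro i j hij
    fin_cases i <;> fin_cases j
    · exact absurd rfl hij
    · exact ⟨disj, fun v h1 h2 h3 => h2 h3.1⟩
    · exact ⟨disj', fun v h1 h2 h3 => h2 h3.1⟩
    · exact absurd rfl hij

theorem fam_bdd : ∀ m ∈ Fam, m ≤ 5 := by
  rintro m ⟨A, B, h1, h2⟩
  have hch : ∀ i, ∃ v, v ∈ (A i).verts ∧ v ∉ (B i).verts := fun i => (h1 i).2.2.1
  choose g hg using hch
  have hinj : Function.Injective g := by
    intro i j hij
    by_contra hne
    have := (h2 i j hne).2 (g i) (hg i).1 (hg i).2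
    rw [hij] at this
    exact this (hg j)
  simpa using Fintype.card_le_of_injective g hinj

theorem exists_greatest : ∃ f, 2 ≤ f ∧ IsGreatest Fam f := by
  have hb : BddAbove Fam := ⟨5, fun m hm => fam_bdd m hm⟩
  exact ⟨sSup Fam, le_csSup hb two_fam, Nat.sSup_mem ⟨2, two_fam⟩ hb, fun m hm => le_csSup hb hm⟩

/-- The negation of the preceding statement: For every k and every nonempty k-degenerate graph H with flap number f (1 if H has no (≤k)-separation, else the max number of pairwise independent ones), the max number of copies of H in an n-vertex k-degenerate graph is Θ(n^f). -/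
theorem result :
    ¬ (∀ (k : ℕ) (V : Type) [Fintype V] [Nonempty V] (H : SimpleGraph V),
    (∀ S : Finset V, S.Nonempty → ∃ v ∈ S, {w : V | w ∈ S ∧ H.Adj v w}.ncard ≤ k) →
    ∀ f : ℕ,
      (((¬ ∃ A B : H.Subgraph, A ⊔ B = ⊤ ∧ (∀ u v, A.Adj u v → ¬ B.Adj u v) ∧
            (∃ v, v ∈ A.verts ∧ v ∉ B.verts) ∧ (∃ v, v ∈ B.verts ∧ v ∉ A.verts) ∧
            (A.verts ∩ B.verts).ncard ≤ k) ∧ f = 1) ∨
       ((∃ A B : H.Subgraph, A ⊔ B = ⊤ ∧ (∀ u v, A.Adj u v → ¬ B.Adj u v) ∧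
            (∃ v, v ∈ A.verts ∧ v ∉ B.verts) ∧ (∃ v, v ∈ B.verts ∧ v ∉ A.verts) ∧
            (A.verts ∩ B.verts).ncard ≤ k) ∧
         IsGreatest {m : ℕ | ∃ A B : Fin m → H.Subgraph,
            (∀ i, A i ⊔ B i = ⊤ ∧ (∀ u v, (A i).Adj u v → ¬ (B i).Adj u v) ∧
              (∃ v, v ∈ (A i).verts ∧ v ∉ (B i).verts) ∧
              (∃ v, v ∈ (B i).verts ∧ v ∉ (A i).verts) ∧
              ((A i).verts ∩ (B i).verts).ncard ≤ k) ∧
            ∀ i j, i ≠ j →
              (∀ u v, (A i).Adj u v → ¬ (A j).Adj u v) ∧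
              ∀ v, v ∈ (A i).verts → v ∉ (B i).verts → ¬ (v ∈ (A j).verts ∧ v ∉ (B j).verts)} f)) →
      ∃ c₁ c₂ : ℝ, 0 < c₁ ∧ 0 < c₂ ∧ ∃ N : ℕ, ∀ n : ℕ, N ≤ n →
        (∃ G : SimpleGraph (Fin n),
            (∀ S : Finset (Fin n), S.Nonempty → ∃ v ∈ S, {w : Fin n | w ∈ S ∧ G.Adj v w}.ncard ≤ k) ∧
            c₁ * (n : ℝ) ^ f ≤
              (({φ : V ↪ Fin n | ∀ u v, H.Adj u v → G.Adj (φ u) (φ v)}.ncard : ℕ) : ℝ)) ∧
        ∀ G : SimpleGraph (Fin n),
            (∀ S : Finset (Fin n), S.Nonempty → ∃ v ∈ S, {w : Fin n | w ∈ S ∧ G.Adj v w}.ncard ≤ k) →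
            (({φ : V ↪ Fin n | ∀ u v, H.Adj u v → G.Adj (φ u) (φ v)}.ncard : ℕ) : ℝ) ≤ c₂ * (n : ℝ) ^ f) := by
  intro hall
  obtain ⟨f, hf2, hf⟩ := exists_greatest
  obtain ⟨c₁, c₂, hc₁, _, N, hN⟩ := hall 2 (Fin 5) Pool.Agent.S09798.H H_dg f
    (Or.inr ⟨⟨SA, SB, sup_eq, disj, ⟨4, four_mem⟩, ⟨2, two_mem⟩, inter_card⟩, hf⟩)
  obtain ⟨M, hM⟩ := exists_nat_gt (16 / c₁)
  set n := max (max N M) 1 with hn
  have hn1 : 1 ≤ n := le_max_right _ _
  have hnN : N ≤ n := (le_max_left _ _).trans (le_max_left _ _)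
  have hnM : M ≤ n := (le_max_right _ _).trans (le_max_left _ _)
  obtain ⟨⟨G, hG, hle⟩, _⟩ := hN n hnN
  have hcount := count G hG n Finset.univ (by simp)
  have hE : E G Finset.univ = {φ : Fin 5 ↪ Fin n | ∀ u v, Pool.Agent.S09798.H.Adj u v → G.Adj (φ u) (φ v)} := by
    ext φ
    simp [E]
  rw [hE] at hcount
  have hcount' : (({φ : Fin 5 ↪ Fin n | ∀ u v, Pool.Agent.S09798.H.Adj u v → G.Adj (φ u) (φ v)}.ncard : ℕ) : ℝ)
      ≤ 16 * (n : ℝ) := by exact_mod_cast hcount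
  have hn1' : (1 : ℝ) ≤ n := by exact_mod_cast hn1
  have hpow : (n : ℝ) ^ 2 ≤ (n : ℝ) ^ f := pow_le_pow_right₀ hn1' hf2
  have h1 : c₁ * (n : ℝ) ^ 2 ≤ 16 * (n : ℝ) :=
    (mul_le_mul_of_nonneg_left hpow hc₁.le).trans (hle.trans hcount')
  have h2 : c₁ * (n : ℝ) ≤ 16 := by
    have : (c₁ * (n : ℝ)) * n ≤ 16 * n := by nlinarith
    exact le_of_mul_le_mul_right this (by linarith)
  have h3 : 16 < c₁ * (n : ℝ) := by
    have : 16 / c₁ < (n : ℝ) := lt_of_lt_of_le hM (by exact_mod_cast hnM)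
    rw [div_lt_iff₀ hc₁] at this
    linarith
  linarith

end Pool.Agent.S09798
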