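import Pool.Statements.S09874

set_option autoImplicit false
open Pool Pool.MP_85fffe_co

namespace Pool.Agent.S09874

/-- the grid value `K*i + s` -/
def pt (K i s : ℕ) : ℝ := ((K * i + s : ℕ) : ℝ)

/-- The set `X = { K i + s : i, s ≤ L, s ≠ i }`, `K = 2L+1`. -/
noncomputable def XX (L : ℕ) : Finset ℝ :=
  ((Finset.range (L + 1) ×ˢ Finset.range (L + 1)).filter (fun q => q.2 ≠ q.1)).image
    (fun q => pt (2 * L + 1) q.1 q.2)

/-- The pattern `A_J = { K j : j ∈ J }`. -/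
noncomputable def AA (L : ℕ) (J : Finset ℕ) : Finset ℝ :=
  J.image (fun j => pt (2 * L + 1) j 0)

theorem mem_XX {L : ℕ} {x : ℝ} :
    x ∈ XX L ↔ ∃ i s : ℕ, i ≤ L ∧ s ≤ L ∧ s ≠ i ∧ x = pt (2 * L + 1) i s := by
  unfold XX
  simp only [Finset.mem_image, Finset.mem_filter, Finset.mem_product, Finset.mem_range, Prod.exists]
  constructor
  · rintro ⟨a, b, ⟨⟨ha, hb⟩, hne⟩, rfl⟩
    exact ⟨a, b, by omega, by omega, hne, rfl⟩
  · rintro ⟨a, b, ha, hb, hne, rfl⟩
    exact ⟨a, b, ⟨⟨by omega, by omega⟩, hne⟩, rfl⟩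

theorem mem_AA {L : ℕ} {J : Finset ℕ} {x : ℝ} :
    x ∈ AA L J ↔ ∃ j ∈ J, x = pt (2 * L + 1) j 0 := by
  unfold AA
  simp only [Finset.mem_image]
  constructor
  · rintro ⟨j, hj, rfl⟩; exact ⟨j, hj, rfl⟩
  · rintro ⟨j, hj, rfl⟩; exact ⟨j, hj, rfl⟩

/-- uniqueness of the representation when the second parts are small -/
theorem key {L i i' s s' : ℕ} (hs : s ≤ 2 * L) (hs' : s' ≤ 2 * L)
    (h : (2 * L + 1) * i + s = (2 * L + 1) * i' + s') : i = i' ∧ s = s' := by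
  have h1 : ((2 * L + 1) * i + s) / (2 * L + 1) = i := by
    rw [Nat.mul_add_div (by omega)]
    rw [Nat.div_eq_of_lt (by omega)]; simp
  have h2 : ((2 * L + 1) * i' + s') / (2 * L + 1) = i' := by
    rw [Nat.mul_add_div (by omega)]
    rw [Nat.div_eq_of_lt (by omega)]; simp
  have h3 : i = i' := by rw [← h1, ← h2, h]
  subst h3
  exact ⟨rfl, by omega⟩

theorem pt_add (K i s t : ℕ) : pt K i s + (t : ℝ) = pt K i (s + t) := by
  unfold pt; push_cast; ring

theorem pt_inj {L i i' s s' : ℕ} (hs : s ≤ 2 * L) (hs' : s' ≤ 2 * L)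
    (h : pt (2 * L + 1) i s = pt (2 * L + 1) i' s') : i = i' ∧ s = s' := by
  unfold pt at h
  exact key hs hs' (by exact_mod_cast h)

/-- family of index sets: `insert 1 J'` for `J' ⊆ {2,…,L-1}` -/
def fam (L : ℕ) : Finset (Finset ℕ) :=
  ((Finset.Ico 2 L).powerset).image (fun J => insert 1 J)

theorem fam_card (L : ℕ) (hL : 2 ≤ L) : (fam L).card = 2 ^ (L - 2) := by
  unfold fam
  rw [Finset.card_image_of_injOn]
  · rw [Finset.card_powerset, Nat.card_Ico]
  · intro A hA B hB h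
    simp only [Finset.coe_powerset, Set.mem_preimage, Set.mem_powerset_iff, Finset.coe_subset] at hA hB
    have h1 : (1 : ℕ) ∉ A := fun h1 => by have := hA h1; simp at this
    have h2 : (1 : ℕ) ∉ B := fun h1 => by have := hB h1; simp at this
    have h3 : (insert 1 A).erase 1 = (insert 1 B).erase 1 := by
      simp only at h
      rw [h]
    rwa [Finset.erase_insert h1, Finset.erase_insert h2] at h3

theorem mem_fam {L : ℕ} (hL : 2 ≤ L) {J : Finset ℕ} (h : J ∈ fam L) :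
    1 ∈ J ∧ ∀ j ∈ J, 1 ≤ j ∧ j < L := by
  unfold fam at h
  simp only [Finset.mem_image, Finset.mem_powerset] at h
  obtain ⟨J', hJ', rfl⟩ := h
  refine ⟨Finset.mem_insert_self _ _, ?_⟩
  intro j hj
  rcases Finset.mem_insert.1 hj with rfl | hj
  · exact ⟨le_refl _, by omega⟩
  · have := hJ' hj
    simp at this
    omega

theorem AA_inj {L : ℕ} {J J' : Finset ℕ} (h : AA L J = AA L J') : J = J' := by
  ext j
  constructor
  · intro hj
    have : pt (2 * L + 1) j 0 ∈ AA L J' := by rw [← h]; exact mem_AA.2 ⟨j, hj, rfl⟩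
    obtain ⟨j', hj', he⟩ := mem_AA.1 this
    have := (pt_inj (by omega) (by omega) he).1
    rwa [this]
  · intro hj
    have : pt (2 * L + 1) j 0 ∈ AA L J := by rw [h]; exact mem_AA.2 ⟨j, hj, rfl⟩
    obtain ⟨j', hj', he⟩ := mem_AA.1 this
    have := (pt_inj (by omega) (by omega) he).1
    rwa [this]

theorem XX_card (L : ℕ) : (XX L).card ≤ (L + 1) * (L + 1) := by
  unfold XX
  refine (Finset.card_image_le).trans ((Finset.card_filter_le _ _).trans ?_)
  simp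

/-- translating `A_J` by the natural number `t ≤ L`, `t ∉ J`, stays inside `X` -/
theorem shift_mem {L : ℕ} {J : Finset ℕ} (hJ : ∀ j ∈ J, 1 ≤ j ∧ j < L) {t : ℕ} (ht : t ≤ L)
    (htJ : t ∉ J) : (AA L J).image (· + (t : ℝ)) ⊆ XX L := by
  intro x hx
  simp only [Finset.mem_image] at hx
  obtain ⟨a, ha, rfl⟩ := hx
  obtain ⟨j, hj, rfl⟩ := mem_AA.1 ha
  rw [pt_add, mem_XX]
  refine ⟨j, 0 + t, ?_, by omega, ?_, rfl⟩
  · have := hJ j hj; omega
  · intro h
    apply htJ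
    have : t = j := by omega
    rwa [this]

theorem maximal {L : ℕ} {J : Finset ℕ} (hJ : ∀ j ∈ J, 1 ≤ j ∧ j < L) (B : Finset ℝ)
    (hB : AA L J ⊂ B) :
    ¬ (∀ t : ℝ, (AA L J).image (· + t) ⊆ XX L → B.image (· + t) ⊆ XX L) := by
  intro H
  obtain ⟨hsub, b, hb, hbA⟩ := Finset.ssubset_iff_exists_cons_subset.1 hB |> fun _ =>
    (⟨hB.1, Finset.exists_of_ssubset hB⟩ : AA L J ⊆ B ∧ ∃ x ∈ B, x ∉ AA L J)
  have h0 : (0 : ℕ) ∉ J := fun h => by have := hJ 0 h; omega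
  have hLJ : L ∉ J := fun h => by have := hJ L h; omega
  have e0 := H ((0 : ℕ) : ℝ) (shift_mem hJ (Nat.zero_le _) h0)
  have eL := H (L : ℝ) (shift_mem hJ le_rfl hLJ)
  have b0 : b ∈ XX L := by
    have := e0 (Finset.mem_image.2 ⟨b, hb, rfl⟩)
    simpa using this
  have bL : b + (L : ℝ) ∈ XX L := eL (Finset.mem_image.2 ⟨b, hb, rfl⟩)
  obtain ⟨i, s, hi, hs, hne, rfl⟩ := mem_XX.1 b0
  rw [pt_add] at bL
  obtain ⟨i', s', hi', hs', hne', he⟩ := mem_XX.1 bL
  have h1 := pt_inj (by omega) (by omega) he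
  have hs0 : s = 0 := by omega
  subst hs0
  have hiJ : i ∉ J := fun h => hbA (mem_AA.2 ⟨i, h, rfl⟩)
  have ei := H (i : ℝ) (shift_mem hJ hi hiJ)
  have bi : pt (2 * L + 1) i 0 + (i : ℝ) ∈ XX L := ei (Finset.mem_image.2 ⟨_, hb, rfl⟩)
  rw [pt_add] at bi
  obtain ⟨i'', s'', hi'', hs'', hne'', he''⟩ := mem_XX.1 bi
  have h2 := pt_inj (by omega) (by omega) he''
  omega

theorem no_translate {L : ℕ} {J J' : Finset ℕ} (h1 : 1 ∈ J) (h1' : 1 ∈ J')
    (hJ : ∀ j ∈ J, 1 ≤ j ∧ j < L) (hJ' : ∀ j ∈ J', 1 ≤ j ∧ j < L) (t : ℝ)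
    (h : AA L J' = (AA L J).image (· + t)) : AA L J = AA L J' := by
  have mono : ∀ j : ℕ, 1 ≤ j → pt (2 * L + 1) 1 0 ≤ pt (2 * L + 1) j 0 := by
    intro j hj
    unfold pt
    have : (2 * L + 1) * 1 + 0 ≤ (2 * L + 1) * j + 0 := by
      have := Nat.mul_le_mul_left (2 * L + 1) hj
      omega
    exact_mod_cast this
  have ht : t = 0 := by
    apply le_antisymm
    · -- 1 ∈ J', so pt 1 = a + t with a ≥ pt 1
      have : pt (2 * L + 1) 1 0 ∈ (AA L J).image (· + t) := by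
        rw [← h]; exact mem_AA.2 ⟨1, h1', rfl⟩
      simp only [Finset.mem_image] at this
      obtain ⟨a, ha, hat⟩ := this
      obtain ⟨j, hj, rfl⟩ := mem_AA.1 ha
      have := mono j (hJ j hj).1
      linarith
    · have : pt (2 * L + 1) 1 0 + t ∈ AA L J' := by
        rw [h]; exact Finset.mem_image.2 ⟨_, mem_AA.2 ⟨1, h1, rfl⟩, rfl⟩
      obtain ⟨j, hj, he⟩ := mem_AA.1 this
      have := mono j (hJ' j hj).1
      linarith
  subst ht
  rw [h]
  simp

theorem growth (C : ℕ) : C * ((3 * (9 * C) + 3) * (3 * (9 * C) + 3)) < 2 ^ (3 * (9 * C)) := by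
  have h1 : 9 * C + 1 ≤ 2 ^ (9 * C) := Nat.lt_two_pow_self
  have h2 : (9 * C + 1) ^ 3 ≤ (2 ^ (9 * C)) ^ 3 := Nat.pow_le_pow_left h1 3
  have h3 : (2 ^ (9 * C)) ^ 3 = 2 ^ (3 * (9 * C)) := by rw [← pow_mul]; ring_nf
  rw [h3] at h2
  refine lt_of_lt_of_le ?_ h2
  have : (9 * C + 1) ^ 3 = (9 * C + 1) * ((9 * C + 1) * (9 * C + 1)) := by ring
  rw [this]
  have h4 : C * ((3 * (9 * C) + 3) * (3 * (9 * C) + 3)) = (9 * C) * ((9 * C + 1) * (9 * C + 1)) := by
    ring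
  rw [h4]
  exact Nat.mul_lt_mul_of_pos_right (by omega) (by positivity)

/-- The negation of the preceding statement: There is a constant C such that for every finite set X of n reals, any family of maximally repeated patterns of X, no two of which are translates of each other, has at most C·n members. -/
theorem result :
    ¬ (∃ C : ℕ, ∀ X : Finset ℝ, ∀ S : Finset (Finset ℝ),
      (∀ A ∈ S,
        A.Nonempty ∧ A ⊆ X ∧
        (∃ t : ℝ, t ≠ 0 ∧ A.image (· + t) ⊆ X) ∧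
        (∀ B : Finset ℝ, A ⊂ B →
          ¬ (∀ t : ℝ, A.image (· + t) ⊆ X → B.image (· + t) ⊆ X))) →
      (∀ A ∈ S, ∀ B ∈ S, ∀ t : ℝ, B = A.image (· + t) → A = B) →
      S.card ≤ C * X.card) := by
  rintro ⟨C, hC⟩
  set L : ℕ := 3 * (9 * C) + 2 with hLdef
  have hL : 2 ≤ L := by omega
  have hcard := hC (XX L) ((fam L).image (AA L)) ?_ ?_
  · rw [Finset.card_image_of_injective _ (fun _ _ h => AA_inj h), fam_card L hL] at hcard
    have h1 : L - 2 = 3 * (9 * C) := by omega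
    rw [h1] at hcard
    have h2 := XX_card L
    have h3 : C * (XX L).card ≤ C * ((3 * (9 * C) + 3) * (3 * (9 * C) + 3)) := by
      apply Nat.mul_le_mul_left
      have : L + 1 = 3 * (9 * C) + 3 := by omega
      rwa [this] at h2
    have h4 := growth C
    omega
  · intro A hA
    obtain ⟨J, hJ, rfl⟩ := Finset.mem_image.1 hA
    obtain ⟨h1, hJ⟩ := mem_fam hL hJ
    refine ⟨⟨_, mem_AA.2 ⟨1, h1, rfl⟩⟩, ?_, ⟨(L : ℝ), ?_, ?_⟩, ?_⟩
    · have := shift_mem hJ (Nat.zero_le L) (fun h => by have := hJ 0 h; omega)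
      simpa using this
    · have : (L : ℝ) ≠ 0 := by
        have : L ≠ 0 := by omega
        exact_mod_cast this
      exact this
    · exact shift_mem hJ le_rfl (fun h => by have := hJ L h; omega)
    · intro B hB
      exact maximal hJ B hB
  · intro A hA B hB t h
    obtain ⟨J, hJ, rfl⟩ := Finset.mem_image.1 hA
    obtain ⟨J', hJ', rfl⟩ := Finset.mem_image.1 hB
    obtain ⟨h1, hJ⟩ := mem_fam hL hJ
    obtain ⟨h1', hJ'⟩ := mem_fam hL hJ'
    exact no_translate h1 h1' hJ hJ' t h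

end Pool.Agent.S09874
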