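import Pool.Statements.S09946
import Pool.Agent.H709Exc.J_girth_graph
import Pool.Agent.H709Exc.J_free_of_girth

set_option autoImplicit false
open Pool Pool.MP_8888ff_co

namespace Pool.Agent.S09946

theorem not_acyclic_of_two_le {V : Type} [Finite V] [Nonempty V] (G : SimpleGraph V)
    (h : ∀ v, 2 ≤ (G.neighborSet v).ncard) : ¬ G.IsAcyclic := by
  intro hac
  obtain ⟨u, v, p, hp, hmax⟩ := SimpleGraph.Walk.exists_isPath_forall_isPath_length_le_length G
  have hmem : ∀ w, G.Adj u w → w ∈ p.support := by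
    intro w hw
    by_contra hns
    have hc : (SimpleGraph.Walk.cons hw.symm p).IsPath := hp.cons hns
    have := hmax _ _ _ hc
    simp at this
  have h2 : G.neighborSet u ⊆ {p.snd} := by
    intro w hw
    exact hac.eq_snd_of_adj_start hp hw (hmem w hw)
  have h3 := Set.ncard_le_ncard h2
  rw [Set.ncard_singleton] at h3
  have := h u
  omega

theorem step (g : ℕ) : ∃ (N : ℕ) (T : SimpleGraph (Fin N)), 0 < N ∧ (∀ v, g + 1 ≤ (T.neighborSet v).ncard) ∧
    ∀ (v : Fin N) (w : T.Walk v v), w.IsCycle → g < w.length := by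
  classical
  obtain ⟨V, hF, hN, H, hd, hg⟩ := Pool.Agent.H709Exc.girth_graph.{0} (g+1) g
  let e := Fintype.equivFin V
  let T : SimpleGraph (Fin (Fintype.card V)) := H.map e.toEmbedding
  let iso : H ≃g T := SimpleGraph.Iso.map e H
  refine ⟨Fintype.card V, T, Fintype.card_pos, ?_, ?_⟩
  · intro v
    obtain ⟨S, hS, hS'⟩ := hd (iso.symm v)
    have h1 : (S.image iso : Set (Fin (Fintype.card V))) ⊆ T.neighborSet v := by
      intro w hw
      rw [Finset.mem_coe, Finset.mem_image] at hw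
      obtain ⟨x, hx, rfl⟩ := hw
      have := hS' x hx
      rw [SimpleGraph.mem_neighborSet]
      have h2 := iso.map_adj_iff.2 this
      rwa [iso.apply_symm_apply] at h2
    have h2 := Set.ncard_le_ncard h1 (Set.toFinite _)
    rw [Set.ncard_coe_finset, Finset.card_image_of_injective _ iso.injective] at h2
    omega
  · intro v w hw
    have h1 : (w.map iso.symm.toHom).IsCycle := hw.map iso.symm.injective
    have := hg _ _ h1
    rwa [SimpleGraph.Walk.length_map] at this

noncomputable def NN (g : ℕ) : ℕ := (step g).choose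
noncomputable def TT (g : ℕ) : SimpleGraph (Fin (NN g)) := (step g).choose_spec.choose
theorem NN_pos (g : ℕ) : 0 < NN g := (step g).choose_spec.choose_spec.1
theorem TT_deg (g : ℕ) : ∀ v, g + 1 ≤ ((TT g).neighborSet v).ncard := (step g).choose_spec.choose_spec.2.1
theorem TT_cyc (g : ℕ) : ∀ (v : Fin (NN g)) (w : (TT g).Walk v v), w.IsCycle → g < w.length :=
  (step g).choose_spec.choose_spec.2.2

theorem lt_NN (g : ℕ) : g + 1 < NN g := by
  have h1 := TT_deg g ⟨0, NN_pos g⟩
  have h2 : (TT g).neighborSet ⟨0, NN_pos g⟩ ⊆ {(⟨0, NN_pos g⟩ : Fin (NN g))}ᶜ := by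
    intro w hw h
    rw [Set.mem_singleton_iff] at h
    subst h
    exact (TT g).loopless.irrefl _ hw
  have h3 := Set.ncard_le_ncard h2 (Set.toFinite _)
  have h4 := Set.ncard_add_ncard_compl {(⟨0, NN_pos g⟩ : Fin (NN g))} (Set.toFinite _) (Set.toFinite _)
  rw [Set.ncard_singleton, Nat.card_eq_fintype_card, Fintype.card_fin] at h4
  omega

/-- the thresholds -/
noncomputable def gg : ℕ → ℕ
  | 0 => 4
  | j + 1 => gg j + NN (gg j) + 5

theorem gg_mono {i j : ℕ} (h : i < j) : NN (gg i) + 5 ≤ gg j := by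
  induction j with
  | zero => omega
  | succ j ih =>
    have h1 : gg (j+1) = gg j + NN (gg j) + 5 := rfl
    rcases Nat.lt_succ_iff_lt_or_eq.1 h with h2 | h2
    · have := ih h2; omega
    · subst h2; omega

theorem four_le_gg (j : ℕ) : 4 ≤ gg j := by
  cases j with
  | zero => exact le_refl 4
  | succ j =>
    have h1 : gg (j+1) = gg j + NN (gg j) + 5 := rfl
    omega

theorem le_gg (j : ℕ) : j ≤ gg j := by
  induction j with
  | zero => omega
  | succ j ih =>
    have h1 : gg (j+1) = gg j + NN (gg j) + 5 := rfl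
    omega

/-- the family: the four-cycle, and all graphs of minimum degree at least two on `NN (gg j) + 1`
vertices for some `j` -/
def Fam : Set (Σ k : ℕ, SimpleGraph (Fin k)) :=
  {p | p = ⟨4, SimpleGraph.cycleGraph 4⟩ ∨ ∃ j, p.1 = NN (gg j) + 1 ∧ ∀ v, 2 ≤ (p.2.neighborSet v).ncard}

theorem c4_aux : ∀ v : Fin 4, ({v + 1, v - 1} : Finset (Fin 4)).card = 2 := by decide

theorem c4_deg : ∀ v : Fin 4, 2 ≤ ((SimpleGraph.cycleGraph 4).neighborSet v).ncard := by
  intro v
  have h1 : (({v + 1, v - 1} : Finset (Fin 4)) : Set (Fin 4)) ⊆ (SimpleGraph.cycleGraph 4).neighborSet v := by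
    intro w hw
    rw [SimpleGraph.mem_neighborSet]
    have : w ∈ ({v + 1, v - 1} : Finset (Fin 4)) := hw
    revert v w
    decide
  have h2 := Set.ncard_le_ncard h1 (Set.toFinite _)
  rw [Set.ncard_coe_finset] at h2
  have h3 := c4_aux v
  omega

theorem c4_col : (SimpleGraph.cycleGraph 4).Colorable 2 :=
  ⟨SimpleGraph.Coloring.mk (![0, 1, 0, 1] : Fin 4 → Fin 2) (by decide)⟩

theorem fam_cyclic : ∀ p ∈ Fam, ¬ p.2.IsAcyclic := by
  rintro ⟨k, p⟩ (h | ⟨j, h1, h2⟩)
  · cases h
    exact not_acyclic_of_two_le _ c4_deg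
  · simp only at h1 h2 ⊢
    subst h1
    exact not_acyclic_of_two_le _ h2

theorem TT_free (j : ℕ) : ∀ p ∈ Fam, ¬ p.2.IsContained (TT (gg j)) := by
  intro p hp
  have hac := fam_cyclic p hp
  rcases hp with h | ⟨i, h1, h2⟩
  · subst h
    apply Pool.Agent.H709Exc.free_of_girth _ hac
    intro v w hw
    exact lt_of_le_of_lt (four_le_gg j) (TT_cyc _ v w hw)
  · rcases lt_or_ge i j with hij | hij
    · apply Pool.Agent.H709Exc.free_of_girth _ hac
      intro v w hw
      have h3 := TT_cyc _ v w hw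
      have h4 := gg_mono hij
      omega
    · rintro ⟨f⟩
      have h3 := Fintype.card_le_of_injective f f.injective
      rw [Fintype.card_fin, Fintype.card_fin] at h3
      rcases hij.lt_or_eq with h4 | h4
      · have h5 := gg_mono h4
        have h6 := lt_NN (gg i)
        omega
      · subst h4; omega

/-- The negation of the preceding statement: For every graph family whose members all contain a cycle and one is bipartite, some c>0 ensures every graph with min degree δ≥1 and max degree Δ has a spanning F-free subgraph of min degree at least c·ex(K_Δ,F)·δ/Δ². -/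
theorem result :
    ¬ (∀ F : Set (Σ k : ℕ, SimpleGraph (Fin k)),
      (∀ p ∈ F, ¬ p.2.IsAcyclic) →
      (∃ p ∈ F, p.2.Colorable 2) →
      ∃ c : ℝ, 0 < c ∧
        ∀ δ Δ : ℕ, 1 ≤ δ → δ ≤ Δ →
          ∀ n : ℕ, ∀ G : SimpleGraph (Fin n),
            (∀ v, δ ≤ (G.neighborSet v).ncard) →
            (∃ v, (G.neighborSet v).ncard = δ) →
            (∀ v, (G.neighborSet v).ncard ≤ Δ) →
            (∃ v, (G.neighborSet v).ncard = Δ) →
            ∀ T : SimpleGraph (Fin Δ),
              (∀ p ∈ F, ¬ p.2.IsContained T) →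
              ∃ H : SimpleGraph (Fin n), H ≤ G ∧
                (∀ p ∈ F, ¬ p.2.IsContained H) ∧
                ∀ v, c * (T.edgeSet.ncard : ℝ) * (δ : ℝ) / (Δ : ℝ) ^ 2
                  ≤ ((H.neighborSet v).ncard : ℝ)) := by
  classical
  intro hall
  obtain ⟨c, hc, H⟩ := hall Fam fam_cyclic ⟨⟨4, SimpleGraph.cycleGraph 4⟩, Or.inl rfl, c4_col⟩
  obtain ⟨j, hj⟩ := exists_nat_gt (2 / c)
  set N := NN (gg j) with hN
  have hNpos : 0 < N := NN_pos _
  have hdeg : ∀ v : Fin (N+1), ((⊤ : SimpleGraph (Fin (N+1))).neighborSet v).ncard = N := by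
    intro v
    have h1 : (⊤ : SimpleGraph (Fin (N+1))).neighborSet v = {v}ᶜ := by
      ext w
      simp [eq_comm]
    rw [h1]
    have h4 := Set.ncard_add_ncard_compl {v} (Set.toFinite _) (Set.toFinite _)
    rw [Set.ncard_singleton, Nat.card_eq_fintype_card, Fintype.card_fin] at h4
    omega
  obtain ⟨K, -, hfree, hK⟩ := H N N hNpos le_rfl (N+1) ⊤ (fun v => (hdeg v).ge) ⟨0, hdeg 0⟩
    (fun v => (hdeg v).le) ⟨0, hdeg 0⟩ (TT (gg j)) (TT_free j)
  have h1 : ∃ v, (K.neighborSet v).ncard ≤ 1 := by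
    by_contra hno
    push Not at hno
    exact hfree ⟨N+1, K⟩ (Or.inr ⟨j, rfl, fun v => hno v⟩) (SimpleGraph.IsContained.refl _)
  obtain ⟨v, hv⟩ := h1
  have h2 := hK v
  have h3 : ((K.neighborSet v).ncard : ℝ) ≤ 1 := by exact_mod_cast hv
  -- edges of T
  have h4 : N * (gg j + 1) ≤ 2 * (TT (gg j)).edgeSet.ncard := by
    have h5 := (TT (gg j)).sum_degrees_eq_twice_card_edges
    have h6 : (TT (gg j)).edgeSet.ncard = (TT (gg j)).edgeFinset.card := by
      rw [← SimpleGraph.coe_edgeFinset, Set.ncard_coe_finset]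
    rw [h6, ← h5]
    have h7 : ∑ _v : Fin (NN (gg j)), (gg j + 1) ≤ ∑ v, (TT (gg j)).degree v := by
      refine Finset.sum_le_sum (fun v _ => ?_)
      have h8 := TT_deg (gg j) v
      rw [← SimpleGraph.card_neighborSet_eq_degree, ← Nat.card_eq_fintype_card, Nat.card_coe_set_eq]
      exact h8
    simpa using h7
  have h5 : (N : ℝ) * (j : ℝ) ≤ 2 * ((TT (gg j)).edgeSet.ncard : ℝ) := by
    have h6 := le_gg j
    have h7 : N * j ≤ 2 * (TT (gg j)).edgeSet.ncard := le_trans (Nat.mul_le_mul_left _ (by omega)) h4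
    exact_mod_cast h7
  have hNR : (0 : ℝ) < N := by exact_mod_cast hNpos
  have h6 : c * ((TT (gg j)).edgeSet.ncard : ℝ) * (N : ℝ) / (N : ℝ) ^ 2 = c * ((TT (gg j)).edgeSet.ncard : ℝ) / N := by
    field_simp
  rw [h6, div_le_iff₀ hNR] at h2
  rw [div_lt_iff₀ hc] at hj
  nlinarith

end Pool.Agent.S09946
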