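import Pool.Statements.S10281
import Pool.Agent.Q95.SB.Fin

set_option autoImplicit false
open Pool Pool.MP_975621_co

namespace Pool.Agent.S10281

/-- For every n, the number of permutations of length n in which every 2154 occurrence extends to a 21354 occurrence equals the number of inversion sequences of length n avoiding the patterns 101 and 201. -/
theorem result :
    ∀ n : ℕ,
      Nat.card {σ : Equiv.Perm (Fin n) //
        ∀ i j k l : Fin n, i < j → j < k → k < l →
          σ j < σ i → σ i < σ l → σ l < σ k →
          ∃ m : Fin n, j < m ∧ m < k ∧ σ i < σ m ∧ σ m < σ l}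
      =
      Nat.card {e : Fin n → Fin n //
        (∀ i : Fin n, (e i).val ≤ i.val) ∧
        ∀ i j k : Fin n, i < j → j < k →
          ¬ (e i = e k ∧ e j < e i) ∧ ¬ (e j < e k ∧ e k < e i)} := by
  intro n
  rw [Pool.Agent.Q95.SB.cardP, Pool.Agent.Q95.SB.cardI, Pool.Agent.Q95.SB.card_eq]

end Pool.Agent.S10281
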