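import Pool.Statements.S10336
import Pool.Agent.Q265.OCC.Count

set_option autoImplicit false
open Classical
open Pool Pool.MP_99d978_co

namespace Pool.Agent.S10336

open Pool.Agent.Q265.OCC

theorem symm20 : ∀ i j : Fin 20, (cm20 i).testBit j = false → (cm20 j).testBit i = false := by decide +kernel

theorem irr20 : ∀ i : Fin 20, ¬ (cm20 i).testBit i = false := by decide +kernel

/-- the counterexample, a graph on 20 vertices -/
def G20 : SimpleGraph (Fin 20) where
  Adj i j := (cm20 i).testBit j = false
  symm := ⟨fun i j h => symm20 i j h⟩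
  loopless := ⟨fun i h => irr20 i h⟩

theorem deg20 : ∀ i : Fin 20, (Finset.univ.filter (fun j : Fin 20 => (cm20 i).testBit j = false)).card = 4 := by
  decide +kernel

theorem tri20 : ∀ a b c : Fin 20, (cm20 a).testBit b = false → (cm20 a).testBit c = false →
    (cm20 b).testBit c = false → False := by decide +kernel

theorem cyc13 : ∀ i j : ZMod 13, j.val < i.val →
    ((i ≠ j ∧ ((i - j = 1 ∨ i - j = 5) ∨ (j - i = 1 ∨ j - i = 5))) ↔ (cm13 i.val).testBit j.val = false) := by
  decide +kernel

theorem reg20 (v : Fin 20) (I : Fintype (G20.neighborSet v)) : @SimpleGraph.degree _ G20 v I = 4 := by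
  rw [← SimpleGraph.card_neighborSet_eq_degree, ← Nat.card_eq_fintype_card, Nat.card_coe_set_eq]
  have h : G20.neighborSet v = ((Finset.univ.filter (fun j : Fin 20 => (cm20 v).testBit j = false) : Finset (Fin 20)) : Set (Fin 20)) := by
    ext w
    simp [G20]
  rw [h, Set.ncard_coe_finset]
  convert deg20 v

theorem free20 : G20.CliqueFree 3 := by
  intro s hs
  rw [SimpleGraph.is3Clique_iff] at hs
  obtain ⟨a, b, c, hab, hac, hbc, -⟩ := hs
  exact tri20 a b c hab hac hbc

def cm19 : ℕ → ℕ := fun i => ([327549, 262118, 221151, 521949, 515005, 454643, 425455, 490238, 515447, 257727, 503663, 344055, 391647, 392939, 193535, 522043, 507806, 509950, 507385] : List ℕ).getD i 0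

theorem symm19 : ∀ i j : Fin 19, (cm19 i).testBit j = false → (cm19 j).testBit i = false := by decide +kernel

theorem irr19 : ∀ i : Fin 19, ¬ (cm19 i).testBit i = false := by decide +kernel

/-- the Robertson graph -/
def G19 : SimpleGraph (Fin 19) where
  Adj i j := (cm19 i).testBit j = false
  symm := ⟨fun i j h => symm19 i j h⟩
  loopless := ⟨fun i h => irr19 i h⟩

theorem deg19 : ∀ i : Fin 19, (Finset.univ.filter (fun j : Fin 19 => (cm19 i).testBit j = false)).card = 4 := by
  decide +kernel

theorem tri19 : ∀ a b c : Fin 19, (cm19 a).testBit b = false → (cm19 b).testBit c = false →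
    (cm19 c).testBit a = false → False := by decide +kernel

theorem quad19 : ∀ a c : Fin 19, a ≠ c → ∀ b : Fin 19, (cm19 a).testBit b = false → (cm19 b).testBit c = false →
    ∀ d : Fin 19, (cm19 c).testBit d = false → (cm19 d).testBit a = false → b = d := by decide +kernel

theorem reg19 (v : Fin 19) (I : Fintype (G19.neighborSet v)) : @SimpleGraph.degree _ G19 v I = 4 := by
  rw [← SimpleGraph.card_neighborSet_eq_degree, ← Nat.card_eq_fintype_card, Nat.card_coe_set_eq]
  have h : G19.neighborSet v = ((Finset.univ.filter (fun j : Fin 19 => (cm19 v).testBit j = false) : Finset (Fin 19)) : Set (Fin 19)) := by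
    ext w
    simp [G19]
  rw [h, Set.ncard_coe_finset]
  convert deg19 v

theorem girth19 : (5 : ℕ∞) ≤ G19.egirth := by
  rw [SimpleGraph.le_egirth]
  intro a w hw
  have h3 := hw.three_le_length
  by_contra hlt
  have hlt' : w.length < 5 := by
    have := not_le.1 hlt
    exact_mod_cast this
  have hinj := hw.getVert_injOn
  have hadj : ∀ i, i < w.length → G19.Adj (w.getVert i) (w.getVert (i+1)) := fun i hi => w.adj_getVert_succ hi
  have h0 : w.getVert 0 = a := w.getVert_zero
  have hl : w.getVert w.length = a := w.getVert_length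
  have hcases : w.length = 3 ∨ w.length = 4 := by omega
  rcases hcases with hlen | hlen
  · have a0 := hadj 0 (by omega)
    have a1 := hadj 1 (by omega)
    have a2 := hadj 2 (by omega)
    rw [hlen] at hl
    rw [h0] at a0
    rw [show 2 + 1 = 3 from rfl, hl] at a2
    exact tri19 _ _ _ a0 a1 a2
  · have a0 := hadj 0 (by omega)
    have a1 := hadj 1 (by omega)
    have a2 := hadj 2 (by omega)
    have a3 := hadj 3 (by omega)
    rw [hlen] at hl
    rw [h0] at a0
    rw [show 3 + 1 = 4 from rfl, hl] at a3
    have hne : a ≠ w.getVert 2 := by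
      intro h
      have h' := hl.trans h
      have := hinj (by simp [hlen]) (by simp [hlen]) h'
      omega
    have h13 := quad19 a (w.getVert 2) hne (w.getVert 1) a0 a1 (w.getVert 3) a2 a3
    have := hinj (by simp [hlen]) (by simp [hlen]) h13
    omega

theorem exists_L : ∃ L : ℝ, 90*L^6 + 729*L^5 - 188*L^4 - 1632*L^3 - 1247*L^2 - 363*L - 38 = 0 ∧
    (∀ x : ℝ, 90*x^6 + 729*x^5 - 188*x^4 - 1632*x^3 - 1247*x^2 - 363*x - 38 = 0 → x ≤ L) ∧ L ≤ 2 := by
  let P : ℝ → ℝ := fun x => 90*x^6 + 729*x^5 - 188*x^4 - 1632*x^3 - 1247*x^2 - 363*x - 38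
  have hP : Continuous P := by fun_prop
  have hbig : ∀ x : ℝ, 2 ≤ x → 0 < P x := by
    intro x hx
    obtain ⟨y, rfl⟩ : ∃ y, x = 2 + y := ⟨x - 2, by ring⟩
    have hy : 0 ≤ y := by linarith
    have : P (2 + y) = 7272 + 44649 * y + 64369 * y ^ 2 + 40424 * y ^ 3 + 12502 * y ^ 4 + 1809 * y ^ 5 + 90 * y ^ 6 := by
      simp only [P]; ring
    rw [this]
    positivity
  have hroot : ∃ x ∈ Set.Icc (0 : ℝ) 2, P x = 0 := by
    have := intermediate_value_Icc (by norm_num : (0 : ℝ) ≤ 2) hP.continuousOn
    have h0 : (0 : ℝ) ∈ Set.Icc (P 0) (P 2) := by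
      constructor
      · simp only [P]; norm_num
      · exact (hbig 2 le_rfl).le
    obtain ⟨x, hx, hx'⟩ := this h0
    exact ⟨x, hx, hx'⟩
  have hcomp : IsCompact (Set.Icc (0 : ℝ) 2 ∩ P ⁻¹' {0}) :=
    isCompact_Icc.inter_right (isClosed_singleton.preimage hP)
  obtain ⟨x0, hx0, hPx0⟩ := hroot
  obtain ⟨L, hL, hmax⟩ := hcomp.exists_isGreatest ⟨x0, hx0, hPx0⟩
  refine ⟨L, hL.2, ?_, hL.1.2⟩
  intro x hx
  by_cases h0 : 0 ≤ x
  · have h2 : x ≤ 2 := by
      by_contra hlt
      push Not at hlt
      have := hbig x hlt.le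
      simp only [P] at this
      linarith
    exact hmax ⟨⟨h0, h2⟩, hx⟩
  · push Not at h0
    exact h0.le.trans hL.1.1

/-- The negation of the preceding statement: Let L be the largest real root of the sextic. For every finite 4-regular triangle-free G and λ>0: if λ≤L, G's occupancy fraction is at least the Robertson graph's (4-regular, girth 5, 19 vertices); if λ≥L, at least that of the circulant on Z13 with jumps ±1,±5. -/
theorem result :
    ¬ (∀ L : ℝ,
      90*L^6 + 729*L^5 - 188*L^4 - 1632*L^3 - 1247*L^2 - 363*L - 38 = 0 →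
      (∀ x : ℝ, 90*x^6 + 729*x^5 - 188*x^4 - 1632*x^3 - 1247*x^2 - 363*x - 38 = 0 → x ≤ L) →
      ∀ (V : Type) [Fintype V] [Nonempty V] (G : SimpleGraph V),
        G.IsRegularOfDegree 4 → G.CliqueFree 3 →
        ∀ H : SimpleGraph (Fin 19), H.IsRegularOfDegree 4 → (5 : ℕ∞) ≤ H.egirth →
        ∀ l : ℝ, 0 < l →
          (l ≤ L →
            (∑ I : Finset (Fin 19), if H.IsIndepSet (I : Set (Fin 19)) then (I.card : ℝ) * l ^ I.card else 0) /
              ((Fintype.card (Fin 19) : ℝ) *
                ∑ I : Finset (Fin 19), if H.IsIndepSet (I : Set (Fin 19)) then l ^ I.card else 0)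
            ≤
            (∑ I : Finset V, if G.IsIndepSet (I : Set V) then (I.card : ℝ) * l ^ I.card else 0) /
              ((Fintype.card V : ℝ) *
                ∑ I : Finset V, if G.IsIndepSet (I : Set V) then l ^ I.card else 0)) ∧
          (L ≤ l →
            (∑ I : Finset (ZMod 13),
                if (SimpleGraph.fromRel (fun x y : ZMod 13 => x - y = 1 ∨ x - y = 5)).IsIndepSet
                    (I : Set (ZMod 13))
                then (I.card : ℝ) * l ^ I.card else 0) /
              ((Fintype.card (ZMod 13) : ℝ) *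
                ∑ I : Finset (ZMod 13),
                  if (SimpleGraph.fromRel (fun x y : ZMod 13 => x - y = 1 ∨ x - y = 5)).IsIndepSet
                      (I : Set (ZMod 13))
                  then l ^ I.card else 0)
            ≤
            (∑ I : Finset V, if G.IsIndepSet (I : Set V) then (I.card : ℝ) * l ^ I.card else 0) /
              ((Fintype.card V : ℝ) *
                ∑ I : Finset V, if G.IsIndepSet (I : Set V) then l ^ I.card else 0))) := by
  intro hall
  obtain ⟨L, hL0, hLmax, hL2⟩ := exists_L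
  have hmain := ((hall L hL0 hLmax (Fin 20) G20 (fun v => reg20 v _) free20) G19 (fun v => reg19 v _)
    girth19 2 (by norm_num)).2 hL2
  have s20 := sums 20 (Equiv.refl (Fin 20)) G20 cm20 (fun i j _ => Iff.rfl)
  have s13 := fun dec => sums' (V := ZMod 13) 13 (show Fin 13 ≃ ZMod 13 from Equiv.refl (Fin 13))
    (SimpleGraph.fromRel (fun x y : ZMod 13 => x - y = 1 ∨ x - y = 5)) cm13 (fun i j hij => cyc13 i j hij) dec
  rw [F20] at s20
  rw [F13] at s13
  rw [s20.1, s20.2, (s13 _).1, (s13 _).2] at hmain
  rw [Fintype.card_fin, ZMod.card] at hmain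
  norm_num at hmain


end Pool.Agent.S10336
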