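import Pool.Statements.S10984
import Pool.Agent.Helper96.FlowFinal
import Pool.Agent.Helper96.FlowSimple

set_option autoImplicit false
open Pool Pool.MP_b6f1e0_co

namespace Pool.Agent.S10984

/-- The negation of the preceding statement: For every finite graph, if its flow polynomial (sum over edge subsets A of (-1)^(∣E∣-∣A∣) q^(nullity of A)) is not identically zero, then every real root of it is at most 6. -/
theorem result :
    ¬ (∀ (V : Type) [Fintype V] (G : SimpleGraph V) [DecidableRel G.Adj] (p : Polynomial ℝ),
      p = ∑ A ∈ G.edgeFinset.powerset,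
        (-1 : Polynomial ℝ) ^ (G.edgeFinset.card - A.card) *
          Polynomial.X ^ (A.card
            + Nat.card (SimpleGraph.fromEdgeSet (A : Set (Sym2 V))).ConnectedComponent
            - Fintype.card V) →
      p ≠ 0 → ∀ q : ℝ, p.IsRoot q → q ≤ 6) := by
  intro h
  obtain ⟨n, k, src, tgt, Q, hQ, hQ0, x, hx, hx0⟩ := Pool.Agent.Helper96.Flow.exists_multigraph
  let _ : DecidableRel (Pool.Agent.Helper96.Flow.subdiv src tgt).Adj := Classical.decRel _
  have key := Pool.Agent.Helper96.Flow.flowP_subdiv src tgt Q hQ
  have e : ∑ A ∈ (Pool.Agent.Helper96.Flow.subdiv src tgt).edgeFinset.powerset,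
        (-1 : Polynomial ℝ) ^ ((Pool.Agent.Helper96.Flow.subdiv src tgt).edgeFinset.card - A.card) *
          Polynomial.X ^ (A.card
            + Nat.card (SimpleGraph.fromEdgeSet
                (A : Set (Sym2 (Fin n ⊕ Fin k × Bool)))).ConnectedComponent
            - Fintype.card (Fin n ⊕ Fin k × Bool))
        = Pool.Agent.Helper96.Flow.flowP (Pool.Agent.Helper96.Flow.subdiv src tgt) := by
    unfold Pool.Agent.Helper96.Flow.flowP
    refine Finset.sum_congr rfl fun A _ => ?_
    simp
  refine absurd (h _ (Pool.Agent.Helper96.Flow.subdiv src tgt) _ rfl ?_ x ?_) (not_le.mpr hx)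
  · rw [e, key]
    intro h0
    apply hQ0
    exact Polynomial.map_injective _ (RingHom.injective_int _) (by rw [h0, Polynomial.map_zero])
  · rw [e, key, Polynomial.IsRoot.def, Polynomial.eval_map]
    exact hx0

end Pool.Agent.S10984
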