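import Pool.Statements.S11006
import Pool.Agent.Q224.Octa

set_option autoImplicit false
open scoped Pointwise
open Pool Pool.MP_b7cbb2_co

namespace Pool.Agent.S11006

/-- The negation of the preceding statement: For any finite group acting linearly on Z^n and invariant lattice polytope P whose equivariant h*-series is a polynomial, every coefficient with positive h*_i has nonzero sum over the group, i.e. contains the trivial representation. -/
theorem result :
    ¬ (∀ (G : Type) [Group G] [Fintype G] (n : ℕ)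
      (ρ : G →* Matrix.GeneralLinearGroup (Fin n) ℤ)
      (V : Finset (Fin n → ℤ)) (P : Set (Fin n → ℝ)),
      V.Nonempty →
      (∀ g : G, ∀ v ∈ V,
        Matrix.mulVec (ρ g : Matrix (Fin n) (Fin n) ℤ) v ∈ V) →
      P = convexHull ℝ
        ((fun v : Fin n → ℤ => fun j => ((v j : ℤ) : ℝ)) '' (V : Set (Fin n → ℤ))) →
      ∀ (d : ℕ) (ι : (Fin d → ℤ) →ₗ[ℤ] (Fin n → ℤ))
        (σ : G → Matrix (Fin d) (Fin d) ℤ) (Φ : G → PowerSeries ℤ),
      Function.Injective ι →
      (∀ x : Fin n → ℤ,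
        (∃ y : Fin d → ℤ, ι y = x) ↔
          (fun j => ((x j : ℤ) : ℝ)) ∈ vectorSpan ℝ P) →
      (∀ (g : G) (y : Fin d → ℤ),
        ι (Matrix.mulVec (σ g) y) =
          Matrix.mulVec (ρ g : Matrix (Fin n) (Fin n) ℤ) (ι y)) →
      (∀ g : G, Φ g =
        PowerSeries.mk (fun m : ℕ =>
          ((Set.ncard {x : Fin n → ℤ |
              (fun j => ((x j : ℤ) : ℝ)) ∈ (m : ℝ) • P ∧
              Matrix.mulVec (ρ g : Matrix (Fin n) (Fin n) ℤ) x = x} : ℕ) : ℤ))
        * (1 - PowerSeries.X)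
        * ((Matrix.det (1 - (Polynomial.X : Polynomial ℤ) •
              (σ g).map Polynomial.C) : Polynomial ℤ) : PowerSeries ℤ)) →
      (∃ N : ℕ, ∀ g : G, ∀ i : ℕ, N ≤ i →
        PowerSeries.coeff (R := ℤ) i (Φ g) = 0) →
      ∀ i : ℕ, 0 < PowerSeries.coeff (R := ℤ) i (Φ 1) →
        (∑ g : G, PowerSeries.coeff (R := ℤ) i (Φ g)) ≠ 0) := by
  intro h
  have hpoly : ∃ N : ℕ, ∀ g : Multiplicative (ZMod 3), ∀ i : ℕ, N ≤ i →
      PowerSeries.coeff (R := ℤ) i (Q224.Octa.Φ g) = 0 := by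
    refine ⟨3, fun g i hi => ?_⟩
    have e0 : i ≠ 0 := by omega
    have e1 : i ≠ 1 := by omega
    have e2 : i ≠ 2 := by omega
    by_cases hg : g = 1
    · subst hg
      rw [Q224.Octa.Φ_one]
      have : (2 * PowerSeries.X : PowerSeries ℤ) = PowerSeries.X + PowerSeries.X := by ring
      rw [this]
      simp [PowerSeries.coeff_X, PowerSeries.coeff_X_pow, PowerSeries.coeff_one, e0, e1, e2]
    · rw [Q224.Octa.Φ_ne g hg]
      simp [PowerSeries.coeff_X, PowerSeries.coeff_X_pow, PowerSeries.coeff_one, e0, e1, e2]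
  have hcoeff : ∀ g : Multiplicative (ZMod 3), PowerSeries.coeff (R := ℤ) 1 (Q224.Octa.Φ g)
      = if g = 1 then 2 else -1 := by
    intro g
    split_ifs with hg
    · subst hg
      rw [Q224.Octa.Φ_one]
      have : (2 * PowerSeries.X : PowerSeries ℤ) = PowerSeries.X + PowerSeries.X := by ring
      rw [this]
      simp [PowerSeries.coeff_X, PowerSeries.coeff_X_pow, PowerSeries.coeff_one]
    · rw [Q224.Octa.Φ_ne g hg]
      simp [PowerSeries.coeff_X, PowerSeries.coeff_X_pow, PowerSeries.coeff_one]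
  refine h (Multiplicative (ZMod 3)) 3 (Q224.Octa.f.toHomUnits) Q224.Octa.V Q224.Octa.P
    ⟨![1, 0, 0], by decide⟩ Q224.Octa.V_inv rfl 3 LinearMap.id (fun g => Q224.Octa.f g)
    Q224.Octa.Φ Function.injective_id ?_ (fun g y => rfl) (fun g => rfl) hpoly 1 ?_ ?_
  · intro x
    exact ⟨fun _ => Q224.Octa.span_P x, fun _ => ⟨x, rfl⟩⟩
  · rw [hcoeff, if_pos rfl]
    norm_num
  · rw [Finset.sum_congr rfl (fun g _ => hcoeff g)]
    decide
end Pool.Agent.S11006
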