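import Pool.Statements.S11238
import Pool.Agent.Q250.SnStab.Main

set_option autoImplicit false
open Pool Pool.MP_c1e4cd_co

namespace Pool.Agent.S11238

open Finset Q250.SnStab in
/-- the squared distance of the indicator of `A` to the linear function `1 - x₀₀ - x₁₁` -/
lemma dist_linear (t : ℕ) :
    ∑ σ : Equiv.Perm (Fin (t + 3)),
      ((if σ ∈ Q250.SnStab.A t then (1:ℝ) else 0) - ∑ i : Fin (t + 3),
        ((if i = 0 then (if σ i = 0 then 0 else 1) else 0) +
          (if i = 1 then (if σ i = 1 then -1 else 0) else 0) : ℝ)) ^ 2 =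
      2 * ((t + 1).factorial : ℝ) := by
  classical
  have h01 : (0 : Fin (t + 3)) ≠ 1 := zero_ne_one'
  have h1 : ∀ σ : Equiv.Perm (Fin (t + 3)),
      ((if σ ∈ Q250.SnStab.A t then (1:ℝ) else 0) - ∑ i : Fin (t + 3),
        ((if i = 0 then (if σ i = 0 then 0 else 1) else 0) +
          (if i = 1 then (if σ i = 1 then -1 else 0) else 0) : ℝ)) ^ 2 =
      (if σ ∈ R t then (1:ℝ) else 0) + (if σ ∈ (T 0 ∩ T (1 : Fin (t + 3))) then (1:ℝ) else 0) := by
    intro σ
    rw [sum_add_distrib, sum_ite_eq' univ (0 : Fin (t + 3)), sum_ite_eq' univ (1 : Fin (t + 3))]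
    simp only [mem_univ, if_true, mem_A, R, mem_filter, true_and, mem_inter, mem_T]
    by_cases h0 : σ 0 = 0
    · have h2 : ¬ (σ 0 = 1 ∧ σ 1 = 0) := fun h => h01 (h0.symm.trans h.1)
      by_cases h3 : σ 1 = 1
      · simp [h0, h3]
      · simp [h0, h3]
    · by_cases h3 : σ 1 = 1
      · have h2 : ¬ (σ 0 = 1 ∧ σ 1 = 0) := fun h => h01 (h.2.symm.trans h3)
        simp [h0, h3]
      · by_cases h4 : σ 0 = 1 ∧ σ 1 = 0
        · simp [h4]
        · simp [h0, h3, h4]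
  rw [sum_congr rfl (fun σ _ => h1 σ), sum_add_distrib]
  have h2 : ∀ S : Finset (Equiv.Perm (Fin (t + 3))),
      ∑ σ : Equiv.Perm (Fin (t + 3)), (if σ ∈ S then (1:ℝ) else 0) = S.card := by
    intro S
    simp
  rw [h2, h2, card_R, card_TT]
  ring

open Finset in
/-- the squared distance of two indicators is the size of the symmetric difference -/
lemma dist_indicator {α : Type} [Fintype α] [DecidableEq α] (S : Finset α) (p : α → Prop)
    [DecidablePred p] :
    ∑ x : α, ((if x ∈ S then (1:ℝ) else 0) - (if p x then (1:ℝ) else 0)) ^ 2 =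
      ((symmDiff S (univ.filter p)).card : ℝ) := by
  have h1 : ∀ x : α, ((if x ∈ S then (1:ℝ) else 0) - (if p x then (1:ℝ) else 0)) ^ 2 =
      if x ∈ symmDiff S (univ.filter p) then (1:ℝ) else 0 := by
    intro x
    by_cases h2 : x ∈ S <;> by_cases h3 : p x <;> simp [mem_symmDiff, h2, h3]
  rw [sum_congr rfl (fun x _ => h1 x)]
  simp

/-- The negation of the preceding statement: Some C₀>0 works for all n≥1: if A⊆S_n, c=∣A∣/(n-1)!, and 1_A is within mean-square εc/n of the span of 1-coset indicators, then 1_A is within C₀εc/n of a union of round(c) distinct 1-cosets, and ∣c−round(c)∣≤C₀ε. -/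
theorem result :
    ¬ (∃ C₀ : ℝ, 0 < C₀ ∧ ∀ n : ℕ, 1 ≤ n → ∀ A : Finset (Equiv.Perm (Fin n)), ∀ ε : ℝ, 0 ≤ ε →
    (∃ a : Fin n → Fin n → ℝ,
      (1 / (n.factorial : ℝ)) * ∑ σ : Equiv.Perm (Fin n),
          ((if σ ∈ A then (1:ℝ) else 0) - ∑ i : Fin n, a i (σ i)) ^ 2
        ≤ ε * ((A.card : ℝ) / ((n - 1).factorial : ℝ)) / n) →
    ∃ S : Finset (Fin n × Fin n),
      (S.card : ℤ) = round ((A.card : ℝ) / ((n - 1).factorial : ℝ)) ∧
      (1 / (n.factorial : ℝ)) * ∑ σ : Equiv.Perm (Fin n),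
          ((if σ ∈ A then (1:ℝ) else 0) - (if ∃ p ∈ S, σ p.1 = p.2 then (1:ℝ) else 0)) ^ 2
        ≤ C₀ * ε * ((A.card : ℝ) / ((n - 1).factorial : ℝ)) / n ∧
      |(A.card : ℝ) / ((n - 1).factorial : ℝ)
          - ((round ((A.card : ℝ) / ((n - 1).factorial : ℝ)) : ℤ) : ℝ)| ≤ C₀ * ε) := by
  rintro ⟨C, hC, H⟩
  obtain ⟨K0, hK0⟩ := exists_nat_ge (2 * C)
  set K := K0 + 2 with hK
  set t := K ^ 2 + 2 * K with ht
  have ht3 : t + 3 - 1 = t + 2 := by omega
  set ε : ℝ := 2 / (((t : ℝ) + 2) * ((t : ℝ) + 1)) with hε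
  have hε0 : 0 ≤ ε := by positivity
  have hf1 : (0 : ℝ) < ((t + 1).factorial : ℝ) := by exact_mod_cast (t + 1).factorial_pos
  have hf2 : ((t + 2).factorial : ℝ) = ((t : ℝ) + 2) * ((t + 1).factorial : ℝ) := by
    rw [Nat.factorial_succ (t + 1)]
    push_cast
    ring
  have hf3 : ((t + 3).factorial : ℝ) = ((t : ℝ) + 3) * (((t : ℝ) + 2) * ((t + 1).factorial : ℝ)) := by
    rw [Nat.factorial_succ (t + 2), Nat.cast_mul, hf2]
    push_cast
    ring
  have hA := Q250.SnStab.card_A t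
  have ht2 : (0 : ℝ) < (t : ℝ) + 2 := by positivity
  have ht1 : (0 : ℝ) < (t : ℝ) + 1 := by positivity
  have ht3' : (0 : ℝ) < (t : ℝ) + 3 := by positivity
  have hc : ((Q250.SnStab.A t).card : ℝ) / ((t + 3 - 1).factorial : ℝ) = ((t + 1 : ℕ) : ℝ) := by
    rw [hA, ht3, Nat.cast_mul, hf2]
    field_simp
  have hround : round (((t + 1 : ℕ) : ℝ)) = ((t + 1 : ℕ) : ℤ) := round_natCast _
  obtain ⟨P, hP, hPd, -⟩ := H (t + 3) (by omega) (Q250.SnStab.A t) ε hε0
    ⟨fun i j => (if i = 0 then (if j = 0 then 0 else 1) else 0) +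
          (if i = 1 then (if j = 1 then -1 else 0) else 0), by
      rw [dist_linear, hc, hf3, hε]
      push_cast
      apply le_of_eq
      field_simp⟩
  rw [hc, hround] at hP
  have hP' : P.card = t + 1 := by exact_mod_cast hP
  have hfar := Q250.SnStab.far t K (by omega) (by omega) (by nlinarith) P hP'
  have hfar' : ((K : ℝ) - 1) * ((t + 1).factorial : ℝ) ≤
      ((symmDiff (Q250.SnStab.A t) (Q250.SnStab.U P)).card : ℝ) := by
    have h1 : (((K - 1) * (t + 1).factorial : ℕ) : ℝ) ≤ _ := Nat.cast_le.2 hfar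
    rw [Nat.cast_mul, Nat.cast_sub (by omega)] at h1
    simpa using h1
  rw [dist_indicator, hc] at hPd
  have h2 : (1 / ((t + 3).factorial : ℝ)) *
      ((symmDiff (Q250.SnStab.A t) (Q250.SnStab.U P)).card : ℝ) ≤
      C * ε * ((t + 1 : ℕ) : ℝ) / ((t + 3 : ℕ) : ℝ) := hPd
  have h3 : C * ε * ((t + 1 : ℕ) : ℝ) / ((t + 3 : ℕ) : ℝ) * ((t + 3).factorial : ℝ) =
      2 * C * ((t + 1).factorial : ℝ) := by
    rw [hε, hf3]
    push_cast
    field_simp
  have hf3pos : (0 : ℝ) < ((t + 3).factorial : ℝ) := by exact_mod_cast (t + 3).factorial_pos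
  have h4 : ((symmDiff (Q250.SnStab.A t) (Q250.SnStab.U P)).card : ℝ) ≤
      2 * C * ((t + 1).factorial : ℝ) := by
    have h5 := mul_le_mul_of_nonneg_right h2 hf3pos.le
    rw [h3] at h5
    refine le_trans (le_of_eq ?_) h5
    field_simp
  have h7 : (K : ℝ) = (K0 : ℝ) + 2 := by rw [hK]; push_cast; ring
  have h8 : ((K : ℝ) - 1) * ((t + 1).factorial : ℝ) ≤ 2 * C * ((t + 1).factorial : ℝ) :=
    hfar'.trans h4
  have h9 : (K : ℝ) - 1 ≤ 2 * C := le_of_mul_le_mul_right h8 hf1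
  linarith

end Pool.Agent.S11238
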