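import Pool.Statements.S11473
-- import your own Pool.Agent.* helpers here

set_option autoImplicit false
open Pool Pool.MP_cc29fe_co

namespace Pool.Agent.S11473

section aux

open Classical

variable {V : Type} [Fintype V] (G : SimpleGraph V)

/-- `w` is adjacent to exactly one of `x`, `y`. -/
def Sep (w x y : V) : Prop := (G.Adj w x ∧ ¬ G.Adj w y) ∨ (¬ G.Adj w x ∧ G.Adj w y)

lemma Sep.symm' {w x y : V} (h : Sep G w x y) : Sep G w y x := by
  unfold Sep at *; tauto

/-- every edge inside `U` is separated by a vertex of `W`. -/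
def Res (U W : Finset V) : Prop := ∀ x ∈ U, ∀ y ∈ U, G.Adj x y → ∃ w ∈ W, Sep G w x y

/-- The components of `G[R]` that are cliques with `ω` vertices. -/
noncomputable def isoK (ω : ℕ) (R : Finset V) : Finset (Finset V) :=
  R.powerset.filter (fun J => J.card = ω ∧ (∀ x ∈ J, ∀ y ∈ J, x ≠ y → G.Adj x y) ∧
    ∀ j ∈ J, ∀ x ∈ R, x ∉ J → ¬ G.Adj j x)

noncomputable def bad (ω : ℕ) (R Z : Finset V) : Finset (Finset V) :=
  (isoK G ω R).filter (fun J => ∀ z ∈ Z, ∀ j ∈ J, ¬ G.Adj z j)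

noncomputable def good (ω : ℕ) (R Z : Finset V) : Finset (Finset V) :=
  (isoK G ω R).filter (fun J => ¬ ∀ z ∈ Z, ∀ j ∈ J, ¬ G.Adj z j)

lemma mem_isoK {ω : ℕ} {R J : Finset V} : J ∈ isoK G ω R ↔
    J ⊆ R ∧ J.card = ω ∧ (∀ x ∈ J, ∀ y ∈ J, x ≠ y → G.Adj x y) ∧
      ∀ j ∈ J, ∀ x ∈ R, x ∉ J → ¬ G.Adj j x := by
  simp [isoK]

lemma good_add_bad (ω : ℕ) (R Z : Finset V) :
    (good G ω R Z).card + (bad G ω R Z).card = (isoK G ω R).card := by
  unfold good bad
  rw [add_comm]
  exact Finset.card_filter_add_card_filter_not (s := isoK G ω R) (fun J => ∀ z ∈ Z, ∀ j ∈ J, ¬ G.Adj z j)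

/-- A vertex outside a clique with `ω` vertices misses one of its vertices. -/
lemma exists_nonadj {ω : ℕ} (hfree : G.CliqueFree (ω + 1)) {J : Finset V} (hc : J.card = ω)
    (hJ : ∀ x ∈ J, ∀ y ∈ J, x ≠ y → G.Adj x y) {z : V} (hz : z ∉ J) : ∃ j ∈ J, ¬ G.Adj z j := by
  by_contra hcon
  push Not at hcon
  apply hfree (insert z J)
  constructor
  · intro x hx y hy hxy
    simp only [Finset.coe_insert, Set.mem_insert_iff, Finset.mem_coe] at hx hy
    rcases hx with rfl | hx <;> rcases hy with rfl | hy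
    · exact absurd rfl hxy
    · exact hcon y hy
    · exact (hcon x hx).symm
    · exact hJ x hx y hy hxy
  · rw [Finset.card_insert_of_notMem hz, hc]

lemma isoK_eq_insert {ω : ℕ} {R J : Finset V} (hω : 1 ≤ ω) (hJ : J ∈ isoK G ω R) :
    isoK G ω R = insert J (isoK G ω (R \ J)) ∧ J ∉ isoK G ω (R \ J) := by
  rw [mem_isoK] at hJ
  obtain ⟨hJR, hJc, hJq, hJi⟩ := hJ
  constructor
  · ext L
    rw [Finset.mem_insert, mem_isoK, mem_isoK]
    constructor
    · rintro ⟨h1, h2, h3, h4⟩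
      by_cases hLJ : L = J
      · exact Or.inl hLJ
      · right
        have hdisj : ∀ v ∈ L, v ∉ J := by
          intro v hvL hvJ
          have : ∃ x ∈ J, x ∉ L := by
            by_contra hcon
            push Not at hcon
            have : J ⊆ L := hcon
            exact hLJ (Finset.eq_of_subset_of_card_le this (by omega)).symm
          obtain ⟨x, hxJ, hxL⟩ := this
          exact h4 v hvL x (hJR hxJ) hxL (hJq v hvJ x hxJ (by rintro rfl; exact hxL hvL))
        refine ⟨?_, h2, h3, ?_⟩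
        · intro v hv
          rw [Finset.mem_sdiff]
          exact ⟨h1 hv, hdisj v hv⟩
        · intro j hj x hx hxL
          rw [Finset.mem_sdiff] at hx
          exact h4 j hj x hx.1 hxL
    · rintro (rfl | ⟨h1, h2, h3, h4⟩)
      · exact ⟨hJR, hJc, hJq, hJi⟩
      · refine ⟨fun v hv => (Finset.mem_sdiff.mp (h1 hv)).1, h2, h3, ?_⟩
        intro j hj x hx hxL
        by_cases hxJ : x ∈ J
        · intro hadj
          have := Finset.mem_sdiff.mp (h1 hj)
          exact hJi x hxJ j this.1 this.2 hadj.symm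
        · exact h4 j hj x (Finset.mem_sdiff.mpr ⟨hx, hxJ⟩) hxL
  · intro h
    rw [mem_isoK] at h
    have : J.Nonempty := by
      rw [← Finset.card_pos]; omega
    obtain ⟨v, hv⟩ := this
    exact (Finset.mem_sdiff.mp (h.1 hv)).2 hv

/-- The goal for a set `R` of remaining vertices, with the external separators `Z`. -/
def Goal (m : ℕ) (R Z : Finset V) : Prop :=
  ∃ U, U ⊆ R ∧ Res G U ((R \ U) ∪ Z) ∧
    R.card + m * (good G (m + 2) R Z).card ≤ (m + 1) * U.card + (bad G (m + 2) R Z).card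

/-- Removing a clique component. -/
lemma goal_of_iso {m : ℕ} (hfree : G.CliqueFree (m + 2 + 1)) {R Z J : Finset V}
    (hRZ : Disjoint R Z) (hJ : J ∈ isoK G (m + 2) R) (ih : Goal G m (R \ J) Z) :
    Goal G m R Z := by
  obtain ⟨U', hU', hres, hcard⟩ := ih
  obtain ⟨heq, hnot⟩ := isoK_eq_insert G (by omega) hJ
  have hJ' := hJ
  rw [mem_isoK] at hJ'
  obtain ⟨hJR, hJc, hJq, hJi⟩ := hJ'
  have hcardR : (R \ J).card + (m + 2) = R.card := by
    rw [← hJc]; exact Finset.card_sdiff_add_card_eq_card hJR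
  have hU'J : ∀ v ∈ U', v ∈ R ∧ v ∉ J := fun v hv => Finset.mem_sdiff.mp (hU' hv)
  by_cases hgb : ∀ z ∈ Z, ∀ j ∈ J, ¬ G.Adj z j
  · -- bad
    have hb : bad G (m + 2) R Z = insert J (bad G (m + 2) (R \ J) Z) := by
      unfold bad
      rw [heq, Finset.filter_insert, if_pos hgb]
    have hg : good G (m + 2) R Z = good G (m + 2) (R \ J) Z := by
      unfold good
      rw [heq, Finset.filter_insert, if_neg (by simpa using hgb)]
    have hbn : J ∉ bad G (m + 2) (R \ J) Z := by
      intro h; exact hnot (Finset.mem_filter.mp h).1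
    obtain ⟨j, hj⟩ : J.Nonempty := by rw [← Finset.card_pos]; omega
    refine ⟨insert j U', ?_, ?_, ?_⟩
    · intro v hv
      rcases Finset.mem_insert.mp hv with rfl | hv
      · exact hJR hj
      · exact (hU'J v hv).1
    · intro x hx y hy hxy
      rcases Finset.mem_insert.mp hx with hx1 | hx1 <;>
        rcases Finset.mem_insert.mp hy with hy1 | hy1
      · exact absurd (hx1.trans hy1.symm) hxy.ne
      · exact absurd (hx1 ▸ hxy) (hJi j hj y (hU'J y hy1).1 (hU'J y hy1).2)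
      · exact absurd (hy1 ▸ hxy.symm) (hJi j hj x (hU'J x hx1).1 (hU'J x hx1).2)
      · obtain ⟨w, hw, hs⟩ := hres x hx1 y hy1 hxy
        refine ⟨w, ?_, hs⟩
        simp only [Finset.mem_union, Finset.mem_sdiff, Finset.mem_insert] at hw ⊢
        rcases hw with hw | hw
        · left
          refine ⟨hw.1.1, ?_⟩
          rintro (rfl | h)
          · exact hw.1.2 hj
          · exact hw.2 h
        · right; exact hw
    · rw [hb, hg, Finset.card_insert_of_notMem hbn, Finset.card_insert_of_notMem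
        (fun h => (hU'J j h).2 hj)]
      nlinarith
  · -- good
    have hb : bad G (m + 2) R Z = bad G (m + 2) (R \ J) Z := by
      unfold bad
      rw [heq, Finset.filter_insert, if_neg hgb]
    have hg : good G (m + 2) R Z = insert J (good G (m + 2) (R \ J) Z) := by
      unfold good
      rw [heq, Finset.filter_insert, if_pos hgb]
    have hgn : J ∉ good G (m + 2) (R \ J) Z := by
      intro h; exact hnot (Finset.mem_filter.mp h).1
    push Not at hgb
    obtain ⟨z, hz, j1, hj1, hzj1⟩ := hgb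
    have hzJ : z ∉ J := fun h => (Finset.disjoint_left.mp hRZ (hJR h)) hz
    obtain ⟨j0, hj0, hzj0⟩ := exists_nonadj G hfree hJc hJq hzJ
    have hne : j0 ≠ j1 := by rintro rfl; exact hzj0 hzj1
    have hzR : z ∉ R := fun h => (Finset.disjoint_left.mp hRZ h) hz
    refine ⟨insert j0 (insert j1 U'), ?_, ?_, ?_⟩
    · intro v hv
      rcases Finset.mem_insert.mp hv with rfl | hv
      · exact hJR hj0
      rcases Finset.mem_insert.mp hv with rfl | hv
      · exact hJR hj1
      · exact (hU'J v hv).1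
    · have key : ∀ x ∈ J, ∀ y ∈ U', ¬ G.Adj x y := fun x hx y hy =>
        hJi x hx y (hU'J y hy).1 (hU'J y hy).2
      have hzmem : z ∈ R \ insert j0 (insert j1 U') ∪ Z := Finset.mem_union_right _ hz
      intro x hx y hy hxy
      simp only [Finset.mem_insert] at hx hy
      rcases hx with hx1 | hx1 | hx1 <;> rcases hy with hy1 | hy1 | hy1
      · exact absurd (hx1.trans hy1.symm) hxy.ne
      · exact ⟨z, hzmem, Or.inr ⟨hx1 ▸ hzj0, hy1 ▸ hzj1⟩⟩
      · exact absurd (hx1 ▸ hxy) (key j0 hj0 y hy1)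
      · exact ⟨z, hzmem, Or.inl ⟨hx1 ▸ hzj1, hy1 ▸ hzj0⟩⟩
      · exact absurd (hx1.trans hy1.symm) hxy.ne
      · exact absurd (hx1 ▸ hxy) (key j1 hj1 y hy1)
      · exact absurd (hy1 ▸ hxy.symm) (key j0 hj0 x hx1)
      · exact absurd (hy1 ▸ hxy.symm) (key j1 hj1 x hx1)
      · obtain ⟨w, hw, hs⟩ := hres x hx1 y hy1 hxy
        refine ⟨w, ?_, hs⟩
        simp only [Finset.mem_union, Finset.mem_sdiff, Finset.mem_insert] at hw ⊢
        rcases hw with hw | hw
        · left
          refine ⟨hw.1.1, ?_⟩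
          rintro (rfl | rfl | h)
          · exact hw.1.2 hj0
          · exact hw.1.2 hj1
          · exact hw.2 h
        · right; exact hw
    · have hj1U : j1 ∉ U' := fun h => (hU'J j1 h).2 hj1
      have hj0U : j0 ∉ insert j1 U' := by
        intro h
        rcases Finset.mem_insert.mp h with h | h
        · exact hne h
        · exact (hU'J j0 h).2 hj0
      rw [hb, hg, Finset.card_insert_of_notMem hgn, Finset.card_insert_of_notMem hj0U,
        Finset.card_insert_of_notMem hj1U]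
      nlinarith

/-- Removing a set `S` with chosen part `U₀`. -/
lemma goal_of_step {m : ℕ} {R Z S U₀ : Finset V} (hI : isoK G (m + 2) R = ∅)
    (hSR : S ⊆ R) (hU₀ : U₀ ⊆ S)
    (hin : ∀ x ∈ U₀, ∀ y ∈ U₀, G.Adj x y → ∃ w ∈ S \ U₀, Sep G w x y)
    (hP : ∀ u ∈ U₀, ∀ x ∈ R, x ∉ S → G.Adj u x → ∃ w ∈ S \ U₀, Sep G w u x)
    (hslack : S.card + (bad G (m + 2) (R \ S) (S \ U₀)).card ≤
      (m + 1) * U₀.card + m * (good G (m + 2) (R \ S) (S \ U₀)).card)
    (ih : Goal G m (R \ S) (S \ U₀)) : Goal G m R Z := by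
  obtain ⟨U', hU', hres, hcard⟩ := ih
  have hU'S : ∀ v ∈ U', v ∈ R ∧ v ∉ S := fun v hv => Finset.mem_sdiff.mp (hU' hv)
  have hdisj : Disjoint U₀ U' := by
    rw [Finset.disjoint_left]
    intro v hv hv'
    exact (hU'S v hv').2 (hU₀ hv)
  have hbR : (bad G (m + 2) R Z).card = 0 := by
    unfold bad; rw [hI]; simp
  have hgR : (good G (m + 2) R Z).card = 0 := by
    unfold good; rw [hI]; simp
  have hmem : ∀ w ∈ S \ U₀, w ∈ R \ (U₀ ∪ U') ∪ Z := by
    intro w hw
    rw [Finset.mem_sdiff] at hw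
    apply Finset.mem_union_left
    rw [Finset.mem_sdiff, Finset.mem_union]
    refine ⟨hSR hw.1, ?_⟩
    rintro (h | h)
    · exact hw.2 h
    · exact (hU'S w h).2 hw.1
  refine ⟨U₀ ∪ U', ?_, ?_, ?_⟩
  · intro v hv
    rcases Finset.mem_union.mp hv with hv | hv
    · exact hSR (hU₀ hv)
    · exact (hU'S v hv).1
  · intro x hx y hy hxy
    rcases Finset.mem_union.mp hx with hx1 | hx1 <;>
      rcases Finset.mem_union.mp hy with hy1 | hy1
    · obtain ⟨w, hw, hs⟩ := hin x hx1 y hy1 hxy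
      exact ⟨w, hmem w hw, hs⟩
    · obtain ⟨w, hw, hs⟩ := hP x hx1 y (hU'S y hy1).1 (hU'S y hy1).2 hxy
      exact ⟨w, hmem w hw, hs⟩
    · obtain ⟨w, hw, hs⟩ := hP y hy1 x (hU'S x hx1).1 (hU'S x hx1).2 hxy.symm
      exact ⟨w, hmem w hw, hs.symm'⟩
    · obtain ⟨w, hw, hs⟩ := hres x hx1 y hy1 hxy
      refine ⟨w, ?_, hs⟩
      rcases Finset.mem_union.mp hw with hw | hw
      · simp only [Finset.mem_union, Finset.mem_sdiff] at hw ⊢
        left
        refine ⟨hw.1.1, ?_⟩
        rintro (h | h)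
        · exact hw.1.2 (hU₀ h)
        · exact hw.2 h
      · exact hmem w hw
  · rw [hbR, hgR, Finset.card_union_of_disjoint hdisj]
    have hcardR : (R \ S).card + S.card = R.card := Finset.card_sdiff_add_card_eq_card hSR
    nlinarith

/-- A clique component of `R \ K` which is not adjacent to `K` is a component of `R`. -/
lemma isoK_of_not_adj {ω : ℕ} {R K L : Finset V} (hL : L ∈ isoK G ω (R \ K))
    (h : ∀ k ∈ K, ∀ l ∈ L, ¬ G.Adj k l) : L ∈ isoK G ω R := by
  rw [mem_isoK] at hL ⊢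
  obtain ⟨h1, h2, h3, h4⟩ := hL
  refine ⟨fun v hv => (Finset.mem_sdiff.mp (h1 hv)).1, h2, h3, ?_⟩
  intro j hj x hx hxL
  by_cases hxK : x ∈ K
  · exact fun hadj => h x hxK j hj hadj.symm
  · exact h4 j hj x (Finset.mem_sdiff.mpr ⟨hx, hxK⟩) hxL

/-- Choice of a vertex of the clique `K` that is alone responsible for the fewest clique
components of `R \ K`. -/
lemma exists_min_vertex {ω : ℕ} {R K : Finset V} (hI : isoK G ω R = ∅) (hK : K.Nonempty) :
    ∃ u ∈ K, K.card * (bad G ω (R \ K) (K \ {u})).card ≤ (isoK G ω (R \ K)).card := by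
  obtain ⟨u, hu, hmin⟩ := Finset.exists_min_image K
    (fun u => (bad G ω (R \ K) (K \ {u})).card) hK
  refine ⟨u, hu, ?_⟩
  have hdisj : (K : Set V).PairwiseDisjoint (fun u => bad G ω (R \ K) (K \ {u})) := by
    intro a ha b hb hab
    rw [Function.onFun, Finset.disjoint_left]
    intro L hLa hLb
    have hLa' := Finset.mem_filter.mp hLa
    have hLb' := Finset.mem_filter.mp hLb
    have : L ∈ isoK G ω R := by
      apply isoK_of_not_adj G hLa'.1
      intro k hk l hl
      by_cases hka : k = a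
      · apply hLb'.2 k _ l hl
        rw [Finset.mem_sdiff, Finset.mem_singleton]
        exact ⟨hk, fun h => hab (hka.symm.trans h)⟩
      · apply hLa'.2 k _ l hl
        rw [Finset.mem_sdiff, Finset.mem_singleton]
        exact ⟨hk, hka⟩
    rw [hI] at this
    simp at this
  calc K.card * (bad G ω (R \ K) (K \ {u})).card
      ≤ ∑ v ∈ K, (bad G ω (R \ K) (K \ {v})).card := by
        rw [← smul_eq_mul]
        exact Finset.card_nsmul_le_sum K _ _ hmin
    _ = (K.biUnion (fun v => bad G ω (R \ K) (K \ {v}))).card := by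
        rw [Finset.card_biUnion hdisj]
    _ ≤ (isoK G ω (R \ K)).card := by
        apply Finset.card_le_card
        intro L hL
        rw [Finset.mem_biUnion] at hL
        obtain ⟨v, -, hv⟩ := hL
        exact (Finset.mem_filter.mp hv).1

/-- Removing a clique `K` that is maximal in `R`, provided it is small or `R \ K` has a clique
component. -/
lemma goal_of_clique {m : ℕ} (hm : 1 ≤ m) {R Z K : Finset V}
    (hI : isoK G (m + 2) R = ∅) (hKR : K ⊆ R) (hK : K.Nonempty)
    (hKq : ∀ x ∈ K, ∀ y ∈ K, x ≠ y → G.Adj x y)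
    (hKmax : ∀ x ∈ R, x ∉ K → ∃ k ∈ K, ¬ G.Adj x k)
    (hcase : K.card ≤ m + 1 ∨ (K.card = m + 2 ∧ (isoK G (m + 2) (R \ K)).Nonempty))
    (ih : ∀ R' Z' : Finset V, R'.card < R.card → Disjoint R' Z' → Goal G m R' Z') :
    Goal G m R Z := by
  obtain ⟨u, hu, hcount⟩ := exists_min_vertex G hI hK
  have hgb := good_add_bad G (m + 2) (R \ K) (K \ {u})
  apply goal_of_step G hI hKR (U₀ := {u}) (Finset.singleton_subset_iff.mpr hu)
  · intro x hx y hy hxy
    rw [Finset.mem_singleton] at hx hy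
    exact absurd (hx.trans hy.symm) hxy.ne
  · intro v hv x hx hxK hadj
    rw [Finset.mem_singleton] at hv
    subst hv
    obtain ⟨k, hk, hxk⟩ := hKmax x hx hxK
    have hkv : k ≠ v := by rintro rfl; exact hxk hadj.symm
    refine ⟨k, ?_, Or.inl ⟨hKq k hk v hu hkv, fun h => hxk h.symm⟩⟩
    rw [Finset.mem_sdiff, Finset.mem_singleton]
    exact ⟨hk, hkv⟩
  · rw [Finset.card_singleton]
    set b := (bad G (m + 2) (R \ K) (K \ {u})).card with hb
    set g := (good G (m + 2) (R \ K) (K \ {u})).card with hg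
    set M := (isoK G (m + 2) (R \ K)).card with hM
    have hKpos : 1 ≤ K.card := Finset.card_pos.mpr hK
    rcases hcase with h | ⟨h, hne⟩
    · by_cases h1 : K.card = 1
      · -- an isolated vertex
        have hb0 : b = 0 := by
          rw [hb, Finset.card_eq_zero]
          by_contra hne
          obtain ⟨L, hL⟩ := Finset.nonempty_iff_ne_empty.mpr hne
          have hL' := (Finset.mem_filter.mp hL).1
          have : L ∈ isoK G (m + 2) R := by
            apply isoK_of_not_adj G hL'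
            intro k hk l hl hadj
            have hl' : l ∈ R \ K := ((mem_isoK G).mp hL').1 hl
            rw [Finset.mem_sdiff] at hl'
            obtain ⟨k', hk', hn⟩ := hKmax l hl'.1 hl'.2
            have : k' = k := by
              rw [Finset.card_eq_one] at h1
              obtain ⟨a, ha⟩ := h1
              rw [ha, Finset.mem_singleton] at hk hk'
              rw [hk, hk']
            rw [this] at hn
            exact hn hadj.symm
          rw [hI] at this
          simp at this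
        rw [hb0, h1]
        nlinarith
      · have h2 : 2 ≤ K.card := by omega
        have : 2 * b ≤ M := le_trans (Nat.mul_le_mul_right _ h2) hcount
        have hgb' : b ≤ g := by omega
        nlinarith
    · rw [h]
      have hM1 : 1 ≤ M := Finset.card_pos.mpr hne
      rw [h] at hcount
      have hg1 : (m + 1) * b ≤ g := by nlinarith
      rcases Nat.eq_zero_or_pos b with hb0 | hbpos
      · rw [hb0]
        have : 1 ≤ g := by omega
        nlinarith
      · have h2 : 2 * b ≤ g := le_trans (Nat.mul_le_mul_right _ (by omega)) hg1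
        nlinarith
  · apply ih
    · apply Finset.card_lt_card
      rw [Finset.ssubset_iff_subset_ne]
      refine ⟨Finset.sdiff_subset, ?_⟩
      intro h
      have : u ∈ R \ K := by rw [h]; exact hKR hu
      exact (Finset.mem_sdiff.mp this).2 hu
    · rw [Finset.disjoint_left]
      intro v hv hv'
      exact (Finset.mem_sdiff.mp hv).2 (Finset.mem_sdiff.mp hv').1

/-- Case B2. -/
lemma goal_of_B2 {m : ℕ} (hm : 1 ≤ m) {R Z K : Finset V} {z k0 k1 : V}
    (hI : isoK G (m + 2) R = ∅) (hKR : K ⊆ R) (hKc : K.card = m + 2)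
    (hKq : ∀ x ∈ K, ∀ y ∈ K, x ≠ y → G.Adj x y) (hIK : isoK G (m + 2) (R \ K) = ∅)
    (hzR : z ∈ R) (hzK : z ∉ K) (hk1 : k1 ∈ K) (hzk1 : G.Adj z k1) (hk0 : k0 ∈ K)
    (hzk0 : ¬ G.Adj z k0)
    (hi : ∀ x ∈ R, x ∉ K → G.Adj x z → ∃ k ∈ K, k ≠ k0 ∧ ¬ G.Adj x k)
    (hii : ∀ x ∈ R, x ∉ K → x ≠ z → ¬ G.Adj x z → ∃ k ∈ K, k ≠ k1 ∧ ¬ G.Adj x k)
    (ih : ∀ R' Z' : Finset V, R'.card < R.card → Disjoint R' Z' → Goal G m R' Z') :
    Goal G m R Z := by
  have hne : k0 ≠ k1 := by rintro rfl; exact hzk0 hzk1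
  have hzk0' : z ≠ k0 := by rintro rfl; exact hzK hk0
  have hzk1' : z ≠ k1 := by rintro rfl; exact hzK hk1
  have hzW : z ∈ insert z K \ {k0, k1} := by
    simp [hzk0', hzk1']
  have hKW : ∀ k ∈ K, k ≠ k0 → k ≠ k1 → k ∈ insert z K \ {k0, k1} := by
    intro k hk h0 h1
    simp [hk, h0, h1]
  have hSR : insert z K ⊆ R := by
    intro v hv
    rcases Finset.mem_insert.mp hv with rfl | hv
    · exact hzR
    · exact hKR hv
  have hb : bad G (m + 2) (R \ insert z K) (insert z K \ {k0, k1}) = ∅ := by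
    by_contra hcon
    obtain ⟨L, hL⟩ := Finset.nonempty_iff_ne_empty.mpr hcon
    have hL' := Finset.mem_filter.mp hL
    have h1 : L ∈ isoK G (m + 2) ((R \ K) \ {z}) := by
      have : (R \ K) \ {z} = R \ insert z K := by
        ext v; simp only [Finset.mem_sdiff, Finset.mem_singleton, Finset.mem_insert]; tauto
      rw [this]; exact hL'.1
    have h2 : L ∈ isoK G (m + 2) (R \ K) := by
      apply isoK_of_not_adj G h1
      intro k hk l hl
      rw [Finset.mem_singleton] at hk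
      subst hk
      exact hL'.2 k hzW l hl
    rw [hIK] at h2
    simp at h2
  apply goal_of_step G hI (S := insert z K) (U₀ := {k0, k1}) hSR
  · intro v hv
    simp only [Finset.mem_insert, Finset.mem_singleton] at hv ⊢
    rcases hv with rfl | rfl
    · exact Or.inr hk0
    · exact Or.inr hk1
  · intro x hx y hy hxy
    simp only [Finset.mem_insert, Finset.mem_singleton] at hx hy
    rcases hx with hx | hx <;> rcases hy with hy | hy
    · exact absurd (hx.trans hy.symm) hxy.ne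
    · exact ⟨z, hzW, Or.inr ⟨hx ▸ hzk0, hy ▸ hzk1⟩⟩
    · exact ⟨z, hzW, Or.inl ⟨hx ▸ hzk1, hy ▸ hzk0⟩⟩
    · exact absurd (hx.trans hy.symm) hxy.ne
  · intro v hv x hxR hxS hadj
    have hxz : x ≠ z := by rintro rfl; exact hxS (Finset.mem_insert_self _ _)
    have hxK : x ∉ K := fun h => hxS (Finset.mem_insert_of_mem h)
    simp only [Finset.mem_insert, Finset.mem_singleton] at hv
    rcases hv with rfl | rfl
    · -- v = k0
      by_cases hxz' : G.Adj x z
      · exact ⟨z, hzW, Or.inr ⟨hzk0, hxz'.symm⟩⟩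
      · obtain ⟨k, hk, hkk, hxk⟩ := hii x hxR hxK hxz hxz'
        have hkv : k ≠ v := by rintro rfl; exact hxk hadj.symm
        exact ⟨k, hKW k hk hkv hkk, Or.inl ⟨hKq k hk v hk0 hkv, fun h => hxk h.symm⟩⟩
    · -- v = k1
      by_cases hxz' : G.Adj x z
      · obtain ⟨k, hk, hkk, hxk⟩ := hi x hxR hxK hxz'
        have hkv : k ≠ v := by rintro rfl; exact hxk hadj.symm
        exact ⟨k, hKW k hk hkk hkv, Or.inl ⟨hKq k hk v hk1 hkv, fun h => hxk h.symm⟩⟩
      · exact ⟨z, hzW, Or.inl ⟨hzk1, fun h => hxz' h.symm⟩⟩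
  · rw [hb, Finset.card_empty, Finset.card_pair hne, Finset.card_insert_of_notMem hzK, hKc]
    have := Nat.zero_le (m * (good G (m + 2) (R \ insert z K) (insert z K \ {k0, k1})).card)
    nlinarith
  · apply ih
    · apply Finset.card_lt_card
      rw [Finset.ssubset_iff_subset_ne]
      refine ⟨Finset.sdiff_subset, ?_⟩
      intro h
      have : z ∈ R \ insert z K := by rw [h]; exact hzR
      exact (Finset.mem_sdiff.mp this).2 (Finset.mem_insert_self _ _)
    · rw [Finset.disjoint_left]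
      intro v hv hv'
      exact (Finset.mem_sdiff.mp hv).2 (Finset.mem_sdiff.mp hv').1

/-- Case B3, first alternative: `S = K' ∪ T`. -/
lemma goal_of_B3a {m : ℕ} (hm : 1 ≤ m) {R Z K' T : Finset V}
    (hI : isoK G (m + 2) R = ∅) (hKR : K' ⊆ R) (hTR : T ⊆ R) (hKc : K'.card = m + 1)
    (hdisj : Disjoint K' T) (hT2 : 2 ≤ T.card)
    (hTi : ∀ x ∈ T, ∀ y ∈ T, ¬ G.Adj x y)
    (hTadj : ∀ t ∈ T, ∀ k ∈ K', G.Adj t k)
    (hTall : ∀ x ∈ R, x ∉ K' → x ∉ T → ∃ k ∈ K', ¬ G.Adj x k)
    (hb : bad G (m + 2) (R \ (K' ∪ T)) K' = ∅)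
    (ih : ∀ R' Z' : Finset V, R'.card < R.card → Disjoint R' Z' → Goal G m R' Z') :
    Goal G m R Z := by
  have hST : (K' ∪ T) \ T = K' := by
    ext v
    simp only [Finset.mem_sdiff, Finset.mem_union]
    constructor
    · rintro ⟨h | h, h'⟩
      · exact h
      · exact absurd h h'
    · intro h
      exact ⟨Or.inl h, fun h' => Finset.disjoint_left.mp hdisj h h'⟩
  apply goal_of_step G hI (S := K' ∪ T) (U₀ := T) (Finset.union_subset hKR hTR)
    Finset.subset_union_right
  · intro x hx y hy hxy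
    exact absurd hxy (hTi x hx y hy)
  · intro t ht x hxR hxS hadj
    rw [Finset.mem_union, not_or] at hxS
    obtain ⟨k, hk, hxk⟩ := hTall x hxR hxS.1 hxS.2
    rw [hST]
    exact ⟨k, hk, Or.inl ⟨(hTadj t ht k hk).symm, fun h => hxk h.symm⟩⟩
  · rw [hST, hb, Finset.card_empty, Finset.card_union_of_disjoint hdisj, hKc]
    have := Nat.zero_le (m * (good G (m + 2) (R \ (K' ∪ T)) K').card)
    nlinarith
  · rw [hST]
    apply ih
    · apply Finset.card_lt_card
      rw [Finset.ssubset_iff_subset_ne]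
      refine ⟨Finset.sdiff_subset, ?_⟩
      intro h
      obtain ⟨t, ht⟩ : T.Nonempty := by rw [← Finset.card_pos]; omega
      have : t ∈ R \ (K' ∪ T) := by rw [h]; exact hTR ht
      exact (Finset.mem_sdiff.mp this).2 (Finset.mem_union_right _ ht)
    · rw [Finset.disjoint_left]
      intro v hv hv'
      exact (Finset.mem_sdiff.mp hv).2 (Finset.mem_union_left _ hv')

/-- Case B3, second alternative: `S = J ∪ X`. -/
lemma goal_of_B3b {m : ℕ} (hm : 1 ≤ m) {R Z J T : Finset V} {f : V → V}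
    (hI : isoK G (m + 2) R = ∅) (hJR : J ⊆ R) (hTR : T ⊆ R) (hJc : J.card = m + 2)
    (hIJ : isoK G (m + 2) (R \ J) = ∅)
    (hdisj : Disjoint J T)
    (hTi : ∀ x ∈ T, ∀ y ∈ T, ¬ G.Adj x y)
    (hJT : ∀ j ∈ J, ∀ x ∈ R, x ∉ J → G.Adj j x → x ∈ T)
    (hf : ∀ j ∈ J, f j ∈ T ∧ ¬ G.Adj (f j) j ∧ ∀ i ∈ J, i ≠ j → G.Adj (f j) i)
    (ih : ∀ R' Z' : Finset V, R'.card < R.card → Disjoint R' Z' → Goal G m R' Z') :
    Goal G m R Z := by
  set X := J.image f with hX
  have hXT : X ⊆ T := by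
    intro v hv
    rw [hX, Finset.mem_image] at hv
    obtain ⟨j, hj, rfl⟩ := hv
    exact (hf j hj).1
  have hJX : Disjoint J X := Finset.disjoint_of_subset_right hXT hdisj
  have hSJ : (J ∪ X) \ J = X := by
    ext v
    simp only [Finset.mem_sdiff, Finset.mem_union]
    constructor
    · rintro ⟨h | h, h'⟩
      · exact absurd h h'
      · exact h
    · intro h
      exact ⟨Or.inr h, fun h' => Finset.disjoint_left.mp hJX h' h⟩
  have hXc : X.card ≤ m + 2 := by
    rw [← hJc]; exact Finset.card_image_le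
  have hb : bad G (m + 2) (R \ (J ∪ X)) X = ∅ := by
    by_contra hcon
    obtain ⟨L, hL⟩ := Finset.nonempty_iff_ne_empty.mpr hcon
    have hL' := Finset.mem_filter.mp hL
    have h1 : L ∈ isoK G (m + 2) ((R \ J) \ X) := by
      have : (R \ J) \ X = R \ (J ∪ X) := by
        ext v; simp only [Finset.mem_sdiff, Finset.mem_union]; tauto
      rw [this]; exact hL'.1
    have h2 : L ∈ isoK G (m + 2) (R \ J) := by
      apply isoK_of_not_adj G h1
      intro k hk l hl
      exact hL'.2 k hk l hl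
    rw [hIJ] at h2
    simp at h2
  apply goal_of_step G hI (S := J ∪ X) (U₀ := J) (Finset.union_subset hJR (hXT.trans hTR))
    Finset.subset_union_left
  · intro x hx y hy hxy
    rw [hSJ]
    exact ⟨f x, Finset.mem_image_of_mem f hx, Or.inr ⟨(hf x hx).2.1, (hf x hx).2.2 y hy hxy.ne'⟩⟩
  · intro j hj x hxR hxS hadj
    rw [Finset.mem_union, not_or] at hxS
    have hxT := hJT j hj x hxR hxS.1 hadj
    obtain ⟨i, hi, hij⟩ : ∃ i ∈ J, i ≠ j := by
      have : 1 < J.card := by omega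
      exact Finset.exists_mem_ne this j
    rw [hSJ]
    exact ⟨f i, Finset.mem_image_of_mem f hi, Or.inl ⟨(hf i hi).2.2 j hj hij.symm,
      hTi _ (hf i hi).1 x hxT⟩⟩
  · rw [hSJ, hb, Finset.card_empty, Finset.card_union_of_disjoint hJX, hJc]
    have := Nat.zero_le (m * (good G (m + 2) (R \ (J ∪ X)) X).card)
    nlinarith
  · rw [hSJ]
    apply ih
    · apply Finset.card_lt_card
      rw [Finset.ssubset_iff_subset_ne]
      refine ⟨Finset.sdiff_subset, ?_⟩
      intro h
      obtain ⟨t, ht⟩ : J.Nonempty := by rw [← Finset.card_pos]; omega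
      have : t ∈ R \ (J ∪ X) := by rw [h]; exact hJR ht
      exact (Finset.mem_sdiff.mp this).2 (Finset.mem_union_left _ ht)
    · rw [Finset.disjoint_left]
      intro v hv hv'
      exact (Finset.mem_sdiff.mp hv).2 (Finset.mem_union_right _ hv')

/-- Every nonempty set contains a nonempty maximal clique. -/
lemma exists_maximal_clique {R : Finset V} (hR : R.Nonempty) :
    ∃ K, K ⊆ R ∧ K.Nonempty ∧ (∀ x ∈ K, ∀ y ∈ K, x ≠ y → G.Adj x y) ∧
      ∀ x ∈ R, x ∉ K → ∃ k ∈ K, ¬ G.Adj x k := by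
  obtain ⟨v, hv⟩ := hR
  let F := R.powerset.filter (fun K => K.Nonempty ∧ ∀ x ∈ K, ∀ y ∈ K, x ≠ y → G.Adj x y)
  have hF : F.Nonempty := by
    refine ⟨{v}, ?_⟩
    simp only [F, Finset.mem_filter, Finset.mem_powerset, Finset.singleton_subset_iff]
    refine ⟨hv, Finset.singleton_nonempty v, ?_⟩
    intro x hx y hy hxy
    rw [Finset.mem_singleton] at hx hy
    exact absurd (hx.trans hy.symm) hxy
  obtain ⟨K, hK, hmax⟩ := Finset.exists_max_image F Finset.card hF
  simp only [F, Finset.mem_filter, Finset.mem_powerset] at hK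
  refine ⟨K, hK.1, hK.2.1, hK.2.2, ?_⟩
  intro x hx hxK
  by_contra hcon
  push Not at hcon
  have h1 : insert x K ∈ F := by
    simp only [F, Finset.mem_filter, Finset.mem_powerset]
    refine ⟨?_, Finset.insert_nonempty _ _, ?_⟩
    · intro w hw
      rcases Finset.mem_insert.mp hw with rfl | hw
      · exact hx
      · exact hK.1 hw
    · intro a ha b hb hab
      rcases Finset.mem_insert.mp ha with ha | ha <;> rcases Finset.mem_insert.mp hb with hb | hb
      · exact absurd (ha.trans hb.symm) hab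
      · rw [ha]; exact hcon b hb
      · rw [hb]; exact (hcon a ha).symm
      · exact hK.2.2 a ha b hb hab
  have h2 := hmax _ h1
  rw [Finset.card_insert_of_notMem hxK] at h2
  omega

theorem goal_all {m : ℕ} (hm : 1 ≤ m) (hfree : G.CliqueFree (m + 2 + 1)) (n : ℕ) :
    ∀ R Z : Finset V, R.card = n → Disjoint R Z → Goal G m R Z := by
  induction n using Nat.strong_induction_on with
  | _ n IH =>
  intro R Z hRn hRZ
  have ih : ∀ R' Z' : Finset V, R'.card < R.card → Disjoint R' Z' → Goal G m R' Z' :=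
    fun R' Z' h1 h2 => IH R'.card (hRn ▸ h1) R' Z' rfl h2
  by_cases hI : (isoK G (m + 2) R).Nonempty
  · obtain ⟨J, hJ⟩ := hI
    apply goal_of_iso G hfree hRZ hJ
    have hJ' := (mem_isoK G).mp hJ
    obtain ⟨v, hv⟩ : J.Nonempty := by rw [← Finset.card_pos]; omega
    apply ih
    · apply Finset.card_lt_card
      rw [Finset.ssubset_iff_subset_ne]
      refine ⟨Finset.sdiff_subset, ?_⟩
      intro h
      have : v ∈ R \ J := by rw [h]; exact hJ'.1 hv
      exact (Finset.mem_sdiff.mp this).2 hv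
    · exact Finset.disjoint_of_subset_left Finset.sdiff_subset hRZ
  rw [Finset.not_nonempty_iff_eq_empty] at hI
  by_cases hR : R.Nonempty
  swap
  · rw [Finset.not_nonempty_iff_eq_empty] at hR
    refine ⟨∅, Finset.empty_subset _, ?_, ?_⟩
    · intro x hx; simp at hx
    · unfold good bad
      rw [hI, hR]
      simp
  by_cases hac : ∃ K, K ⊆ R ∧ K.Nonempty ∧ (∀ x ∈ K, ∀ y ∈ K, x ≠ y → G.Adj x y) ∧
      (∀ x ∈ R, x ∉ K → ∃ k ∈ K, ¬ G.Adj x k) ∧
      (K.card ≤ m + 1 ∨ (K.card = m + 2 ∧ (isoK G (m + 2) (R \ K)).Nonempty))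
  · obtain ⟨K, h1, h2, h3, h4, h5⟩ := hac
    exact goal_of_clique G hm hI h1 h2 h3 h4 h5 ih
  -- case B
  have hcard : ∀ K : Finset V, (∀ x ∈ K, ∀ y ∈ K, x ≠ y → G.Adj x y) → K.card ≤ m + 2 := by
    intro K hK
    by_contra hcon
    push Not at hcon
    obtain ⟨L, hLK, hLc⟩ := Finset.exists_subset_card_eq (show m + 3 ≤ K.card by omega)
    exact hfree L ⟨fun x hx y hy hxy => hK x (hLK hx) y (hLK hy) hxy, hLc⟩
  have hIK : ∀ K, K ⊆ R → K.card = m + 2 → (∀ x ∈ K, ∀ y ∈ K, x ≠ y → G.Adj x y) →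
      isoK G (m + 2) (R \ K) = ∅ := by
    intro K hKR hKc hKq
    by_contra hcon
    apply hac
    refine ⟨K, hKR, ?_, hKq, ?_, Or.inr ⟨hKc, Finset.nonempty_iff_ne_empty.mpr hcon⟩⟩
    · rw [← Finset.card_pos]; omega
    · intro x _ hx
      exact exists_nonadj G hfree hKc hKq hx
  by_cases hB2 : ∃ K z k0 k1, K ⊆ R ∧ K.card = m + 2 ∧ (∀ x ∈ K, ∀ y ∈ K, x ≠ y → G.Adj x y) ∧
      z ∈ R ∧ z ∉ K ∧ k1 ∈ K ∧ G.Adj z k1 ∧ k0 ∈ K ∧ ¬ G.Adj z k0 ∧
      (∀ x ∈ R, x ∉ K → G.Adj x z → ∃ k ∈ K, k ≠ k0 ∧ ¬ G.Adj x k) ∧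
      (∀ x ∈ R, x ∉ K → x ≠ z → ¬ G.Adj x z → ∃ k ∈ K, k ≠ k1 ∧ ¬ G.Adj x k)
  · obtain ⟨K, z, k0, k1, h1, h2, h3, h4, h5, h6, h7, h8, h9, h10, h11⟩ := hB2
    exact goal_of_B2 G hm hI h1 h2 h3 (hIK K h1 h2 h3) h4 h5 h6 h7 h8 h9 h10 h11 ih
  -- failure of B2
  have hfail : ∀ K, K ⊆ R → K.card = m + 2 → (∀ x ∈ K, ∀ y ∈ K, x ≠ y → G.Adj x y) →
      ∀ z ∈ R, z ∉ K → ∀ k1 ∈ K, G.Adj z k1 → ∀ k0 ∈ K, ¬ G.Adj z k0 →
      (∃ x ∈ R, x ∉ K ∧ G.Adj x z ∧ ∀ k ∈ K, k ≠ k0 → G.Adj x k) ∨
      (∃ x ∈ R, x ∉ K ∧ x ≠ z ∧ ¬ G.Adj x z ∧ ∀ k ∈ K, k ≠ k1 → G.Adj x k) := by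
    intro K h1 h2 h3 z h4 h5 k1 h6 h7 k0 h8 h9
    by_contra hcon
    rw [not_or] at hcon
    apply hB2
    refine ⟨K, z, k0, k1, h1, h2, h3, h4, h5, h6, h7, h8, h9, ?_, ?_⟩
    · intro x hx hxK hxz
      by_contra hc
      push Not at hc
      exact hcon.1 ⟨x, hx, hxK, hxz, fun k hk hkk => hc k hk hkk⟩
    · intro x hx hxK hxz hxz'
      by_contra hc
      push Not at hc
      exact hcon.2 ⟨x, hx, hxK, hxz, hxz', fun k hk hkk => hc k hk hkk⟩
  -- a clique with an outside neighbour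
  have hout : ∀ K, K ⊆ R → K.card = m + 2 → (∀ x ∈ K, ∀ y ∈ K, x ≠ y → G.Adj x y) →
      ∃ k ∈ K, ∃ z ∈ R, z ∉ K ∧ G.Adj k z := by
    intro K h1 h2 h3
    by_contra hcon
    push Not at hcon
    have : K ∈ isoK G (m + 2) R := (mem_isoK G).mpr ⟨h1, h2, h3, hcon⟩
    rw [hI] at this
    simp at this
  obtain ⟨K, hKR, hKn, hKq, hKmax⟩ := exists_maximal_clique G hR
  have hKc : K.card = m + 2 := by
    have h1 := hcard K hKq
    have h2 : ¬ K.card ≤ m + 1 := fun h => hac ⟨K, hKR, hKn, hKq, hKmax, Or.inl h⟩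
    omega
  obtain ⟨k1, hk1, z, hzR, hzK, hk1z⟩ := hout K hKR hKc hKq
  obtain ⟨k0, hk0, hzk0⟩ := exists_nonadj G hfree hKc hKq hzK
  obtain ⟨x, hxR, hxK, k, hk, hxk⟩ : ∃ x ∈ R, x ∉ K ∧ ∃ k ∈ K, ∀ i ∈ K, i ≠ k → G.Adj x i := by
    rcases hfail K hKR hKc hKq z hzR hzK k1 hk1 hk1z.symm k0 hk0 hzk0 with
      ⟨x, h1, h2, h3, h4⟩ | ⟨x, h1, h2, h3, h4, h5⟩
    · exact ⟨x, h1, h2, k0, hk0, h4⟩
    · exact ⟨x, h1, h2, k1, hk1, h5⟩
  set K' := K.erase k with hK'
  set T := R.filter (fun t => t ∉ K' ∧ ∀ i ∈ K', G.Adj t i) with hT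
  have hK'c : K'.card = m + 1 := by
    rw [hK', Finset.card_erase_of_mem hk, hKc]; rfl
  have hK'q : ∀ a ∈ K', ∀ b ∈ K', a ≠ b → G.Adj a b := fun a ha b hb hab =>
    hKq a (Finset.mem_of_mem_erase ha) b (Finset.mem_of_mem_erase hb) hab
  have hmemT : ∀ t, t ∈ T ↔ t ∈ R ∧ t ∉ K' ∧ ∀ i ∈ K', G.Adj t i := by
    intro t; rw [hT, Finset.mem_filter]
  have hkT : k ∈ T := by
    rw [hmemT]
    refine ⟨hKR hk, by simp [hK'], ?_⟩
    intro i hi
    rw [hK', Finset.mem_erase] at hi
    exact hKq k hk i hi.2 hi.1.symm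
  have hxT : x ∈ T := by
    rw [hmemT]
    refine ⟨hxR, fun h => hxK (Finset.mem_of_mem_erase h), ?_⟩
    intro i hi
    rw [hK', Finset.mem_erase] at hi
    exact hxk i hi.2 hi.1
  have hkx : k ≠ x := by rintro rfl; exact hxK hk
  have hT2 : 2 ≤ T.card := by
    rw [← Finset.card_pair hkx]
    apply Finset.card_le_card
    intro v hv
    simp only [Finset.mem_insert, Finset.mem_singleton] at hv
    rcases hv with rfl | rfl
    · exact hkT
    · exact hxT
  have hTi : ∀ a ∈ T, ∀ b ∈ T, ¬ G.Adj a b := by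
    intro a ha b hb hab
    rw [hmemT] at ha hb
    have h1 := hcard (insert a (insert b K')) ?_
    · rw [Finset.card_insert_of_notMem, Finset.card_insert_of_notMem hb.2.1, hK'c] at h1
      · omega
      · rw [Finset.mem_insert, not_or]
        exact ⟨hab.ne, ha.2.1⟩
    · intro p hp q hq hpq
      simp only [Finset.mem_insert] at hp hq
      rcases hp with rfl | rfl | hp <;> rcases hq with rfl | rfl | hq
      · exact absurd rfl hpq
      · exact hab
      · exact ha.2.2 q hq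
      · exact hab.symm
      · exact absurd rfl hpq
      · exact hb.2.2 q hq
      · exact (ha.2.2 p hp).symm
      · exact (hb.2.2 p hp).symm
      · exact hK'q p hp q hq hpq
  have hTR : T ⊆ R := Finset.filter_subset _ _
  have hK'R : K' ⊆ R := (Finset.erase_subset _ _).trans hKR
  have hdisj : Disjoint K' T := by
    rw [Finset.disjoint_left]
    intro v hv hv'
    exact ((hmemT v).mp hv').2.1 hv
  by_cases hb : bad G (m + 2) (R \ (K' ∪ T)) K' = ∅
  · apply goal_of_B3a G hm hI hK'R hTR hK'c hdisj hT2 hTi ?_ ?_ hb ih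
    · intro t ht k hk
      exact ((hmemT t).mp ht).2.2 k hk
    · intro y hy hyK hyT
      by_contra hcon
      push Not at hcon
      exact hyT ((hmemT y).mpr ⟨hy, hyK, hcon⟩)
  · obtain ⟨J, hJ⟩ := Finset.nonempty_iff_ne_empty.mpr hb
    obtain ⟨hJ1, hJK'⟩ := Finset.mem_filter.mp hJ
    obtain ⟨hJs, hJc, hJq, hJi⟩ := (mem_isoK G).mp hJ1
    have hJR : J ⊆ R := hJs.trans Finset.sdiff_subset
    have hJS : ∀ j ∈ J, j ∉ K' ∧ j ∉ T := by
      intro j hj
      have := (Finset.mem_sdiff.mp (hJs hj)).2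
      rw [Finset.mem_union, not_or] at this
      exact this
    have hJT : ∀ j ∈ J, ∀ x ∈ R, x ∉ J → G.Adj j x → x ∈ T := by
      intro j hj x hx hxJ hadj
      by_contra hxT
      by_cases hxK' : x ∈ K'
      · exact hJK' x hxK' j hj hadj.symm
      · apply hJi j hj x _ hxJ hadj
        rw [Finset.mem_sdiff, Finset.mem_union, not_or]
        exact ⟨hx, hxK', hxT⟩
    have hnext : ∀ z ∈ T, ∀ j ∈ J, G.Adj z j → ∃ x ∈ T, ¬ G.Adj x j ∧
        ∀ i ∈ J, i ≠ j → G.Adj x i := by
      intro z hz j hj hzj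
      have hzJ : z ∉ J := fun h => (hJS z h).2 hz
      obtain ⟨j0, hj0, hzj0⟩ := exists_nonadj G hfree hJc hJq hzJ
      have hex : ∀ j : V, ∃ i ∈ J, i ≠ j := fun j =>
        Finset.exists_mem_ne (show 1 < J.card by omega) j
      rcases hfail J hJR hJc hJq z (hTR hz) hzJ j hj hzj j0 hj0 hzj0 with
        ⟨x, h1, h2, h3, h4⟩ | ⟨x, h1, h2, h3, h4, h5⟩
      · obtain ⟨i, hi, hij⟩ := hex j0
        have hxT := hJT i hi x h1 h2 (h4 i hi hij).symm
        exact absurd h3 (hTi x hxT z hz)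
      · obtain ⟨i, hi, hij⟩ := hex j
        have hxT := hJT i hi x h1 h2 (h5 i hi hij).symm
        refine ⟨x, hxT, ?_, h5⟩
        obtain ⟨i', hi', hxi'⟩ := exists_nonadj G hfree hJc hJq h2
        by_cases h : i' = j
        · rw [← h]; exact hxi'
        · exact absurd (h5 i' hi' h) hxi'
    have hall : ∀ j ∈ J, ∃ x ∈ T, ¬ G.Adj x j ∧ ∀ i ∈ J, i ≠ j → G.Adj x i := by
      obtain ⟨j1, hj1, z', hz'R, hz'J, hj1z'⟩ := hout J hJR hJc hJq
      have hz'T := hJT j1 hj1 z' hz'R hz'J hj1z'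
      obtain ⟨x1, hx1T, hx1n, hx1a⟩ := hnext z' hz'T j1 hj1 hj1z'.symm
      intro j hj
      by_cases h : j = j1
      · subst h
        exact ⟨x1, hx1T, hx1n, hx1a⟩
      · exact hnext x1 hx1T j hj (hx1a j hj h)
    choose! f hf using hall
    exact goal_of_B3b G hm hI hJR hTR hJc (hIK J hJR hJc hJq)
      (Finset.disjoint_left.mpr fun v hv hv' => (hJS v hv).2 hv')
      hTi hJT (fun j hj => ⟨(hf j hj).1, (hf j hj).2.1, (hf j hj).2.2⟩) ih

end aux

/-- Every finite connected graph with n vertices and clique number ω, where n ≥ ω+1 ≥ 4, has a set of at most (ω−2)/(ω−1)·n vertices distinguishing every adjacent pair by distance, i.e. local metric dimension ≤ (ω−2)n/(ω−1). -/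
theorem result :
    ∀ (V : Type) [Fintype V] (G : SimpleGraph V), G.Connected →
      ∀ ω : ℕ, (∃ s : Finset V, G.IsNClique ω s) → G.CliqueFree (ω + 1) →
        4 ≤ ω + 1 → ω + 1 ≤ Fintype.card V →
        ∃ W : Finset V,
          (∀ u v : V, G.Adj u v → ∃ w ∈ W, G.dist u w ≠ G.dist v w) ∧
          (W.card : ℝ) ≤ ((ω : ℝ) - 2) / ((ω : ℝ) - 1) * (Fintype.card V : ℝ) := by
  classical
  intro V _ G hconn ω _ hfree hω hn
  obtain ⟨m, rfl⟩ : ∃ m, ω = m + 2 := ⟨ω - 2, by omega⟩
  have hm : 1 ≤ m := by omega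
  have hI : isoK G (m + 2) Finset.univ = ∅ := by
    by_contra hcon
    obtain ⟨J, hJ⟩ := Finset.nonempty_iff_ne_empty.mpr hcon
    obtain ⟨-, hJc, hJq, hJi⟩ := (mem_isoK G).mp hJ
    have hclosed : ∀ a b : V, G.Reachable a b → a ∈ J → b ∈ J := by
      rintro a b ⟨p⟩
      induction p with
      | nil => exact id
      | cons h p ih =>
        intro ha
        apply ih
        by_contra hc
        exact hJi _ ha _ (Finset.mem_univ _) hc h
    obtain ⟨v, hv⟩ : J.Nonempty := by rw [← Finset.card_pos]; omega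
    have : J = Finset.univ := by
      ext w
      simp only [Finset.mem_univ, iff_true]
      exact hclosed v w (hconn.preconnected v w) hv
    rw [this, Finset.card_univ] at hJc
    omega
  obtain ⟨U, -, hres, hcard⟩ := goal_all G hm hfree _ Finset.univ ∅ rfl (Finset.disjoint_empty_right _)
  have hb0 : (bad G (m + 2) Finset.univ ∅).card = 0 := by unfold bad; rw [hI]; simp
  have hg0 : (good G (m + 2) Finset.univ ∅).card = 0 := by unfold good; rw [hI]; simp
  rw [hb0, hg0, Finset.card_univ] at hcard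
  refine ⟨Finset.univ \ U, ?_, ?_⟩
  · intro u v huv
    have hd : ∀ a b : V, G.dist a b = 1 ↔ G.Adj a b := fun a b => SimpleGraph.dist_eq_one_iff_adj
    by_cases hu : u ∈ U
    · by_cases hv : v ∈ U
      · obtain ⟨w, hw, hs⟩ := hres u hu v hv huv
        refine ⟨w, by simpa using hw, ?_⟩
        intro heq
        rcases hs with ⟨h1, h2⟩ | ⟨h1, h2⟩
        · apply h2
          rw [← hd, SimpleGraph.dist_comm, ← heq, SimpleGraph.dist_comm, hd]
          exact h1
        · apply h1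
          rw [← hd, SimpleGraph.dist_comm, heq, SimpleGraph.dist_comm, hd]
          exact h2
      · refine ⟨v, by simp [hv], ?_⟩
        rw [SimpleGraph.dist_self, (hd u v).mpr huv]
        norm_num
    · refine ⟨u, by simp [hu], ?_⟩
      rw [SimpleGraph.dist_self, (hd v u).mpr huv.symm]
      norm_num
  · have hWc : (Finset.univ \ U).card + U.card = Fintype.card V := by
      rw [Finset.card_sdiff_add_card_eq_card (Finset.subset_univ U), Finset.card_univ]
    have h1 : ((Finset.univ \ U).card : ℝ) + (U.card : ℝ) = (Fintype.card V : ℝ) := by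
      exact_mod_cast hWc
    have h2 : (Fintype.card V : ℝ) ≤ ((m : ℝ) + 1) * (U.card : ℝ) := by
      have : Fintype.card V ≤ (m + 1) * U.card := by omega
      exact_mod_cast this
    have hmpos : (0 : ℝ) < (m : ℝ) + 1 := by positivity
    push_cast
    have e1 : (m : ℝ) + 2 - 2 = m := by ring
    have e2 : (m : ℝ) + 2 - 1 = m + 1 := by ring
    rw [e1, e2, div_mul_eq_mul_div, le_div_iff₀ hmpos]
    nlinarith

end Pool.Agent.S11473
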