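import Pool.Statements.S11608
-- import your own Pool.Agent.* helpers here

set_option autoImplicit false
open Pool Pool.MP_d1f9c8_co

namespace Pool.Agent.S11608

open SimpleGraph Function

/-- edgeless with at most three vertices, or at most two vertices -/
def Q1 {V : Type} (G : SimpleGraph V) : Prop :=
  (Nat.card V ≤ 3 ∧ ∀ u v, ¬ G.Adj u v) ∨ Nat.card V ≤ 2

/-- at most four vertices, or bipartite with both parts of size at most three -/
def Q2 {V : Type} (G : SimpleGraph V) : Prop :=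
  Nat.card V ≤ 4 ∨ ∃ S : Set V, S.ncard ≤ 3 ∧ Sᶜ.ncard ≤ 3 ∧
    (∀ u ∈ S, ∀ v ∈ S, ¬ G.Adj u v) ∧ (∀ u ∈ Sᶜ, ∀ v ∈ Sᶜ, ¬ G.Adj u v)

lemma Q1_mono {V W : Type} [Finite V] [Finite W] {G : SimpleGraph V} {H : SimpleGraph W}
    (f : H →g G) (hf : Injective f) (h : Q1 G) : Q1 H := by
  have hc : Nat.card W ≤ Nat.card V := Nat.card_le_card_of_injective f hf
  rcases h with ⟨h1, h2⟩ | h
  · exact Or.inl ⟨by omega, fun u v huv => h2 _ _ (f.map_rel huv)⟩
  · exact Or.inr (by omega)

lemma Q2_mono {V W : Type} [Finite V] [Finite W] {G : SimpleGraph V} {H : SimpleGraph W}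
    (f : H →g G) (hf : Injective f) (h : Q2 G) : Q2 H := by
  have hc : Nat.card W ≤ Nat.card V := Nat.card_le_card_of_injective f hf
  have key : ∀ S : Set V, (f ⁻¹' S).ncard ≤ S.ncard := by
    intro S
    exact Set.ncard_le_ncard_of_injOn f (fun a ha => ha) hf.injOn (Set.toFinite _)
  rcases h with h | ⟨S, h1, h2, h3, h4⟩
  · exact Or.inl (by omega)
  · refine Or.inr ⟨f ⁻¹' S, (key S).trans h1, (key Sᶜ).trans h2, ?_, ?_⟩
    · intro u hu v hv huv
      exact h3 _ hu _ hv (f.map_rel huv)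
    · intro u hu v hv huv
      exact h4 _ hu _ hv (f.map_rel huv)

lemma mem_iff {Q : ∀ {V : Type}, SimpleGraph V → Prop}
    (hQ : ∀ {V W : Type} [Finite V] [Finite W] {G : SimpleGraph V} {H : SimpleGraph W}
      (f : H →g G), Injective f → Q G → Q H) {V : Type} [Finite V] (G : SimpleGraph V) :
    (∃ (r : ℕ) (K : SimpleGraph (Fin r)), Q K ∧ Nonempty (G ≃g K)) ↔ Q G := by
  constructor
  · rintro ⟨r, K, hK, ⟨e⟩⟩
    exact hQ e.toHom e.injective hK
  · intro h
    let e := Finite.equivFin V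
    let i : G.comap e.symm ≃g G := Iso.comap e.symm G
    exact ⟨_, G.comap e.symm, hQ i.toHom i.injective h, ⟨i.symm⟩⟩

/-- the abstract product criterion -/
lemma prod_of {A B : (n : ℕ) → SimpleGraph (Fin n) → Prop} {r s : ℕ}
    (G : SimpleGraph (Fin (r + s))) (hA : A r (G.comap (Fin.castAdd s)))
    (hB : B s (G.comap (Fin.natAdd r))) :
    ∃ S : Set (Fin (r + s)),
      (∃ (r : ℕ) (K : SimpleGraph (Fin r)), A r K ∧ Nonempty (G.induce S ≃g K)) ∧
      (∃ (r : ℕ) (K : SimpleGraph (Fin r)), B r K ∧ Nonempty (G.induce Sᶜ ≃g K)) := by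
  refine ⟨Set.range (Fin.castAdd s), ⟨r, _, hA, ⟨?_⟩⟩, ⟨s, _, hB, ⟨?_⟩⟩⟩
  · exact ((Embedding.comap ⟨Fin.castAdd s, Fin.castAdd_injective r s⟩ G).isoInduceRange).symm
  · have : (Set.range (Fin.castAdd s) : Set (Fin (r + s)))ᶜ = Set.range (Fin.natAdd r) := by
      ext x
      refine Fin.addCases (fun i => ?_) (fun i => ?_) x
      · simp only [Set.mem_compl_iff, Set.mem_range, not_exists]
        constructor
        · intro h; exact absurd rfl (h i)
        · rintro ⟨y, hy⟩
          exact absurd (congrArg Fin.val hy) (by simp; omega)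
      · simp only [Set.mem_compl_iff, Set.mem_range, not_exists]
        constructor
        · intro _; exact ⟨i, rfl⟩
        · intro _ y hy
          exact absurd (congrArg Fin.val hy) (by simp; omega)
    rw [this]
    exact ((Embedding.comap ⟨Fin.natAdd r, Fin.natAdd_injective s r⟩ G).isoInduceRange).symm

lemma card_split {A B : (n : ℕ) → SimpleGraph (Fin n) → Prop} {n : ℕ} (G : SimpleGraph (Fin n))
    (h : ∃ S : Set (Fin n),
      (∃ (r : ℕ) (K : SimpleGraph (Fin r)), A r K ∧ Nonempty (G.induce S ≃g K)) ∧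
      (∃ (r : ℕ) (K : SimpleGraph (Fin r)), B r K ∧ Nonempty (G.induce Sᶜ ≃g K))) :
    ∃ (r s : ℕ) (K : SimpleGraph (Fin r)) (L : SimpleGraph (Fin s)), r + s = n ∧ A r K ∧ B s L ∧
      (∃ f : K ↪g G, True) ∧ (∃ f : L ↪g G, True) := by
  obtain ⟨S, ⟨r, K, hK, ⟨e⟩⟩, ⟨s, L, hL, ⟨e'⟩⟩⟩ := h
  refine ⟨r, s, K, L, ?_, hK, hL, ⟨(Embedding.induce S).comp e.symm.toEmbedding, trivial⟩,
    ⟨(Embedding.induce Sᶜ).comp e'.symm.toEmbedding, trivial⟩⟩
  have h1 : Nat.card S = r := by
    rw [Nat.card_congr e.toEquiv]; simp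
  have h2 : Nat.card (Sᶜ : Set (Fin n)) = s := by
    rw [Nat.card_congr e'.toEquiv]; simp
  have h3 := Set.ncard_add_ncard_compl S
  rw [← Nat.card_coe_set_eq, ← Nat.card_coe_set_eq, h1, h2] at h3
  simpa using h3

/-- splitting the edgeless graph -/
lemma bot_split {A B : (n : ℕ) → SimpleGraph (Fin n) → Prop} {n : ℕ}
    (h : ∃ S : Set (Fin n),
      (∃ (r : ℕ) (K : SimpleGraph (Fin r)), A r K ∧
        Nonempty ((⊥ : SimpleGraph (Fin n)).induce S ≃g K)) ∧
      (∃ (r : ℕ) (K : SimpleGraph (Fin r)), B r K ∧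
        Nonempty ((⊥ : SimpleGraph (Fin n)).induce Sᶜ ≃g K))) :
    ∃ r s : ℕ, r + s = n ∧ A r ⊥ ∧ B s ⊥ := by
  obtain ⟨r, s, K, L, hrs, hK, hL, ⟨f, -⟩, ⟨g, -⟩⟩ := card_split _ h
  have hK' : K = ⊥ := by
    ext x y
    rw [← f.map_adj_iff]; simp
  have hL' : L = ⊥ := by
    ext x y
    rw [← g.map_adj_iff]; simp
  exact ⟨r, s, hrs, hK' ▸ hK, hL' ▸ hL⟩

/-- splitting the complete graph -/
lemma top_split {A B : (n : ℕ) → SimpleGraph (Fin n) → Prop} {n : ℕ}
    (h : ∃ S : Set (Fin n),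
      (∃ (r : ℕ) (K : SimpleGraph (Fin r)), A r K ∧
        Nonempty ((⊤ : SimpleGraph (Fin n)).induce S ≃g K)) ∧
      (∃ (r : ℕ) (K : SimpleGraph (Fin r)), B r K ∧
        Nonempty ((⊤ : SimpleGraph (Fin n)).induce Sᶜ ≃g K))) :
    ∃ r s : ℕ, r + s = n ∧ A r ⊤ ∧ B s ⊤ := by
  obtain ⟨r, s, K, L, hrs, hK, hL, ⟨f, -⟩, ⟨g, -⟩⟩ := card_split _ h
  have hK' : K = ⊤ := by
    ext x y
    rw [← f.map_adj_iff]; simp
  have hL' : L = ⊤ := by
    ext x y
    rw [← g.map_adj_iff]; simp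
  exact ⟨r, s, hrs, hK' ▸ hK, hL' ▸ hL⟩

/-- subgraph-closed class -/
def Her (A : (n : ℕ) → SimpleGraph (Fin n) → Prop) : Prop :=
  ∀ (a b : ℕ) (G : SimpleGraph (Fin a)) (H : SimpleGraph (Fin b)) (f : H →g G),
    Function.Injective f → A a G → A b H

/-- `P` is the product of `A` and `B` -/
def IsProd (P A B : (n : ℕ) → SimpleGraph (Fin n) → Prop) : Prop :=
  ∀ (n : ℕ) (G : SimpleGraph (Fin n)),
    (P n G ↔ ∃ S : Set (Fin n),
      (∃ (r : ℕ) (K : SimpleGraph (Fin r)), A r K ∧ Nonempty (G.induce S ≃g K)) ∧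
      (∃ (r : ℕ) (K : SimpleGraph (Fin r)), B r K ∧ Nonempty (G.induce Sᶜ ≃g K)))

/-- the join of two edgeless graphs -/
def join (r s : ℕ) : SimpleGraph (Fin (r + s)) where
  Adj u v := (u.val < r ∧ r ≤ v.val) ∨ (v.val < r ∧ r ≤ u.val)
  symm := ⟨fun _ _ h => h.symm⟩
  loopless := ⟨fun u h => by omega⟩

lemma join_mem {P A B : (n : ℕ) → SimpleGraph (Fin n) → Prop} (h : IsProd P A B) {r s : ℕ}
    (hA : A r ⊥) (hB : B s ⊥) : P (r + s) (join r s) := by
  rw [h]
  apply prod_of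
  · convert hA
    ext x y
    simp only [comap_adj, join, Fin.val_castAdd, bot_adj, iff_false]
    omega
  · convert hB
    ext x y
    simp only [comap_adj, join, Fin.val_natAdd, bot_adj, iff_false]
    omega

lemma bot_mem {P A B : (n : ℕ) → SimpleGraph (Fin n) → Prop} (h : IsProd P A B) {r s : ℕ}
    (hA : A r ⊥) (hB : B s ⊥) : P (r + s) ⊥ := by
  rw [h]
  apply prod_of
  · convert hA
    ext x y; simp
  · convert hB
    ext x y; simp

/-- the first class -/
def P1 : (n : ℕ) → SimpleGraph (Fin n) → Prop := fun _ G => Q1 G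

/-- the second class -/
def P2 : (n : ℕ) → SimpleGraph (Fin n) → Prop := fun _ G => Q2 G

lemma P1_bot {n : ℕ} : P1 n ⊥ ↔ n ≤ 3 := by
  unfold P1 Q1
  simp only [Nat.card_eq_fintype_card, Fintype.card_fin, bot_adj, not_false_eq_true,
    implies_true, and_true]
  omega

lemma P1_irr (A B : (n : ℕ) → SimpleGraph (Fin n) → Prop) (hA1 : A 1 ⊥) (hB1 : B 1 ⊥) :
    ¬ IsProd P1 A B := by
  intro h
  obtain ⟨r, s, hrs, hA, hB⟩ := bot_split ((h 3 ⊥).mp (P1_bot.mpr le_rfl))
  by_cases hr : r = 3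
  · subst hr
    have := P1_bot.mp (bot_mem h hA hB1)
    omega
  by_cases hs : s = 3
  · subst hs
    have := P1_bot.mp (bot_mem h hA1 hB)
    omega
  have hj := join_mem h hA hB
  rcases hj with ⟨-, hj⟩ | hj
  · refine hj ⟨0, by omega⟩ ⟨r, by omega⟩ (Or.inl ⟨?_, ?_⟩) <;> simp <;> omega
  · simp only [Nat.card_eq_fintype_card, Fintype.card_fin] at hj
    omega

lemma P2_bot {n : ℕ} : P2 n ⊥ ↔ n ≤ 6 := by
  unfold P2 Q2
  simp only [Nat.card_eq_fintype_card, Fintype.card_fin, bot_adj, not_false_eq_true,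
    implies_true, and_true]
  constructor
  · rintro (h | ⟨S, h1, h2⟩)
    · omega
    · have := Set.ncard_add_ncard_compl S
      simp only [Nat.card_eq_fintype_card, Fintype.card_fin] at this
      omega
  · intro hn
    by_cases h4 : n ≤ 4
    · exact Or.inl h4
    · right
      have h3 : ({i : Fin n | i.val < 3} : Set (Fin n)).ncard = 3 := by
        have : ({i : Fin n | i.val < 3} : Set (Fin n)) =
            {(⟨0, by omega⟩ : Fin n), ⟨1, by omega⟩, ⟨2, by omega⟩} := by
          ext i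
          simp only [Set.mem_ofPred_eq, Set.mem_insert_iff, Set.mem_singleton_iff, Fin.ext_iff]
          omega
        rw [this, Set.ncard_eq_three]
        refine ⟨_, _, _, ?_, ?_, ?_, rfl⟩ <;> simp
      refine ⟨{i | i.val < 3}, h3.le, ?_⟩
      have := Set.ncard_add_ncard_compl ({i : Fin n | i.val < 3} : Set (Fin n))
      simp only [Nat.card_eq_fintype_card, Fintype.card_fin] at this
      omega

/-- no class contains `K_2` while the other contains three isolated vertices -/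
lemma no_triangle {P A B : (n : ℕ) → SimpleGraph (Fin n) → Prop} (h : IsProd P A B)
    (hA : A 2 ⊤) (hB : B 3 ⊥) : ∃ G : SimpleGraph (Fin (2 + 3)), P (2 + 3) G ∧
      G.Adj 0 1 ∧ G.Adj 0 2 ∧ G.Adj 1 2 := by
  let G : SimpleGraph (Fin (2 + 3)) :=
    { Adj := fun u v => u ≠ v ∧ (u.val < 2 ∨ v.val < 2)
      symm := ⟨fun _ _ h => ⟨h.1.symm, h.2.symm⟩⟩
      loopless := ⟨fun u h => h.1 rfl⟩ }
  refine ⟨G, ?_, ?_, ?_, ?_⟩
  · rw [h]
    apply prod_of
    · convert hA
      ext x y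
      simp only [comap_adj, G, top_adj, Fin.val_castAdd, ne_eq, Fin.castAdd_inj]
      omega
    · convert hB
      ext x y
      have hx := Fin.val_natAdd 2 x
      have hy := Fin.val_natAdd 2 y
      simp only [comap_adj, G, bot_adj, iff_false]
      rintro ⟨-, h | h⟩ <;> omega
  · show _ ∧ _
    decide
  · show _ ∧ _
    decide
  · show _ ∧ _
    decide

lemma Q2_no_triangle {V : Type} {G : SimpleGraph V} (hG : Q2 G) (h4 : 4 < Nat.card V) {a b c : V}
    (hab : G.Adj a b) (hac : G.Adj a c) (hbc : G.Adj b c) : False := by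
  rcases hG with h | ⟨S, -, -, h3, h4⟩
  · omega
  · by_cases ha : a ∈ S <;> by_cases hb : b ∈ S <;> by_cases hc : c ∈ S
    · exact h3 _ ha _ hb hab
    · exact h3 _ ha _ hb hab
    · exact h3 _ ha _ hc hac
    · exact h4 _ hb _ hc hbc
    · exact h3 _ hb _ hc hbc
    · exact h4 _ ha _ hc hac
    · exact h4 _ ha _ hb hab
    · exact h4 _ ha _ hb hab

lemma P2_irr (A B : (n : ℕ) → SimpleGraph (Fin n) → Prop) (hAh : Her A) (hBh : Her B)
    (hA1 : A 1 ⊥) (hB1 : B 1 ⊥) : ¬ IsProd P2 A B := by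
  intro h
  obtain ⟨r, s, hrs, hA, hB⟩ := bot_split ((h 6 ⊥).mp (P2_bot.mpr le_rfl))
  have hr : r ≠ 6 := by
    rintro rfl
    have := P2_bot.mp (bot_mem h hA hB1)
    omega
  have hs : s ≠ 6 := by
    rintro rfl
    have := P2_bot.mp (bot_mem h hA1 hB)
    omega
  have hj := join_mem h hA hB
  have hrs3 : r = 3 ∧ s = 3 := by
    rcases hj with hj | ⟨S, h1, h2, h3, h4⟩
    · simp only [Nat.card_eq_fintype_card, Fintype.card_fin] at hj
      omega
    · -- the two sides of the join are the two sides of the bipartition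
      have hL : ({i : Fin (r + s) | i.val < r} : Set (Fin (r + s))).ncard = r := by
        have : ({i : Fin (r + s) | i.val < r} : Set (Fin (r + s))) =
            Set.range (Fin.castAdd s : Fin r → Fin (r + s)) := by
          ext x
          simp only [Set.mem_ofPred_eq, Set.mem_range]
          constructor
          · intro hx; exact ⟨⟨x.val, hx⟩, rfl⟩
          · rintro ⟨y, rfl⟩; simp
        rw [this, ← Set.image_univ, Set.ncard_image_of_injective _ (Fin.castAdd_injective r s)]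
        simp
      have hR : (({i : Fin (r + s) | i.val < r} : Set (Fin (r + s)))ᶜ).ncard = s := by
        have := Set.ncard_add_ncard_compl ({i : Fin (r + s) | i.val < r} : Set (Fin (r + s)))
        simp only [Nat.card_eq_fintype_card, Fintype.card_fin] at this
        omega
      set L : Set (Fin (r + s)) := {i | i.val < r} with hLdef
      have hadj : ∀ x ∈ L, ∀ y ∈ Lᶜ, (join r s).Adj x y := by
        intro x hx y hy
        left
        refine ⟨hx, ?_⟩
        have : ¬ (y.val < r) := hy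
        omega
      have key : ∀ T : Set (Fin (r + s)), T.ncard ≤ 3 → Tᶜ.ncard ≤ 3 →
          (∀ u ∈ T, ∀ v ∈ T, ¬ (join r s).Adj u v) →
          (∀ u ∈ Tᶜ, ∀ v ∈ Tᶜ, ¬ (join r s).Adj u v) →
          (⟨0, by omega⟩ : Fin (r + s)) ∈ T → r ≤ 3 ∧ s ≤ 3 := by
        intro T t1 t2 t3 t4 t0
        have h0L : (⟨0, by omega⟩ : Fin (r + s)) ∈ L := by
          show (0 : ℕ) < r
          omega
        have hLc : Lᶜ ⊆ Tᶜ := by
          intro y hy hyT
          exact t3 _ t0 _ hyT (hadj _ h0L _ hy)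
        have hrL : (⟨r, by omega⟩ : Fin (r + s)) ∈ Lᶜ := by
          show ¬ (r < r)
          omega
        have hLT : L ⊆ T := by
          intro y hy
          by_contra hyT
          exact t4 _ hyT _ (hLc hrL) (hadj _ hy _ hrL)
        constructor
        · rw [← hL]
          exact (Set.ncard_le_ncard hLT (Set.toFinite _)).trans t1
        · rw [← hR]
          exact (Set.ncard_le_ncard hLc (Set.toFinite _)).trans t2
      have : r ≤ 3 ∧ s ≤ 3 := by
        by_cases h0 : (⟨0, by omega⟩ : Fin (r + s)) ∈ S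
        · exact key S h1 h2 h3 h4 h0
        · exact key Sᶜ h2 (by rwa [compl_compl]) h4 (by rwa [compl_compl]) h0
      omega
  obtain ⟨rfl, rfl⟩ := hrs3
  have h4 : P2 4 ⊤ := Or.inl (by simp)
  obtain ⟨i, j, hij, hAt, hBt⟩ := top_split ((h 4 ⊤).mp h4)
  have hprod : IsProd P2 B A := by
    intro n G
    rw [h n G]
    constructor
    · rintro ⟨S, h1, h2⟩
      exact ⟨Sᶜ, h2, by rwa [compl_compl]⟩
    · rintro ⟨S, h1, h2⟩
      exact ⟨Sᶜ, h2, by rwa [compl_compl]⟩
  have emb : ∀ m : ℕ, 2 ≤ m → ∃ f : (⊤ : SimpleGraph (Fin 2)) →g (⊤ : SimpleGraph (Fin m)),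
      Injective f := by
    intro m hm
    refine ⟨⟨Fin.castLE hm, fun {a b} hab => ?_⟩, Fin.castLE_injective hm⟩
    rw [top_adj] at hab ⊢
    exact fun e => hab (Fin.castLE_injective hm e)
  rcases Nat.lt_or_ge i 2 with hi | hi
  · obtain ⟨f, hf⟩ := emb j (by omega)
    obtain ⟨G, hG, h1, h2, h3⟩ := no_triangle hprod (hBh _ _ _ _ f hf hBt) hA
    exact Q2_no_triangle hG (by simp) h1 h2 h3
  · obtain ⟨f, hf⟩ := emb i hi
    obtain ⟨G, hG, h1, h2, h3⟩ := no_triangle h (hAh _ _ _ _ f hf hAt) hB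
    exact Q2_no_triangle hG (by simp) h1 h2 h3

/-- edgeless with at most three vertices -/
def La {n : ℕ} (G : SimpleGraph (Fin n)) (S : Set (Fin n)) : Prop :=
  S.ncard ≤ 3 ∧ ∀ u ∈ S, ∀ v ∈ S, ¬ G.Adj u v

lemma mem1 {n : ℕ} (G : SimpleGraph (Fin n)) (S : Set (Fin n)) :
    (∃ (r : ℕ) (K : SimpleGraph (Fin r)), P1 r K ∧ Nonempty (G.induce S ≃g K)) ↔
      La G S ∨ S.ncard ≤ 2 := by
  have := mem_iff (Q := @Q1) (fun f hf h => Q1_mono f hf h) (G.induce S)
  unfold P1
  rw [this]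
  unfold Q1 La
  rw [Nat.card_coe_set_eq]
  simp only [comap_adj, Embedding.subtype_apply, Subtype.forall]

lemma mem2 {n : ℕ} (G : SimpleGraph (Fin n)) (S : Set (Fin n)) :
    (∃ (r : ℕ) (K : SimpleGraph (Fin r)), P2 r K ∧ Nonempty (G.induce S ≃g K)) ↔
      S.ncard ≤ 4 ∨ ∃ T U : Set (Fin n), T ∪ U = S ∧ Disjoint T U ∧ La G T ∧ La G U := by
  have := mem_iff (Q := @Q2) (fun f hf h => Q2_mono f hf h) (G.induce S)
  unfold P2
  rw [this]
  unfold Q2 La
  rw [Nat.card_coe_set_eq]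
  refine or_congr Iff.rfl ?_
  constructor
  · rintro ⟨T, h1, h2, h3, h4⟩
    refine ⟨Subtype.val '' T, Subtype.val '' Tᶜ, ?_, ?_, ⟨?_, ?_⟩, ⟨?_, ?_⟩⟩
    · rw [← Set.image_union, Set.union_compl_self, Set.image_univ, Subtype.range_coe]
    · rw [Set.disjoint_image_iff Subtype.val_injective]
      exact disjoint_compl_right
    · rwa [Set.ncard_image_of_injective _ Subtype.val_injective]
    · rintro _ ⟨u, hu, rfl⟩ _ ⟨v, hv, rfl⟩ huv
      exact h3 _ hu _ hv huv
    · rwa [Set.ncard_image_of_injective _ Subtype.val_injective]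
    · rintro _ ⟨u, hu, rfl⟩ _ ⟨v, hv, rfl⟩ huv
      exact h4 _ hu _ hv huv
  · rintro ⟨T, U, hTU, hd, ⟨h1, h2⟩, ⟨h3, h4⟩⟩
    have hU : ∀ x : S, x ∈ ((Subtype.val : S → Fin n) ⁻¹' T)ᶜ → (x : Fin n) ∈ U := by
      intro x hx
      have hxS : (x : Fin n) ∈ T ∪ U := by rw [hTU]; exact x.2
      exact hxS.resolve_left hx
    refine ⟨Subtype.val ⁻¹' T, ?_, ?_, ?_, ?_⟩
    · exact (Set.ncard_le_ncard_of_injOn Subtype.val (fun a ha => ha)
        Subtype.val_injective.injOn (Set.toFinite _)).trans h1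
    · exact (Set.ncard_le_ncard_of_injOn Subtype.val (fun a ha => hU a ha)
        Subtype.val_injective.injOn (Set.toFinite _)).trans h3
    · intro u hu v hv huv
      exact h2 _ hu _ hv huv
    · intro u hu v hv huv
      exact h4 _ (hU u hu) _ (hU v hv) huv

lemma main_forward {n : ℕ} (G : SimpleGraph (Fin n)) (c : Fin n → Fin 3)
    (hc : ∀ i, La G {v | c v = i} ∨ ({v | c v = i} : Set (Fin n)).ncard ≤ 2) :
    ∃ d : Fin n → Fin 2, (La G {v | d v = 0} ∨ ({v | d v = 0} : Set (Fin n)).ncard ≤ 2) ∧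
      (({v | d v = 1} : Set (Fin n)).ncard ≤ 4 ∨ ∃ T U : Set (Fin n), T ∪ U = {v | d v = 1} ∧
        Disjoint T U ∧ La G T ∧ La G U) := by
  have key : ∀ i j k : Fin 3, i ≠ j → i ≠ k → j ≠ k →
      ((La G {v | c v = i} ∧ La G {v | c v = j}) ∨
        (({v | c v = i} : Set (Fin n)).ncard ≤ 2 ∧ ({v | c v = j} : Set (Fin n)).ncard ≤ 2)) →
      ∃ d : Fin n → Fin 2, (La G {v | d v = 0} ∨ ({v | d v = 0} : Set (Fin n)).ncard ≤ 2) ∧
      (({v | d v = 1} : Set (Fin n)).ncard ≤ 4 ∨ ∃ T U : Set (Fin n), T ∪ U = {v | d v = 1} ∧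
        Disjoint T U ∧ La G T ∧ La G U) := by
    intro i j k hij hik hjk h
    refine ⟨fun v => if c v = k then 0 else 1, ?_, ?_⟩
    · have : ({v | (if c v = k then (0 : Fin 2) else 1) = 0} : Set (Fin n)) = {v | c v = k} := by
        ext v
        simp only [Set.mem_ofPred_eq]
        by_cases hv : c v = k <;> simp [hv]
      rw [this]
      exact hc k
    · have : ({v | (if c v = k then (0 : Fin 2) else 1) = 1} : Set (Fin n)) =
          {v | c v = i} ∪ {v | c v = j} := by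
        ext v
        simp only [Set.mem_ofPred_eq, Set.mem_union]
        by_cases hv : c v = k
        · rw [if_pos hv]
          constructor
          · intro h; exact absurd h (by decide)
          · rintro (h | h)
            · exact absurd (h.symm.trans hv) hik
            · exact absurd (h.symm.trans hv) hjk
        · rw [if_neg hv]
          constructor
          · intro _; omega
          · intro _; rfl
      rw [this]
      rcases h with ⟨h1, h2⟩ | ⟨h1, h2⟩
      · refine Or.inr ⟨_, _, rfl, ?_, h1, h2⟩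
        rw [Set.disjoint_left]
        intro v hv hv'
        exact hij (Eq.trans (Eq.symm hv) hv')
      · left
        exact (Set.ncard_union_le _ _).trans (by omega)
  rcases hc 0 with h0 | h0 <;> rcases hc 1 with h1 | h1 <;> rcases hc 2 with h2 | h2
  · exact key 0 1 2 (by decide) (by decide) (by decide) (Or.inl ⟨h0, h1⟩)
  · exact key 0 1 2 (by decide) (by decide) (by decide) (Or.inl ⟨h0, h1⟩)
  · exact key 0 2 1 (by decide) (by decide) (by decide) (Or.inl ⟨h0, h2⟩)
  · exact key 1 2 0 (by decide) (by decide) (by decide) (Or.inr ⟨h1, h2⟩)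
  · exact key 1 2 0 (by decide) (by decide) (by decide) (Or.inl ⟨h1, h2⟩)
  · exact key 0 2 1 (by decide) (by decide) (by decide) (Or.inr ⟨h0, h2⟩)
  · exact key 0 1 2 (by decide) (by decide) (by decide) (Or.inr ⟨h0, h1⟩)
  · exact key 0 1 2 (by decide) (by decide) (by decide) (Or.inr ⟨h0, h1⟩)

lemma main_backward {n : ℕ} (G : SimpleGraph (Fin n)) (d : Fin n → Fin 2)
    (h0 : La G {v | d v = 0} ∨ ({v | d v = 0} : Set (Fin n)).ncard ≤ 2)
    (h1 : ({v | d v = 1} : Set (Fin n)).ncard ≤ 4 ∨ ∃ T U : Set (Fin n), T ∪ U = {v | d v = 1} ∧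
        Disjoint T U ∧ La G T ∧ La G U) :
    ∃ c : Fin n → Fin 3, ∀ i, La G {v | c v = i} ∨ ({v | c v = i} : Set (Fin n)).ncard ≤ 2 := by
  classical
  have key : ∀ T U : Set (Fin n), T ∪ U = {v | d v = 1} → Disjoint T U →
      (La G T ∨ T.ncard ≤ 2) → (La G U ∨ U.ncard ≤ 2) →
      ∃ c : Fin n → Fin 3, ∀ i, La G {v | c v = i} ∨ ({v | c v = i} : Set (Fin n)).ncard ≤ 2 := by
    intro T U hTU hd hT hU
    have hT1 : ∀ v ∈ T, d v = 1 := fun v hv => by
      have : v ∈ ({v | d v = 1} : Set (Fin n)) := hTU ▸ Or.inl hv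
      exact this
    have hU1 : ∀ v ∈ U, d v = 1 := fun v hv => by
      have : v ∈ ({v | d v = 1} : Set (Fin n)) := hTU ▸ Or.inr hv
      exact this
    have hTUd : ∀ v, d v = 1 → v ∈ T ∨ v ∈ U := fun v hv => by
      have : v ∈ T ∪ U := by rw [hTU]; exact hv
      exact this
    set c : Fin n → Fin 3 := fun v => if v ∈ T then 1 else if v ∈ U then 2 else 0 with hcdef
    have e1 : ({v | c v = 1} : Set (Fin n)) = T := by
      ext v
      simp only [Set.mem_ofPred_eq, hcdef]
      by_cases hv : v ∈ T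
      · simp [hv]
      · by_cases hv' : v ∈ U <;> simp [hv, hv']
    have e2 : ({v | c v = 2} : Set (Fin n)) = U := by
      ext v
      simp only [Set.mem_ofPred_eq, hcdef]
      by_cases hv : v ∈ T
      · have : v ∉ U := fun h => Set.disjoint_left.mp hd hv h
        simp [hv, this]
      · by_cases hv' : v ∈ U <;> simp [hv, hv']
    have e0 : ({v | c v = 0} : Set (Fin n)) = {v | d v = 0} := by
      ext v
      simp only [Set.mem_ofPred_eq, hcdef]
      by_cases hv : v ∈ T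
      · simp [hv, hT1 v hv]
      · by_cases hv' : v ∈ U
        · simp [hv, hv', hU1 v hv']
        · have : d v ≠ 1 := fun h => (hTUd v h).elim hv hv'
          have : d v = 0 := by omega
          simp [hv, hv', this]
    refine ⟨c, fun i => ?_⟩
    have hi : i = 0 ∨ i = 1 ∨ i = 2 := by omega
    rcases hi with rfl | rfl | rfl
    · rw [e0]; exact h0
    · rw [e1]; exact hT
    · rw [e2]; exact hU
  rcases h1 with h1 | ⟨T, U, h, h', h1, h2⟩
  · by_cases h2 : ({v | d v = 1} : Set (Fin n)).ncard ≤ 2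
    · exact key {v | d v = 1} ∅ (by simp) (by simp) (Or.inr h2) (Or.inr (by simp))
    · obtain ⟨T, hT, hT2⟩ := Set.exists_subset_card_eq
        (show 2 ≤ ({v | d v = 1} : Set (Fin n)).ncard by omega)
      refine key T ({v | d v = 1} \ T) (Set.union_sdiff_cancel hT) Set.disjoint_sdiff_right
        (Or.inr hT2.le) (Or.inr ?_)
      have := Set.ncard_sdiff_add_ncard_of_subset hT (Set.toFinite _)
      omega
  · exact key T U h h' (Or.inl h1) (Or.inl h2)

/-- The negation of the preceding statement: Among subgraph-closed classes of finite graphs, with product = vertex partition into parts in the factors, any two factorizations of a class into irreducible factors (contain K1, not a product of two such classes) agree up to reordering. -/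
theorem result :
    ¬ (∀ (m k : ℕ) (Ps : Fin m → (n : ℕ) → SimpleGraph (Fin n) → Prop)
      (Qs : Fin k → (n : ℕ) → SimpleGraph (Fin n) → Prop),
      (∀ i : Fin m,
        (∀ (a b : ℕ) (G : SimpleGraph (Fin a)) (H : SimpleGraph (Fin b)) (f : H →g G),
          Function.Injective f → Ps i a G → Ps i b H) ∧
        Ps i 1 ⊥ ∧
        ∀ A B : (n : ℕ) → SimpleGraph (Fin n) → Prop,
          (∀ (a b : ℕ) (G : SimpleGraph (Fin a)) (H : SimpleGraph (Fin b)) (f : H →g G),
            Function.Injective f → A a G → A b H) →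
          (∀ (a b : ℕ) (G : SimpleGraph (Fin a)) (H : SimpleGraph (Fin b)) (f : H →g G),
            Function.Injective f → B a G → B b H) →
          A 1 ⊥ → B 1 ⊥ →
          ¬ ∀ (n : ℕ) (G : SimpleGraph (Fin n)),
            (Ps i n G ↔ ∃ S : Set (Fin n),
              (∃ (r : ℕ) (K : SimpleGraph (Fin r)), A r K ∧ Nonempty (G.induce S ≃g K)) ∧
              (∃ (r : ℕ) (K : SimpleGraph (Fin r)), B r K ∧ Nonempty (G.induce Sᶜ ≃g K)))) →
      (∀ j : Fin k,
        (∀ (a b : ℕ) (G : SimpleGraph (Fin a)) (H : SimpleGraph (Fin b)) (f : H →g G),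
          Function.Injective f → Qs j a G → Qs j b H) ∧
        Qs j 1 ⊥ ∧
        ∀ A B : (n : ℕ) → SimpleGraph (Fin n) → Prop,
          (∀ (a b : ℕ) (G : SimpleGraph (Fin a)) (H : SimpleGraph (Fin b)) (f : H →g G),
            Function.Injective f → A a G → A b H) →
          (∀ (a b : ℕ) (G : SimpleGraph (Fin a)) (H : SimpleGraph (Fin b)) (f : H →g G),
            Function.Injective f → B a G → B b H) →
          A 1 ⊥ → B 1 ⊥ →
          ¬ ∀ (n : ℕ) (G : SimpleGraph (Fin n)),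
            (Qs j n G ↔ ∃ S : Set (Fin n),
              (∃ (r : ℕ) (K : SimpleGraph (Fin r)), A r K ∧ Nonempty (G.induce S ≃g K)) ∧
              (∃ (r : ℕ) (K : SimpleGraph (Fin r)), B r K ∧ Nonempty (G.induce Sᶜ ≃g K)))) →
      (∀ (n : ℕ) (G : SimpleGraph (Fin n)),
        (∃ c : Fin n → Fin m, ∀ i : Fin m, ∃ (r : ℕ) (K : SimpleGraph (Fin r)),
            Ps i r K ∧ Nonempty (G.induce {v | c v = i} ≃g K)) ↔
        (∃ c : Fin n → Fin k, ∀ j : Fin k, ∃ (r : ℕ) (K : SimpleGraph (Fin r)),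
            Qs j r K ∧ Nonempty (G.induce {v | c v = j} ≃g K))) →
      ∃ σ : Fin m ≃ Fin k, ∀ (i : Fin m) (n : ℕ) (G : SimpleGraph (Fin n)),
        (Ps i n G ↔ Qs (σ i) n G)) := by
  intro H
  have hP1 : Her P1 := fun a b G H f hf h => Q1_mono f hf h
  have hP2 : Her P2 := fun a b G H f hf h => Q2_mono f hf h
  obtain ⟨σ, -⟩ := H 3 2 (fun _ => P1) ![P1, P2] (fun _ => ⟨hP1, Or.inr (by simp),
      fun A B _ _ hA1 hB1 h => P1_irr A B hA1 hB1 h⟩) (by
    intro j
    fin_cases j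
    · exact ⟨hP1, Or.inr (by simp), fun A B _ _ hA1 hB1 h => P1_irr A B hA1 hB1 h⟩
    · exact ⟨hP2, Or.inl (by simp), fun A B hA hB hA1 hB1 h => P2_irr A B hA hB hA1 hB1 h⟩) (by
    intro n G
    constructor
    · rintro ⟨c, hc⟩
      obtain ⟨d, h0, h1⟩ := main_forward G c (fun i => (mem1 G _).mp (hc i))
      refine ⟨d, fun j => ?_⟩
      fin_cases j
      · exact (mem1 G _).mpr h0
      · exact (mem2 G _).mpr h1
    · rintro ⟨d, hd⟩
      have h0 := (mem1 G _).mp (hd 0)
      have h1 := (mem2 G _).mp (hd 1)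
      obtain ⟨c, hc⟩ := main_backward G d h0 h1
      exact ⟨c, fun i => (mem1 G _).mpr (hc i)⟩)
  have := Fintype.card_congr σ
  simp at this

end Pool.Agent.S11608
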