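import Pool.Statements.S11612
import Pool.Agent.H279R3.TreeHelly

set_option autoImplicit false
open Pool Pool.MP_d20af1_co

namespace Pool.Agent.S11612

open SimpleGraph

/-- The edges of the graph: a 5-cycle `0 1 2 3 4` whose five chords `02, 03, 13, 14, 24` are each
replaced by a path of length two with middle vertex `5, 6, 7, 8, 9`. -/
def edgeB (u v : Fin 10) : Bool :=
  (u, v) ∈ [((0 : Fin 10), (1 : Fin 10)), (1, 2), (2, 3), (3, 4), (4, 0),
    (0, 5), (2, 5), (0, 6), (3, 6), (1, 7), (3, 7), (1, 8), (4, 8), (2, 9), (4, 9)]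

/-- The counterexample: `K_5` with the five chords of a 5-cycle subdivided once. -/
def G : SimpleGraph (Fin 10) where
  Adj u v := (edgeB u v || edgeB v u) = true
  symm := ⟨fun _ _ h => by rw [Bool.or_comm]; exact h⟩
  loopless := ⟨fun u => by revert u; decide⟩

instance : DecidableRel G.Adj := fun u v => inferInstanceAs (Decidable (_ = true))

lemma star_conn {n : ℕ} (c : Fin n) (S : Set (Fin n)) (hS : S.Nonempty)
    (h : c ∈ S ∨ ∀ i ∈ S, ∀ j ∈ S, i = j) : ((starGraph c).induce S).Connected := by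
  obtain ⟨x, hx⟩ := hS
  rcases h with h | h
  · rw [connected_iff_exists_forall_reachable]
    refine ⟨⟨c, h⟩, fun w => ?_⟩
    by_cases hw : (w : Fin n) = c
    · have : w = ⟨c, h⟩ := Subtype.ext hw
      rw [this]
    · apply Adj.reachable
      rw [comap_adj, starGraph_adj]
      exact ⟨fun e => hw e.symm, Or.inl rfl⟩
  · rw [connected_iff_exists_forall_reachable]
    refine ⟨⟨x, hx⟩, fun w => ?_⟩
    have : w = ⟨x, hx⟩ := Subtype.ext (h _ w.2 _ hx)
    rw [this]

/-- bags of the first decomposition -/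
def B1 : Fin 6 → Finset (Fin 10) :=
  ![{0, 1, 2, 3, 4}, {0, 2, 5}, {0, 3, 6}, {1, 3, 7}, {1, 4, 8}, {2, 4, 9}]

/-- bags of the second decomposition -/
def B2 : Fin 5 → Finset (Fin 10) :=
  ![{1, 3, 4, 5, 6, 9}, {0, 1, 4, 5, 6}, {1, 2, 3, 5, 9}, {1, 3, 7}, {1, 4, 8}]

/-- a 2-colouring of each bag of the second decomposition -/
def C2 : Fin 5 → Fin 10 → Bool :=
  ![fun v => v ∈ [(3 : Fin 10), 9, 1, 5], fun v => v ∈ [(0 : Fin 10)],
    fun v => v ∈ [(2 : Fin 10)], fun v => v ∈ [(7 : Fin 10)], fun v => v ∈ [(8 : Fin 10)]]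

/-- the five branch sets of a `K_5` minor -/
def P : Fin 5 → Finset (Fin 10) := ![{0, 5, 6}, {1, 7, 8}, {2, 9}, {3}, {4}]

/-- centre of each branch set -/
def ctr : Fin 5 → Fin 10 := ![0, 1, 2, 3, 4]

lemma P_conn (a : Fin 5) : H279R3.WConn G (P a : Set (Fin 10)) := by
  have h1 : ∀ a : Fin 5, ∀ i ∈ P a, i = ctr a ∨ G.Adj i (ctr a) := by decide
  have h2 : ∀ a : Fin 5, ctr a ∈ P a := by decide
  have key : ∀ i ∈ P a, ∃ q : G.Walk i (ctr a), ∀ x ∈ q.support, x ∈ (P a : Set (Fin 10)) := by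
    intro i hi
    rcases h1 a i hi with h | h
    · subst h
      exact ⟨Walk.nil, fun x hx => by
        rw [Walk.support_nil, List.mem_singleton] at hx
        subst hx; exact h2 a⟩
    · refine ⟨Walk.cons h Walk.nil, fun x hx => ?_⟩
      rw [Walk.support_cons, Walk.support_nil, List.mem_cons, List.mem_singleton] at hx
      rcases hx with rfl | rfl
      · exact hi
      · exact h2 a
  intro i hi j hj
  obtain ⟨q, hq⟩ := key i hi
  obtain ⟨r, hr⟩ := key j hj
  refine ⟨q.append r.reverse, fun x hx => ?_⟩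
  rw [Walk.mem_support_append_iff] at hx
  rcases hx with hx | hx
  · exact hq x hx
  · rw [Walk.support_reverse, List.mem_reverse] at hx
    exact hr x hx

/-- The negation of the preceding statement: For every finite graph G and all a, k: if G has a tree decomposition whose bags all have independence number at most a, and one whose bags all induce k-colorable subgraphs, then G has a tree decomposition with all bags of size at most a·k. -/
theorem result :
    ¬ (∀ (V : Type) [Fintype V] (G : SimpleGraph V) (a k : ℕ),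
      (∃ (n : ℕ) (T : SimpleGraph (Fin n)) (B : Fin n → Finset V),
        T.IsTree ∧
        (∀ u v : V, G.Adj u v → ∃ i, u ∈ B i ∧ v ∈ B i) ∧
        (∀ v : V, (T.induce {i : Fin n | v ∈ B i}).Connected) ∧
        (∀ i : Fin n, ∀ S : Finset V, S ⊆ B i → G.IsIndepSet (S : Set V) → S.card ≤ a)) →
      (∃ (n : ℕ) (T : SimpleGraph (Fin n)) (B : Fin n → Finset V),
        T.IsTree ∧
        (∀ u v : V, G.Adj u v → ∃ i, u ∈ B i ∧ v ∈ B i) ∧
        (∀ v : V, (T.induce {i : Fin n | v ∈ B i}).Connected) ∧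
        (∀ i : Fin n, (G.induce (B i : Set V)).Colorable k)) →
      (∃ (n : ℕ) (T : SimpleGraph (Fin n)) (B : Fin n → Finset V),
        T.IsTree ∧
        (∀ u v : V, G.Adj u v → ∃ i, u ∈ B i ∧ v ∈ B i) ∧
        (∀ v : V, (T.induce {i : Fin n | v ∈ B i}).Connected) ∧
        (∀ i : Fin n, (B i).card ≤ a * k))) := by
  intro H
  have h1 : ∃ (n : ℕ) (T : SimpleGraph (Fin n)) (B : Fin n → Finset (Fin 10)),
        T.IsTree ∧
        (∀ u v, G.Adj u v → ∃ i, u ∈ B i ∧ v ∈ B i) ∧
        (∀ v, (T.induce {i : Fin n | v ∈ B i}).Connected) ∧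
        (∀ i : Fin n, ∀ S : Finset (Fin 10), S ⊆ B i → G.IsIndepSet (S : Set (Fin 10)) →
          S.card ≤ 2) := by
    refine ⟨6, starGraph 0, B1, isTree_starGraph _, by decide, fun v => ?_, ?_⟩
    · apply star_conn
      · have : ∀ v : Fin 10, ∃ i, v ∈ B1 i := by decide
        exact this v
      · have : ∀ v : Fin 10, v ∈ B1 0 ∨ ∀ i, v ∈ B1 i → ∀ j, v ∈ B1 j → i = j := by decide
        exact this v
    · intro i S hS hind
      have key : ∀ i : Fin 6, ∀ a ∈ B1 i, ∀ b ∈ B1 i, ∀ c ∈ B1 i,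
          a = b ∨ a = c ∨ b = c ∨ G.Adj a b ∨ G.Adj a c ∨ G.Adj b c := by decide
      by_contra hlt
      obtain ⟨a, b, c, ha, hb, hc, hab, hac, hbc⟩ := Finset.two_lt_card_iff.mp (not_le.mp hlt)
      rcases key i a (hS ha) b (hS hb) c (hS hc) with h | h | h | h | h | h
      · exact hab h
      · exact hac h
      · exact hbc h
      · exact hind ha hb hab h
      · exact hind ha hc hac h
      · exact hind hb hc hbc h
  have h2 : ∃ (n : ℕ) (T : SimpleGraph (Fin n)) (B : Fin n → Finset (Fin 10)),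
        T.IsTree ∧
        (∀ u v, G.Adj u v → ∃ i, u ∈ B i ∧ v ∈ B i) ∧
        (∀ v, (T.induce {i : Fin n | v ∈ B i}).Connected) ∧
        (∀ i : Fin n, (G.induce (B i : Set (Fin 10))).Colorable 2) := by
    refine ⟨5, starGraph 0, B2, isTree_starGraph _, by decide, fun v => ?_, ?_⟩
    · apply star_conn
      · have : ∀ v : Fin 10, ∃ i, v ∈ B2 i := by decide
        exact this v
      · have : ∀ v : Fin 10, v ∈ B2 0 ∨ ∀ i, v ∈ B2 i → ∀ j, v ∈ B2 j → i = j := by decide
        exact this v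
    · intro i
      have key : ∀ i : Fin 5, ∀ u ∈ B2 i, ∀ v ∈ B2 i, G.Adj u v → C2 i u ≠ C2 i v := by decide
      have C : (G.induce (B2 i : Set (Fin 10))).Coloring Bool :=
        Coloring.mk (fun u => C2 i u) (fun {u v} huv =>
          key i u u.2 v v.2 huv)
      exact C.colorable
  obtain ⟨n, T, B, hT, he, hc, hcard⟩ := H (Fin 10) G 2 2 h1 h2
  have hv : ∀ v i j, v ∈ B i → v ∈ B j → ∃ q : T.Walk i j, ∀ x ∈ q.support, v ∈ B x := by
    intro v i j hi hj
    obtain ⟨Q⟩ := (hc v).preconnected ⟨i, hi⟩ ⟨j, hj⟩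
    refine ⟨Q.map (Embedding.induce _).toHom, fun x hx => ?_⟩
    have hx' : x ∈ (Q.map (Embedding.induce {i | v ∈ B i}).toHom).support := hx
    rw [Walk.support_map, List.mem_map] at hx'
    obtain ⟨y, -, rfl⟩ := hx'
    exact y.2
  obtain ⟨i, hi⟩ := H279R3.helly hT
    (fun a : Fin 5 => {i | ∃ v ∈ (P a : Set (Fin 10)), v ∈ B i})
    (fun a => H279R3.trace_conn he hv (P_conn a)) (by
      intro a b
      have key : ∀ a b : Fin 5, a = b ∨ ∃ u ∈ P a, ∃ v ∈ P b, G.Adj u v := by decide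
      have hne : ∀ a : Fin 5, ctr a ∈ P a := by decide
      rcases key a b with rfl | ⟨u, hu, v, hv', huv⟩
      · obtain ⟨⟨i, hi⟩⟩ := (hc (ctr a)).nonempty
        exact ⟨i, ⟨ctr a, hne a, hi⟩, ⟨ctr a, hne a, hi⟩⟩
      · obtain ⟨i, hi, hi'⟩ := he u v huv
        exact ⟨i, ⟨u, hu, hi⟩, ⟨v, hv', hi'⟩⟩)
  choose f hf hfB using hi
  have hinj : Function.Injective f := by
    intro a b hab
    have key : ∀ a b : Fin 5, ∀ x, x ∈ P a → x ∈ P b → a = b := by decide
    exact key a b (f a) (hf a) (hab ▸ hf b)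
  have h5 : (Finset.univ.image f).card = 5 := by
    rw [Finset.card_image_of_injective _ hinj]; rfl
  have hle : (Finset.univ.image f).card ≤ (B i).card := Finset.card_le_card (by
    intro x hx
    rw [Finset.mem_image] at hx
    obtain ⟨a, -, rfl⟩ := hx
    exact hfB a)
  have := hcard i
  omega

end Pool.Agent.S11612
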