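import Pool.Statements.S11707
import Pool.Agent.Q277.TG

set_option autoImplicit false
open Classical
open Pool Pool.MP_d61016_co

namespace Pool.Agent.S11707

open Pool.Agent.Q277.TG

/-- Every finite three-graph A embeds as an induced substructure in some finite three-graph B such that every partial automorphism of A extends to an automorphism of B. -/
theorem result :
    ∀ (n : ℕ) (rA : Fin n → Fin n → Prop) (HA : Finset (Finset (Fin n))),
      (Equivalence rA ∧ (∀ a b c, rA a b ∨ rA b c ∨ rA a c) ∧
        (∀ e ∈ HA, e.card = 4 ∧ ∀ v ∈ e, (e.filter (fun w => rA v w)).card = 2) ∧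
        (∀ S : Finset (Fin n), S.card = 5 →
          (∀ v ∈ S, (S.filter (fun w => rA v w)).card ≤ 3) →
          Even (HA.filter (fun e => e ⊆ S)).card)) →
      ∃ (m : ℕ) (rB : Fin m → Fin m → Prop) (HB : Finset (Finset (Fin m))),
        (Equivalence rB ∧ (∀ a b c, rB a b ∨ rB b c ∨ rB a c) ∧
          (∀ e ∈ HB, e.card = 4 ∧ ∀ v ∈ e, (e.filter (fun w => rB v w)).card = 2) ∧
          (∀ S : Finset (Fin m), S.card = 5 →
            (∀ v ∈ S, (S.filter (fun w => rB v w)).card ≤ 3) →
            Even (HB.filter (fun e => e ⊆ S)).card)) ∧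
        ∃ f : Fin n ↪ Fin m,
          (∀ x y, rA x y ↔ rB (f x) (f y)) ∧
          (∀ e : Finset (Fin n), e ∈ HA ↔ e.map f ∈ HB) ∧
          ∀ (S : Finset (Fin n)) (p : Fin n → Fin n),
            Set.InjOn p (S : Set (Fin n)) →
            (∀ x ∈ S, ∀ y ∈ S, rA x y ↔ rA (p x) (p y)) →
            (∀ e ⊆ S, e ∈ HA ↔ e.image p ∈ HA) →
            ∃ σ : Fin m ≃ Fin m,
              (∀ x y, rB x y ↔ rB (σ x) (σ y)) ∧
              (∀ e : Finset (Fin m), e ∈ HB ↔ e.map σ.toEmbedding ∈ HB) ∧
              ∀ x ∈ S, σ (f x) = f (p x) := by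
  intro n rA HA ⟨hEq, htwo, hedge, hpar⟩
  -- the side function
  obtain ⟨s, hs⟩ : ∃ s : Fin n → Bool, ∀ x y, rA x y ↔ s x = s y := by
    by_cases hn : Nonempty (Fin n)
    · obtain ⟨v0⟩ := hn
      refine ⟨fun x => decide (rA v0 x), fun x y => ?_⟩
      rw [decide_eq_decide]
      constructor
      · intro h
        exact ⟨fun h1 => hEq.trans h1 h, fun h1 => hEq.trans h1 (hEq.symm h)⟩
      · intro h
        by_cases h1 : rA v0 x
        · exact hEq.trans (hEq.symm h1) (h.mp h1)
        · rcases htwo v0 x y with h2 | h2 | h2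
          · exact absurd h2 h1
          · exact h2
          · exact absurd (h.mpr h2) h1
    · exact ⟨fun _ => true, fun x => absurd ⟨x⟩ hn⟩
  have hbal : ∀ e ∈ HA, bal s e := by
    intro e he
    obtain ⟨h4, h2⟩ := hedge e he
    obtain ⟨v, hv⟩ := Finset.card_pos.mp (by omega : 0 < e.card)
    have h5 := h2 v hv
    rw [card_filter_side s rA hs] at h5
    have h6 := card_lf_add_rt s e
    unfold bal
    split_ifs at h5 <;> omega
  have h5 : ∀ S : Finset (Fin n), S.card = 5 → (lf s S).card ≤ 3 → (rt s S).card ≤ 3 →
      Even (HA.filter (fun e => e ⊆ S)).card := by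
    intro S hS hl hr
    have h6 := hpar S hS (by
      intro v _
      rw [card_filter_side s rA hs]
      split_ifs <;> assumption)
    convert h6
  obtain ⟨Γ, hΓ⟩ := exists_gamma s HA hbal h5
  -- the extension
  let θ : Fin n → Fin n → ZMod 2 := fun v => if s v = true then Γ v else 0
  let φ : BB (Fin n) ≃ Fin (Fintype.card (BB (Fin n))) := Fintype.equivFin _
  let side' : Fin (Fintype.card (BB (Fin n))) → Bool := fun i => (φ.symm i).1
  let E' : Fin (Fintype.card (BB (Fin n))) → Fin (Fintype.card (BB (Fin n))) → ZMod 2 :=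
    fun i j => EE (φ.symm i) (φ.symm j)
  let f : Fin n ↪ Fin (Fintype.card (BB (Fin n))) :=
    ⟨fun v => φ (s v, v, θ v), fun u v h => by
      have := φ.injective h
      simp only [Prod.mk.injEq] at this
      exact this.2.1⟩
  have hf : ∀ v, φ.symm (f v) = (s v, v, θ v) := fun v => Equiv.symm_apply_apply _ _
  -- the key fact about four-sets
  have fact_t : ∀ u u' w w' : Fin n, s u = true → s u' = true → s w = false → s w' = false →
      u ≠ u' → w ≠ w' → (({u, u', w, w'} : Finset (Fin n)) ∈ HA ↔
        (θ u w + θ w u) + (θ u w' + θ w' u) + (θ u' w + θ w u') + (θ u' w' + θ w' u') = 1) := by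
    intro u u' w w' hu hu' hw hw' huu hww
    have h1 : lf s ({u, u', w, w'} : Finset (Fin n)) = {u, u'} := by
      unfold lf
      simp [Finset.filter_insert, Finset.filter_singleton, hu, hu', hw, hw']
    have h2 : rt s ({u, u', w, w'} : Finset (Fin n)) = {w, w'} := by
      unfold rt
      simp [Finset.filter_insert, Finset.filter_singleton, hu, hu', hw, hw']
    rw [hΓ, mem_HB]
    unfold bal cs
    rw [h1, h2, Finset.card_pair huu, Finset.card_pair hww, Finset.sum_pair huu,
      Finset.sum_pair hww, Finset.sum_pair hww]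
    simp only [θ, hu, hu', hw, hw', if_true, true_and, Bool.false_eq_true, if_false,
      Pi.zero_apply, add_zero, add_assoc]
  have fact_b : ∀ (b : Bool) (u u' w w' : Fin n), s u = b → s u' = b → s w = (!b) → s w' = (!b) →
      u ≠ u' → w ≠ w' → (({u, u', w, w'} : Finset (Fin n)) ∈ HA ↔
        (θ u w + θ w u) + (θ u w' + θ w' u) + (θ u' w + θ w u') + (θ u' w' + θ w' u') = 1) := by
    intro b u u' w w' hu hu' hw hw' huu hww
    cases b
    · have : ({u, u', w, w'} : Finset (Fin n)) = {w, w', u, u'} := by
        ext z; simp only [Finset.mem_insert, Finset.mem_singleton]; tauto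
      rw [this, fact_t w w' u u' hw hw' hu hu' hww huu]
      have e : (θ w u + θ u w) + (θ w u' + θ u' w) + (θ w' u + θ u w') + (θ w' u' + θ u' w') =
        (θ u w + θ w u) + (θ u w' + θ w' u) + (θ u' w + θ w u') + (θ u' w' + θ w' u') := by ring
      rw [e]
    · exact fact_t u u' w w' hu hu' hw hw' huu hww
  refine ⟨Fintype.card (BB (Fin n)), fun x y => side' x = side' y, HB side' E',
    ⟨⟨fun x => rfl, fun h => h.symm, fun h h' => h.trans h'⟩, ?_, ?_, ?_⟩, f, ?_, ?_, ?_⟩
  · intro a b c
    cases ha : side' a <;> cases hb : side' b <;> cases hc : side' c <;> simp [ha, hb, hc]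
  · intro e he
    have hb := (mem_HB.mp he).1
    refine ⟨hb.card, fun v hv => ?_⟩
    rw [card_filter_side side' _ (fun _ _ => Iff.rfl)]
    split_ifs
    · exact hb.1
    · exact hb.2
  · intro S hS hle
    have h1 : (lf side' S).card ≤ 3 := by
      by_cases h0 : (lf side' S).card = 0
      · omega
      · obtain ⟨v, hv⟩ := Finset.card_pos.mp (Nat.pos_of_ne_zero h0)
        rw [mem_lf] at hv
        have := hle v hv.1
        rwa [card_filter_side side' _ (fun _ _ => Iff.rfl), if_pos hv.2] at this
    have h2 : (rt side' S).card ≤ 3 := by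
      by_cases h0 : (rt side' S).card = 0
      · omega
      · obtain ⟨v, hv⟩ := Finset.card_pos.mp (Nat.pos_of_ne_zero h0)
        rw [mem_rt] at hv
        have := hle v hv.1
        rwa [card_filter_side side' _ (fun _ _ => Iff.rfl), if_neg (by rw [hv.2]; simp)] at this
    convert HB_even side' E' S hS h1 h2
  · intro x y
    rw [hs]
    simp only [side', hf]
  · intro e
    rw [hΓ]
    apply HB_map s side' Γ E' f (fun w => by simp only [side', hf]) (fun _ => 0)
    intro u v hu hv
    simp [E', hf, EE, θ, hu, hv]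
  · intro S p hp hrel hH
    -- sides are preserved or all exchanged
    have hside : (∀ v ∈ S, s (p v) = s v) ∨ (∀ v ∈ S, s (p v) = !s v) := by
      by_cases h : ∀ v ∈ S, s (p v) = s v
      · exact Or.inl h
      · right
        push Not at h
        obtain ⟨v0, hv0, hne⟩ := h
        intro v hv
        have h1 := hrel v0 hv0 v hv
        rw [hs, hs] at h1
        revert h1 hne
        cases s v0 <;> cases s v <;> cases s (p v0) <;> cases s (p v) <;> simp
    have hD : ∀ x x' y y', (x ∈ S ∧ s x = true) → (x' ∈ S ∧ s x' = true) →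
      (y ∈ S ∧ s y = false) → (y' ∈ S ∧ s y' = false) →
      (θ x y + θ y x + θ (p x) (p y) + θ (p y) (p x)) +
      (θ x y' + θ y' x + θ (p x) (p y') + θ (p y') (p x)) +
      (θ x' y + θ y x' + θ (p x') (p y) + θ (p y) (p x')) +
      (θ x' y' + θ y' x' + θ (p x') (p y') + θ (p y') (p x')) = 0 := by
      rintro x x' y y' ⟨hxS, hx⟩ ⟨hxS', hx'⟩ ⟨hyS, hy⟩ ⟨hyS', hy'⟩
      by_cases hxx : x = x'
      · subst hxx
        generalize (θ x y + θ y x + θ (p x) (p y) + θ (p y) (p x)) = t1
        generalize (θ x y' + θ y' x + θ (p x) (p y') + θ (p y') (p x)) = t2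
        revert t1 t2
        decide
      by_cases hyy : y = y'
      · subst hyy
        generalize (θ x y + θ y x + θ (p x) (p y) + θ (p y) (p x)) = t1
        generalize (θ x' y + θ y x' + θ (p x') (p y) + θ (p y) (p x')) = t2
        revert t1 t2
        decide
      have h1 := fact_t x x' y y' hx hx' hy hy' hxx hyy
      have h2 : (({p x, p x', p y, p y'} : Finset (Fin n)) ∈ HA ↔
        (θ (p x) (p y) + θ (p y) (p x)) + (θ (p x) (p y') + θ (p y') (p x)) +
        (θ (p x') (p y) + θ (p y) (p x')) + (θ (p x') (p y') + θ (p y') (p x')) = 1) := by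
        have hpx : p x ≠ p x' := fun h => hxx (hp hxS hxS' h)
        have hpy : p y ≠ p y' := fun h => hyy (hp hyS hyS' h)
        rcases hside with h | h
        · exact fact_b true _ _ _ _ (by rw [h x hxS, hx]) (by rw [h x' hxS', hx'])
            (by rw [h y hyS, hy]; rfl) (by rw [h y' hyS', hy']; rfl) hpx hpy
        · exact fact_b false _ _ _ _ (by rw [h x hxS, hx]; rfl) (by rw [h x' hxS', hx']; rfl)
            (by rw [h y hyS, hy]) (by rw [h y' hyS', hy']) hpx hpy
      have h3 := hH {x, x', y, y'} (by
        intro z hz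
        simp only [Finset.mem_insert, Finset.mem_singleton] at hz
        rcases hz with rfl | rfl | rfl | rfl <;> assumption)
      have h4 : Finset.image p {x, x', y, y'} = {p x, p x', p y, p y'} := by
        simp [Finset.image_insert]
      rw [h4, h1, h2] at h3
      revert h3
      generalize θ x y = t1
      generalize θ y x = t2
      generalize θ x y' = t3
      generalize θ y' x = t4
      generalize θ x' y = t5
      generalize θ y x' = t6
      generalize θ x' y' = t7
      generalize θ y' x' = t8
      generalize θ (p x) (p y) = q1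
      generalize θ (p y) (p x) = q2
      generalize θ (p x) (p y') = q3
      generalize θ (p y') (p x) = q4
      generalize θ (p x') (p y) = q5
      generalize θ (p y) (p x') = q6
      generalize θ (p x') (p y') = q7
      generalize θ (p y') (p x') = q8
      intro h3
      have key : ∀ A B : ZMod 2, (A = 1 ↔ B = 1) → A + B = 0 := by decide
      have := key _ _ h3
      rw [← this]
      ring
    obtain ⟨τ, α, hτ1, hτ2, hτ3⟩ := ext_auto s S p hp θ (fun v => θ (p v)) hD
    rcases hside with h | h
    · refine ⟨φ.symm.trans (τ.trans φ), ?_, ?_, ?_⟩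
      · intro x y
        simp [side', hτ1]
      · intro e
        apply HB_map side' side' E' E' (φ.symm.trans (τ.trans φ)).toEmbedding
          (fun w => by simp [side', hτ1]) (fun i => α (φ.symm i))
        intro u v hu hv
        have := hτ2 (φ.symm u) (φ.symm v) hu hv
        simpa [E'] using this
      · intro x hx
        have h1 := hτ3 x hx
        show φ (τ (φ.symm (φ (s x, x, θ x)))) = φ (s (p x), p x, θ (p x))
        rw [Equiv.symm_apply_apply, h1, h x hx]
    · let fl : BB (Fin n) ≃ BB (Fin n) :=
        ⟨fun w => (!w.1, w.2), fun w => (!w.1, w.2), fun w => by simp, fun w => by simp⟩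
      have hfl1 : ∀ w, (fl w).1 = !w.1 := fun w => rfl
      have hflE : ∀ u v, EE (fl u) (fl v) = EE u v := fun u v => rfl
      refine ⟨φ.symm.trans ((τ.trans fl).trans φ), ?_, ?_, ?_⟩
      · intro x y
        simp [side', hτ1, hfl1]
      · intro e
        apply HB_map' side' side' E' E' (φ.symm.trans ((τ.trans fl).trans φ)).toEmbedding
          (fun w => by simp [side', hτ1, hfl1]) (fun i => α (φ.symm i))
        intro u v hu hv
        have := hτ2 (φ.symm u) (φ.symm v) hu hv
        rw [EE_comm] at this
        simpa [E', hflE] using this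
      · intro x hx
        have h1 := hτ3 x hx
        show φ (fl (τ (φ.symm (φ (s x, x, θ x))))) = φ (s (p x), p x, θ (p x))
        rw [Equiv.symm_apply_apply, h1, h x hx]
        rfl

end Pool.Agent.S11707
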