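-- Counterexample: the dual hypergraph of the Groetzsch graph (11 hyperedges = stars of the
-- vertices, 20 points = edges of the graph).
import Pool.Statements.S11816

set_option autoImplicit false
open Pool Pool.MP_daf6f7_co

namespace Pool.Agent.S11816

/-- The stars of the Groetzsch graph: hyperedge `i` is the set of graph edges at vertex `i`. -/
def star (i : Fin 11) : Finset (Fin 20) :=
  match i with
  | 0 => {0, 4, 9, 11}
  | 1 => {1, 0, 5, 12}
  | 2 => {2, 1, 6, 13}
  | 3 => {3, 2, 7, 14}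
  | 4 => {4, 3, 8, 10}
  | 5 => {5, 10, 15}
  | 6 => {6, 11, 16}
  | 7 => {7, 12, 17}
  | 8 => {8, 13, 18}
  | 9 => {9, 14, 19}
  | 10 => {15, 16, 17, 18, 19}

/-- Six independent sets of the Groetzsch graph. -/
def ind : List (Finset (Fin 11)) :=
  [{0, 5, 7, 8}, {1, 4, 6, 9}, {5, 6, 7, 8, 9}, {0, 3, 10}, {1, 3, 10}, {2, 4, 10}]

theorem ind_ok : ∀ I ∈ ind, ∀ i ∈ I, ∀ j ∈ I, i ≠ j → Disjoint (star i) (star j) := by
  decide +kernel

theorem third (b0 b1 b2 b3 b4 b5 b6 b7 b8 b9 b10 : Bool) :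
    let t := b0.toNat + b1.toNat + b2.toNat + b3.toNat + b4.toNat + b5.toNat + b6.toNat +
      b7.toNat + b8.toNat + b9.toNat + b10.toNat
    t ≤ 3 * (b0.toNat + b5.toNat + b7.toNat + b8.toNat) ∨
    t ≤ 3 * (b1.toNat + b4.toNat + b6.toNat + b9.toNat) ∨
    t ≤ 3 * (b5.toNat + b6.toNat + b7.toNat + b8.toNat + b9.toNat) ∨
    t ≤ 3 * (b0.toNat + b3.toNat + b10.toNat) ∨
    t ≤ 3 * (b1.toNat + b3.toNat + b10.toNat) ∨
    t ≤ 3 * (b2.toNat + b4.toNat + b10.toNat) := by
  revert b0 b1 b2 b3 b4 b5 b6 b7 b8 b9 b10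
  decide +kernel

theorem card_eq (S I : Finset (Fin 11)) :
    (S ∩ I).card = ∑ i : Fin 11, (decide (i ∈ S) && decide (i ∈ I)).toNat := by
  rw [Finset.card_eq_sum_ones, ← Finset.sum_subset (Finset.subset_univ (S ∩ I))]
  · apply Finset.sum_congr rfl
    intro i hi
    rw [Finset.mem_inter] at hi
    simp [hi.1, hi.2]
  · intro i _ hi
    rw [Finset.mem_inter] at hi
    by_cases h1 : i ∈ S <;> by_cases h2 : i ∈ I <;> simp_all

theorem exists_third (S : Finset (Fin 11)) : ∃ I ∈ ind, S.card ≤ 3 * (S ∩ I).card := by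
  have hS : S.card = ∑ i : Fin 11, (decide (i ∈ S)).toNat := by
    have := card_eq S Finset.univ
    simpa using this
  have h := third (decide ((0 : Fin 11) ∈ S)) (decide ((1 : Fin 11) ∈ S))
    (decide ((2 : Fin 11) ∈ S)) (decide ((3 : Fin 11) ∈ S)) (decide ((4 : Fin 11) ∈ S))
    (decide ((5 : Fin 11) ∈ S)) (decide ((6 : Fin 11) ∈ S)) (decide ((7 : Fin 11) ∈ S))
    (decide ((8 : Fin 11) ∈ S)) (decide ((9 : Fin 11) ∈ S)) (decide ((10 : Fin 11) ∈ S))
  simp only [] at h
  have e : ∀ f : Fin 11 → ℕ, ∑ i : Fin 11, f i =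
      f 0 + f 1 + f 2 + f 3 + f 4 + f 5 + f 6 + f 7 + f 8 + f 9 + f 10 := by
    intro f
    simp [Fin.sum_univ_succ]
    have h3 : (Fin.succ 2 : Fin 11) = 3 := rfl
    omega
  rw [e] at hS
  rcases h with h | h | h | h | h | h
  · refine ⟨{0, 5, 7, 8}, by simp [ind], ?_⟩
    rw [card_eq, e]
    simp at h hS ⊢
    omega
  · refine ⟨{1, 4, 6, 9}, by simp [ind], ?_⟩
    rw [card_eq, e]
    simp at h hS ⊢
    omega
  · refine ⟨{5, 6, 7, 8, 9}, by simp [ind], ?_⟩
    rw [card_eq, e]
    simp at h hS ⊢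
    omega
  · refine ⟨{0, 3, 10}, by simp [ind], ?_⟩
    rw [card_eq, e]
    simp at h hS ⊢
    omega
  · refine ⟨{1, 3, 10}, by simp [ind], ?_⟩
    rw [card_eq, e]
    simp at h hS ⊢
    omega
  · refine ⟨{2, 4, 10}, by simp [ind], ?_⟩
    rw [card_eq, e]
    simp at h hS ⊢
    omega

theorem not_three : ¬ ∃ c : Fin 11 → Fin 3,
    ∀ i j, i ≠ j → c i = c j → Disjoint (star i) (star j) := by
  rintro ⟨c, hc⟩
  have key : ∀ i j : Fin 11, i ≠ j → ¬ Disjoint (star i) (star j) → c i ≠ c j :=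
    fun i j h1 h2 h3 => h2 (hc i j h1 h3)
  have h01 := key 0 1 (by decide) (by decide)
  have h12 := key 1 2 (by decide) (by decide)
  have h23 := key 2 3 (by decide) (by decide)
  have h34 := key 3 4 (by decide) (by decide)
  have h40 := key 4 0 (by decide) (by decide)
  have h51 := key 5 1 (by decide) (by decide)
  have h54 := key 5 4 (by decide) (by decide)
  have h62 := key 6 2 (by decide) (by decide)
  have h60 := key 6 0 (by decide) (by decide)
  have h73 := key 7 3 (by decide) (by decide)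
  have h71 := key 7 1 (by decide) (by decide)
  have h84 := key 8 4 (by decide) (by decide)
  have h82 := key 8 2 (by decide) (by decide)
  have h90 := key 9 0 (by decide) (by decide)
  have h93 := key 9 3 (by decide) (by decide)
  have ha5 := key 10 5 (by decide) (by decide)
  have ha6 := key 10 6 (by decide) (by decide)
  have ha7 := key 10 7 (by decide) (by decide)
  have ha8 := key 10 8 (by decide) (by decide)
  have ha9 := key 10 9 (by decide) (by decide)
  clear key hc
  generalize c 0 = c0 at *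
  generalize c 1 = c1 at *
  generalize c 2 = c2 at *
  generalize c 3 = c3 at *
  generalize c 4 = c4 at *
  generalize c 5 = c5 at *
  generalize c 6 = c6 at *
  generalize c 7 = c7 at *
  generalize c 8 = c8 at *
  generalize c 9 = c9 at *
  generalize c 10 = c10 at *
  have main : ∀ c0 c1 c2 c3 c4 g : Fin 3, c0 ≠ c1 → c1 ≠ c2 → c2 ≠ c3 → c3 ≠ c4 → c4 ≠ c0 →
      (c1 ≠ c4 ∧ g ≠ c1 ∧ g ≠ c4) ∨ (c2 ≠ c0 ∧ g ≠ c2 ∧ g ≠ c0) ∨
      (c3 ≠ c1 ∧ g ≠ c3 ∧ g ≠ c1) ∨ (c4 ≠ c2 ∧ g ≠ c4 ∧ g ≠ c2) ∨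
      (c0 ≠ c3 ∧ g ≠ c0 ∧ g ≠ c3) := by
    decide +kernel
  have four : ∀ a b g u : Fin 3, a ≠ b → g ≠ a → g ≠ b → u ≠ a → u ≠ b → g = u := by
    decide +kernel
  rcases main c0 c1 c2 c3 c4 c10 h01 h12 h23 h34 h40 with h | h | h | h | h
  · exact ha5 (four c1 c4 c10 c5 h.1 h.2.1 h.2.2 h51 h54)
  · exact ha6 (four c2 c0 c10 c6 h.1 h.2.1 h.2.2 h62 h60)
  · exact ha7 (four c3 c1 c10 c7 h.1 h.2.1 h.2.2 h73 h71)
  · exact ha8 (four c4 c2 c10 c8 h.1 h.2.1 h.2.2 h84 h82)
  · exact ha9 (four c0 c3 c10 c9 h.1 h.2.1 h.2.2 h90 h93)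

theorem sup_univ : Finset.univ.sup
    (fun v : Fin 20 => (Finset.univ.filter (fun i : Fin 11 => v ∈ star i)).card) + 1 = 3 := by
  decide +kernel

/-- The negation of the preceding statement: For any finite hypergraph (edges may repeat) in which every subfamily of edges has a matching of size at least its edge count divided by its max degree plus one, the edges can be colored with max degree plus one colors so same-colored edges are disjoint. -/
theorem result :
    ¬ (∀ (V : Type) [Fintype V] [DecidableEq V] (m : ℕ) (e : Fin m → Finset V),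
    (∀ i, (e i).Nonempty) →
    (∀ S : Finset (Fin m), ∃ M ⊆ S,
        (∀ i ∈ M, ∀ j ∈ M, i ≠ j → Disjoint (e i) (e j)) ∧
        S.card ≤ M.card *
          (Finset.univ.sup (fun v : V => (S.filter (fun i => v ∈ e i)).card) + 1)) →
    ∃ c : Fin m → Fin (Finset.univ.sup
        (fun v : V => (Finset.univ.filter (fun i : Fin m => v ∈ e i)).card) + 1),
      ∀ i j, i ≠ j → c i = c j → Disjoint (e i) (e j)) := by
  intro H
  obtain ⟨c, hc⟩ := H (Fin 20) 11 star (by decide +kernel) (by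
    intro S
    by_cases hind : ∀ i ∈ S, ∀ j ∈ S, i ≠ j → Disjoint (star i) (star j)
    · refine ⟨S, Finset.Subset.refl S, hind, ?_⟩
      exact Nat.le_mul_of_pos_right _ (Nat.succ_pos _)
    · push Not at hind
      obtain ⟨i, hi, j, hj, hij, hd⟩ := hind
      rw [Finset.not_disjoint_iff] at hd
      obtain ⟨v, hvi, hvj⟩ := hd
      have h2 : 2 ≤ (S.filter (fun i => v ∈ star i)).card := by
        have hsub : ({i, j} : Finset (Fin 11)) ⊆ S.filter (fun i => v ∈ star i) := by
          intro x hx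
          rw [Finset.mem_insert, Finset.mem_singleton] at hx
          rcases hx with rfl | rfl
          · exact Finset.mem_filter.2 ⟨hi, hvi⟩
          · exact Finset.mem_filter.2 ⟨hj, hvj⟩
        calc 2 = ({i, j} : Finset (Fin 11)).card := (Finset.card_pair hij).symm
          _ ≤ _ := Finset.card_le_card hsub
      have h3 : 2 ≤ Finset.univ.sup (fun v : Fin 20 => (S.filter (fun i => v ∈ star i)).card) :=
        le_trans h2 (Finset.le_sup (f := fun v : Fin 20 => (S.filter (fun i => v ∈ star i)).card)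
          (Finset.mem_univ v))
      obtain ⟨I, hI, hle⟩ := exists_third S
      refine ⟨S ∩ I, Finset.inter_subset_left, ?_, ?_⟩
      · intro a ha b hb hab
        exact ind_ok I hI a (Finset.mem_inter.1 ha).2 b (Finset.mem_inter.1 hb).2 hab
      · calc S.card ≤ 3 * (S ∩ I).card := hle
          _ = (S ∩ I).card * 3 := Nat.mul_comm _ _
          _ ≤ _ := Nat.mul_le_mul_left _ (by omega))
  apply not_three
  refine ⟨fun i => Fin.cast sup_univ (c i), ?_⟩
  intro i j hij h
  refine hc i j hij ?_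
  exact Fin.ext (by simpa [Fin.ext_iff] using h)

end Pool.Agent.S11816
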