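import Pool.Statements.S11885

set_option autoImplicit false
open Classical
open Pool Pool.MP_dd5ef2_co

namespace Pool.Agent.S11885

/-- variance of a sum of independent uniform samples -/
theorem var_bound {n : ℕ} (f : Fin n → ℝ) (h0 : ∑ k, f k = 0) (h1 : ∀ k, f k ^ 2 ≤ 1) (m : ℕ) :
    ∑ s : Fin m → Fin n, (∑ t, f (s t)) ^ 2 ≤ (m : ℝ) * (n : ℝ) ^ m := by
  induction m with
  | zero => simp
  | succ m ih =>
    have e : ∑ s : Fin (m + 1) → Fin n, (∑ t, f (s t)) ^ 2
        = ∑ p : Fin n × (Fin m → Fin n), (f p.1 + ∑ t, f (p.2 t)) ^ 2 := by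
      refine (Fintype.sum_equiv (Fin.consEquiv (fun _ => Fin n)) _ _ ?_).symm
      intro p
      simp [Fin.consEquiv, Fin.sum_univ_succ]
    rw [e, Fintype.sum_prod_type]
    have e2 : ∀ s : Fin m → Fin n, ∑ k : Fin n, (f k + ∑ t, f (s t)) ^ 2
        = ∑ k, f k ^ 2 + n * (∑ t, f (s t)) ^ 2 := by
      intro s
      have : ∀ k, (f k + ∑ t, f (s t)) ^ 2 = f k ^ 2 + 2 * (∑ t, f (s t)) * f k + (∑ t, f (s t)) ^ 2 := by
        intro k; ring
      simp_rw [this]
      rw [Finset.sum_add_distrib, Finset.sum_add_distrib, ← Finset.mul_sum, h0]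
      simp
    rw [Finset.sum_comm]
    simp_rw [e2]
    rw [Finset.sum_add_distrib, ← Finset.mul_sum]
    have h3 : ∑ k, f k ^ 2 ≤ (n : ℝ) := by
      calc ∑ k, f k ^ 2 ≤ ∑ k : Fin n, (1 : ℝ) := Finset.sum_le_sum (fun k _ => h1 k)
        _ = n := by simp
    have h4 : ∑ s : Fin m → Fin n, (∑ k, f k ^ 2) ≤ (n : ℝ) ^ m * n := by
      rw [Finset.sum_const, nsmul_eq_mul]
      have : ((Finset.univ : Finset (Fin m → Fin n)).card : ℝ) = (n : ℝ) ^ m := by
        simp
      rw [this]
      exact mul_le_mul_of_nonneg_left h3 (by positivity)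
    have h5 : (n : ℝ) * ∑ s : Fin m → Fin n, (∑ t, f (s t)) ^ 2 ≤ n * (m * (n : ℝ) ^ m) :=
      mul_le_mul_of_nonneg_left ih (by positivity)
    push_cast
    calc _ ≤ (n : ℝ) ^ m * n + n * (m * (n : ℝ) ^ m) := add_le_add h4 h5
      _ = _ := by ring

/-- sum over all graphs of an independent Bernoulli product is at most one -/
theorem sum_graph_le {n : ℕ} (w0 w1 : Fin n → Fin n → ℝ) (h0 : ∀ i j, 0 ≤ w0 i j) (h1 : ∀ i j, 0 ≤ w1 i j)
    (hs : ∀ i j, w0 i j + w1 i j = 1) :
    ∑ G : SimpleGraph (Fin n), ∏ i : Fin n, ∏ j : Fin n,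
      (if i < j then (if G.Adj i j then w1 i j else w0 i j) else 1) ≤ 1 := by
  set T : Fin n × Fin n → Bool → ℝ := fun p b =>
    if p.1 < p.2 then (if b = true then w1 p.1 p.2 else w0 p.1 p.2) else (if b = true then 0 else 1) with hT
  have hT0 : ∀ p b, 0 ≤ T p b := by
    intro p b
    simp only [hT]
    split_ifs <;> simp [h0, h1]
  have key : ∑ h : Fin n × Fin n → Bool, ∏ p, T p (h p) = 1 := by
    rw [← Fintype.prod_sum (f := T)]
    apply Finset.prod_eq_one
    intro p _
    simp only [hT, Fintype.univ_bool]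
    by_cases hp : p.1 < p.2
    · simp [hp]; linarith [hs p.1 p.2]
    · simp [hp]
  set E : SimpleGraph (Fin n) → (Fin n × Fin n → Bool) := fun G p => decide (p.1 < p.2 ∧ G.Adj p.1 p.2) with hE
  have hinj : Function.Injective E := by
    intro G H hGH
    ext a b
    have h1 := congrFun hGH (a, b)
    have h2 := congrFun hGH (b, a)
    simp only [hE, decide_eq_decide] at h1 h2
    rcases lt_trichotomy a b with h | h | h
    · simpa [h] using h1
    · subst h; simp
    · have := (by simpa [h] using h2 : G.Adj b a ↔ H.Adj b a)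
      rw [G.adj_comm, H.adj_comm]; exact this
  calc _ = ∑ G : SimpleGraph (Fin n), ∏ p, T p (E G p) := by
        apply Finset.sum_congr rfl
        intro G _
        rw [Fintype.prod_prod_type]
        apply Finset.prod_congr rfl
        intro i _
        apply Finset.prod_congr rfl
        intro j _
        simp only [hT, hE]
        by_cases hij : i < j
        · simp [hij]
        · simp [hij]
    _ = ∑ h ∈ Finset.univ.map ⟨E, hinj⟩, ∏ p, T p (h p) := by
        rw [Finset.sum_map]; rfl
    _ ≤ ∑ h : Fin n × Fin n → Bool, ∏ p, T p (h p) := by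
        apply Finset.sum_le_sum_of_subset_of_nonneg (Finset.subset_univ _)
        intro h _ _
        exact Finset.prod_nonneg (fun p _ => hT0 _ _)
    _ = 1 := key

/-- the fraction of agreeing samples -/
noncomputable def bb {m n : ℕ} (P : Fin m → Fin n → Bool) (i j : Fin n) : ℝ :=
  (∑ t : Fin m, (if P t i = P t j then (1 : ℝ) else 0)) / m

/-- the regularised weight of a graph given sampled rows -/
noncomputable def WW {m n : ℕ} (η : ℝ) (P : Fin m → Fin n → Bool) (G : SimpleGraph (Fin n)) : ℝ :=
  ∏ i : Fin n, ∏ j : Fin n,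
      (if i < j then (if G.Adj i j then (1 - ((1 - 2 * η) * bb P i j + η)) else ((1 - 2 * η) * bb P i j + η)) else 1)

theorem bb_nonneg {m n : ℕ} (P : Fin m → Fin n → Bool) (i j : Fin n) : 0 ≤ bb P i j := by
  unfold bb
  apply div_nonneg _ (by positivity)
  apply Finset.sum_nonneg
  intro t _
  split_ifs <;> norm_num

theorem bb_le_one {m n : ℕ} (P : Fin m → Fin n → Bool) (i j : Fin n) : bb P i j ≤ 1 := by
  unfold bb
  apply div_le_one_of_le₀ _ (by positivity)
  calc _ ≤ ∑ t : Fin m, (1 : ℝ) := by
        apply Finset.sum_le_sum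
        intro t _
        split_ifs <;> norm_num
    _ = m := by simp

theorem WW_nonneg {m n : ℕ} {η : ℝ} (h0 : 0 ≤ η) (h1 : η ≤ 1 / 2) (P : Fin m → Fin n → Bool)
    (G : SimpleGraph (Fin n)) : 0 ≤ WW η P G := by
  unfold WW
  apply Finset.prod_nonneg
  intro i _
  apply Finset.prod_nonneg
  intro j _
  have := bb_nonneg P i j
  have := bb_le_one P i j
  split_ifs
  · nlinarith
  · nlinarith
  · norm_num

theorem sum_WW_le {m n : ℕ} {η : ℝ} (h0 : 0 ≤ η) (h1 : η ≤ 1 / 2) (P : Fin m → Fin n → Bool) :
    ∑ G : SimpleGraph (Fin n), WW η P G ≤ 1 := by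
  unfold WW
  apply sum_graph_le
  · intro i j
    have := bb_nonneg P i j
    have := bb_le_one P i j
    nlinarith
  · intro i j
    have := bb_nonneg P i j
    have := bb_le_one P i j
    nlinarith
  · intro i j
    ring

/-- sampled rows of a graph -/
noncomputable def PP {m n : ℕ} (G : SimpleGraph (Fin n)) (s : Fin m → Fin n) : Fin m → Fin n → Bool :=
  fun t v => decide (G.Adj v (s t))

/-- indicator that `k` sees `i` and `j` alike -/
noncomputable def yy {n : ℕ} (G : SimpleGraph (Fin n)) (i j k : Fin n) : ℝ :=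
  if (G.Adj i k ↔ G.Adj j k) then 1 else 0

/-- average of the agreement indicator -/
noncomputable def mu {n : ℕ} (G : SimpleGraph (Fin n)) (i j : Fin n) : ℝ :=
  (∑ k, yy G i j k) / n

/-- the factor in the statement -/
noncomputable def phi {n : ℕ} (G : SimpleGraph (Fin n)) (i j : Fin n) : ℝ :=
  (((Finset.univ.filter (fun k : Fin n => k ≠ i ∧ k ≠ j ∧
                Even ((if G.Adj i j then 1 else 0) + (if G.Adj i k then 1 else 0)
                  + (if G.Adj j k then 1 else 0) : ℕ))).card : ℝ) / ((n : ℝ) - 2))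

theorem yy_bd {n : ℕ} (G : SimpleGraph (Fin n)) (i j k : Fin n) : 0 ≤ yy G i j k ∧ yy G i j k ≤ 1 := by
  unfold yy; split_ifs <;> norm_num

theorem mu_bd {n : ℕ} (G : SimpleGraph (Fin n)) (i j : Fin n) : 0 ≤ mu G i j ∧ mu G i j ≤ 1 := by
  unfold mu
  constructor
  · exact div_nonneg (Finset.sum_nonneg (fun k _ => (yy_bd G i j k).1)) (by positivity)
  · apply div_le_one_of_le₀ _ (by positivity)
    calc _ ≤ ∑ k : Fin n, (1 : ℝ) := Finset.sum_le_sum (fun k _ => (yy_bd G i j k).2)
      _ = n := by simp

theorem bb_sub_mu {m n : ℕ} (hm : 0 < m) (G : SimpleGraph (Fin n)) (s : Fin m → Fin n) (i j : Fin n) :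
    bb (PP G s) i j - mu G i j = (∑ t, (yy G i j (s t) - mu G i j)) / m := by
  have hm' : (m : ℝ) ≠ 0 := by positivity
  rw [Finset.sum_sub_distrib, Finset.sum_const]
  simp only [Finset.card_univ, Fintype.card_fin, nsmul_eq_mul]
  rw [sub_div, mul_div_cancel_left₀ _ hm']
  congr 1
  unfold bb PP yy
  congr 1
  apply Finset.sum_congr rfl
  intro t _
  simp only [decide_eq_decide]

theorem exists_good {m n : ℕ} (hm : 0 < m) (hn : 0 < n) (G : SimpleGraph (Fin n)) :
    ∃ s : Fin m → Fin n, ∑ i, ∑ j, (bb (PP G s) i j - mu G i j) ^ 2 ≤ (n : ℝ) ^ 2 / m := by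
  have hm' : (0 : ℝ) < m := by positivity
  have hn' : (0 : ℝ) < n := by positivity
  by_contra hcon
  push Not at hcon
  have h1 : ∑ s : Fin m → Fin n, ∑ i, ∑ j, (bb (PP G s) i j - mu G i j) ^ 2
      ≤ (n : ℝ) ^ m * ((n : ℝ) ^ 2 / m) := by
    rw [Finset.sum_comm]
    calc _ ≤ ∑ i : Fin n, ((n : ℝ) ^ m * (n / m)) := by
          apply Finset.sum_le_sum
          intro i _
          rw [Finset.sum_comm]
          calc _ ≤ ∑ j : Fin n, ((n : ℝ) ^ m / m) := by
                apply Finset.sum_le_sum
                intro j _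
                have hv := var_bound (fun k => yy G i j k - mu G i j) (by
                    rw [Finset.sum_sub_distrib, Finset.sum_const]
                    simp only [Finset.card_univ, Fintype.card_fin, nsmul_eq_mul]
                    unfold mu
                    field_simp
                    ring) (by
                    intro k
                    have h1 := yy_bd G i j k
                    have h2 := mu_bd G i j
                    nlinarith) m
                calc _ = ∑ s : Fin m → Fin n, (∑ t, (yy G i j (s t) - mu G i j)) ^ 2 * (1 / (m : ℝ) ^ 2) := by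
                      apply Finset.sum_congr rfl
                      intro s _
                      rw [bb_sub_mu hm, div_pow]
                      ring
                  _ = (∑ s : Fin m → Fin n, (∑ t, (yy G i j (s t) - mu G i j)) ^ 2) * (1 / (m : ℝ) ^ 2) := by
                      rw [Finset.sum_mul]
                  _ ≤ (m * (n : ℝ) ^ m) * (1 / (m : ℝ) ^ 2) :=
                      mul_le_mul_of_nonneg_right hv (by positivity)
                  _ = (n : ℝ) ^ m / m := by field_simp
            _ = (n : ℝ) ^ m * (n / m) := by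
                simp; ring
      _ = _ := by simp; ring
  have h2 : (n : ℝ) ^ m * ((n : ℝ) ^ 2 / m) <
      ∑ s : Fin m → Fin n, ∑ i, ∑ j, (bb (PP G s) i j - mu G i j) ^ 2 := by
    calc (n : ℝ) ^ m * ((n : ℝ) ^ 2 / m) = ∑ s : Fin m → Fin n, ((n : ℝ) ^ 2 / m) := by simp
      _ < _ := by
        apply Finset.sum_lt_sum_of_nonempty
        · exact ⟨fun _ => ⟨0, hn⟩, Finset.mem_univ _⟩
        · intro s _
          exact hcon s
  linarith

theorem yy_cond {n : ℕ} (G : SimpleGraph (Fin n)) (i j k : Fin n) :
    (if (Even ((if G.Adj i j then 1 else 0) + (if G.Adj i k then 1 else 0)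
                  + (if G.Adj j k then 1 else 0) : ℕ)) then (1 : ℝ) else 0)
      = if G.Adj i j then 1 - yy G i j k else yy G i j k := by
  unfold yy
  by_cases h : G.Adj i j <;> by_cases h1 : G.Adj i k <;> by_cases h2 : G.Adj j k <;>
    simp only [h, h1, h2, if_true, if_false, iff_true, iff_false, not_true] <;>
    norm_num [Nat.even_iff]

theorem frac_close {n c c' : ℝ} (hn' : 3 ≤ n) (hc0 : 0 ≤ c) (hcr : c ≤ c') (hcr2 : c' ≤ c + 2)
    (hcn' : c + 2 ≤ n) : |c / (n - 2) - c' / n| ≤ 2 / n := by
  have hn2 : 0 < n - 2 := by linarith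
  have hn0 : 0 < n := by linarith
  rw [abs_le]
  constructor
  · have : c / n ≤ c / (n - 2) := div_le_div_of_nonneg_left hc0 hn2 (by linarith)
    have h3 : c' / n ≤ (c + 2) / n := div_le_div_of_nonneg_right hcr2 hn0.le
    rw [add_div] at h3
    linarith
  · have h3 : c / n ≤ c' / n := div_le_div_of_nonneg_right hcr hn0.le
    have h4 : c / (n - 2) - c / n ≤ 2 / n := by
      rw [div_sub_div _ _ hn2.ne' hn0.ne', div_le_div_iff₀ (by positivity) hn0]
      nlinarith [mul_nonneg hn0.le (sub_nonneg.2 hcn'), mul_pos hn0 hn0]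
    linarith

theorem phi_close {n : ℕ} (hn : 3 ≤ n) (G : SimpleGraph (Fin n)) (i j : Fin n) (hij : i < j) :
    |phi G i j - (if G.Adj i j then 1 - mu G i j else mu G i j)| ≤ 2 / n := by
  have hn' : (3 : ℝ) ≤ n := by exact_mod_cast hn
  have hn0 : (n : ℝ) ≠ 0 := by positivity
  obtain ⟨C, hC⟩ : ∃ C : Fin n → Prop, ∀ k, C k ↔ Even ((if G.Adj i j then 1 else 0) + (if G.Adj i k then 1 else 0)
                  + (if G.Adj j k then 1 else 0) : ℕ) := ⟨_, fun k => Iff.rfl⟩
  have e1 : (if G.Adj i j then 1 - mu G i j else mu G i j)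
      = ((Finset.univ.filter C).card : ℝ) / n := by
    rw [Finset.card_filter]
    push_cast
    have : ∀ k, (if C k then (1 : ℝ) else 0) = if G.Adj i j then 1 - yy G i j k else yy G i j k := by
      intro k
      rw [← yy_cond]
      simp only [hC]
    simp_rw [this]
    unfold mu
    by_cases h : G.Adj i j
    · simp only [h, if_true]
      rw [Finset.sum_sub_distrib, sub_div]
      simp [hn0]
    · simp only [h, if_false]
  have e2 : phi G i j = ((Finset.univ.filter (fun k : Fin n => k ≠ i ∧ k ≠ j ∧ C k)).card : ℝ) / ((n : ℝ) - 2) := by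
    unfold phi
    simp only [hC]
  have hcc : (Finset.univ.filter (fun k : Fin n => k ≠ i ∧ k ≠ j ∧ C k)).card ≤ (Finset.univ.filter C).card := by
    apply Finset.card_le_card
    intro k hk
    simp only [Finset.mem_filter, Finset.mem_univ, true_and] at hk ⊢
    exact hk.2.2
  have hcc2 : (Finset.univ.filter C).card ≤ (Finset.univ.filter (fun k : Fin n => k ≠ i ∧ k ≠ j ∧ C k)).card + 2 := by
    have : Finset.univ.filter C ⊆ (Finset.univ.filter (fun k : Fin n => k ≠ i ∧ k ≠ j ∧ C k)) ∪ {i, j} := by
      intro k hk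
      simp only [Finset.mem_filter, Finset.mem_univ, true_and, Finset.mem_union, Finset.mem_insert,
        Finset.mem_singleton] at hk ⊢
      tauto
    calc (Finset.univ.filter C).card ≤ _ := Finset.card_le_card this
      _ ≤ _ + ({i, j} : Finset (Fin n)).card := Finset.card_union_le _ _
      _ ≤ _ + 2 := by
        have := Finset.card_le_two (a := i) (b := j)
        omega
  have hcn : (Finset.univ.filter (fun k : Fin n => k ≠ i ∧ k ≠ j ∧ C k)).card + 2 ≤ n := by
    have : (Finset.univ.filter (fun k : Fin n => k ≠ i ∧ k ≠ j ∧ C k)) ⊆ (({i, j} : Finset (Fin n)))ᶜ := by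
      intro k hk
      simp only [Finset.mem_filter, Finset.mem_univ, true_and, Finset.mem_compl, Finset.mem_insert,
        Finset.mem_singleton] at hk ⊢
      tauto
    have h1 := Finset.card_le_card this
    rw [Finset.card_compl, Finset.card_pair (ne_of_lt hij)] at h1
    simp only [Fintype.card_fin] at h1
    omega
  rw [e1, e2]
  generalize (Finset.univ.filter (fun k : Fin n => k ≠ i ∧ k ≠ j ∧ C k)).card = c at hcc hcc2 hcn ⊢
  generalize (Finset.univ.filter C).card = c' at hcc hcc2 ⊢
  have h1 : (c : ℝ) ≤ c' := by exact_mod_cast hcc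
  have h2 : (c' : ℝ) ≤ c + 2 := by exact_mod_cast hcc2
  have h3 : (c : ℝ) + 2 ≤ n := by exact_mod_cast hcn
  exact frac_close hn' (Nat.cast_nonneg c) h1 h2 h3

theorem one_term {η φ q : ℝ} (h0 : 0 < η) (h1 : η ≤ 1 / 4) (hq0 : 0 ≤ q) (hq1 : q ≤ 1) :
    φ ≤ ((1 - 2 * η) * q + η) * Real.exp (4 * η + |φ - q| / η) := by
  obtain ⟨r, hr⟩ : ∃ r, r = (1 - 2 * η) * q + η := ⟨_, rfl⟩
  rw [← hr]
  have hr1 : η ≤ r := by
    rw [hr]
    have : 0 ≤ (1 - 2 * η) * q := mul_nonneg (by linarith) hq0
    linarith
  have hr0 : 0 < r := by linarith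
  rw [Real.exp_add]
  have e1 : 1 + 4 * η ≤ Real.exp (4 * η) := by linarith [Real.add_one_le_exp (4 * η)]
  have e2 : 1 + |φ - q| / η ≤ Real.exp (|φ - q| / η) := by linarith [Real.add_one_le_exp (|φ - q| / η)]
  have e3 : φ ≤ q + |φ - q| := by linarith [le_abs_self (φ - q)]
  have hab : 0 ≤ |φ - q| := abs_nonneg _
  have e4 : |φ - q| ≤ r * (|φ - q| / η) := by
    rw [mul_div_assoc', le_div_iff₀ h0]
    nlinarith
  have e5 : q ≤ r * (1 + 4 * η) := by
    have h2 : 0 ≤ q * η := mul_nonneg hq0 h0.le
    have h3 : 0 ≤ q * η * (1 / 4 - η) := mul_nonneg h2 (by linarith)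
    have h4 : 0 ≤ η * η := mul_nonneg h0.le h0.le
    have : r * (1 + 4 * η) - q = 2 * (q * η) - 8 * (q * η * η) + η + 4 * (η * η) := by
      rw [hr]; ring
    nlinarith
  have hx : 0 ≤ |φ - q| / η := div_nonneg hab h0.le
  calc φ ≤ q + |φ - q| := e3
    _ ≤ r * (1 + 4 * η) + r * (|φ - q| / η) := add_le_add e5 e4
    _ ≤ r * ((1 + 4 * η) * (1 + |φ - q| / η)) := by
        have : 0 ≤ r * η * (|φ - q| / η) := mul_nonneg (mul_nonneg hr0.le h0.le) hx
        nlinarith
    _ ≤ r * (Real.exp (4 * η) * Real.exp (|φ - q| / η)) := by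
        apply mul_le_mul_of_nonneg_left _ hr0.le
        apply mul_le_mul e1 e2 (by linarith) (by positivity)

theorem phi_nonneg {n : ℕ} (hn : 3 ≤ n) (G : SimpleGraph (Fin n)) (i j : Fin n) : 0 ≤ phi G i j := by
  have hn' : (3 : ℝ) ≤ n := by exact_mod_cast hn
  unfold phi
  apply div_nonneg (by positivity) (by linarith)

/-- the key estimate for a single graph -/
theorem graph_bound {m n : ℕ} {η : ℝ} (hn : 3 ≤ n) (h0 : 0 < η) (h1 : η ≤ 1 / 4)
    (hm : 1 / η ^ 4 ≤ (m : ℝ)) (G : SimpleGraph (Fin n)) :
    ∏ i : Fin n, ∏ j : Fin n, (if i < j then phi G i j else 1)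
      ≤ Real.exp (5 * η * (n : ℝ) ^ 2 + 4 * n / η) * ∑ s : Fin m → Fin n, WW η (PP G s) G := by
  have hm0' : (0 : ℝ) < m := lt_of_lt_of_le (by positivity) hm
  have hm0 : 0 < m := by exact_mod_cast hm0'
  have hn' : (3 : ℝ) ≤ n := by exact_mod_cast hn
  obtain ⟨s, hs⟩ := exists_good (m := m) hm0 (by omega : 0 < n) G
  have hstep : ∏ i : Fin n, ∏ j : Fin n, (if i < j then phi G i j else 1)
      ≤ Real.exp (5 * η * (n : ℝ) ^ 2 + 4 * n / η) * WW η (PP G s) G := by
    have hpt : ∀ i j : Fin n, (if i < j then phi G i j else 1) ≤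
        (if i < j then (if G.Adj i j then (1 - ((1 - 2 * η) * bb (PP G s) i j + η))
          else ((1 - 2 * η) * bb (PP G s) i j + η)) else 1) *
        Real.exp (4 * η + (2 / n + ((bb (PP G s) i j - mu G i j) ^ 2 / (2 * η ^ 2) + η ^ 2 / 2)) / η) := by
      intro i j
      set x := bb (PP G s) i j - mu G i j with hx
      have hxx : |x| ≤ x ^ 2 / (2 * η ^ 2) + η ^ 2 / 2 := by
        have e : x ^ 2 / (2 * η ^ 2) + η ^ 2 / 2 - |x| = (|x| - η ^ 2) ^ 2 / (2 * η ^ 2) := by
          rw [← sq_abs x]
          field_simp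
          ring
        have : 0 ≤ (|x| - η ^ 2) ^ 2 / (2 * η ^ 2) := by positivity
        linarith
      have hbb0 := bb_nonneg (PP G s) i j
      have hbb1 := bb_le_one (PP G s) i j
      by_cases hij : i < j
      · simp only [hij, if_true]
        have hc := phi_close hn G i j hij
        by_cases hA : G.Adj i j
        · simp only [hA, if_true] at hc ⊢
          have h := one_term (φ := phi G i j) (q := 1 - bb (PP G s) i j) h0 h1 (by linarith) (by linarith)
          have e : (1 - 2 * η) * (1 - bb (PP G s) i j) + η = 1 - ((1 - 2 * η) * bb (PP G s) i j + η) := by ring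
          rw [e] at h
          refine h.trans ?_
          apply mul_le_mul_of_nonneg_left
          · apply Real.exp_le_exp.2
            have : |phi G i j - (1 - bb (PP G s) i j)| ≤ 2 / n + (x ^ 2 / (2 * η ^ 2) + η ^ 2 / 2) := by
              have e2 : phi G i j - (1 - bb (PP G s) i j) = (phi G i j - (1 - mu G i j)) + x := by
                rw [hx]; ring
              rw [e2]
              exact (abs_add_le _ _).trans (add_le_add hc hxx)
            have := div_le_div_of_nonneg_right this h0.le
            linarith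
          · nlinarith
        · simp only [hA, if_false] at hc ⊢
          have h := one_term (φ := phi G i j) (q := bb (PP G s) i j) h0 h1 (by linarith) (by linarith)
          refine h.trans ?_
          apply mul_le_mul_of_nonneg_left
          · apply Real.exp_le_exp.2
            have : |phi G i j - bb (PP G s) i j| ≤ 2 / n + (x ^ 2 / (2 * η ^ 2) + η ^ 2 / 2) := by
              have e2 : phi G i j - bb (PP G s) i j = (phi G i j - mu G i j) + (-x) := by
                rw [hx]; ring
              rw [e2]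
              refine (abs_add_le _ _).trans (add_le_add hc ?_)
              rw [abs_neg]; exact hxx
            have := div_le_div_of_nonneg_right this h0.le
            linarith
          · nlinarith
      · simp only [hij, if_false, one_mul]
        apply Real.one_le_exp
        positivity
    calc _ ≤ ∏ i : Fin n, ∏ j : Fin n, ((if i < j then (if G.Adj i j then (1 - ((1 - 2 * η) * bb (PP G s) i j + η))
          else ((1 - 2 * η) * bb (PP G s) i j + η)) else 1) *
        Real.exp (4 * η + (2 / n + ((bb (PP G s) i j - mu G i j) ^ 2 / (2 * η ^ 2) + η ^ 2 / 2)) / η)) := by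
          apply Finset.prod_le_prod
          · intro i _
            apply Finset.prod_nonneg
            intro j _
            split_ifs
            · exact phi_nonneg hn G i j
            · norm_num
          · intro i _
            apply Finset.prod_le_prod
            · intro j _
              split_ifs
              · exact phi_nonneg hn G i j
              · norm_num
            · intro j _
              exact hpt i j
      _ = WW η (PP G s) G * Real.exp (∑ i : Fin n, ∑ j : Fin n,
            (4 * η + (2 / n + ((bb (PP G s) i j - mu G i j) ^ 2 / (2 * η ^ 2) + η ^ 2 / 2)) / η)) := by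
          simp_rw [Finset.prod_mul_distrib, Real.exp_sum]
          rfl
      _ ≤ WW η (PP G s) G * Real.exp (5 * η * (n : ℝ) ^ 2 + 4 * n / η) := by
          apply mul_le_mul_of_nonneg_left _ (WW_nonneg h0.le (by linarith) _ _)
          apply Real.exp_le_exp.2
          have e : ∑ i : Fin n, ∑ j : Fin n,
            (4 * η + (2 / n + ((bb (PP G s) i j - mu G i j) ^ 2 / (2 * η ^ 2) + η ^ 2 / 2)) / η)
            = (4 * η + 2 / n / η + η / 2) * (n : ℝ) ^ 2
              + (∑ i, ∑ j, (bb (PP G s) i j - mu G i j) ^ 2) / (2 * η ^ 3) := by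
            rw [Finset.sum_div]
            simp_rw [Finset.sum_div]
            have : ∀ i j : Fin n, (4 * η + (2 / n + ((bb (PP G s) i j - mu G i j) ^ 2 / (2 * η ^ 2) + η ^ 2 / 2)) / η)
              = (4 * η + 2 / n / η + η / 2) + (bb (PP G s) i j - mu G i j) ^ 2 / (2 * η ^ 3) := by
              intro i j
              field_simp
              ring
            simp_rw [this, Finset.sum_add_distrib]
            simp
            ring
          rw [e]
          have h2 : (∑ i, ∑ j, (bb (PP G s) i j - mu G i j) ^ 2) / (2 * η ^ 3) ≤ η / 2 * (n : ℝ) ^ 2 := by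
            rw [div_le_iff₀ (by positivity)]
            refine hs.trans ?_
            rw [div_le_iff₀ hm0']
            have : 1 ≤ η ^ 4 * m := by
              rw [div_le_iff₀ (by positivity)] at hm
              linarith
            nlinarith [sq_nonneg (n : ℝ)]
          have h3 : (4 * η + 2 / n / η + η / 2) * (n : ℝ) ^ 2 = 4 * η * (n : ℝ) ^ 2 + 2 * n / η + η / 2 * (n : ℝ) ^ 2 := by
            field_simp
          rw [h3]
          have h4 : 2 * (n : ℝ) / η ≤ 4 * n / η := by
            apply div_le_div_of_nonneg_right _ h0.le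
            linarith
          nlinarith
      _ = _ := by ring
  refine hstep.trans ?_
  apply mul_le_mul_of_nonneg_left _ (by positivity)
  exact Finset.single_le_sum (f := fun s => WW η (PP G s) G)
    (fun s _ => WW_nonneg h0.le (by linarith) _ _) (Finset.mem_univ s)

theorem total_bound {m n : ℕ} {η : ℝ} (hn : 3 ≤ n) (h0 : 0 < η) (h1 : η ≤ 1 / 4)
    (hm : 1 / η ^ 4 ≤ (m : ℝ)) :
    ∑ G : SimpleGraph (Fin n), ∏ i : Fin n, ∏ j : Fin n, (if i < j then phi G i j else 1)
      ≤ Real.exp (5 * η * (n : ℝ) ^ 2 + 4 * n / η) * Real.exp (2 * m * n) := by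
  have hn' : (3 : ℝ) ≤ n := by exact_mod_cast hn
  calc _ ≤ ∑ G : SimpleGraph (Fin n), Real.exp (5 * η * (n : ℝ) ^ 2 + 4 * n / η) *
        ∑ s : Fin m → Fin n, WW η (PP G s) G :=
        Finset.sum_le_sum (fun G _ => graph_bound hn h0 h1 hm G)
    _ = Real.exp (5 * η * (n : ℝ) ^ 2 + 4 * n / η) *
        ∑ s : Fin m → Fin n, ∑ G : SimpleGraph (Fin n), WW η (PP G s) G := by
        rw [← Finset.mul_sum, Finset.sum_comm]
    _ ≤ Real.exp (5 * η * (n : ℝ) ^ 2 + 4 * n / η) * Real.exp (2 * m * n) := by
        apply mul_le_mul_of_nonneg_left _ (by positivity)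
        have hs : ∀ s : Fin m → Fin n, ∑ G : SimpleGraph (Fin n), WW η (PP G s) G ≤ (2 : ℝ) ^ (n * m) := by
          intro s
          calc _ ≤ ∑ G : SimpleGraph (Fin n), ∑ P : Fin m → Fin n → Bool, WW η P G := by
                apply Finset.sum_le_sum
                intro G _
                exact Finset.single_le_sum (f := fun P => WW η P G)
                  (fun P _ => WW_nonneg h0.le (by linarith) _ _) (Finset.mem_univ (PP G s))
            _ = ∑ P : Fin m → Fin n → Bool, ∑ G : SimpleGraph (Fin n), WW η P G := Finset.sum_comm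
            _ ≤ ∑ P : Fin m → Fin n → Bool, (1 : ℝ) :=
                Finset.sum_le_sum (fun P _ => sum_WW_le h0.le (by linarith) P)
            _ = (2 : ℝ) ^ (n * m) := by
                simp [← pow_mul]
        calc _ ≤ ∑ s : Fin m → Fin n, (2 : ℝ) ^ (n * m) := Finset.sum_le_sum (fun s _ => hs s)
          _ = (n : ℝ) ^ m * (2 : ℝ) ^ (n * m) := by simp
          _ ≤ Real.exp n ^ m * Real.exp 1 ^ (n * m) := by
              have e1 : (n : ℝ) ≤ Real.exp n := by linarith [Real.add_one_le_exp (n : ℝ)]
              have e2 : (2 : ℝ) ≤ Real.exp 1 := by linarith [Real.add_one_le_exp (1 : ℝ)]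
              apply mul_le_mul
              · exact pow_le_pow_left₀ (by positivity) e1 m
              · exact pow_le_pow_left₀ (by positivity) e2 _
              · positivity
              · positivity
          _ = Real.exp (2 * m * n) := by
              rw [← Real.exp_nat_mul, ← Real.exp_nat_mul, ← Real.exp_add]
              congr 1
              push_cast
              ring

/-- For every ε>0 and all large n, summing over all graphs on n vertices the product over pairs i<j of the fraction of other vertices k with an even number of edges in triangle ijk gives at most 2^(εn²). -/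
theorem result :
    ∀ ε : ℝ, 0 < ε → ∃ N : ℕ, ∀ n : ℕ, N ≤ n →
      (∑ G : SimpleGraph (Fin n),
        ∏ i : Fin n, ∏ j : Fin n,
          (if i < j then
            (((Finset.univ.filter (fun k : Fin n => k ≠ i ∧ k ≠ j ∧
                Even ((if G.Adj i j then 1 else 0) + (if G.Adj i k then 1 else 0)
                  + (if G.Adj j k then 1 else 0) : ℕ))).card : ℝ) / ((n : ℝ) - 2))
          else 1)) ≤ (2 : ℝ) ^ (ε * (n : ℝ) ^ 2) := by
  intro ε hε
  have hl2 : 0 < Real.log 2 := Real.log_pos (by norm_num)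
  obtain ⟨η, hη0, hη1, hη2⟩ : ∃ η : ℝ, 0 < η ∧ η ≤ 1 / 4 ∧ 10 * η ≤ ε * Real.log 2 := by
    refine ⟨min (1 / 4) (ε * Real.log 2 / 10), ?_, min_le_left _ _, ?_⟩
    · apply lt_min (by norm_num)
      positivity
    · have := min_le_right (1 / 4) (ε * Real.log 2 / 10)
      linarith
  obtain ⟨m, hm⟩ := exists_nat_ge (1 / η ^ 4)
  obtain ⟨N, hN⟩ := exists_nat_ge ((8 / η + 4 * m) / (ε * Real.log 2))
  refine ⟨max N 3, fun n hn => ?_⟩
  have hn3 : 3 ≤ n := le_trans (le_max_right _ _) hn
  have hnN : (N : ℝ) ≤ n := by exact_mod_cast le_trans (le_max_left _ _) hn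
  have hn' : (3 : ℝ) ≤ n := by exact_mod_cast hn3
  have h := total_bound (m := m) hn3 hη0 hη1 hm
  refine le_trans (le_of_eq ?_) (h.trans ?_)
  · rfl
  · rw [← Real.exp_add, Real.rpow_def_of_pos (by norm_num : (0 : ℝ) < 2)]
    apply Real.exp_le_exp.2
    have h1 : 8 / η + 4 * m ≤ ε * Real.log 2 * n := by
      have := hN.trans hnN
      rw [div_le_iff₀ (by positivity)] at this
      linarith
    have h2 : 5 * η * (n : ℝ) ^ 2 ≤ ε * Real.log 2 / 2 * (n : ℝ) ^ 2 := by
      apply mul_le_mul_of_nonneg_right _ (by positivity)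
      linarith
    have h3 : (8 / η + 4 * m) * n ≤ ε * Real.log 2 * n * n :=
      mul_le_mul_of_nonneg_right h1 (by linarith)
    have h4 : 4 * (n : ℝ) / η = (8 / η) * n / 2 := by ring
    rw [h4]
    nlinarith

end Pool.Agent.S11885
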