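import Pool.Statements.S11888
import Pool.Agent.Results.MP_dd77b8_co.RobustDisproof

set_option autoImplicit false
open Pool Pool.MP_dd77b8_co

namespace Pool.Agent.S11888

open Pool.Agent.Results.MP_dd77b8_co.RobustDisproof in
/-- The set in the frozen statement is the set `X n` of the starting file. -/
lemma X_eq (n : ℕ) : ({f : EuclideanSpace ℝ {T : Finset (Fin n) // T.card = 4} |
    ∃ g : Finset (Fin n) → ℝ,
      f = WithLp.toLp 2 (fun T : {T : Finset (Fin n) // T.card = 4} =>
        ∏ S ∈ T.1.powersetCard 3, g S) ∧ ‖f‖ = 1}) =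
    Pool.Agent.Results.MP_dd77b8_co.RobustDisproof.X n := by
  have key : ∀ (g : Finset (Fin n) → ℝ) (T : {T : Finset (Fin n) // T.card = 4}),
      ∏ S ∈ T.1.powersetCard 3, g S =
        ∏ S : Sets n 3 with S.1 ⊆ T.1, g S.1 := by
    intro g T
    symm
    apply Finset.prod_bij (fun S _ => S.1)
    · intro S hS
      rw [Finset.mem_filter] at hS
      exact Finset.mem_powersetCard.2 ⟨hS.2, S.2⟩
    · intro S _ S' _ h
      exact Subtype.ext h
    · intro S hS
      rw [Finset.mem_powersetCard] at hS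
      exact ⟨⟨S, hS.2⟩, Finset.mem_filter.2 ⟨Finset.mem_univ _, hS.1⟩, rfl⟩
    · intro S _
      rfl
  ext f
  constructor
  · rintro ⟨g, hf, hn⟩
    refine ⟨⟨fun S => g S.1, ?_⟩, hn⟩
    rw [hf]
    unfold prodFun
    congr 1
    funext T
    exact key g T
  · rintro ⟨⟨g, hf⟩, hn⟩
    refine ⟨fun S => if h : S.card = 3 then g ⟨S, h⟩ else 0, ?_, hn⟩
    rw [hf]
    unfold prodFun
    congr 1
    funext T
    rw [key]
    apply Finset.prod_congr rfl
    intro S _
    rw [dif_pos S.2]

/-- The negation of the preceding statement: For all large n, any way of writing the unit-norm vectors f_g of U_{4,n} in R^{C(n,4)} as a union of m sets, each of diameter below that of the whole set, needs m ≥ exp(C(n,4)^{4/5}). -/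
theorem result :
    ¬ (∃ N : ℕ, ∀ n : ℕ, N ≤ n →
      ∀ X : Set (EuclideanSpace ℝ {T : Finset (Fin n) // T.card = 4}),
        X = {f | ∃ g : Finset (Fin n) → ℝ,
              f = WithLp.toLp 2 (fun T : {T : Finset (Fin n) // T.card = 4} =>
                    ∏ S ∈ T.1.powersetCard 3, g S) ∧ ‖f‖ = 1} →
        ∀ m : ℕ, ∀ A : Fin m → Set (EuclideanSpace ℝ {T : Finset (Fin n) // T.card = 4}),
          (⋃ i, A i) = X →
          (∀ i, Metric.diam (A i) < Metric.diam X) →
          Real.exp (((n.choose 4 : ℕ) : ℝ) ^ ((4 : ℝ) / 5)) ≤ (m : ℝ)) := by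
  rintro ⟨N, h⟩
  obtain ⟨h1, h2, -, -⟩ :=
    Pool.Agent.Results.MP_dd77b8_co.RobustDisproof.result (max N 100) (le_max_right _ _)
  obtain ⟨b, ⟨⟨B, hB, hdiam⟩, -⟩, hlt⟩ := h1 _ subset_rfl h2
  have h3 := h (max N 100) (le_max_left _ _) _ (X_eq _).symm b B hB.symm hdiam
  exact absurd h3 (not_le.2 hlt)

end Pool.Agent.S11888
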