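import Pool.Statements.S11986
import Pool.Agent.Q265.BR.Main

set_option autoImplicit false
open Filter Topology
open Pool Pool.MP_e10300_co

namespace Pool.Agent.S11986

open Pool.Agent.Q265.BR in
theorem aux (s : ℕ) (hs : 2 ≤ s) (a : ℝ) : ∃ κ : ℕ → ℕ, Tendsto κ atTop atTop ∧
    ∀ᶠ n : ℕ in atTop,
      ((κ n : ℝ) ≤ pp (κ n) / ((Real.log n) ^ a * (n : ℝ) ^ (-(1 / (s : ℝ))))) ∧
      |(cnt (fun i j => (⊤ : SimpleGraph (Fin 2)).Adj i j) (κ n) n : ℝ) / ((n.descFactorial 2 : ℝ) * pp (κ n) ^ 1)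
        - ratio (fun i j => (⊤ : SimpleGraph (Fin 2)).Adj i j) 1 (κ n) ^ KK (κ n)| ≤ 1 / ((κ n : ℝ) + 1) ∧
      |(cnt (fun i j => (SimpleGraph.cycleGraph 4).Adj i j) (κ n) n : ℝ) / ((n.descFactorial 4 : ℝ) * pp (κ n) ^ 4)
        - ratio (fun i j => (SimpleGraph.cycleGraph 4).Adj i j) 4 (κ n) ^ KK (κ n)| ≤ 1 / ((κ n : ℝ) + 1) ∧
      |(cnt (fun i j => (SimpleGraph.cycleGraph 3).Adj i j) (κ n) n : ℝ) / ((n.descFactorial 3 : ℝ) * pp (κ n) ^ 3)
        - ratio (fun i j => (SimpleGraph.cycleGraph 3).Adj i j) 3 (κ n) ^ KK (κ n)| ≤ 1 / ((κ n : ℝ) + 1) ∧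
      (∀ t ≤ κ n, |(cnt (fun i j => (completeBipartiteGraph (Fin s) (Fin t)).Adj i j) (κ n) n : ℝ) /
          ((n.descFactorial (s + t) : ℝ) * pp (κ n) ^ (s * t))
        - ratio (fun i j => (completeBipartiteGraph (Fin s) (Fin t)).Adj i j) (s * t) (κ n) ^ KK (κ n)| ≤ 1) := by
  apply diag (fun k n => ((k : ℝ) ≤ pp k / ((Real.log n) ^ a * (n : ℝ) ^ (-(1 / (s : ℝ))))) ∧
      |(cnt (fun i j => (⊤ : SimpleGraph (Fin 2)).Adj i j) k n : ℝ) / ((n.descFactorial 2 : ℝ) * pp k ^ 1)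
        - ratio (fun i j => (⊤ : SimpleGraph (Fin 2)).Adj i j) 1 k ^ KK k| ≤ 1 / ((k : ℝ) + 1) ∧
      |(cnt (fun i j => (SimpleGraph.cycleGraph 4).Adj i j) k n : ℝ) / ((n.descFactorial 4 : ℝ) * pp k ^ 4)
        - ratio (fun i j => (SimpleGraph.cycleGraph 4).Adj i j) 4 k ^ KK k| ≤ 1 / ((k : ℝ) + 1) ∧
      |(cnt (fun i j => (SimpleGraph.cycleGraph 3).Adj i j) k n : ℝ) / ((n.descFactorial 3 : ℝ) * pp k ^ 3)
        - ratio (fun i j => (SimpleGraph.cycleGraph 3).Adj i j) 3 k ^ KK k| ≤ 1 / ((k : ℝ) + 1) ∧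
      (∀ t ≤ k, |(cnt (fun i j => (completeBipartiteGraph (Fin s) (Fin t)).Adj i j) k n : ℝ) /
          ((n.descFactorial (s + t) : ℝ) * pp k ^ (s * t))
        - ratio (fun i j => (completeBipartiteGraph (Fin s) (Fin t)).Adj i j) (s * t) k ^ KK k| ≤ 1))
  intro k
  have key : ∀ {x : ℕ → ℝ} {L ε : ℝ}, Tendsto x atTop (𝓝 L) → 0 < ε → ∀ᶠ n in atTop, |x n - L| ≤ ε := by
    intro x L ε h hε
    have := Metric.tendsto_nhds.1 h ε hε
    filter_upwards [this] with n hn
    rw [Real.dist_eq] at hn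
    exact hn.le
  have hk : (0 : ℝ) < 1 / ((k : ℝ) + 1) := by positivity
  have hs' : (0 : ℝ) < 1 / (s : ℝ) := by
    have : (0 : ℝ) < s := by exact_mod_cast (by omega : 0 < s)
    positivity
  have h1 : Tendsto (fun n : ℕ => pp k / ((Real.log n) ^ a * (n : ℝ) ^ (-(1 / (s : ℝ))))) atTop atTop := by
    have h2 := (isLittleO_log_rpow_rpow_atTop a hs').tendsto_div_nhds_zero
    have h3 : Tendsto (fun x : ℝ => Real.log x ^ a / x ^ (1 / (s : ℝ))) atTop (𝓝[>] 0) := by
      rw [tendsto_nhdsWithin_iff]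
      refine ⟨h2, ?_⟩
      filter_upwards [eventually_gt_atTop (1 : ℝ)] with x hx
      have : 0 < Real.log x := Real.log_pos hx
      simp only [Set.mem_Ioi]
      positivity
    have h4 := h3.inv_tendsto_nhdsGT_zero
    have h5 := (h4.comp tendsto_natCast_atTop_atTop).const_mul_atTop (pp_pos k)
    refine h5.congr (fun n => ?_)
    simp only [Function.comp, Pi.inv_apply]
    rw [Real.rpow_neg (Nat.cast_nonneg n)]
    rw [div_eq_mul_inv (pp k)]
    congr 1
  refine (h1.eventually_ge_atTop (k : ℝ)).and ?_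
  refine (key (tendsto_cnt _ 2 (by simp) 1 k) hk).and ?_
  refine (key (tendsto_cnt _ 4 (by simp) 4 k) hk).and ?_
  refine (key (tendsto_cnt _ 3 (by simp) 3 k) hk).and ?_
  have h6 : ∀ t ∈ Finset.range (k+1), ∀ᶠ n : ℕ in atTop, |(cnt (fun i j => (completeBipartiteGraph (Fin s) (Fin t)).Adj i j) k n : ℝ) /
          ((n.descFactorial (s + t) : ℝ) * pp k ^ (s * t))
        - ratio (fun i j => (completeBipartiteGraph (Fin s) (Fin t)).Adj i j) (s * t) k ^ KK k| ≤ 1 :=
    fun t _ => key (tendsto_cnt _ (s + t) (by simp) (s * t) k) one_pos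
  have h7 := (Filter.eventually_all_finset _).2 h6
  filter_upwards [h7] with n hn t ht
  exact hn t (Finset.mem_range.2 (by omega))

open Pool.Agent.Q265.BR in
/-- The negation of the preceding statement: There are s≥2, a>0 such that whenever p(n)/((log n)^a n^(-1/s))→∞ and n-vertex graphs have normalized labelled K2 and C4 counts tending to 1 and bounded normalized K_{s,t} counts for each t, the normalized triangle count tends to 1. -/
theorem result :
    ¬ (∃ s : ℕ, 2 ≤ s ∧ ∃ a : ℝ, 0 < a ∧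
      ∀ p : ℕ → ℝ, (∀ n, 0 < p n ∧ p n ≤ 1) →
        Tendsto (fun n : ℕ => p n / ((Real.log n) ^ a * (n : ℝ) ^ (-(1 / (s : ℝ))))) atTop atTop →
        ∀ G : ∀ n : ℕ, SimpleGraph (Fin n),
          Tendsto (fun n : ℕ =>
            (Set.ncard {f : Fin 2 → Fin n | Function.Injective f ∧
                ∀ i j, (⊤ : SimpleGraph (Fin 2)).Adj i j → (G n).Adj (f i) (f j)} : ℝ) /
              ((n.descFactorial 2 : ℝ) * p n ^ 1)) atTop (𝓝 1) →
          Tendsto (fun n : ℕ =>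
            (Set.ncard {f : Fin 4 → Fin n | Function.Injective f ∧
                ∀ i j, (SimpleGraph.cycleGraph 4).Adj i j → (G n).Adj (f i) (f j)} : ℝ) /
              ((n.descFactorial 4 : ℝ) * p n ^ 4)) atTop (𝓝 1) →
          (∀ t : ℕ, 1 ≤ t → ∃ C : ℝ, ∀ n : ℕ,
            (Set.ncard {f : Fin s ⊕ Fin t → Fin n | Function.Injective f ∧
                ∀ i j, (completeBipartiteGraph (Fin s) (Fin t)).Adj i j → (G n).Adj (f i) (f j)} : ℝ) /
              ((n.descFactorial (s + t) : ℝ) * p n ^ (s * t)) ≤ C) →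
          Tendsto (fun n : ℕ =>
            (Set.ncard {f : Fin 3 → Fin n | Function.Injective f ∧
                ∀ i j, (SimpleGraph.cycleGraph 3).Adj i j → (G n).Adj (f i) (f j)} : ℝ) /
              ((n.descFactorial 3 : ℝ) * p n ^ 3)) atTop (𝓝 1)) := by
  rintro ⟨s, hs, a, ha, H⟩
  obtain ⟨κ, hκ, hP⟩ := aux s hs a
  have hκR : Tendsto (fun n => (κ n : ℝ)) atTop atTop := tendsto_natCast_atTop_atTop.comp hκ
  have hinv : Tendsto (fun n => 1 / ((κ n : ℝ) + 1)) atTop (𝓝 0) :=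
    tendsto_one_div_add_atTop_nhds_zero_nat.comp hκ
  have h := H (fun n => pp (κ n)) (fun n => ⟨pp_pos _, pp_le_one _⟩)
    (tendsto_atTop_mono' _ (hP.mono (fun n hn => hn.1)) hκR) (fun n => GG (κ n) n)
  -- general squeeze
  have key : ∀ {x L : ℕ → ℝ} {l : ℝ}, (∀ᶠ n in atTop, |x n - L n| ≤ 1 / ((κ n : ℝ) + 1)) →
      Tendsto L atTop (𝓝 l) → Tendsto x atTop (𝓝 l) := by
    intro x L l h1 h2
    have h3 : Tendsto (fun n => x n - L n) atTop (𝓝 0) :=
      squeeze_zero_norm' (by simpa [Real.norm_eq_abs] using h1) hinv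
    have h4 := h3.add h2
    rw [zero_add] at h4
    refine h4.congr (fun n => ?_)
    ring
  have hK2 := key (l := 1) (hP.mono (fun n hn => hn.2.1)) (by
    simp only [ratio_K2, one_pow]
    exact tendsto_const_nhds)
  have hC4 := key (l := 1) (hP.mono (fun n hn => hn.2.2.1)) (by
    simp only [ratio_C4]
    have hup : Tendsto (fun n => Real.exp (1 / ((κ n : ℝ) + 1))) atTop (𝓝 1) := by
      have := (Real.continuous_exp.tendsto 0).comp hinv
      rw [Real.exp_zero] at this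
      exact this
    refine tendsto_of_tendsto_of_tendsto_of_le_of_le tendsto_const_nhds hup (fun n => ?_) (fun n => ?_)
    · apply one_le_pow₀
      have : (0 : ℝ) ≤ 1 / ((κ n : ℝ) + 1) ^ 3 := by positivity
      linarith
    · have h1 : 1 + 1 / ((κ n : ℝ) + 1) ^ 3 ≤ Real.exp (1 / ((κ n : ℝ) + 1) ^ 3) := by
        rw [add_comm]; exact Real.add_one_le_exp _
      refine le_trans (pow_le_pow_left₀ (by positivity) h1 _) ?_
      rw [← Real.exp_nat_mul]
      apply le_of_eq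
      congr 1
      unfold KK
      push_cast
      field_simp)
  have h2 := h hK2 hC4 (by
    intro t ht
    apply bdd_of_eventually (C := Real.exp ((2 : ℝ) ^ (s * t) * (s ^ 3 * t)) + 1)
    filter_upwards [hP, hκ.eventually_ge_atTop t] with n hn htn
    have h3 := hn.2.2.2.2 t htn
    have h4 := (abs_le.1 h3).2
    have h5 : ratio (fun i j => (completeBipartiteGraph (Fin s) (Fin t)).Adj i j) (s * t) (κ n) ^ KK (κ n) ≤
        Real.exp ((2 : ℝ) ^ (s * t) * (s ^ 3 * t)) := by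
      have h6 := ratio_Kst s t (κ n) (by omega)
      have h7 : (0 : ℝ) ≤ ratio (fun i j => (completeBipartiteGraph (Fin s) (Fin t)).Adj i j) (s * t) (κ n) := by
        unfold ratio; positivity
      have h8 : 1 + (2 : ℝ) ^ (s * t) * (s ^ 3 * t) / ((κ n : ℝ) + 1) ^ 2 ≤
          Real.exp ((2 : ℝ) ^ (s * t) * (s ^ 3 * t) / ((κ n : ℝ) + 1) ^ 2) := by
        rw [add_comm]; exact Real.add_one_le_exp _
      refine le_trans (pow_le_pow_left₀ h7 (h6.trans h8) _) ?_
      rw [← Real.exp_nat_mul]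
      apply le_of_eq
      congr 1
      unfold KK
      push_cast
      field_simp
    have h9 : (cnt (fun i j => (completeBipartiteGraph (Fin s) (Fin t)).Adj i j) (κ n) n : ℝ) /
          ((n.descFactorial (s + t) : ℝ) * pp (κ n) ^ (s * t)) ≤ Real.exp ((2 : ℝ) ^ (s * t) * (s ^ 3 * t)) + 1 := by
      linarith
    exact h9)
  -- contradiction: triangle count is eventually ≤ e^{-1} + small
  have h3 : ∀ᶠ n in atTop, (cnt (fun i j => (SimpleGraph.cycleGraph 3).Adj i j) (κ n) n : ℝ) /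
      ((n.descFactorial 3 : ℝ) * pp (κ n) ^ 3) ≤ Real.exp (-1) + 1 / ((κ n : ℝ) + 1) := by
    filter_upwards [hP, hκ.eventually_ge_atTop 1] with n hn hn1
    have h4 := (abs_le.1 hn.2.2.2.1).2
    have h5 : ratio (fun i j => (SimpleGraph.cycleGraph 3).Adj i j) 3 (κ n) ^ KK (κ n) ≤ Real.exp (-1) := by
      rw [ratio_C3]
      have h6 : 1 - 1 / ((κ n : ℝ) + 1) ^ 2 ≤ Real.exp (-(1 / ((κ n : ℝ) + 1) ^ 2)) := by
        have := Real.add_one_le_exp (-(1 / ((κ n : ℝ) + 1) ^ 2))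
        linarith
      have h7 : 0 ≤ 1 - 1 / ((κ n : ℝ) + 1) ^ 2 := by
        have h8 : (1 : ℝ) ≤ ((κ n : ℝ) + 1) ^ 2 := by
          have : (0 : ℝ) ≤ (κ n : ℝ) := Nat.cast_nonneg _
          nlinarith
        have : 1 / ((κ n : ℝ) + 1) ^ 2 ≤ 1 := by
          rw [div_le_one (by positivity)]; exact h8
        linarith
      refine le_trans (pow_le_pow_left₀ h7 h6 _) ?_
      rw [← Real.exp_nat_mul]
      apply le_of_eq
      congr 1
      unfold KK
      push_cast
      field_simp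
    linarith
  have h4 : Tendsto (fun n => Real.exp (-1) + 1 / ((κ n : ℝ) + 1)) atTop (𝓝 (Real.exp (-1) + 0)) :=
    tendsto_const_nhds.add hinv
  have h5 := le_of_tendsto_of_tendsto h2 h4 h3
  have h6 : Real.exp (-1) < 1 := by
    rw [← Real.exp_zero]
    exact Real.exp_lt_exp.2 (by norm_num)
  linarith

end Pool.Agent.S11986
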