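import Pool.Statements.S12030
import Pool.Agent.Q250.SnStab.Main

set_option autoImplicit false
open Pool Pool.MP_e2957e_co

namespace Pool.Agent.S12030

/-- The negation of the preceding statement: There is an absolute C₁>0 such that any A⊂S_n of size c(n−1)! whose transposition-graph edge boundary is at most ∣A∣(n!−∣A∣)/(n−1)!+δn∣A∣ lies within symmetric difference C₁cδ(n−1)! of a union of c distinct 1-cosets {σ: σ(i)=j}. -/
theorem result :
    ¬ (∃ C₁ : ℝ, 0 < C₁ ∧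
      ∀ (n : ℕ), 1 ≤ n →
      ∀ (c : ℕ) (δ : ℝ), 0 ≤ δ →
      ∀ A : Finset (Equiv.Perm (Fin n)),
        A.card = c * Nat.factorial (n - 1) →
        ((((A ×ˢ (Finset.univ.filter (fun p : Fin n × Fin n => p.1 < p.2))).filter
            (fun x => x.1 * Equiv.swap x.2.1 x.2.2 ∉ A)).card : ℕ) : ℝ)
          ≤ (A.card : ℝ) * ((Nat.factorial n : ℝ) - (A.card : ℝ)) / (Nat.factorial (n - 1) : ℝ)
            + δ * (n : ℝ) * (A.card : ℝ) →
        ∃ P : Finset (Fin n × Fin n), P.card = c ∧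
          ((symmDiff A (Finset.univ.filter (fun σ : Equiv.Perm (Fin n) => ∃ p ∈ P, σ p.1 = p.2))).card : ℝ)
            ≤ C₁ * (c : ℝ) * δ * (Nat.factorial (n - 1) : ℝ)) := by
  rintro ⟨C, hC, H⟩
  obtain ⟨K0, hK0⟩ := exists_nat_ge (2 * C)
  set K := K0 + 2 with hK
  set t := K ^ 2 + 2 * K with ht
  have ht3 : t + 3 - 1 = t + 2 := by omega
  set δ : ℝ := 2 / (((t : ℝ) + 3) * ((t : ℝ) + 2)) with hδ
  have hδ0 : 0 ≤ δ := by positivity
  have hf1 : (0 : ℝ) < ((t + 1).factorial : ℝ) := by exact_mod_cast (t + 1).factorial_pos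
  have hf2 : ((t + 2).factorial : ℝ) = ((t : ℝ) + 2) * ((t + 1).factorial : ℝ) := by
    rw [Nat.factorial_succ (t + 1)]
    push_cast
    ring
  have hf3 : ((t + 3).factorial : ℝ) = ((t : ℝ) + 3) * (((t : ℝ) + 2) * ((t + 1).factorial : ℝ)) := by
    rw [Nat.factorial_succ (t + 2), Nat.cast_mul, hf2]
    push_cast
    ring
  have hA := Q250.SnStab.card_A t
  have hAr : ((Q250.SnStab.A t).card : ℝ) = ((t : ℝ) + 1) * (((t : ℝ) + 2) * ((t + 1).factorial : ℝ)) := by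
    rw [hA, Nat.cast_mul, hf2]
    push_cast
    ring
  have ht2 : (0 : ℝ) < (t : ℝ) + 2 := by positivity
  have ht3' : (0 : ℝ) < (t : ℝ) + 3 := by positivity
  obtain ⟨P, hP, hPd⟩ := H (t + 3) (by omega) (t + 1) δ hδ0 (Q250.SnStab.A t)
    (by rw [hA, ht3]) (by
      refine (Nat.cast_le.2 (Q250.SnStab.boundary t)).trans ?_
      rw [ht3, hAr, hf3, hf2, hδ]
      push_cast
      apply le_of_eq
      field_simp
      ring)
  have hfar := Q250.SnStab.far t K (by omega) (by omega) (by nlinarith) P hP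
  have hfar' : ((K : ℝ) - 1) * ((t + 1).factorial : ℝ) ≤
      ((symmDiff (Q250.SnStab.A t) (Q250.SnStab.U P)).card : ℝ) := by
    have h1 : (((K - 1) * (t + 1).factorial : ℕ) : ℝ) ≤ _ := Nat.cast_le.2 hfar
    rw [Nat.cast_mul, Nat.cast_sub (by omega)] at h1
    simpa using h1
  have h2 : ((symmDiff (Q250.SnStab.A t) (Q250.SnStab.U P)).card : ℝ) ≤
      C * ((t + 1 : ℕ) : ℝ) * δ * ((t + 3 - 1).factorial : ℝ) := hPd
  rw [ht3, hf2, hδ] at h2
  have h3 : C * ((t + 1 : ℕ) : ℝ) * (2 / (((t : ℝ) + 3) * ((t : ℝ) + 2))) *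
      (((t : ℝ) + 2) * ((t + 1).factorial : ℝ)) ≤ 2 * C * ((t + 1).factorial : ℝ) := by
    have h4 : C * ((t + 1 : ℕ) : ℝ) * (2 / (((t : ℝ) + 3) * ((t : ℝ) + 2))) *
      (((t : ℝ) + 2) * ((t + 1).factorial : ℝ)) =
        (2 * C * ((t + 1).factorial : ℝ)) * (((t : ℝ) + 1) / ((t : ℝ) + 3)) := by
      push_cast
      field_simp
    rw [h4]
    have h5 : ((t : ℝ) + 1) / ((t : ℝ) + 3) ≤ 1 := by
      rw [div_le_one ht3']
      linarith
    have h6 : 0 ≤ 2 * C * ((t + 1).factorial : ℝ) := by positivity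
    nlinarith
  have h7 : (K : ℝ) = (K0 : ℝ) + 2 := by rw [hK]; push_cast; ring
  have h8 : ((K : ℝ) - 1) * ((t + 1).factorial : ℝ) ≤ 2 * C * ((t + 1).factorial : ℝ) :=
    hfar'.trans (h2.trans h3)
  have h9 : (K : ℝ) - 1 ≤ 2 * C := le_of_mul_le_mul_right h8 hf1
  linarith

end Pool.Agent.S12030
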