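import Pool.Statements.S12060
import Pool.Agent.Q225.ExpA

set_option autoImplicit false
open Pool Pool.MP_e3c312_co

namespace Pool.Agent.S12060


open Pool.Agent.Q225.ExpA

/-- congruence of placements -/
abbrev Rel : (Fin 4 → EuclideanSpace ℝ (Fin 2)) → (Fin 4 → EuclideanSpace ℝ (Fin 2)) → Prop :=
  fun q q' => ∃ T : EuclideanSpace ℝ (Fin 2) ≃ᵢ EuclideanSpace ℝ (Fin 2), ∀ i, T (q i) = q' i

/-- distance as a function of the class -/
noncomputable def D (i j : Fin 4) : Quot Rel → ℝ :=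
  Quot.lift (fun q => dist (q i) (q j)) (by
    rintro q q' ⟨T, hT⟩
    show dist (q i) (q j) = dist (q' i) (q' j)
    rw [← hT i, ← hT j, T.dist_eq])

theorem D_mk (i j : Fin 4) (q : Fin 4 → EuclideanSpace ℝ (Fin 2)) :
    D i j (Quot.mk Rel q) = dist (q i) (q j) := rfl

theorem continuous_D (i j : Fin 4) : Continuous (D i j) :=
  continuous_quot_lift _ (by fun_prop)

/-- the classes of realizations -/
abbrev CC : Set (Quot Rel) := {x : Quot Rel |
    ∃ q : Fin 4 → EuclideanSpace ℝ (Fin 2), Quot.mk Rel q = x ∧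
      ∀ i j : Fin 4, G4.Adj i j → dist (q i) (q j) = dist (conf 0 0 i) (conf 0 0 j)}

/-- the neighbourhood -/
def OO : Set (Quot Rel) := {x | D 0 2 x < 1 ∧ D 1 3 x < 1}

theorem isOpen_OO : IsOpen OO :=
  (isOpen_lt (continuous_D 0 2) continuous_const).inter
    (isOpen_lt (continuous_D 1 3) continuous_const)

/-- the class of the standard configuration with parameter `u` -/
noncomputable def stdc (s : ℝ) : Quot Rel := Quot.mk Rel (conf (max s 0 / 2) (max (-s) 0 / 2))

theorem max_mul (s : ℝ) : (max s 0 / 2) * (max (-s) 0 / 2) = 0 := by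
  rcases le_total s 0 with h | h
  · rw [max_eq_right h]; ring
  · rw [max_eq_right (show -s ≤ 0 by linarith)]; ring

theorem max_sub (s : ℝ) : max s 0 - max (-s) 0 = s := by
  rcases le_total s 0 with h | h
  · rw [max_eq_right h, max_eq_left (show 0 ≤ -s by linarith)]; ring
  · rw [max_eq_left h, max_eq_right (show -s ≤ 0 by linarith)]; ring

theorem max_sq (s : ℝ) (h1 : -1 < s) (h2 : s < 1) :
    (max s 0 / 2) ^ 2 + (max (-s) 0 / 2) ^ 2 ≤ 1 := by
  rcases le_total s 0 with h | h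
  · rw [max_eq_right h, max_eq_left (show 0 ≤ -s by linarith)]; nlinarith
  · rw [max_eq_left h, max_eq_right (show -s ≤ 0 by linarith)]; nlinarith

theorem D02_std (s : ℝ) : D 0 2 (stdc s) = max (-s) 0 := by
  show dist (conf _ _ 0) (conf _ _ 2) = _
  rw [conf_02 _ _ (by positivity)]; ring

theorem D13_std (s : ℝ) : D 1 3 (stdc s) = max s 0 := by
  show dist (conf _ _ 1) (conf _ _ 3) = _
  rw [conf_13 _ _ (by positivity)]; ring

theorem conf00_adj (i j : Fin 4) (h : G4.Adj i j) : dist (conf 0 0 i) (conf 0 0 j) = 1 :=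
  conf_adj 0 0 (by norm_num) (by norm_num) i j h

theorem std_mem (s : ℝ) (h1 : -1 < s) (h2 : s < 1) : stdc s ∈ OO ∩ CC := by
  refine ⟨⟨?_, ?_⟩, ?_⟩
  · rw [D02_std]; exact max_lt (by linarith) (by norm_num)
  · rw [D13_std]; exact max_lt (by linarith) (by norm_num)
  · refine ⟨_, rfl, fun i j h => ?_⟩
    rw [conf00_adj i j h]
    exact conf_adj _ _ (max_mul s) (max_sq s h1 h2) i j h

theorem class_eq (x : Quot Rel) (hx : x ∈ OO ∩ CC) :
    stdc (D 1 3 x - D 0 2 x) = x ∧ -1 < D 1 3 x - D 0 2 x ∧ D 1 3 x - D 0 2 x < 1 := by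
  obtain ⟨⟨ho1, ho2⟩, q, rfl, hq⟩ := hx
  have h01 : dist (q 0) (q 1) = 1 := by
    rw [hq 0 1 (by show (0 + 1) % 2 = 1; norm_num)]; exact conf00_adj 0 1 (by show (0 + 1) % 2 = 1; norm_num)
  have h12 : dist (q 1) (q 2) = 1 := by
    rw [hq 1 2 (by show (1 + 2) % 2 = 1; norm_num)]; exact conf00_adj 1 2 (by show (1 + 2) % 2 = 1; norm_num)
  have h23 : dist (q 2) (q 3) = 1 := by
    rw [hq 2 3 (by show (2 + 3) % 2 = 1; norm_num)]; exact conf00_adj 2 3 (by show (2 + 3) % 2 = 1; norm_num)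
  have h30 : dist (q 3) (q 0) = 1 := by
    rw [hq 3 0 (by show (3 + 0) % 2 = 1; norm_num)]; exact conf00_adj 3 0 (by show (3 + 0) % 2 = 1; norm_num)
  have ho1' : dist (q 0) (q 2) < 1 := ho1
  have ho2' : dist (q 1) (q 3) < 1 := ho2
  rw [D_mk, D_mk]
  rcases diag_zero q h01 h12 h23 h30 ho1' ho2' with h | h
  · have hz : dist (q 0) (q 2) = 0 := by rw [h]; exact dist_self _
    rw [hz, sub_zero]
    refine ⟨?_, by linarith [dist_nonneg (x := q 1) (y := q 3)], ho2'⟩
    obtain ⟨T, hT⟩ := congr_case1 q h h01 h30 ho2'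
    symm
    apply Quot.sound
    refine ⟨T, fun i => ?_⟩
    rw [hT i]
    have e1 : max (dist (q 1) (q 3)) 0 = dist (q 1) (q 3) := max_eq_left dist_nonneg
    have e2 : max (-dist (q 1) (q 3)) 0 = 0 := max_eq_right (by linarith [dist_nonneg (x := q 1) (y := q 3)])
    rw [e1, e2, zero_div]
  · have hz : dist (q 1) (q 3) = 0 := by rw [h]; exact dist_self _
    rw [hz, zero_sub]
    refine ⟨?_, by linarith, by linarith [dist_nonneg (x := q 0) (y := q 2)]⟩
    obtain ⟨T, hT⟩ := congr_case2 q h h01 h12 ho1'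
    symm
    apply Quot.sound
    refine ⟨T, fun i => ?_⟩
    rw [hT i]
    have e1 : max (-dist (q 0) (q 2)) 0 = 0 := max_eq_right (by linarith [dist_nonneg (x := q 0) (y := q 2)])
    have e2 : max (-(-dist (q 0) (q 2))) 0 = dist (q 0) (q 2) := by
      rw [neg_neg]; exact max_eq_left dist_nonneg
    rw [e1, e2, zero_div]

/-- the chart -/
noncomputable def chart : ↥(OO ∩ CC) ≃ₜ ↥(Set.Ioo (0:ℝ) 1) where
  toFun x := ⟨(D 1 3 x.1 - D 0 2 x.1 + 1) / 2, by
    have := (class_eq x.1 x.2).2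
    constructor <;> linarith [this.1, this.2]⟩
  invFun u := ⟨stdc (2 * u.1 - 1), std_mem _ (by linarith [u.2.1]) (by linarith [u.2.2])⟩
  left_inv x := by
    apply Subtype.ext
    show stdc (2 * ((D 1 3 x.1 - D 0 2 x.1 + 1) / 2) - 1) = x.1
    rw [show 2 * ((D 1 3 x.1 - D 0 2 x.1 + 1) / 2) - 1 = D 1 3 x.1 - D 0 2 x.1 by ring]
    exact (class_eq x.1 x.2).1
  right_inv u := by
    apply Subtype.ext
    show (D 1 3 (stdc (2 * u.1 - 1)) - D 0 2 (stdc (2 * u.1 - 1)) + 1) / 2 = u.1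
    rw [D13_std, D02_std, max_sub]; ring
  continuous_toFun := by
    refine Continuous.subtype_mk ?_ _
    have h1 : Continuous fun x : ↥(OO ∩ CC) => D 1 3 x.1 := (continuous_D 1 3).comp continuous_subtype_val
    have h2 : Continuous fun x : ↥(OO ∩ CC) => D 0 2 x.1 := (continuous_D 0 2).comp continuous_subtype_val
    exact ((h1.sub h2).add continuous_const).div_const 2
  continuous_invFun := by
    refine Continuous.subtype_mk ?_ _
    refine continuous_quot_mk.comp ?_
    exact continuous_conf (by fun_prop) (by fun_prop)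

/-- the motion -/
noncomputable def mot (t : ℝ) : Fin 4 → EuclideanSpace ℝ (Fin 2) := conf (t / 4) 0

theorem mot_class (t : ℝ) (ht : 0 ≤ t) : Quot.mk Rel (mot t) = stdc (t / 2) := by
  show Quot.mk Rel (conf (t / 4) 0) = Quot.mk Rel (conf (max (t / 2) 0 / 2) (max (-(t / 2)) 0 / 2))
  have e1 : max (t / 2) 0 = t / 2 := max_eq_left (by linarith)
  have e2 : max (-(t / 2)) 0 = 0 := max_eq_right (by linarith)
  rw [e1, e2, zero_div, show t / 2 / 2 = t / 4 by ring]

/-- The negation of the preceding statement: For any Γ-symmetric framework in ℝ^d, every expansive motion tracing one half-branch of a neighbourhood of [p] homeomorphic to an interval in the configuration space mod isometries can be moved by continuous isometries so it stays Γ-symmetric. -/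
theorem result :
    ¬ (∀ (d : ℕ) (V : Type) [Fintype V] (G : SimpleGraph V) (p : V → EuclideanSpace ℝ (Fin d))
    (Γ : Subgroup (EuclideanSpace ℝ (Fin d) ≃ᵢ EuclideanSpace ℝ (Fin d))) [Finite Γ]
    (θ : Γ →* Equiv.Perm V),
    (∀ γ : Γ, ∀ u v : V, G.Adj u v ↔ G.Adj (θ γ u) (θ γ v)) →
    (∀ γ : Γ, ∀ i : V,
      (γ : EuclideanSpace ℝ (Fin d) ≃ᵢ EuclideanSpace ℝ (Fin d)) (p i) = p (θ γ i)) →
    ∀ m : ℝ → V → EuclideanSpace ℝ (Fin d),
      ContinuousOn m (Set.Icc 0 1) → m 0 = p →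
      (∀ t ∈ Set.Icc (0:ℝ) 1, ∀ i j : V, G.Adj i j → dist (m t i) (m t j) = dist (p i) (p j)) →
      (∀ i j : V, MonotoneOn (fun t => dist (m t i) (m t j)) (Set.Icc (0:ℝ) 1)) →
      (∃ t ∈ Set.Icc (0:ℝ) 1, ∃ i j : V, dist (m t i) (m t j) ≠ dist (p i) (p j)) →
      Set.InjOn (fun t => Quot.mk (fun q q' : V → EuclideanSpace ℝ (Fin d) =>
          ∃ T : EuclideanSpace ℝ (Fin d) ≃ᵢ EuclideanSpace ℝ (Fin d), ∀ i, T (q i) = q' i) (m t))
        (Set.Icc (0:ℝ) 1) →
      (∃ O : Set (Quot (fun q q' : V → EuclideanSpace ℝ (Fin d) =>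
          ∃ T : EuclideanSpace ℝ (Fin d) ≃ᵢ EuclideanSpace ℝ (Fin d), ∀ i, T (q i) = q' i)),
        IsOpen O ∧
        ∃ h : ↥(O ∩ {x : Quot (fun q q' : V → EuclideanSpace ℝ (Fin d) =>
              ∃ T : EuclideanSpace ℝ (Fin d) ≃ᵢ EuclideanSpace ℝ (Fin d), ∀ i, T (q i) = q' i) |
              ∃ q : V → EuclideanSpace ℝ (Fin d),
                Quot.mk (fun q q' : V → EuclideanSpace ℝ (Fin d) =>
                  ∃ T : EuclideanSpace ℝ (Fin d) ≃ᵢ EuclideanSpace ℝ (Fin d), ∀ i, T (q i) = q' i) q = x ∧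
                ∀ i j : V, G.Adj i j → dist (q i) (q j) = dist (p i) (p j)}) ≃ₜ ↥(Set.Ioo (0:ℝ) 1),
        ∃ a : Set.Ioo (0:ℝ) 1,
          (h.symm a).1 = Quot.mk (fun q q' : V → EuclideanSpace ℝ (Fin d) =>
            ∃ T : EuclideanSpace ℝ (Fin d) ≃ᵢ EuclideanSpace ℝ (Fin d), ∀ i, T (q i) = q' i) p ∧
          ((∀ t ∈ Set.Ioc (0:ℝ) 1, ∃ b : Set.Ioo (0:ℝ) 1,
              (h.symm b).1 = Quot.mk (fun q q' : V → EuclideanSpace ℝ (Fin d) =>
                ∃ T : EuclideanSpace ℝ (Fin d) ≃ᵢ EuclideanSpace ℝ (Fin d), ∀ i, T (q i) = q' i) (m t) ∧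
              (a : ℝ) < (b : ℝ)) ∨
           (∀ t ∈ Set.Ioc (0:ℝ) 1, ∃ b : Set.Ioo (0:ℝ) 1,
              (h.symm b).1 = Quot.mk (fun q q' : V → EuclideanSpace ℝ (Fin d) =>
                ∃ T : EuclideanSpace ℝ (Fin d) ≃ᵢ EuclideanSpace ℝ (Fin d), ∀ i, T (q i) = q' i) (m t) ∧
              (b : ℝ) < (a : ℝ)))) →
      ∃ T : ℝ → (EuclideanSpace ℝ (Fin d) ≃ᵢ EuclideanSpace ℝ (Fin d)),
        (∀ x, T 0 x = x) ∧
        (∀ x, ContinuousOn (fun t => T t x) (Set.Icc (0:ℝ) 1)) ∧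
        ∀ t ∈ Set.Icc (0:ℝ) 1, ∀ γ : Γ, ∀ i : V,
          (γ : EuclideanSpace ℝ (Fin d) ≃ᵢ EuclideanSpace ℝ (Fin d)) (T t (m t i))
            = T t (m t (θ γ i))) := by
  intro H
  have key := H 2 (Fin 4) G4 (conf 0 0) Gam theta ?_ ?_ mot ?_ ?_ ?_ ?_ ?_ ?_ ?_
  · -- the contradiction
    obtain ⟨T, -, -, hT⟩ := key
    have h1 := hT 1 (by norm_num) ⟨refl, Or.inr rfl⟩
    rw [theta_refl] at h1
    have a0 := h1 0
    have a2 := h1 2
    have s0 : sig 0 = 1 := by decide
    have s2 : sig 2 = 3 := by decide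
    rw [s0] at a0
    rw [s2] at a2
    have d1 : dist (T 1 (mot 1 0)) (T 1 (mot 1 2)) = dist (T 1 (mot 1 1)) (T 1 (mot 1 3)) := by
      rw [← a0, ← a2]
      exact (IsometryEquiv.dist_eq _ _ _).symm
    rw [IsometryEquiv.dist_eq, IsometryEquiv.dist_eq] at d1
    have d2 : dist (mot 1 0) (mot 1 2) = 2 * 0 := conf_02 _ _ le_rfl
    have d3 : dist (mot 1 1) (mot 1 3) = 2 * (1 / 4) := conf_13 _ _ (by norm_num)
    rw [d2, d3] at d1
    norm_num at d1
  · -- automorphisms
    intro γ u v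
    rcases mem_cases γ with rfl | rfl
    · simp
    · rw [theta_refl]
      revert u v
      show ∀ u v : Fin 4, (u.val + v.val) % 2 = 1 ↔ ((sig u).val + (sig v).val) % 2 = 1
      decide
  · -- symmetric placement
    intro γ i
    rcases mem_cases γ with rfl | rfl
    · simp
    · rw [theta_refl]
      show refl (conf 0 0 i) = conf 0 0 (sig i)
      have s0 : sig 0 = 1 := by decide
      have s1 : sig 1 = 0 := by decide
      have s2 : sig 2 = 3 := by decide
      have s3 : sig 3 = 2 := by decide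
      fin_cases i
      · show refl (conf 0 0 0) = conf 0 0 (sig 0)
        rw [s0, conf00_0, conf00_1, refl_apply]; simp
      · show refl (conf 0 0 1) = conf 0 0 (sig 1)
        rw [s1, conf00_0, conf00_1, refl_apply]; simp
      · show refl (conf 0 0 2) = conf 0 0 (sig 2)
        rw [s2, conf00_2, conf00_3, refl_apply]; simp
      · show refl (conf 0 0 3) = conf 0 0 (sig 3)
        rw [s3, conf00_2, conf00_3, refl_apply]; simp
  · -- continuity
    exact (continuous_conf (by fun_prop) continuous_const).continuousOn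
  · show conf (0 / 4) 0 = conf 0 0
    rw [zero_div]
  · intro t ht i j hij
    rw [conf00_adj i j hij]
    refine conf_adj _ _ (by ring) ?_ i j hij
    have := ht.1; have := ht.2
    nlinarith
  · -- monotonicity
    intro i j
    by_cases hij : G4.Adj i j
    · intro t ht t' ht' _
      show dist (mot t i) (mot t j) ≤ dist (mot t' i) (mot t' j)
      have b1 : dist (mot t i) (mot t j) = 1 :=
        conf_adj _ _ (by ring) (by nlinarith [ht.1, ht.2]) i j hij
      have b2 : dist (mot t' i) (mot t' j) = 1 :=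
        conf_adj _ _ (by ring) (by nlinarith [ht'.1, ht'.2]) i j hij
      rw [b1, b2]
    · intro t ht t' ht' htt
      show dist (mot t i) (mot t j) ≤ dist (mot t' i) (mot t' j)
      have h02 : ∀ t : ℝ, dist (mot t 0) (mot t 2) = 0 := fun t => by
        have := conf_02 (t / 4) 0 le_rfl
        rw [mul_zero] at this; exact this
      have h13 : ∀ t : ℝ, 0 ≤ t → dist (mot t 1) (mot t 3) = 2 * (t / 4) := fun t h =>
        conf_13 _ _ (by positivity)
      have h20 : ∀ t : ℝ, dist (mot t 2) (mot t 0) = 0 := fun t => by rw [dist_comm, h02]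
      have h31 : ∀ t : ℝ, 0 ≤ t → dist (mot t 3) (mot t 1) = 2 * (t / 4) := fun t h => by
        rw [dist_comm, h13 t h]
      have hij' : (i.val + j.val) % 2 ≠ 1 := hij
      have t0 := ht.1
      have t0' := ht'.1
      fin_cases i <;> fin_cases j <;> first
        | (exfalso; apply hij'; decide)
        | (show dist (mot t 0) (mot t 2) ≤ dist (mot t' 0) (mot t' 2); rw [h02, h02])
        | (show dist (mot t 2) (mot t 0) ≤ dist (mot t' 2) (mot t' 0); rw [h20, h20])
        | (show dist (mot t 1) (mot t 3) ≤ dist (mot t' 1) (mot t' 3); rw [h13 t t0, h13 t' t0']; linarith)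
        | (show dist (mot t 3) (mot t 1) ≤ dist (mot t' 3) (mot t' 1); rw [h31 t t0, h31 t' t0']; linarith)
        | (rw [dist_self, dist_self])
  · -- not constant
    refine ⟨1, by norm_num, 1, 3, ?_⟩
    have d3 : dist (mot 1 1) (mot 1 3) = 2 * (1 / 4) := conf_13 _ _ (by norm_num)
    have d4 : dist (conf 0 0 1) (conf 0 0 3) = 2 * 0 := conf_13 _ _ (by norm_num)
    rw [d3, d4]; norm_num
  · -- injectivity
    intro t ht t' ht' h
    have h' : Quot.mk Rel (mot t) = Quot.mk Rel (mot t') := h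
    have h2 := congrArg (D 1 3) h'
    rw [D_mk, D_mk] at h2
    have d3 : dist (mot t 1) (mot t 3) = 2 * (t / 4) := conf_13 _ _ (by linarith [ht.1])
    have d4 : dist (mot t' 1) (mot t' 3) = 2 * (t' / 4) := conf_13 _ _ (by linarith [ht'.1])
    rw [d3, d4] at h2
    linarith
  · -- the half-branch
    refine ⟨OO, isOpen_OO, chart, ⟨1 / 2, by norm_num⟩, ?_, Or.inl ?_⟩
    · show stdc (2 * (1 / 2) - 1) = Quot.mk Rel (conf 0 0)
      have := mot_class 0 le_rfl
      rw [show (2 * (1 / 2) - 1 : ℝ) = 0 / 2 by norm_num, ← this]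
      show Quot.mk Rel (conf (0 / 4) 0) = _
      rw [zero_div]
    · intro t ht
      refine ⟨⟨(t / 2 + 1) / 2, by constructor <;> linarith [ht.1, ht.2]⟩, ?_, ?_⟩
      · show stdc (2 * ((t / 2 + 1) / 2) - 1) = Quot.mk Rel (mot t)
        rw [mot_class t (by linarith [ht.1]), show 2 * ((t / 2 + 1) / 2) - 1 = t / 2 by ring]
      · show (1 / 2 : ℝ) < (t / 2 + 1) / 2
        linarith [ht.1]

end Pool.Agent.S12060
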