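import Pool.Statements.S12199
import Pool.Agent.Q259.RelaxTime

set_option autoImplicit false
open Pool Pool.MP_ea35a0_co

namespace Pool.Agent.S12199

/-- For every ε>0, every connected graph with enough edges m has simple-random-walk relaxation time (degree-weighted variance over edge Dirichlet form) at most (1+ε)·2m²/π², i.e. the path is asymptotically extremal. -/
theorem result :
    ∀ ε : ℝ, ε > 0 → ∃ M : ℕ, ∀ (n : ℕ) (G : SimpleGraph (Fin n)) [DecidableRel G.Adj],
      G.Connected → M ≤ G.edgeFinset.card →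
      ∀ f : Fin n → ℝ, ∃ c : ℝ,
        ∑ v, (G.degree v : ℝ) * (f v - c) ^ 2 ≤
          (1 + ε) * (2 * (G.edgeFinset.card : ℝ) ^ 2 / Real.pi ^ 2) *
            ((1 / 2 : ℝ) * ∑ u, ∑ v, (if G.Adj u v then (f u - f v) ^ 2 else 0)) := by
  intro ε hε
  refine ⟨max 4 ⌈2 * (1 + ε) / ε⌉₊, ?_⟩
  intro n G _ hG hM f
  set m := G.edgeFinset.card with hm
  have hm4 : 4 ≤ m := le_trans (le_max_left _ _) hM
  have hm5 : 2 * (1 + ε) / ε ≤ (m : ℝ) := by
    refine (Nat.le_ceil _).trans ?_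
    exact_mod_cast le_trans (le_max_right _ _) hM
  have hm4' : (4 : ℝ) ≤ m := by exact_mod_cast hm4
  have hdeg := Pool.Agent.Q259.RelaxTime.sum_degree_real G
  rw [← hm] at hdeg
  refine ⟨(∑ v, (G.degree v : ℝ) * f v) / (2 * m), ?_⟩
  set c := (∑ v, (G.degree v : ℝ) * f v) / (2 * m) with hc
  have h0 : ∑ v, (G.degree v : ℝ) * (f v - c) = 0 := by
    simp only [mul_sub, Finset.sum_sub_distrib]
    rw [← Finset.sum_mul, hdeg, hc]
    field_simp
    ring
  have h1 := Pool.Agent.Q259.RelaxTime.poincare G hG (by omega) (fun v => f v - c) h0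
  rw [← hm] at h1
  have h2 : ∀ u v : Fin n, (if G.Adj u v then ((f u - c) - (f v - c)) ^ 2 else 0) =
      (if G.Adj u v then (f u - f v) ^ 2 else (0 : ℝ)) := by
    intro u v
    split_ifs
    · ring
    · rfl
  simp only [h2] at h1
  set D := ∑ u, ∑ v, (if G.Adj u v then (f u - f v) ^ 2 else (0 : ℝ)) with hD
  set S := ∑ v, (G.degree v : ℝ) * (f v - c) ^ 2 with hS
  have hD0 : 0 ≤ D := Finset.sum_nonneg fun u _ => Finset.sum_nonneg fun v _ => by
    split_ifs <;> positivity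
  have hS0 : 0 ≤ S := Finset.sum_nonneg fun v _ => by positivity
  set x := Real.pi / (m : ℝ) with hx
  have hpi := Real.pi_pos
  have hpi4 := Real.pi_lt_four
  have hpi3 : Real.pi < 3.15 := Real.pi_lt_d2
  have hmpos : (0 : ℝ) < m := by linarith
  have hx0 : 0 < x := by positivity
  have hx1 : x ≤ 1 := by
    rw [hx, div_le_one hmpos]
    linarith
  have hb := Real.cos_bound (x := x) (by rw [abs_of_pos hx0]; exact hx1)
  rw [abs_of_pos hx0] at hb
  have hb2 := (abs_le.mp hb).2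
  have hxm : x * m = Real.pi := by
    rw [hx]; field_simp
  have hxx : x ^ 2 * m ^ 2 = Real.pi ^ 2 := by
    rw [← mul_pow, hxm]
  -- key inequality
  have hkey : x ^ 2 ≤ (1 + ε) * (2 - 2 * Real.cos x) := by
    have h5 : x ^ 2 - 5 / 48 * x ^ 4 ≤ 2 - 2 * Real.cos x := by linarith
    have h6 : x ^ 2 ≤ (1 + ε) * (x ^ 2 - 5 / 48 * x ^ 4) := by
      have h7 : (1 + ε) * (5 / 48 * x ^ 2) ≤ ε := by
        have h8 : 2 * (1 + ε) ≤ ε * m := by
          rw [div_le_iff₀ hε] at hm5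
          linarith
        have h9 : x ^ 2 * m ≤ 4 := by
          have : x ^ 2 * m = x * Real.pi := by rw [← hxm]; ring
          rw [this]
          nlinarith
        have h10 : (1 + ε) * x ^ 2 * 2 ≤ ε * (x ^ 2 * m) := by nlinarith [sq_nonneg x]
        have h11 : (1 + ε) * x ^ 2 * 2 ≤ ε * 4 := h10.trans (by nlinarith)
        nlinarith
      have h12 : 0 ≤ x ^ 2 := sq_nonneg x
      nlinarith [mul_le_mul_of_nonneg_left h7 h12]
    have h13 : (1 + ε) * (x ^ 2 - 5 / 48 * x ^ 4) ≤ (1 + ε) * (2 - 2 * Real.cos x) :=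
      mul_le_mul_of_nonneg_left h5 (by linarith)
    linarith
  have h14 : x ^ 2 * S ≤ (1 + ε) * D := by
    calc x ^ 2 * S ≤ ((1 + ε) * (2 - 2 * Real.cos x)) * S := mul_le_mul_of_nonneg_right hkey hS0
      _ = (1 + ε) * ((2 - 2 * Real.cos x) * S) := by ring
      _ ≤ (1 + ε) * D := mul_le_mul_of_nonneg_left h1 (by linarith)
  have h15 : (1 + ε) * (2 * (m : ℝ) ^ 2 / Real.pi ^ 2) * ((1 / 2 : ℝ) * D) =
      ((1 + ε) * D) / x ^ 2 := by
    rw [← hxx]
    field_simp
  rw [h15, le_div_iff₀ (by positivity)]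
  linarith

end Pool.Agent.S12199
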