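import Pool.Statements.S12391
-- import your own Pool.Agent.* helpers here
import Pool.Agent.Q8.Maehara

set_option autoImplicit false
open Pool Pool.MP_f35a22_co

namespace Pool.Agent.S12391

open Pool.Agent.Q8.Maehara

abbrev E : Type := EuclideanSpace ℝ (Fin 3)

theorem sqd_eq (p q : E) : sqd (fun i => p i) (fun i => q i) = dist p q ^ 2 := by
  rw [EuclideanSpace.dist_eq, Real.sq_sqrt (by positivity), Fin.sum_univ_three]
  simp only [sqd, Real.dist_eq, sq_abs]

/-- five distinct unit spheres, every four of which have a common point. -/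
theorem five (c : Fin 5 → E) (hc : ∀ j, ∃ p : E, ∀ k, k ≠ j → dist p (c k) = 1) :
    ∃ p : E, ∀ k, dist p (c k) = 1 := by
  choose x hx using hc
  obtain ⟨j, hj⟩ := core (fun j i => x j i) (fun j i => c j i) (by
    intro j k hjk
    rw [sqd_eq, hx k j hjk]
    norm_num)
  rw [sqd_eq] at hj
  refine ⟨x j, fun k => ?_⟩
  by_cases hk : k = j
  · subst hk
    have h0 : (0 : ℝ) ≤ dist (x k) (c k) := dist_nonneg
    nlinarith
  · exact hx j k hk

/-- For any set of at least 5 distinct centers in 3-space, if every 4 of the unit spheres around them share a common point, then one point lies on all of these unit spheres. -/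
theorem result :
    ∀ S : Set (EuclideanSpace ℝ (Fin 3)),
      5 ≤ S.encard →
      (∀ T : Set (EuclideanSpace ℝ (Fin 3)), T ⊆ S → T.encard = 4 →
        ∃ p : EuclideanSpace ℝ (Fin 3), ∀ c ∈ T, p ∈ Metric.sphere c 1) →
      ∃ p : EuclideanSpace ℝ (Fin 3), ∀ c ∈ S, p ∈ Metric.sphere c 1 := by
  intro S hS H
  -- a subset of `S` with at most four points and the same affine span
  obtain ⟨t, htS, hspan, hind⟩ := exists_affineIndependent ℝ E S
  have htcard : t.encard ≤ 4 := by
    have hfin : Finite t := finite_of_fin_dim_affineIndependent ℝ hind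
    have : Fintype t := Fintype.ofFinite t
    have h2 : Module.finrank ℝ (vectorSpan ℝ (Set.range ((↑) : t → E))) ≤ 3 := by
      refine le_trans (Submodule.finrank_le _) ?_
      simp
    have h3 : Fintype.card t ≤ 4 := le_trans hind.card_le_finrank_succ (Nat.succ_le_succ h2)
    rw [Set.encard_eq_coe_toFinset_card, Set.toFinset_card]
    exact_mod_cast h3
  obtain ⟨T, htT, hTS, hT4⟩ := Set.exists_superset_subset_encard_eq htS htcard
    (le_trans (by norm_num) hS)
  obtain ⟨p, hp⟩ := H T hTS hT4
  refine ⟨p, fun e he => ?_⟩
  by_cases heT : e ∈ T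
  · exact hp e heT
  -- the five centres `T ∪ {e}`
  have h5 : (insert e T).encard = 5 := by
    rw [Set.encard_insert_of_notMem heT, hT4]
    norm_num
  have hsub : insert e T ⊆ S := Set.insert_subset he hTS
  have hfin : (insert e T).Finite := Set.finite_of_encard_eq_coe (k := 5) h5
  have : Fintype (insert e T : Set E) := hfin.fintype
  have hcard : Fintype.card (insert e T : Set E) = 5 := by
    have := Set.encard_eq_coe_toFinset_card (insert e T)
    rw [Set.toFinset_card, h5] at this
    exact_mod_cast this.symm
  let φ : (insert e T : Set E) ≃ Fin 5 := Fintype.equivFinOfCardEq hcard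
  let c : Fin 5 → E := fun j => (φ.symm j : E)
  have hcinj : Function.Injective c := Subtype.val_injective.comp φ.symm.injective
  have hcmem : ∀ j, c j ∈ insert e T := fun j => (φ.symm j).2
  obtain ⟨q, hq⟩ := five c (by
    intro j
    obtain ⟨r, hr⟩ := H (c '' {k | k ≠ j})
      (by
        rintro _ ⟨k, _, rfl⟩
        exact hsub (hcmem k))
      (by
        rw [hcinj.encard_image]
        have : ({k : Fin 5 | k ≠ j} : Set (Fin 5)) = ((Finset.univ.erase j : Finset (Fin 5)) : Set (Fin 5)) := by
          ext k
          simp
        rw [this, Set.encard_coe_eq_coe_finsetCard, Finset.card_erase_of_mem (Finset.mem_univ j)]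
        simp)
    refine ⟨r, fun k hk => ?_⟩
    exact Metric.mem_sphere.1 (hr (c k) ⟨k, hk, rfl⟩))
  have hq' : ∀ y ∈ insert e T, dist q y = 1 := by
    intro y hy
    have := hq (φ ⟨y, hy⟩)
    simpa [c] using this
  -- `p` and `q` are at the same distance from every point of `T`, hence of its affine span
  have hle : affineSpan ℝ T ≤ AffineSubspace.perpBisector p q := by
    rw [affineSpan_le]
    intro y hy
    rw [SetLike.mem_coe, AffineSubspace.mem_perpBisector_iff_dist_eq, dist_comm y p, dist_comm y q,
      hq' y (Set.mem_insert_of_mem e hy)]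
    exact Metric.mem_sphere.1 (hp y hy)
  have heSpan : e ∈ affineSpan ℝ T := by
    have h1 : e ∈ affineSpan ℝ S := subset_affineSpan ℝ S he
    rw [← hspan] at h1
    exact affineSpan_mono ℝ htT h1
  have := hle heSpan
  rw [AffineSubspace.mem_perpBisector_iff_dist_eq, dist_comm e p, dist_comm e q,
    hq' e (Set.mem_insert e T)] at this
  exact Metric.mem_sphere.2 this

end Pool.Agent.S12391
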