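import Pool.Statements.S12606
import Pool.Agent.Results.MP_fd346d_co.Disproof

set_option autoImplicit false
open scoped Classical
open Pool Pool.MP_fd346d_co

namespace Pool.Agent.S12606

open Pool.Agent.Results.MP_fd346d_co.Disproof in
theorem realizable_iff (P : Type) [PartialOrder P] (d : ℕ) :
    Realizable P d ↔ ∃ r : Fin d → P → P → Prop,
        (∀ i, (∀ x, r i x x) ∧ (∀ x y z, r i x y → r i y z → r i x z) ∧
          (∀ x y, r i x y → r i y x → x = y) ∧ (∀ x y, r i x y ∨ r i y x)) ∧
        ∀ x y, x ≤ y ↔ ∀ i, r i x y := by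
  constructor
  · rintro ⟨L, hL, hext, hint⟩
    refine ⟨L, fun i => ?_, fun x y => ⟨fun h i => hext i x y h, hint x y⟩⟩
    have := hL i
    exact ⟨fun x => refl_of (L i) x, fun x y z => trans_of (L i),
      fun x y => antisymm_of (L i), fun x y => total_of (L i) x y⟩
  · rintro ⟨r, hr, h⟩
    refine ⟨r, fun i => ?_, fun i x y hxy => (h x y).1 hxy i, fun x y hxy => (h x y).2 hxy⟩
    exact { refl := (hr i).1
            trans := (hr i).2.1
            antisymm := (hr i).2.2.1
            total := (hr i).2.2.2 }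

open Pool.Agent.Results.MP_fd346d_co.Disproof in
theorem dim_snd_le (P Q : Type) [PartialOrder P] [PartialOrder Q] [Nonempty P] :
    dim Q ≤ dim (P × Q) := by
  obtain ⟨p⟩ := ‹Nonempty P›
  refine le_iInf₂ fun d hd => dim_le (hd.of_embedding
    { toFun := fun q => (p, q)
      inj' := fun q q' h => congrArg Prod.snd h
      map_rel_iff' := by
        intro q q'
        show (p, q) ≤ (p, q') ↔ q ≤ q'
        simp })

open Pool.Agent.Results.MP_fd346d_co.Disproof in
theorem dim_fst_le (P Q : Type) [PartialOrder P] [PartialOrder Q] [Nonempty Q] :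
    dim P ≤ dim (P × Q) := by
  obtain ⟨q⟩ := ‹Nonempty Q›
  refine le_iInf₂ fun d hd => dim_le (hd.of_embedding
    { toFun := fun p => (p, q)
      inj' := fun p p' h => congrArg Prod.fst h
      map_rel_iff' := by
        intro p p'
        show (p, q) ≤ (p', q) ↔ p ≤ p'
        simp })

open Pool.Agent.Results.MP_fd346d_co.Disproof in
theorem dim_subsingleton (P : Type) [PartialOrder P] (h : ∀ x y : P, x = y) : dim P = 0 := by
  have h0 : Realizable P 0 := ⟨fun i => i.elim0, fun i => i.elim0, fun i => i.elim0,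
    fun x y _ => le_of_eq (h x y)⟩
  have := dim_le h0
  simpa using this

open Pool.Agent.Results.MP_fd346d_co.Disproof in
theorem exists_realizable (P : Type) [PartialOrder P] (h : dim P ≠ ⊤) :
    ∃ d : ℕ, dim P = d ∧ Realizable P d := by
  obtain ⟨d, hd⟩ := ENat.ne_top_iff_exists.1 h
  exact ⟨d, hd.symm, realizable_of_dim_eq hd.symm⟩

/-- The negation of the preceding statement: For all posets P, Q with at least two elements and finite dimension, dim P + dim Q ≤ dim(P×Q) + b, where b counts the factors lacking a least or greatest element; dimension means the least number of linear orders whose intersection is the order. -/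
theorem result :
    ¬ (∀ (P Q : Type) [PartialOrder P] [PartialOrder Q], Nontrivial P → Nontrivial Q →
      (∃ d : ℕ, ∃ r : Fin d → P → P → Prop,
        (∀ i, (∀ x, r i x x) ∧ (∀ x y z, r i x y → r i y z → r i x z) ∧
          (∀ x y, r i x y → r i y x → x = y) ∧ (∀ x y, r i x y ∨ r i y x)) ∧
        ∀ x y, x ≤ y ↔ ∀ i, r i x y) →
      (∃ d : ℕ, ∃ r : Fin d → Q → Q → Prop,
        (∀ i, (∀ x, r i x x) ∧ (∀ x y z, r i x y → r i y z → r i x z) ∧
          (∀ x y, r i x y → r i y x → x = y) ∧ (∀ x y, r i x y ∨ r i y x)) ∧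
        ∀ x y, x ≤ y ↔ ∀ i, r i x y) →
      ∀ n : ℕ,
        (∃ r : Fin n → P × Q → P × Q → Prop,
          (∀ i, (∀ x, r i x x) ∧ (∀ x y z, r i x y → r i y z → r i x z) ∧
            (∀ x y, r i x y → r i y x → x = y) ∧ (∀ x y, r i x y ∨ r i y x)) ∧
          ∀ x y, x ≤ y ↔ ∀ i, r i x y) →
        ∃ a c : ℕ,
          a + c ≤ n + ((if (∃ x : P, ∀ y, x ≤ y) ∧ (∃ x : P, ∀ y, y ≤ x) then 0 else 1) +
                       (if (∃ x : Q, ∀ y, x ≤ y) ∧ (∃ x : Q, ∀ y, y ≤ x) then 0 else 1)) ∧
          (∃ r : Fin a → P → P → Prop,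
            (∀ i, (∀ x, r i x x) ∧ (∀ x y z, r i x y → r i y z → r i x z) ∧
              (∀ x y, r i x y → r i y x → x = y) ∧ (∀ x y, r i x y ∨ r i y x)) ∧
            ∀ x y, x ≤ y ↔ ∀ i, r i x y) ∧
          (∃ r : Fin c → Q → Q → Prop,
            (∀ i, (∀ x, r i x x) ∧ (∀ x y z, r i x y → r i y z → r i x z) ∧
              (∀ x y, r i x y → r i y x → x = y) ∧ (∀ x y, r i x y ∨ r i y x)) ∧
            ∀ x y, x ≤ y ↔ ∀ i, r i x y)) := by
  intro H
  obtain ⟨P, Q, iP, iQ, hfP, hfQ, hnP, hnQ, hdP, hdQ, hb, hlt⟩ :=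
    Pool.Agent.Results.MP_fd346d_co.Disproof.result 0 1 (Or.inl rfl)
  have hlt' : Pool.Agent.Results.MP_fd346d_co.Disproof.dim (P × Q) + 1 <
      Pool.Agent.Results.MP_fd346d_co.Disproof.dim P +
        Pool.Agent.Results.MP_fd346d_co.Disproof.dim Q := by
    simpa using hlt
  have hPnt : Nontrivial P := by
    by_contra hcon
    have hs : ∀ x y : P, x = y := by
      rw [not_nontrivial_iff_subsingleton] at hcon
      exact fun x y => Subsingleton.elim x y
    rw [dim_subsingleton P hs, zero_add] at hlt'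
    have := dim_snd_le P Q
    exact absurd (lt_of_le_of_lt (le_trans this le_self_add) hlt') (lt_irrefl _)
  have hQnt : Nontrivial Q := by
    by_contra hcon
    have hs : ∀ x y : Q, x = y := by
      rw [not_nontrivial_iff_subsingleton] at hcon
      exact fun x y => Subsingleton.elim x y
    rw [dim_subsingleton Q hs, add_zero] at hlt'
    have := dim_fst_le P Q
    exact absurd (lt_of_le_of_lt (le_trans this le_self_add) hlt') (lt_irrefl _)
  obtain ⟨p, hp, hrp⟩ := exists_realizable P hdP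
  obtain ⟨q, hq, hrq⟩ := exists_realizable Q hdQ
  have hPQ : Pool.Agent.Results.MP_fd346d_co.Disproof.dim (P × Q) ≠ ⊤ := by
    intro h
    rw [h, top_add] at hlt'
    exact absurd hlt' not_top_lt
  obtain ⟨n, hn, hrn⟩ := exists_realizable (P × Q) hPQ
  obtain ⟨a, c, hac, ha, hc⟩ := H P Q hPnt hQnt ⟨p, (realizable_iff P p).1 hrp⟩
    ⟨q, (realizable_iff Q q).1 hrq⟩ n ((realizable_iff (P × Q) n).1 hrn)
  have h1 := Pool.Agent.Results.MP_fd346d_co.Disproof.dim_le ((realizable_iff P a).2 ha)
  have h2 := Pool.Agent.Results.MP_fd346d_co.Disproof.dim_le ((realizable_iff Q c).2 hc)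
  have hb' : ((if (∃ x : P, ∀ y, x ≤ y) ∧ (∃ x : P, ∀ y, y ≤ x) then 0 else 1) +
      (if (∃ x : Q, ∀ y, x ≤ y) ∧ (∃ x : Q, ∀ y, y ≤ x) then 0 else 1)) = 1 := by
    have h := hb
    unfold Pool.Agent.Results.MP_fd346d_co.Disproof.numUnbdd
      Pool.Agent.Results.MP_fd346d_co.Disproof.IsBdd at h
    convert h
  rw [hb'] at hac
  rw [hp, hq, hn] at hlt'
  rw [hp] at h1
  rw [hq] at h2
  have h1' : p ≤ a := by exact_mod_cast h1
  have h2' : q ≤ c := by exact_mod_cast h2
  have h3 : n + 1 < p + q := by exact_mod_cast hlt'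
  omega

end Pool.Agent.S12606
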