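import Pool.Statements.S12948
import Pool.Agent.Q258.ZonoidAux
import Pool.Agent.H902R3.ZA.Defs
import Pool.Agent.H902R3.ZA.LBM
import Pool.Agent.H902R3.ZA.PLA
import Pool.Agent.H902R3.ZA.PLN
import Pool.Agent.H902R3.ZA.RES
import Pool.Agent.H902R3.ZA.DOM
import Pool.Agent.H902R3.ZA.SEC
import Pool.Agent.H902R3.ZA.SC
import Pool.Agent.H902R3.ZA.LAW
import Pool.Agent.H902R3.ZA.LOW
import Pool.Agent.H902R3.ZA.PHI
import Pool.Agent.H902R3.ZA.ROT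
import Pool.Agent.H902R3.ZA.QJ
import Pool.Agent.H902R3.ZA.JEN
import Pool.Agent.H902R3.ZA.MEAN
import Pool.Agent.H902R3.ZA.FIX
import Pool.Agent.H902R3.ZA.TWO
import Pool.Agent.H902R3.ZA.SHI
import Pool.Agent.H902R3.ZA.AVG
import Pool.Agent.H902R3.ZA.COL
import Pool.Agent.H902R3.ZA.STEPL
import Pool.Agent.H902R3.ZA.STEP
import Pool.Agent.H902R3.ZA.ITER
import Pool.Agent.H902R3.ZA.ZSUP
import Pool.Agent.H902R3.ZA.ZOND
import Pool.Agent.H902R3.ZA.FIN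
import Pool.Agent.H172R2.ZS.LEW
import Pool.Agent.H172R2.ZS.BAS
import Pool.Agent.H172R2.ZS.ONE
import Pool.Agent.H172R2.ZS.DET
import Pool.Agent.H172R2.ZS.MAP
import Pool.Agent.H172R2.ZS.GAU
import Pool.Agent.H172R2.GS.HAM

set_option autoImplicit false
open Pointwise
open Pool Pool.MP_2c1b2b_gt

namespace Pool.Agent.S12948

open Pool.Agent.H902R3.ZA Pool.Agent.H172R2.ZS in
/-- linear number of segments for all zonoids (all steps of the starting modules together) -/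
theorem main : S_FIN := by
  have hGAU : Pool.Agent.H172R2.ZS.S_GAU := GAU_ok (MAP_ok ONE_ok BAS_ok DET_ok)
  have hHAM : Pool.Agent.H172R2.ZS.S_HAM := Pool.Agent.H172R2.GS.HAM_ok
  have hPLN : S_PLN := PLN_ok (PLA_ok LBM_ok)
  have hDOM : S_DOM := DOM_ok RES_ok
  have hSC : S_SC := SC_ok RES_ok (SEC_ok hPLN)
  have hLOW : S_LOW := LOW_ok hDOM hSC LAW_ok hGAU
  have hJEN : S_JEN := JEN_ok hPLN ROT_ok QJ_ok
  have hTWO : S_TWO := TWO_ok hLOW PHI_ok hJEN MEAN_ok (FIX_ok PHI_ok)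
  have hCOL : S_COL := COL_ok SHI_ok AVG_ok hHAM
  exact FIN_ok (ITER_ok (STEP_ok (STEPL_ok hTWO hCOL) LEW_ok BAS_ok)) ZSUP_ok ZOND_ok

/-- The negation of the preceding statement: For some ε>0 and every constant C, there is a dimension n and a zonoid K in ℝⁿ that is not within Banach–Mazur distance 1+ε of any sum of at most C·n segments, i.e. the bound C(ε)·n fails in general. -/
theorem result :
    ¬ (∃ ε : ℝ, 0 < ε ∧ ∀ C : ℝ, ∃ n : ℕ, ∃ K : Set (EuclideanSpace ℝ (Fin n)),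
      IsCompact K ∧ (interior K).Nonempty ∧
      (∀ δ : ℝ, 0 < δ → ∃ m : ℕ, ∃ v : Fin m → EuclideanSpace ℝ (Fin n),
          Metric.hausdorffDist K (∑ i, segment ℝ (-v i) (v i)) < δ) ∧
      ¬ ∃ m : ℕ, (m : ℝ) ≤ C * n ∧
          ∃ v : Fin m → EuclideanSpace ℝ (Fin n),
          ∃ T : EuclideanSpace ℝ (Fin n) ≃ₗ[ℝ] EuclideanSpace ℝ (Fin n),
            T '' K ⊆ ∑ i, segment ℝ (-v i) (v i) ∧
            ∑ i, segment ℝ (-v i) (v i) ⊆ (1 + ε) • (T '' K)) := by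
  rintro ⟨ε, hε, h⟩
  obtain ⟨C, hC, hfin⟩ := main
  obtain ⟨e, he0, he1, hee⟩ : ∃ e : ℝ, 0 < e ∧ e < 1 ∧ e ≤ ε :=
    ⟨min ε (1 / 2), lt_min hε (by norm_num), lt_of_le_of_lt (min_le_right _ _) (by norm_num),
      min_le_left _ _⟩
  obtain ⟨n, K, hcomp, hint, hlim, hno⟩ := h (C / e ^ 2)
  have hne : K.Nonempty := hint.mono interior_subset
  have hb := hcomp.isBounded
  have hcl := hcomp.isClosed
  have hconv : Convex ℝ K := Pool.Agent.Q258.ZonoidAux.convex_limit hcl hb hne hlim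
  have hsym : ∀ x ∈ K, -x ∈ K := fun x hx =>
    Pool.Agent.Q258.ZonoidAux.neg_mem hcl hb hne hlim hx
  have hz : Pool.Agent.H902R3.ZA.IsZonoid K := by
    refine ⟨hconv, hcomp, hint, hsym, fun δ hδ => ?_⟩
    obtain ⟨m, v, hv⟩ := hlim δ hδ
    refine ⟨m, _, ⟨0, v, ?_⟩, hv⟩
    ext x
    rw [Pool.Agent.Q258.ZonoidAux.mem_sum_segment]
    constructor
    · rintro ⟨t, ht, rfl⟩
      exact ⟨_, ⟨t, ht, rfl⟩, by simp⟩
    · rintro ⟨y, ⟨t, ht, rfl⟩, rfl⟩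
      exact ⟨t, ht, by simp⟩
  obtain ⟨M, v, hM, hZK, hKZ⟩ := hfin n K hz e he0 he1
  apply hno
  have h1e : (1 + e : ℝ) ≠ 0 := by linarith
  refine ⟨M, by rw [div_mul_eq_mul_div]; exact hM, v,
    LinearEquiv.smulOfNeZero ℝ (EuclideanSpace ℝ (Fin n)) (1 + e)⁻¹ (inv_ne_zero h1e), ?_, ?_⟩
  · rintro _ ⟨x, hx, rfl⟩
    obtain ⟨y, hy, rfl⟩ := hKZ x hx
    rw [Pool.Agent.Q258.ZonoidAux.mem_sum_segment]
    obtain ⟨t, ht, rfl⟩ := hy
    refine ⟨t, ht, ?_⟩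
    change (1 + e)⁻¹ • ((1 + e) • ∑ j, t j • v j) = _
    rw [smul_smul, inv_mul_cancel₀ h1e, one_smul]
  · intro z hz'
    rw [Pool.Agent.Q258.ZonoidAux.mem_sum_segment] at hz'
    have hzK : z ∈ K := hZK hz'
    -- `z = (1 + ε) • ((1 + e)⁻¹ • w)`, `w = ((1 + e) / (1 + ε)) • z ∈ K`
    have h1ε : (1 + ε : ℝ) ≠ 0 := by linarith
    have h0K : (0 : EuclideanSpace ℝ (Fin n)) ∈ K := by
      have := hconv hzK (hsym z hzK) (show (0 : ℝ) ≤ 1 / 2 by norm_num)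
        (show (0 : ℝ) ≤ 1 / 2 by norm_num) (by norm_num)
      simpa using this
    have hw : ((1 + e) / (1 + ε)) • z ∈ K := by
      have hq0 : 0 ≤ (1 + e) / (1 + ε) := by positivity
      have hq1 : (1 + e) / (1 + ε) ≤ 1 := by
        rw [div_le_one (by linarith)]; linarith
      exact hconv.smul_mem_of_zero_mem h0K hzK ⟨hq0, hq1⟩
    refine Set.mem_smul_set.2 ⟨(1 + e)⁻¹ • (((1 + e) / (1 + ε)) • z), ⟨_, hw, rfl⟩, ?_⟩
    · rw [smul_smul, smul_smul]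
      have : (1 + ε) * (1 + e)⁻¹ * ((1 + e) / (1 + ε)) = 1 := by field_simp
      rw [this, one_smul]

end Pool.Agent.S12948
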