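import Pool.Statements.S13073
import Pool.Agent.W595.S13073Aux

set_option autoImplicit false
open scoped Manifold
open CategoryTheory AlgebraicTopology
open Pool Pool.MP_4139f5_gt

namespace Pool.Agent.S13073

open Pool.Agent.Helper775.Tight Pool.Agent.Helper775.Surf Pool.Agent.W595.Bridge

theorem substantial_of_span {M : Type} {N : ℕ} (f : M → EuclideanSpace ℝ (Fin N))
    (hs : affineSpan ℝ (Set.range f) = ⊤) : Substantial f := by
  intro z t hz
  by_contra hcon
  push Not at hcon
  let H : AffineSubspace ℝ (EuclideanSpace ℝ (Fin N)) :=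
    { carrier := {y | inner ℝ z y = t}
      smul_vsub_vadd_mem' := by
        intro c p1 p2 p3 h1 h2 h3
        simp only [Set.mem_setOf_eq] at h1 h2 h3 ⊢
        rw [vadd_eq_add, vsub_eq_sub, inner_add_right, inner_smul_right, inner_sub_right,
          h1, h2, h3]
        ring }
  have h1 : affineSpan ℝ (Set.range f) ≤ H := by
    rw [affineSpan_le]
    rintro _ ⟨x, rfl⟩
    exact hcon x
  rw [hs, top_le_iff] at h1
  have h2 : ∀ y : EuclideanSpace ℝ (Fin N), inner ℝ z y = t := by
    intro y
    have : y ∈ H := by rw [h1]; exact AffineSubspace.mem_top _ _ _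
    exact this
  have h3 := h2 z
  have h4 := h2 0
  rw [inner_zero_right] at h4
  rw [← h4] at h3
  exact hz (inner_self_eq_zero.1 h3)

/-- For N at least 4, any continuous locally injective map of a compact connected surface with nonempty boundary into R^N, whose image spans R^N affinely and whose half-space preimages inject on mod-2 H0 and H1, has a convex hull spanned by finitely many points. -/
theorem result :
  ∀ (N : ℕ), 4 ≤ N →
  ∀ (M : Type) [TopologicalSpace M] [T2Space M] [CompactSpace M] [ConnectedSpace M]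
    [ChartedSpace (EuclideanHalfSpace 2) M], IsManifold (𝓡∂ 2) 0 M →
    ((𝓡∂ 2).boundary M).Nonempty →
  ∀ f : M → EuclideanSpace ℝ (Fin N), Continuous f →
    (∀ x : M, ∃ U ∈ nhds x, Set.InjOn f U) →
    affineSpan ℝ (Set.range f) = ⊤ →
    (∀ (l : EuclideanSpace ℝ (Fin N) →L[ℝ] ℝ), l ≠ 0 → ∀ c : ℝ, ∀ k : ℕ, k ≤ 1 →
      Mono (((singularHomologyFunctor (ModuleCat.{0} (ZMod 2)) k).obj
          (ModuleCat.of (ZMod 2) (ZMod 2))).map
        (TopCat.ofHom ⟨Subtype.val, continuous_subtype_val⟩ :
          TopCat.of ↥(f ⁻¹' {y | c ≤ l y}) ⟶ TopCat.of M))) →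
    ∃ S : Finset (EuclideanSpace ℝ (Fin N)),
      convexHull ℝ (Set.range f) = convexHull ℝ (↑S : Set (EuclideanSpace ℝ (Fin N))) := by
  intro N hN M _ _ _ _ _ _ hb f hf hloc hs ht
  haveI : LocallyPathConnectedSpace M :=
    ChartedSpace.locallyPathConnectedSpace (EuclideanHalfSpace 2) M
  haveI : PathConnectedSpace M := pathConnectedSpace_iff_connectedSpace.2 inferInstance
  refine final_polytope hb hN f hf hloc (substantial_of_span f hs) (Or.inl ?_)
  intro z c hz
  have hl : (innerSL ℝ z) ≠ 0 := by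
    intro h
    have h1 := congrArg (fun g : EuclideanSpace ℝ (Fin N) →L[ℝ] ℝ => g z) h
    simp only [innerSL_apply_apply, ContinuousLinearMap.zero_apply] at h1
    exact hz (inner_self_eq_zero.1 h1)
  refine ⟨preconnected_of_mono _ (ht (innerSL ℝ z) hl c 0 (by norm_num)), ?_⟩
  intro u hu hc hbd
  exact inj_of_mono _ 1 (ht (innerSL ℝ z) hl c 1 le_rfl) u hu hc hbd

end Pool.Agent.S13073
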