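import Pool.Statements.S13092
import Pool.Agent.Q125.HT4

set_option autoImplicit false
open LaurentPolynomial
open scoped Matrix
open Pool Pool.MP_436001_gt
open Pool.Agent.Q125

namespace Pool.Agent.S13092

/-- The negation of the preceding statement: Suppose a nondegenerate Hermitian Laurent-polynomial form L has boundary linking form isometric to that of H2^g, L at t=1 equals Q plus 2g zeros, and L plus n H2's ≅ Q plus (g+n) H2's. Then L ≅ Q ⊕ H2^g. -/
theorem result :
    ¬ (∀ (σ : LaurentPolynomial ℤ →+* LaurentPolynomial ℤ) (ε : LaurentPolynomial ℤ →+* ℤ),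
      σ (T 1) = T (-1) → ε (T 1) = 1 →
      ∀ (H2 : Matrix (Fin 2) (Fin 2) (LaurentPolynomial ℤ)),
        H2 = !![0, T 1 - 1; T (-1) - 1, 0] →
      ∀ (k : ℕ) (Q : Matrix (Fin k) (Fin k) ℤ), Qᵀ = Q → IsUnit Q.det →
      ∀ (g r : ℕ) (L : Matrix (Fin r) (Fin r) (LaurentPolynomial ℤ)),
        (L.map σ)ᵀ = L → L.det ≠ 0 →
        (∃ (P Q1 : Matrix (Fin 2 × Fin g) (Fin r) (LaurentPolynomial ℤ))
            (P' Q2 : Matrix (Fin r) (Fin 2 × Fin g) (LaurentPolynomial ℤ))
            (S1 M : Matrix (Fin r) (Fin r) (LaurentPolynomial ℤ))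
            (S2 : Matrix (Fin 2 × Fin g) (Fin 2 × Fin g) (LaurentPolynomial ℤ)),
            P * L = Matrix.blockDiagonal (fun _ : Fin g => H2) * Q1 ∧
            P' * Matrix.blockDiagonal (fun _ : Fin g => H2) = L * Q2 ∧
            P' * P = 1 + L * S1 ∧
            P * P' = 1 + Matrix.blockDiagonal (fun _ : Fin g => H2) * S2 ∧
            (L.map (algebraMap (LaurentPolynomial ℤ) (FractionRing (LaurentPolynomial ℤ))))⁻¹
              - ((P.map σ)ᵀ).map (algebraMap (LaurentPolynomial ℤ) (FractionRing (LaurentPolynomial ℤ)))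
                * ((Matrix.blockDiagonal (fun _ : Fin g => H2)).map
                    (algebraMap (LaurentPolynomial ℤ) (FractionRing (LaurentPolynomial ℤ))))⁻¹
                * P.map (algebraMap (LaurentPolynomial ℤ) (FractionRing (LaurentPolynomial ℤ)))
              = M.map (algebraMap (LaurentPolynomial ℤ) (FractionRing (LaurentPolynomial ℤ)))) →
        (∃ (P : Matrix (Fin r) (Fin k ⊕ Fin 2 × Fin g) ℤ)
            (P' : Matrix (Fin k ⊕ Fin 2 × Fin g) (Fin r) ℤ),
            P * P' = 1 ∧ P' * P = 1 ∧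
            Pᵀ * L.map ε * P = Matrix.fromBlocks Q 0 0 0) →
        (∃ (n : ℕ) (P : Matrix (Fin r ⊕ Fin 2 × Fin n) (Fin k ⊕ Fin 2 × Fin (g + n)) (LaurentPolynomial ℤ))
            (P' : Matrix (Fin k ⊕ Fin 2 × Fin (g + n)) (Fin r ⊕ Fin 2 × Fin n) (LaurentPolynomial ℤ)),
            P * P' = 1 ∧ P' * P = 1 ∧
            (P.map σ)ᵀ * Matrix.fromBlocks L 0 0 (Matrix.blockDiagonal (fun _ : Fin n => H2)) * P
              = Matrix.fromBlocks (Q.map (Int.castRingHom (LaurentPolynomial ℤ))) 0 0
                  (Matrix.blockDiagonal (fun _ : Fin (g + n) => H2))) →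
        ∃ (P : Matrix (Fin r) (Fin k ⊕ Fin 2 × Fin g) (LaurentPolynomial ℤ))
          (P' : Matrix (Fin k ⊕ Fin 2 × Fin g) (Fin r) (LaurentPolynomial ℤ)),
          P * P' = 1 ∧ P' * P = 1 ∧
          (P.map σ)ᵀ * L * P
            = Matrix.fromBlocks (Q.map (Int.castRingHom (LaurentPolynomial ℤ))) 0 0
                (Matrix.blockDiagonal (fun _ : Fin g => H2))) := by
  intro h
  have hs1 : HT.sig (T 1) = T (-1) := by rw [HT.sig_apply, LaurentPolynomial.invert_T]
  obtain ⟨P, P', -, -, h3⟩ := h HT.sig HT.eps hs1 (HT.eps_T 1) HT.H2 rfl 4 HT.formQ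
    HT.formQ_symm HT.formQ_det 0 4 HT.formL HT.formL_herm HT.formL_det
    ⟨0, 0, 0, 0, -HT.formLi, HT.formLi, 0, by
      refine ⟨?_, ?_, ?_, ?_, ?_⟩
      · ext i j
        exact i.2.elim0
      · ext i j
        exact j.2.elim0
      · rw [Matrix.mul_neg, HT.formL_inv, add_neg_cancel]
        ext i j
        rw [Matrix.mul_apply]
        simp
      · ext i j
        exact i.2.elim0
      · have h1 : (HT.formL.map (algebraMap (LaurentPolynomial ℤ)
            (FractionRing (LaurentPolynomial ℤ))))⁻¹ =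
            HT.formLi.map (algebraMap (LaurentPolynomial ℤ)
            (FractionRing (LaurentPolynomial ℤ))) := by
          apply Matrix.inv_eq_right_inv
          rw [← Matrix.map_mul, HT.formL_inv]
          simp
        rw [h1]
        ext i j
        rw [Matrix.sub_apply, Matrix.mul_apply]
        simp⟩
    ⟨Matrix.fromCols 1 0, Matrix.fromRows 1 0, by
      refine ⟨?_, ?_, ?_⟩
      · rw [Matrix.fromCols_mul_fromRows]
        simp
      · ext i j
        rcases i with i | i
        · rcases j with j | j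
          · rw [Matrix.fromRows_mul_fromCols, Matrix.fromBlocks_apply₁₁, Matrix.one_apply,
              Matrix.mul_one, Matrix.one_apply]
            simp
          · exact j.2.elim0
        · exact i.2.elim0
      · rw [HT.formL_eps]
        ext i j
        rcases i with i | i
        · rcases j with j | j
          · rw [Matrix.fromBlocks_apply₁₁, Matrix.transpose_fromCols, Matrix.fromRows_mul,
              Matrix.fromRows_mul_fromCols, Matrix.fromBlocks_apply₁₁]
            simp
          · exact j.2.elim0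
        · exact i.2.elim0⟩
    ⟨1, HT.P6.submatrix HT.ix HT.ix, HT.B6.submatrix HT.ix HT.ix, by
      refine ⟨?_, ?_, ?_⟩
      · have h1 := Matrix.submatrix_mul_equiv HT.P6 HT.B6 HT.ix HT.ix HT.ix
        rw [HT.P6B6, Matrix.submatrix_one_equiv] at h1
        exact h1
      · have h1 := Matrix.submatrix_mul_equiv HT.B6 HT.P6 HT.ix HT.ix HT.ix
        rw [HT.B6P6, Matrix.submatrix_one_equiv] at h1
        exact h1
      · have h1 : ((HT.P6.submatrix HT.ix HT.ix).map HT.sig)ᵀ * HT.LH6.submatrix HT.ix HT.ix *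
            HT.P6.submatrix HT.ix HT.ix = HT.N6.submatrix HT.ix HT.ix := by
          rw [← HT.isom6, ← Matrix.submatrix_mul_equiv _ _ HT.ix HT.ix HT.ix,
            ← Matrix.submatrix_mul_equiv _ _ HT.ix HT.ix HT.ix]
          rfl
        rw [← HT.LH_blocks, ← HT.N_blocks] at h1
        exact h1⟩
  -- the image of a vector of norm one
  set v : Fin 4 ⊕ Fin 2 × Fin 0 → LaurentPolynomial ℤ :=
    Sum.elim ![1, 0, -1, -1] (fun _ => 0) with hv
  have hsv : ∀ i, HT.sig (v i) = v i := by
    intro i
    rcases i with i | i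
    · fin_cases i <;> simp [hv]
    · exact i.2.elim0
  set w : Fin 4 → LaurentPolynomial ℤ := P.mulVec v with hw
  have hsw : ∀ i, HT.sig (w i) = (P.map HT.sig).mulVec v i := by
    intro i
    rw [hw, Matrix.mulVec, Matrix.mulVec, dotProduct, dotProduct, map_sum]
    apply Finset.sum_congr rfl
    intro j _
    rw [map_mul, hsv, Matrix.map_apply]
  apply HT.norm_ne_one w
  calc (∑ i, ∑ j, LaurentPolynomial.invert (w i) * HT.formL i j * w j)
      = ((P.map HT.sig).mulVec v) ⬝ᵥ (HT.formL.mulVec w) := by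
        rw [dotProduct]
        apply Finset.sum_congr rfl
        intro i _
        rw [← hsw, Matrix.mulVec, dotProduct, Finset.mul_sum]
        apply Finset.sum_congr rfl
        intro j _
        rw [HT.sig_apply, mul_assoc]
    _ = v ⬝ᵥ (((P.map HT.sig)ᵀ * HT.formL * P).mulVec v) := by
        rw [hw, ← Matrix.mulVec_mulVec, ← Matrix.mulVec_mulVec, Matrix.dotProduct_mulVec v,
          Matrix.vecMul_transpose]
    _ = 1 := by
        rw [h3]
        simp only [dotProduct, Matrix.mulVec, Fintype.sum_sum_type]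
        simp [hv, Fin.sum_univ_four, HT.formQ]
        norm_num

end Pool.Agent.S13092
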