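import Pool.Statements.S13204

set_option autoImplicit false
open Pool Pool.MP_58de27_gt

namespace Pool.Agent.S13204

open Set Metric

/-- the standard circle of length one -/
abbrev T : Type := AddCircle (1 : ℝ)

instance factPos : Fact ((0 : ℝ) < 1) := ⟨one_pos⟩

/-- the spiral arc in the torus -/
noncomputable def path (θ : ℝ) : T × T := (((θ + 0.2 : ℝ) : T), ((0.8 * θ : ℝ) : T))

lemma path_cont : Continuous path := by
  unfold path
  refine Continuous.prodMk ?_ ?_
  · exact (AddCircle.continuous_mk' (1 : ℝ)).comp (by fun_prop)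
  · exact (AddCircle.continuous_mk' (1 : ℝ)).comp (by fun_prop)

/-- the arc -/
noncomputable def Z0 : Set (T × T) := path '' Icc 0 1

/-- the arc together with its mirror image -/
noncomputable def K : Set (T × T) := Z0 ∪ Prod.swap '' Z0

lemma Z0_conn : IsConnected Z0 :=
  (isConnected_Icc zero_le_one).image _ path_cont.continuousOn

lemma K_nonempty : K.Nonempty := Z0_conn.nonempty.inl

lemma K_swap (p : T × T) : p.swap ∈ K ↔ p ∈ K := by
  unfold K
  constructor
  · rintro (h | ⟨q, hq, h⟩)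
    · right; exact ⟨p.swap, h, by simp⟩
    · left
      have : q = p := by
        have := congrArg Prod.swap h
        simpa using this
      rwa [← this]
  · rintro (h | ⟨q, hq, h⟩)
    · right; exact ⟨p, h, rfl⟩
    · left
      rw [← h]; simpa using hq

lemma dist_swap (p q : T × T) : dist p.swap q.swap = dist p q := by
  simp only [Prod.dist_eq, Prod.fst_swap, Prod.snd_swap]
  exact max_comm _ _

lemma infDist_swap (p : T × T) : infDist p.swap K = infDist p K := by
  apply le_antisymm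
  · refine (le_infDist K_nonempty).2 ?_
    intro q hq
    rw [← dist_swap]
    exact infDist_le_dist_of_mem ((K_swap q).2 hq)
  · refine (le_infDist K_nonempty).2 ?_
    intro q hq
    have : dist p.swap q = dist p q.swap := by
      rw [← dist_swap, Prod.swap_swap]
    rw [this]
    exact infDist_le_dist_of_mem ((K_swap q).2 hq)

/-- the bump -/
noncomputable def h (x y : T) : ℝ := max 0 (1 - 50 * infDist (x, y) K)

lemma h_nonneg (x y : T) : 0 ≤ h x y := le_max_left _ _

lemma h_le_one (x y : T) : h x y ≤ 1 := by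
  unfold h
  refine max_le zero_le_one ?_
  have := infDist_nonneg (x := (x, y)) (s := K)
  linarith

lemma h_comm (x y : T) : h x y = h y x := by
  unfold h
  rw [← infDist_swap (x, y)]
  rfl

lemma h_lip (x y z : T) : h x z ≤ h y z + 50 * dist x y := by
  have h1 : infDist (y, z) K ≤ infDist (x, z) K + dist (y, z) (x, z) :=
    infDist_le_infDist_add_dist
  have h2 : dist (y, z) (x, z) = dist x y := by
    rw [Prod.dist_eq]
    simp [dist_comm]
  unfold h
  refine max_le ?_ ?_
  · have := le_max_left 0 (1 - 50 * infDist (y, z) K)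
    have := dist_nonneg (x := x) (y := y)
    linarith
  · have := le_max_right 0 (1 - 50 * infDist (y, z) K)
    rw [h2] at h1
    linarith

lemma h_of_mem {x y : T} (hxy : (x, y) ∈ K) : h x y = 1 := by
  unfold h
  rw [infDist_zero_of_mem hxy]
  norm_num

/-- the new metric -/
noncomputable def D (x y : T) : ℝ := min (50 * dist x y) (1 + h x y)

lemma D_nonneg (x y : T) : 0 ≤ D x y :=
  le_min (by positivity) (by linarith [h_nonneg x y])

lemma D_le_two (x y : T) : D x y ≤ 2 :=
  (min_le_right _ _).trans (by linarith [h_le_one x y])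

lemma D_self (x : T) : D x x = 0 := by
  unfold D
  rw [dist_self, mul_zero]
  exact min_eq_left (by linarith [h_nonneg x x])

lemma D_comm (x y : T) : D x y = D y x := by
  unfold D
  rw [dist_comm, h_comm]

lemma D_lt_one {x y : T} (hxy : D x y < 1) : D x y = 50 * dist x y := by
  unfold D at *
  rcases min_lt_iff.1 hxy with h1 | h1
  · exact min_eq_left (by linarith [h_nonneg x y])
  · linarith [h_nonneg x y]

lemma D_tri_aux {x y z : T} (hxy : D x y < 1) : D x z ≤ D x y + D y z := by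
  rw [D_lt_one hxy]
  unfold D
  rw [← min_add_add_left]
  refine min_le_min ?_ ?_
  · have := dist_triangle x y z
    linarith
  · have := h_lip x y z
    linarith

lemma D_tri (x y z : T) : D x z ≤ D x y + D y z := by
  by_cases h1 : D x y < 1
  · exact D_tri_aux h1
  by_cases h2 : D y z < 1
  · rw [D_comm x z, D_comm x y, D_comm y z]
    rw [D_comm] at h2
    have := D_tri_aux (x := z) (y := y) (z := x) h2
    linarith
  · have := D_le_two x z
    push Not at h1 h2
    linarith

/-- the circle with the new metric -/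
structure Crv where
  /-- the underlying point of the circle -/
  val : T

noncomputable instance : MetricSpace Crv where
  dist a b := D a.val b.val
  dist_self a := D_self _
  dist_comm a b := D_comm _ _
  dist_triangle a b c := D_tri _ _ _
  eq_of_dist_eq_zero := by
    rintro ⟨a⟩ ⟨b⟩ hab
    have hab : D a b = 0 := hab
    have h1 := D_lt_one (x := a) (y := b) (by rw [hab]; exact one_pos)
    rw [hab] at h1
    have : dist a b = 0 := by linarith
    rw [dist_eq_zero.1 this]

lemma Crv.dist_def (a b : Crv) : dist a b = D a.val b.val := rfl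

lemma val_cont : Continuous Crv.val := by
  rw [Metric.continuous_iff]
  intro b ε hε
  refine ⟨min 1 (50 * ε), by positivity, ?_⟩
  intro a hab
  rw [Crv.dist_def] at hab
  have h1 := D_lt_one (lt_of_lt_of_le hab (min_le_left _ _))
  rw [h1] at hab
  have := lt_of_lt_of_le hab (min_le_right _ _)
  linarith

lemma mk_cont : Continuous Crv.mk := by
  rw [Metric.continuous_iff]
  intro b ε hε
  refine ⟨ε / 50, by positivity, ?_⟩
  intro a hab
  rw [Crv.dist_def]
  refine lt_of_le_of_lt (min_le_left _ _) ?_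
  show 50 * dist a b < ε
  linarith

/-- the new metric induces the usual topology -/
def crvHomeo : Crv ≃ₜ T where
  toFun := Crv.val
  invFun := Crv.mk
  left_inv _ := rfl
  right_inv _ := rfl
  continuous_toFun := val_cont
  continuous_invFun := mk_cont

lemma exists_real_near {x : T} {a0 r : ℝ} (hx : dist x (a0 : T) < r) :
    ∃ a : ℝ, (a : T) = x ∧ |a - a0| < r := by
  obtain ⟨x', rfl⟩ := QuotientAddGroup.mk_surjective x
  rw [dist_eq_norm] at hx
  have h1 : ((x' : T) - (a0 : T)) = ((x' - a0 : ℝ) : T) := rfl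
  have h2 : ‖((x' - a0 : ℝ) : T)‖ < r := by rw [← h1]; exact hx
  rw [AddCircle.norm_eq] at h2
  refine ⟨x' - round ((1 : ℝ)⁻¹ * (x' - a0)), ?_, ?_⟩
  · have : ((x' - (round ((1 : ℝ)⁻¹ * (x' - a0)) : ℝ) : ℝ) : T) = (x' : T) -
      (((round ((1 : ℝ)⁻¹ * (x' - a0)) : ℝ) : ℝ) : T) := rfl
    rw [this]
    have h3 : ((((round ((1 : ℝ)⁻¹ * (x' - a0)) : ℤ) : ℝ)) : T) = 0 := by
      rw [AddCircle.coe_eq_zero_iff]
      exact ⟨round ((1 : ℝ)⁻¹ * (x' - a0)), by simp⟩
    rw [h3, sub_zero]
  · have : x' - (round ((1 : ℝ)⁻¹ * (x' - a0)) : ℝ) - a0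
      = x' - a0 - (round ((1 : ℝ)⁻¹ * (x' - a0)) : ℝ) * 1 := by ring
    rw [this]
    exact h2

/-- pairs close to the arc -/
def Near (x y : T) : Prop :=
  ∃ a b : ℝ, (a : T) = x ∧ (b : T) = y ∧ -0.02 ≤ b ∧ b ≤ 0.82 ∧ 0.16 ≤ a - b ∧ a - b ≤ 0.44

lemma near_of_dist {x y : T} {p : T × T} (hp : p ∈ Z0) (hd : dist (x, y) p < 0.02) :
    Near x y := by
  obtain ⟨θ, hθ, rfl⟩ := hp
  rw [Prod.dist_eq] at hd
  have h1 : dist x ((θ + 0.2 : ℝ) : T) < 0.02 := lt_of_le_of_lt (le_max_left _ _) hd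
  have h2 : dist y ((0.8 * θ : ℝ) : T) < 0.02 := lt_of_le_of_lt (le_max_right _ _) hd
  obtain ⟨a, ha, ha'⟩ := exists_real_near h1
  obtain ⟨b, hb, hb'⟩ := exists_real_near h2
  rw [abs_lt] at ha' hb'
  refine ⟨a, b, ha, hb, ?_, ?_, ?_, ?_⟩ <;> linarith [hθ.1, hθ.2, ha'.1, ha'.2, hb'.1, hb'.2]

lemma near_or {x y : T} (hd : 1.5 ≤ D x y) : Near x y ∨ Near y x := by
  have h1 : 1.5 ≤ 1 + h x y := hd.trans (min_le_right _ _)
  have h2 : 0.5 ≤ h x y := by linarith
  have h3 : infDist (x, y) K < 0.02 := by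
    unfold h at h2
    rcases le_max_iff.1 h2 with h4 | h4
    · norm_num at h4
    · linarith
  obtain ⟨p, hp, hpd⟩ := (infDist_lt_iff K_nonempty).1 h3
  rcases hp with hp | ⟨q, hq, rfl⟩
  · left; exact near_of_dist hp hpd
  · right
    refine near_of_dist hq ?_
    rw [← dist_swap]
    exact hpd

/-- the height function -/
noncomputable def φ (z : T) : ℝ := ((AddCircle.toCircle z : Circle) : ℂ).im

lemma φ_cont : Continuous φ := by
  unfold φ
  exact Complex.continuous_im.comp (continuous_subtype_val.comp AddCircle.continuous_toCircle)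

lemma φ_coe (c : ℝ) : φ (c : T) = Real.sin (2 * Real.pi * c) := by
  unfold φ
  rw [AddCircle.toCircle_apply_mk, Circle.coe_exp]
  rw [div_one, Complex.exp_ofReal_mul_I_im]

lemma φ_near {x y : T} (hn : Near x y) : 0 < φ (x - y) := by
  obtain ⟨a, b, rfl, rfl, h1, h2, h3, h4⟩ := hn
  have : ((a : T) - (b : T)) = ((a - b : ℝ) : T) := rfl
  rw [this, φ_coe]
  apply Real.sin_pos_of_pos_of_lt_pi
  · have := Real.pi_pos
    nlinarith
  · have := Real.pi_pos
    nlinarith

/-- the lift of a point of the circle -/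
noncomputable def lift (z : T) : ℝ := (AddCircle.equivIco (1 : ℝ) (-0.1) z : ℝ)

lemma lift_mem (z : T) : lift z ∈ Ico (-0.1 : ℝ) 0.9 := by
  have h1 := (AddCircle.equivIco (1 : ℝ) (-0.1) z).2
  have h2 : (-0.1 : ℝ) + 1 = 0.9 := by norm_num
  exact ⟨h1.1, lt_of_lt_of_eq h1.2 h2⟩

lemma coe_lift (z : T) : ((lift z : ℝ) : T) = z :=
  AddCircle.coe_equivIco (p := (1 : ℝ)) (a := -0.1) (y := z)

lemma lift_coe {b : ℝ} (hb : b ∈ Ico (-0.1 : ℝ) 0.9) : lift (b : T) = b :=
  AddCircle.equivIco_coe_of_mem (p := (1 : ℝ)) (a := -0.1) (y := b)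
    ⟨hb.1, lt_of_lt_of_eq hb.2 (by norm_num)⟩

lemma lift_contAt {b : ℝ} (hb1 : -0.1 < b) (hb2 : b < 0.9) : ContinuousAt lift (b : T) := by
  have hne : (b : T) ≠ ((-0.1 : ℝ) : T) := by
    intro h
    have h1 := congrArg lift h
    rw [lift_coe ⟨hb1.le, hb2⟩, lift_coe ⟨le_refl _, by norm_num⟩] at h1
    linarith
  exact continuous_subtype_val.continuousAt.comp
    (AddCircle.continuousAt_equivIco (1 : ℝ) (-0.1) hne)

/-- two reals representing the same point differ by an integer -/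
lemma eq_add_int {a b : ℝ} (h : (a : T) = (b : T)) : ∃ n : ℤ, a = b + n := by
  have h1 : ((a - b : ℝ) : T) = 0 := by
    have : ((a - b : ℝ) : T) = (a : T) - (b : T) := rfl
    rw [this, h, sub_self]
  rw [AddCircle.coe_eq_zero_iff] at h1
  obtain ⟨n, hn⟩ := h1
  refine ⟨n, ?_⟩
  rw [zsmul_eq_mul, mul_one] at hn
  linarith

/-- No connected set of near pairs has equal projections. -/
lemma no_conn {Z : Set (T × T)} (hZ : IsConnected Z) (heq : Prod.fst '' Z = Prod.snd '' Z)
    (hn : ∀ p ∈ Z, Near p.1 p.2) : False := by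
  have hsnd : ∀ z ∈ Prod.snd '' Z, -0.02 ≤ lift z ∧ lift z ≤ 0.82 := by
    rintro z ⟨p, hp, rfl⟩
    obtain ⟨a, b, _, h2, h3, h4, _, _⟩ := hn p hp
    rw [← h2, lift_coe ⟨by linarith, by linarith⟩]
    exact ⟨h3, h4⟩
  have hfst : ∀ z ∈ Prod.fst '' Z, -0.02 ≤ lift z ∧ lift z ≤ 0.82 := by
    rw [heq]; exact hsnd
  have hcont : ∀ z : T, -0.02 ≤ lift z → lift z ≤ 0.82 → ContinuousAt lift z := by
    intro z h1 h2
    have := lift_contAt (b := lift z) (by linarith) (by linarith)
    rwa [coe_lift] at this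
  -- the difference of the lifts
  have hg : ∀ p ∈ Z, (0.16 ≤ lift p.1 - lift p.2 ∨ lift p.1 - lift p.2 ≤ -0.16) := by
    intro p hp
    obtain ⟨a, b, h1, h2, h3, h4, h5, h6⟩ := hn p hp
    have hb : lift p.2 = b := by rw [← h2, lift_coe ⟨by linarith, by linarith⟩]
    obtain ⟨n, hn'⟩ := eq_add_int (a := lift p.1) (b := a) (by rw [coe_lift, h1])
    have h7 := hfst p.1 ⟨p, hp, rfl⟩
    rw [hb, hn']
    rw [hn'] at h7
    rcases lt_trichotomy n 0 with hlt | h0 | hgt
    · right
      have : (n : ℝ) ≤ -1 := by exact_mod_cast (by omega : n ≤ -1)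
      linarith
    · left
      rw [h0]; push_cast; linarith
    · exfalso
      have : (1 : ℝ) ≤ n := by exact_mod_cast hgt
      linarith [h7.2]
  have hgc : ContinuousOn (fun p : T × T => lift p.1 - lift p.2) Z := by
    intro p hp
    apply ContinuousAt.continuousWithinAt
    have h1 := hfst p.1 ⟨p, hp, rfl⟩
    have h2 := hsnd p.2 ⟨p, hp, rfl⟩
    exact ((hcont p.1 h1.1 h1.2).comp continuousAt_fst).sub
      ((hcont p.2 h2.1 h2.2).comp continuousAt_snd)
  have him := (hZ.isPreconnected.image _ hgc).ordConnected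
  have hcase : (∀ p ∈ Z, 0.16 ≤ lift p.1 - lift p.2) ∨ (∀ p ∈ Z, lift p.1 - lift p.2 ≤ -0.16) := by
    by_contra hcon
    push Not at hcon
    obtain ⟨⟨p, hp, hp'⟩, ⟨q, hq, hq'⟩⟩ := hcon
    have h1 : lift p.1 - lift p.2 ≤ -0.16 := by
      rcases hg p hp with h | h
      · linarith
      · exact h
    have h2 : 0.16 ≤ lift q.1 - lift q.2 := by
      rcases hg q hq with h | h
      · exact h
      · linarith
    have h3 := him.out ⟨p, hp, rfl⟩ ⟨q, hq, rfl⟩
    have h4 : (0 : ℝ) ∈ Icc (lift p.1 - lift p.2) (lift q.1 - lift q.2) :=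
      ⟨by linarith, by linarith⟩
    obtain ⟨r, hr, hr'⟩ := h3 h4
    have hr'' : lift r.1 - lift r.2 = 0 := hr'
    rcases hg r hr with h | h <;> linarith
  have hne : (lift '' (Prod.fst '' Z)).Nonempty := (hZ.nonempty.image _).image _
  have hbdd : BddAbove (lift '' (Prod.fst '' Z)) :=
    ⟨0.82, by rintro _ ⟨z, hz, rfl⟩; exact (hfst z hz).2⟩
  obtain ⟨_, ⟨z, hz, rfl⟩, hz'⟩ := exists_lt_of_lt_csSup hne
    (show sSup (lift '' (Prod.fst '' Z)) - 0.16 < sSup (lift '' (Prod.fst '' Z)) by linarith)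
  rcases hcase with hc | hc
  · rw [heq] at hz
    obtain ⟨p, hp, rfl⟩ := hz
    have h1 := hc p hp
    have h2 : lift p.1 ≤ sSup (lift '' (Prod.fst '' Z)) := le_csSup hbdd ⟨p.1, ⟨p, hp, rfl⟩, rfl⟩
    linarith
  · obtain ⟨p, hp, rfl⟩ := hz
    have h1 := hc p hp
    have h2 : lift p.2 ≤ sSup (lift '' (Prod.fst '' Z)) :=
      le_csSup hbdd ⟨p.2, by rw [heq]; exact ⟨p, hp, rfl⟩, rfl⟩
    linarith

/-- The span is at most `3/2`. -/
lemma span_le {Z : Set (T × T)} (hZ : IsConnected Z) (heq : Prod.fst '' Z = Prod.snd '' Z)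
    (hd : ∀ p ∈ Z, 1.5 ≤ D p.1 p.2) : False := by
  have hor : ∀ p ∈ Z, Near p.1 p.2 ∨ Near p.2 p.1 := fun p hp => near_or (hd p hp)
  have hneg : ∀ p : T × T, Near p.2 p.1 → φ (p.1 - p.2) < 0 := by
    intro p hp
    obtain ⟨a, b, h1, h2, h3, h4, h5, h6⟩ := hp
    rw [← h1, ← h2]
    have : ((b : T) - (a : T)) = ((-(a - b) : ℝ) : T) := by rw [neg_sub]; rfl
    rw [this, φ_coe, mul_neg, Real.sin_neg, ← φ_coe]
    have h7 : 0 < φ ((a : T) - (b : T)) := φ_near ⟨a, b, rfl, rfl, h3, h4, h5, h6⟩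
    have h8 : ((a - b : ℝ) : T) = (a : T) - (b : T) := rfl
    rw [h8]
    linarith
  have hc : ContinuousOn (fun p : T × T => φ (p.1 - p.2)) Z :=
    (φ_cont.comp (continuous_fst.sub continuous_snd)).continuousOn
  have him := (hZ.isPreconnected.image _ hc).ordConnected
  have hcase : (∀ p ∈ Z, Near p.1 p.2) ∨ (∀ p ∈ Z, Near p.2 p.1) := by
    by_contra hcon
    push Not at hcon
    obtain ⟨⟨p, hp, hp'⟩, ⟨q, hq, hq'⟩⟩ := hcon
    have h1 : φ (p.1 - p.2) < 0 := by
      rcases hor p hp with h | h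
      · exact absurd h hp'
      · exact hneg p h
    have h2 : 0 < φ (q.1 - q.2) := by
      rcases hor q hq with h | h
      · exact φ_near h
      · exact absurd h hq'
    have h3 := him.out ⟨p, hp, rfl⟩ ⟨q, hq, rfl⟩
    obtain ⟨r, hr, hr'⟩ := h3 (show (0 : ℝ) ∈ Icc _ _ from ⟨h1.le, h2.le⟩)
    have hr'' : φ (r.1 - r.2) = 0 := hr'
    rcases hor r hr with h | h
    · have := φ_near h
      linarith
    · have := hneg r h
      linarith
  rcases hcase with h | h
  · exact no_conn hZ heq h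
  · refine no_conn (Z := Prod.swap '' Z) (hZ.image _ continuous_swap.continuousOn) ?_ ?_
    · rw [← image_comp, ← image_comp]
      exact heq.symm
    · rintro _ ⟨p, hp, rfl⟩
      exact h p hp

/-- The negation of the preceding statement: For every simple closed curve C in a metric space, the span of C (sup of ε with a connected Z in C×C, equal projections, all pairs at distance ≥ ε) equals the semi-span (same, second projection contained in first). -/
theorem result :
    ¬ (∀ (X : Type) [MetricSpace X] (C : Set X),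
      Nonempty (↥C ≃ₜ ↥(Metric.sphere (0 : ℂ) 1)) →
      sSup {ε : ℝ | ∃ Z : Set (X × X), Z ⊆ C ×ˢ C ∧ IsConnected Z ∧
          Prod.fst '' Z = Prod.snd '' Z ∧ ∀ p ∈ Z, ε ≤ dist p.1 p.2}
        = sSup {ε : ℝ | ∃ Z : Set (X × X), Z ⊆ C ×ˢ C ∧ IsConnected Z ∧
          Prod.snd '' Z ⊆ Prod.fst '' Z ∧ ∀ p ∈ Z, ε ≤ dist p.1 p.2}) := by
  intro hall
  have e : ↥(univ : Set Crv) ≃ₜ ↥(Metric.sphere (0 : ℂ) 1) :=
    ((Homeomorph.Set.univ Crv).trans crvHomeo).trans
      (AddCircle.homeomorphCircle (T := (1 : ℝ)) one_ne_zero)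
  have h := hall Crv univ ⟨e⟩
  have h1 : sSup {ε : ℝ | ∃ Z : Set (Crv × Crv), Z ⊆ (univ : Set Crv) ×ˢ univ ∧ IsConnected Z ∧
          Prod.fst '' Z = Prod.snd '' Z ∧ ∀ p ∈ Z, ε ≤ dist p.1 p.2} ≤ 1.5 := by
    refine Real.sSup_le ?_ (by norm_num)
    rintro ε ⟨Z, -, hZ, heq, hd⟩
    by_contra hcon
    push Not at hcon
    have hm : Continuous (fun p : Crv × Crv => (p.1.val, p.2.val)) :=
      (val_cont.comp continuous_fst).prodMk (val_cont.comp continuous_snd)
    refine span_le (hZ.image _ hm.continuousOn) ?_ ?_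
    · rw [← image_comp, ← image_comp]
      have : Crv.val '' (Prod.fst '' Z) = Crv.val '' (Prod.snd '' Z) := by rw [heq]
      rw [← image_comp, ← image_comp] at this
      exact this
    · rintro _ ⟨p, hp, rfl⟩
      exact hcon.le.trans (hd p hp)
  have h2 : 2 ≤ sSup {ε : ℝ | ∃ Z : Set (Crv × Crv), Z ⊆ (univ : Set Crv) ×ˢ univ ∧ IsConnected Z ∧
          Prod.snd '' Z ⊆ Prod.fst '' Z ∧ ∀ p ∈ Z, ε ≤ dist p.1 p.2} := by
    apply le_csSup
    · refine ⟨2, ?_⟩
      rintro ε ⟨Z, -, hZ, -, hd⟩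
      obtain ⟨p, hp⟩ := hZ.nonempty
      exact (hd p hp).trans (D_le_two _ _)
    · have hm : Continuous (fun p : T × T => (Crv.mk p.1, Crv.mk p.2)) :=
        (mk_cont.comp continuous_fst).prodMk (mk_cont.comp continuous_snd)
      refine ⟨(fun p : T × T => (Crv.mk p.1, Crv.mk p.2)) '' Z0, fun _ _ => ⟨trivial, trivial⟩,
        Z0_conn.image _ hm.continuousOn, ?_, ?_⟩
      · have : Prod.fst '' ((fun p : T × T => (Crv.mk p.1, Crv.mk p.2)) '' Z0) = univ := by
          rw [eq_univ_iff_forall]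
          rintro ⟨x⟩
          obtain ⟨y, rfl⟩ := QuotientAddGroup.mk_surjective x
          refine ⟨_, ⟨_, ⟨Int.fract (y - 0.2), ⟨Int.fract_nonneg _, (Int.fract_lt_one _).le⟩, rfl⟩,
            rfl⟩, ?_⟩
          show Crv.mk _ = Crv.mk _
          congr 1
          show ((Int.fract (y - 0.2) + 0.2 : ℝ) : T) = (y : T)
          have h3 : Int.fract (y - 0.2) + 0.2 = y - (⌊y - 0.2⌋ : ℝ) := by
            rw [Int.fract]; ring
          rw [h3]
          have h4 : ((y - (⌊y - 0.2⌋ : ℝ) : ℝ) : T) = (y : T) - (((⌊y - 0.2⌋ : ℤ) : ℝ) : T) := rfl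
          have h5 : (((⌊y - 0.2⌋ : ℤ) : ℝ) : T) = 0 := by
            rw [AddCircle.coe_eq_zero_iff]
            exact ⟨⌊y - 0.2⌋, by simp⟩
          rw [h4, h5, sub_zero]
        rw [this]
        exact subset_univ _
      · rintro _ ⟨p, hp, rfl⟩
        show 2 ≤ D p.1 p.2
        have hmem : (p.1, p.2) ∈ K := Or.inl hp
        obtain ⟨θ, hθ, rfl⟩ := hp
        refine le_min ?_ ?_
        · show 2 ≤ 50 * dist ((θ + 0.2 : ℝ) : T) ((0.8 * θ : ℝ) : T)
          by_contra hcon
          push Not at hcon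
          have h3 : dist ((θ + 0.2 : ℝ) : T) ((0.8 * θ : ℝ) : T) < 0.04 := by linarith
          obtain ⟨a, ha, ha'⟩ := exists_real_near h3
          obtain ⟨n, hn⟩ := eq_add_int ha
          rw [abs_lt] at ha'
          rcases lt_trichotomy n 0 with hlt | h0 | hgt
          · have : (n : ℝ) ≤ -1 := by exact_mod_cast (by omega : n ≤ -1)
            linarith [hθ.1, hθ.2, ha'.1]
          · rw [h0] at hn; push_cast at hn; linarith [hθ.1, hθ.2, ha'.2]
          · have : (1 : ℝ) ≤ n := by exact_mod_cast hgt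
            linarith [hθ.1, hθ.2, ha'.2]
        · rw [h_of_mem hmem]; norm_num
  rw [h] at h1
  linarith

end Pool.Agent.S13204
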