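import Pool.Statements.S13210
import Pool.Agent.Q157.BX.D

set_option autoImplicit false
open MeasureTheory
open scoped Pointwise
open Pool Pool.MP_598757_gt

namespace Pool.Agent.S13210

/-- The negation of the preceding statement: For every convex body K in 3-space and real c: if every orthogonal plane projection has isoperimetric ratio π·area/V₁² at least c, then 9π·vol(K)²/(2·V₂(K)³) is at least c (V₁, V₂ given via Steiner-formula limits). -/
theorem result :
    ¬ (∀ (K : Set (EuclideanSpace ℝ (Fin 3))) (c : ℝ),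
    IsCompact K → Convex ℝ K → (interior K).Nonempty →
    (∀ u ∈ Metric.sphere (0 : EuclideanSpace ℝ (Fin 3)) 1, ∀ L : ℝ,
      Filter.Tendsto (fun t : ℝ =>
        ((volume ((fun x : EuclideanSpace ℝ (Fin 3) => x - (inner ℝ u x) • u) '' K
              + Metric.closedBall (0 : EuclideanSpace ℝ (Fin 3)) t)).toReal
          - 2 * t * ((volume (K + segment ℝ (0 : EuclideanSpace ℝ (Fin 3)) u)).toReal
              - (volume K).toReal)) / (Real.pi * t ^ 2))
        (nhdsWithin 0 (Set.Ioi 0)) (nhds L) →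
      c ≤ Real.pi * ((volume (K + segment ℝ (0 : EuclideanSpace ℝ (Fin 3)) u)).toReal
              - (volume K).toReal) / L ^ 2) →
    ∀ S : ℝ,
      Filter.Tendsto (fun t : ℝ =>
        ((volume (K + Metric.closedBall (0 : EuclideanSpace ℝ (Fin 3)) t)).toReal
          - (volume K).toReal) / (2 * t))
        (nhdsWithin 0 (Set.Ioi 0)) (nhds S) →
      c ≤ 9 * Real.pi * (volume K).toReal ^ 2 / (2 * S ^ 3)) := by
  intro hall
  have hh : (0:ℝ) < 1 / 10000 := by norm_num
  have h1 : (1:ℝ) / 10000 ≤ 1 := by norm_num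
  have hpi := Real.pi_gt_three
  have hpi4 := Real.pi_lt_four
  have hvol := Pool.Agent.Q157.BX.vol_bx hh
  have hv : (volume (Pool.Agent.Q157.BX.bx (1 / 10000))).toReal = 1 / 10000 := by
    rw [hvol, ENNReal.toReal_ofReal hh.le]
  have h2 := hall (Pool.Agent.Q157.BX.bx (1 / 10000)) (1 / 10000 / 200)
    (Pool.Agent.Q157.BX.bx_compact h1) (Pool.Agent.Q157.BX.bx_convex _)
    (Pool.Agent.Q157.BX.bx_interior hh) (by
      intro u hu L hL
      have hu' : ‖u‖ = 1 := by simpa using hu
      have h3 := Pool.Agent.Q157.BX.limit (Pool.Agent.Q157.BX.bx_compact h1)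
        (Pool.Agent.Q157.BX.bx_convex _) (Pool.Agent.Q157.BX.bx_sub h1) (by norm_num)
        (by rw [hvol]; simp) hu' hL
      refine le_trans ?_ h3
      rw [hv, div_pow, le_div_iff₀ (by positivity), div_mul_div_comm, mul_comm]
      rw [div_le_iff₀ (by positivity)]
      nlinarith [pow_pos (lt_trans (by norm_num : (0:ℝ) < 3) hpi) 2,
        pow_le_pow_left₀ (by norm_num : (0:ℝ) ≤ 3) hpi.le 3])
    (1 + 2 * (1 / 10000)) (Pool.Agent.Q157.BX.slim hh)
  rw [hv] at h2
  have h5 : 9 * Real.pi * (1 / 10000) ^ 2 / (2 * (1 + 2 * (1 / 10000)) ^ 3) <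
      1 / 10000 / 200 := by
    rw [div_lt_iff₀ (by positivity)]
    nlinarith
  exact absurd h2 (not_le.2 h5)

end Pool.Agent.S13210
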