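import Pool.Statements.S13341
import Pool.Agent.Q145.Nag.D3

set_option autoImplicit false
open Bundle
open scoped Manifold ContDiff
open Pool Pool.MP_6d5819_gt

namespace Pool.Agent.S13341

/-- For every compact simply connected Riemannian manifold whose points all have isometric symmetries with differential minus identity, if some antipodal finite set is larger than the total real Betti number, then some integral homology group has an element of order 2. -/
theorem result :
  ∀ (d : ℕ) (M : Type) [EMetricSpace M]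
    [ChartedSpace (EuclideanSpace ℝ (Fin d)) M]
    [IsManifold (𝓡 d) ∞ M]
    [RiemannianBundle (fun x : M ↦ TangentSpace (𝓡 d) x)]
    [IsContMDiffRiemannianBundle (𝓡 d) ∞ (EuclideanSpace ℝ (Fin d))
      (fun x : M ↦ TangentSpace (𝓡 d) x)]
    [IsRiemannianManifold (𝓡 d) M]
    [CompactSpace M] [SimplyConnectedSpace M]
    (s : M → M → M),
    (∀ x : M, Isometry (s x) ∧ s x x = x ∧
      mfderiv (𝓡 d) (𝓡 d) (s x) x = -ContinuousLinearMap.id ℝ (EuclideanSpace ℝ (Fin d))) →
    (∃ A : Finset M, (∀ x ∈ A, ∀ y ∈ A, s x y = y) ∧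
      (∑ i ∈ Finset.range (d + 1),
        Module.finrank ℝ
          ((((AlgebraicTopology.singularHomologyFunctor (ModuleCat.{0} ℝ) i).obj
            (ModuleCat.of ℝ ℝ)).obj (TopCat.of M) : ModuleCat.{0} ℝ) : Type)) < A.card) →
    ∃ i : ℕ, ∃ g : ((((AlgebraicTopology.singularHomologyFunctor (ModuleCat.{0} ℤ) i).obj
            (ModuleCat.of ℤ ℤ)).obj (TopCat.of M) : ModuleCat.{0} ℤ) : Type),
      addOrderOf g = 2 := by
  intro d M _ _ _ _ _ _ _ _ s hs hA
  obtain ⟨A, hA1, hA2⟩ := hA
  by_contra hno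
  letI mM : MetricSpace M := EMetricSpace.toMetricSpace
    (fun x y => Pool.Agent.Q145.Nag.edist_ne_top x y)
  refine Pool.Agent.Q145.Nag.main_hm (E := EuclideanSpace ℝ (Fin d)) (M := M) s hs A hA1 ?_
    (Pool.Agent.Q145.Nag.no_torsion hno)
  rw [finrank_euclideanSpace_fin]
  refine lt_of_le_of_lt (le_of_eq ?_) hA2
  exact Finset.sum_congr rfl fun i _ => (Pool.Agent.Q145.Nag.finrank_bridge M i).symm

end Pool.Agent.S13341
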