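import Pool.Statements.S13589
import Pool.Agent.Q154.DDCorner

set_option autoImplicit false
open Pool Pool.MP_93ef73_gt

namespace Pool.Agent.S13589

/-- There exist d, a nonempty compact totally disconnected A in R^d with two distinct Steiner trees S, T, no terminal interior to segments in both, and nonempty compact M (∣M∣=∣A∣ if A finite) and r>0 with S an r-minimizer for M. -/
theorem result :
  ∃ (d : ℕ) (A S T M : Set (EuclideanSpace ℝ (Fin d))) (r : ℝ),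
    IsCompact A ∧ A.Nonempty ∧ IsTotallyDisconnected A ∧
    (IsCompact S ∧ IsConnected S ∧ A ⊆ S ∧
      MeasureTheory.Measure.hausdorffMeasure 1 S < ⊤ ∧
      ∀ S' : Set (EuclideanSpace ℝ (Fin d)), IsCompact S' → IsConnected S' → A ⊆ S' →
        MeasureTheory.Measure.hausdorffMeasure 1 S ≤ MeasureTheory.Measure.hausdorffMeasure 1 S') ∧
    (IsCompact T ∧ IsConnected T ∧ A ⊆ T ∧
      MeasureTheory.Measure.hausdorffMeasure 1 T < ⊤ ∧
      ∀ S' : Set (EuclideanSpace ℝ (Fin d)), IsCompact S' → IsConnected S' → A ⊆ S' →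
        MeasureTheory.Measure.hausdorffMeasure 1 T ≤ MeasureTheory.Measure.hausdorffMeasure 1 S') ∧
    S ≠ T ∧
    IsCompact M ∧ M.Nonempty ∧ 0 < r ∧
    (A.Finite → M.Finite ∧ M.ncard = A.ncard) ∧
    (¬ ∃ a ∈ A,
        (∃ x y : EuclideanSpace ℝ (Fin d), x ≠ y ∧ segment ℝ x y ⊆ S ∧ a ∈ openSegment ℝ x y) ∧
        (∃ x y : EuclideanSpace ℝ (Fin d), x ≠ y ∧ segment ℝ x y ⊆ T ∧ a ∈ openSegment ℝ x y)) ∧
    (∀ y ∈ M, Metric.infDist y S ≤ r) ∧
    ∀ W : Set (EuclideanSpace ℝ (Fin d)), IsCompact W → IsConnected W →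
      (∀ y ∈ M, Metric.infDist y W ≤ r) →
        MeasureTheory.Measure.hausdorffMeasure 1 S ≤ MeasureTheory.Measure.hausdorffMeasure 1 W := by
  classical
  have hlt : ∀ {S : Set (EuclideanSpace ℝ (Fin 2))},
      MeasureTheory.Measure.hausdorffMeasure 1 S ≤ ENNReal.ofReal (2 + 2 * √3 + 1 / 20) →
        MeasureTheory.Measure.hausdorffMeasure 1 S < ⊤ := fun h =>
    lt_of_le_of_lt h ENNReal.ofReal_lt_top
  refine ⟨2, Pool.Agent.Q154.DD.AA, Pool.Agent.Q154.DD.TA, Pool.Agent.Q154.DD.TB,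
    Pool.Agent.Q154.DD.MM, 1 / 200, Pool.Agent.Q154.DD.AA_compact, ?_,
    Pool.Agent.Q154.DD.AA_countable.isTotallyDisconnected,
    ⟨Pool.Agent.Q154.DD.TA_compact, Pool.Agent.Q154.DD.TA_conn, Pool.Agent.Q154.DD.AA_TA,
      hlt Pool.Agent.Q154.DD.TA_len, fun S' h1 h2 h3 =>
        Pool.Agent.Q154.DD.TA_len.trans (Pool.Agent.Q154.DD.steiner h1 h2 h3)⟩,
    ⟨Pool.Agent.Q154.DD.TB_compact, Pool.Agent.Q154.DD.TB_conn, Pool.Agent.Q154.DD.AA_TB,
      hlt Pool.Agent.Q154.DD.TB_len, fun S' h1 h2 h3 =>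
        Pool.Agent.Q154.DD.TB_len.trans (Pool.Agent.Q154.DD.steiner h1 h2 h3)⟩,
    Pool.Agent.Q154.DD.TA_ne_TB, Pool.Agent.Q154.DD.MM_compact, ?_, by norm_num,
    fun h => absurd h Pool.Agent.Q154.DD.AA_infinite, ?_, fun y hy => hy, ?_⟩
  · exact ⟨_, Or.inr (Or.inl rfl)⟩
  · obtain ⟨x, hx⟩ := Pool.Agent.Q154.DD.TA_conn.nonempty
    refine ⟨x, ?_⟩
    change Metric.infDist x Pool.Agent.Q154.DD.TA ≤ 1 / 200
    rw [Metric.infDist_zero_of_mem hx]
    norm_num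
  · rintro ⟨a, ha, h1, -⟩
    exact Pool.Agent.Q154.DD.corner_cond a ha h1
  · intro W h1 h2 h3
    exact Pool.Agent.Q154.DD.TA_len.trans (Pool.Agent.Q154.DD.rmin h1 h2 h3)

end Pool.Agent.S13589
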