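import Pool.Statements.S13596

set_option autoImplicit false
open Pool Pool.MP_94b191_gt

namespace Pool.Agent.S13596

open Set Topology Metric Filter unitInterval

/-! ### uniform families of paths -/

/-- a compact continuous family of paths is uniform -/
theorem uniform_of_compact {X Ω : Type} [MetricSpace X] [TopologicalSpace Ω] [CompactSpace Ω]
    {a b : X} (Γ : Ω → Path a b) (h : Continuous ↿Γ) (ε : ℝ) (hε : ε > 0) :
    ∃ n : ℕ, ∀ p ∈ range Γ, ∃ t : Fin (n + 1) → unitInterval,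
      t 0 = 0 ∧ t (Fin.last n) = 1 ∧ StrictMono t ∧
      ∀ i : Fin n, Metric.diam (⇑p '' Set.Icc (t i.castSucc) (t i.succ)) ≤ ε := by
  let g : C(unitInterval, C(Ω, X)) :=
    ContinuousMap.curry ⟨fun q : unitInterval × Ω => Γ q.2 q.1, h.comp continuous_swap⟩
  have hu : UniformContinuous g := CompactSpace.uniformContinuous_of_continuous g.continuous
  obtain ⟨δ, hδ, hg⟩ := Metric.uniformContinuous_iff.1 hu ε hε
  obtain ⟨n, hn⟩ := exists_nat_one_div_lt hδ
  refine ⟨n + 1, ?_⟩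
  rintro _ ⟨ω, rfl⟩
  have hn0 : (0 : ℝ) < (n : ℝ) + 1 := by positivity
  let t : Fin (n + 1 + 1) → unitInterval := fun i =>
    ⟨(i : ℝ) / ((n : ℝ) + 1), by positivity, by
      rw [div_le_one hn0]
      have := i.2
      have h2 : (i : ℕ) ≤ n + 1 := by omega
      exact_mod_cast h2⟩
  refine ⟨t, ?_, ?_, ?_, ?_⟩
  · apply Subtype.ext
    simp [t]
  · apply Subtype.ext
    simp only [t, Fin.val_last, Icc.coe_one]
    push_cast
    exact div_self hn0.ne'
  · intro i j hij
    apply Subtype.mk_lt_mk.2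
    exact div_lt_div_of_pos_right (by exact_mod_cast hij) hn0
  · intro i
    refine Metric.diam_le_of_forall_dist_le hε.le ?_
    rintro _ ⟨s, ⟨hs1, hs2⟩, rfl⟩ _ ⟨s', ⟨hs1', hs2'⟩, rfl⟩
    have e1 : ((t i.castSucc : unitInterval) : ℝ) = (i : ℝ) / ((n : ℝ) + 1) := by simp [t]
    have e2 : ((t i.succ : unitInterval) : ℝ) = (i : ℝ) / ((n : ℝ) + 1) + 1 / ((n : ℝ) + 1) := by
      simp only [t, Fin.val_succ]
      push_cast
      ring
    have a1 : ((t i.castSucc : unitInterval) : ℝ) ≤ s := hs1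
    have a2 : (s : ℝ) ≤ ((t i.succ : unitInterval) : ℝ) := hs2
    have a3 : ((t i.castSucc : unitInterval) : ℝ) ≤ s' := hs1'
    have a4 : (s' : ℝ) ≤ ((t i.succ : unitInterval) : ℝ) := hs2'
    rw [e1] at a1 a3
    rw [e2] at a2 a4
    have hd : dist s s' < δ := by
      rw [Subtype.dist_eq, Real.dist_eq, abs_lt]
      constructor <;> linarith
    have h1 := hg hd
    have h2 : dist (g s ω) (g s' ω) ≤ dist (g s) (g s') := ContinuousMap.dist_apply_le_dist ω
    exact h2.trans h1.le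

/-! ### the continuum -/

/-- the numbers `1/(2k)` and `0` -/
def K2 : Set ℝ := insert 0 (range fun k : ℕ => 1 / (2 * ((k : ℝ) + 1)))

lemma K2_compact : IsCompact K2 := by
  have h : Tendsto (fun k : ℕ => 1 / (2 * ((k : ℝ) + 1))) atTop (𝓝 0) := by
    have h1 := (tendsto_one_div_add_atTop_nhds_zero_nat (𝕜 := ℝ)).const_mul (1 / 2)
    rw [mul_zero] at h1
    refine h1.congr fun k => ?_
    field_simp
  exact h.isCompact_insert_range

lemma K2_bound {κ : ℝ} (h : κ ∈ K2) : 0 ≤ κ ∧ κ ≤ 1 / 2 := by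
  rcases h with rfl | ⟨k, rfl⟩
  · norm_num
  · constructor
    · positivity
    · rw [div_le_div_iff₀ (by positivity) (by norm_num)]
      have : (0 : ℝ) ≤ k := by positivity
      linarith

/-- the parameter space -/
abbrev Om : Type := K2 × Icc (-1 : ℝ) 1 × Icc (0 : ℝ) 2

instance : CompactSpace K2 := isCompact_iff_compactSpace.1 K2_compact

/-- the point of the plane with the given parameters -/
noncomputable def H0 (κ θ w : ℝ) : ℝ × ℝ :=
  (min w 1 - 1 + (1 - Real.cos (Real.pi * (θ * max (w - 1) 0))) / 2,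
    min w 1 * κ + κ / (1 + κ * (θ * max (w - 1) 0)) - κ)

lemma den_pos {κ θ w : ℝ} (hκ : κ ∈ K2) (hθ : θ ∈ Icc (-1 : ℝ) 1) (hw : w ∈ Icc (0 : ℝ) 2) :
    0 < 1 + κ * (θ * max (w - 1) 0) := by
  obtain ⟨h1, h2⟩ := K2_bound hκ
  obtain ⟨h3, h4⟩ := hθ
  obtain ⟨h5, h6⟩ := hw
  have h7 : 0 ≤ max (w - 1) 0 := le_max_right _ _
  have h8 : max (w - 1) 0 ≤ 1 := max_le (by linarith) zero_le_one
  have h9 : -1 ≤ θ * max (w - 1) 0 := by nlinarith
  nlinarith

/-- the point of the plane with the given parameters -/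
noncomputable def H (ω : Om) : ℝ × ℝ := H0 ω.1 ω.2.1 ω.2.2

lemma H_cont : Continuous H := by
  unfold H H0
  refine Continuous.prodMk (by fun_prop) ?_
  refine Continuous.sub (Continuous.add (by fun_prop) ?_) (by fun_prop)
  refine Continuous.div (by fun_prop) (by fun_prop) fun ω => ?_
  exact (den_pos ω.1.2 ω.2.1.2 ω.2.2.2).ne'

/-- the continuum -/
abbrev XS : Type := ↥(range H)

instance : CompactSpace XS := isCompact_iff_compactSpace.1 (isCompact_range H_cont)

/-- the parametrisation -/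
noncomputable def Hx (ω : Om) : XS := ⟨H ω, mem_range_self ω⟩

lemma Hx_cont : Continuous Hx := H_cont.subtype_mk _

lemma Hx_surj : Function.Surjective Hx := by
  rintro ⟨_, ω, rfl⟩
  exact ⟨ω, rfl⟩

/-- scaling of the last parameter -/
def sc (ω : Om) (t : unitInterval) : Om :=
  (ω.1, ω.2.1, ⟨t * ω.2.2, mul_nonneg t.2.1 ω.2.2.2.1, by
    have h1 := t.2.1
    have h2 := t.2.2
    have h3 := ω.2.2.2.1
    have h4 := ω.2.2.2.2
    nlinarith⟩)

lemma sc_cont : Continuous fun p : Om × unitInterval => sc p.1 p.2 := by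
  unfold sc
  fun_prop

lemma sc_one (ω : Om) : sc ω 1 = ω := by
  obtain ⟨κ, θ, w⟩ := ω
  simp [sc]

/-- the cone point -/
noncomputable def cc : XS := Hx (⟨0, Or.inl rfl⟩, ⟨0, by norm_num⟩, ⟨0, by norm_num⟩)

lemma cc_val : (cc : ℝ × ℝ) = (-1, 0) := by
  simp [cc, Hx, H, H0]

lemma Hx_sc_zero (ω : Om) : Hx (sc ω 0) = cc := by
  apply Subtype.ext
  rw [cc_val]
  simp [Hx, H, H0, sc]

/-- the short paths from the cone point -/
noncomputable def sp (ω : Om) : Path cc (Hx ω) where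
  toFun t := Hx (sc ω t)
  continuous_toFun := Hx_cont.comp (sc_cont.comp (Continuous.prodMk_right ω))
  source' := Hx_sc_zero ω
  target' := by rw [sc_one]

lemma sp_cont : Continuous ↿sp := Hx_cont.comp sc_cont

instance : ConnectedSpace XS := by
  have : PathConnectedSpace XS := by
    rw [pathConnectedSpace_iff_univ, isPathConnected_iff_eq]
    refine ⟨cc, trivial, ?_⟩
    rw [eq_univ_iff_forall]
    intro x
    obtain ⟨ω, rfl⟩ := Hx_surj x
    exact ⟨sp ω, fun _ => trivial⟩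
  infer_instance

/-- the continuum is uniformly pathwise connected -/
theorem upc (a b : XS) : ∃ P : Set (Path a b),
    (∀ ε : ℝ, ε > 0 → ∃ n : ℕ, ∀ p ∈ P, ∃ t : Fin (n + 1) → unitInterval,
        t 0 = 0 ∧ t (Fin.last n) = 1 ∧ StrictMono t ∧
        ∀ i : Fin n, Metric.diam (⇑p '' Set.Icc (t i.castSucc) (t i.succ)) ≤ ε) ∧
    (⋃ p ∈ P, Set.range ⇑p) = Set.univ := by
  obtain ⟨ωa, rfl⟩ := Hx_surj a
  obtain ⟨ωb, rfl⟩ := Hx_surj b
  let Γ : Om → Path (Hx ωa) (Hx ωb) := fun ω =>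
    ((sp ωa).symm.trans (sp ω)).trans ((sp ω).symm.trans (sp ωb))
  have hΓ : Continuous ↿Γ := by
    refine Path.trans_continuous_family _ ?_ _ ?_
    · exact Path.trans_continuous_family _ ((sp ωa).symm.continuous.comp continuous_snd) _ sp_cont
    · exact Path.trans_continuous_family _ (Path.symm_continuous_family _ sp_cont) _
        ((sp ωb).continuous.comp continuous_snd)
  refine ⟨range Γ, fun ε hε => uniform_of_compact Γ hΓ ε hε, ?_⟩
  rw [eq_univ_iff_forall]
  intro x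
  obtain ⟨ω, rfl⟩ := Hx_surj x
  simp only [mem_iUnion]
  refine ⟨Γ ω, mem_range_self ω, ?_⟩
  simp only [Γ]
  rw [Path.trans_range]
  left
  rw [Path.trans_range]
  right
  exact ⟨1, (sp ω).target⟩

/-! ### membership -/

lemma half_mem (k : ℕ) : (1 / (2 * ((k : ℝ) + 1)) : ℝ) ∈ K2 := Or.inr ⟨k, rfl⟩

lemma spoke_mem (k : ℕ) (u : ℝ) (hu : u ∈ Icc (0 : ℝ) 1) :
    ((u - 1, u * (1 / (2 * ((k : ℝ) + 1)))) : ℝ × ℝ) ∈ range H := by
  refine ⟨(⟨_, half_mem k⟩, ⟨0, by norm_num⟩, ⟨u, hu.1, hu.2.trans one_le_two⟩), ?_⟩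
  have h1 : min u 1 = u := min_eq_left hu.2
  simp only [H, H0, h1, zero_mul, mul_zero, Real.cos_zero, add_zero, div_one]
  refine Prod.ext ?_ ?_ <;> simp

/-- the points of the zigzag -/
lemma zig_mem (τ : ℝ) (hτ : 1 ≤ τ) :
    (((1 - Real.cos (Real.pi * τ)) / 2, 1 / τ) : ℝ × ℝ) ∈ range H := by
  -- the nearest even integer
  obtain ⟨k, hk⟩ : ∃ k : ℕ, -1 ≤ τ - 2 * ((k : ℝ) + 1) ∧ τ - 2 * ((k : ℝ) + 1) ≤ 1 := by
    refine ⟨⌊(τ - 1) / 2⌋₊, ?_, ?_⟩
    · have := Nat.floor_le (a := (τ - 1) / 2) (by linarith)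
      linarith
    · have := Nat.lt_floor_add_one ((τ - 1) / 2)
      linarith
  set θ : ℝ := τ - 2 * ((k : ℝ) + 1) with hθ
  refine ⟨(⟨_, half_mem k⟩, ⟨θ, hk⟩, ⟨2, by norm_num⟩), ?_⟩
  have h1 : min (2 : ℝ) 1 = 1 := by norm_num
  have h2 : max ((2 : ℝ) - 1) 0 = 1 := by norm_num
  have hk0 : (0 : ℝ) < 2 * ((k : ℝ) + 1) := by positivity
  have hcos : Real.cos (Real.pi * θ) = Real.cos (Real.pi * τ) := by
    have : Real.pi * θ = Real.pi * τ - ((k + 1 : ℕ) : ℝ) * (2 * Real.pi) := by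
      rw [hθ]; push_cast; ring
    rw [this, Real.cos_sub_nat_mul_two_pi]
  simp only [H, H0, h1, h2, mul_one, hcos]
  refine Prod.ext ?_ ?_
  · simp
  · simp only
    have h3 : (1 : ℝ) + 1 / (2 * ((k : ℝ) + 1)) * θ = τ / (2 * ((k : ℝ) + 1)) := by
      rw [hθ]; field_simp; ring
    rw [h3]
    field_simp
    ring

/-! ### levels -/

/-- the level of a point -/
noncomputable def Lev (p : ℝ × ℝ) : ℝ := p.2 / min 1 (1 + p.1)

lemma Lev_cont : ContinuousOn Lev {p | -1 < p.1} := by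
  unfold Lev
  refine ContinuousOn.div (by fun_prop) (by fun_prop) ?_
  intro p hp
  have hp' : -1 < p.1 := hp
  exact (lt_min one_pos (by linarith)).ne'

/-- the first coordinate of points other than the cone point -/
lemma fst_gt {p : XS} (hp : p ≠ cc) : -1 < (p : ℝ × ℝ).1 := by
  obtain ⟨⟨κ, θ, w⟩, rfl⟩ := Hx_surj p
  obtain ⟨κ, hκ⟩ := κ
  obtain ⟨θ, hθ⟩ := θ
  obtain ⟨w, hw⟩ := w
  by_contra hcon
  apply hp
  have h1 := Real.cos_le_one (Real.pi * (θ * max (w - 1) 0))
  have h2 : (0 : ℝ) ≤ min w 1 := le_min hw.1 zero_le_one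
  have h3 : min w 1 = 0 := by
    simp only [Hx, H, H0, not_lt] at hcon
    linarith
  have h4 : w = 0 := by
    rcases le_total w 1 with h | h
    · rwa [min_eq_left h] at h3
    · rw [min_eq_right h] at h3; norm_num at h3
  subst h4
  apply Subtype.ext
  rw [cc_val]
  simp [Hx, H, H0]

/-- the crossing points at the critical levels -/
lemma level_point {p : XS} (hp : -1 < (p : ℝ × ℝ).1) (m : ℕ)
    (hm : Lev p = 1 / ((m : ℝ) + 1 / 3)) :
    (p : ℝ × ℝ).1 = (1 - Real.cos (Real.pi * ((m : ℝ) + 1 / 3))) / 2 := by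
  obtain ⟨⟨κ, θ, w⟩, rfl⟩ := Hx_surj p
  obtain ⟨κ, hκ⟩ := κ
  obtain ⟨θ, hθ⟩ := θ
  obtain ⟨w, hw⟩ := w
  have hm0 : (0 : ℝ) < (m : ℝ) + 1 / 3 := by positivity
  have hden := den_pos hκ hθ hw
  rcases le_total w 1 with hw1 | hw1
  · exfalso
    have h1 : min w 1 = w := min_eq_left hw1
    have h2 : max (w - 1) 0 = 0 := max_eq_right (by linarith)
    simp only [Hx, H, H0, h1, h2, mul_zero, Real.cos_zero, add_zero, div_one, Lev] at hp hm
    have hw0 : 0 < w := by linarith
    have h3 : min 1 (1 + (w - 1 + (1 - 1) / 2)) = w := by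
      rw [min_eq_right] <;> linarith
    rw [h3, add_sub_cancel_right, mul_div_assoc, mul_comm, div_mul_cancel₀ _ hw0.ne'] at hm
    rcases hκ with rfl | ⟨k, rfl⟩
    · have : 0 < 1 / ((m : ℝ) + 1 / 3) := by positivity
      linarith
    · simp only [one_div] at hm
      have h4 := inv_injective hm
      have h5 : (6 : ℝ) * ((k : ℝ) + 1) = 3 * m + 1 := by linarith
      have h6 : 6 * (k + 1) = 3 * m + 1 := by exact_mod_cast h5
      omega
  · have h1 : min w 1 = 1 := min_eq_right hw1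
    set r : ℝ := θ * max (w - 1) 0 with hr
    have hcos := Real.cos_le_one (Real.pi * r)
    simp only [Hx, H, H0, h1, ← hr, Lev] at hp hm hden ⊢
    have h3 : min 1 (1 + (1 - 1 + (1 - Real.cos (Real.pi * r)) / 2)) = 1 := by
      rw [min_eq_left]; linarith
    rw [h3, div_one] at hm
    have hm' : κ / (1 + κ * r) = 1 / ((m : ℝ) + 1 / 3) := by linarith
    rcases hκ with rfl | ⟨k, rfl⟩
    · exfalso
      rw [zero_div] at hm'
      have : 0 < 1 / ((m : ℝ) + 1 / 3) := by positivity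
      linarith
    · have h5 : r = (m : ℝ) + 1 / 3 - 2 * ((k : ℝ) + 1) := by
        rw [div_eq_div_iff hden.ne' hm0.ne'] at hm'
        field_simp at hm'
        linarith
      have h6 : Real.cos (Real.pi * r) = Real.cos (Real.pi * ((m : ℝ) + 1 / 3)) := by
        have : Real.pi * r = Real.pi * ((m : ℝ) + 1 / 3) - ((k + 1 : ℕ) : ℝ) * (2 * Real.pi) := by
          rw [h5]; push_cast; ring
        rw [this, Real.cos_sub_nat_mul_two_pi]
      rw [h6]
      ring

/-- consecutive crossing points are far apart -/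
lemma cross_far (m : ℕ) :
    1 / 2 ≤ |(1 - Real.cos (Real.pi * (((m + 1 : ℕ) : ℝ) + 1 / 3))) / 2 -
      (1 - Real.cos (Real.pi * ((m : ℝ) + 1 / 3))) / 2| := by
  have h1 : Real.pi * (((m + 1 : ℕ) : ℝ) + 1 / 3) = Real.pi * ((m : ℝ) + 1 / 3) + Real.pi := by
    push_cast; ring
  have h2 : Real.pi * ((m : ℝ) + 1 / 3) = Real.pi / 3 + m * Real.pi := by ring
  rw [h1, Real.cos_add_pi, h2, Real.cos_add_nat_mul_pi, Real.cos_pi_div_three]
  have h3 : ((1 - -((-1 : ℝ) ^ m * (1 / 2))) / 2 - (1 - (-1) ^ m * (1 / 2)) / 2) =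
      (-1) ^ m * (1 / 2) := by ring
  rw [h3, abs_mul, abs_pow, abs_neg, abs_one, one_pow, one_mul]
  norm_num

/-! ### arcs through the left vertices of the zigzag -/

/-- the end point of the zigzag -/
noncomputable def bb : XS := ⟨((1 - Real.cos (Real.pi * 1)) / 2, 1 / 1), zig_mem 1 le_rfl⟩

lemma bb_val : (bb : ℝ × ℝ) = (1, 1) := by
  simp only [bb, mul_one, Real.cos_pi]
  norm_num

/-- the left vertices -/
noncomputable def zn (k : ℕ) : XS :=
  ⟨((1 : ℝ) - 1, 1 * (1 / (2 * ((k : ℝ) + 1)))), spoke_mem k 1 (by norm_num)⟩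

lemma zn_val (k : ℕ) : (zn k : ℝ × ℝ) = (0, 1 / (2 * ((k : ℝ) + 1))) := by
  simp [zn]

/-- the arc through the `k`-th left vertex -/
noncomputable def q0 (k : ℕ) (t : ℝ) : ℝ × ℝ :=
  (min (2 * t) 1 - 1 + (1 - Real.cos (Real.pi * (1 / (1 / (2 * ((k : ℝ) + 1)) +
      max (2 * t - 1) 0 * (1 - 1 / (2 * ((k : ℝ) + 1))))))) / 2,
    min (2 * t) 1 * (1 / (2 * ((k : ℝ) + 1))) +
      max (2 * t - 1) 0 * (1 - 1 / (2 * ((k : ℝ) + 1))))

lemma kap (k : ℕ) : 0 < (1 / (2 * ((k : ℝ) + 1)) : ℝ) ∧ (1 / (2 * ((k : ℝ) + 1)) : ℝ) ≤ 1 / 2 := by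
  constructor
  · positivity
  · exact (K2_bound (half_mem k)).2

lemma cosk (k : ℕ) : Real.cos (Real.pi * (2 * ((k : ℝ) + 1))) = 1 := by
  have : Real.pi * (2 * ((k : ℝ) + 1)) = ((k + 1 : ℕ) : ℝ) * (2 * Real.pi) := by
    push_cast; ring
  rw [this, Real.cos_nat_mul_two_pi]

lemma q0_mem (k : ℕ) (t : ℝ) (ht : t ∈ Icc (0 : ℝ) 1) : q0 k t ∈ range H := by
  obtain ⟨h1, h2⟩ := kap k
  rcases le_total t (1 / 2) with h | h
  · have h3 : min (2 * t) 1 = 2 * t := min_eq_left (by linarith)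
    have h4 : max (2 * t - 1) 0 = 0 := max_eq_right (by linarith)
    have := spoke_mem k (2 * t) ⟨by linarith [ht.1], by linarith⟩
    convert this using 1
    simp only [q0, h3, h4, zero_mul, add_zero]
    norm_num [cosk]
  · have h3 : min (2 * t) 1 = 1 := min_eq_right (by linarith)
    have h4 : max (2 * t - 1) 0 = 2 * t - 1 := max_eq_left (by linarith)
    set y : ℝ := 1 / (2 * ((k : ℝ) + 1)) + (2 * t - 1) * (1 - 1 / (2 * ((k : ℝ) + 1))) with hy
    have hy0 : 0 < y := by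
      have : 0 ≤ (2 * t - 1) * (1 - 1 / (2 * ((k : ℝ) + 1))) :=
        mul_nonneg (by linarith) (by linarith)
      linarith
    have hy1 : y ≤ 1 := by
      have : (2 * t - 1) * (1 - 1 / (2 * ((k : ℝ) + 1))) ≤ 1 * (1 - 1 / (2 * ((k : ℝ) + 1))) :=
        mul_le_mul_of_nonneg_right (by linarith [ht.2]) (by linarith)
      linarith
    have := zig_mem (1 / y) (by rw [le_div_iff₀ hy0]; linarith)
    convert this using 1
    simp only [q0, h3, h4, one_mul, ← hy, one_div_one_div]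
    refine Prod.ext ?_ ?_
    · simp
    · simp

lemma q0_den (k : ℕ) (t : ℝ) : 0 < 1 / (2 * ((k : ℝ) + 1)) +
      max (2 * t - 1) 0 * (1 - 1 / (2 * ((k : ℝ) + 1))) := by
  obtain ⟨h1, h2⟩ := kap k
  have : 0 ≤ max (2 * t - 1) 0 * (1 - 1 / (2 * ((k : ℝ) + 1))) :=
    mul_nonneg (le_max_right _ _) (by linarith)
  linarith

lemma q0_cont (k : ℕ) : Continuous fun t : unitInterval => q0 k t := by
  unfold q0
  refine Continuous.prodMk ?_ (by fun_prop)
  refine Continuous.add (by fun_prop) ?_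
  refine Continuous.div_const ?_ _
  refine continuous_const.sub ?_
  refine Real.continuous_cos.comp ?_
  refine continuous_const.mul ?_
  refine Continuous.div continuous_const (by fun_prop) fun t => ?_
  exact (q0_den k t).ne'

/-- the arc through the `k`-th left vertex -/
noncomputable def qp (k : ℕ) : Path cc bb where
  toFun t := ⟨q0 k t, q0_mem k t t.2⟩
  continuous_toFun := (q0_cont k).subtype_mk _
  source' := by
    apply Subtype.ext
    rw [cc_val]
    have h3 : min (2 * (0 : ℝ)) 1 = 0 := by norm_num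
    have h4 : max (2 * (0 : ℝ) - 1) 0 = 0 := by norm_num
    simp only [q0, Icc.coe_zero, h3, h4, zero_mul, add_zero]
    norm_num [cosk]
  target' := by
    apply Subtype.ext
    rw [bb_val]
    have h3 : min (2 * (1 : ℝ)) 1 = 1 := by norm_num
    have h4 : max (2 * (1 : ℝ) - 1) 0 = 1 := by norm_num
    simp only [q0, Icc.coe_one, h3, h4, one_mul]
    rw [add_sub_cancel, div_one, mul_one, Real.cos_pi]
    norm_num

lemma qp_inj (k : ℕ) : Function.Injective (qp k) := by
  obtain ⟨h1, h2⟩ := kap k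
  have hmono : StrictMono fun t : unitInterval => (q0 k t).2 := by
    intro s t hst
    have hst' : (s : ℝ) < t := hst
    simp only [q0]
    have m1 : min (2 * (s : ℝ)) 1 ≤ min (2 * (t : ℝ)) 1 := min_le_min_right _ (by linarith)
    have m2 : max (2 * (s : ℝ) - 1) 0 ≤ max (2 * (t : ℝ) - 1) 0 := max_le_max_right _ (by linarith)
    rcases lt_or_ge (s : ℝ) (1 / 2) with h | h
    · have m3 : min (2 * (s : ℝ)) 1 < min (2 * (t : ℝ)) 1 := by
        rw [min_eq_left (by linarith : 2 * (s : ℝ) ≤ 1)]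
        exact lt_min (by linarith) (by linarith)
      have := mul_lt_mul_of_pos_right m3 h1
      have := mul_le_mul_of_nonneg_right m2
        (by linarith : (0 : ℝ) ≤ 1 - 1 / (2 * ((k : ℝ) + 1)))
      linarith
    · have m3 : max (2 * (s : ℝ) - 1) 0 < max (2 * (t : ℝ) - 1) 0 := by
        rw [max_eq_left (by linarith : (0 : ℝ) ≤ 2 * (s : ℝ) - 1),
          max_eq_left (by linarith : (0 : ℝ) ≤ 2 * (t : ℝ) - 1)]
        linarith
      have := mul_le_mul_of_nonneg_right m1 h1.le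
      have := mul_lt_mul_of_pos_right m3
        (by linarith : (0 : ℝ) < 1 - 1 / (2 * ((k : ℝ) + 1)))
      linarith
  intro s t hst
  exact hmono.injective (congrArg (fun x : XS => (x : ℝ × ℝ).2) hst)

lemma zn_mem_qp (k : ℕ) : zn k ∈ range (qp k) := by
  refine ⟨⟨1 / 2, by norm_num, by norm_num⟩, ?_⟩
  apply Subtype.ext
  rw [zn_val]
  change q0 k (1 / 2) = _
  have h3 : min (2 * (1 / 2 : ℝ)) 1 = 1 := by norm_num
  have h4 : max (2 * (1 / 2 : ℝ) - 1) 0 = 0 := by norm_num
  simp only [q0, h3, h4, zero_mul, add_zero, one_mul]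
  norm_num [cosk]

/-- every time lies in a piece of the partition -/
lemma piece {N : ℕ} (t : Fin (N + 1) → unitInterval) (h0 : t 0 = 0) (h1 : t (Fin.last N) = 1)
    (s : unitInterval) : ∃ i : Fin N, s ∈ Icc (t i.castSucc) (t i.succ) := by
  by_contra hcon
  push Not at hcon
  rcases eq_or_ne s 0 with rfl | hs
  · rcases Nat.eq_zero_or_pos N with rfl | hN
    · have : (0 : unitInterval) = 1 := h0.symm.trans h1
      exact zero_ne_one this
    · apply hcon ⟨0, hN⟩
      have : (⟨0, hN⟩ : Fin N).castSucc = 0 := rfl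
      rw [this, h0]
      exact ⟨le_rfl, unitInterval.nonneg'⟩
  · have key : ∀ i : Fin (N + 1), t i < s := by
      intro i
      induction i using Fin.induction with
      | zero => rw [h0]; exact unitInterval.pos_iff_ne_zero.2 hs
      | succ i ih =>
        by_contra h
        exact hcon i ⟨ih.le, not_lt.1 h⟩
    have := key (Fin.last N)
    rw [h1] at this
    exact absurd this (not_lt.2 unitInterval.le_one')

/-- arcs through the `N`-th left vertex need more than `N` small pieces -/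
theorem long_arc (N : ℕ) (p : Path cc bb) (hp : Function.Injective p) (s0 : unitInterval)
    (hs0 : p s0 = zn N) (t : Fin (N + 1) → unitInterval) (h0 : t 0 = 0)
    (h1 : t (Fin.last N) = 1)
    (hd : ∀ i : Fin N, Metric.diam (⇑p '' Set.Icc (t i.castSucc) (t i.succ)) ≤ 1 / 4) : False := by
  have hzc : zn N ≠ cc := by
    intro h
    have := congrArg (fun x : XS => (x : ℝ × ℝ).1) h
    simp only [zn_val, cc_val] at this
    norm_num at this
  have hs0' : s0 ≠ 0 := by
    rintro rfl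
    exact hzc (hs0.symm.trans p.source)
  have hpc : ∀ s ∈ Icc s0 (1 : unitInterval), p s ≠ cc := by
    intro s hs h
    have : s = 0 := hp (h.trans p.source.symm)
    subst this
    exact hs0' (le_antisymm hs.1 unitInterval.nonneg')
  set f : unitInterval → ℝ := fun s => Lev (p s) with hf
  have hfc : ContinuousOn f (Icc s0 1) := by
    refine Lev_cont.comp (continuous_subtype_val.comp p.continuous).continuousOn ?_
    intro s hs
    exact fst_gt (hpc s hs)
  have hf0 : f s0 = 1 / (2 * ((N : ℝ) + 1)) := by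
    simp only [hf, hs0, zn_val, Lev]
    norm_num
  have hf1 : f 1 = 1 := by
    simp only [hf, p.target, bb_val, Lev]
    norm_num
  have hs1 : s0 ≤ 1 := unitInterval.le_one'
  have hlev : ∀ j : Fin (2 * N + 1), ∃ s ∈ Icc s0 (1 : unitInterval),
      f s = 1 / (((j : ℕ) + 1 : ℕ) + 1 / 3 : ℝ) := by
    intro j
    have hj : (((j : ℕ) + 1 : ℕ) : ℝ) ≤ 2 * N + 1 := by
      have := j.2
      exact_mod_cast (by omega : (j : ℕ) + 1 ≤ 2 * N + 1)
    have hj' : (1 : ℝ) ≤ (((j : ℕ) + 1 : ℕ) : ℝ) := by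
      exact_mod_cast (by omega : 1 ≤ (j : ℕ) + 1)
    have := intermediate_value_Icc hs1 hfc
    rw [hf0, hf1] at this
    obtain ⟨s, hs, hs'⟩ := this (show (1 / (((j : ℕ) + 1 : ℕ) + 1 / 3 : ℝ)) ∈ _ from
      ⟨one_div_le_one_div_of_le (by linarith) (by linarith), by
        rw [div_le_one (by linarith)]; linarith⟩)
    exact ⟨s, hs, hs'⟩
  choose s hs hs' using hlev
  choose i hi using fun j => piece t h0 h1 (s j)
  have hinj : ∀ j j' : Fin (2 * N + 1), j < j' → i j ≠ i j' := by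
    intro j j' hjj hij
    have hpre : IsPreconnected (Icc (t (i j).castSucc) (t (i j).succ) ∩ Icc s0 1) := by
      rw [Icc_inter_Icc]
      exact isPreconnected_Icc
    have hj2 : s j' ∈ Icc (t (i j).castSucc) (t (i j).succ) := by rw [hij]; exact hi j'
    have hiv := hpre.intermediate_value ⟨hj2, hs j'⟩ ⟨hi j, hs j⟩
      (hfc.mono inter_subset_right)
    rw [hs', hs'] at hiv
    have hlt : (j : ℕ) + 1 ≤ j' := hjj
    have hlt' : (((j : ℕ) + 1 : ℕ) : ℝ) + 1 ≤ (((j' : ℕ) + 1 : ℕ) : ℝ) := by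
      exact_mod_cast (by omega : (j : ℕ) + 1 + 1 ≤ (j' : ℕ) + 1)
    obtain ⟨r, ⟨hr1, hr2⟩, hr3⟩ := hiv (show (1 / ((((j : ℕ) + 1 + 1 : ℕ) : ℝ) + 1 / 3)) ∈ _ from
      ⟨one_div_le_one_div_of_le (by positivity) (by push_cast at hlt' ⊢; linarith),
        one_div_le_one_div_of_le (by positivity) (by push_cast; linarith)⟩)
    have e1 := level_point (fst_gt (hpc _ (hs j))) ((j : ℕ) + 1) (hs' j)
    have e2 := level_point (fst_gt (hpc _ hr2)) ((j : ℕ) + 1 + 1) hr3
    have hfar := cross_far ((j : ℕ) + 1)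
    rw [← e1, ← e2] at hfar
    have hdist : dist (p r) (p (s j)) ≤ 1 / 4 :=
      (Metric.dist_le_diam_of_mem (isCompact_univ.isBounded.subset (subset_univ _))
        (mem_image_of_mem _ hr1) (mem_image_of_mem _ (hi j))).trans (hd (i j))
    have h2 : |((p r : XS) : ℝ × ℝ).1 - ((p (s j) : XS) : ℝ × ℝ).1| ≤ dist (p r) (p (s j)) := by
      rw [Subtype.dist_eq, Prod.dist_eq, Real.dist_eq]
      exact le_max_left _ _
    linarith
  have hinj' : Function.Injective i := by
    intro j j' h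
    rcases lt_trichotomy j j' with h' | h' | h'
    · exact absurd h (hinj j j' h')
    · exact h'
    · exact absurd h.symm (hinj j' j h')
  have := Fintype.card_le_of_injective i hinj'
  simp only [Fintype.card_fin] at this
  omega

/-- The negation of the preceding statement: Every continuum in which any two points are joined by a uniform family of paths covering the space has, for any two points, a uniform family of arcs between them covering the union of all arcs joining them. -/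
theorem result :
    ¬ (∀ (X : Type) [MetricSpace X] [CompactSpace X] [ConnectedSpace X],
      (∀ a b : X, ∃ P : Set (Path a b),
          (∀ ε : ℝ, ε > 0 → ∃ n : ℕ, ∀ p ∈ P, ∃ t : Fin (n + 1) → unitInterval,
              t 0 = 0 ∧ t (Fin.last n) = 1 ∧ StrictMono t ∧
              ∀ i : Fin n, Metric.diam (⇑p '' Set.Icc (t i.castSucc) (t i.succ)) ≤ ε) ∧
          (⋃ p ∈ P, Set.range ⇑p) = Set.univ) →
      (∀ a b : X, ∃ P : Set (Path a b),
          (∀ p ∈ P, Function.Injective ⇑p) ∧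
          (∀ ε : ℝ, ε > 0 → ∃ n : ℕ, ∀ p ∈ P, ∃ t : Fin (n + 1) → unitInterval,
              t 0 = 0 ∧ t (Fin.last n) = 1 ∧ StrictMono t ∧
              ∀ i : Fin n, Metric.diam (⇑p '' Set.Icc (t i.castSucc) (t i.succ)) ≤ ε) ∧
          (⋃ p ∈ P, Set.range ⇑p) =
            ⋃ (q : Path a b) (_ : Function.Injective ⇑q), Set.range ⇑q)) := by
  intro h
  obtain ⟨P, hinj, hunif, hun⟩ := h XS upc cc bb
  obtain ⟨N, hN⟩ := hunif (1 / 4) (by norm_num)
  have hz : zn N ∈ ⋃ p ∈ P, Set.range ⇑p := by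
    rw [hun]
    simp only [mem_iUnion]
    exact ⟨qp N, qp_inj N, zn_mem_qp N⟩
  simp only [mem_iUnion] at hz
  obtain ⟨p, hp, s0, hs0⟩ := hz
  obtain ⟨t, h0, h1, -, hd⟩ := hN p hp
  exact long_arc N p (hinj p hp) s0 hs0 t h0 h1 hd

end Pool.Agent.S13596
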