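import Pool.Statements.S13599
import Pool.Agent.Q155.Mel.Ell

set_option autoImplicit false
open Pool Pool.MP_94e842_gt

namespace Pool.Agent.S13599

/-- Any planar convex body whose boundary has the transitivity property is an ellipse. Transitivity: string construction at length ℓ1, then at any ℓ2 above the new perimeter, equals a single string construction at some ℓ3. -/
theorem result :
    ∀ K : Set (EuclideanSpace ℝ (Fin 2)), IsCompact K → Convex ℝ K → (interior K).Nonempty →
      (∀ ℓ1 : ℝ, (MeasureTheory.Measure.hausdorffMeasure 1 (frontier K)).toReal < ℓ1 →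
        ∀ ℓ2 : ℝ,
          (MeasureTheory.Measure.hausdorffMeasure 1
              (frontier {x : EuclideanSpace ℝ (Fin 2) |
                (MeasureTheory.Measure.hausdorffMeasure 1
                  (frontier (convexHull ℝ (insert x K)))).toReal ≤ ℓ1})).toReal < ℓ2 →
          ∃ ℓ3 : ℝ,
            {y : EuclideanSpace ℝ (Fin 2) |
              (MeasureTheory.Measure.hausdorffMeasure 1
                (frontier (convexHull ℝ (insert y
                  {x : EuclideanSpace ℝ (Fin 2) |
                    (MeasureTheory.Measure.hausdorffMeasure 1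
                      (frontier (convexHull ℝ (insert x K)))).toReal ≤ ℓ1})))).toReal = ℓ2}
            = {y : EuclideanSpace ℝ (Fin 2) |
              (MeasureTheory.Measure.hausdorffMeasure 1
                (frontier (convexHull ℝ (insert y K)))).toReal = ℓ3}) →
      ∃ f : EuclideanSpace ℝ (Fin 2) ≃ᵃ[ℝ] EuclideanSpace ℝ (Fin 2),
        K = f '' Metric.closedBall 0 1 := by
  intro K hcpt hcvx hint htr
  have hK : Pool.Agent.Y508.Body K := ⟨hcpt, hcvx, hint⟩
  have hper : (MeasureTheory.Measure.hausdorffMeasure 1 (frontier K)).toReal =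
      Pool.Agent.Y508.W K := Pool.Agent.Y508.perim_eq hK
  have hset : ∀ ℓ1 : ℝ, {x : EuclideanSpace ℝ (Fin 2) |
      (MeasureTheory.Measure.hausdorffMeasure 1
        (frontier (convexHull ℝ (insert x K)))).toReal ≤ ℓ1} = Pool.Agent.Q155.Mel.KK K ℓ1 := by
    intro ℓ1
    ext x
    change (MeasureTheory.Measure.hausdorffMeasure 1
        (frontier (convexHull ℝ (insert x K)))).toReal ≤ ℓ1 ↔
      Pool.Agent.Q155.Mel.LL (Pool.Agent.Y508.hs K) x ≤ ℓ1
    rw [Pool.Agent.Q155.Mel.perim_hull hK x]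
  have hrel : ∀ ℓ, Pool.Agent.Y508.W K < ℓ → Pool.Agent.Q155.Mel.Rel (Pool.Agent.Y508.hs K)
      (Pool.Agent.Y508.hs (Pool.Agent.Q155.Mel.KK K ℓ))
      (Pool.Agent.Y508.W (Pool.Agent.Q155.Mel.KK K ℓ)) := by
    intro ℓ hℓ P P' hw hPP
    have hK1 := Pool.Agent.Q155.Mel.KK_body hK hℓ.le
    have h1 := htr ℓ (by rw [hper]; exact hℓ)
      (Pool.Agent.Q155.Mel.LL (Pool.Agent.Y508.hs (Pool.Agent.Q155.Mel.KK K ℓ)) P) (by
        rw [hset ℓ]
        have := Pool.Agent.Y508.perim_eq hK1
        exact lt_of_eq_of_lt this hw)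
    obtain ⟨ℓ3, h3⟩ := h1
    rw [hset ℓ] at h3
    have hmem : ∀ Q : EuclideanSpace ℝ (Fin 2),
        Pool.Agent.Q155.Mel.LL (Pool.Agent.Y508.hs (Pool.Agent.Q155.Mel.KK K ℓ)) Q =
          Pool.Agent.Q155.Mel.LL (Pool.Agent.Y508.hs (Pool.Agent.Q155.Mel.KK K ℓ)) P ↔
        Pool.Agent.Q155.Mel.LL (Pool.Agent.Y508.hs K) Q = ℓ3 := by
      intro Q
      have h4 := Set.ext_iff.1 h3 Q
      change (MeasureTheory.Measure.hausdorffMeasure 1
          (frontier (convexHull ℝ (insert Q (Pool.Agent.Q155.Mel.KK K ℓ))))).toReal =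
          Pool.Agent.Q155.Mel.LL (Pool.Agent.Y508.hs (Pool.Agent.Q155.Mel.KK K ℓ)) P ↔
        (MeasureTheory.Measure.hausdorffMeasure 1
          (frontier (convexHull ℝ (insert Q K)))).toReal = ℓ3 at h4
      rw [Pool.Agent.Q155.Mel.perim_hull hK1 Q, Pool.Agent.Q155.Mel.perim_hull hK Q] at h4
      exact h4
    have h5 := (hmem P).1 rfl
    exact (hmem P').2 (hPP.trans h5)
  obtain ⟨x0, hpos, hfour, hperi⟩ := Pool.Agent.Q155.Mel.trig_of_rel hK hrel
  have hcont : Continuous (fun θ => (Pool.Agent.Y508.hs K θ - Pool.Agent.Y508.ip x0 θ) ^ 2) := by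
    have h1 := Pool.Agent.Y508.cont_hs hK.cpt
    have h2 := Pool.Agent.Y508.cont_ip x0
    fun_prop
  obtain ⟨a, b, c, hq⟩ := Pool.Agent.Q155.Mel.trig_of_fourier hcont (by
    intro θ
    have := hperi θ
    simp only at this ⊢
    rw [this]) hfour
  exact Pool.Agent.Q155.Mel.ellipse_of_trig hK x0 hpos hq

end Pool.Agent.S13599
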