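import Pool.Statements.S13710

set_option autoImplicit false
open Pool Pool.MP_a6a8af_gt

namespace Pool.Agent.S13710

open Set Metric Topology

/-- The quotient by a free involution is a local homeomorphism. -/
lemma localHomeo_of_involution {X Y : Type} [TopologicalSpace X] [TopologicalSpace Y]
    [CompactSpace X] [T2Space X] [T2Space Y] (f : X → Y) (hf : Continuous f)
    (hsurj : Function.Surjective f) (σ : X → X) (hσ : Continuous σ) (hfree : ∀ x, σ x ≠ x)
    (hinv : ∀ x, σ (σ x) = x) (hfib : ∀ x y, f x = f y ↔ y = x ∨ y = σ x) :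
    IsLocalHomeomorph f := by
  have hq : IsQuotientMap f := hf.isClosedMap.isQuotientMap hf hsurj
  have hopen : IsOpenMap f := by
    intro U hU
    rw [← hq.isOpen_preimage]
    have : f ⁻¹' (f '' U) = U ∪ σ ⁻¹' U := by
      ext x
      constructor
      · rintro ⟨y, hy, hyx⟩
        rcases (hfib y x).1 hyx with h | h
        · left; rw [h]; exact hy
        · right
          show σ x ∈ U
          rw [h, hinv]; exact hy
      · rintro (h | h)
        · exact ⟨x, h, rfl⟩
        · exact ⟨σ x, h, ((hfib x (σ x)).2 (Or.inr rfl)).symm⟩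
    rw [this]
    exact hU.union (hU.preimage hσ)
  rw [isLocalHomeomorph_iff_isOpenEmbedding_restrict]
  intro x
  obtain ⟨U, V, hU, hV, hxU, hxV, hUV⟩ := t2_separation (hfree x).symm
  have hW : IsOpen (U ∩ σ ⁻¹' V) := hU.inter (hV.preimage hσ)
  refine ⟨U ∩ σ ⁻¹' V, hW.mem_nhds ⟨hxU, hxV⟩, ?_⟩
  refine IsOpenEmbedding.of_continuous_injective_isOpenMap (hf.comp continuous_subtype_val) ?_ ?_
  · rintro ⟨a, ha⟩ ⟨b, hb⟩ hab
    have hab : f a = f b := hab
    rcases (hfib a b).1 hab with h | h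
    · exact Subtype.ext h.symm
    · exfalso
      have h1 : b ∈ V := by rw [h]; exact ha.2
      exact (Set.disjoint_left.1 hUV) hb.1 h1
  · exact hopen.comp hW.isOpenMap_subtype_val

/-- A continuous function with values in `2πℤ` on a preconnected set is constant. -/
lemma const_of_int {T : Type} [TopologicalSpace T] {S : Set T} (hS : IsPreconnected S)
    {g : T → ℝ} (hg : ContinuousOn g S) (h : ∀ x ∈ S, ∃ n : ℤ, g x = n * (2 * Real.pi))
    {x y : T} (hx : x ∈ S) (hy : y ∈ S) : g x = g y := by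
  have hoc := (hS.image _ hg).ordConnected
  have key : ∀ x ∈ S, ∀ y ∈ S, ¬ g x < g y := by
    intro x hx y hy hlt
    obtain ⟨n, hn⟩ := h x hx
    obtain ⟨m, hm⟩ := h y hy
    have hpi := Real.pi_pos
    have hnm : (n : ℝ) < m := by
      rw [hn, hm] at hlt
      exact lt_of_mul_lt_mul_right hlt (by positivity)
    have hnm' : n + 1 ≤ m := by exact_mod_cast hnm
    have hnm'' : (n : ℝ) + 1 ≤ m := by exact_mod_cast hnm'
    have hmem : g x + Real.pi ∈ Icc (g x) (g y) := by
      refine ⟨by linarith, ?_⟩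
      rw [hn, hm]
      nlinarith
    obtain ⟨z, hz, hz'⟩ := hoc.out ⟨x, hx, rfl⟩ ⟨y, hy, rfl⟩ hmem
    obtain ⟨k, hk⟩ := h z hz
    rw [hk, hn] at hz'
    have h1 : ((k : ℝ) - n) * 2 = 1 := by
      have h2 : (((k : ℝ) - n) * 2 - 1) * Real.pi = 0 := by linarith
      rcases mul_eq_zero.1 h2 with h3 | h3
      · linarith
      · exact absurd h3 hpi.ne'
    have h2 : (k - n) * 2 = 1 := by exact_mod_cast h1
    omega
  exact le_antisymm (not_lt.1 (key y hy x hx)) (not_lt.1 (key x hx y hy))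

/-- the closed disc -/
abbrev Dk : Type := closedBall (0 : ℂ) 1

instance : SimplyConnectedSpace Dk := by
  have : ContractibleSpace Dk := (convex_closedBall (0 : ℂ) 1).contractibleSpace ⟨0, by simp⟩
  infer_instance

instance : LocallyPathConnectedSpace Dk :=
  (convex_closedBall (0 : ℂ) 1).locallyPathConnectedSpace

lemma Dk_norm (d : Dk) : ‖(d : ℂ)‖ ≤ 1 := by
  have := d.2
  rwa [mem_closedBall_zero_iff] at this

/-- two round spheres meeting in two antipodal points -/
def XS : Set (ℝ × ℂ × ℂ) :=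
  {p | p.1 ^ 2 + ‖p.2.1‖ ^ 2 + ‖p.2.2‖ ^ 2 = 1 ∧ (p.2.1 = 0 ∨ p.2.2 = 0)}

/-- height over the equator -/
noncomputable def ht (d : Dk) : ℝ := Real.sqrt (1 - ‖(d : ℂ)‖ ^ 2)

lemma ht_sq (d : Dk) : ht d ^ 2 = 1 - ‖(d : ℂ)‖ ^ 2 := by
  unfold ht
  rw [Real.sq_sqrt]
  have := Dk_norm d
  have := norm_nonneg (d : ℂ)
  nlinarith

lemma ht_cont : Continuous ht := by
  unfold ht
  fun_prop

/-- sign -/
def sg (s : Bool) : ℝ := if s then 1 else -1

lemma sg_sq (s : Bool) : sg s ^ 2 = 1 := by
  cases s <;> simp [sg]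

/-- hemispherical parametrisation -/
noncomputable def Q0 (p : Dk × Bool × Bool) : ℝ × ℂ × ℂ :=
  if p.2.2 then (sg p.2.1 * ht p.1, (p.1 : ℂ), 0) else (sg p.2.1 * ht p.1, 0, (p.1 : ℂ))

lemma Q0_mem (p : Dk × Bool × Bool) : Q0 p ∈ XS := by
  obtain ⟨d, s, i⟩ := p
  have h1 : (sg s * ht d) ^ 2 = 1 - ‖(d : ℂ)‖ ^ 2 := by
    rw [mul_pow, sg_sq, ht_sq, one_mul]
  cases i
  · refine ⟨?_, Or.inl rfl⟩
    simp only [Q0, Bool.false_eq_true, if_false, norm_zero]
    rw [h1]; ring
  · refine ⟨?_, Or.inr rfl⟩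
    simp only [Q0, if_true, norm_zero]
    rw [h1]; ring

/-- hemispherical parametrisation -/
noncomputable def Q (p : Dk × Bool × Bool) : XS := ⟨Q0 p, Q0_mem p⟩

lemma Q_cont : Continuous Q := by
  refine Continuous.subtype_mk ?_ _
  have hsg : Continuous sg := continuous_of_discreteTopology
  have h1 : Continuous fun p : Dk × Bool × Bool => (sg p.2.1 * ht p.1, (p.1 : ℂ), (0 : ℂ)) := by
    have := ht_cont
    fun_prop
  have h2 : Continuous fun p : Dk × Bool × Bool => (sg p.2.1 * ht p.1, (0 : ℂ), (p.1 : ℂ)) := by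
    have := ht_cont
    fun_prop
  have h3 : Q0 = ({p : Dk × Bool × Bool | p.2.2 = true}).piecewise
      (fun p : Dk × Bool × Bool => (sg p.2.1 * ht p.1, (p.1 : ℂ), (0 : ℂ)))
      (fun p : Dk × Bool × Bool => (sg p.2.1 * ht p.1, (0 : ℂ), (p.1 : ℂ))) := by
    funext p
    by_cases hp : p.2.2 = true
    · simp [Q0, hp]
    · simp [Q0, hp]
  rw [h3]
  refine Continuous.piecewise ?_ h1 h2
  intro a ha
  have hcl : IsClopen {p : Dk × Bool × Bool | p.2.2 = true} :=
    (isClopen_discrete {b : Bool | b = true}).preimage (continuous_snd.comp continuous_snd)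
  rw [hcl.frontier_eq] at ha
  exact absurd ha (notMem_empty _)

lemma Q_surj : Function.Surjective Q := by
  rintro ⟨⟨t, z, w⟩, h1, h2⟩
  simp only at h1 h2
  have hsgn : ∃ s : Bool, t = sg s * |t| := by
    rcases le_total 0 t with h | h
    · exact ⟨true, by simp [sg, abs_of_nonneg h]⟩
    · exact ⟨false, by simp [sg, abs_of_nonpos h]⟩
  obtain ⟨s, hs⟩ := hsgn
  rcases h2 with h2 | h2
  · subst h2
    have hw : ‖w‖ ^ 2 ≤ 1 := by
      rw [norm_zero] at h1; nlinarith [sq_nonneg t]
    have hw' : ‖w‖ ≤ 1 := by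
      have := norm_nonneg w; nlinarith
    refine ⟨(⟨w, by rwa [mem_closedBall_zero_iff]⟩, s, false), ?_⟩
    apply Subtype.ext
    change Q0 (⟨w, _⟩, s, false) = (t, 0, w)
    simp only [Q0, Bool.false_eq_true, if_false, ht]
    rw [norm_zero] at h1
    have : (1 : ℝ) - ‖w‖ ^ 2 = t ^ 2 := by linarith
    rw [this, Real.sqrt_sq_eq_abs, ← hs]
  · subst h2
    have hw : ‖z‖ ^ 2 ≤ 1 := by
      rw [norm_zero] at h1; nlinarith [sq_nonneg t]
    have hw' : ‖z‖ ≤ 1 := by
      have := norm_nonneg z; nlinarith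
    refine ⟨(⟨z, by rwa [mem_closedBall_zero_iff]⟩, s, true), ?_⟩
    apply Subtype.ext
    change Q0 (⟨z, _⟩, s, true) = (t, z, 0)
    simp only [Q0, if_true, ht]
    rw [norm_zero] at h1
    have : (1 : ℝ) - ‖z‖ ^ 2 = t ^ 2 := by linarith
    rw [this, Real.sqrt_sq_eq_abs, ← hs]

instance : CompactSpace XS := Function.Surjective.compactSpace Q_cont Q_surj

instance : LocallyConnectedSpace XS :=
  (Q_cont.isClosedMap.isQuotientMap Q_cont Q_surj).isCoinducing.locallyConnectedSpace

/-- the invariants of a pair of antipodal points -/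
noncomputable def f0 (p : ℝ × ℂ × ℂ) : ℂ × ℂ × ℂ × ℂ :=
  ((p.1 : ℂ) * p.2.1, p.2.1 ^ 2, (p.1 : ℂ) * p.2.2, p.2.2 ^ 2)

lemma f0_cont : Continuous f0 := by
  unfold f0
  fun_prop

/-- the quotient -/
def YS : Set (ℂ × ℂ × ℂ × ℂ) := f0 '' XS

/-- the quotient map -/
noncomputable def f (p : XS) : YS := ⟨f0 p, p, p.2, rfl⟩

lemma f_cont : Continuous f := (f0_cont.comp continuous_subtype_val).subtype_mk _

lemma f_surj : Function.Surjective f := by
  rintro ⟨_, p, hp, rfl⟩
  exact ⟨⟨p, hp⟩, rfl⟩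

/-- the antipodal map -/
def σ (p : XS) : XS := ⟨-p.1, by
  obtain ⟨⟨t, z, w⟩, h1, h2⟩ := p
  refine ⟨?_, ?_⟩
  · simpa using h1
  · simpa using h2⟩

lemma σ_cont : Continuous σ := (continuous_subtype_val.neg).subtype_mk _

lemma σ_inv (p : XS) : σ (σ p) = p := Subtype.ext (neg_neg _)

lemma σ_free (p : XS) : σ p ≠ p := by
  intro h
  have h1 : -(p : ℝ × ℂ × ℂ) = p := congrArg Subtype.val h
  have h2 : (p : ℝ × ℂ × ℂ) = 0 := neg_eq_self.1 h1
  have h3 := p.2.1
  rw [h2] at h3
  norm_num at h3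

lemma f_fib (p q : XS) : f p = f q ↔ q = p ∨ q = σ p := by
  constructor
  · intro h
    have h' : f0 p = f0 q := congrArg Subtype.val h
    obtain ⟨⟨t, z, w⟩, h1, h2⟩ := p
    obtain ⟨⟨t', z', w'⟩, h1', h2'⟩ := q
    simp only [f0, Prod.mk.injEq] at h' h1 h2 h1' h2'
    obtain ⟨e1, e2, e3, e4⟩ := h'
    have hz : z' = z ∨ z' = -z := sq_eq_sq_iff_eq_or_eq_neg.1 e2.symm
    have hw : w' = w ∨ w' = -w := sq_eq_sq_iff_eq_or_eq_neg.1 e4.symm
    have hgoal : (t' = t ∧ z' = z ∧ w' = w) ∨ (t' = -t ∧ z' = -z ∧ w' = -w) := by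
      by_cases hz0 : z = 0
      · by_cases hw0 : w = 0
        · subst hz0 hw0
          have hz1 : z' = 0 := by rcases hz with h | h <;> simpa using h
          have hw1 : w' = 0 := by rcases hw with h | h <;> simpa using h
          subst hz1 hw1
          norm_num at h1 h1'
          rcases h1 with h | h <;> rcases h1' with h' | h' <;> simp [h, h']
        · subst hz0
          have hz1 : z' = 0 := by rcases hz with h | h <;> simpa using h
          rcases hw with h | h
          · subst h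
            left
            refine ⟨?_, hz1, rfl⟩
            have := mul_right_cancel₀ hw0 e3
            exact_mod_cast this.symm
          · subst h
            right
            refine ⟨?_, by simp [hz1], rfl⟩
            have e5 : (t : ℂ) * w = (-(t' : ℂ)) * w := by rw [e3]; ring
            have := mul_right_cancel₀ hw0 e5
            have h6 : t = -t' := by exact_mod_cast this
            linarith
      · have hw0 : w = 0 := h2.resolve_left hz0
        have hw1 : w' = 0 := by subst hw0; rcases hw with h | h <;> simpa using h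
        rcases hz with h | h
        · subst h
          left
          refine ⟨?_, rfl, by rw [hw0, hw1]⟩
          have := mul_right_cancel₀ hz0 e1
          exact_mod_cast this.symm
        · subst h
          right
          refine ⟨?_, rfl, by simp [hw0, hw1]⟩
          have e5 : (t : ℂ) * z = (-(t' : ℂ)) * z := by rw [e1]; ring
          have := mul_right_cancel₀ hz0 e5
          have h6 : t = -t' := by exact_mod_cast this
          linarith
    rcases hgoal with ⟨a, b, c⟩ | ⟨a, b, c⟩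
    · left; apply Subtype.ext; simp [a, b, c]
    · right; apply Subtype.ext; simp [σ, a, b, c]
  · rintro (h | h)
    · rw [h]
    · rw [h]
      apply Subtype.ext
      show f0 p = f0 (-p)
      simp [f0]

lemma f_localHomeo : IsLocalHomeomorph f :=
  localHomeo_of_involution f f_cont f_surj σ σ_cont σ_free σ_inv f_fib

instance : T2Space YS := inferInstance

/-- centre of the disc -/
def d0 : Dk := ⟨0, by simp⟩

/-- antipode in the disc -/
def neg (d : Dk) : Dk := ⟨-(d : ℂ), by
  have := d.2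
  rw [mem_closedBall_zero_iff] at this ⊢
  rwa [norm_neg]⟩

lemma neg_cont : Continuous neg := (continuous_subtype_val.neg).subtype_mk _

lemma neg_neg' (d : Dk) : neg (neg d) = d := Subtype.ext (neg_neg _)

lemma Dk_conn : IsConnected (univ : Set Dk) := by
  have : PathConnectedSpace Dk := inferInstance
  exact isConnected_univ

/-- one of the two spheres -/
def Sph (i : Bool) : Set XS := {p | if i then (p : ℝ × ℂ × ℂ).2.2 = 0 else (p : ℝ × ℂ × ℂ).2.1 = 0}

lemma Sph_closed (i : Bool) : IsClosed (Sph i) := by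
  cases i
  · have : Sph false = {p : XS | (p : ℝ × ℂ × ℂ).2.1 = 0} := by ext p; simp [Sph]
    rw [this]
    exact isClosed_eq (by fun_prop) continuous_const
  · have : Sph true = {p : XS | (p : ℝ × ℂ × ℂ).2.2 = 0} := by ext p; simp [Sph]
    rw [this]
    exact isClosed_eq (by fun_prop) continuous_const

lemma Q_mem_Sph (d : Dk) (s i : Bool) : Q (d, s, i) ∈ Sph i := by
  cases i <;> simp [Sph, Q, Q0]

/-- the point `1` of the disc -/
def d1 : Dk := ⟨1, by simp⟩

lemma Q_d1 (i : Bool) : Q (d1, true, i) = Q (d1, false, i) := by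
  apply Subtype.ext
  have : ht d1 = 0 := by simp [ht, d1]
  change Q0 (d1, true, i) = Q0 (d1, false, i)
  cases i <;> simp [Q0, this]

lemma Q_d0 (s : Bool) : Q (d0, s, true) = Q (d0, s, false) := by
  apply Subtype.ext
  change Q0 (d0, s, true) = Q0 (d0, s, false)
  simp [Q0, d0]

lemma Sph_eq (i : Bool) : Sph i = range (fun d => Q (d, true, i)) ∪ range (fun d => Q (d, false, i)) := by
  ext x
  constructor
  · intro hx
    obtain ⟨⟨d, s, j⟩, rfl⟩ := Q_surj x
    by_cases hij : j = i
    · subst hij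
      cases s
      · right; exact ⟨d, rfl⟩
      · left; exact ⟨d, rfl⟩
    · have hd : d = d0 := by
        apply Subtype.ext
        show (d : ℂ) = 0
        cases i <;> cases j <;> simp_all [Sph, Q, Q0]
      subst hd
      have : Q (d0, s, j) = Q (d0, s, i) := by
        cases i <;> cases j <;> simp_all [Q_d0]
      rw [this]
      cases s
      · right; exact ⟨d0, rfl⟩
      · left; exact ⟨d0, rfl⟩
  · rintro (⟨d, rfl⟩ | ⟨d, rfl⟩)
    · exact Q_mem_Sph _ _ _
    · exact Q_mem_Sph _ _ _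

lemma hemi_conn (s i : Bool) : IsConnected (range (fun d => Q (d, s, i))) := by
  rw [← image_univ]
  refine Dk_conn.image _ (Continuous.continuousOn ?_)
  exact Q_cont.comp (by fun_prop)

lemma Sph_conn (i : Bool) : IsConnected (Sph i) := by
  rw [Sph_eq]
  refine IsConnected.union ?_ (hemi_conn true i) (hemi_conn false i)
  exact ⟨Q (d1, true, i), ⟨d1, rfl⟩, ⟨d1, (Q_d1 i).symm⟩⟩

lemma Sph_union : Sph true ∪ Sph false = univ := by
  rw [eq_univ_iff_forall]
  rintro ⟨p, h1, h2⟩
  rcases h2 with h | h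
  · right; simpa [Sph] using h
  · left; simpa [Sph] using h

instance : ConnectedSpace XS := by
  rw [connectedSpace_iff_univ, ← Sph_union]
  refine IsConnected.union ?_ (Sph_conn true) (Sph_conn false)
  exact ⟨Q (d0, true, true), Q_mem_Sph _ _ _, by rw [Q_d0]; exact Q_mem_Sph _ _ _⟩

lemma Sph_inter_not_conn : ¬ IsConnected (Sph true ∩ Sph false) := by
  intro h
  have hval : ∀ p ∈ Sph true ∩ Sph false, (p : ℝ × ℂ × ℂ).1 = 1 ∨ (p : ℝ × ℂ × ℂ).1 = -1 := by
    rintro ⟨⟨t, z, w⟩, h1, h2⟩ ⟨h3, h4⟩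
    simp only [Sph, mem_ofPred_eq, if_true, Bool.false_eq_true, if_false] at h3 h4
    simp only [h3, h4, norm_zero] at h1
    have h5 : (t - 1) * (t + 1) = 0 := by nlinarith
    rcases mul_eq_zero.1 h5 with h6 | h6
    · left; linarith
    · right; linarith
  have hoc := (h.isPreconnected.image (fun p : XS => (p : ℝ × ℂ × ℂ).1)
    (by fun_prop)).ordConnected
  have hp : Q (d0, true, true) ∈ Sph true ∩ Sph false :=
    ⟨Q_mem_Sph _ _ _, by rw [Q_d0]; exact Q_mem_Sph _ _ _⟩
  have hm : Q (d0, false, true) ∈ Sph true ∩ Sph false :=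
    ⟨Q_mem_Sph _ _ _, by rw [Q_d0]; exact Q_mem_Sph _ _ _⟩
  have e1 : (Q (d0, true, true) : ℝ × ℂ × ℂ).1 = 1 := by
    change (Q0 (d0, true, true)).1 = 1
    simp [Q0, sg, ht, d0]
  have e2 : (Q (d0, false, true) : ℝ × ℂ × ℂ).1 = -1 := by
    change (Q0 (d0, false, true)).1 = -1
    simp [Q0, sg, ht, d0]
  have h0 : (0 : ℝ) ∈ Icc (-1 : ℝ) 1 := ⟨by norm_num, by norm_num⟩
  obtain ⟨x, hx, hx'⟩ := hoc.out ⟨_, hm, e2⟩ ⟨_, hp, e1⟩ h0
  have hx'' : (x : ℝ × ℂ × ℂ).1 = 0 := hx'
  rcases hval x hx with h | h <;> rw [h] at hx'' <;> norm_num at hx''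

/-- the two discs covering the quotient -/
noncomputable def G (p : Dk × Bool) : YS := f (Q (p.1, true, p.2))

lemma G_cont : Continuous G := f_cont.comp (Q_cont.comp (by fun_prop))

lemma σ_Q (d : Dk) (i : Bool) : σ (Q (d, true, i)) = Q (neg d, false, i) := by
  apply Subtype.ext
  change -Q0 (d, true, i) = Q0 (neg d, false, i)
  have : ht (neg d) = ht d := by simp [ht, neg]
  cases i <;> simp [Q0, sg, this] <;> simp [neg]

lemma G_surj : Function.Surjective G := by
  intro y
  obtain ⟨x, rfl⟩ := f_surj y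
  obtain ⟨⟨d, s, i⟩, rfl⟩ := Q_surj x
  cases s
  · refine ⟨(neg d, i), ?_⟩
    change f (Q (neg d, true, i)) = f (Q (d, false, i))
    rw [f_fib]
    right
    rw [σ_Q, neg_neg']
  · exact ⟨(d, i), rfl⟩

lemma G_quot : IsQuotientMap G := G_cont.isClosedMap.isQuotientMap G_cont G_surj

lemma G_antipode (d : Dk) (hd : ‖(d : ℂ)‖ = 1) (i : Bool) : G (neg d, i) = G (d, i) := by
  change f (Q (neg d, true, i)) = f (Q (d, true, i))
  rw [f_fib]
  right
  rw [σ_Q, neg_neg']
  apply Subtype.ext
  have h1 : ht d = 0 := by simp [ht, hd]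
  change Q0 (d, true, i) = Q0 (d, false, i)
  cases i <;> simp [Q0, h1]

lemma G_fib {d d' : Dk} {i i' : Bool} (h : G (d, i) = G (d', i')) :
    (i = i' ∧ (d = d' ∨ (‖(d : ℂ)‖ = 1 ∧ d' = neg d))) ∨ (d = d0 ∧ d' = d0) := by
  change f (Q (d, true, i)) = f (Q (d', true, i')) at h
  rw [f_fib] at h
  have key : ∀ e : Dk, ht e = 0 → ‖(e : ℂ)‖ = 1 := by
    intro e he
    have := ht_sq e
    rw [he] at this
    have h2 : ‖(e : ℂ)‖ ^ 2 = 1 := by linarith
    have := norm_nonneg (e : ℂ)
    nlinarith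
  rcases h with h | h
  · have h' : Q0 (d', true, i') = Q0 (d, true, i) := congrArg Subtype.val h
    by_cases hi : i = i'
    · left
      refine ⟨hi, Or.inl ?_⟩
      subst hi
      apply Subtype.ext
      cases i <;> simp [Q0] at h' <;> exact h'.2.symm
    · right
      have ha := congrArg (fun p : ℝ × ℂ × ℂ => p.2.1) h'
      have hb := congrArg (fun p : ℝ × ℂ × ℂ => p.2.2) h'
      have : (d : ℂ) = 0 ∧ (d' : ℂ) = 0 := by
        cases i <;> cases i'
        · exact absurd rfl hi
        · simp only [Q0, if_true, Bool.false_eq_true, if_false] at ha hb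
          exact ⟨hb.symm, ha⟩
        · simp only [Q0, if_true, Bool.false_eq_true, if_false] at ha hb
          exact ⟨ha.symm, hb⟩
        · exact absurd rfl hi
      exact ⟨Subtype.ext this.1, Subtype.ext this.2⟩
  · rw [σ_Q] at h
    have h' : Q0 (d', true, i') = Q0 (neg d, false, i) := congrArg Subtype.val h
    have hn : ht (neg d) = ht d := by simp [ht, neg]
    have h1 : ht d' = - ht d := by
      cases i <;> cases i' <;> simp [Q0, sg, hn] at h' <;> tauto
    have h2 : 0 ≤ ht d' := Real.sqrt_nonneg _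
    have h3 : 0 ≤ ht d := Real.sqrt_nonneg _
    have h4 : ht d = 0 := by linarith
    by_cases hi : i = i'
    · left
      refine ⟨hi, Or.inr ⟨key d h4, ?_⟩⟩
      subst hi
      apply Subtype.ext
      cases i <;> simp [Q0] at h' <;> exact h'.2
    · right
      have ha := congrArg (fun p : ℝ × ℂ × ℂ => p.2.1) h'
      have hb := congrArg (fun p : ℝ × ℂ × ℂ => p.2.2) h'
      have : (d : ℂ) = 0 ∧ (d' : ℂ) = 0 := by
        cases i <;> cases i'
        · exact absurd rfl hi
        · simp only [Q0, neg, if_true, Bool.false_eq_true, if_false] at ha hb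
          exact ⟨neg_eq_zero.1 hb.symm, ha⟩
        · simp only [Q0, neg, if_true, Bool.false_eq_true, if_false] at ha hb
          exact ⟨neg_eq_zero.1 ha.symm, hb⟩
        · exact absurd rfl hi
      exact ⟨Subtype.ext this.1, Subtype.ext this.2⟩

/-- the point of the disc with argument `θ` on the boundary circle -/
noncomputable def bd (θ : ℝ) : Dk := ⟨Circle.exp θ, by simp⟩

lemma bd_cont : Continuous bd :=
  (continuous_subtype_val.comp Circle.exp.continuous).subtype_mk _

lemma bd_neg (θ : ℝ) : bd (θ + Real.pi) = neg (bd θ) := by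
  apply Subtype.ext
  simp [bd, neg, Circle.exp_add]

lemma bd_norm (θ : ℝ) : ‖(bd θ : ℂ)‖ = 1 := by simp [bd]

lemma bd_surj {d : Dk} (hd : ‖(d : ℂ)‖ = 1) : ∃ θ, bd θ = d := by
  obtain ⟨θ, hθ⟩ := Circle.exp_surjective ⟨(d : ℂ), mem_sphere_zero_iff_norm.2 hd⟩
  have h1 : ((Circle.exp θ : Circle) : ℂ) = (d : ℂ) := by rw [hθ]
  exact ⟨θ, Subtype.ext h1⟩

/-- Every map of the quotient into the circle lifts to the line. -/
lemma lift_exists (φ : C(YS, Circle)) : ∃ Ψ : C(YS, ℝ), ∀ y, Circle.exp (Ψ y) = φ y := by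
  have hG0 : G (d0, true) = G (d0, false) := by
    change f (Q (d0, true, true)) = f (Q (d0, true, false))
    rw [Q_d0]
  obtain ⟨c, hc⟩ := Circle.exp_surjective (φ (G (d0, true)))
  have hlift : ∀ i : Bool, ∃ F : C(Dk, ℝ), F d0 = c ∧ ∀ d, Circle.exp (F d) = φ (G (d, i)) := by
    intro i
    have hci : Circle.exp c = φ (G (d0, i)) := by
      cases i
      · rw [hc, hG0]
      · exact hc
    obtain ⟨F, ⟨h1, h2⟩, -⟩ := Circle.isCoveringMap_exp.existsUnique_continuousMap_lifts
      (A := Dk) (φ.comp ⟨fun d => G (d, i), G_cont.comp (by fun_prop)⟩) d0 c hci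
    exact ⟨F, h1, fun d => congrFun h2 d⟩
  choose F hF0 hF using hlift
  have hanti : ∀ (i : Bool) (d : Dk), ‖(d : ℂ)‖ = 1 → F i (neg d) = F i d := by
    intro i d hd
    have hcont : Continuous fun θ : ℝ => F i (bd (θ + Real.pi)) - F i (bd θ) := by
      have := bd_cont
      fun_prop
    have hint : ∀ θ ∈ (univ : Set ℝ), ∃ n : ℤ,
        (fun θ : ℝ => F i (bd (θ + Real.pi)) - F i (bd θ)) θ = n * (2 * Real.pi) := by
      intro θ _
      have h1 : Circle.exp (F i (bd (θ + Real.pi))) = Circle.exp (F i (bd θ)) := by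
        rw [hF, hF, bd_neg, G_antipode _ (bd_norm θ)]
      obtain ⟨m, hm⟩ := Circle.exp_eq_exp.1 h1
      exact ⟨m, by simp only [hm]; ring⟩
    obtain ⟨θ, hθ⟩ := bd_surj hd
    have h1 := const_of_int isPreconnected_univ hcont.continuousOn hint (mem_univ θ)
      (mem_univ (θ + Real.pi))
    simp only [bd_neg, neg_neg', hθ] at h1
    linarith
  let g : C(Dk × Bool, ℝ) := ⟨fun p => F p.2 p.1, by
    have h3 : (fun p : Dk × Bool => F p.2 p.1) = ({p : Dk × Bool | p.2 = true}).piecewise
        (fun p => F true p.1) (fun p => F false p.1) := by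
      funext p
      obtain ⟨d, i⟩ := p
      cases i <;> simp
    rw [h3]
    refine Continuous.piecewise ?_ (by fun_prop) (by fun_prop)
    intro a ha
    have hcl : IsClopen {p : Dk × Bool | p.2 = true} :=
      (isClopen_discrete {b : Bool | b = true}).preimage continuous_snd
    rw [hcl.frontier_eq] at ha
    exact absurd ha (notMem_empty _)⟩
  have hfac : Function.FactorsThrough g (⟨G, G_cont⟩ : C(Dk × Bool, YS)) := by
    rintro ⟨d, i⟩ ⟨d', i'⟩ h
    change F i d = F i' d'
    rcases G_fib h with ⟨h1, h2⟩ | ⟨h1, h2⟩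
    · subst h1
      rcases h2 with h2 | ⟨h2, h3⟩
      · rw [h2]
      · rw [h3, hanti i d h2]
    · rw [h1, h2, hF0, hF0]
  refine ⟨IsQuotientMap.lift (f := (⟨G, G_cont⟩ : C(Dk × Bool, YS))) G_quot g hfac, ?_⟩
  intro y
  obtain ⟨⟨d, i⟩, rfl⟩ := G_surj y
  have h1 : IsQuotientMap.lift (f := (⟨G, G_cont⟩ : C(Dk × Bool, YS))) G_quot g hfac (G (d, i))
      = g (d, i) := by
    have := IsQuotientMap.lift_comp (f := (⟨G, G_cont⟩ : C(Dk × Bool, YS))) G_quot g hfac
    exact congrArg (fun k : C(Dk × Bool, ℝ) => k (d, i)) this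
  rw [h1]
  exact hF i d

/-- The quotient is unicoherent. -/
lemma unicoherent {A B : Set YS} (hA : IsClosed A) (hB : IsClosed B) (hAc : IsConnected A)
    (hBc : IsConnected B) (hAB : A ∪ B = univ) : IsConnected (A ∩ B) := by
  have hYc : ConnectedSpace YS := f_surj.connectedSpace f_cont
  refine ⟨?_, ?_⟩
  · have := isPreconnected_closed_iff.1 (isPreconnected_univ (α := YS)) A B hA hB hAB.ge
      (by rw [univ_inter]; exact hAc.nonempty) (by rw [univ_inter]; exact hBc.nonempty)
    rwa [univ_inter] at this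
  rw [isPreconnected_closed_iff]
  intro t t' ht ht' hcov hne hne'
  by_contra hcon
  rw [not_nonempty_iff_eq_empty] at hcon
  have hH : IsClosed (A ∩ B ∩ t) := (hA.inter hB).inter ht
  have hK : IsClosed (A ∩ B ∩ t') := (hA.inter hB).inter ht'
  have hdisj : Disjoint (A ∩ B ∩ t) (A ∩ B ∩ t') := by
    rw [Set.disjoint_left]
    rintro x ⟨h1, h2⟩ ⟨h3, h4⟩
    have : x ∈ A ∩ B ∩ (t ∩ t') := ⟨h1, h2, h4⟩
    rw [hcon] at this
    exact this
  obtain ⟨g, hg0, hg1, hg⟩ := exists_continuous_zero_one_of_isClosed hH hK hdisj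
  have hgv : ∀ x ∈ A ∩ B, g x = 0 ∨ g x = 1 := by
    intro x hx
    rcases hcov hx with h | h
    · left; exact hg0 ⟨hx, h⟩
    · right; exact hg1 ⟨hx, h⟩
  classical
  have hφc : Continuous (A.piecewise (fun y => Circle.exp (Real.pi * g y))
      (fun y => Circle.exp (-(Real.pi * g y)))) := by
    refine Continuous.piecewise ?_ (by fun_prop) (by fun_prop)
    intro y hy
    have hyA : y ∈ A := hA.frontier_subset hy
    have hyB : y ∈ B := by
      have h1 : y ∈ closure Aᶜ := by
        rw [frontier_eq_closure_inter_closure] at hy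
        exact hy.2
      have h2 : Aᶜ ⊆ B := by
        intro z hz
        have : z ∈ A ∪ B := by rw [hAB]; trivial
        rcases this with h | h
        · exact absurd h hz
        · exact h
      exact (closure_minimal h2 hB) h1
    rcases hgv y ⟨hyA, hyB⟩ with h | h
    · simp [h]
    · rw [h, mul_one, Circle.exp_eq_exp]
      exact ⟨1, by push_cast; ring⟩
  obtain ⟨Ψ, hΨ⟩ := lift_exists ⟨_, hφc⟩
  have hΨA : ∀ y ∈ A, ∃ n : ℤ, (fun y => Ψ y - Real.pi * g y) y = n * (2 * Real.pi) := by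
    intro y hy
    have h1 := hΨ y
    simp only [ContinuousMap.coe_mk, Set.piecewise_eq_of_mem _ _ _ hy] at h1
    obtain ⟨m, hm⟩ := Circle.exp_eq_exp.1 h1
    exact ⟨m, by simp only [hm]; ring⟩
  have hΨB : ∀ y ∈ B, ∃ n : ℤ, (fun y => Ψ y + Real.pi * g y) y = n * (2 * Real.pi) := by
    intro y hy
    have h1 := hΨ y
    by_cases hyA : y ∈ A
    · simp only [ContinuousMap.coe_mk, Set.piecewise_eq_of_mem _ _ _ hyA] at h1
      obtain ⟨m, hm⟩ := Circle.exp_eq_exp.1 h1
      rcases hgv y ⟨hyA, hy⟩ with h | h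
      · exact ⟨m, by simp only [hm, h]; ring⟩
      · exact ⟨m + 1, by simp only [hm, h]; push_cast; ring⟩
    · simp only [ContinuousMap.coe_mk, Set.piecewise_eq_of_notMem _ _ _ hyA] at h1
      obtain ⟨m, hm⟩ := Circle.exp_eq_exp.1 h1
      exact ⟨m, by simp only [hm]; ring⟩
  obtain ⟨h, hh1, hh2⟩ := hne
  obtain ⟨k, hk1, hk2⟩ := hne'
  have e1 := const_of_int hAc.isPreconnected (g := fun y => Ψ y - Real.pi * g y)
    (by fun_prop) hΨA hh1.1 hk1.1
  have e2 := const_of_int hBc.isPreconnected (g := fun y => Ψ y + Real.pi * g y)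
    (by fun_prop) hΨB hh1.2 hk1.2
  have g1 : g h = 0 := hg0 ⟨hh1, hh2⟩
  have g2 : g k = 1 := hg1 ⟨hk1, hk2⟩
  simp only [g1, g2] at e1 e2
  have := Real.pi_pos
  linarith

/-- The negation of the preceding statement: If X is a locally connected metric continuum that is a union of two subcontinua with disconnected intersection, and f is a local homeomorphism of X onto a metric space Y, then Y is also such a union. -/
theorem result :
    ¬ (∀ (X Y : Type) [MetricSpace X] [CompactSpace X] [ConnectedSpace X]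
      [LocallyConnectedSpace X] [MetricSpace Y] (f : X → Y),
      IsLocalHomeomorph f → Function.Surjective f →
      (∃ A B : Set X, IsClosed A ∧ IsClosed B ∧ IsConnected A ∧ IsConnected B ∧
          A ∪ B = Set.univ ∧ ¬ IsConnected (A ∩ B)) →
      (∃ A B : Set Y, IsClosed A ∧ IsClosed B ∧ IsConnected A ∧ IsConnected B ∧
          A ∪ B = Set.univ ∧ ¬ IsConnected (A ∩ B))) := by
  intro h
  obtain ⟨A, B, hA, hB, hAc, hBc, hAB, hn⟩ := h XS YS f f_localHomeo f_surj
    ⟨Sph true, Sph false, Sph_closed _, Sph_closed _, Sph_conn _, Sph_conn _, Sph_union,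
      Sph_inter_not_conn⟩
  exact hn (unicoherent hA hB hAc hBc hAB)

end Pool.Agent.S13710
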