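import Pool.Statements.S13772
import Pool.Agent.Helper531.Sine

set_option autoImplicit false
open Pool Pool.MP_b1ea19_gt

namespace Pool.Agent.S13772

open Set Topology Pool.Agent.Helper531

/-- connected components in a set, seen in a subspace -/
lemma image_component {α : Type*} [TopologicalSpace α] {S : Set α} (F : Set S) {p : S}
    (hp : p ∈ F) : Subtype.val '' connectedComponentIn F p =
      connectedComponentIn (Subtype.val '' F) (p : α) := by
  apply Subset.antisymm
  · refine IsPreconnected.subset_connectedComponentIn ?_ ⟨p, mem_connectedComponentIn hp, rfl⟩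
      (image_mono (connectedComponentIn_subset F p))
    exact isPreconnected_connectedComponentIn.image _ continuous_subtype_val.continuousOn
  · have hsub : connectedComponentIn (Subtype.val '' F) (p : α) ⊆ Subtype.val '' F :=
      connectedComponentIn_subset _ _
    have h1 : Subtype.val '' (Subtype.val ⁻¹' connectedComponentIn (Subtype.val '' F) (p : α) :
        Set S) = connectedComponentIn (Subtype.val '' F) (p : α) := by
      apply image_preimage_eq_of_subset
      intro x hx
      obtain ⟨y, -, rfl⟩ := hsub hx
      exact mem_range_self y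
    have h2 : IsPreconnected (Subtype.val ⁻¹' connectedComponentIn (Subtype.val '' F) (p : α) :
        Set S) := by
      rw [← Topology.IsInducing.subtypeVal.isPreconnected_image, h1]
      exact isPreconnected_connectedComponentIn
    have h3 : (Subtype.val ⁻¹' connectedComponentIn (Subtype.val '' F) (p : α) : Set S) ⊆ F := by
      intro x hx
      obtain ⟨y, hy, hxy⟩ := hsub hx
      rwa [← Subtype.ext hxy]
    have h4 : p ∈ (Subtype.val ⁻¹' connectedComponentIn (Subtype.val '' F) (p : α) : Set S) :=
      mem_connectedComponentIn (mem_image_of_mem _ hp)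
    rw [← h1]
    exact image_mono (h2.subset_connectedComponentIn h4 h3)

/-- local separating points of a subset of the sine curve, seen in the plane -/
lemma image_locSep (C : Set Sine.X) :
    Subtype.val '' {p : Sine.X | p ∈ C ∧ ∃ V : Set Sine.X, IsOpen V ∧ p ∈ V ∧
      ¬ IsPreconnected (connectedComponentIn (V ∩ C) p \ {p})} =
      LocalSeparatingPoints (Subtype.val '' C) := by
  have key : ∀ (U : Set (ℝ × ℝ)) (p : Sine.X), p ∈ C → (p : ℝ × ℝ) ∈ U →
      (IsPreconnected (connectedComponentIn (Subtype.val ⁻¹' U ∩ C) p \ {p}) ↔
        IsPreconnected (connectedComponentIn (Subtype.val '' C ∩ U) (p : ℝ × ℝ) \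
          {(p : ℝ × ℝ)})) := by
    intro U p hp hU
    rw [← Topology.IsInducing.subtypeVal.isPreconnected_image,
      image_sdiff Subtype.val_injective, image_component _ (show p ∈ Subtype.val ⁻¹' U ∩ C from
        ⟨hU, hp⟩), image_singleton]
    have : (Subtype.val '' (Subtype.val ⁻¹' U ∩ C) : Set (ℝ × ℝ)) = Subtype.val '' C ∩ U := by
      rw [inter_comm, image_inter_preimage]
    rw [this]
  ext x
  constructor
  · rintro ⟨p, ⟨hp, V, hV, hpV, hn⟩, rfl⟩
    obtain ⟨U, hU, rfl⟩ := isOpen_induced_iff.1 hV
    exact ⟨⟨p, hp, rfl⟩, U, hU, hpV, fun h => hn ((key U p hp hpV).2 h)⟩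
  · rintro ⟨⟨p, hp, rfl⟩, U, hU, hpU, hn⟩
    exact ⟨p, ⟨hp, Subtype.val ⁻¹' U, hU.preimage continuous_subtype_val, hpU,
      fun h => hn ((key U p hp hpU).1 h)⟩, rfl⟩

/-- The negation of the preceding statement: If X is a continuum in which every subcontinuum C has a connected set of local separating points, then any two distinct points of any connected subset of X are joined by an arc lying inside that subset. -/
theorem result :
    ¬ (∀ (X : Type) [MetricSpace X] [CompactSpace X] [ConnectedSpace X],
      (∀ C : Set X, IsCompact C → IsConnected C →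
        IsPreconnected {p : X | p ∈ C ∧ ∃ V : Set X, IsOpen V ∧ p ∈ V ∧
          ¬ IsPreconnected (connectedComponentIn (V ∩ C) p \ {p})}) →
      ∀ A : Set X, IsConnected A → ∀ x ∈ A, ∀ y ∈ A, x ≠ y →
        ∃ f : unitInterval → X, Continuous f ∧ Function.Injective f ∧
          f 0 = x ∧ f 1 = y ∧ Set.range f ⊆ A) := by
  intro h
  have : CompactSpace Sine.X := isCompact_iff_compactSpace.1 Sine.X_compact
  have : ConnectedSpace Sine.X := isConnected_iff_connectedSpace.1 Sine.X_connected
  apply Sine.not_arcwise
  intro x hx y hy hxy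
  obtain ⟨f, hf, hinj, h0, h1, -⟩ := h Sine.X (by
    intro C hC hCc
    rw [← Topology.IsInducing.subtypeVal.isPreconnected_image, image_locSep]
    refine Sine.L_preconnected ?_ (hC.image continuous_subtype_val)
      (hCc.isPreconnected.image _ continuous_subtype_val.continuousOn)
    rintro _ ⟨p, -, rfl⟩
    exact p.2) univ isConnected_univ ⟨x, hx⟩ trivial ⟨y, hy⟩ trivial (fun he => hxy (by
      simpa using he))
  refine ⟨fun t => f t, continuous_subtype_val.comp hf, Subtype.val_injective.comp hinj, ?_, ?_, ?_⟩
  · exact congrArg Subtype.val h0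
  · exact congrArg Subtype.val h1
  · rintro _ ⟨t, rfl⟩
    exact (f t).2

end Pool.Agent.S13772
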