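import Pool.Statements.S13885

set_option autoImplicit false
open Pool Pool.MP_c36963_gt

namespace Pool.Agent.S13885

/-- There exists r : ℂ → ℂ mapping the closed unit disk into the unit circle, fixing the circle, with connected fibers in the disk, such that only finitely many circle points y fail: for all circle sequences s_n → y, every point of the Kuratowski lim sup of the fibers r⁻¹(s_n) lies in r⁻¹(y). -/
theorem result :
    ∃ r : ℂ → ℂ,
      (∀ z ∈ Metric.closedBall (0:ℂ) 1, r z ∈ Metric.sphere (0:ℂ) 1) ∧
      (∀ y ∈ Metric.sphere (0:ℂ) 1, r y = y) ∧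
      (∀ y ∈ Metric.sphere (0:ℂ) 1,
        IsConnected {z : ℂ | z ∈ Metric.closedBall (0:ℂ) 1 ∧ r z = y}) ∧
      Set.Finite {y : ℂ | y ∈ Metric.sphere (0:ℂ) 1 ∧
        ¬ (∀ s : ℕ → ℂ, (∀ n, s n ∈ Metric.sphere (0:ℂ) 1) →
            Filter.Tendsto s Filter.atTop (nhds y) →
            ∀ x : ℂ, (∀ ε : ℝ, ε > 0 → ∀ N : ℕ, ∃ n : ℕ, n ≥ N ∧
                ∃ z : ℂ, z ∈ Metric.closedBall (0:ℂ) 1 ∧ r z = s n ∧ dist z x < ε) →
              r x = y)} := by
  classical
  refine ⟨fun z => if z ∈ Metric.sphere (0:ℂ) 1 then z else 1, ?_, ?_, ?_, ?_⟩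
  · intro z _
    by_cases h : z ∈ Metric.sphere (0:ℂ) 1
    · simp only [h, if_true]
    · simp only [h, if_false]
      simp
  · intro y hy
    simp only [hy, if_true]
  · intro y hy
    by_cases h1 : y = 1
    · subst h1
      have hball : IsConnected (Metric.ball (0:ℂ) 1) :=
        (convex_ball (0:ℂ) 1).isConnected ⟨0, by simp⟩
      refine hball.subset_closure ?_ ?_
      · intro z hz
        have hz' : z ∉ Metric.sphere (0:ℂ) 1 := by
          simp only [Metric.mem_ball, Metric.mem_sphere] at hz ⊢
          exact ne_of_lt hz
        refine ⟨Metric.ball_subset_closedBall hz, ?_⟩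
        simp only [hz', if_false]
      · rw [closure_ball (0:ℂ) one_ne_zero]
        intro z hz
        exact hz.1
    · have : {z : ℂ | z ∈ Metric.closedBall (0:ℂ) 1 ∧
          (if z ∈ Metric.sphere (0:ℂ) 1 then z else 1) = y} = {y} := by
        ext z
        constructor
        · rintro ⟨_, hz⟩
          by_cases h : z ∈ Metric.sphere (0:ℂ) 1
          · simp only [h, if_true] at hz
            exact hz
          · simp only [h, if_false] at hz
            exact absurd hz.symm h1
        · intro hz
          rw [Set.mem_singleton_iff] at hz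
          subst hz
          refine ⟨Metric.sphere_subset_closedBall hy, ?_⟩
          simp only [hy, if_true]
      rw [this]
      exact isConnected_singleton
  · refine (Set.finite_singleton (1:ℂ)).subset ?_
    rintro y ⟨hy, hfail⟩
    by_contra h1
    rw [Set.mem_singleton_iff] at h1
    apply hfail
    intro s hs hlim x hx
    -- eventually `s n ≠ 1`
    have hev : ∀ᶠ n in Filter.atTop, s n ≠ 1 := by
      have := hlim.eventually (isOpen_ne.mem_nhds h1)
      exact this
    -- the points `z` are then `s n` itself
    have hxy : x = y := by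
      have hdist : ∀ ε : ℝ, 0 < ε → dist y x ≤ ε := by
        intro ε hε
        have h2 : ∀ᶠ n in Filter.atTop, dist (s n) y < ε / 2 :=
          (Metric.tendsto_nhds.mp hlim) (ε / 2) (half_pos hε)
        obtain ⟨N, hN⟩ := Filter.eventually_atTop.mp (hev.and h2)
        obtain ⟨n, hn, z, _, hz2, hz3⟩ := hx (ε / 2) (half_pos hε) N
        obtain ⟨hn1, hn2⟩ := hN n hn
        have hzs : z = s n := by
          by_cases h : z ∈ Metric.sphere (0:ℂ) 1
          · simp only [h, if_true] at hz2
            exact hz2
          · simp only [h, if_false] at hz2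
            exact absurd hz2.symm hn1
        subst hzs
        calc dist y x ≤ dist y (s n) + dist (s n) x := dist_triangle _ _ _
          _ ≤ ε / 2 + ε / 2 := by
              rw [dist_comm y (s n)]
              exact add_le_add hn2.le hz3.le
          _ = ε := by ring
      have h0 : dist y x ≤ 0 := le_of_forall_pos_le_add (by
        intro ε hε
        simpa using hdist ε hε)
      exact (dist_le_zero.mp h0).symm
    subst hxy
    simp only [hy, if_true]

end Pool.Agent.S13885
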