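import Pool.Statements.S14090
import Pool.Agent.Helper805.CHS.Drawn

set_option autoImplicit false
open Pool Pool.MP_de0764_gt

namespace Pool.Agent.S14090

open Set Topology Metric
open scoped Pointwise

/-! ### monotone maps and planar neighbourhoods -/

/-- preimages of closed connected sets under a map with connected fibres -/
theorem preimage_preconnected {X Y : Type*} [TopologicalSpace X] [CompactSpace X]
    [TopologicalSpace Y] [T2Space Y] (f : X → Y) (hf : Continuous f)
    (hs : Function.Surjective f) (hfib : ∀ y, IsPreconnected (f ⁻¹' {y})) {E : Set Y}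
    (hE : IsClosed E) (hEc : IsPreconnected E) : IsPreconnected (f ⁻¹' E) := by
  rw [isPreconnected_closed_iff]
  intro t t' ht ht' hcov hne hne'
  have hfE : IsClosed (f ⁻¹' E) := hE.preimage hf
  have hA : IsClosed (f '' (f ⁻¹' E ∩ t)) := ((hfE.inter ht).isCompact.image hf).isClosed
  have hB : IsClosed (f '' (f ⁻¹' E ∩ t')) := ((hfE.inter ht').isCompact.image hf).isClosed
  have hcov2 : E ⊆ f '' (f ⁻¹' E ∩ t) ∪ f '' (f ⁻¹' E ∩ t') := by
    intro y hy
    obtain ⟨x, rfl⟩ := hs y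
    rcases hcov hy with h | h
    · exact Or.inl ⟨x, ⟨hy, h⟩, rfl⟩
    · exact Or.inr ⟨x, ⟨hy, h⟩, rfl⟩
  have h1 : (E ∩ f '' (f ⁻¹' E ∩ t)).Nonempty := by
    obtain ⟨x, hx, hxt⟩ := hne
    exact ⟨f x, hx, x, ⟨hx, hxt⟩, rfl⟩
  have h2 : (E ∩ f '' (f ⁻¹' E ∩ t')).Nonempty := by
    obtain ⟨x, hx, hxt⟩ := hne'
    exact ⟨f x, hx, x, ⟨hx, hxt⟩, rfl⟩
  obtain ⟨y, hy, ⟨x, ⟨hxE, hxt⟩, hxy⟩, ⟨x', ⟨hxE', hxt'⟩, hxy'⟩⟩ :=
    (isPreconnected_closed_iff.1 hEc) _ _ hA hB hcov2 h1 h2
  have hsub : f ⁻¹' {y} ⊆ f ⁻¹' E := fun z hz => by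
    change f z ∈ E
    rw [mem_preimage, mem_singleton_iff] at hz
    rw [hz]; exact hy
  obtain ⟨z, hz, hzt⟩ := (isPreconnected_closed_iff.1 (hfib y)) t t' ht ht'
    (hsub.trans hcov) ⟨x, hxy, hxt⟩ ⟨x', hxy', hxt'⟩
  exact ⟨z, hsub hz, hzt⟩

/-- thickenings of connected sets are path connected -/
theorem thickening_joined {E : Type*} [NormedAddCommGroup E] [NormedSpace ℝ E] {s : Set E}
    (hs : IsConnected s) {δ : ℝ} (hδ : 0 < δ) {x y : E} (hx : x ∈ s) (hy : y ∈ s) :
    JoinedIn (thickening δ s) x y := by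
  have h1 : IsConnected (thickening δ s) := by
    rw [← ball_add_zero]
    have h2 : IsConnected (ball (0 : E) δ) := (convex_ball 0 δ).isPathConnected ⟨0, mem_ball_self hδ⟩ |>.isConnected
    rw [← Set.add_image_prod]
    exact (h2.prod hs).image _ continuous_add.continuousOn
  have h3 : IsPathConnected (thickening δ s) := (isOpen_thickening.isConnected_iff_isPathConnected).1 h1
  exact h3.joinedIn _ (self_subset_thickening hδ s hx) _ (self_subset_thickening hδ s hy)


/-! ### the complete graph on five vertices as a continuum -/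

/-- the segment between two vertices -/
noncomputable def seg (a b : Fin 5) (t : ℝ) : Fin 5 → ℝ :=
  fun i => (if i = a then t else 0) + (if i = b then 1 - t else 0)

lemma seg_cont (a b : Fin 5) : Continuous (seg a b) := by
  refine continuous_pi fun i => ?_
  unfold seg
  refine Continuous.add ?_ ?_
  · by_cases h1 : i = a
    · simp only [h1, if_true]; fun_prop
    · simp only [h1, if_false]; fun_prop
  · by_cases h1 : i = b
    · simp only [h1, if_true]; fun_prop
    · simp only [h1, if_false]; fun_prop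

/-- the complete graph `K₅` -/
def KK : Set (Fin 5 → ℝ) := {x | ∃ a b : Fin 5, ∃ t ∈ Icc (0 : ℝ) 1, x = seg a b t}

/-- the parametrisation of `K₅` -/
noncomputable def Q (p : (Fin 5 × Fin 5) × Icc (0 : ℝ) 1) : KK :=
  ⟨seg p.1.1 p.1.2 p.2, p.1.1, p.1.2, p.2, p.2.2, rfl⟩

lemma Q_cont : Continuous Q := by
  refine Continuous.subtype_mk ?_ _
  rw [continuous_prod_of_discrete_left]
  intro a
  exact (seg_cont a.1 a.2).comp continuous_subtype_val

lemma Q_surj : Function.Surjective Q := by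
  rintro ⟨x, a, b, t, ht, rfl⟩
  exact ⟨((a, b), ⟨t, ht⟩), rfl⟩

instance : CompactSpace KK := Function.Surjective.compactSpace Q_cont Q_surj

instance : LocallyPathConnectedSpace (Icc (0 : ℝ) 1) :=
  (convex_Icc 0 1).locallyPathConnectedSpace

instance : LocallyConnectedSpace KK :=
  (Q_cont.isClosedMap.isQuotientMap Q_cont Q_surj).isCoinducing.locallyConnectedSpace

/-- an edge -/
def Ed (a b : Fin 5) : Set KK := {x | ∃ t ∈ Icc (0 : ℝ) 1, (x : Fin 5 → ℝ) = seg a b t}

lemma Ed_eq (a b : Fin 5) : Ed a b = Q '' ({(a, b)} ×ˢ univ) := by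
  ext x
  constructor
  · rintro ⟨t, ht, hx⟩
    exact ⟨((a, b), ⟨t, ht⟩), ⟨rfl, trivial⟩, Subtype.ext hx.symm⟩
  · rintro ⟨⟨p, t⟩, ⟨hp, -⟩, rfl⟩
    rw [mem_singleton_iff] at hp
    simp only at hp
    subst hp
    exact ⟨t, t.2, rfl⟩

lemma Ed_conn (a b : Fin 5) : IsConnected (Ed a b) := by
  rw [Ed_eq]
  exact (isConnected_singleton.prod isConnected_univ).image _ Q_cont.continuousOn

lemma Ed_closed (a b : Fin 5) : IsClosed (Ed a b) := by
  rw [Ed_eq]
  exact ((isCompact_singleton.prod isCompact_univ).image Q_cont).isClosed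

/-- a vertex -/
noncomputable def vt (a : Fin 5) : KK := ⟨seg a a 1, a, a, 1, by simp, rfl⟩

lemma vt_mem_left (a b : Fin 5) : vt a ∈ Ed a b := by
  refine ⟨1, by simp, ?_⟩
  funext i
  simp [vt, seg]

lemma vt_mem_right (a b : Fin 5) : vt b ∈ Ed a b := by
  refine ⟨0, by simp, ?_⟩
  funext i
  simp [vt, seg]

lemma Ed_disj (a b c d : Fin 5) (h1 : a ≠ c) (h2 : a ≠ d) (h3 : b ≠ c) (h4 : b ≠ d) :
    Disjoint (Ed a b) (Ed c d) := by
  rw [Set.disjoint_left]
  rintro x ⟨t, ht, hx⟩ ⟨s, hs, hx'⟩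
  have ha := congrFun (hx.symm.trans hx') a
  have hb := congrFun (hx.symm.trans hx') b
  simp only [seg, h1, h2, h3, h4, if_true, if_false] at ha hb
  by_cases hab : a = b
  · simp [hab] at ha
  · have hba : b ≠ a := fun h => hab h.symm
    simp only [hab, hba, if_false] at ha hb
    linarith

instance : ConnectedSpace KK := by
  have h : ∀ x : KK, ∃ s : Set KK, vt 0 ∈ s ∧ x ∈ s ∧ IsPreconnected s := by
    rintro ⟨x, a, b, t, ht, hx⟩
    refine ⟨Ed 0 a ∪ Ed a b, Or.inl (vt_mem_left 0 a), Or.inr ⟨t, ht, hx⟩, ?_⟩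
    exact (Ed_conn 0 a).isPreconnected.union (vt a) (vt_mem_right 0 a) (vt_mem_left a b)
      (Ed_conn a b).isPreconnected
  rw [connectedSpace_iff_univ]
  refine ⟨⟨vt 0, trivial⟩, ?_⟩
  refine isPreconnected_of_forall (vt 0) fun x _ => ?_
  obtain ⟨s, h1, h2, h3⟩ := h x
  exact ⟨s, subset_univ _, h1, h2, h3⟩

lemma vt_inj : Function.Injective vt := by
  intro a b h
  by_contra hab
  have h1 := congrFun (congrArg Subtype.val h) a
  simp [vt, seg, hab] at h1

instance : Nontrivial KK := ⟨vt 0, vt 1, fun h => by simpa using vt_inj h⟩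

/-- a point with two positive coordinates lies on the corresponding edge -/
lemma mem_edge {x : KK} {a b : Fin 5} (hab : a ≠ b) (ha : 0 < (x : Fin 5 → ℝ) a)
    (hb : 0 < (x : Fin 5 → ℝ) b) : (x : Fin 5 → ℝ) = seg a b ((x : Fin 5 → ℝ) a) := by
  obtain ⟨x, c, d, t, ht, rfl⟩ := x
  simp only at ha hb ⊢
  have hca : a = c ∨ a = d := by
    by_contra h
    push Not at h
    simp [seg, h.1, h.2] at ha
  have hcb : b = c ∨ b = d := by
    by_contra h
    push Not at h
    simp [seg, h.1, h.2] at hb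
  rcases hca with rfl | rfl <;> rcases hcb with rfl | rfl
  · exact absurd rfl hab
  · funext i
    simp [seg, hab]
  · funext i
    have hab' : ¬ b = a := fun h => hab h.symm
    simp only [seg, hab, if_true, if_false]
    by_cases h1 : i = a <;> by_cases h2 : i = b <;> simp [h1, h2, hab, hab']
  · exact absurd rfl hab

/-- every nondegenerate connected set contains a nonempty open set -/
lemma interior_nonempty {L : Set KK} (hL : IsConnected L) (hn : L.Nontrivial) :
    ∃ U : Set KK, IsOpen U ∧ U.Nonempty ∧ U ⊆ L := by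
  classical
  by_contra hcon
  push Not at hcon
  -- a point of `L` which is not a vertex
  have h1 : ∃ x ∈ L, x ∉ range vt := by
    by_contra h
    push Not at h
    exact (hL.isPreconnected.infinite_of_nontrivial hn) ((finite_range vt).subset h)
  obtain ⟨x, hxL, hxv⟩ := h1
  have h2 : ∃ a b : Fin 5, a ≠ b ∧ 0 < (x : Fin 5 → ℝ) a ∧ 0 < (x : Fin 5 → ℝ) b := by
    obtain ⟨x, a, b, t, ht, rfl⟩ := x
    by_cases hab : a = b
    · subst hab
      exfalso
      apply hxv
      refine ⟨a, ?_⟩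
      apply Subtype.ext
      funext i
      by_cases h : i = a <;> simp [vt, seg, h]
    · have ht0 : t ≠ 0 := by
        rintro rfl
        apply hxv
        refine ⟨b, ?_⟩
        apply Subtype.ext
        funext i
        simp [vt, seg]
      have ht1 : t ≠ 1 := by
        rintro rfl
        apply hxv
        refine ⟨a, ?_⟩
        apply Subtype.ext
        funext i
        simp [vt, seg]
      have hba : ¬ b = a := fun h => hab h.symm
      refine ⟨a, b, hab, ?_, ?_⟩
      · simp only [seg, if_true, hab, if_false]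
        have := lt_of_le_of_ne ht.1 (Ne.symm ht0)
        linarith
      · simp only [seg, if_true, hba, if_false]
        have := lt_of_le_of_ne ht.2 ht1
        linarith
  obtain ⟨a, b, hab, ha, hb⟩ := h2
  have hba : b ≠ a := hab.symm
  -- another point
  obtain ⟨y, hyL, hyx⟩ := hn.exists_ne x
  have hxe := mem_edge hab ha hb
  set t0 : ℝ := (x : Fin 5 → ℝ) a with ht0
  have hxb : (x : Fin 5 → ℝ) b = 1 - t0 := by
    rw [hxe]; simp [seg, hba]
  -- the point at parameter `s`
  have hpt : ∀ s : ℝ, 0 < s → s < 1 → ∃ z : KK, (z : Fin 5 → ℝ) = seg a b s := fun s h1 h2 =>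
    ⟨⟨seg a b s, a, b, s, ⟨h1.le, h2.le⟩, rfl⟩, rfl⟩
  have hca : ∀ i, Continuous fun z : KK => (z : Fin 5 → ℝ) i := fun i =>
    (continuous_apply i).comp continuous_subtype_val
  -- points outside `L` in every parameter interval
  have hout : ∀ u v : ℝ, 0 ≤ u → u < v → v ≤ 1 →
      ∃ z : KK, z ∉ L ∧ (z : Fin 5 → ℝ) = seg a b ((z : Fin 5 → ℝ) a) ∧
        u < (z : Fin 5 → ℝ) a ∧ (z : Fin 5 → ℝ) a < v := by
    intro u v hu huv hv
    have hop : IsOpen {z : KK | 0 < (z : Fin 5 → ℝ) b ∧ u < (z : Fin 5 → ℝ) a ∧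
        (z : Fin 5 → ℝ) a < v} :=
      (isOpen_lt continuous_const (hca b)).inter
        ((isOpen_lt continuous_const (hca a)).inter (isOpen_lt (hca a) continuous_const))
    have hne : {z : KK | 0 < (z : Fin 5 → ℝ) b ∧ u < (z : Fin 5 → ℝ) a ∧
        (z : Fin 5 → ℝ) a < v}.Nonempty := by
      obtain ⟨z, hz⟩ := hpt ((u + v) / 2) (by linarith) (by linarith)
      refine ⟨z, ?_, ?_, ?_⟩
      · rw [hz]; simp only [seg, hba, if_true, if_false]; linarith
      · rw [hz]; simp only [seg, hab, if_true, if_false]; linarith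
      · rw [hz]; simp only [seg, hab, if_true, if_false]; linarith
    obtain ⟨z, ⟨hz1, hz2, hz3⟩, hzL⟩ := not_subset.1 (hcon _ hop hne)
    exact ⟨z, hzL, mem_edge hab (hu.trans_lt hz2) hz1, hz2, hz3⟩
  -- choose the interval
  have ht1 : t0 < 1 := by rw [hxb] at hb; linarith
  obtain ⟨δ, hδ, hδy⟩ : ∃ δ : ℝ, 0 < δ ∧ ((y : Fin 5 → ℝ) = seg a b ((y : Fin 5 → ℝ) a) →
      δ ≤ |(y : Fin 5 → ℝ) a - t0|) := by
    by_cases h : (y : Fin 5 → ℝ) = seg a b ((y : Fin 5 → ℝ) a)
    · refine ⟨|(y : Fin 5 → ℝ) a - t0|, abs_pos.2 ?_, fun _ => le_rfl⟩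
      intro h0
      apply hyx
      apply Subtype.ext
      rw [h, sub_eq_zero.1 h0, ← hxe]
    · exact ⟨1, one_pos, fun h' => absurd h' h⟩
  obtain ⟨z, hzL, hz1, hz2, hz3⟩ := hout (max 0 (t0 - δ)) t0 (le_max_left _ _)
    (max_lt ha (by linarith)) ht1.le
  obtain ⟨w, hwL, hw1, hw2, hw3⟩ := hout t0 (min 1 (t0 + δ)) ha.le
    (lt_min ht1 (by linarith)) (min_le_left _ _)
  set s := (z : Fin 5 → ℝ) a with hs
  set s' := (w : Fin 5 → ℝ) a with hs'
  have hs0 : 0 < s := (le_max_left _ _).trans_lt hz2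
  have hsδ : t0 - δ < s := (le_max_right _ _).trans_lt hz2
  have hs1 : s' < 1 := hw3.trans_le (min_le_left _ _)
  have hs1δ : s' < t0 + δ := hw3.trans_le (min_le_right _ _)
  have hV : IsOpen {q : KK | 0 < (q : Fin 5 → ℝ) b ∧ s < (q : Fin 5 → ℝ) a ∧
      (q : Fin 5 → ℝ) a < s'} :=
    (isOpen_lt continuous_const (hca b)).inter
      ((isOpen_lt continuous_const (hca a)).inter (isOpen_lt (hca a) continuous_const))
  have hW : IsOpen {q : KK | (q : Fin 5 → ℝ) a < s ∨ s' < (q : Fin 5 → ℝ) a ∨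
      (q : Fin 5 → ℝ) b < 1 - s'} :=
    (isOpen_lt (hca a) continuous_const).union
      ((isOpen_lt continuous_const (hca a)).union (isOpen_lt (hca b) continuous_const))
  have hpre := hL.isPreconnected _ _ hV hW ?_ ⟨x, hxL, hb, hz3, hw2⟩ ⟨y, hyL, ?_⟩
  · obtain ⟨q, -, ⟨hq1, hq2, hq3⟩, hq4⟩ := hpre
    have hq := mem_edge hab (hs0.trans hq2) hq1
    have hqb : (q : Fin 5 → ℝ) b = 1 - (q : Fin 5 → ℝ) a := by
      conv_lhs => rw [hq]
      simp [seg, hba]
    rcases hq4 with h | h | h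
    · linarith
    · linarith
    · linarith
  · intro q hq
    by_contra hcn
    simp only [mem_union, mem_ofPred_eq, not_or, not_and, not_lt] at hcn
    obtain ⟨hc1, hc2, hc3, hc4⟩ := hcn
    have hqb : 0 < (q : Fin 5 → ℝ) b := by linarith
    have hqa : 0 < (q : Fin 5 → ℝ) a := by linarith
    have hqe := mem_edge hab hqa hqb
    have hne1 : (q : Fin 5 → ℝ) a ≠ s := by
      intro h
      apply hzL
      have : z = q := Subtype.ext (by rw [hz1, hqe, h])
      rw [this]; exact hq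
    have hne2 : (q : Fin 5 → ℝ) a ≠ s' := by
      intro h
      apply hwL
      have : w = q := Subtype.ext (by rw [hw1, hqe, h])
      rw [this]; exact hq
    have h5 : s < (q : Fin 5 → ℝ) a := lt_of_le_of_ne hc2 (Ne.symm hne1)
    exact absurd (hc1 hqb h5) (not_le.2 (lt_of_le_of_ne hc3 hne2))
  · by_contra hcn
    simp only [mem_ofPred_eq, not_or, not_lt] at hcn
    obtain ⟨hc2, hc3, hc4⟩ := hcn
    have hyb : 0 < (y : Fin 5 → ℝ) b := by linarith
    have hya : 0 < (y : Fin 5 → ℝ) a := by linarith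
    have h6 := hδy (mem_edge hab hya hyb)
    have h7 : |(y : Fin 5 → ℝ) a - t0| < δ := by
      rw [abs_lt]; constructor <;> linarith
    linarith

/-- `K₅` is not a monotone image of a plane continuum -/
theorem no_planar (S : Set (EuclideanSpace ℝ (Fin 2))) (f : ↥S → KK) (hSc : IsCompact S)
    (hf : Continuous f) (hsurj : Function.Surjective f)
    (hfib : ∀ y, IsPreconnected (f ⁻¹' {y})) : False := by
  haveI : CompactSpace S := isCompact_iff_compactSpace.1 hSc
  set φ : S → ℂ := fun x => Complex.orthonormalBasisOneI.repr.symm (x : EuclideanSpace ℝ (Fin 2))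
    with hφ
  have hφc : Continuous φ :=
    Complex.orthonormalBasisOneI.repr.symm.continuous.comp continuous_subtype_val
  have hφi : Function.Injective φ :=
    Complex.orthonormalBasisOneI.repr.symm.injective.comp Subtype.val_injective
  let T : Set KK → Set ℂ := fun E => φ '' (f ⁻¹' E)
  have hTc : ∀ E : Set KK, IsClosed E → IsCompact (T E) := fun E hE =>
    (hE.preimage hf).isCompact.image hφc
  have hTconn : ∀ E : Set KK, IsClosed E → IsConnected E → IsConnected (T E) := by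
    intro E hE hEc
    refine IsConnected.image ⟨?_, preimage_preconnected f hf hsurj hfib hE hEc.isPreconnected⟩ _
      hφc.continuousOn
    obtain ⟨y, hy⟩ := hEc.nonempty
    obtain ⟨x, rfl⟩ := hsurj y
    exact ⟨x, hy⟩
  have hTd : ∀ E E' : Set KK, Disjoint E E' → Disjoint (T E) (T E') := by
    intro E E' h
    exact (disjoint_image_iff hφi).2 (h.preimage f)
  have hδ : ∀ q : (Fin 5 × Fin 5) × (Fin 5 × Fin 5), ∃ δ : ℝ, 0 < δ ∧
      (q.1.1 ≠ q.2.1 → q.1.1 ≠ q.2.2 → q.1.2 ≠ q.2.1 → q.1.2 ≠ q.2.2 →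
        Disjoint (thickening δ (T (Ed q.1.1 q.1.2))) (thickening δ (T (Ed q.2.1 q.2.2)))) := by
    intro q
    by_cases h : q.1.1 ≠ q.2.1 ∧ q.1.1 ≠ q.2.2 ∧ q.1.2 ≠ q.2.1 ∧ q.1.2 ≠ q.2.2
    · obtain ⟨h1, h2, h3, h4⟩ := h
      obtain ⟨δ, hδ, hd⟩ := (hTd _ _ (Ed_disj _ _ _ _ h1 h2 h3 h4)).exists_thickenings
        (hTc _ (Ed_closed _ _)) (hTc _ (Ed_closed _ _)).isClosed
      exact ⟨δ, hδ, fun _ _ _ _ => hd⟩
    · exact ⟨1, one_pos, fun h1 h2 h3 h4 => absurd ⟨h1, h2, h3, h4⟩ h⟩
  choose δ hδ0 hδd using hδ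
  set δ₀ : ℝ := Finset.univ.inf' Finset.univ_nonempty δ with hδ₀
  have hpos : 0 < δ₀ := by
    rw [hδ₀, Finset.lt_inf'_iff]
    exact fun q _ => hδ0 q
  have hle : ∀ q, δ₀ ≤ δ q := fun q => Finset.inf'_le _ (Finset.mem_univ q)
  choose x hx using fun a : Fin 5 => hsurj (vt a)
  refine Pool.Agent.Helper805.CHS.VK.k5_joined (fun a => φ (x a))
    (fun a b => thickening δ₀ (T (Ed a b))) ?_ ?_
  · intro a b _
    refine thickening_joined (hTconn _ (Ed_closed a b) (Ed_conn a b)) hpos ?_ ?_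
    · exact ⟨x a, by rw [mem_preimage, hx]; exact vt_mem_left a b, rfl⟩
    · exact ⟨x b, by rw [mem_preimage, hx]; exact vt_mem_right a b, rfl⟩
  · intro a b c d _ _ h1 h2 h3 h4
    exact (hδd ((a, b), (c, d)) h1 h2 h3 h4).mono
      (thickening_mono (hle _) _) (thickening_mono (hle _) _)

/-- The negation of the preceding statement: Take any nondegenerate locally connected metric continuum Y in which every subcontinuum without cut points is completely regular. Then some plane continuum X has a continuous open surjection onto Y whose fibers are all nondegenerate decomposable continua. -/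
theorem result :
    ¬ (∀ (Y : Type) [TopologicalSpace Y] [TopologicalSpace.MetrizableSpace Y] [CompactSpace Y]
      [ConnectedSpace Y] [LocallyConnectedSpace Y] [Nontrivial Y],
      (∀ K : Set Y, IsClosed K → IsConnected K → (∀ p ∈ K, IsPreconnected (K \ {p})) →
        ∀ L : Set Y, L ⊆ K → IsClosed L → IsConnected L → L.Nontrivial →
          ∃ U : Set Y, IsOpen U ∧ (U ∩ K).Nonempty ∧ U ∩ K ⊆ L) →
      ∃ (S : Set (EuclideanSpace ℝ (Fin 2))) (f : ↥S → Y),
        IsCompact S ∧ IsConnected S ∧ Continuous f ∧ IsOpenMap f ∧ Function.Surjective f ∧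
        ∀ y : Y,
          IsConnected (Subtype.val '' (f ⁻¹' {y})) ∧
          (Subtype.val '' (f ⁻¹' {y})).Nontrivial ∧
          ∃ A B : Set (EuclideanSpace ℝ (Fin 2)),
            IsClosed A ∧ IsConnected A ∧ IsClosed B ∧ IsConnected B ∧
            A ⊂ Subtype.val '' (f ⁻¹' {y}) ∧ B ⊂ Subtype.val '' (f ⁻¹' {y}) ∧
            A ∪ B = Subtype.val '' (f ⁻¹' {y})) := by
  intro H
  obtain ⟨S, f, hSc, hSconn, hf, -, hsurj, hfib⟩ := H KK (by
    intro K _ _ _ L hLK _ hLc hLn
    obtain ⟨U, hU, hne, hUL⟩ := interior_nonempty hLc hLn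
    refine ⟨U, hU, ?_, fun z hz => hUL hz.1⟩
    obtain ⟨z, hz⟩ := hne
    exact ⟨z, hz, hLK (hUL hz)⟩)
  exact no_planar S f hSc hf hsurj fun y =>
    Topology.IsInducing.subtypeVal.isPreconnected_image.1 (hfib y).1.isPreconnected

end Pool.Agent.S14090
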