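import Pool.Statements.S14257
import Pool.Agent.Q148.Congr.Hyp

set_option autoImplicit false
open Pool Pool.MP_f7c3cd_gt

namespace Pool.Agent.S14257

open Classical in
/-- The member of `{B, Bᶜ}` which contains `j₀`. -/
noncomputable def nrm {I : Type} (j₀ : I) (B : Set I) : Set I := if j₀ ∈ B then B else Bᶜ

theorem mem_nrm {I : Type} (j₀ : I) (B : Set I) : j₀ ∈ nrm j₀ B := by
  unfold nrm
  split_ifs with h
  · exact h
  · exact h

theorem nrm_ne_univ {I : Type} (j₀ : I) {B : Set I} (h1 : B.Nonempty) (h2 : B ≠ Set.univ) :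
    nrm j₀ B ≠ Set.univ := by
  unfold nrm
  split_ifs with h
  · exact h2
  · intro h3
    obtain ⟨x, hx⟩ := h1
    have : x ∈ Bᶜ := by rw [h3]; trivial
    exact this hx

/-- Every proper system of at most continuum many congruences among at most continuum many (nonempty index set) sets has a solution: a partition of the hyperbolic plane where each congruence holds via some hyperbolic isometry. -/
theorem result :
    ∀ (I M : Type) (L R : M → Set I),
      Nonempty I →
      Cardinal.mk I ≤ Cardinal.continuum →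
      Cardinal.mk M ≤ Cardinal.continuum →
      (∀ i, (L i).Nonempty ∧ L i ≠ Set.univ ∧ (R i).Nonempty ∧ R i ≠ Set.univ) →
      ∃ A : I → Set UpperHalfPlane,
        Pairwise (fun j k => Disjoint (A j) (A k)) ∧
        (⋃ j, A j) = Set.univ ∧
        ∀ i, ∃ g : IsometryEquiv UpperHalfPlane UpperHalfPlane,
          g '' (⋃ j ∈ L i, A j) = ⋃ j ∈ R i, A j := by
  classical
  intro I M L R hI _ hM hLR
  obtain ⟨j₀⟩ := hI
  let κ : Type := {N : Set I // ∃ i : M, N = nrm j₀ (L i) ∨ N = nrm j₀ (R i)}
  have hκ : Cardinal.mk κ ≤ Cardinal.continuum := by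
    let F : M ⊕ M → κ := fun s => match s with
      | Sum.inl i => ⟨nrm j₀ (L i), i, Or.inl rfl⟩
      | Sum.inr i => ⟨nrm j₀ (R i), i, Or.inr rfl⟩
    have hF : Function.Surjective F := by
      rintro ⟨N, i, h | h⟩
      · exact ⟨Sum.inl i, Subtype.ext h.symm⟩
      · exact ⟨Sum.inr i, Subtype.ext h.symm⟩
    refine (Cardinal.mk_le_of_surjective hF).trans ?_
    rw [Cardinal.mk_sum, Cardinal.lift_id]
    exact (add_le_add hM hM).trans (Cardinal.add_eq_self Cardinal.aleph0_le_continuum).le
  obtain ⟨P, f, hPf, hfix⟩ := Pool.Agent.Q148.Congr.exists_pingpong κ hκ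
  obtain ⟨E, j, hE, hj⟩ := Pool.Agent.Q148.Congr.exists_solution P (N := fun k : κ => k.1) j₀
    (by
      rintro ⟨N, i, rfl | rfl⟩
      · exact mem_nrm _ _
      · exact mem_nrm _ _)
    (by
      rintro ⟨N, i, rfl | rfl⟩
      · exact nrm_ne_univ _ (hLR i).1 (hLR i).2.1
      · exact nrm_ne_univ _ (hLR i).2.2.1 (hLR i).2.2.2)
    Subtype.val_injective hfix
  refine ⟨fun i => {z | j z = i}, ?_, ?_, ?_⟩
  · intro a b hab
    rw [Set.disjoint_left]
    rintro z hz hz'
    exact hab (Eq.trans (Eq.symm hz) hz')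
  · rw [Set.eq_univ_iff_forall]
    intro z
    exact Set.mem_iUnion.2 ⟨j z, rfl⟩
  · have hU : ∀ B : Set I, (⋃ i ∈ B, {z | j z = i}) = {z | j z ∈ B} := by
      intro B
      ext z
      rw [Set.mem_iUnion₂]
      constructor
      · rintro ⟨i, hi, hz⟩
        have : j z = i := hz
        show j z ∈ B
        rw [this]; exact hi
      · intro hz
        exact ⟨j z, hz, rfl⟩
    -- description of the sets by means of `E`
    have hB : ∀ (B : Set I) (k : κ), k.1 = nrm j₀ B →
        {z | j z ∈ B} = f (some k) '' (if j₀ ∈ B then E else Eᶜ) := by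
      intro B k hk
      have hjk : ∀ z, j (f (some k) z) ∈ k.1 ↔ z ∈ E := fun z => by
        rw [← hPf]; exact hj k z
      ext z
      obtain ⟨w, rfl⟩ := (f (some k)).surjective z
      rw [(f (some k)).injective.mem_set_image]
      show j (f (some k) w) ∈ B ↔ _
      have h1 := hjk w
      rw [hk] at h1
      unfold nrm at h1
      split_ifs at h1 ⊢ with h
      · exact h1
      · rw [Set.mem_compl_iff] at h1 ⊢
        rw [← h1, not_not]
    have hf1 : ∀ z, f none z ∈ E ↔ z ∉ E := fun z => by
      rw [← hPf]; exact hE z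
    have hfE : f none '' E = Eᶜ := by
      ext z
      obtain ⟨w, rfl⟩ := (f none).surjective z
      rw [(f none).injective.mem_set_image, Set.mem_compl_iff, hf1, not_not]
    have hfE' : f none '' Eᶜ = E := by
      ext z
      obtain ⟨w, rfl⟩ := (f none).surjective z
      rw [(f none).injective.mem_set_image, hf1, Set.mem_compl_iff]
    intro i
    rw [hU, hU, hB (L i) ⟨nrm j₀ (L i), i, Or.inl rfl⟩ rfl,
      hB (R i) ⟨nrm j₀ (R i), i, Or.inr rfl⟩ rfl]
    set u := f (some ⟨nrm j₀ (L i), i, Or.inl rfl⟩)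
    set w := f (some ⟨nrm j₀ (R i), i, Or.inr rfl⟩)
    have hback : ∀ S : Set UpperHalfPlane, u.symm '' (u '' S) = S := by
      intro S
      rw [← Set.image_comp]
      simp
    have ht : ∀ (a b : UpperHalfPlane ≃ᵢ UpperHalfPlane) (S : Set UpperHalfPlane),
        (a.trans b) '' S = b '' (a '' S) := fun a b S => by
      rw [← Set.image_comp]; rfl
    by_cases hL : j₀ ∈ L i <;> by_cases hR : j₀ ∈ R i
    · refine ⟨u.symm.trans w, ?_⟩
      rw [if_pos hL, if_pos hR, ht, hback]
    · refine ⟨(u.symm.trans (f none)).trans w, ?_⟩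
      rw [if_pos hL, if_neg hR, ht, ht, hback, hfE]
    · refine ⟨(u.symm.trans (f none)).trans w, ?_⟩
      rw [if_neg hL, if_pos hR, ht, ht, hback, hfE']
    · refine ⟨u.symm.trans w, ?_⟩
      rw [if_neg hL, if_neg hR, ht, hback]

end Pool.Agent.S14257
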