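import Pool.Statements.S14445
import Pool.Agent.S15625

set_option autoImplicit false
open Pool Pool.MP_1dfe91_lc

namespace Pool.Agent.S14445

/-- For every field P and every polynomial algebra P[y1..ym], any two finite tuples satisfying the same first-order formulas (ring language with constants from P) are mapped one to the other by some P-algebra automorphism. -/
theorem result :
    ∀ (P : Type) [Field P] (m n : ℕ) (a b : Fin n → MvPolynomial (Fin m) P),
      (∀ φ : FirstOrder.Language.ring.Formula (Fin n ⊕ P),
        (@FirstOrder.Language.Formula.Realize FirstOrder.Language.ring (MvPolynomial (Fin m) P)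
            (FirstOrder.Ring.compatibleRingOfRing (MvPolynomial (Fin m) P)).toStructure
            (Fin n ⊕ P) φ (Sum.elim a (algebraMap P (MvPolynomial (Fin m) P))) ↔
          @FirstOrder.Language.Formula.Realize FirstOrder.Language.ring (MvPolynomial (Fin m) P)
            (FirstOrder.Ring.compatibleRingOfRing (MvPolynomial (Fin m) P)).toStructure
            (Fin n ⊕ P) φ (Sum.elim b (algebraMap P (MvPolynomial (Fin m) P))))) →
      ∃ σ : MvPolynomial (Fin m) P ≃ₐ[P] MvPolynomial (Fin m) P, ∀ i, σ (a i) = b i := by
  intro P _ m n a b H
  refine Pool.Agent.S15625.result P m n a b ?_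
  intro r c φ
  letI := (FirstOrder.Ring.compatibleRingOfRing (MvPolynomial (Fin m) P)).toStructure
  have key : ∀ w : Fin n → MvPolynomial (Fin m) P,
      (φ.relabel (Sum.map id c)).Realize
          (Sum.elim w (algebraMap P (MvPolynomial (Fin m) P))) ↔
        φ.Realize (Sum.elim w (fun i => algebraMap P (MvPolynomial (Fin m) P) (c i))) := by
    intro w
    rw [FirstOrder.Language.Formula.realize_relabel]
    have : (Sum.elim w (algebraMap P (MvPolynomial (Fin m) P)) ∘ (Sum.map id c) :
        Fin n ⊕ Fin r → MvPolynomial (Fin m) P) =
        Sum.elim w (fun i => algebraMap P (MvPolynomial (Fin m) P) (c i)) := by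
      funext i
      rcases i with i | i <;> rfl
    rw [this]
  rw [← key a, ← key b]
  exact H _

end Pool.Agent.S14445
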