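import Pool.Statements.S14568
import Pool.Agent.Q316.GenCol
-- import your own Pool.Agent.* helpers here

set_option autoImplicit false
open Classical
open Pool Pool.MP_354b3e_lc

namespace Pool.Agent.S14568

/-- The negation of the preceding statement: For every noncomputable A Turing-below the halting set there is a computable, locally finite, planar graph on ℕ whose neighbour lists are A-computable, with chromatic number 2, but with no computable proper colouring using finitely many colours. -/
theorem result :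
    ¬ (∀ A : Set ℕ,
      ¬ ComputablePred (fun n : ℕ => n ∈ A) →
      TuringReducible (fun n : ℕ => Part.some (if n ∈ A then (1 : ℕ) else 0))
        (fun n : ℕ => Part.some
          (if ((Denumerable.ofNat Nat.Partrec.Code n).eval n).Dom then (1 : ℕ) else 0)) →
      ∃ G : SimpleGraph ℕ,
        ComputablePred (fun p : ℕ × ℕ => G.Adj p.1 p.2) ∧
        (∃ N : ℕ → Finset ℕ, (∀ x y : ℕ, G.Adj x y ↔ y ∈ N x) ∧
          TuringReducible (fun x : ℕ => Part.some (Encodable.encode (N x)))
            (fun n : ℕ => Part.some (if n ∈ A then (1 : ℕ) else 0))) ∧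
        (∃ f : ℕ → EuclideanSpace ℝ (Fin 2), Function.Injective f ∧
          ∃ γ : ∀ u v : ℕ, Path (f u) (f v),
            (∀ u v : ℕ, G.Adj u v → Function.Injective (fun t : unitInterval => γ u v t)) ∧
            (∀ u v w : ℕ, G.Adj u v → ∀ t : unitInterval, γ u v t = f w → w = u ∨ w = v) ∧
            (∀ u v u' v' : ℕ, G.Adj u v → G.Adj u' v' →
              Sym2.mk (u, v) ≠ Sym2.mk (u', v') →
              ∀ t t' : unitInterval, γ u v t = γ u' v' t' →
                ∃ w : ℕ, (w = u ∨ w = v) ∧ (w = u' ∨ w = v') ∧ γ u v t = f w)) ∧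
        G.chromaticNumber = 2 ∧
        ∀ k : ℕ, ∀ c : ℕ → ℕ, Computable c → (∀ x, c x < k) →
          ∃ x y : ℕ, G.Adj x y ∧ c x = c y) := by
  intro H
  obtain ⟨A, hA, hAK, hmain⟩ := Pool.Agent.Q316.GC.main
  have hchi : ∀ B : Set ℕ, Pool.Agent.Helper578.JD.Defs.chi B =
      fun n : ℕ => Part.some (if n ∈ B then (1 : ℕ) else 0) := fun B => rfl
  have hK : Pool.Agent.Helper578.JD.Defs.chi Pool.Agent.Q316.GC.K = (fun n : ℕ => Part.some
      (if ((Denumerable.ofNat Nat.Partrec.Code n).eval n).Dom then (1 : ℕ) else 0)) := rfl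
  have hred : TuringReducible (fun n : ℕ => Part.some (if n ∈ A then (1 : ℕ) else 0))
      (fun n : ℕ => Part.some
        (if ((Denumerable.ofNat Nat.Partrec.Code n).eval n).Dom then (1 : ℕ) else 0)) := hAK
  obtain ⟨G, hG, ⟨N, hN, hNA⟩, -, hchr, hcol⟩ := H A hA hred
  have h2 : G.Colorable 2 := by
    have h3 : G.chromaticNumber ≤ (2 : ℕ) := by rw [hchr]; exact le_rfl
    exact SimpleGraph.chromaticNumber_le_iff_colorable.1 h3
  obtain ⟨C⟩ := h2
  obtain ⟨c, hc, hc4, hcG⟩ := hmain G hG N hN hNA (fun x => decide (C x = 0)) (by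
    intro x y hxy heq
    have h4 := C.valid hxy
    apply h4
    rw [decide_eq_decide] at heq
    have h5 : ∀ a b : Fin 2, (a = 0 ↔ b = 0) → a = b := by decide
    exact h5 _ _ heq)
  obtain ⟨x, y, hxy, heq⟩ := hcol 4 c hc hc4
  exact hcG x y hxy heq

end Pool.Agent.S14568
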