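import Pool.Statements.S14612
import Pool.Agent.Q301.NU.PosFr

set_option autoImplicit false
open Pool Pool.MP_3c695a_lc

namespace Pool.Agent.S14612

/-- The negation of the preceding statement: For every n, every infinite family of sets of naturals with a positive numbering whose membership relation is (n+2)-c.e. also has an injective numbering whose membership relation is (n+2)-c.e. -/
theorem result :
    ¬ (∀ n : ℕ, ∀ 𝒜 : Set (Set ℕ), 𝒜.Infinite →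
    (∃ ν : ℕ → Set ℕ, Set.range ν = 𝒜 ∧
      (∃ R : ℕ → ℕ × ℕ → Prop, (∀ i, REPred (R i)) ∧
        (∀ i j : ℕ, ∀ p : ℕ × ℕ, i ≤ j → R j p → R i p) ∧
        ∀ p : ℕ × ℕ, (p.2 ∈ ν p.1 ↔ Odd (Nat.card {i : Fin (n + 2) // R i.val p}))) ∧
      REPred (fun p : ℕ × ℕ => ν p.1 = ν p.2)) →
    ∃ μ : ℕ → Set ℕ, Set.range μ = 𝒜 ∧ Function.Injective μ ∧
      (∃ R : ℕ → ℕ × ℕ → Prop, (∀ i, REPred (R i)) ∧
        (∀ i j : ℕ, ∀ p : ℕ × ℕ, i ≤ j → R j p → R i p) ∧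
        ∀ p : ℕ × ℕ, (p.2 ∈ μ p.1 ↔ Odd (Nat.card {i : Fin (n + 2) // R i.val p})))) := by
  intro H
  have h1 : ∀ p : ℕ × ℕ, (p.2 ∈ Q301.NU.ν p.1 ↔
      Odd (Nat.card {i : Fin (0 + 2) // Q301.NU.RR i.val p})) := fun p =>
    (Q301.NU.odd_card2 (P := fun k => Q301.NU.RR k p) (Q301.NU.R10 p)).symm
  have h2 : REPred (fun p : ℕ × ℕ => Q301.NU.ν p.1 = Q301.NU.ν p.2) :=
    (Q301.NU.re_ex Q301.NU.comp_Ks).of_eq fun p => (Q301.NU.kernel p.1 p.2).symm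
  have key := H 0 (Set.range Q301.NU.ν) Q301.NU.ν_infinite
    ⟨Q301.NU.ν, rfl, ⟨Q301.NU.RR, Q301.NU.RR_re, Q301.NU.RR_anti, h1⟩, h2⟩
  obtain ⟨μ, hμ, hinj, R, hR, hanti, hmem⟩ := key
  · refine Q301.NU.no_inj (hR 0) (hR 1) (fun p => hanti 0 1 p (by omega)) (μ := μ) ?_ hμ hinj
    intro i x
    refine (hmem (i, x)).trans ?_
    exact Q301.NU.odd_card2 (P := fun k => R k (i, x)) (hanti 0 1 (i, x) (Nat.zero_le 1))

end Pool.Agent.S14612
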