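import Pool.Statements.S14780
import Pool.Agent.TH54.BU.Inf
import Pool.Agent.TH54.BU.Iter

set_option autoImplicit false
open Pool Pool.MP_604f1e_lc

namespace Pool.Agent.S14780

open Pool.Agent.TH54.BU

/-- `(v u)^(k+1) = v (u v)^k u` -/
theorem swap_pow {Q : Type*} [Monoid Q] (u v : Q) (k : ℕ) :
    (v * u) ^ (k + 1) = v * (u * v) ^ k * u := by
  induction k with
  | zero => simp
  | succ k ih =>
    rw [pow_succ (v * u), ih, pow_succ (u * v) k]
    simp only [mul_assoc]

/-- In a monoid with `x = x^(k+2)`: if `s` is divisible by `u` and by `v` then by `u v`. -/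
theorem div_mul {Q : Type*} [Monoid Q] {k : ℕ} (h : ∀ x : Q, x ^ (k + 2) = x) {s u v : Q}
    (hu : ∃ x y, s = x * u * y) (hv : ∃ z t, s = z * v * t) :
    ∃ x y, s = x * (u * v) * y := by
  obtain ⟨x, y, hu⟩ := hu
  obtain ⟨z, t, hv⟩ := hv
  have h2 : ∀ a : Q, a = a * a * a ^ k := fun a => by
    conv_lhs => rw [← h a]
    rw [show k + 2 = 1 + 1 + k by omega, pow_add, pow_add, pow_one]
  have h3 : v * u = v * (u * v) * (u * v) ^ k * u := by
    conv_lhs => rw [← h (v * u)]
    rw [swap_pow u v (k + 1), pow_succ' (u * v) k]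
    simp only [mul_assoc]
  have h4 : s = x * (u * (y * z) * v) * (t * s ^ k) := by
    calc s = s * s * s ^ k := h2 s
      _ = (x * u * y) * (z * v * t) * s ^ k := by rw [← hu, ← hv]
      _ = _ := by simp only [mul_assoc]
  have h5 : u * (y * z) * v = u * (y * z) * (v * u) * (y * z) * v * (u * (y * z) * v) ^ k := by
    conv_lhs => rw [h2 (u * (y * z) * v)]
    simp only [mul_assoc]
  refine ⟨x * (u * (y * z)) * v,
    (u * v) ^ k * u * (y * z) * v * (u * (y * z) * v) ^ k * (t * s ^ k), ?_⟩
  calc s = x * (u * (y * z) * v) * (t * s ^ k) := h4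
    _ = x * (u * (y * z) * (v * u) * (y * z) * v * (u * (y * z) * v) ^ k) * (t * s ^ k) := by
        rw [← h5]
    _ = x * (u * (y * z) * (v * (u * v) * (u * v) ^ k * u) * (y * z) * v *
          (u * (y * z) * v) ^ k) * (t * s ^ k) := by rw [← h3]
    _ = _ := by simp only [mul_assoc]

/-- The negation of the preceding statement: For every finite alphabet, all positive n and m, and every word w, the set of words congruent to w under the monoid congruence generated by x^n ~ x^(n+m) is accepted by some finite automaton. -/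
theorem result :
    ¬ (∀ (A : Type) [Fintype A] (n m : ℕ), 0 < n → 0 < m →
      ∀ w : FreeMonoid A,
        ∃ (σ : Type) (_ : Fintype σ) (M : DFA A σ),
          M.accepts =
            {v : List A |
              conGen (fun a b : FreeMonoid A => ∃ x : FreeMonoid A, a = x ^ n ∧ b = x ^ (n + m))
                (FreeMonoid.ofList v) w}) := by
  intro hall
  obtain ⟨p0, hp0⟩ := burnside
  obtain ⟨p, hpp, hp⟩ := Nat.exists_infinite_primes p0
  have hinf : Infinite (FreeGroup (Fin 2) ⧸ powSub (FreeGroup (Fin 2)) p) :=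
    Burn.infinite hp (hp0 p hp hpp)
  obtain ⟨k, rfl⟩ : ∃ k, p = k + 1 := ⟨p - 1, by have := hp.pos; omega⟩
  let G := FreeGroup (Fin 2) ⧸ powSub (FreeGroup (Fin 2)) (k + 1)
  let c : Con (FreeMonoid (Fin 2)) :=
    conGen (fun a b : FreeMonoid (Fin 2) => ∃ x : FreeMonoid (Fin 2), a = x ^ 1 ∧
      b = x ^ (1 + (k + 1)))
  -- the group has exponent `p`
  have hexp : ∀ g : G, g ^ (k + 1) = 1 := by
    intro g
    obtain ⟨g, rfl⟩ := QuotientGroup.mk_surjective g
    rw [← QuotientGroup.mk_pow, QuotientGroup.eq_one_iff]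
    exact Subgroup.subset_normalClosure ⟨g, rfl⟩
  let π : FreeMonoid (Fin 2) →* G :=
    FreeMonoid.lift fun i => ((FreeGroup.of i : FreeGroup (Fin 2)) : G)
  have hcπ : ∀ a b, c a b → π a = π b := by
    have : c ≤ Con.ker π := by
      apply Con.conGen_le.2
      rintro a b ⟨x, rfl, rfl⟩
      rw [Con.ker_rel, map_pow, pow_add, hexp, pow_one, mul_one]
    intro a b hab
    exact this hab
  have hsurj : ∀ g : G, ∃ v, π v = g := by
    have hinv : ∀ g : G, (∃ v, π v = g) → ∃ v, π v = g⁻¹ := by
      rintro g ⟨v, rfl⟩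
      refine ⟨v ^ k, ?_⟩
      rw [map_pow]
      apply eq_inv_of_mul_eq_one_left
      rw [← pow_succ, hexp]
    intro g
    obtain ⟨g, rfl⟩ := QuotientGroup.mk_surjective g
    induction g using FreeGroup.induction_on with
    | C1 => exact ⟨1, map_one π⟩
    | of i => exact ⟨FreeMonoid.of i, by simp [π]⟩
    | inv_of i ih => exact hinv _ ih
    | mul x y hx hy =>
      obtain ⟨v, hv⟩ := hx
      obtain ⟨w, hw⟩ := hy
      exact ⟨v * w, by rw [map_mul, hv, hw]; rfl⟩
  -- the quotient monoid
  have hQ : ∀ x : c.Quotient, x ^ (k + 2) = x := by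
    intro x
    obtain ⟨x, rfl⟩ := Con.mk'_surjective x
    rw [← map_pow]
    apply (Con.eq c).mpr
    apply c.symm
    apply ConGen.Rel.of
    exact ⟨x, (pow_one x).symm, by congr 1; omega⟩
  let w : FreeMonoid (Fin 2) := FreeMonoid.of 0 * FreeMonoid.of 1
  have hdiv : ∀ v : FreeMonoid (Fin 2), ∃ x y, (w : c.Quotient) = x * (v : c.Quotient) * y := by
    intro v
    induction v using FreeMonoid.recOn with
    | one => exact ⟨w, 1, by simp⟩
    | of_mul i v ih =>
      have hi : ∃ x y, (w : c.Quotient) = x * ((FreeMonoid.of i : FreeMonoid (Fin 2)) :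
          c.Quotient) * y := by
        fin_cases i
        · exact ⟨1, ((FreeMonoid.of 1 : FreeMonoid (Fin 2)) : c.Quotient), by simp [w]⟩
        · exact ⟨((FreeMonoid.of 0 : FreeMonoid (Fin 2)) : c.Quotient), 1, by simp [w]⟩
      have := div_mul hQ hi ih
      simpa using this
  obtain ⟨σ, _, M, hM⟩ := hall (Fin 2) 1 (k + 1) one_pos (Nat.succ_pos k) w
  have hacc : ∀ v : FreeMonoid (Fin 2), v.toList ∈ M.accepts ↔ c v w := by
    intro v
    rw [hM]
    rfl
  choose lift hlift using hsurj
  obtain ⟨g, h, hgh, heq⟩ := Finite.exists_ne_map_eq_of_infinite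
    (fun (g : G) (q : σ) => M.evalFrom q (lift g).toList)
  obtain ⟨x, y, hxy⟩ := hdiv (lift g)
  obtain ⟨x, rfl⟩ := Con.mk'_surjective x
  obtain ⟨y, rfl⟩ := Con.mk'_surjective y
  have h1 : c (x * lift g * y) w := by
    apply c.symm
    apply (Con.eq c).mp
    rw [hxy]
    rfl
  have h2 : c (x * lift h * y) w := by
    rw [← hacc] at h1 ⊢
    rw [DFA.mem_accepts, DFA.eval, FreeMonoid.toList_mul, FreeMonoid.toList_mul,
      DFA.evalFrom_of_append, DFA.evalFrom_of_append] at h1 ⊢
    have := congrFun heq (M.evalFrom M.start x.toList)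
    rw [← this]
    exact h1
  have h3 := hcπ _ _ h1
  have h4 := hcπ _ _ h2
  rw [← h4, map_mul, map_mul, map_mul, map_mul, mul_right_cancel_iff, mul_left_cancel_iff,
    hlift, hlift] at h3
  exact hgh h3

end Pool.Agent.S14780
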