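import Pool.Statements.S14895
-- import your own Pool.Agent.* helpers here

/-!
Proof. Let `x 0, x 1, …` be distinct members of the basis `X` and `b n = x n * (x (n+1))⁻²`.
For every `N` an automorphism of `G` maps `x n` to `b n` for all `n < N` (and fixes the other
members of `X`), so `b` and `x` have the same type. If `G` were homogeneous, there would be `d`
such that `(x 0, b)` and `(d, x)` have the same type. For every `m` the pair `(x 0, b)` satisfies
`∃ z_1, …, z_m, c = b 0 * z_1 ^ 2, z_1 = b 1 * z_2 ^ 2, …`, so `d = x 0 * z_1 ^ 2`,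
`z_1 = x 1 * z_2 ^ 2`, … is solvable. Let `ε_k` be the endomorphism which kills all members of `X`
except `x k`. It has values in the infinite cyclic group generated by `x k`, so it maps
`z_k = x k * z_(k+1) ^ 2` and therefore also `d` to a nontrivial element; but `ε_k d = 1` for all
but finitely many `k`.
-/

set_option autoImplicit false
open Pool Pool.MP_735cdd_lc

namespace Pool.Agent.S14895

open FirstOrder FirstOrder.Language

/-- the language of the statement -/
abbrev LG : FirstOrder.Language := FirstOrder.Language.mk (fun _ => Unit) (fun _ => Empty)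

/-- chain of `m` equations `y = v j * z * z`, `z = v (j+1) * z' * z'`, … -/
def Chain {G : Type} [Group G] (v : ℕ → G) : ℕ → ℕ → G → Prop
  | 0, _, _ => True
  | m + 1, j, y => ∃ z, y = v j * z * z ∧ Chain v m (j + 1) z

/-- the corresponding formula, the variable `y` being the last one of the bound variables -/
def F : (m j k : ℕ) → LG.BoundedFormula (Unit ⊕ ℕ) (k + 1)
  | 0, _, _ => ⊤
  | m + 1, j, k => BoundedFormula.ex
      ((BoundedFormula.equal (Term.var (Sum.inr (Fin.castSucc (Fin.last k))))
        (Term.func (L := LG) (l := 3) (() : Unit)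
          ![Term.var (Sum.inl (Sum.inr j)), Term.var (Sum.inr (Fin.last (k + 1))),
            Term.var (Sum.inr (Fin.last (k + 1)))])) ⊓ F m (j + 1) (k + 1))

theorem realize_F {G : Type} [Group G] [S : LG.Structure G]
    (hS : ∀ (n : ℕ) (f : LG.Functions n) (xs : Fin n → G),
      FirstOrder.Language.Structure.funMap f xs = (List.ofFn xs).prod)
    (m : ℕ) : ∀ (j k : ℕ) (w : Unit ⊕ ℕ → G) (xs : Fin (k + 1) → G),
      (F m j k).Realize w xs ↔ Chain (fun n => w (Sum.inr n)) m j (xs (Fin.last k)) := by
  induction m with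
  | zero =>
    intro j k w xs
    simp [F, Chain]
  | succ m ih =>
    intro j k w xs
    simp only [F, Chain, BoundedFormula.realize_ex, BoundedFormula.realize_inf]
    refine exists_congr fun z => ?_
    rw [ih]
    simp only [Fin.snoc_last]
    refine and_congr_left fun _ => ?_
    simp only [BoundedFormula.Realize, Term.realize, Sum.elim_inr, Sum.elim_inl]
    rw [hS]
    simp [List.ofFn_succ, mul_assoc, Fin.snoc]

/-- the formula with the free variables `c` and `v` -/
def F0 (m : ℕ) : LG.Formula (Unit ⊕ ℕ) :=
  BoundedFormula.ex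
      ((BoundedFormula.equal (Term.var (Sum.inl (Sum.inl ())))
        (Term.func (L := LG) (l := 3) (() : Unit)
          ![Term.var (Sum.inl (Sum.inr 0)), Term.var (Sum.inr (Fin.last 0)),
            Term.var (Sum.inr (Fin.last 0))])) ⊓ F m 1 0)

theorem realize_F0 {G : Type} [Group G] [S : LG.Structure G]
    (hS : ∀ (n : ℕ) (f : LG.Functions n) (xs : Fin n → G),
      FirstOrder.Language.Structure.funMap f xs = (List.ofFn xs).prod)
    (m : ℕ) (w : Unit ⊕ ℕ → G) :
    (F0 m).Realize w ↔ Chain (fun n => w (Sum.inr n)) (m + 1) 0 (w (Sum.inl ())) := by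
  simp only [F0, Chain, Formula.Realize, BoundedFormula.realize_ex, BoundedFormula.realize_inf]
  refine exists_congr fun z => ?_
  rw [realize_F hS]
  simp only [Fin.snoc_last]
  refine and_congr_left fun _ => ?_
  simp only [BoundedFormula.Realize, Term.realize, Sum.elim_inr, Sum.elim_inl]
  rw [hS]
  simp [List.ofFn_succ, mul_assoc, Fin.snoc]

/-- a formula depends on finitely many variables only -/
theorem dep {G : Type} [S : LG.Structure G] (φ : LG.Formula ℕ) :
    ∃ N : ℕ, ∀ v w : ℕ → G, (∀ n < N, v n = w n) → (φ.Realize v ↔ φ.Realize w) := by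
  refine ⟨φ.freeVarFinset.sup id + 1, fun v w h => ?_⟩
  have hv := BoundedFormula.realize_restrictFreeVar (φ := φ) (f := fun a => a) (v := fun a => v a)
    (xs := (default : Fin 0 → G)) v (fun a => rfl)
  have hw := BoundedFormula.realize_restrictFreeVar (φ := φ) (f := fun a => a) (v := fun a => w a)
    (xs := (default : Fin 0 → G)) w (fun a => rfl)
  have e : (fun a : φ.freeVarFinset => v a) = fun a : φ.freeVarFinset => w a := by
    funext a
    exact h _ (Nat.lt_succ_of_le (Finset.le_sup (f := id) a.2))
  rw [e] at hv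
  exact hv.symm.trans hw

/-- automorphisms preserve formulas -/
theorem auto {G : Type} [Group G] [S : LG.Structure G]
    (hS : ∀ (n : ℕ) (f : LG.Functions n) (xs : Fin n → G),
      FirstOrder.Language.Structure.funMap f xs = (List.ofFn xs).prod)
    (e : G ≃* G) (φ : LG.Formula ℕ) (v : ℕ → G) :
    φ.Realize (fun n => e (v n)) ↔ φ.Realize v := by
  let g : G ≃[LG] G :=
    { toEquiv := e.toEquiv
      map_fun' := by
        intro n f xs
        rw [hS, hS]
        simp [map_list_prod, List.map_ofFn, Function.comp_def]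
      map_rel' := by
        intro n r
        exact r.elim }
  exact StrongHomClass.realize_formula g φ (v := v)

variable {G : Type} [Group G]

/-- The images `x n ↦ x n * (x (n+1))⁻²`, `n < N`, are induced by an automorphism. -/
theorem exists_auto (X : Set G) (hgen : Subgroup.closure X = ⊤)
    (hfree : ∀ f : X → G, ∃ φ : G →* G, ∀ x : X, φ x = f x)
    (x : ℕ → X) (hx : Function.Injective x) (N : ℕ) :
    ∃ e : G ≃* G, (∀ n < N, e (x n : G) = x n * ((x (n + 1) : G)⁻¹ * (x (n + 1) : G)⁻¹)) ∧
      ∀ y : X, (∀ n < N, y ≠ x n) → e (y : G) = y := by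
  classical
  have hext : ∀ φ ψ : G →* G, (∀ y : X, φ y = ψ y) → φ = ψ := by
    intro φ ψ h
    refine MonoidHom.eq_of_eqOn_dense hgen ?_
    intro y hy
    exact h ⟨y, hy⟩
  induction N with
  | zero => exact ⟨MulEquiv.refl G, by simp, by simp⟩
  | succ N ih =>
    obtain ⟨e, he, he'⟩ := ih
    -- the elementary automorphism which changes `x N` only
    obtain ⟨φ, hφ⟩ := hfree (fun y => if y = x N then
      (x N : G) * ((x (N + 1) : G)⁻¹ * (x (N + 1) : G)⁻¹) else y)
    obtain ⟨ψ, hψ⟩ := hfree (fun y => if y = x N then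
      (x N : G) * ((x (N + 1) : G) * (x (N + 1) : G)) else y)
    have hne : x (N + 1) ≠ x N := fun h => by
      have := hx h
      omega
    have h1 : φ.comp ψ = MonoidHom.id G := by
      apply hext
      intro y
      simp only [MonoidHom.comp_apply, MonoidHom.id_apply]
      rw [hψ]
      by_cases hy : y = x N
      · subst hy
        simp only [if_true, map_mul, hφ, hne, if_false]
        group
      · simp [hy, hφ]
    have h2 : ψ.comp φ = MonoidHom.id G := by
      apply hext
      intro y
      simp only [MonoidHom.comp_apply, MonoidHom.id_apply]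
      rw [hφ]
      by_cases hy : y = x N
      · subst hy
        simp only [if_true, map_mul, map_inv, hψ, hne, if_false]
        group
      · simp [hy, hψ]
    let s : G ≃* G := MonoidHom.toMulEquiv φ ψ h2 h1
    have hs : ∀ y, s y = φ y := fun y => rfl
    have hinj : ∀ m n, m ≠ n → x m ≠ x n := fun m n h h' => h (hx h')
    refine ⟨s.trans e, ?_, ?_⟩
    · intro n hn
      rw [MulEquiv.trans_apply, hs]
      rcases Nat.lt_succ_iff_lt_or_eq.1 hn with h | rfl
      · rw [hφ, if_neg (hinj n N (by omega))]
        exact he n h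
      · rw [hφ, if_pos rfl, map_mul, map_mul, map_inv,
          he' (x n) (fun m hm => hinj n m (by omega)),
          he' (x (n + 1)) (fun m hm => hinj (n + 1) m (by omega))]
    · intro y hy
      rw [MulEquiv.trans_apply, hs, hφ, if_neg (hy N (by omega))]
      exact he' y fun n hn => hy n (by omega)

/-- The endomorphism `ε` kills the members of `X` different from `y` and fixes `y`. -/
theorem mem_zpowers (X : Set G) (hgen : Subgroup.closure X = ⊤) (y : X) (ε : G →* G)
    (h1 : ε y = y) (h2 : ∀ z : X, z ≠ y → ε z = 1) (g : G) :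
    ε g ∈ Subgroup.zpowers (y : G) := by
  have hg : g ∈ Subgroup.closure X := by rw [hgen]; trivial
  have : Subgroup.closure X ≤ (Subgroup.zpowers (y : G)).comap ε := by
    rw [Subgroup.closure_le]
    intro z hz
    by_cases h : (⟨z, hz⟩ : X) = y
    · subst h
      change ε z ∈ Subgroup.zpowers (z : G)
      rw [h1]
      exact Subgroup.mem_zpowers _
    · change ε z ∈ Subgroup.zpowers (y : G)
      rw [h2 ⟨z, hz⟩ h]
      exact Subgroup.one_mem _
  exact this hg

theorem finite_support (X : Set G) (hgen : Subgroup.closure X = ⊤)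
    (x : ℕ → X) (hx : Function.Injective x) (ε : ℕ → G →* G)
    (h2 : ∀ k, ∀ z : X, z ≠ x k → ε k z = 1) (g : G) :
    {k | ε k g ≠ 1}.Finite := by
  have hg : g ∈ Subgroup.closure X := by rw [hgen]; trivial
  induction hg using Subgroup.closure_induction with
  | mem z hz =>
    by_cases h : ∃ k, x k = ⟨z, hz⟩
    · obtain ⟨k, hk⟩ := h
      refine (Set.finite_singleton k).subset ?_
      intro j hj
      by_contra hjk
      refine hj (h2 j ⟨z, hz⟩ ?_)
      rw [← hk]
      exact fun h => hjk (hx h).symm
    · refine Set.finite_empty.subset ?_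
      intro j hj
      exact hj (h2 j ⟨z, hz⟩ (fun h' => h ⟨j, h'.symm⟩))
  | one => simp
  | mul a b _ _ ha hb =>
    refine (ha.union hb).subset ?_
    intro k hk
    by_contra hn
    simp only [Set.mem_union, Set.mem_ofPred_eq, not_or, not_not] at hn
    exact hk (by rw [map_mul, hn.1, hn.2, one_mul])
  | inv a _ ha =>
    refine ha.subset ?_
    intro k hk h
    exact hk (by rw [map_inv, h, inv_one])

theorem sq_ne (htf : ∀ g : G, ∀ n : ℕ, 0 < n → g ^ n = 1 → g = 1) (w : G) (hw : w ≠ 1) :
    w * w ≠ 1 := fun h => hw (htf w 2 (by norm_num) (by rw [pow_two, h]))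

theorem chain_ne (htf : ∀ g : G, ∀ n : ℕ, 0 < n → g ^ n = 1 → g = 1)
    (X : Set G) (hgen : Subgroup.closure X = ⊤) (x : ℕ → X) (hx : Function.Injective x)
    (hx1 : ∀ k, (x k : G) ≠ 1) (k : ℕ) (ε : G →* G)
    (h1 : ε (x k) = x k) (h2 : ∀ z : X, z ≠ x k → ε z = 1) :
    ∀ m j y, j ≤ k → k < j + m → Chain (fun n => (x n : G)) m j y → ε y ≠ 1 := by
  intro m
  induction m with
  | zero => intro j y hj hk; omega
  | succ m ih =>
    intro j y hj hk hy
    obtain ⟨z, rfl, hz⟩ := hy
    rcases Nat.lt_or_ge j k with h | h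
    · have hz' := ih (j + 1) z (by omega) (by omega) hz
      rw [map_mul, map_mul, h2 (x j) (fun h' => absurd (hx h') (by omega)), one_mul]
      exact sq_ne htf _ hz'
    · obtain rfl : j = k := le_antisymm hj h
      rw [map_mul, map_mul, h1]
      obtain ⟨i, hi⟩ := Subgroup.mem_zpowers_iff.1 (mem_zpowers X hgen (x j) ε h1 h2 z)
      rw [← hi]
      intro h0
      have h3 : (x j : G) ^ (1 + i + i) = 1 := by
        rw [zpow_add, zpow_add, zpow_one]; exact h0
      have h4 : (x j : G) ^ (1 + i + i).natAbs = 1 := by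
        rcases Int.natAbs_eq (1 + i + i) with h5 | h5
        · rw [h5, zpow_natCast] at h3
          exact h3
        · rw [h5, zpow_neg, zpow_natCast, inv_eq_one] at h3
          exact h3
      exact hx1 j (htf _ _ (by omega) h4)

/-- Every torsion-free group that is free in its own variety on an infinite basis fails ℵ1-homogeneity: some countable tuples a, b share a type, yet some element c has no d making (c,a) and (d,b) share a type. -/
theorem result :
  ∀ (G : Type) [Group G],
    (∀ g : G, ∀ n : ℕ, 0 < n → g ^ n = 1 → g = 1) →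
    (∃ X : Set G, X.Infinite ∧ Subgroup.closure X = ⊤ ∧
      ∀ f : X → G, ∃ φ : G →* G, ∀ x : X, φ x = f x) →
    ∀ [S : (FirstOrder.Language.mk (fun _ => Unit) (fun _ => Empty)).Structure G],
      (∀ (n : ℕ) (f : (FirstOrder.Language.mk (fun _ => Unit) (fun _ => Empty)).Functions n)
          (xs : Fin n → G),
        FirstOrder.Language.Structure.funMap f xs = (List.ofFn xs).prod) →
      ¬ ∀ a b : ℕ → G,
        (∀ φ : (FirstOrder.Language.mk (fun _ => Unit) (fun _ => Empty)).Formula ℕ,
          φ.Realize a ↔ φ.Realize b) →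
        ∀ c : G, ∃ d : G,
          ∀ ψ : (FirstOrder.Language.mk (fun _ => Unit) (fun _ => Empty)).Formula (Unit ⊕ ℕ),
            ψ.Realize (Sum.elim (fun _ => c) a) ↔ ψ.Realize (Sum.elim (fun _ => d) b) := by
  intro G _ htf hX S hS hhom
  classical
  obtain ⟨X, hXinf, hgen, hfree⟩ := hX
  let xe := hXinf.natEmbedding X
  let x : ℕ → X := fun n => xe n
  have hx : Function.Injective x := xe.injective
  have hx1 : ∀ k, (x k : G) ≠ 1 := by
    intro k hk
    obtain ⟨φ, hφ⟩ := hfree (fun _ => (x (k + 1) : G))
    obtain ⟨ψ, hψ⟩ := hfree (fun _ => (x k : G))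
    have h1 := hφ (x k)
    rw [hk, map_one] at h1
    have h2 : x k = x (k + 1) := Subtype.ext (hk.trans h1)
    exact absurd (hx h2) (by omega)
  let a : ℕ → G := fun n => (x n : G) * ((x (n + 1) : G)⁻¹ * (x (n + 1) : G)⁻¹)
  let b : ℕ → G := fun n => (x n : G)
  have hab : ∀ φ : LG.Formula ℕ, φ.Realize a ↔ φ.Realize b := by
    intro φ
    obtain ⟨N, hN⟩ := dep (G := G) φ
    obtain ⟨e, he, -⟩ := exists_auto X hgen hfree x hx N
    rw [hN a (fun n => e (b n)) (fun n hn => (he n hn).symm)]
    exact auto hS e φ b
  obtain ⟨d, hd⟩ := hhom a b hab (x 0 : G)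
  choose ε hε using fun k : ℕ => hfree (fun y => if y = x k then (y : G) else 1)
  have hε1 : ∀ k, ε k (x k) = x k := fun k => by rw [hε]; simp
  have hε2 : ∀ k, ∀ z : X, z ≠ x k → ε k z = 1 := fun k z hz => by rw [hε]; simp [hz]
  obtain ⟨k, hk⟩ := (finite_support X hgen x hx ε hε2 d).exists_notMem
  have hk' : ε k d = 1 := by simpa using hk
  have hchain : ∀ m j, Chain a m j (x j : G) := by
    intro m
    induction m with
    | zero => intro j; trivial
    | succ m ih =>
      intro j
      refine ⟨(x (j + 1) : G), ?_, ih (j + 1)⟩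
      simp only [a]
      group
  have h1 := (realize_F0 hS k (Sum.elim (fun _ => (x 0 : G)) a)).2 (by
    simpa using hchain (k + 1) 0)
  have h2 := (realize_F0 hS k (Sum.elim (fun _ => d) b)).1 ((hd (F0 k)).1 h1)
  have h3 : Chain b (k + 1) 0 d := by simpa using h2
  exact chain_ne htf X hgen x hx hx1 k (ε k) (hε1 k) (hε2 k) (k + 1) 0 d (by omega) (by omega) h3 hk'

end Pool.Agent.S14895
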