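import Pool.Statements.S15119
import Pool.Agent.Q302.B1Final

set_option autoImplicit false
open Filter Topology
open Pool Pool.MP_9ddde4_lc

namespace Pool.Agent.S15119

/-- There is a map sending each Baire class 1 function on the reals to a subset of the reals that is both F_sigma and G_delta, such that whenever f is pointwise strictly below g, the set for g is a proper subset of the set for f. -/
theorem result :
    ∃ Φ : (ℝ → ℝ) → Set ℝ,
      (∀ f : ℝ → ℝ,
        (∃ u : ℕ → ℝ → ℝ, (∀ n, Continuous (u n)) ∧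
          ∀ x, Tendsto (fun n => u n x) atTop (𝓝 (f x))) →
        IsGδ (Φ f) ∧ IsGδ (Φ f)ᶜ) ∧
      ∀ f g : ℝ → ℝ,
        (∃ u : ℕ → ℝ → ℝ, (∀ n, Continuous (u n)) ∧
          ∀ x, Tendsto (fun n => u n x) atTop (𝓝 (f x))) →
        (∃ v : ℕ → ℝ → ℝ, (∀ n, Continuous (v n)) ∧
          ∀ x, Tendsto (fun n => v n x) atTop (𝓝 (g x))) →
        f < g → Φ g ⊂ Φ f :=
  Pool.Agent.Q302.B1.main

end Pool.Agent.S15119
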