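import Pool.Statements.S15186
import Pool.Agent.Results.MP_a8f5d0_lc.LogSupply

set_option autoImplicit false
open Pool Pool.MP_a8f5d0_lc

namespace Pool.Agent.S15186

/-- The negation of the preceding statement: For each ε,α,β in (0,1) there is a supply s such that for all n, m and supplies ≥ s, some ε-jointly private mechanism on [0,1]-valued gross-substitute profiles always outputs feasible allocations with welfare ≥ OPT − αn with probability ≥ 1−β. -/
theorem result :
    ¬ (∀ ε α β : ℝ, 0 < ε → ε < 1 → 0 < α → α < 1 → 0 < β → β < 1 →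
  ∃ s : ℕ, ∀ n m : ℕ, ∀ supply : Fin m → ℕ, (∀ j, s ≤ supply j) →
  ∃ M : (Fin n → Finset (Fin m) → ℝ) → PMF (Fin n → Finset (Fin m)),
    (∀ v : Fin n → Finset (Fin m) → ℝ,
      (∀ i, (∀ S, 0 ≤ v i S ∧ v i S ≤ 1) ∧
        ∀ p q : Fin m → ℝ, p ≤ q → ∀ S : Finset (Fin m),
          (∀ T : Finset (Fin m), v i T - ∑ j ∈ T, p j ≤ v i S - ∑ j ∈ S, p j) →
          ∃ T : Finset (Fin m),
            (∀ U : Finset (Fin m), v i U - ∑ j ∈ U, q j ≤ v i T - ∑ j ∈ T, q j) ∧
            ∀ j ∈ S, q j = p j → j ∈ T) →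
      (∀ ω ∈ (M v).support, ∀ j : Fin m,
          (Finset.univ.filter (fun k : Fin n => j ∈ ω k)).card ≤ supply j) ∧
      (M v).toOuterMeasure {ω | ∀ ω' : Fin n → Finset (Fin m),
          (∀ j : Fin m, (Finset.univ.filter (fun k : Fin n => j ∈ ω' k)).card ≤ supply j) →
          ∑ k, v k (ω' k) - α * (n : ℝ) ≤ ∑ k, v k (ω k)} ≥ ENNReal.ofReal (1 - β)) ∧
    (∀ v : Fin n → Finset (Fin m) → ℝ,
      (∀ i, (∀ S, 0 ≤ v i S ∧ v i S ≤ 1) ∧
        ∀ p q : Fin m → ℝ, p ≤ q → ∀ S : Finset (Fin m),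
          (∀ T : Finset (Fin m), v i T - ∑ j ∈ T, p j ≤ v i S - ∑ j ∈ S, p j) →
          ∃ T : Finset (Fin m),
            (∀ U : Finset (Fin m), v i U - ∑ j ∈ U, q j ≤ v i T - ∑ j ∈ T, q j) ∧
            ∀ j ∈ S, q j = p j → j ∈ T) →
      ∀ (i : Fin n) (w : Finset (Fin m) → ℝ),
      ((∀ S, 0 ≤ w S ∧ w S ≤ 1) ∧
        ∀ p q : Fin m → ℝ, p ≤ q → ∀ S : Finset (Fin m),
          (∀ T : Finset (Fin m), w T - ∑ j ∈ T, p j ≤ w S - ∑ j ∈ S, p j) →
          ∃ T : Finset (Fin m),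
            (∀ U : Finset (Fin m), w U - ∑ j ∈ U, q j ≤ w T - ∑ j ∈ T, q j) ∧
            ∀ j ∈ S, q j = p j → j ∈ T) →
      ∀ S : Set ({k : Fin n // k ≠ i} → Finset (Fin m)),
        (M v).toOuterMeasure {ω | (fun k : {k : Fin n // k ≠ i} => ω k.1) ∈ S} ≤
          ENNReal.ofReal (Real.exp ε) *
            (M (Function.update v i w)).toOuterMeasure
              {ω | (fun k : {k : Fin n // k ≠ i} => ω k.1) ∈ S})) := by
  intro h
  obtain ⟨s, hs⟩ := h (1 / 2) (1 / 1000) (1 / 2) (by norm_num) (by norm_num) (by norm_num)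
    (by norm_num) (by norm_num) (by norm_num)
  have hfin : ∀ (n m : ℕ) (μ : PMF (Fin n → Finset (Fin m))) (E : Set (Fin n → Finset (Fin m))),
      μ.toOuterMeasure E ≠ ⊤ := by
    intro n m μ E
    refine ne_top_of_le_ne_top ENNReal.one_ne_top ?_
    rw [PMF.toOuterMeasure_apply, ← μ.tsum_coe]
    exact ENNReal.tsum_le_tsum fun a => Set.indicator_le_self _ _ _
  have hsuff : ∀ n m : ℕ, Pool.Agent.Helper555.JDP.Suffices
      Pool.Agent.Helper555.JDP.GrossSubstitutes n m (1 / 2) (1 / 1000) (1 / 2) s := by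
    intro n m
    classical
    have hs' := hs n m
    choose! M hM using hs'
    refine ⟨M, fun sup hsup => ⟨?_, ?_⟩⟩
    · intro i v w hv hw S
      have h1 := (hM sup hsup).2 v hv i w hw S
      unfold Pool.Agent.Helper555.JDP.Pr
      have h2 := ENNReal.toReal_mono
        (ENNReal.mul_ne_top ENNReal.ofReal_ne_top (hfin _ _ _ _)) h1
      rw [ENNReal.toReal_mul, ENNReal.toReal_ofReal (Real.exp_pos _).le] at h2
      exact h2
    · intro v hv
      obtain ⟨h1, h2⟩ := (hM sup hsup).1 v hv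
      refine ⟨h1, ?_⟩
      unfold Pool.Agent.Helper555.JDP.Pr
      have h3 : (M sup v).toOuterMeasure {ω | ∀ ω' : Fin n → Finset (Fin m),
          (∀ j : Fin m, (Finset.univ.filter (fun k : Fin n => j ∈ ω' k)).card ≤ sup j) →
          ∑ k, v k (ω' k) - (1 / 1000 : ℝ) * (n : ℝ) ≤ ∑ k, v k (ω k)} ≤
          (M sup v).toOuterMeasure {ω | Pool.Agent.Helper555.JDP.OPT sup v - (1 / 1000 : ℝ) * n ≤
            Pool.Agent.Helper555.JDP.welfare v ω} := by
        refine MeasureTheory.measure_mono ?_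
        intro ω hω
        have h4 : Pool.Agent.Helper555.JDP.OPT sup v ≤
            Pool.Agent.Helper555.JDP.welfare v ω + (1 / 1000 : ℝ) * n := by
          refine Pool.Agent.Helper555.JDP.OPT_le sup v _ fun ω' hω' => ?_
          have := hω ω' hω'
          unfold Pool.Agent.Helper555.JDP.welfare
          linarith
        show Pool.Agent.Helper555.JDP.OPT sup v - (1 / 1000 : ℝ) * n ≤
            Pool.Agent.Helper555.JDP.welfare v ω
        linarith
      have h5 := ENNReal.toReal_mono (hfin _ _ _ _) (le_trans h2 h3)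
      rw [ENNReal.toReal_ofReal (by norm_num)] at h5
      exact h5
  obtain ⟨m₀, hm₀⟩ := (Pool.Agent.Results.MP_a8f5d0_lc.LogSupply.result (1 / 2) (1 / 1000) (1 / 2)
    (by norm_num) (by norm_num) (by norm_num) (by norm_num) (by norm_num) (by norm_num)).2
  have hlog : Filter.Tendsto (fun m : ℕ => Real.log (m : ℝ)) Filter.atTop Filter.atTop :=
    Real.tendsto_log_atTop.comp tendsto_natCast_atTop_atTop
  obtain ⟨m, hm1, hm2⟩ := ((hlog.eventually_gt_atTop (s : ℝ)).and
    (Filter.eventually_ge_atTop m₀)).exists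
  obtain ⟨n, -, h1, -⟩ := hm₀ m hm2
  have h2 : Pool.Agent.Helper555.JDP.sStarWeak
      Pool.Agent.Helper555.JDP.GrossSubstitutes n m (1 / 2) (1 / 1000) (1 / 2) ≤ s :=
    Nat.sInf_le (hsuff n m).weak
  have h3 : ((Pool.Agent.Helper555.JDP.sStarWeak
      Pool.Agent.Helper555.JDP.GrossSubstitutes n m (1 / 2) (1 / 1000) (1 / 2) : ℕ) : ℝ) ≤ s := by
    exact_mod_cast h2
  have h4 : Real.log m / (2 * (1 / 2 : ℝ)) = Real.log m := by ring
  rw [h4] at h1
  linarith

end Pool.Agent.S15186
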