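import Pool.Statements.S15231
import Pool.Agent.Results.MP_e71ceb_lc.SuperatomicImpliesCWG

set_option autoImplicit false
open Pool Pool.MP_b066e3_lc

namespace Pool.Agent.S15231

open Pool.Agent.Results.MP_e71ceb_lc.SuperatomicImpliesCWG
open Pool.Agent.Helper718.CWG

section Aux

variable {P : Type} [PartialOrder P]

/-- The evaluation of an element of the algebra of sets of up-sets at an up-set. -/
def evS {S : BooleanSubalgebra (Set (UpperSet P))} (F : Set P) (b : S) : Prop :=
  ∃ h : IsUpperSet F, (⟨F, h⟩ : UpperSet P) ∈ (b : Set (UpperSet P))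

theorem low_iff (F : Set P) : Low (fun p q : P => q ≤ p) F ↔ IsUpperSet F := by
  constructor
  · intro h a b hab ha
    exact h (x := b) (y := a) hab ha
  · intro h a b hab hb
    exact h hab hb

theorem ev_closure {S : BooleanSubalgebra (Set (UpperSet P))}
    (hS : S = BooleanSubalgebra.closure (Set.range fun p : P => {U : UpperSet P | p ∈ U}))
    (x : P → S) (hx : ∀ p, ((x p : S) : Set (UpperSet P)) = {U : UpperSet P | p ∈ U}) :
    BooleanSubalgebra.closure (Set.range x) = ⊤ := by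
  rw [eq_top_iff]
  rintro ⟨c, hc⟩ -
  subst hS
  induction hc using BooleanSubalgebra.closure_bot_sup_induction with
  | mem c hc =>
    obtain ⟨p, rfl⟩ := hc
    apply BooleanSubalgebra.subset_closure
    exact ⟨p, Subtype.ext (hx p)⟩
  | bot => exact BooleanSubalgebra.bot_mem
  | sup c hc d hd ih1 ih2 => exact BooleanSubalgebra.sup_mem ih1 ih2
  | compl c hc ih => exact BooleanSubalgebra.compl_mem ih

theorem isEv {S : BooleanSubalgebra (Set (UpperSet P))}
    (hS : S = BooleanSubalgebra.closure (Set.range fun p : P => {U : UpperSet P | p ∈ U}))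
    (x : P → S) (hx : ∀ p, ((x p : S) : Set (UpperSet P)) = {U : UpperSet P | p ∈ U}) :
    Ev (fun p q : P => q ≤ p) x (evS (S := S)) := by
  have hcl := ev_closure hS x hx
  constructor
  · rintro F hF ⟨h, h1⟩
    exact h1
  · intro F hF a b
    have hF' := (low_iff F).1 hF
    constructor
    · rintro ⟨h, h1 | h1⟩
      · exact Or.inl ⟨h, h1⟩
      · exact Or.inr ⟨h, h1⟩
    · rintro (⟨h, h1⟩ | ⟨h, h1⟩)
      · exact ⟨h, Or.inl h1⟩
      · exact ⟨h, Or.inr h1⟩
  · intro F hF a b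
    constructor
    · rintro ⟨h, h1, h2⟩
      exact ⟨⟨h, h1⟩, ⟨h, h2⟩⟩
    · rintro ⟨⟨h, h1⟩, ⟨_, h2⟩⟩
      exact ⟨h, h1, h2⟩
  · intro F hF a
    have hF' := (low_iff F).1 hF
    constructor
    · rintro ⟨h, h1⟩ ⟨_, h2⟩
      exact h1 h2
    · intro h1
      exact ⟨hF', fun h2 => h1 ⟨hF', h2⟩⟩
  · intro F hF p
    have hF' := (low_iff F).1 hF
    constructor
    · rintro ⟨h, h1⟩
      rw [hx p] at h1
      exact h1
    · intro h1
      refine ⟨hF', ?_⟩
      rw [hx p]
      exact h1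
  · intro J hJ w hw
    obtain ⟨ψ, h1, h2⟩ := exists_hom J hJ w hw
    have hmono : ∀ p q : P, p ≤ q → x p ≤ x q := by
      intro p q hpq
      change ((x p : S) : Set (UpperSet P)) ≤ ((x q : S) : Set (UpperSet P))
      rw [hx p, hx q]
      intro F hF
      exact F.upper hpq hF
    have hF : IsUpperSet {p | ψ (x p)} := by
      intro p q hpq hq
      have h3 : ψ (x p) ≤ ψ (x q) := OrderHomClass.mono ψ (hmono p q hpq)
      exact h3 hq
    have key : ∀ b : S, b ∈ BooleanSubalgebra.closure (Set.range x) →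
        (evS {p | ψ (x p)} b ↔ ψ b) := by
      intro b hb
      induction hb using BooleanSubalgebra.closure_bot_sup_induction with
      | mem c hc =>
        obtain ⟨p, rfl⟩ := hc
        constructor
        · rintro ⟨h, h1⟩
          rw [hx p] at h1
          exact h1
        · intro h1
          refine ⟨hF, ?_⟩
          rw [hx p]
          exact h1
      | bot =>
        constructor
        · rintro ⟨h, h1⟩
          exact absurd h1 (fun h => h)
        · intro h1
          rw [map_bot] at h1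
          exact h1.elim
      | sup c hc d hd ih1 ih2 =>
        rw [map_sup]
        constructor
        · rintro ⟨h, h1 | h1⟩
          · exact Or.inl (ih1.1 ⟨h, h1⟩)
          · exact Or.inr (ih2.1 ⟨h, h1⟩)
        · rintro (h1 | h1)
          · obtain ⟨h, h3⟩ := ih1.2 h1
            exact ⟨h, Or.inl h3⟩
          · obtain ⟨h, h3⟩ := ih2.2 h1
            exact ⟨h, Or.inr h3⟩
      | compl c hc ih =>
        rw [map_compl']
        constructor
        · rintro ⟨h, h1⟩ h4
          obtain ⟨_, h5⟩ := ih.2 h4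
          exact h1 h5
        · intro h4
          exact ⟨hF, fun h5 => h4 (ih.1 ⟨hF, h5⟩)⟩
    refine ⟨{p | ψ (x p)}, (low_iff _).2 hF, (key w (by rw [hcl]; trivial)).2 h1, ?_⟩
    intro j hj h3
    exact h2 j hj ((key j (by rw [hcl]; trivial)).1 h3)
  · exact hcl

end Aux

/-- For every partial order P, if the poset algebra F(P) (modeled as sets of up-sets generated by the sets {U : p in U}) is superatomic, then it has a well-founded sublattice generating it as a Boolean algebra. -/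
theorem result :
  ∀ (P : Type) [PartialOrder P] (S : BooleanSubalgebra (Set (UpperSet P))),
    S = BooleanSubalgebra.closure (Set.range fun p : P => {U : UpperSet P | p ∈ U}) →
    (∀ I : Set (Set (UpperSet P)), I ⊆ (S : Set (Set (UpperSet P))) → ∅ ∈ I →
      (∀ a ∈ I, ∀ b ∈ S, b ⊆ a → b ∈ I) → (∀ a ∈ I, ∀ b ∈ I, a ∪ b ∈ I) →
      ∀ b ∈ S, b ∉ I → ∃ a ∈ S, a ⊆ b ∧ a ∉ I ∧ ∀ c ∈ S, c ⊆ a → c ∈ I ∨ a \ c ∈ I) →
    ∃ G : Set (Set (UpperSet P)), G ⊆ (S : Set (Set (UpperSet P))) ∧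
      (∀ x ∈ G, ∀ y ∈ G, x ∪ y ∈ G ∧ x ∩ y ∈ G) ∧
      (¬ ∃ f : ℕ → Set (UpperSet P), ∀ n, f n ∈ G ∧ f (n + 1) ⊂ f n) ∧
      BooleanSubalgebra.closure G = S := by
  classical
  intro P _ S hS hsa
  have hmem : ∀ p : P, {U : UpperSet P | p ∈ U} ∈ S := by
    intro p
    rw [hS]
    exact BooleanSubalgebra.subset_closure ⟨p, rfl⟩
  let x : P → S := fun p => ⟨{U : UpperSet P | p ∈ U}, hmem p⟩
  have hEv := isEv hS x (fun p => rfl)
  -- superatomicity
  have hsup : Superatomic S := by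
    intro C _ f hf
    let I : Set (Set (UpperSet P)) := {a | ∃ h : a ∈ S, f ⟨a, h⟩ = ⊥}
    have h0 := hsa I (by rintro a ⟨h, -⟩; exact h) ⟨S.bot_mem', by
      have : (⟨∅, S.bot_mem'⟩ : S) = ⊥ := rfl
      rw [this, map_bot]⟩ (by
      rintro a ⟨ha, ha'⟩ b hb hba
      refine ⟨hb, ?_⟩
      have h1 : f ⟨b, hb⟩ ≤ f ⟨a, ha⟩ := OrderHomClass.mono f (show (⟨b, hb⟩ : S) ≤ ⟨a, ha⟩ from hba)
      rw [ha'] at h1
      exact le_bot_iff.1 h1) (by
      rintro a ⟨ha, ha'⟩ b ⟨hb, hb'⟩
      refine ⟨BooleanSubalgebra.sup_mem ha hb, ?_⟩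
      have : (⟨a ∪ b, BooleanSubalgebra.sup_mem ha hb⟩ : S) = ⟨a, ha⟩ ⊔ ⟨b, hb⟩ := rfl
      rw [this, map_sup, ha', hb', bot_sup_eq])
    refine ⟨fun c => ?_⟩
    obtain ⟨⟨b, hb⟩, rfl⟩ := hf c
    by_cases hbI : b ∈ I
    · left
      obtain ⟨_, h2⟩ := hbI
      exact h2
    · right
      obtain ⟨a, haS, hab, haI, hac⟩ := h0 b hb hbI
      refine ⟨f ⟨a, haS⟩, ⟨?_, ?_⟩, OrderHomClass.mono f (show (⟨a, haS⟩ : S) ≤ ⟨b, hb⟩ from hab)⟩
      · intro h
        exact haI ⟨haS, h⟩
      · intro d hd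
        obtain ⟨⟨e, he⟩, rfl⟩ := hf d
        have hinf : (⟨e, he⟩ ⊓ ⟨a, haS⟩ : S) ≤ ⟨a, haS⟩ := inf_le_right
        have hval : f (⟨e, he⟩ ⊓ ⟨a, haS⟩ : S) = f ⟨e, he⟩ := by
          rw [map_inf]
          exact inf_eq_left.2 hd.le
        rcases hac (e ∩ a) (BooleanSubalgebra.inf_mem he haS) Set.inter_subset_right with h3 | h3
        · obtain ⟨h4, h5⟩ := h3
          rw [← hval]
          exact h5
        · exfalso
          obtain ⟨h4, h5⟩ := h3
          have h6 : (⟨a \ (e ∩ a), h4⟩ : S) = ⟨a, haS⟩ \ (⟨e, he⟩ ⊓ ⟨a, haS⟩ : S) := by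
            exact Subtype.ext rfl
          rw [h6, map_sdiff', hval, sdiff_eq_bot_iff] at h5
          exact absurd hd (not_lt_of_ge h5)
  obtain ⟨H, -, hgen, hwf⟩ := hEv.cwg hsup (fun p => le_refl p)
    (fun p q r h1 h2 => le_trans h2 h1)
  set H0 : Set S := ⋃ α ∈ Set.Iic (rk (⊤ : S)), H α with hH0
  have hlat : IsSublattice (latticeClosure H0) := isSublattice_latticeClosure
  refine ⟨Subtype.val '' (latticeClosure H0), ?_, ?_, ?_, ?_⟩
  · rintro _ ⟨a, -, rfl⟩
    exact a.2
  · rintro _ ⟨a, ha, rfl⟩ _ ⟨b, hb, rfl⟩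
    exact ⟨⟨a ⊔ b, hlat.supClosed ha hb, rfl⟩, ⟨a ⊓ b, hlat.infClosed ha hb, rfl⟩⟩
  · rintro ⟨f, hf⟩
    have h1 : ∀ n, ∃ g : S, g ∈ latticeClosure H0 ∧ (g : Set (UpperSet P)) = f n := by
      intro n
      obtain ⟨g, hg, hg'⟩ := (hf n).1
      exact ⟨g, hg, hg'⟩
    choose g hg hg' using h1
    refine hwf g hg (strictAnti_nat_of_succ_lt fun n => ?_)
    change ((g (n + 1) : S) : Set (UpperSet P)) < ((g n : S) : Set (UpperSet P))
    rw [hg', hg']
    exact (hf n).2
  · apply le_antisymm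
    · rw [BooleanSubalgebra.closure_le]
      rintro _ ⟨a, -, rfl⟩
      exact a.2
    · -- every element of `S` is in the closure
      have key : ∀ a : S, a ∈ BooleanSubalgebra.closure H0 →
          (a : Set (UpperSet P)) ∈ BooleanSubalgebra.closure (Subtype.val '' (latticeClosure H0)) := by
        intro a ha
        induction ha using BooleanSubalgebra.closure_bot_sup_induction with
        | mem c hc =>
          exact BooleanSubalgebra.subset_closure ⟨c, subset_latticeClosure hc, rfl⟩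
        | bot => exact BooleanSubalgebra.bot_mem
        | sup c hc d hd ih1 ih2 => exact BooleanSubalgebra.sup_mem ih1 ih2
        | compl c hc ih => exact BooleanSubalgebra.compl_mem ih
      intro a ha
      exact key ⟨a, ha⟩ (by rw [hgen]; trivial)

end Pool.Agent.S15231
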