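import Pool.Statements.S15550
import Pool.Agent.Q304.Short

set_option autoImplicit false
open Pool Pool.MP_e6ce3e_lc

namespace Pool.Agent.S15550

/-- The negation of the preceding statement: There is a linear order L with no uncountable well-ordered or reverse-well-ordered subset, of size at least aleph_1, mapping monotonically onto every size-aleph_1 linear order embeddable in it, but with no monotone surjection onto the rationals. -/
theorem result :
    ¬ (∃ (L : Type) (_ : LinearOrder L),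
      (∀ S : Set L, S.WellFoundedOn (· < ·) → S.Countable) ∧
      (∀ S : Set L, S.WellFoundedOn (· > ·) → S.Countable) ∧
      Cardinal.aleph 1 ≤ Cardinal.mk L ∧
      (∀ (K : Type) [LinearOrder K], Cardinal.mk K = Cardinal.aleph 1 →
          Nonempty (K ↪o L) → ∃ f : L → K, Monotone f ∧ Function.Surjective f) ∧
      ¬ ∃ f : L → ℚ, Monotone f ∧ Function.Surjective f) := by
  classical
  rintro ⟨L, _, h, h', hcard, hsurj, hno⟩
  have hL : Uncountable L := Cardinal.aleph1_le_mk_iff.1 hcard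
  obtain ⟨e, he, hunc⟩ := Pool.Agent.Q304.Short.exists_rat h h' hL
  -- choose a set of size aleph one inside (e 0, e 1)
  have h1 : Cardinal.aleph 1 ≤ Cardinal.mk (Set.Ioo (e 0) (e 1)) := by
    by_contra hlt
    push Not at hlt
    exact hunc 0 1 (by norm_num) ((Cardinal.countable_iff_lt_aleph_one _).2 hlt)
  obtain ⟨Y, hYsub, hYcard⟩ := Cardinal.le_mk_iff_exists_subset.1 h1
  have hYne : Y.Nonempty := by
    rw [Set.nonempty_iff_ne_empty]
    rintro rfl
    have : Cardinal.mk (∅ : Set L) = 0 := Cardinal.mk_emptyCollection L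
    rw [this] at hYcard
    exact absurd hYcard.symm (Cardinal.aleph_pos 1).ne'
  let Q : Set L := e '' {q | q < 0 ∨ 1 < q}
  have hQc : Q.Countable := (Set.to_countable _).image e
  let K : Set L := Y ∪ Q
  have hKcard : Cardinal.mk K = Cardinal.aleph 1 := by
    apply le_antisymm
    · refine (Cardinal.mk_union_le Y Q).trans ?_
      rw [hYcard]
      have : Cardinal.mk Q ≤ Cardinal.aleph 1 :=
        (Cardinal.le_aleph0_iff_set_countable.2 hQc).trans (Cardinal.aleph0_le_aleph 1)
      exact (add_le_add_right this _).trans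
        (Cardinal.add_eq_self (Cardinal.aleph0_le_aleph 1)).le
    · rw [← hYcard]
      exact Cardinal.mk_le_mk_of_subset Set.subset_union_left
  obtain ⟨f, hfm, hfs⟩ := hsurj K hKcard ⟨OrderEmbedding.subtype _⟩
  -- the map K → ℚ
  let φ : K → ℚ := fun k =>
    if hk : ∃ q : ℚ, q < 0 ∧ e q = k then hk.choose
    else if hk : ∃ q : ℚ, 1 < q ∧ e q = k then hk.choose - 1
    else 0
  have φneg : ∀ (k : K) (q : ℚ), q < 0 → e q = k → φ k = q := by
    intro k q hq hk
    have hex : ∃ q : ℚ, q < 0 ∧ e q = k := ⟨q, hq, hk⟩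
    have : φ k = hex.choose := dif_pos hex
    rw [this]
    exact he.injective (hex.choose_spec.2.trans hk.symm)
  have φpos : ∀ (k : K) (q : ℚ), 1 < q → e q = k → φ k = q - 1 := by
    intro k q hq hk
    have hnex : ¬ ∃ q : ℚ, q < 0 ∧ e q = k := by
      rintro ⟨p, hp, hpk⟩
      have := he.injective (hpk.trans hk.symm)
      linarith
    have hex : ∃ q : ℚ, 1 < q ∧ e q = k := ⟨q, hq, hk⟩
    have : φ k = hex.choose - 1 := (dif_neg hnex).trans (dif_pos hex)
    rw [this, he.injective (hex.choose_spec.2.trans hk.symm)]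
  have φzero : ∀ (k : K), (k : L) ∈ Y → φ k = 0 := by
    intro k hk
    have hk1 := hYsub hk
    have hnex : ¬ ∃ q : ℚ, q < 0 ∧ e q = k := by
      rintro ⟨p, hp, hpk⟩
      have := he hp
      rw [hpk] at this
      exact absurd this (not_lt_of_gt hk1.1)
    have hnex' : ¬ ∃ q : ℚ, 1 < q ∧ e q = k := by
      rintro ⟨p, hp, hpk⟩
      have := he hp
      rw [hpk] at this
      exact absurd this (not_lt_of_gt hk1.2)
    exact (dif_neg hnex).trans (dif_neg hnex')
  have φcases : ∀ k : K, (∃ q : ℚ, q < 0 ∧ e q = k ∧ φ k = q) ∨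
      ((k : L) ∈ Y ∧ φ k = 0) ∨ (∃ q : ℚ, 1 < q ∧ e q = k ∧ φ k = q - 1) := by
    intro k
    rcases k.2 with hk | ⟨q, hq | hq, hk⟩
    · exact Or.inr (Or.inl ⟨hk, φzero k hk⟩)
    · exact Or.inl ⟨q, hq, hk, φneg k q hq hk⟩
    · exact Or.inr (Or.inr ⟨q, hq, hk, φpos k q hq hk⟩)
  have φmono : Monotone φ := by
    intro a b hab
    have hab' : (a : L) ≤ b := hab
    rcases φcases a with ⟨p, hp, hpa, hφa⟩ | ⟨ha, hφa⟩ | ⟨p, hp, hpa, hφa⟩ <;>
    rcases φcases b with ⟨q, hq, hqb, hφb⟩ | ⟨hb, hφb⟩ | ⟨q, hq, hqb, hφb⟩ <;>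
    rw [hφa, hφb]
    · rw [← hpa, ← hqb] at hab'
      exact he.le_iff_le.1 hab'
    · exact hp.le
    · linarith
    · exfalso
      have h2 := he hq
      rw [hqb] at h2
      exact absurd (hab'.trans_lt h2) (not_lt_of_gt (hYsub ha).1)
    · linarith
    · rw [← hpa, ← hqb] at hab'
      have := he.le_iff_le.1 hab'
      linarith
    · exfalso
      have h2 := he hp
      rw [hpa] at h2
      exact absurd (h2.trans_le hab') (not_lt_of_gt (hYsub hb).2)
    · rw [← hpa, ← hqb] at hab'
      have := he.le_iff_le.1 hab'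
      linarith
  have φsurj : Function.Surjective φ := by
    intro q
    rcases lt_trichotomy q 0 with hq | hq | hq
    · exact ⟨⟨e q, Or.inr ⟨q, Or.inl hq, rfl⟩⟩, φneg _ q hq rfl⟩
    · obtain ⟨y, hy⟩ := hYne
      exact ⟨⟨y, Or.inl hy⟩, by rw [hq]; exact φzero _ hy⟩
    · refine ⟨⟨e (q + 1), Or.inr ⟨q + 1, Or.inr (by show (1:ℚ) < q + 1; linarith), rfl⟩⟩, ?_⟩
      rw [φpos _ (q + 1) (by linarith) rfl]
      ring
  exact hno ⟨φ ∘ f, φmono.comp hfm, φsurj.comp hfs⟩

end Pool.Agent.S15550
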