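import Pool.Statements.S15671
import Pool.Agent.PP27.Final2
import Pool.Agent.PP27.TaskApprox
import Pool.Agent.PP27.TaskAvg
import Pool.Agent.PP27.TaskCard
import Pool.Agent.PP27.TaskChain
import Pool.Agent.PP27.TaskClosed2
import Pool.Agent.PP27.TaskCompl
import Pool.Agent.PP27.TaskContr
import Pool.Agent.PP27.TaskDelta
import Pool.Agent.PP27.TaskDich
import Pool.Agent.PP27.TaskFE
import Pool.Agent.PP27.TaskG1
import Pool.Agent.PP27.TaskG2
import Pool.Agent.PP27.TaskGroup
import Pool.Agent.PP27.TaskIso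
import Pool.Agent.PP27.TaskJ
import Pool.Agent.PP27.TaskMeas
import Pool.Agent.PP27.TaskNum
import Pool.Agent.PP27.TaskSAP
import Pool.Agent.PP27.TaskSplit
import Pool.Agent.PP27.TaskTop
import Pool.Agent.PP27.TaskTransfer

set_option autoImplicit false
open MeasureTheory
open Pool Pool.MP_0eac64_mp

namespace Pool.Agent.S15671

/-- For every Cantor group with a minimal translation by α, some dense set of continuous real f exists such that, for Haar-a.e. ω, the ℓ² eigenvectors of the Schrödinger operator with potential f(ω+nα) span a dense subspace of ℓ²(ℤ). -/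
theorem result :
    ∀ (Ω : Type) [AddCommGroup Ω] [TopologicalSpace Ω] [IsTopologicalAddGroup Ω]
      [CompactSpace Ω] [T2Space Ω] [TotallyDisconnectedSpace Ω]
      [TopologicalSpace.MetrizableSpace Ω] [Infinite Ω]
      [MeasurableSpace Ω] [BorelSpace Ω]
      (μ : Measure Ω) [μ.IsAddHaarMeasure] (α : Ω),
      Dense (Set.range (fun n : ℤ => n • α)) →
      ∃ D : Set C(Ω, ℝ), Dense D ∧
        ∀ f ∈ D, ∀ᵐ ω ∂μ,
          (Submodule.span ℂ
            {ψ : lp (fun _ : ℤ => ℂ) 2 |
              ∃ E : ℝ, ∀ n : ℤ,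
                ψ (n + 1) + ψ (n - 1) + (f (ω + n • α) : ℂ) * ψ n = (E : ℂ) * ψ n}
            ).topologicalClosure = ⊤ := by
  intro Ω _ _ _ _ _ _ _ _ _ _ μ _ α hα
  have hIso := Pool.Agent.PP27.TaskIso.main
  have hAvg := Pool.Agent.PP27.TaskAvg.main
  have hContr := Pool.Agent.PP27.TaskContr.main hIso hAvg Pool.Agent.PP27.TaskDich.main
  have hJ := Pool.Agent.PP27.TaskJ.main hContr hAvg hIso
  have hFE := Pool.Agent.PP27.TaskFE.main hJ
  have hSAP := Pool.Agent.PP27.TaskSAP.main
  have hMeas := Pool.Agent.PP27.TaskMeas.main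
  have hG1 := Pool.Agent.PP27.TaskG1.main hFE hSAP hMeas
  have hSplit := Pool.Agent.PP27.TaskSplit.main Pool.Agent.PP27.TaskApprox.main
  have hG2 := Pool.Agent.PP27.TaskG2.main hSplit Pool.Agent.PP27.TaskCard.main
    Pool.Agent.PP27.TaskClosed2.main
  have hDelta := Pool.Agent.PP27.TaskDelta.main Pool.Agent.PP27.TaskChain.main
    Pool.Agent.PP27.TaskCompl.main
  exact Pool.Agent.PP27.final hG1 hG2 hMeas hDelta Pool.Agent.PP27.TaskTop.main
    Pool.Agent.PP27.TaskGroup.main Pool.Agent.PP27.TaskTransfer.main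
    Pool.Agent.PP27.TaskNum.main μ α hα

end Pool.Agent.S15671
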