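import Pool.Statements.S16186
import Pool.Agent.Q16.UB.Usb
import Pool.Agent.Q16.UB.LocalMain

set_option autoImplicit false
open Pool Pool.MP_19fd7d_nt

namespace Pool.Agent.S16186

/-- The negation of the preceding statement: If F in Q̄ is Galois over a number field K and has (USB) (for each rational map of degree at least 2, some c>0 leaves only finitely many points of F with canonical height below c), then F/K has finite local degree at infinitely many finite primes of K. -/
theorem result :
    ¬ (∀ h : AlgebraicClosure ℚ → ℝ,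
      (∀ β : AlgebraicClosure ℚ, h β =
        Real.log (((sInf {n : ℕ | 0 < n ∧ ∀ i : ℕ, ((n : ℚ) * (minpoly ℚ β).coeff i).den = 1} : ℕ) : ℝ) *
          (Polynomial.map (algebraMap ℚ ℂ) (minpoly ℚ β)).mahlerMeasure) /
          ((minpoly ℚ β).natDegree : ℝ)) →
    ∀ Φ : RatFunc (AlgebraicClosure ℚ) → AlgebraicClosure ℚ × AlgebraicClosure ℚ →
        AlgebraicClosure ℚ × AlgebraicClosure ℚ,
      (∀ (f : RatFunc (AlgebraicClosure ℚ)) (z : AlgebraicClosure ℚ × AlgebraicClosure ℚ),
        Φ f z =
          (∑ i ∈ Finset.range (max f.num.natDegree f.denom.natDegree + 1),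
              f.num.coeff i * z.1 ^ i * z.2 ^ (max f.num.natDegree f.denom.natDegree - i),
           ∑ i ∈ Finset.range (max f.num.natDegree f.denom.natDegree + 1),
              f.denom.coeff i * z.1 ^ i * z.2 ^ (max f.num.natDegree f.denom.natDegree - i))) →
    ∀ (K : IntermediateField ℚ (AlgebraicClosure ℚ)) [NumberField K]
      (F : IntermediateField K (AlgebraicClosure ℚ)),
      IsGalois K F →
      (∀ f : RatFunc (AlgebraicClosure ℚ),
        2 ≤ max f.num.natDegree f.denom.natDegree →
        ∃ c : ℝ, 0 < c ∧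
          Set.Finite {α : AlgebraicClosure ℚ | α ∈ F ∧ ∃ L : ℝ,
            Filter.Tendsto
              (fun n : ℕ => h (((Φ f)^[n] (α, 1)).1 / ((Φ f)^[n] (α, 1)).2) /
                ((max f.num.natDegree f.denom.natDegree : ℕ) : ℝ) ^ n)
              Filter.atTop (nhds L) ∧ L < c}) →
      Set.Infinite {v : IsDedekindDomain.HeightOneSpectrum (NumberField.RingOfIntegers K) |
        ∀ ι : AlgebraicClosure ℚ →ₐ[K] AlgebraicClosure (v.adicCompletion K),
          FiniteDimensional (v.adicCompletion K)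
            (IntermediateField.adjoin (v.adicCompletion K)
              (ι '' (F : Set (AlgebraicClosure ℚ))))}) := by
  intro H
  -- the sequence of primes
  let B : ℕ → ℕ := fun n => ⌈Real.exp (2 ^ n * (2 * ((n : ℝ) *
    ((∏ j ∈ Finset.range (n + 1), 2 ^ j : ℕ) : ℝ) + n) + Real.log 2))⌉₊
  obtain ⟨r, hmono, hB, hprime, hdvd, hnr⟩ := Pool.Agent.Q16.UB.exists_seq B
  let R : Pool.Agent.Q16.UB.RSeq := ⟨r, hprime, hmono, fun j =>
    (pow_dvd_pow 2 (by omega : j ≤ j + 2)).trans (hdvd j)⟩
  have hgrow : ∀ n : ℕ, 2 * ((n : ℝ) * ((∏ j ∈ Finset.range (n + 1), 2 ^ j : ℕ) : ℝ) + n) <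
      Real.log (R.r n) / 2 ^ n - Real.log 2 := by
    intro n
    have h1 : Real.exp (2 ^ n * (2 * ((n : ℝ) *
        ((∏ j ∈ Finset.range (n + 1), 2 ^ j : ℕ) : ℝ) + n) + Real.log 2)) < (r n : ℝ) := by
      refine (Nat.le_ceil _).trans_lt ?_
      exact Nat.cast_lt.mpr (hB n)
    have h2 := Real.log_lt_log (Real.exp_pos _) h1
    rw [Real.log_exp] at h2
    rw [lt_sub_iff_add_lt, lt_div_iff₀ (by positivity)]
    have h3 : R.r n = r n := rfl
    rw [h3]
    linarith
  -- the field
  let F : IntermediateField Pool.Agent.Q16.UB.K0 (AlgebraicClosure ℚ) :=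
    IntermediateField.extendScalars (bot_le : (⊥ : IntermediateField ℚ (AlgebraicClosure ℚ)) ≤ R.F)
  have hmemF : ∀ x : AlgebraicClosure ℚ, x ∈ F ↔ x ∈ R.F := fun x => Iff.rfl
  have hGal : IsGalois Pool.Agent.Q16.UB.K0 F := by
    have h1 : IsGalois ℚ (AlgebraicClosure ℚ) := Pool.Agent.Q16.UB.instGaloisQb
    have h2 : IsGalois Pool.Agent.Q16.UB.K0 (AlgebraicClosure ℚ) :=
      IsGalois.tower_top_of_isGalois ℚ _ _
    have h3 : Normal ℚ R.F := (inferInstance : IsGalois ℚ R.F).to_normal
    have h4 : Normal Pool.Agent.Q16.UB.K0 F := by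
      rw [IntermediateField.normal_iff_forall_map_le]
      intro σ x hx
      obtain ⟨y, hy, rfl⟩ := hx
      have h5 := (IntermediateField.normal_iff_forall_map_le.mp h3) (σ.restrictScalars ℚ)
      exact h5 ⟨y, hy, rfl⟩
    exact {}
  have hinf := H Pool.Agent.H58W.hM (fun β => rfl)
    (fun f z => (∑ i ∈ Finset.range (max f.num.natDegree f.denom.natDegree + 1),
              f.num.coeff i * z.1 ^ i * z.2 ^ (max f.num.natDegree f.denom.natDegree - i),
           ∑ i ∈ Finset.range (max f.num.natDegree f.denom.natDegree + 1),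
              f.denom.coeff i * z.1 ^ i * z.2 ^ (max f.num.natDegree f.denom.natDegree - i)))
    (fun f z => rfl) Pool.Agent.Q16.UB.K0 F hGal (by
      intro f hf
      refine ⟨1, one_pos, ?_⟩
      exact R.usb hgrow f.num f.denom (max f.num.natDegree f.denom.natDegree) rfl hf
        (RatFunc.isCoprime_num_denom f))
  apply hinf
  -- only places above `2` remain
  have h2 : (Ideal.span {(2 : NumberField.RingOfIntegers Pool.Agent.Q16.UB.K0)}) ≠ 0 := by
    rw [Ne, Ideal.zero_eq_bot, Ideal.span_singleton_eq_bot]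
    exact two_ne_zero
  refine (Ideal.finite_factors h2).subset ?_
  intro v hv
  rw [Set.mem_ofPred_eq] at hv
  rw [Set.mem_ofPred_eq, Ideal.dvd_span_singleton]
  by_contra h2v
  -- the residue characteristic
  obtain ⟨l, hl, hlv⟩ : ∃ l : ℕ, l.Prime ∧ (l : NumberField.RingOfIntegers Pool.Agent.Q16.UB.K0) ∈
      v.asIdeal := by
    have main : ∀ n : ℕ, n ≠ 0 → (n : NumberField.RingOfIntegers Pool.Agent.Q16.UB.K0) ∈ v.asIdeal →
        ∃ l : ℕ, l.Prime ∧ (l : NumberField.RingOfIntegers Pool.Agent.Q16.UB.K0) ∈ v.asIdeal := by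
      intro n
      induction n using Nat.strong_induction_on with
      | _ n ih =>
        intro hn0 hn
        have hn1 : n ≠ 1 := by
          rintro rfl
          rw [Nat.cast_one] at hn
          exact v.isPrime.ne_top ((Ideal.eq_top_iff_one _).mpr hn)
        obtain ⟨c, hc⟩ := Nat.minFac_dvd n
        have hp := Nat.minFac_prime hn1
        rw [hc, Nat.cast_mul] at hn
        rcases v.isPrime.mem_or_mem hn with h | h
        · exact ⟨_, hp, h⟩
        · have hc0 : c ≠ 0 := by
            rintro rfl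
            rw [mul_zero] at hc
            exact hn0 hc
          refine ih c ?_ hc0 h
          have h5 := hp.two_le
          have h6 : 0 < c := Nat.pos_of_ne_zero hc0
          calc c < n.minFac * c := by nlinarith
            _ = n := hc.symm
    exact main (Ideal.absNorm v.asIdeal) (by
      rw [Ne, Ideal.absNorm_eq_zero_iff]
      exact v.ne_bot) (Ideal.absNorm_mem v.asIdeal)
  have hl2 : l ≠ 2 := by
    rintro rfl
    apply h2v
    exact_mod_cast hlv
  -- an embedding
  have halg : Algebra.IsAlgebraic Pool.Agent.Q16.UB.K0 (AlgebraicClosure ℚ) := by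
    have : Algebra.IsAlgebraic ℚ (AlgebraicClosure ℚ) := Pool.Agent.Q16.UB.instAlgQb
    exact Algebra.IsAlgebraic.tower_top (K := ℚ) Pool.Agent.Q16.UB.K0
  let ι : AlgebraicClosure ℚ →ₐ[Pool.Agent.Q16.UB.K0]
    AlgebraicClosure (v.adicCompletion Pool.Agent.Q16.UB.K0) := IsAlgClosed.lift
  refine R.not_finite hnr v l hl hl2 hlv (ι : AlgebraicClosure ℚ →+* _) _ ?_ (hv ι)
  intro x hx
  exact IntermediateField.subset_adjoin _ _ ⟨x, hx, rfl⟩

end Pool.Agent.S16186
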