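import Pool.Statements.S16915
import Pool.Agent.H383R3.MulClose2

set_option autoImplicit false
open MeasureTheory
open Pool Pool.MP_4fa6ed_nt

namespace Pool.Agent.S16915

/-- Pigeonhole for measure: among sufficiently many sets of the same positive measure in a
probability space, two meet in positive measure. -/
theorem pigeon {X : Type} [MeasurableSpace X] (μ : Measure X) [IsProbabilityMeasure μ]
    (c : ENNReal) (K : ℕ) (hK : 1 < ((K : ENNReal) + 1) * c)
    (E : ℕ → Set X) (hE : ∀ i, i ≤ K → MeasurableSet (E i)) (hEc : ∀ i, i ≤ K → μ (E i) = c) :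
    ∃ i j, i < j ∧ j ≤ K ∧ 0 < μ (E i ∩ E j) := by
  by_contra hcon
  push Not at hcon
  have hdis : Set.Pairwise (↑(Finset.range (K + 1)) : Set ℕ) (Function.onFun (AEDisjoint μ) E) := by
    intro i hi j hj hij
    simp only [Finset.coe_range, Set.mem_Iio] at hi hj
    rcases lt_or_gt_of_ne hij with h | h
    · have := hcon i j h (by omega)
      exact le_antisymm this zero_le
    · have := hcon j i h (by omega)
      have h2 : AEDisjoint μ (E j) (E i) := le_antisymm this zero_le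
      exact h2.symm
  have h1 := measure_biUnion_finset₀ (μ := μ) (s := Finset.range (K + 1)) (f := E) hdis
    (fun i hi => (hE i (Nat.lt_succ_iff.mp (Finset.mem_range.mp hi))).nullMeasurableSet)
  have h2 : ∑ i ∈ Finset.range (K + 1), μ (E i) = ((K : ENNReal) + 1) * c := by
    rw [Finset.sum_congr rfl (fun i hi => hEc i (Nat.lt_succ_iff.mp (Finset.mem_range.mp hi)))]
    simp
  have h3 : μ (⋃ i ∈ Finset.range (K + 1), E i) ≤ 1 := prob_le_one
  rw [h1, h2] at h3
  exact absurd h3 (not_le.mpr hK)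

/-- The recurrence transported between two positive rationals. -/
theorem transport {X : Type} [MeasurableSpace X] (μ : Measure X) [IsProbabilityMeasure μ]
    (T : ℚ → X → X)
    (hmul : ∀ q r : ℚ, 0 < q → 0 < r → T (q * r) = T q ∘ T r)
    (hmp : ∀ q : ℚ, 0 < q → MeasurePreserving (T q) μ μ)
    (A : Set X) (hA : MeasurableSet A) (x y : ℚ) (hx : 0 < x) (hy : 0 < y)
    (h : 0 < μ (T x ⁻¹' A ∩ T y ⁻¹' A)) : 0 < μ (A ∩ T (x / y) ⁻¹' A) := by
  have hxy : 0 < x / y := div_pos hx hy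
  have h1 : T x = T (x / y) ∘ T y := by
    rw [← hmul _ _ hxy hy, div_mul_cancel₀ _ hy.ne']
  have h2 : T x ⁻¹' A ∩ T y ⁻¹' A = T y ⁻¹' (A ∩ T (x / y) ⁻¹' A) := by
    rw [h1]
    ext z
    simp only [Set.mem_inter_iff, Set.mem_preimage, Function.comp_apply]
    tauto
  rw [h2, (hmp y hy).measure_preimage
    ((hA.inter ((hmp _ hxy).measurable hA)).nullMeasurableSet)] at h
  exact h

theorem exists_K (c : ENNReal) (hc : 0 < c) : ∃ K : ℕ, 1 < ((K : ENNReal) + 1) * c := by
  by_cases hct : c = ⊤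
  · refine ⟨0, ?_⟩
    simp [hct]
  · obtain ⟨n, hn⟩ := ENNReal.exists_nat_mul_gt hc.ne' (b := 1) (by simp)
    refine ⟨n, lt_of_lt_of_le hn ?_⟩
    gcongr
    exact le_self_add

/-- If a≥1, gcd(a,b,d)=1, and b=d or a divides bd, then for every measure-preserving action of the positive rationals under multiplication and every positive-measure set A, some ratio (an+b)/(an+d) with n≥1 and both terms positive returns A to itself in positive measure. -/
theorem result :
    ∀ (a : ℕ) (b d : ℤ), 0 < a →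
      (∀ k : ℤ, k ∣ (a : ℤ) → k ∣ b → k ∣ d → IsUnit k) →
      (b = d ∨ (a : ℤ) ∣ b * d) →
      ∀ (X : Type) [MeasurableSpace X] (μ : Measure X) [IsProbabilityMeasure μ]
        (T : ℚ → X → X),
        T 1 = id →
        (∀ q r : ℚ, 0 < q → 0 < r → T (q * r) = T q ∘ T r) →
        (∀ q : ℚ, 0 < q → MeasurePreserving (T q) μ μ) →
        ∀ A : Set X, MeasurableSet A → 0 < μ A →
          ∃ n : ℕ, 0 < n ∧ 0 < (a : ℤ) * n + b ∧ 0 < (a : ℤ) * n + d ∧
            0 < μ (A ∩ T (((a : ℚ) * n + b) / ((a : ℚ) * n + d)) ⁻¹' A) := by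
  intro a b d ha hgcd hor X _ μ _ T hT1 hmul hmp A hA hpos
  have ha' : (0 : ℤ) < a := by exact_mod_cast ha
  have cop : ∀ b' d' : ℤ, (∀ k : ℤ, k ∣ (a : ℤ) → k ∣ b' → k ∣ d' → IsUnit k) →
      IsCoprime (gcd (a : ℤ) b') d' := by
    intro b' d' h
    rw [← gcd_isUnit_iff]
    refine h _ ?_ ?_ ?_
    · exact (gcd_dvd_left _ _).trans (gcd_dvd_left _ _)
    · exact (gcd_dvd_left _ _).trans (gcd_dvd_right _ _)
    · exact gcd_dvd_right _ _
  -- the general recurrence along a pair of the sequence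
  have main : ∀ b' d' : ℤ, d' < b' → IsCoprime (gcd (a : ℤ) b') d' → (a : ℤ) ∣ b' * d' →
      ∃ n : ℕ, 0 < n ∧ 0 < (a : ℤ) * n + b' ∧ 0 < (a : ℤ) * n + d' ∧
        0 < μ (A ∩ T (((a : ℚ) * n + b') / ((a : ℚ) * n + d')) ⁻¹' A) ∧
        0 < μ (A ∩ T (((a : ℚ) * n + d') / ((a : ℚ) * n + b')) ⁻¹' A) := by
    intro b' d' hbd hg hdvd
    obtain ⟨K, hK⟩ := exists_K (μ A) hpos
    obtain ⟨Z, hZ1, hZ2⟩ := Pool.Agent.H383R3.MulClose.seq a b' d' ha' hbd hg hdvd 1 K
    have hZq : ∀ i, i ≤ K → (0 : ℚ) < (Z i : ℚ) := fun i hi => by exact_mod_cast hZ1 i hi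
    obtain ⟨i, j, hij, hj, hinter⟩ := pigeon μ (μ A) K hK (fun i => T (Z i : ℚ) ⁻¹' A)
      (fun i hi => (hmp _ (hZq i hi)).measurable hA)
      (fun i hi => (hmp _ (hZq i hi)).measure_preimage hA.nullMeasurableSet)
    obtain ⟨hD, n, hn, h1, h2⟩ := hZ2 i j hij hj
    have hZi := hZ1 i (by omega)
    have hZj := hZ1 j hj
    have hh : 0 < b' - d' := by omega
    have hposd : 0 < (a : ℤ) * n + d' := by
      have : 0 < (Z j - Z i) * ((a : ℤ) * n + d') := by rw [← h1]; positivity
      exact (mul_pos_iff_of_pos_left hD).mp this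
    have hposb : 0 < (a : ℤ) * n + b' := by omega
    have hn0 : 0 ≤ n := by omega
    lift n to ℕ using hn0
    have hposdq : (0 : ℚ) < (a : ℚ) * n + d' := by exact_mod_cast hposd
    have hposbq : (0 : ℚ) < (a : ℚ) * n + b' := by exact_mod_cast hposb
    have hDq : (0 : ℚ) < (Z j : ℚ) - Z i := by exact_mod_cast hD
    have hhq : (0 : ℚ) < (b' : ℚ) - d' := by exact_mod_cast hh
    have h1q : ((b' : ℚ) - d') * Z i = ((Z j : ℚ) - Z i) * ((a : ℚ) * n + d') := by
      exact_mod_cast h1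
    have h2q : ((b' : ℚ) - d') * Z j = ((Z j : ℚ) - Z i) * ((a : ℚ) * n + b') := by
      exact_mod_cast h2
    have hZiq := hZq i (by omega)
    have hZjq := hZq j hj
    have hr1 : (Z j : ℚ) / Z i = ((a : ℚ) * n + b') / ((a : ℚ) * n + d') := by
      rw [div_eq_div_iff hZiq.ne' hposdq.ne']
      have : ((b' : ℚ) - d') * ((Z j : ℚ) * ((a : ℚ) * n + d')) =
          ((b' : ℚ) - d') * (((a : ℚ) * n + b') * Z i) := by
        linear_combination ((a : ℚ) * n + d') * h2q - ((a : ℚ) * n + b') * h1q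
      exact mul_left_cancel₀ hhq.ne' this
    have hr2 : (Z i : ℚ) / Z j = ((a : ℚ) * n + d') / ((a : ℚ) * n + b') := by
      rw [← inv_div, hr1, inv_div]
    refine ⟨n, by exact_mod_cast (by omega : (0 : ℤ) < n), hposb, hposd, ?_, ?_⟩
    · rw [← hr1]
      apply transport μ T hmul hmp A hA _ _ hZjq hZiq
      rw [Set.inter_comm]
      exact hinter
    · rw [← hr2]
      exact transport μ T hmul hmp A hA _ _ hZiq hZjq hinter
  rcases lt_trichotomy d b with hbd | hbd | hbd
  · have hdvd : (a : ℤ) ∣ b * d := by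
      rcases hor with h | h
      · omega
      · exact h
    have hg : IsCoprime (gcd (a : ℤ) b) d := by
      exact cop b d hgcd
    obtain ⟨n, h1, h2, h3, h4, _⟩ := main b d hbd hg hdvd
    exact ⟨n, h1, h2, h3, h4⟩
  · subst hbd
    refine ⟨d.natAbs + 1, by omega, ?_, ?_, ?_⟩
    · have : (1 : ℤ) ≤ a := by omega
      have h2 : (d.natAbs : ℤ) = |d| := Int.natCast_natAbs d
      have h3 := neg_abs_le d
      push_cast
      nlinarith [abs_nonneg d]
    · have : (1 : ℤ) ≤ a := by omega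
      have h2 : (d.natAbs : ℤ) = |d| := Int.natCast_natAbs d
      have h3 := neg_abs_le d
      push_cast
      nlinarith [abs_nonneg d]
    · have h5 : ((a : ℚ) * ((d.natAbs + 1 : ℕ) : ℚ) + d) ≠ 0 := by
        have h6 : (0 : ℤ) < (a : ℤ) * ((d.natAbs + 1 : ℕ) : ℤ) + d := by
          have : (1 : ℤ) ≤ a := by omega
          have h3 := neg_abs_le d
          push_cast
          nlinarith [abs_nonneg d]
        have h7 : (0 : ℚ) < (((a : ℤ) * ((d.natAbs + 1 : ℕ) : ℤ) + d : ℤ) : ℚ) := by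
          exact_mod_cast h6
        rw [Int.cast_add, Int.cast_mul, Int.cast_natCast, Int.cast_natCast] at h7
        exact h7.ne'
      rw [div_self h5, hT1]
      simpa using hpos
  · have hdvd : (a : ℤ) ∣ d * b := by
      rcases hor with h | h
      · omega
      · rwa [mul_comm]
    have hg : IsCoprime (gcd (a : ℤ) d) b := by
      exact cop d b (fun k h1 h2 h3 => hgcd k h1 h3 h2)
    obtain ⟨n, h1, h2, h3, _, h5⟩ := main d b hbd hg hdvd
    exact ⟨n, h1, h3, h2, h5⟩

end Pool.Agent.S16915
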