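import Pool.Statements.S16940
import Pool.Agent.Q28.FE

set_option autoImplicit false
open Complex DirichletCharacter
open Pool Pool.MP_50d0fc_nt

namespace Pool.Agent.S16940

/-- The negation of the preceding statement: There are A>0, D>1/2 such that for prime q→∞, uniformly in θ in [0,2π], the max over non-principal χ mod q with L(1/2,χ)≠0 of Re(e^{-iθ}L'/L(1/2,χ)) is asymptotic to A·√(log q)·(log log q)^D. -/
theorem result :
    ¬ (∃ A D : ℝ, 0 < A ∧ 1 / 2 < D ∧
      ∀ ε : ℝ, 0 < ε → ∃ Q : ℕ, ∀ (q : ℕ) [NeZero q], q.Prime → Q ≤ q →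
        ∀ θ : ℝ, θ ∈ Set.Icc (0 : ℝ) (2 * Real.pi) →
          (∀ χ : DirichletCharacter ℂ q, χ ≠ 1 → LFunction χ (1 / 2) ≠ 0 →
            (Complex.exp (-(θ : ℂ) * Complex.I) *
                (deriv (LFunction χ) (1 / 2) / LFunction χ (1 / 2))).re ≤
              (1 + ε) * A * Real.sqrt (Real.log q) * (Real.log (Real.log q)) ^ D) ∧
          (∃ χ : DirichletCharacter ℂ q, χ ≠ 1 ∧ LFunction χ (1 / 2) ≠ 0 ∧
            (1 - ε) * A * Real.sqrt (Real.log q) * (Real.log (Real.log q)) ^ D ≤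
              (Complex.exp (-(θ : ℂ) * Complex.I) *
                (deriv (LFunction χ) (1 / 2) / LFunction χ (1 / 2))).re)) := by
  rintro ⟨A, D, hA, hD, h⟩
  obtain ⟨Q, hQ⟩ := h (1 / 2) (by norm_num)
  obtain ⟨Q', hQ'⟩ := Pool.Agent.Q28.FE.re_neg
  obtain ⟨q, hq, hqp⟩ := Nat.exists_infinite_primes (max (max Q Q') 16)
  have : NeZero q := ⟨hqp.ne_zero⟩
  have h1 : Q ≤ q := le_trans (le_trans (le_max_left _ _) (le_max_left _ _)) hq
  have h2 : Q' ≤ q := le_trans (le_trans (le_max_right _ _) (le_max_left _ _)) hq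
  have h3 : 16 ≤ q := le_trans (le_max_right _ _) hq
  obtain ⟨-, χ, hχ, h0, hlow⟩ := hQ q hqp h1 0 ⟨le_refl _, by positivity⟩
  have hprim : χ.IsPrimitive := by
    rcases (Nat.dvd_prime hqp).1 (conductor_dvd_level χ) with h | h
    · exact absurd (eq_one_iff_conductor_eq_one.2 h) hχ
    · exact h
  have h4 := hQ' q h2 χ hχ hprim h0
  rw [logDeriv_apply] at h4
  simp only [Complex.ofReal_zero, neg_zero, zero_mul, Complex.exp_zero, one_mul] at hlow
  have hq3 : (3 : ℝ) ≤ q := by
    have : (16 : ℝ) ≤ q := by exact_mod_cast h3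
    linarith
  have hlog : 1 < Real.log q := by
    rw [Real.lt_log_iff_exp_lt (by linarith)]
    have := Real.exp_one_lt_d9
    linarith
  have hll : 0 < Real.log (Real.log q) := Real.log_pos hlog
  have hpos : 0 < (1 - 1 / 2) * A * Real.sqrt (Real.log q) * (Real.log (Real.log q)) ^ D := by
    have h5 : 0 < Real.sqrt (Real.log q) := Real.sqrt_pos.2 (by linarith)
    have h6 : 0 < (Real.log (Real.log q)) ^ D := Real.rpow_pos_of_pos hll D
    positivity
  linarith

end Pool.Agent.S16940
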