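import Pool.Statements.S17043
import Pool.Agent.Q3.CFSum.Irr
import Pool.Agent.Q3.CFSum.Rat

set_option autoImplicit false
open Pool Pool.MP_590852_nt

namespace Pool.Agent.S17043

/-- Every real x with 0 < x ≤ 1 equals g₁ + g₂, where g₁ and g₂ lie in (0,1) and the continued fraction partial quotients of each (computed via the Gauss map) tend to infinity. -/
theorem result :
    ∀ x : ℝ, 0 < x → x ≤ 1 →
      ∃ g₁ g₂ : ℝ,
        g₁ ∈ Set.Ioo (0 : ℝ) 1 ∧ g₂ ∈ Set.Ioo (0 : ℝ) 1 ∧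
        Filter.Tendsto (fun n : ℕ => ⌊1 / ((fun y : ℝ => Int.fract (1 / y))^[n] g₁)⌋)
          Filter.atTop Filter.atTop ∧
        Filter.Tendsto (fun n : ℕ => ⌊1 / ((fun y : ℝ => Int.fract (1 / y))^[n] g₂)⌋)
          Filter.atTop Filter.atTop ∧
        x = g₁ + g₂ := by
  intro x hx0 hx1
  by_cases hx : Irrational x
  · have hx1' : x < 1 := lt_of_le_of_ne hx1 hx.ne_one
    obtain ⟨D, E, hD, hE, hDt, hEt, hsum⟩ := Pool.Agent.Q3.CFSum.irrational_case x hx hx0 hx1'
    refine ⟨H313R3.BK.cf D, H313R3.BK.cf E, ⟨H313R3.BK.cf_pos D hD, H313R3.BK.cf_lt_one D hD⟩,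
      ⟨H313R3.BK.cf_pos E hE, H313R3.BK.cf_lt_one E hE⟩, ?_, ?_, hsum⟩
    · simp only [Pool.Agent.Q3.CFSum.gauss_floor D hD]
      exact tendsto_natCast_atTop_atTop.comp hDt
    · simp only [Pool.Agent.Q3.CFSum.gauss_floor E hE]
      exact tendsto_natCast_atTop_atTop.comp hEt
  · -- rational
    unfold Irrational at hx
    push Not at hx
    obtain ⟨r, hr⟩ := hx
    have hr0 : 0 < r := by
      have : (0 : ℝ) < (r : ℝ) := by rw [hr]; exact hx0
      exact_mod_cast this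
    have hr1 : r ≤ 1 := by
      have : (r : ℝ) ≤ 1 := by rw [hr]; exact hx1
      exact_mod_cast this
    obtain ⟨p, hp⟩ : ∃ p : ℕ, r.num = p := ⟨r.num.toNat, by
      have := Rat.num_pos.mpr hr0
      omega⟩
    have hp1 : 1 ≤ p := by
      have := Rat.num_pos.mpr hr0
      omega
    have hq1 : 1 ≤ r.den := r.den_pos
    have hcop : Nat.Coprime p r.den := by
      have := r.reduced
      rw [hp] at this
      simpa using this
    have hrpq : (r : ℝ) = (p : ℝ) / r.den := by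
      have h1 : r = (r.num : ℚ) / r.den := (Rat.num_div_den r).symm
      rw [hp] at h1
      have h2 : (r : ℝ) = (((((p : ℕ) : ℤ) : ℚ) / (r.den : ℚ) : ℚ) : ℝ) := by exact_mod_cast h1
      rw [h2]
      push_cast
      rfl
    have hle : p ≤ r.den := by
      have h1 : (p : ℝ) / r.den ≤ 1 := by rw [← hrpq, hr]; exact hx1
      have hq0 : (0 : ℝ) < r.den := by exact_mod_cast hq1
      rw [div_le_one hq0] at h1
      exact_mod_cast h1
    obtain ⟨g1, g2, h1, h2, h3, h4, h5⟩ :=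
      Pool.Agent.Q3.CFSum.rational_case p r.den hp1 hq1 hcop hle
    refine ⟨g1, g2, h1, h2, ?_, ?_, ?_⟩
    · unfold Pool.Agent.Q3.CFSum.Tail at h3
      rw [Int.fract_eq_self.2 ⟨h1.1.le, h1.2⟩] at h3
      exact h3
    · unfold Pool.Agent.Q3.CFSum.Tail at h4
      rw [Int.fract_eq_self.2 ⟨h2.1.le, h2.2⟩] at h4
      exact h4
    · rw [← h5, ← hrpq, hr]

end Pool.Agent.S17043
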