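import Pool.Statements.S17771
import Pool.Agent.Q33.ErdosPowD

set_option autoImplicit false
open Pool Pool.MP_91e459_nt

namespace Pool.Agent.S17771

/-- For all n ≥ 1, m ≥ 2 with (1−1/m)^n > 1/2 and (1−1/(m−1))^n < 1/2: (m−1)^n exceeds 1^n+…+(m−2)^n and (m+1)^n is less than 1^n+…+m^n. -/
theorem result :
    ∀ m n : ℕ, 1 ≤ n → 2 ≤ m →
      (1 - 1 / (m : ℝ)) ^ n > 1 / 2 →
      (1 - 1 / ((m : ℝ) - 1)) ^ n < 1 / 2 →
      (m - 1) ^ n > ∑ i ∈ Finset.Icc 1 (m - 2), i ^ n ∧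
      (m + 1) ^ n < ∑ i ∈ Finset.Icc 1 m, i ^ n := by
  intro m n hn hm h1 h2
  refine ⟨?_, Pool.Agent.Q33.ErdosPow.main_all m n hn hm h1⟩
  have hmR : (2 : ℝ) ≤ m := by exact_mod_cast hm
  have hcast : ((m - 1 : ℕ) : ℝ) = (m : ℝ) - 1 := by
    rw [Nat.cast_sub (by omega)]; norm_num
  have hadm : 2 * (m - 1 - 1) ^ n < (m - 1) ^ n := by
    rcases Nat.lt_or_ge m 3 with h | h
    · have : m = 2 := by omega
      subst this
      simp
      omega
    · have hp : (0 : ℝ) < (m : ℝ) - 1 := by linarith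
      have e : (1 - 1 / ((m : ℝ) - 1)) ^ n = ((m : ℝ) - 1 - 1) ^ n / ((m : ℝ) - 1) ^ n := by
        rw [← div_pow]
        congr 1
        field_simp
      rw [e, div_lt_div_iff₀ (by positivity) (by norm_num)] at h2
      have h3 : ((2 * (m - 1 - 1) ^ n : ℕ) : ℝ) < (((m - 1) ^ n : ℕ) : ℝ) := by
        push_cast [Nat.cast_sub (by omega : 1 ≤ m - 1), hcast]
        linarith
      exact_mod_cast h3
  have := Pool.Agent.Q33.ErdosPow.first_ineq (m - 1) n (by omega) hadm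
  exact this

end Pool.Agent.S17771
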