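-- Frozen statement S17899: Euler's function does not have property (P) of Erdős, Pomerance and Sárközy.
import Pool.Statements.S17899
import Pool.Agent.Q40.PhiShift
import Pool.Agent.Erdos456.Mertens

set_option autoImplicit false
open Filter Topology
open Pool Pool.MP_9d1108_nt

namespace Pool.Agent.S17899

open Finset Pool.Agent.Q40.PhiShift

/-- the number of `n` with `x < n + φ(n) < x + F` -/
noncomputable def cnt (x : ℕ) (F : ℝ) : ℕ :=
  Set.ncard {n : ℕ | (x : ℝ) < (n : ℝ) + (Nat.totient n : ℝ) ∧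
              (n : ℝ) + (Nat.totient n : ℝ) < (x : ℝ) + F}

lemma cnt_le (δ : ℝ) (hδ : 0 < δ) (hδ1 : δ ≤ 1) : ∃ X0 : ℕ, ∀ x : ℕ, X0 ≤ x →
    (cnt x (δ * x) : ℝ) ≤ 6 * (δ * x) := by
  classical
  obtain ⟨X0, h⟩ := count_le δ hδ hδ1
  refine ⟨X0, fun x hx => le_trans (le_of_eq ?_) (h x hx)⟩
  unfold cnt
  rw [← Set.ncard_coe_finset]
  congr 2
  ext n
  simp only [Set.mem_setOf_eq, Finset.coe_filter, Finset.mem_Ioc]
  constructor
  · rintro ⟨h1, h2⟩
    refine ⟨⟨?_, ?_⟩, h1, h2⟩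
    · rcases Nat.eq_zero_or_pos n with h0 | h0
      · subst h0
        simp at h1
        have : (0:ℝ) ≤ x := by positivity
        linarith
      · exact h0
    · have h3 : (0:ℝ) ≤ (Nat.totient n : ℝ) := by positivity
      have h4 : (0:ℝ) ≤ x := by positivity
      have h5 : (n:ℝ) ≤ ((2 * x : ℕ) : ℝ) := by push_cast; nlinarith
      exact_mod_cast h5
  · rintro ⟨_, h1, h2⟩
    exact ⟨h1, h2⟩

/-- the property used in the diagonal choice -/
def Pr (k x : ℕ) : Prop :=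
  (k + 1) ^ 2 ≤ x ∧ (cnt x ((1 / ((k:ℝ) + 1)) * x) : ℝ) ≤ 6 * ((1 / ((k:ℝ) + 1)) * x)

lemma Pr_ev (k : ℕ) : ∃ X0 : ℕ, ∀ x : ℕ, X0 ≤ x → Pr k x := by
  have hk : (0:ℝ) < (k:ℝ) + 1 := by positivity
  obtain ⟨X0, h⟩ := cnt_le (1 / ((k:ℝ) + 1)) (by positivity) (by
    rw [div_le_one hk]
    have : (0:ℝ) ≤ k := by positivity
    linarith)
  exact ⟨max X0 ((k+1)^2), fun x hx => ⟨(le_max_right _ _).trans hx, h x ((le_max_left _ _).trans hx)⟩⟩

open Classical in
/-- the slowly growing divisor -/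
noncomputable def kap (x : ℕ) : ℕ := Nat.findGreatest (fun k => ∀ y : ℕ, x ≤ y → Pr k y) x

lemma kap_tendsto (K : ℕ) : ∃ X0 : ℕ, ∀ x : ℕ, X0 ≤ x → K ≤ kap x := by
  classical
  obtain ⟨X0, h⟩ := Pr_ev K
  refine ⟨max X0 K, fun x hx => ?_⟩
  unfold kap
  exact Nat.le_findGreatest ((le_max_right _ _).trans hx)
    (fun y hy => h y (((le_max_left _ _).trans hx).trans hy))

lemma kap_spec : ∃ X0 : ℕ, ∀ x : ℕ, X0 ≤ x → Pr (kap x) x := by
  classical
  obtain ⟨X0, h⟩ := Pr_ev 0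
  refine ⟨X0, fun x hx => ?_⟩
  have := Nat.findGreatest_spec (P := fun k => ∀ y : ℕ, x ≤ y → Pr k y) (n := x) (m := 0) (Nat.zero_le x)
    (fun y hy => h y (hx.trans hy))
  exact this x le_rfl

/-- the window length -/
noncomputable def FF (x : ℕ) : ℝ := (1 / ((kap x : ℝ) + 1)) * x

lemma FF_tendsto : Tendsto FF atTop atTop := by
  rw [tendsto_atTop]
  intro b
  obtain ⟨K, hK⟩ := exists_nat_gt b
  obtain ⟨X1, h1⟩ := kap_tendsto K
  obtain ⟨X2, h2⟩ := kap_spec
  filter_upwards [eventually_ge_atTop (max X1 X2)] with x hx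
  have h3 := h1 x ((le_max_left _ _).trans hx)
  have h4 := (h2 x ((le_max_right _ _).trans hx)).1
  have h5 : ((kap x : ℝ) + 1) ^ 2 ≤ x := by exact_mod_cast h4
  have h6 : (0:ℝ) < (kap x : ℝ) + 1 := by positivity
  have h7 : (kap x : ℝ) + 1 ≤ FF x := by
    unfold FF
    rw [one_div, inv_mul_eq_div, le_div_iff₀ h6]
    nlinarith
  have h8 : (K:ℝ) ≤ kap x := by exact_mod_cast h3
  linarith

/-- the density one set -/
def AA : Set ℕ := {n | (n:ℝ) ≤ Real.sqrt ((kap n : ℝ) + 1) * (Nat.totient n : ℝ)}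

lemma sum_ratio : ∃ C : ℝ, 0 ≤ C ∧ ∀ K : ℕ, ∑ k ∈ Icc 1 K, ((k : ℝ) / (Nat.totient k : ℝ)) ≤ C * K := by
  obtain ⟨C, hC⟩ := Pool.Agent.Erdos456.Mert.totRatio_moment
  have hle : ∀ K : ℕ, ∑ k ∈ Icc 1 K, ((k : ℝ) / (Nat.totient k : ℝ)) ≤ C * K := by
    intro K
    refine le_trans (sum_le_sum fun k hk => ?_) (hC K)
    rw [mem_Icc] at hk
    have h1 : (1 : ℝ) ≤ (k : ℝ) / (Nat.totient k : ℝ) := by
      have h2 : 0 < Nat.totient k := Nat.totient_pos.2 (by omega)
      rw [le_div_iff₀ (by exact_mod_cast h2), one_mul]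
      exact_mod_cast Nat.totient_le k
    exact le_self_pow₀ h1 (by norm_num)
  refine ⟨C, ?_, hle⟩
  have := hle 1
  simp at this
  linarith

open Classical in
lemma card_large (C : ℝ) (hC : ∀ K : ℕ, ∑ k ∈ Icc 1 K, ((k : ℝ) / (Nat.totient k : ℝ)) ≤ C * K)
    (T : ℝ) (hT : 0 < T) (N : ℕ) :
    (((Icc 1 N).filter (fun n : ℕ => T * (Nat.totient n : ℝ) < n)).card : ℝ) ≤ C * N / T := by
  rw [le_div_iff₀ hT, ← nsmul_eq_mul, ← Finset.sum_const]
  refine le_trans ?_ (hC N)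
  refine le_trans (Finset.sum_le_sum (g := fun k : ℕ => (k:ℝ) / (Nat.totient k : ℝ)) ?_) ?_
  · intro n hn
    rw [mem_filter, mem_Icc] at hn
    have h2 : 0 < Nat.totient n := Nat.totient_pos.2 (by omega)
    have h3 : (0:ℝ) < (Nat.totient n : ℝ) := by exact_mod_cast h2
    rw [le_div_iff₀ h3]
    exact hn.2.le
  · apply Finset.sum_le_sum_of_subset_of_nonneg (filter_subset _ _)
    intros; positivity

lemma AA_density : Tendsto (fun N : ℕ => ((AA ∩ Set.Iio N).ncard : ℝ) / (N : ℝ)) atTop (𝓝 1) := by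
  classical
  obtain ⟨C, hC0, hC⟩ := sum_ratio
  rw [Metric.tendsto_atTop]
  intro ε hε
  -- T large
  obtain ⟨T, hT⟩ := exists_nat_gt (max 1 (2 * C / ε))
  have hT1 : (1:ℝ) < T := lt_of_le_of_lt (le_max_left _ _) hT
  have hT2 : 2 * C / ε < T := lt_of_le_of_lt (le_max_right _ _) hT
  obtain ⟨n0, hn0⟩ := kap_tendsto (T ^ 2)
  obtain ⟨N0, hN0⟩ := exists_nat_gt (2 * ((n0:ℝ) + 1) / ε)
  refine ⟨N0 + 1, fun N hN => ?_⟩
  have hNr : 2 * ((n0:ℝ) + 1) / ε < N := lt_of_lt_of_le hN0 (by exact_mod_cast (by omega : N0 ≤ N))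
  have hNpos : (0:ℝ) < N := lt_trans (by positivity) hNr
  -- the set as a finset
  have hset : (AA ∩ Set.Iio N).ncard = ((range N).filter (fun n => n ∈ AA)).card := by
    rw [← Set.ncard_coe_finset]
    congr 1
    ext n
    simp only [Set.mem_inter_iff, Set.mem_Iio, Finset.coe_filter, Finset.mem_range, Set.mem_setOf_eq]
    tauto
  have hcompl : ((range N).filter (fun n => n ∈ AA)).card + ((range N).filter (fun n => ¬ n ∈ AA)).card = N := by
    rw [Finset.card_filter_add_card_filter_not, card_range]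
  have hbad : (((range N).filter (fun n => ¬ n ∈ AA)).card : ℝ) ≤ (n0 + 1) + C * N / T := by
    have hsub : (range N).filter (fun n => ¬ n ∈ AA) ⊆
        range (n0 + 1) ∪ (Icc 1 N).filter (fun n : ℕ => (T:ℝ) * (Nat.totient n : ℝ) < n) := by
      intro n hn
      rw [mem_filter, mem_range] at hn
      rw [mem_union, mem_range, mem_filter, mem_Icc]
      by_cases h : n < n0 + 1
      · exact Or.inl h
      · refine Or.inr ⟨⟨by omega, by omega⟩, ?_⟩
        have h1 := hn0 n (by omega)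
        have h2 : ¬ (n:ℝ) ≤ Real.sqrt ((kap n : ℝ) + 1) * (Nat.totient n : ℝ) := hn.2
        push Not at h2
        have h3 : (T:ℝ) ≤ Real.sqrt ((kap n : ℝ) + 1) := by
          apply Real.le_sqrt_of_sq_le
          have : ((T:ℝ))^2 ≤ kap n := by exact_mod_cast h1
          linarith
        have h4 : (0:ℝ) ≤ (Nat.totient n : ℝ) := by positivity
        nlinarith
    have h1 := (Finset.card_le_card hsub).trans (Finset.card_union_le _ _)
    rw [card_range] at h1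
    have h2 := card_large C hC T (by linarith) N
    have h3 : (((range N).filter (fun n => ¬ n ∈ AA)).card : ℝ) ≤ ((n0 + 1 : ℕ) : ℝ) +
        (((Icc 1 N).filter (fun n : ℕ => (T:ℝ) * (Nat.totient n : ℝ) < n)).card : ℝ) := by
      exact_mod_cast h1
    push_cast at h3
    linarith
  have hcr : (((range N).filter (fun n => n ∈ AA)).card : ℝ) +
      (((range N).filter (fun n => ¬ n ∈ AA)).card : ℝ) = N := by exact_mod_cast hcompl
  rw [hset, Real.dist_eq, abs_lt]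
  have hb0 : (0:ℝ) ≤ (((range N).filter (fun n => ¬ n ∈ AA)).card : ℝ) := by positivity
  have he1 : (n0 : ℝ) + 1 < ε / 2 * N := by
    rw [div_lt_iff₀ hε] at hNr
    linarith
  have he2 : C * N / T ≤ ε / 2 * N := by
    rw [div_le_iff₀ (by linarith)]
    rw [div_lt_iff₀ hε] at hT2
    nlinarith
  constructor
  · rw [lt_sub_iff_add_lt, lt_div_iff₀ hNpos]
    nlinarith
  · rw [sub_lt_iff_lt_add, div_lt_iff₀ hNpos]
    nlinarith

lemma ratio_tendsto :
    Tendsto (fun n : ℕ => FF n / (Nat.totient n : ℝ)) (atTop ⊓ 𝓟 AA) (𝓝 0) := by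
  rw [Metric.tendsto_nhds]
  intro ε hε
  rw [eventually_inf_principal]
  obtain ⟨T, hT⟩ := exists_nat_gt (1 / ε)
  have hT0 : (0:ℝ) < T := lt_trans (by positivity) hT
  obtain ⟨X, hX⟩ := kap_tendsto (T ^ 2)
  filter_upwards [eventually_ge_atTop (max X 1)] with n hn hA
  have h1 : T ^ 2 ≤ kap n := hX n ((le_max_left _ _).trans hn)
  have hn1 : 1 ≤ n := (le_max_right _ _).trans hn
  have h2 : 0 < Nat.totient n := Nat.totient_pos.2 (by omega)
  have h3 : (0:ℝ) < (Nat.totient n : ℝ) := by exact_mod_cast h2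
  have h4 : (n:ℝ) ≤ Real.sqrt ((kap n : ℝ) + 1) * (Nat.totient n : ℝ) := hA
  set s := Real.sqrt ((kap n : ℝ) + 1) with hs
  have hk : (0:ℝ) < (kap n : ℝ) + 1 := by positivity
  have hss : s * s = (kap n : ℝ) + 1 := Real.mul_self_sqrt hk.le
  have hs0 : 0 < s := Real.sqrt_pos.2 hk
  have hTs : (T:ℝ) ≤ s := by
    apply Real.le_sqrt_of_sq_le
    have : ((T:ℝ))^2 ≤ kap n := by exact_mod_cast h1
    linarith
  have h0 : 0 ≤ FF n / (Nat.totient n : ℝ) := by unfold FF; positivity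
  have h5 : FF n / (Nat.totient n : ℝ) ≤ 1 / s := by
    unfold FF
    rw [← hss, div_le_div_iff₀ h3 hs0]
    have : 1 / (s * s) * (n:ℝ) * s = n / s := by field_simp
    rw [this, one_mul, div_le_iff₀ hs0]
    linarith
  rw [Real.dist_eq, sub_zero, abs_of_nonneg h0]
  refine lt_of_le_of_lt h5 ?_
  rw [div_lt_iff₀ hs0]
  rw [div_lt_iff₀ hε] at hT
  nlinarith

/-- There is F with F(x)→∞ and F(n)/φ(n)→0 along a density-one set, such that for some C only finitely many x have more than C·F(x) integers n with n+φ(n) in the open interval (x, x+F(x)). -/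
theorem result :
    ∃ F : ℕ → ℝ, Tendsto F atTop atTop ∧
      (∃ A : Set ℕ,
        Tendsto (fun N : ℕ => ((A ∩ Set.Iio N).ncard : ℝ) / (N : ℝ)) atTop (𝓝 1) ∧
        Tendsto (fun n : ℕ => F n / (Nat.totient n : ℝ)) (atTop ⊓ 𝓟 A) (𝓝 0)) ∧
      ¬ (∀ C : ℝ, Set.Infinite {x : ℕ |
          ((Set.ncard {n : ℕ | (x : ℝ) < (n : ℝ) + (Nat.totient n : ℝ) ∧
              (n : ℝ) + (Nat.totient n : ℝ) < (x : ℝ) + F x} : ℕ) : ℝ) > C * F x}) := by
  refine ⟨FF, FF_tendsto, ⟨AA, AA_density, ratio_tendsto⟩, ?_⟩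
  intro h
  apply h 6
  obtain ⟨X0, hX0⟩ := kap_spec
  apply (Set.finite_Iio X0).subset
  intro x hx
  rw [Set.mem_Iio]
  by_contra hcon
  push Not at hcon
  have h1 := (hX0 x hcon).2
  rw [Set.mem_setOf_eq] at hx
  exact absurd h1 (not_le.2 hx)

end Pool.Agent.S17899
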