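import Pool.Statements.S18419
-- import your own Pool.Agent.* helpers here

set_option autoImplicit false
open Pool Pool.MP_c520af_nt

namespace Pool.Agent.S18419

open Polynomial

/-- `F_d = (d - 1) + X (X - 1) ... (X - (d - 1))`. -/
noncomputable def F (K : Type) [Field K] (d : ℕ) : K[X] :=
  (∏ a ∈ Finset.range d, (X - C (a : K))) + C ((d : K) - 1)

theorem F_natDegree (K : Type) [Field K] (d : ℕ) : (F K d).natDegree = d := by
  unfold F
  rw [natDegree_add_C, natDegree_prod_of_monic _ _ (fun a _ => monic_X_sub_C _)]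
  simp only [natDegree_X_sub_C, Finset.sum_const, Finset.card_range, smul_eq_mul, mul_one]

theorem F_eval (K : Type) [Field K] (d : ℕ) (j : ℕ) (hj : j < d) :
    (F K d).eval (j : K) = (d : K) - 1 := by
  unfold F
  rw [eval_add, eval_prod, eval_C, Finset.prod_eq_zero (Finset.mem_range.mpr hj) (by simp),
    zero_add]

theorem step (K : Type) [Field K] (d : ℕ) (i j : ℕ) (hi : i < d) (hj : j < d) :
    (fun p : K × K => (p.2, (F K d).eval p.2 - (fun _ : ℕ => (1 : K)) d * p.1)) ((i : K), (j : K)) =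
      ((j : K), ((d - 1 - i : ℕ) : K)) := by
  have h1 : ((d - 1 - i : ℕ) : K) = (d : K) - 1 - i := by
    rw [Nat.sub_sub, Nat.cast_sub (by omega)]
    push_cast
    ring
  simp only [F_eval K d j hj, h1, one_mul]

/-- For every number field K there are maps (x,y) to (y, F_d(y) − δ_d x), with deg F_d = d and δ_d ≠ 0, for each d ≥ 2, whose number of K-rational periodic points eventually exceeds C·d for every constant C. -/
theorem result :
    ∀ (K : Type) [Field K] [NumberField K],
      ∃ (F : ℕ → Polynomial K) (δ : ℕ → K),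
        (∀ d : ℕ, 2 ≤ d → (F d).natDegree = d ∧ δ d ≠ 0) ∧
        ∀ C : ℕ, ∃ D : ℕ, ∀ d : ℕ, 2 ≤ d → D ≤ d →
          (((C * d : ℕ) : ℕ∞) <
            {P : K × K | ∃ n : ℕ, 1 ≤ n ∧
              (fun p : K × K => (p.2, (F d).eval p.2 - δ d * p.1))^[n] P = P}.encard) := by
  classical
  intro K _ _
  refine ⟨F K, fun _ => 1, fun d hd => ⟨F_natDegree K d, one_ne_zero⟩, ?_⟩
  intro C
  refine ⟨C + 1, fun d hd hC => ?_⟩
  have hsub : (((Finset.range d ×ˢ Finset.range d).image
      (fun q : ℕ × ℕ => ((q.1 : K), (q.2 : K))) : Finset (K × K)) : Set (K × K)) ⊆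
      {P : K × K | ∃ n : ℕ, 1 ≤ n ∧
        (fun p : K × K => (p.2, (F K d).eval p.2 - (fun _ : ℕ => (1 : K)) d * p.1))^[n] P = P} := by
    intro P hP
    simp only [Finset.coe_image, Set.mem_image, Finset.mem_coe, Finset.mem_product,
      Finset.mem_range] at hP
    obtain ⟨⟨i, j⟩, ⟨hi, hj⟩, rfl⟩ := hP
    simp only at hi hj
    refine ⟨4, by norm_num, ?_⟩
    have e1 := step K d i j hi hj
    have e2 := step K d j (d - 1 - i) hj (by omega)
    have e3 := step K d (d - 1 - i) (d - 1 - j) (by omega) (by omega)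
    have e4 := step K d (d - 1 - j) (d - 1 - (d - 1 - i)) (by omega) (by omega)
    rw [show d - 1 - (d - 1 - i) = i by omega] at e3 e4
    rw [show d - 1 - (d - 1 - j) = j by omega] at e4
    generalize (fun p : K × K => (p.2, (F K d).eval p.2 - (fun _ : ℕ => (1 : K)) d * p.1)) = g
      at e1 e2 e3 e4 ⊢
    show g (g (g (g ((i : K), (j : K))))) = ((i : K), (j : K))
    rw [e1, e2, e3, e4]
  refine lt_of_lt_of_le ?_ (Set.encard_le_encard hsub)
  rw [Set.encard_coe_eq_coe_finsetCard, Finset.card_image_of_injective, Finset.card_product,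
    Finset.card_range]
  · exact_mod_cast Nat.mul_lt_mul_of_pos_right (by omega) (by omega)
  · rintro ⟨a, b⟩ ⟨a', b'⟩ h
    simp only [Prod.mk.injEq, Nat.cast_inj] at h
    exact Prod.ext h.1 h.2

end Pool.Agent.S18419
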