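import Pool.Statements.S18732
import Pool.Agent.W243.LangJ

set_option autoImplicit false
open Pool Pool.MP_e07dae_nt

namespace Pool.Agent.S18732

/-- The negation of the preceding statement: For each ε>0 there is C>0 such that for all n, positive integers a_i and nonzero integers b_i with product of a_i^b_i not 1, the distance of that product from 1 is at least C times max∣b_j∣ over ∣b_1…b_n a_1…a_n∣^(1+ε). -/
theorem result :
    ¬ (∀ ε : ℝ, 0 < ε → ∃ C : ℝ, 0 < C ∧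
      ∀ n : ℕ, ∀ a : Fin n → ℕ, ∀ b : Fin n → ℤ,
        (∀ i, 0 < a i) → (∀ i, b i ≠ 0) →
        (∏ i, ((a i : ℝ) ^ (b i))) ≠ 1 →
        C * ((Finset.univ.sup (fun j => (b j).natAbs) : ℕ) : ℝ) /
            ((|(∏ i, b i) * ∏ i, (a i : ℤ)| : ℤ) : ℝ) ^ (1 + ε)
          ≤ |(∏ i, ((a i : ℝ) ^ (b i))) - 1|) := by
  intro h
  obtain ⟨C, hC, hh⟩ := h (1/28) (by norm_num)
  obtain ⟨t, ht, h1, h2⟩ := Pool.Agent.W243.LangJ.core C hC
  have h3 := hh 7 (Pool.Agent.W243.LangJ.a t) (Pool.Agent.W243.LangJ.b t)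
    (Pool.Agent.W243.LangJ.a_pos t ht)
    (fun j => Pool.Agent.W243.LangJ.b_ne t ht j) h1
  have e : ((|(∏ i, Pool.Agent.W243.LangJ.b t i) * ∏ i, (Pool.Agent.W243.LangJ.a t i : ℤ)| : ℤ) : ℝ)
      = (∏ i, |((Pool.Agent.W243.LangJ.b t i : ℤ) : ℝ)|) *
        (∏ i, ((Pool.Agent.W243.LangJ.a t i : ℕ) : ℝ)) := by
    push_cast
    rw [abs_mul, Finset.abs_prod]
    congr 1
    rw [abs_of_nonneg]
    positivity
  rw [e] at h3
  exact absurd h2 (not_lt.2 h3)

end Pool.Agent.S18732
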