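import Pool.Statements.S19226
import Pool.Agent.H921K.All

set_option autoImplicit false
open Pool Pool.MP_284d10_pr

namespace Pool.Agent.S19226


namespace Aux

open Finset Pool.Agent.H921S Pool.Agent.H921K
open scoped Classical

/-- clauses of the frozen statement -/
abbrev TC (n : ℕ) := {c : Finset (Fin n × Bool) // c.card = 2 ∧ (c.image Prod.fst).card = 2}

/-- orderings of the frozen statement -/
abbrev OT (n : ℕ) := Fin (Nat.card (TC n)) ≃ TC n

/-- the two types of clauses agree -/
noncomputable def cl (n : ℕ) : TC n ≃ Clause 2 n where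
  toFun c := ⟨c.1, c.2.1, by
    intro l hl l' hl' h
    have h1 : (c.1.image Prod.fst).card = c.1.card := by rw [c.2.1, c.2.2]
    exact Finset.card_image_iff.1 h1 hl hl' h⟩
  invFun C := ⟨C.lits, C.card_lits, by
    rw [Finset.card_image_iff.2, C.card_lits]
    intro l hl l' hl' h
    exact C.distinct l hl l' hl' h⟩
  left_inv c := rfl
  right_inv C := rfl

theorem card_eq (n : ℕ) : Nat.card (TC n) = Fintype.card (Clause 2 n) := by
  rw [Nat.card_congr (cl n), Nat.card_eq_fintype_card]

/-- the two types of orderings agree -/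
noncomputable def ord (n : ℕ) : OT n ≃ H921S.Ord (Clause 2 n) :=
  Equiv.equivCongr (finCongr (card_eq n)) (cl n)

theorem ord_symm {n : ℕ} (e : OT n) (C : Clause 2 n) :
    (((ord n e).symm C : Fin _) : ℕ) = ((e.symm ((cl n).symm C) : Fin _) : ℕ) := by
  simp [ord, Equiv.equivCongr]

/-- the event of the frozen statement -/
def Ev {n : ℕ} (e : OT n) : Prop :=
  ∃ m : ℕ,
    (∀ j : ℕ, j < m → ∃ a : Fin n → Bool,
        ∀ c : TC n, ((e.symm c : Fin _) : ℕ) < j → ∃ l ∈ c.val, a l.1 = l.2) ∧
    ∃ H : Finset (TC n),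
      H.Nonempty ∧
      (∀ c ∈ H, ((e.symm c : Fin _) : ℕ) < m) ∧
      ∃ a : Fin n → Bool,
        (∀ c ∈ H, ∃ l ∈ c.val, a l.1 = l.2) ∧
        ∀ b : Fin n → Bool, (∀ c ∈ H, ∃ l ∈ c.val, b l.1 = l.2) →
          ∀ i : Fin n, (∃ c ∈ H, ∃ l ∈ c.val, l.1 = i) → b i = a i

/-- the event of the helper files -/
def Good {n : ℕ} (σ : H921S.Ord (Clause 2 n)) : Prop :=
  ∀ m, (∀ j < m, Sat (st σ j)) → ¬ HasUSS (st σ m)

theorem ev_imp {n : ℕ} (e : OT n) (h : Ev e) : ¬ Good (ord n e) := by
  intro hg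
  obtain ⟨m, h1, H, hH, hHm, a, ha, hb⟩ := h
  refine hg m ?_ ?_
  · intro j hj
    obtain ⟨a', ha'⟩ := h1 j hj
    refine ⟨a', ?_⟩
    intro C hC
    rw [st, Finset.mem_filter, ord_symm] at hC
    obtain ⟨l, hl, hl2⟩ := ha' ((cl n).symm C) hC.2
    exact ⟨l, hl, hl2⟩
  · refine ⟨H.map (cl n).toEmbedding, ?_, ?_, ?_, ?_⟩
    · intro C hC
      rw [Finset.mem_map] at hC
      obtain ⟨c, hc, rfl⟩ := hC
      rw [st, Finset.mem_filter, ord_symm]
      refine ⟨Finset.mem_univ _, ?_⟩
      have := hHm c hc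
      simpa using this
    · exact hH.map
    · refine ⟨a, ?_⟩
      intro C hC
      rw [Finset.mem_map] at hC
      obtain ⟨c, hc, rfl⟩ := hC
      obtain ⟨l, hl, hl2⟩ := ha c hc
      exact ⟨l, hl, hl2⟩
    · intro a1 a2 h1 h2 v hv
      have key : ∀ b : Asg n, Sol b (H.map (cl n).toEmbedding) → b v = a v := by
        intro b hsb
        refine hb b ?_ v ?_
        · intro c hc
          obtain ⟨l, hl, hl2⟩ := hsb (cl n c) (Finset.mem_map_of_mem _ hc)
          exact ⟨l, hl, hl2⟩
        · unfold vars at hv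
          rw [Finset.mem_biUnion] at hv
          obtain ⟨C, hC, hv⟩ := hv
          rw [Finset.mem_map] at hC
          obtain ⟨c, hc, rfl⟩ := hC
          rw [Finset.mem_image] at hv
          obtain ⟨l, hl, hlv⟩ := hv
          exact ⟨c, hc, l, hl, hlv⟩
      rw [key a1 h1, key a2 h2]

theorem card_le (n : ℕ) :
    (Nat.card {e : OT n // Ev e} : ℝ) ≤
      (Nat.card (OT n) : ℝ) * (1 - avg (fun σ : H921S.Ord (Clause 2 n) => ind (Good σ))) := by
  have hN : (Nat.card (OT n) : ℝ) = (Fintype.card (H921S.Ord (Clause 2 n)) : ℝ) := by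
    rw [Nat.card_congr (ord n), Nat.card_eq_fintype_card]
  have hpos : (0 : ℝ) < (Fintype.card (H921S.Ord (Clause 2 n)) : ℝ) := by
    have : 0 < Fintype.card (H921S.Ord (Clause 2 n)) :=
      Fintype.card_pos_iff.2 ⟨(Fintype.equivFin _).symm⟩
    exact_mod_cast this
  have h1 : Nat.card {e : OT n // Ev e} ≤
      (univ.filter (fun σ : H921S.Ord (Clause 2 n) => ¬ Good σ)).card := by
    rw [← Fintype.card_subtype, ← Nat.card_eq_fintype_card]
    refine Nat.card_le_card_of_injective
      (fun e : {e : OT n // Ev e} => (⟨ord n e.1, ev_imp e.1 e.2⟩ :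
        {σ : H921S.Ord (Clause 2 n) // ¬ Good σ})) ?_
    intro x y hxy
    apply Subtype.ext
    apply (ord n).injective
    exact congrArg Subtype.val hxy
  have h2 : ((univ.filter (fun σ : H921S.Ord (Clause 2 n) => ¬ Good σ)).card : ℝ)
      = (Fintype.card (H921S.Ord (Clause 2 n)) : ℝ)
        - ((univ.filter (fun σ : H921S.Ord (Clause 2 n) => Good σ)).card : ℝ) := by
    have := Finset.card_filter_add_card_filter_not (s := (univ : Finset (H921S.Ord (Clause 2 n))))
      (fun σ => Good σ)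
    rw [Finset.card_univ] at this
    rw [← this]
    push_cast
    ring
  have h3 : avg (fun σ : H921S.Ord (Clause 2 n) => ind (Good σ))
      = ((univ.filter (fun σ : H921S.Ord (Clause 2 n) => Good σ)).card : ℝ)
        / (Fintype.card (H921S.Ord (Clause 2 n)) : ℝ) := by
    unfold avg ind
    rw [Finset.sum_boole]
  rw [hN, h3, mul_sub, mul_one, mul_div_cancel₀ _ hpos.ne', ← h2]
  exact_mod_cast h1

end Aux

/-- The negation of the preceding statement: For each k ≥ 2, under a uniformly random ordering of all k-clauses on n variables, the probability that some non-empty uniquely satisfiable subformula appears by the time the formula first becomes unsatisfiable tends to 1 as n grows. -/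
theorem result :
    ¬ (∀ k : ℕ, 2 ≤ k →
    Filter.Tendsto
      (fun n : ℕ =>
        (Nat.card {e : Fin (Nat.card {c : Finset (Fin n × Bool) // c.card = k ∧ (c.image Prod.fst).card = k}) ≃
                      {c : Finset (Fin n × Bool) // c.card = k ∧ (c.image Prod.fst).card = k} //
            ∃ m : ℕ,
              (∀ j : ℕ, j < m → ∃ a : Fin n → Bool,
                  ∀ c : {c : Finset (Fin n × Bool) // c.card = k ∧ (c.image Prod.fst).card = k},
                    ((e.symm c : Fin _) : ℕ) < j → ∃ l ∈ c.val, a l.1 = l.2) ∧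
              ∃ H : Finset {c : Finset (Fin n × Bool) // c.card = k ∧ (c.image Prod.fst).card = k},
                H.Nonempty ∧
                (∀ c ∈ H, ((e.symm c : Fin _) : ℕ) < m) ∧
                ∃ a : Fin n → Bool,
                  (∀ c ∈ H, ∃ l ∈ c.val, a l.1 = l.2) ∧
                  ∀ b : Fin n → Bool, (∀ c ∈ H, ∃ l ∈ c.val, b l.1 = l.2) →
                    ∀ i : Fin n, (∃ c ∈ H, ∃ l ∈ c.val, l.1 = i) → b i = a i} : ℝ) /
        (Nat.card (Fin (Nat.card {c : Finset (Fin n × Bool) // c.card = k ∧ (c.image Prod.fst).card = k}) ≃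
                      {c : Finset (Fin n × Bool) // c.card = k ∧ (c.image Prod.fst).card = k}) : ℝ))
      Filter.atTop (nhds 1)) := by
  intro hall
  have h2 := hall 2 le_rfl
  obtain ⟨δ, hδ, n0, hn⟩ := Pool.Agent.H921K.fin2
  have hlt : ∀ᶠ n : ℕ in Filter.atTop, (1 - δ) <
      ((Nat.card {e : Aux.OT n // Aux.Ev e} : ℝ) / (Nat.card (Aux.OT n) : ℝ)) :=
    h2.eventually (lt_mem_nhds (by linarith))
  obtain ⟨n, hn1, hn2⟩ := (hlt.and (Filter.eventually_ge_atTop n0)).exists
  have h3 := hn n hn2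
  have h4 := Aux.card_le n
  have hpos : (0 : ℝ) < (Nat.card (Aux.OT n) : ℝ) := by
    have hN : Nat.card (Aux.OT n) = Fintype.card (Pool.Agent.H921S.Ord (Pool.Agent.H921S.Clause 2 n)) := by
      rw [Nat.card_congr (Aux.ord n), Nat.card_eq_fintype_card]
    have : 0 < Nat.card (Aux.OT n) := by
      rw [hN]
      exact Fintype.card_pos_iff.2 ⟨(Fintype.equivFin _).symm⟩
    exact_mod_cast this
  rw [lt_div_iff₀ hpos] at hn1
  have h5 : δ ≤ Pool.Agent.H921S.avg (fun σ : Pool.Agent.H921S.Ord (Pool.Agent.H921S.Clause 2 n) =>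
      Pool.Agent.H921S.ind (Aux.Good σ)) := h3
  have h6 : (Nat.card (Aux.OT n) : ℝ) * (1 - Pool.Agent.H921S.avg
      (fun σ : Pool.Agent.H921S.Ord (Pool.Agent.H921S.Clause 2 n) =>
        Pool.Agent.H921S.ind (Aux.Good σ))) ≤ (Nat.card (Aux.OT n) : ℝ) * (1 - δ) :=
    mul_le_mul_of_nonneg_left (by linarith) hpos.le
  linarith


end Pool.Agent.S19226
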