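import Pool.Statements.S19240
-- import your own Pool.Agent.* helpers here
import Pool.Agent.Q30.LV.Path
import Pool.Agent.Q30.LV.Cover
import Pool.Agent.Q30.LV.Four

set_option autoImplicit false
open Filter Topology MeasureTheory
open Pool Pool.MP_2c66a4_pr

namespace Pool.Agent.S19240

open Pool.Agent.Q30.LV in
/-- No probability measure carried by the graph has Fourier decay of exponent 1/3. -/
theorem no_measure {ω : W} (h : ω ∈ Gd) (μ : Measure (ℝ × ℝ)) (K : Set (ℝ × ℝ))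
    (hμ : IsProbabilityMeasure μ)
    (hK : K ⊆ {p : ℝ × ℝ | p.1 ∈ Set.Icc (0 : ℝ) 1 ∧ p.2 = X p.1 ω}) (hKc : μ Kᶜ = 0)
    (C : ℝ) (hC : ∀ ξ : ℝ × ℝ, 1 ≤ ‖ξ‖ →
      ‖∫ p, Complex.exp (((ξ.1 * p.1 + ξ.2 * p.2 : ℝ) : ℂ) * Complex.I) ∂μ‖
        ≤ C * ‖ξ‖ ^ (-(2 / 3 : ℝ) / 2)) : False := by
  classical
  set Z := Zr ω with hZ
  have hZ0 : 0 ≤ Z := Zr_nonneg ω
  have hK0 := KK_pos 1
  set D : ℝ := 8 + 4 * |C| with hD
  have hD0 : 0 < D := by positivity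
  obtain ⟨M, hM⟩ := exists_nat_gt (max 2 (max (KK 1 * Z) ((Z + 1) * D)))
  have hM2 : (2 : ℝ) < M := (le_max_left _ _).trans_lt hM
  have hM3 : KK 1 * Z < M := ((le_max_left _ _).trans (le_max_right _ _)).trans_lt hM
  have hM4 : (Z + 1) * D < M := ((le_max_right _ _).trans (le_max_right _ _)).trans_lt hM
  have hM0 : (0 : ℝ) < M := by linarith
  have hM2' : 2 ≤ M := by
    have : ((2 : ℕ) : ℝ) ≤ M := by push_cast; linarith
    exact_mod_cast this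
  obtain ⟨B, G, hB, hG⟩ := cover h hM2'
  have hV : KK 1 * Zr ω * ((M : ℝ) ^ 13)⁻¹ ≤ 1 / (((M ^ 3 : ℕ) : ℝ)) ^ 4 := by
    rw [← hZ]
    push_cast
    rw [← div_eq_mul_inv, div_le_div_iff₀ (by positivity) (by positivity), one_mul]
    calc KK 1 * Z * ((M : ℝ) ^ 3) ^ 4 ≤ M * ((M : ℝ) ^ 3) ^ 4 := by gcongr
      _ = (M : ℝ) ^ 13 := by ring
  have hsub : K ⊆ ⋃ c ∈ Finset.range (B + 1),
      {p : ℝ × ℝ | |p.2 - G c| ≤ 1 / (((M ^ 3 : ℕ) : ℝ)) ^ 4} := by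
    intro p hp
    obtain ⟨h1, h2⟩ := hK hp
    obtain ⟨c, hc, h3⟩ := hG p.1 h1.2
    simp only [Set.mem_iUnion]
    refine ⟨c, Finset.mem_range.2 (by omega), ?_⟩
    show |p.2 - G c| ≤ _
    rw [h2]
    exact h3.trans hV
  have h1 : (1 : ℝ) ≤ μ.real K := by
    have h2 : μ K = 1 := by
      refine le_antisymm prob_le_one ?_
      calc (1 : ENNReal) = μ Set.univ := measure_univ.symm
        _ = μ (K ∪ Kᶜ) := by rw [Set.union_compl_self]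
        _ ≤ μ K + μ Kᶜ := measure_union_le _ _
        _ = μ K := by rw [hKc, add_zero]
    rw [measureReal_def, h2]
    simp
  have h2 : μ.real K ≤ ∑ c ∈ Finset.range (B + 1), D / ((M ^ 3 : ℕ) : ℝ) := by
    refine (measureReal_mono hsub (measure_ne_top _ _)).trans ?_
    refine (measureReal_biUnion_finset_le _ _).trans ?_
    refine Finset.sum_le_sum fun c _ => ?_
    exact interval_bound hC (G c) (M ^ 3) (Nat.one_le_pow _ _ (by omega))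
  rw [Finset.sum_const, Finset.card_range, nsmul_eq_mul] at h2
  push_cast at h2
  have h3 : ((B : ℝ) + 1) * (D / (M : ℝ) ^ 3) < 1 := by
    have h4 : (B : ℝ) + 1 ≤ (M : ℝ) ^ 2 * (Z + 1) := by
      have : (1 : ℝ) ≤ (M : ℝ) ^ 2 := one_le_pow₀ (by linarith)
      have h5 : (B : ℝ) ≤ (M : ℝ) ^ 2 * Z := hB
      linarith [mul_add ((M : ℝ) ^ 2) Z 1]
    calc ((B : ℝ) + 1) * (D / (M : ℝ) ^ 3) ≤ ((M : ℝ) ^ 2 * (Z + 1)) * (D / (M : ℝ) ^ 3) := by gcongr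
      _ = (Z + 1) * D / M := by field_simp
      _ < 1 := by rw [div_lt_one hM0]; exact hM4
  linarith

/-- The negation of the preceding statement: For 0<α<1 and any symmetric α-stable Lévy process, almost surely the graph over [0,1] has Fourier dimension 1: for each s<1 some compactly carried probability measure on it has Fourier decay ‖ξ‖^(-s/2), and for no s>1. -/
theorem result :
    ¬ (∀ (α : ℝ), 0 < α → α < 1 →
  ∀ (Ω : Type) [MeasurableSpace Ω] (P : Measure Ω) [IsProbabilityMeasure P] (X : ℝ → Ω → ℝ),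
    (∀ t : ℝ, Measurable (X t)) →
    (∀ᵐ ω ∂P, X 0 ω = 0) →
    (∀ᵐ ω ∂P, ∀ t : ℝ, 0 ≤ t →
        ContinuousWithinAt (fun s => X s ω) (Set.Ici t) t ∧
        (0 < t → ∃ l : ℝ, Tendsto (fun s => X s ω) (𝓝[<] t) (𝓝 l))) →
    (∀ (n : ℕ) (t : Fin (n + 1) → ℝ), 0 ≤ t 0 → StrictMono t →
        ProbabilityTheory.iIndepFun
          (fun (i : Fin n) (ω : Ω) => X (t i.succ) ω - X (t i.castSucc) ω) P) →
    (∀ s t : ℝ, 0 ≤ s → s ≤ t → ∀ ξ : ℝ,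
        ∫ ω, Complex.exp (((ξ * (X t ω - X s ω) : ℝ) : ℂ) * Complex.I) ∂P
          = ((Real.exp (-(t - s) * |ξ| ^ α) : ℝ) : ℂ)) →
    ∀ᵐ ω ∂P,
      (∀ s : ℝ, 0 < s → s < 1 →
        ∃ (μ : Measure (ℝ × ℝ)) (K : Set (ℝ × ℝ)),
          IsProbabilityMeasure μ ∧ IsCompact K ∧
          K ⊆ {p : ℝ × ℝ | p.1 ∈ Set.Icc (0 : ℝ) 1 ∧ p.2 = X p.1 ω} ∧
          μ Kᶜ = 0 ∧
          ∃ C : ℝ, ∀ ξ : ℝ × ℝ, 1 ≤ ‖ξ‖ →
            ‖∫ p, Complex.exp (((ξ.1 * p.1 + ξ.2 * p.2 : ℝ) : ℂ) * Complex.I) ∂μ‖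
              ≤ C * ‖ξ‖ ^ (-s / 2)) ∧
      (∀ s : ℝ, 1 < s →
        ¬ ∃ (μ : Measure (ℝ × ℝ)) (K : Set (ℝ × ℝ)),
          IsProbabilityMeasure μ ∧ IsCompact K ∧
          K ⊆ {p : ℝ × ℝ | p.1 ∈ Set.Icc (0 : ℝ) 1 ∧ p.2 = X p.1 ω} ∧
          μ Kᶜ = 0 ∧
          ∃ C : ℝ, ∀ ξ : ℝ × ℝ, 1 ≤ ‖ξ‖ →
            ‖∫ p, Complex.exp (((ξ.1 * p.1 + ξ.2 * p.2 : ℝ) : ℂ) * Complex.I) ∂μ‖
              ≤ C * ‖ξ‖ ^ (-s / 2))) := by
  intro hall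
  have h1 := hall (1 / 15) (by norm_num) (by norm_num) Pool.Agent.Q30.LV.W Pool.Agent.Q30.LV.Q
    Pool.Agent.Q30.LV.X Pool.Agent.Q30.LV.measurable_X
    (Eventually.of_forall Pool.Agent.Q30.LV.X_zero)
    (by
      filter_upwards [Pool.Agent.Q30.LV.ae_Gd] with ω hω t _
      exact ⟨Pool.Agent.Q30.LV.X_right hω t, fun _ => Pool.Agent.Q30.LV.X_left hω t⟩)
    (fun n t h0 ht => Pool.Agent.Q30.LV.indep h0 ht.monotone)
    (fun s t hs hst ξ => Pool.Agent.Q30.LV.char_incr hs hst ξ)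
  obtain ⟨ω, h2, hω⟩ := (h1.and Pool.Agent.Q30.LV.ae_Gd).exists
  obtain ⟨μ, K, hμ, -, hK, hKc, C, hC⟩ := h2.1 (2 / 3) (by norm_num) (by norm_num)
  exact no_measure hω μ K hμ hK hKc C hC

end Pool.Agent.S19240
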