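import Pool.Statements.S19353
import Pool.Agent.Helper764.KacFin

set_option autoImplicit false
open MeasureTheory Filter Topology
open Pool Pool.MP_5fc11c_pr

namespace Pool.Agent.S19353


namespace Aux

/-- restriction to the first `n + 1` coordinates -/
def res (n : ℕ) (ω : ℕ → ℝ) : Fin (n + 1) → ℝ := fun k => ω k

/-- extension by zero -/
noncomputable def ext (n : ℕ) (c : Fin (n + 1) → ℝ) : ℕ → ℝ :=
  fun j => if h : j < n + 1 then c ⟨j, h⟩ else 0

theorem measurable_res (n : ℕ) : Measurable (res n) :=
  measurable_pi_lambda _ fun k => measurable_pi_apply _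

theorem measurable_ext (n : ℕ) : Measurable (ext n) := by
  refine measurable_pi_lambda _ fun j => ?_
  unfold ext
  by_cases h : j < n + 1
  · simp only [h, dite_true]
    exact measurable_pi_apply _
  · simp only [h, dite_false]
    exact measurable_const

theorem map_res (μ : Measure ℝ) [IsProbabilityMeasure μ] (n : ℕ) :
    (Kac764.PP μ).map (res n) = Measure.pi fun _ : Fin (n + 1) => μ := by
  symm
  refine Measure.pi_eq fun s hs => ?_
  rw [Measure.map_apply (measurable_res n) (MeasurableSet.univ_pi hs)]
  have h1 : res n ⁻¹' (Set.univ.pi s) = Set.pi (Finset.range (n + 1) : Set ℕ)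
      (fun j => if h : j < n + 1 then s ⟨j, h⟩ else Set.univ) := by
    ext ω
    simp only [Set.mem_preimage, Set.mem_pi, Set.mem_univ, true_implies, res, Finset.coe_range,
      Set.mem_Iio]
    constructor
    · intro h j hj
      simp only [hj, dite_true]
      exact h ⟨j, hj⟩
    · intro h k
      have := h k.1 k.2
      simpa only [k.2, dite_true] using this
  rw [h1, Measure.infinitePi_pi]
  · rw [Finset.prod_range]
    refine Finset.prod_congr rfl fun k _ => ?_
    simp only [k.2, dite_true]
  · intro j _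
    by_cases h : j < n + 1
    · simp only [h, dite_true]
      exact hs _
    · simp only [h, dite_false]
      exact MeasurableSet.univ

theorem nz_eq (p : Polynomial ℝ) : Kac764.nz p Set.univ = p.roots.toFinset.card := by
  unfold Kac764.nz
  rw [← Set.ncard_coe_finset]
  congr 1
  ext x
  simp [Polynomial.mem_roots']

theorem poly_eq (n : ℕ) (c : Fin (n + 1) → ℝ) :
    (∑ k : Fin (n + 1), Polynomial.C (c k) * Polynomial.X ^ (k : ℕ))
      = Kac764.kac n (ext n c) := by
  unfold Kac764.kac
  rw [Finset.sum_range]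
  refine Finset.sum_congr rfl fun k _ => ?_
  simp only [ext, k.2, dite_true]

theorem kac_ext_res (n : ℕ) (ω : ℕ → ℝ) : Kac764.kac n (ext n (res n ω)) = Kac764.kac n ω := by
  unfold Kac764.kac
  refine Finset.sum_congr rfl fun j hj => ?_
  have : j < n + 1 := Finset.mem_range.1 hj
  simp only [ext, res, this, dite_true]

theorem expect_eq (μ : Measure ℝ) [IsProbabilityMeasure μ] (n : ℕ) :
    (∫⁻ c : Fin (n + 1) → ℝ,
      (((∑ k : Fin (n + 1), Polynomial.C (c k) * Polynomial.X ^ (k : ℕ)).roots.toFinset.card : ℕ)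
        : ENNReal) ∂(Measure.pi fun _ : Fin (n + 1) => μ)).toReal
      = ∫ ω, (Kac764.nz (Kac764.kac n ω) Set.univ : ℝ) ∂(Kac764.PP μ) := by
  have hm : Measurable (fun ω : ℕ → ℝ => Kac764.nz (Kac764.kac n ω) Set.univ) :=
    Kac764.H4.measurable_nz_set n Set.univ (Or.inl rfl)
  have h1 : (fun c : Fin (n + 1) → ℝ =>
      (((∑ k : Fin (n + 1), Polynomial.C (c k) * Polynomial.X ^ (k : ℕ)).roots.toFinset.card : ℕ)
        : ENNReal)) = fun c => ((Kac764.nz (Kac764.kac n (ext n c)) Set.univ : ℕ) : ENNReal) := by
    funext c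
    rw [nz_eq, poly_eq]
  have hm2 : Measurable (fun c : Fin (n + 1) → ℝ =>
      ((Kac764.nz (Kac764.kac n (ext n c)) Set.univ : ℕ) : ENNReal)) :=
    measurable_from_top.comp (hm.comp (measurable_ext n))
  rw [h1, ← map_res μ n, lintegral_map hm2 (measurable_res n)]
  simp only [kac_ext_res]
  have hm3 : AEStronglyMeasurable
      (fun ω : ℕ → ℝ => (Kac764.nz (Kac764.kac n ω) Set.univ : ℝ)) (Kac764.PP μ) := by
    have h5 : Measurable (fun k : ℕ => (k : ℝ)) := measurable_from_top
    exact (h5.comp hm).aestronglyMeasurable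
  rw [integral_eq_lintegral_of_nonneg_ae (Filter.Eventually.of_forall fun ω => by positivity) hm3]
  congr 1
  refine lintegral_congr fun ω => ?_
  simp

end Aux

/-- For every real law with mean 0 and variance 1, the expected number of distinct real roots of the degree-n polynomial with i.i.d. coefficients of that law, minus (2/π) log n, converges to a finite real limit. -/
theorem result :
    ∀ (μ : Measure ℝ) [IsProbabilityMeasure μ],
      Integrable (fun x : ℝ => x ^ 2) μ →
      ∫ x, x ∂μ = 0 →
      ∫ x, x ^ 2 ∂μ = 1 →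
      ∃ C : ℝ, Tendsto
        (fun n : ℕ =>
          (∫⁻ c : Fin (n + 1) → ℝ,
              (((∑ k : Fin (n + 1), Polynomial.C (c k) * Polynomial.X ^ (k : ℕ)).roots.toFinset.card : ℕ) : ENNReal)
              ∂(Measure.pi fun _ : Fin (n + 1) => μ)).toReal
            - 2 / Real.pi * Real.log (n : ℝ))
        atTop (𝓝 C) := by
  intro μ _ hint hmean hvar
  have hμ : Kac764.Std μ := ⟨inferInstance, hint, hmean, hvar⟩
  obtain ⟨L, h1, h2⟩ := Kac764.Fin.main μ hμ
  refine ⟨μ.real {0} + Kac764.gaussConst + L, ?_⟩
  simp only [Aux.expect_eq]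
  exact h2


end Pool.Agent.S19353
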