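import Pool.Statements.S19453
import Pool.Agent.Q175.GS.Fin

set_option autoImplicit false
open Classical
open Pool Pool.MP_86a963_pr

namespace Pool.Agent.S19453

/-- For ε>0 and δ(n) eventually ≥ (1+ε)√(log n/(2n)), the probability that every local minimum of the energy of the random symmetric ±1 matrix (+1 w.p. 1/2+δ) is constant mod 2π tends to 1. -/
theorem result :
    ∀ ε : ℝ, 0 < ε → ∀ δ : ℕ → ℝ, (∀ n : ℕ, 0 ≤ δ n ∧ δ n ≤ 1/2) →
      (∀ᶠ n : ℕ in Filter.atTop,
        (1 + ε) * Real.sqrt (Real.log ((n : ℕ) : ℝ) / (2 * ((n : ℕ) : ℝ))) ≤ δ n) →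
      Filter.Tendsto
        (fun n : ℕ => ∑ s : Fin n → Fin n → Bool,
          if (∀ θ : Fin n → ℝ,
                IsLocalMin
                  (fun φ : Fin n → ℝ => (1/2 : ℝ) * ∑ i : Fin n, ∑ j : Fin n,
                    (if i < j then (if s i j = true then (1:ℝ) else -1)
                      else if j < i then (if s j i = true then (1:ℝ) else -1) else 0)
                      * (1 - Real.cos (φ i - φ j))) θ →
                ∀ i j : Fin n, ∃ k : ℤ, θ i - θ j = 2 * Real.pi * (k : ℝ))
          then ∏ i : Fin n, ∏ j : Fin n,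
            (if i < j then (if s i j = true then (1/2 : ℝ) + δ n else (1/2 : ℝ) - δ n)
              else (1/2 : ℝ))
          else (0 : ℝ))
        Filter.atTop (nhds (1 : ℝ)) := by
  intro ε hε δ hδ hev
  exact Pool.Agent.Q175.GS.main ε hε δ hδ hev
    (fun n s => ∀ θ : Fin n → ℝ,
                IsLocalMin
                  (fun φ : Fin n → ℝ => (1/2 : ℝ) * ∑ i : Fin n, ∑ j : Fin n,
                    (if i < j then (if s i j = true then (1:ℝ) else -1)
                      else if j < i then (if s j i = true then (1:ℝ) else -1) else 0)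
                      * (1 - Real.cos (φ i - φ j))) θ →
                ∀ i j : Fin n, ∃ k : ℤ, θ i - θ j = 2 * Real.pi * (k : ℝ))
    (fun _ _ h => h)

end Pool.Agent.S19453
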