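import Pool.Statements.S19658
import Pool.Agent.H57R2.PU.Main

set_option autoImplicit false
open MeasureTheory
open Pool Pool.MP_d2b88b_pr

namespace Pool.Agent.S19658

/-- the coordinates of the graph of the starting tree give a quasi-isometry to the lattice -/
theorem qi (D T : ℕ) : ∃ (f : H57R2.PU.Vx D → (Fin (D + 1) → ℤ)) (C K : ℕ),
    (∀ x y : H57R2.PU.Vx D,
      (∑ i, |f x i - f y i|) ≤ (C : ℤ) * ((H57R2.PU.GG D T).dist x y : ℤ) + (K : ℤ) ∧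
      ((H57R2.PU.GG D T).dist x y : ℤ) ≤ (C : ℤ) * (∑ i, |f x i - f y i|) + (K : ℤ)) ∧
    ∀ z : Fin (D + 1) → ℤ, ∃ x : H57R2.PU.Vx D, (∑ i, |z i - f x i|) ≤ (K : ℤ) := by
  refine ⟨fun v => Fin.cons v.2 v.1, 2 * D + 1, 0, ?_, ?_⟩
  · intro x y
    have h1 : ∑ i, |(Fin.cons x.2 x.1 : Fin (D + 1) → ℤ) i - (Fin.cons y.2 y.1 : Fin (D + 1) → ℤ) i|
        = H57R2.PU.nrm (x - y) := by
      rw [Fin.sum_univ_succ]
      simp [H57R2.PU.nrm]
    have h2 := H57R2.PU.nrm_le_dist (T := T) x y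
    have h3 := H57R2.PU.dist_le (T := T) x y
    have h4 := H57R2.PU.nrm_nonneg (x - y)
    rw [h1]
    push_cast
    refine ⟨by linarith, ?_⟩
    have h5 : (0 : ℤ) ≤ D := Int.natCast_nonneg D
    nlinarith
  · intro z
    refine ⟨(fun i => z i.succ, z 0), ?_⟩
    have : (Fin.cons (z 0) (fun i : Fin D => z i.succ) : Fin (D + 1) → ℤ) = z :=
      Fin.cons_self_tail z
    simp [this]

/-- The negation of the preceding statement: For every connected bounded-degree graph quasi-isometric to Z^d and every p in [0,1], in Bernoulli bond percolation with parameter p, almost surely any two infinite open clusters are equal. -/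
theorem result :
    ¬ (∀ (d : ℕ) (V : Type) (G : SimpleGraph V), G.Connected →
    (∃ D : ℕ, ∀ v : V, (G.neighborSet v).encard ≤ (D : ℕ∞)) →
    (∃ (f : V → (Fin d → ℤ)) (C K : ℕ),
        (∀ x y : V,
          (∑ i, |f x i - f y i|) ≤ (C : ℤ) * (G.dist x y : ℤ) + (K : ℤ) ∧
          (G.dist x y : ℤ) ≤ (C : ℤ) * (∑ i, |f x i - f y i|) + (K : ℤ)) ∧
        ∀ z : Fin d → ℤ, ∃ x : V, (∑ i, |z i - f x i|) ≤ (K : ℤ)) →
    ∀ (p : NNReal) (hp : p ≤ 1),
      ∀ᵐ ω ∂(Measure.infinitePi (fun _ : G.edgeSet => (PMF.bernoulli p hp).toMeasure)),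
        ∀ c₁ c₂ : (SimpleGraph.fromEdgeSet
            {e : Sym2 V | ∃ h : e ∈ G.edgeSet, ω ⟨e, h⟩ = true}).ConnectedComponent,
          c₁.supp.Infinite → c₂.supp.Infinite → c₁ = c₂) := by
  intro hall
  obtain ⟨T, p, hp, hp0, hp1, hpos⟩ := H57R2.PU.nonuniq 6 (by omega)
  have h1 := hall 7 (H57R2.PU.Vx 6) (H57R2.PU.GG 6 T) (H57R2.PU.conn 6 T)
    ⟨(4 * 6 + 3) ^ (6 + 1), H57R2.PU.deg 6 T⟩ (qi 6 T) p hp
  rw [ae_iff] at h1
  refine absurd h1 (ne_of_gt (lt_of_lt_of_le hpos (measure_mono ?_)))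
  rintro ω ⟨c₁, c₂, h₁, h₂, hne⟩ hh
  exact hne (hh c₁ c₂ h₁ h₂)

end Pool.Agent.S19658
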