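import Pool.Statements.S19664
import Pool.Agent.Q8.KK.Grow

set_option autoImplicit false
open Matrix MeasureTheory ProbabilityTheory
open Pool Pool.MP_d47e08_pr

namespace Pool.Agent.S19664

/-- The negation of the preceding statement: For every even r≥2 and every δ>0, for all large ℓ and every μ>δ, some ε>0 gives, for all large n, E λmax of the Kikuchi matrix at signal μ n^(-r/4) ≥ (1+ε) times E λmax at zero signal; i.e. the threshold tends to 0. -/
theorem result :
    ¬ (∀ r : ℕ, 2 ≤ r → Even r →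
    ∀ δ : ℝ, 0 < δ →
      ∀ᶠ ℓ : ℕ in Filter.atTop, ∀ μ : ℝ, δ < μ →
        ∃ ε : ℝ, 0 < ε ∧ ∀ᶠ n : ℕ in Filter.atTop,
          1 + ε ≤
            (∫ (Z : Finset (Fin n) → ℝ),
                sSup {t : ℝ | ∃ v : {K : Finset (Fin n) // K.card = ℓ} → ℝ,
                  dotProduct v v = 1 ∧
                  t = dotProduct v (Matrix.mulVec
                    (Matrix.of fun I J : {K : Finset (Fin n) // K.card = ℓ} =>
                      if (symmDiff I.1 J.1).card = r
                      then μ * (n : ℝ) ^ (-(r : ℝ) / 4) + Z (symmDiff I.1 J.1)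
                      else 0) v)}
              ∂(Measure.pi fun _ : Finset (Fin n) => gaussianReal 0 1))
            /
            (∫ (Z : Finset (Fin n) → ℝ),
                sSup {t : ℝ | ∃ v : {K : Finset (Fin n) // K.card = ℓ} → ℝ,
                  dotProduct v v = 1 ∧
                  t = dotProduct v (Matrix.mulVec
                    (Matrix.of fun I J : {K : Finset (Fin n) // K.card = ℓ} =>
                      if (symmDiff I.1 J.1).card = r
                      then (0 : ℝ) + Z (symmDiff I.1 J.1)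
                      else 0) v)}
              ∂(Measure.pi fun _ : Finset (Fin n) => gaussianReal 0 1))) := by
  intro H
  obtain ⟨l, hl, hl1⟩ := ((H 2 le_rfl even_two (1 / 4) (by norm_num)).and
    (Filter.eventually_ge_atTop 1)).exists
  obtain ⟨ε, hε, hn⟩ := hl (1 / 2) (by norm_num)
  set R : ℝ := (4 + (l : ℝ) ^ 2) / ε + 1 with hR
  obtain ⟨n, ⟨hn1, hn2⟩, hn3⟩ := ((hn.and (Pool.Agent.Q8.KK.grow hl1 R)).and
    (Filter.eventually_ge_atTop (l + 1))).exists
  have hn0 : 0 < n := by omega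
  have hn' : (0 : ℝ) < n := by exact_mod_cast hn0
  set c : ℝ := 1 / 2 * (n : ℝ) ^ (-((2 : ℕ) : ℝ) / 4) with hc
  have e1 : (∫ (Z : Finset (Fin n) → ℝ),
                sSup {t : ℝ | ∃ v : {K : Finset (Fin n) // K.card = l} → ℝ,
                  dotProduct v v = 1 ∧
                  t = dotProduct v (Matrix.mulVec
                    (Matrix.of fun I J : {K : Finset (Fin n) // K.card = l} =>
                      if (symmDiff I.1 J.1).card = 2
                      then 1 / 2 * (n : ℝ) ^ (-((2 : ℕ) : ℝ) / 4) + Z (symmDiff I.1 J.1)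
                      else 0) v)}
              ∂(Measure.pi fun _ : Finset (Fin n) => gaussianReal 0 1)) =
      ∫ Z, Pool.Agent.Q8.KK.gg l (fun D => c + Z D) ∂(Pool.Agent.Q8.KK.gm (Finset (Fin n))) := rfl
  have e2 : (∫ (Z : Finset (Fin n) → ℝ),
                sSup {t : ℝ | ∃ v : {K : Finset (Fin n) // K.card = l} → ℝ,
                  dotProduct v v = 1 ∧
                  t = dotProduct v (Matrix.mulVec
                    (Matrix.of fun I J : {K : Finset (Fin n) // K.card = l} =>
                      if (symmDiff I.1 J.1).card = 2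
                      then (0 : ℝ) + Z (symmDiff I.1 J.1)
                      else 0) v)}
              ∂(Measure.pi fun _ : Finset (Fin n) => gaussianReal 0 1)) =
      ∫ Z, Pool.Agent.Q8.KK.gg l Z ∂(Pool.Agent.Q8.KK.gm (Finset (Fin n))) := by
    have h1 : ∀ Z : Finset (Fin n) → ℝ, Pool.Agent.Q8.KK.gg l (fun D => 0 + Z D) =
        Pool.Agent.Q8.KK.gg l Z := fun Z => by simp only [zero_add]
    rw [← integral_congr_ae (Filter.Eventually.of_forall h1)]
    rfl
  rw [e1, e2] at hn1
  set m := ∫ Z, Pool.Agent.Q8.KK.gg l Z ∂(Pool.Agent.Q8.KK.gm (Finset (Fin n))) with hm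
  have hR0 : 0 < R := by positivity
  have hm0 : 0 < m := hR0.trans_le hn2
  rw [le_div_iff₀ hm0] at hn1
  have hne : Nonempty (Pool.Agent.Q8.KK.KS n l) := by
    obtain ⟨K, -, hK⟩ := Finset.exists_subset_card_eq (s := (Finset.univ : Finset (Fin n))) (n := l)
      (by rw [Finset.card_univ, Fintype.card_fin]; omega)
    exact ⟨⟨K, hK⟩⟩
  have hc0 : 0 ≤ c := by positivity
  have hc1 : c = 1 / 2 * (√n)⁻¹ := by
    rw [hc, Real.sqrt_eq_rpow, ← Real.rpow_neg hn'.le]
    norm_num
  have hs : √(n : ℝ) * √n = n := Real.mul_self_sqrt hn'.le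
  have hs0 : 0 < √(n : ℝ) := Real.sqrt_pos.2 hn'
  have hc2 : c ^ 2 = 1 / (4 * n) := by
    rw [hc1, mul_pow, inv_pow, Real.sq_sqrt hn'.le]
    field_simp
    norm_num
  have h1 := Pool.Agent.Q8.KK.diff_le hne hc0 hs0
  have h2 := Pool.Agent.Q8.KK.second hn0 hc2
  have h3 : c * ((2 * √(n : ℝ))⁻¹ * ((Fintype.card (Fin n → ℤˣ) : ℝ)⁻¹ *
        ∑ s : Fin n → ℤˣ, Pool.Agent.Q8.KK.TT s * Real.exp (c ^ 2 * Pool.Agent.Q8.KK.TT s)) +
          √n * (l : ℝ) ^ 2) ≤
      c * ((2 * √(n : ℝ))⁻¹ * (6 * n) + √n * (l : ℝ) ^ 2) := by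
    refine mul_le_mul_of_nonneg_left (add_le_add_left (mul_le_mul_of_nonneg_left h2 ?_) _) hc0
    positivity
  have h4 : c * ((2 * √(n : ℝ))⁻¹ * (6 * n) + √n * (l : ℝ) ^ 2) = (3 + (l : ℝ) ^ 2) / 2 := by
    rw [hc1]
    have h5 : (6 : ℝ) * n = 6 * (√(n : ℝ) * √n) := by rw [hs]
    rw [h5]
    field_simp
    ring
  have h6 : ε * m ≤ (3 + (l : ℝ) ^ 2) / 2 := by linarith
  have h7 : ε * R ≤ ε * m := mul_le_mul_of_nonneg_left hn2 hε.le
  have h8 : ε * R = 4 + (l : ℝ) ^ 2 + ε := by
    rw [hR]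
    field_simp
  have h9 : 0 ≤ (l : ℝ) ^ 2 := by positivity
  linarith

end Pool.Agent.S19664
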